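import Mathlib

/-!
Definitions for the canonical cyclotomic `p`-adic height on elliptic curves over the rationals,
following Mazur and Tate.
-/

namespace Pool.Agent.Lib.MP_3550b5_nt

open PowerSeries

/-- The curve `y^2 = x^3 + a x + b` over the rationals, for integers `a`, `b`. -/
def curve (a b : ℤ) : WeierstrassCurve.Affine ℚ := ⟨0, 0, 0, a, b⟩

/-- Good ordinary reduction at `p` (for `p ≥ 5`): the discriminant is prime to `p`, and `p` does
not divide the number of affine points modulo `p`. As `a_p = p - (number of affine points)`, the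
latter says that `p` does not divide the trace of Frobenius `a_p`. -/
def GoodOrdinary (p : ℕ) (a b : ℤ) : Prop :=
  ¬ (p : ℤ) ∣ 4 * a ^ 3 + 27 * b ^ 2 ∧
  ¬ p ∣ Nat.card {v : ZMod p × ZMod p // v.2 ^ 2 = v.1 ^ 3 + (a : ZMod p) * v.1 + (b : ZMod p)}

/-- `σ` is the Mazur-Tate `p`-adic sigma function of `y^2 = x^3 + a x + b`, written as a power
series in the parameter `t = -x/y` with `p`-adic integer coefficients. Here `w = -1/y` (so that
`x = t / w` and `w = t^3 + a t w^2 + b w^3`), `Ω dt = dx / (2 y)` is the invariant differential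
`ω`, and the last equation is `x + c = - (d/ω) ((1/σ) (dσ/ω))` with denominators cleared. -/
structure IsMazurTateSigma (p : ℕ) [Fact p.Prime] (a b : ℤ_[p]) (σ : ℤ_[p]⟦X⟧) : Prop where
  coeff_zero : coeff 0 σ = 0
  coeff_one : coeff 1 σ = 1
  odd : ∀ n, Even n → coeff n σ = 0
  ode : ∃ (w Ω : ℤ_[p]⟦X⟧) (c : ℤ_[p]),
    constantCoeff w = 0 ∧ w = X ^ 3 + C a * X * w ^ 2 + C b * w ^ 3 ∧
    2 * w * Ω = X * derivative ℤ_[p] w - w ∧
    (X + C c * w) * Ω ^ 3 * σ ^ 2 =
      w * (Ω * derivative ℤ_[p] σ ^ 2 + derivative ℤ_[p] Ω * σ * derivative ℤ_[p] σ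
        - Ω * σ * derivative ℤ_[p] (derivative ℤ_[p] σ))

/-- The value at `t` of a power series with `p`-adic integer coefficients. -/
noncomputable def seriesVal {p : ℕ} [Fact p.Prime] (σ : ℤ_[p]⟦X⟧) (t : ℚ_[p]) : ℚ_[p] :=
  ∑' n : ℕ, ((coeff n σ : ℤ_[p]) : ℚ_[p]) * t ^ n

/-- The `p`-adic logarithm series `log (1 + z)`. -/
noncomputable def logOneAdd {p : ℕ} [Fact p.Prime] (z : ℚ_[p]) : ℚ_[p] :=
  ∑' k : ℕ, (-1) ^ k * z ^ (k + 1) / ((k : ℚ_[p]) + 1)

/-- Iwasawa's `p`-adic logarithm on nonzero `p`-adic numbers: `log p = 0`, and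
`log u = log (u ^ (p - 1)) / (p - 1)` for a unit `u`. -/
noncomputable def iwasawaLog {p : ℕ} [Fact p.Prime] (z : ℚ_[p]) : ℚ_[p] :=
  logOneAdd ((z * (p : ℚ_[p]) ^ (-z.valuation)) ^ (p - 1) - 1) / ((p : ℚ_[p]) - 1)

/-- `B` is the canonical cyclotomic `p`-adic height pairing on the rational points of
`y^2 = x^3 + a x + b` (Mazur-Tate normalisation): `B` is symmetric and biadditive, and
`B(P, P) = log (σ(t(P)) / D)` for every point `P = (A / D^2, B' / D^3)` which reduces to the
origin modulo `p` and to a nonsingular point modulo every prime (`2 B'` and `3 A^2 + a D^4`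
coprime). Such points generate a subgroup of finite index, so this determines `B`. -/
structure IsCanonicalHeight (p : ℕ) [Fact p.Prime] (a b : ℤ)
    (B : (curve a b).Point → (curve a b).Point → ℚ_[p]) : Prop where
  symm : ∀ P Q, B P Q = B Q P
  add : ∀ P Q R, B (P + Q) R = B P R + B Q R
  formula : ∃ σ : ℤ_[p]⟦X⟧, IsMazurTateSigma p (a : ℤ_[p]) (b : ℤ_[p]) σ ∧
    ∀ (A B' D : ℤ) (h : (curve a b).Nonsingular ((A : ℚ) / (D : ℚ) ^ 2) ((B' : ℚ) / (D : ℚ) ^ 3)),
      D ≠ 0 → (p : ℤ) ∣ D → IsCoprime (2 * B') (3 * A ^ 2 + a * D ^ 4) →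
      B (.some _ _ h) (.some _ _ h) =
        iwasawaLog (seriesVal σ (-((A : ℚ_[p]) * (D : ℚ_[p])) / (B' : ℚ_[p])) / (D : ℚ_[p]))

/-- `P` is a basis of the Mordell-Weil group modulo torsion. -/
def IsMWBasis {a b : ℤ} {r : ℕ} (P : Fin r → (curve a b).Point) : Prop :=
  ∀ Q : (curve a b).Point, ∃! n : Fin r → ℤ,
    IsOfFinAddOrder (Q - ∑ i, n i • P i)

/-- The regulator of a family of points. -/
noncomputable def regulator {p : ℕ} [Fact p.Prime] {a b : ℤ}
    (B : (curve a b).Point → (curve a b).Point → ℚ_[p]) {r : ℕ}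
    (P : Fin r → (curve a b).Point) : ℚ_[p] :=
  Matrix.det (Matrix.of fun i j => B (P i) (P j))

/-- `P` is the integral point `(x, y)` of `y^2 = x^3 + a x + b`; it is nonsingular modulo every
prime (`2 y` and `3 x^2 + a` are coprime) and has infinite order. -/
def IsGoodPoint (a b x y : ℤ) (P : (curve a b).Point) : Prop :=
  (∃ h : (curve a b).Nonsingular (x : ℚ) (y : ℚ), P = .some _ _ h) ∧
  IsCoprime (2 * y) (3 * x ^ 2 + a) ∧ ¬ IsOfFinAddOrder P

/-- The curve `E : y^2 = x^3 + a x + b` with the marked points `P i = (x i, y i)`, whose differences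
are `P i - P j = (x' i j, y' i j)` for `i < j`, has regulator near `v`: `E` has good ordinary
reduction at `p`, the points `P i` and `P i - P j` (`i < j`) are integral, nonsingular modulo every
prime and of infinite order, and for the canonical `p`-adic height pairing `B` of `E`, either
`|det B(P i, P j) - v| ≤ p ^ (-K)`, or `v = 0`, `E` has rank `r` and its `p`-adic regulator has
absolute value at most `p ^ (-K)`. -/
def RegulatorNear (p : ℕ) [Fact p.Prime] {r : ℕ} (v : ℚ_[p]) (K : ℕ) (a b : ℤ)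
    (x y : Fin r → ℤ) (x' y' : Fin r → Fin r → ℤ) : Prop :=
  GoodOrdinary p a b ∧ ∃ P : Fin r → (curve a b).Point,
    (∀ i, IsGoodPoint a b (x i) (y i) (P i)) ∧
    (∀ i j, i < j → IsGoodPoint a b (x' i j) (y' i j) (P i - P j)) ∧
    ∃ B : (curve a b).Point → (curve a b).Point → ℚ_[p], IsCanonicalHeight p a b B ∧
      (‖regulator B P - v‖ ≤ (p : ℝ) ^ (-(K : ℤ)) ∨
        (v = 0 ∧ ∃ Q : Fin r → (curve a b).Point,
          IsMWBasis Q ∧ ‖regulator B Q‖ ≤ (p : ℝ) ^ (-(K : ℤ))))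

end Pool.Agent.Lib.MP_3550b5_nt
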