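import Mathlib

namespace Pool.Agent.Lib.MP_3550b5_nt

open PowerSeries

variable {p : ℕ} [hp : Fact p.Prime]

/-- Value of an integral power series at a `p`-adic integer of norm `< 1`. -/
noncomputable def ev (f : ℤ_[p]⟦X⟧) (t : ℤ_[p]) : ℤ_[p] := ∑' n, coeff n f * t ^ n

lemma ev_summable_norm (f : ℤ_[p]⟦X⟧) {t : ℤ_[p]} (ht : ‖t‖ < 1) :
    Summable (fun n => ‖coeff n f * t ^ n‖) := by
  refine Summable.of_nonneg_of_le (fun _ => norm_nonneg _) (fun n => ?_)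
    (summable_geometric_of_lt_one (norm_nonneg t) ht)
  rw [norm_mul, norm_pow]
  exact mul_le_of_le_one_left (pow_nonneg (norm_nonneg _) _) (PadicInt.norm_le_one _)

lemma ev_summable (f : ℤ_[p]⟦X⟧) {t : ℤ_[p]} (ht : ‖t‖ < 1) :
    Summable (fun n => coeff n f * t ^ n) := (ev_summable_norm f ht).of_norm

lemma ev_mul (f g : ℤ_[p]⟦X⟧) {t : ℤ_[p]} (ht : ‖t‖ < 1) : ev (f * g) t = ev f t * ev g t := by
  unfold ev
  rw [tsum_mul_tsum_eq_tsum_sum_antidiagonal_of_summable_norm (ev_summable_norm f ht)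
    (ev_summable_norm g ht)]
  refine tsum_congr fun n => ?_
  rw [coeff_mul, Finset.sum_mul]
  refine Finset.sum_congr rfl fun x hx => ?_
  rw [← Finset.HasAntidiagonal.mem_antidiagonal.mp hx, pow_add]
  ring

lemma ev_add (f g : ℤ_[p]⟦X⟧) {t : ℤ_[p]} (ht : ‖t‖ < 1) : ev (f + g) t = ev f t + ev g t := by
  unfold ev
  rw [← (ev_summable f ht).tsum_add (ev_summable g ht)]
  refine tsum_congr fun n => ?_
  rw [map_add]; ring

lemma ev_sub (f g : ℤ_[p]⟦X⟧) {t : ℤ_[p]} (ht : ‖t‖ < 1) : ev (f - g) t = ev f t - ev g t := by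
  unfold ev
  rw [← (ev_summable f ht).tsum_sub (ev_summable g ht)]
  refine tsum_congr fun n => ?_
  rw [map_sub]; ring

lemma ev_one (t : ℤ_[p]) : ev (1 : ℤ_[p]⟦X⟧) t = 1 := by
  unfold ev
  rw [tsum_eq_single 0]
  · simp
  · intro n hn
    rw [coeff_one, if_neg hn, zero_mul]

lemma ev_X (t : ℤ_[p]) : ev (X : ℤ_[p]⟦X⟧) t = t := by
  unfold ev
  rw [tsum_eq_single 1]
  · simp
  · intro n hn
    rw [coeff_X, if_neg hn, zero_mul]

lemma norm_tsum_le_of_forall {f : ℕ → ℤ_[p]} {r : ℝ} (hf : Summable f)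
    (h : ∀ n, ‖f n‖ ≤ r) : ‖∑' n, f n‖ ≤ r := by
  have hr : 0 ≤ r := (norm_nonneg _).trans (h 0)
  have h1 : ∀ s : Finset ℕ, ‖∑ n ∈ s, f n‖ ≤ r := by
    intro s
    induction s using Finset.induction_on with
    | empty => simpa using hr
    | insert a s ha ih =>
      rw [Finset.sum_insert ha]
      exact (PadicInt.nonarchimedean _ _).trans (max_le (h a) ih)
  have h2 : Filter.Tendsto (fun s : Finset ℕ => ‖∑ n ∈ s, f n‖) Filter.atTop
      (nhds ‖∑' n, f n‖) := hf.hasSum.norm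
  exact le_of_tendsto h2 (Filter.Eventually.of_forall h1)

lemma norm_ev_le {f : ℤ_[p]⟦X⟧} {t : ℤ_[p]} (ht : ‖t‖ < 1) {r : ℝ}
    (h : ∀ n, ‖coeff n f * t ^ n‖ ≤ r) : ‖ev f t‖ ≤ r :=
  norm_tsum_le_of_forall (ev_summable f ht) h

/-- Two evaluation points. -/
lemma norm_ev_sub_le (f : ℤ_[p]⟦X⟧) {t t' : ℤ_[p]} (ht : ‖t‖ < 1) (ht' : ‖t'‖ < 1) :
    ‖ev f t - ev f t'‖ ≤ ‖t - t'‖ := by
  unfold ev
  rw [← (ev_summable f ht).tsum_sub (ev_summable f ht')]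
  refine norm_tsum_le_of_forall ((ev_summable f ht).sub (ev_summable f ht')) fun n => ?_
  have h1 : coeff n f * t ^ n - coeff n f * t' ^ n = coeff n f * (t ^ n - t' ^ n) := by ring
  rw [h1, norm_mul]
  obtain ⟨c, hc⟩ := sub_dvd_pow_sub_pow t t' n
  rw [hc, norm_mul]
  calc ‖coeff n f‖ * (‖t - t'‖ * ‖c‖) ≤ 1 * (‖t - t'‖ * 1) := by
        gcongr
        · exact PadicInt.norm_le_one _
        · exact PadicInt.norm_le_one _
    _ = ‖t - t'‖ := by ring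

end Pool.Agent.Lib.MP_3550b5_nt
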