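import Mathlib
import Pool.Agent.Lib.MP_3550b5_nt.Defs
import Pool.Agent.Lib.MP_3550b5_nt.Eval

namespace Pool.Agent.Lib.MP_3550b5_nt

open PowerSeries

variable {p : ℕ} [hp : Fact p.Prime]

/-- Powers of `p` dividing `k + 1`. -/
lemma inv_norm_succ_le (k : ℕ) : ‖((k : ℚ_[p]) + 1)‖⁻¹ ≤ (k : ℝ) + 1 := by
  have h1 : ‖((k : ℚ_[p]) + 1)‖ = (p : ℝ) ^ (-(padicValNat p (k + 1) : ℤ)) := by
    have := Padic.norm_eq_zpow_neg_valuation (p := p) (x := ((k + 1 : ℕ) : ℚ_[p])) (by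
      exact_mod_cast Nat.succ_ne_zero k)
    rw [Padic.valuation_natCast, Nat.cast_succ] at this
    exact this
  rw [h1, zpow_neg, inv_inv, zpow_natCast]
  have : p ^ padicValNat p (k + 1) ≤ k + 1 :=
    Nat.le_of_dvd (Nat.succ_pos k) pow_padicValNat_dvd
  exact_mod_cast this

lemma norm_log_term_le (hp3 : 3 ≤ p) {z : ℚ_[p]} (hz : ‖z‖ ≤ (p : ℝ)⁻¹) (k : ℕ) (hk : 1 ≤ k) :
    ‖(-1) ^ k * z ^ (k + 1) / ((k : ℚ_[p]) + 1)‖ ≤ ‖z‖ * (p : ℝ)⁻¹ := by
  have hpR : (3 : ℝ) ≤ p := by exact_mod_cast hp3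
  have hp0 : (0 : ℝ) < p := by linarith
  have h1 : ‖((k : ℚ_[p]) + 1)‖⁻¹ ≤ (p : ℝ) ^ (k - 1) := by
    have e1 : ‖((k : ℚ_[p]) + 1)‖ = (p : ℝ) ^ (-(padicValNat p (k + 1) : ℤ)) := by
      have := Padic.norm_eq_zpow_neg_valuation (p := p) (x := ((k + 1 : ℕ) : ℚ_[p])) (by
        exact_mod_cast Nat.succ_ne_zero k)
      rw [Padic.valuation_natCast, Nat.cast_succ] at this
      exact this
    rw [e1, zpow_neg, inv_inv, zpow_natCast]
    have h2 : p ^ padicValNat p (k + 1) ≤ k + 1 :=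
      Nat.le_of_dvd (Nat.succ_pos k) pow_padicValNat_dvd
    have h3 : k + 1 < p ^ k := by
      calc k + 1 < 3 ^ k := by
            clear h2 hz e1
            induction k with
            | zero => omega
            | succ n ih =>
              rcases Nat.eq_zero_or_pos n with h | h
              · subst h; norm_num
              · have := ih h
                rw [pow_succ]; omega
        _ ≤ p ^ k := Nat.pow_le_pow_left hp3 k
    have h4 : padicValNat p (k + 1) < k := by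
      have := lt_of_le_of_lt h2 h3
      exact (Nat.pow_lt_pow_iff_right (by omega)).mp this
    exact pow_le_pow_right₀ (by linarith) (by omega)
  rw [norm_div, norm_mul, norm_pow, norm_neg, norm_one, one_pow, one_mul, norm_pow, div_eq_mul_inv]
  calc ‖z‖ ^ (k + 1) * ‖((k : ℚ_[p]) + 1)‖⁻¹ ≤ ‖z‖ ^ (k + 1) * (p : ℝ) ^ (k - 1) := by
        gcongr
    _ = ‖z‖ * ‖z‖ ^ k * (p : ℝ) ^ (k - 1) := by ring
    _ ≤ ‖z‖ * ((p : ℝ)⁻¹) ^ k * (p : ℝ) ^ (k - 1) := by
        gcongr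
    _ = ‖z‖ * (p : ℝ)⁻¹ := by
        obtain ⟨j, rfl⟩ : ∃ j, k = j + 1 := ⟨k - 1, by omega⟩
        rw [Nat.add_sub_cancel, pow_succ, inv_pow]
        field_simp

lemma log_summable {z : ℚ_[p]} (hz : ‖z‖ < 1) :
    Summable (fun k : ℕ => (-1) ^ k * z ^ (k + 1) / ((k : ℚ_[p]) + 1)) := by
  apply Summable.of_norm
  have h1 : Summable (fun k : ℕ => ((k : ℝ) + 1) * ‖z‖ ^ k) := by
    have e1 := summable_pow_mul_geometric_of_norm_lt_one (R := ℝ) 1 (r := ‖z‖) (by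
      rw [norm_norm]; exact hz)
    have e2 := summable_geometric_of_lt_one (norm_nonneg z) hz
    have := e1.add e2
    refine this.congr fun k => ?_
    ring
  refine Summable.of_nonneg_of_le (fun _ => norm_nonneg _) (fun k => ?_) h1
  rw [norm_div, norm_mul, norm_pow, norm_neg, norm_one, one_pow, one_mul, norm_pow, div_eq_mul_inv,
    mul_comm]
  refine mul_le_mul (inv_norm_succ_le k) ?_ (by positivity) (by positivity)
  rw [pow_succ]
  exact mul_le_of_le_one_right (by positivity) hz.le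

lemma norm_tsum_le_padic {f : ℕ → ℚ_[p]} {r : ℝ} (hf : Summable f)
    (h : ∀ n, ‖f n‖ ≤ r) : ‖∑' n, f n‖ ≤ r := by
  have hr : 0 ≤ r := (norm_nonneg _).trans (h 0)
  have h1 : ∀ s : Finset ℕ, ‖∑ n ∈ s, f n‖ ≤ r := by
    intro s
    induction s using Finset.induction_on with
    | empty => simpa using hr
    | insert a s ha ih =>
      rw [Finset.sum_insert ha]
      exact (Padic.nonarchimedean _ _).trans (max_le (h a) ih)
  have h2 : Filter.Tendsto (fun s : Finset ℕ => ‖∑ n ∈ s, f n‖) Filter.atTop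
      (nhds ‖∑' n, f n‖) := hf.hasSum.norm
  exact le_of_tendsto h2 (Filter.Eventually.of_forall h1)

/-- The logarithm only vanishes at the origin on the disc of radius `1/p`, for odd `p`. -/
lemma logOneAdd_eq_zero (hp3 : 3 ≤ p) {z : ℚ_[p]} (hz : ‖z‖ ≤ (p : ℝ)⁻¹)
    (h0 : logOneAdd z = 0) : z = 0 := by
  have hpR : (3 : ℝ) ≤ p := by exact_mod_cast hp3
  have hp0 : (0 : ℝ) < p := by linarith
  have hlt : (p : ℝ)⁻¹ < 1 := inv_lt_one_of_one_lt₀ (by linarith)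
  have hz1 : ‖z‖ < 1 := lt_of_le_of_lt hz hlt
  have hs := log_summable hz1
  unfold logOneAdd at h0
  set f : ℕ → ℚ_[p] := fun k => (-1) ^ k * z ^ (k + 1) / ((k : ℚ_[p]) + 1) with hf
  have hf0 : f 0 = z := by simp [hf]
  rw [hs.tsum_eq_zero_add, hf0] at h0
  have hs1 : Summable (fun n => f (n + 1)) := (summable_nat_add_iff 1).mpr hs
  have hb : ‖∑' (b : ℕ), f (b + 1)‖ ≤ ‖z‖ * (p : ℝ)⁻¹ :=
    norm_tsum_le_padic hs1 fun n => norm_log_term_le hp3 hz (n + 1) (by omega)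
  by_contra hne
  have hzpos : 0 < ‖z‖ := norm_pos_iff.mpr hne
  have e1 : z = -∑' (b : ℕ), f (b + 1) := eq_neg_of_add_eq_zero_left h0
  have e2 : ‖z‖ ≤ ‖z‖ * (p : ℝ)⁻¹ := by
    calc ‖z‖ = ‖-∑' (b : ℕ), f (b + 1)‖ := congrArg _ e1
      _ ≤ _ := by rw [norm_neg]; exact hb
  have e3 : ‖z‖ * (p : ℝ)⁻¹ < ‖z‖ * 1 := by
    exact mul_lt_mul_of_pos_left hlt hzpos
  linarith

lemma norm_pow_sub_one_le {u : ℤ_[p]} (hu : IsUnit u) : ‖u ^ (p - 1) - 1‖ ≤ (p : ℝ)⁻¹ := by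
  have h1 : PadicInt.toZMod (u ^ (p - 1) - 1) = 0 := by
    rw [map_sub, map_pow, map_one, ZMod.pow_card_sub_one_eq_one, sub_self]
    intro h0
    exact (hu.map (PadicInt.toZMod (p := p))).ne_zero h0
  have h2 : (u ^ (p - 1) - 1) ∈ (Ideal.span {(p : ℤ_[p])} : Ideal ℤ_[p]) := by
    rw [← PadicInt.maximalIdeal_eq_span_p, ← PadicInt.ker_toZMod]
    exact h1
  have h3 := (PadicInt.norm_le_pow_iff_mem_span_pow (u ^ (p - 1) - 1) 1).mpr (by simpa using h2)
  simpa using h3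

/-- Vanishing of the Iwasawa logarithm of a unit. -/
lemma pow_eq_one_of_iwasawaLog {u : ℤ_[p]} (hp3 : 3 ≤ p) (hu : IsUnit u)
    (h0 : iwasawaLog (u : ℚ_[p]) = 0) : u ^ (p - 1) = 1 := by
  have hval : (u : ℚ_[p]).valuation = 0 := by
    have h1 : ‖(u : ℚ_[p])‖ = 1 := by
      rw [PadicInt.padic_norm_e_of_padicInt]
      exact PadicInt.isUnit_iff.mp hu
    have hne : (u : ℚ_[p]) ≠ 0 := by
      intro h
      rw [h, norm_zero] at h1
      exact zero_ne_one h1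
    rw [Padic.norm_eq_zpow_neg_valuation hne] at h1
    have hp1 : (1 : ℝ) < p := by exact_mod_cast hp.out.one_lt
    have h2 := (zpow_eq_one_iff_right₀ (by positivity) hp1.ne').mp h1
    omega
  unfold iwasawaLog at h0
  rw [hval, neg_zero, zpow_zero, mul_one] at h0
  have hpne : ((p : ℚ_[p]) - 1) ≠ 0 := by
    intro h
    have : (p : ℚ_[p]) = (1 : ℕ) := by push_cast; exact sub_eq_zero.mp h
    have : p = 1 := by exact_mod_cast this
    omega
  have h1 : logOneAdd ((u : ℚ_[p]) ^ (p - 1) - 1) = 0 := by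
    rcases div_eq_zero_iff.mp h0 with h | h
    · exact h
    · exact absurd h hpne
  have hn : ‖(u : ℚ_[p]) ^ (p - 1) - 1‖ ≤ (p : ℝ)⁻¹ := by
    have := norm_pow_sub_one_le hu
    rw [← PadicInt.padic_norm_e_of_padicInt] at this
    push_cast at this
    exact this
  have h2 := logOneAdd_eq_zero hp3 hn h1
  have h3 : ((u ^ (p - 1) : ℤ_[p]) : ℚ_[p]) = ((1 : ℤ_[p]) : ℚ_[p]) := by
    push_cast
    exact sub_eq_zero.mp h2
  exact Subtype.coe_injective h3

lemma seriesVal_coe (σ : ℤ_[p]⟦X⟧) {t : ℤ_[p]} (ht : ‖t‖ < 1) :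
    seriesVal σ (t : ℚ_[p]) = ((ev σ t : ℤ_[p]) : ℚ_[p]) := by
  unfold seriesVal ev
  have h1 := (ev_summable σ ht).hasSum
  have h2 := h1.map (PadicInt.Coe.ringHom (p := p)) (by
    exact continuous_subtype_val)
  have h3 := h2.tsum_eq
  simp only [Function.comp_def] at h3
  rw [show ((∑' n, coeff n σ * t ^ n : ℤ_[p]) : ℚ_[p]) =
    PadicInt.Coe.ringHom (∑' n, coeff n σ * t ^ n) from rfl, ← h3]
  refine tsum_congr fun n => ?_
  rw [map_mul, map_pow]
  rfl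

end Pool.Agent.Lib.MP_3550b5_nt
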