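import Mathlib
import Pool.Agent.Lib.MP_3550b5_nt.Log

namespace Pool.Agent.Lib.MP_3550b5_nt

open PowerSeries Filter Topology

variable {p : ℕ} [hp : Fact p.Prime]

lemma norm_natCast_le_one' (n : ℕ) : ‖(n : ℚ_[p])‖ ≤ 1 := by
  have := Padic.norm_int_le_one (p := p) (n : ℤ)
  simpa using this

/-- Power of a one-unit as a finite sum. -/
lemma pow_sub_one_div (z : ℚ_[p]) (N : ℕ) (hN : 0 < N) :
    ((1 + z) ^ N - 1) / (N : ℚ_[p]) =
      ∑' j : ℕ, ((N - 1).choose j : ℚ_[p]) * z ^ (j + 1) / ((j : ℚ_[p]) + 1) := by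
  have hN0 : (N : ℚ_[p]) ≠ 0 := by exact_mod_cast hN.ne'
  rw [tsum_eq_sum (s := Finset.range N)]
  · rw [div_eq_iff hN0, add_comm (1 : ℚ_[p]) z, add_pow, Finset.sum_range_succ', Finset.sum_mul]
    simp only [one_pow, mul_one, pow_zero, Nat.choose_zero_right, Nat.cast_one, add_sub_cancel_right]
    refine Finset.sum_congr rfl fun j hj => ?_
    have h1 := Nat.add_one_mul_choose_eq (N - 1) j
    rw [Nat.sub_add_cancel hN] at h1
    have h2 : (N : ℚ_[p]) * ((N - 1).choose j : ℚ_[p]) = (N.choose (j + 1) : ℚ_[p]) * ((j : ℚ_[p]) + 1) := by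
      exact_mod_cast congrArg (Nat.cast (R := ℚ_[p])) h1
    have hj0 : ((j : ℚ_[p]) + 1) ≠ 0 := by exact_mod_cast Nat.succ_ne_zero j
    rw [div_mul_eq_mul_div, eq_div_iff hj0]
    linear_combination -(z ^ (j + 1)) * h2
  · intro j hj
    rw [Finset.mem_range, not_lt] at hj
    rw [Nat.choose_eq_zero_of_lt (by omega)]
    simp

/-- Binomial coefficients `C (p^n - 1, j)` tend to `(-1)^j`. -/
lemma tendsto_choose (j : ℕ) :
    Tendsto (fun n : ℕ => (((p ^ n - 1).choose j : ℕ) : ℚ_[p])) atTop (𝓝 ((-1) ^ j)) := by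
  have hf : (j.factorial : ℚ_[p]) ≠ 0 := by exact_mod_cast Nat.factorial_ne_zero j
  have hpn : Tendsto (fun n : ℕ => ((p : ℚ_[p])) ^ n) atTop (𝓝 0) := by
    apply tendsto_pow_atTop_nhds_zero_of_norm_lt_one
    exact Padic.norm_p_lt_one
  have h1 : Tendsto (fun n : ℕ => ∏ i ∈ Finset.range j, (((p : ℚ_[p])) ^ n - 1 - (i : ℚ_[p]))) atTop
      (𝓝 (∏ i ∈ Finset.range j, ((0 : ℚ_[p]) - 1 - (i : ℚ_[p])))) := by
    apply tendsto_finset_prod
    intro i _
    exact ((hpn.sub_const 1).sub_const _)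
  have h2 : ∏ i ∈ Finset.range j, ((0 : ℚ_[p]) - 1 - (i : ℚ_[p])) = (-1) ^ j * (j.factorial : ℚ_[p]) := by
    have : ∀ i ∈ Finset.range j, ((0 : ℚ_[p]) - 1 - (i : ℚ_[p])) = (-1) * ((i + 1 : ℕ) : ℚ_[p]) := by
      intro i _
      push_cast; ring
    rw [Finset.prod_congr rfl this, Finset.prod_mul_distrib, Finset.prod_const, Finset.card_range,
      ← Nat.cast_prod, Finset.prod_range_add_one_eq_factorial]
  rw [h2] at h1
  have h3 := h1.div_const (j.factorial : ℚ_[p])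
  rw [mul_div_assoc, div_self hf, mul_one] at h3
  refine h3.congr' ?_
  filter_upwards [eventually_ge_atTop j] with n hn
  have hlt : j < p ^ n := lt_of_le_of_lt hn (Nat.lt_pow_self hp.out.one_lt)
  rw [div_eq_iff hf]
  have h4 := Nat.descFactorial_eq_factorial_mul_choose (p ^ n - 1) j
  have h5 := Nat.descFactorial_eq_prod_range (p ^ n - 1) j
  have h6 : (((p ^ n - 1).descFactorial j : ℕ) : ℚ_[p]) =
      ∏ i ∈ Finset.range j, (((p : ℚ_[p])) ^ n - 1 - (i : ℚ_[p])) := by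
    rw [h5, Nat.cast_prod]
    refine Finset.prod_congr rfl fun i hi => ?_
    rw [Finset.mem_range] at hi
    rw [Nat.cast_sub (by omega), Nat.cast_sub (by omega)]
    push_cast; ring
  rw [← h6, h4]
  push_cast; ring

/-- The logarithm as a limit. -/
lemma tendsto_log {z : ℚ_[p]} (hz : ‖z‖ < 1) :
    Tendsto (fun n : ℕ => ((1 + z) ^ (p ^ n) - 1) / ((p : ℚ_[p]) ^ n)) atTop
      (𝓝 (logOneAdd z)) := by
  have h1 : Summable (fun k : ℕ => ((k : ℝ) + 1) * ‖z‖ ^ k) := by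
    have e1 := summable_pow_mul_geometric_of_norm_lt_one (R := ℝ) 1 (r := ‖z‖) (by
      rw [norm_norm]; exact hz)
    have e2 := summable_geometric_of_lt_one (norm_nonneg z) hz
    have := e1.add e2
    refine this.congr fun k => ?_
    ring
  have h2 := tendsto_tsum_of_dominated_convergence (𝓕 := (atTop : Filter ℕ))
    (f := fun (n : ℕ) (j : ℕ) =>
      (((p ^ n - 1).choose j : ℕ) : ℚ_[p]) * z ^ (j + 1) / ((j : ℚ_[p]) + 1))
    (g := fun j : ℕ => (-1) ^ j * z ^ (j + 1) / ((j : ℚ_[p]) + 1)) h1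
    (by
      intro j
      exact ((tendsto_choose j).mul_const _).div_const _)
    (by
      filter_upwards with n j
      rw [norm_div, norm_mul, norm_pow, div_eq_mul_inv, mul_comm ((j : ℝ) + 1)]
      refine mul_le_mul ?_ (inv_norm_succ_le j) (by positivity) (by positivity)
      calc ‖(((p ^ n - 1).choose j : ℕ) : ℚ_[p])‖ * ‖z‖ ^ (j + 1) ≤ 1 * ‖z‖ ^ (j + 1) := by
            gcongr
            exact norm_natCast_le_one' _
        _ = ‖z‖ ^ j * ‖z‖ := by ring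
        _ ≤ ‖z‖ ^ j * 1 := by gcongr
        _ = ‖z‖ ^ j := mul_one _)
  unfold logOneAdd
  refine h2.congr fun n => ?_
  have := pow_sub_one_div z (p ^ n) (by have := hp.out.pos; positivity)
  push_cast at this
  rw [this]

/-- Additivity of the logarithm. -/
lemma logOneAdd_mul {z w : ℚ_[p]} (hz : ‖z‖ < 1) (hw : ‖w‖ < 1) :
    logOneAdd ((1 + z) * (1 + w) - 1) = logOneAdd z + logOneAdd w := by
  have h3 : ‖(1 + z) * (1 + w) - 1‖ < 1 := by
    have e : (1 + z) * (1 + w) - 1 = z + w + z * w := by ring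
    rw [e]
    refine lt_of_le_of_lt (Padic.nonarchimedean _ _) (max_lt ?_ ?_)
    · exact lt_of_le_of_lt (Padic.nonarchimedean _ _) (max_lt hz hw)
    · rw [norm_mul]
      calc ‖z‖ * ‖w‖ ≤ ‖z‖ * 1 := by gcongr
        _ < 1 := by rw [mul_one]; exact hz
  have t1 := tendsto_log hz
  have t2 := tendsto_log hw
  have t3 := tendsto_log h3
  have hpn : Tendsto (fun n : ℕ => ((p : ℚ_[p])) ^ n) atTop (𝓝 0) := by
    apply tendsto_pow_atTop_nhds_zero_of_norm_lt_one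
    exact Padic.norm_p_lt_one
  have hp0 : (p : ℚ_[p]) ≠ 0 := by exact_mod_cast hp.out.ne_zero
  have t4 : Tendsto (fun n : ℕ => (1 + z) ^ (p ^ n)) atTop (𝓝 1) := by
    have := (t1.mul hpn).add_const 1
    rw [mul_zero, zero_add] at this
    refine this.congr fun n => ?_
    rw [div_mul_cancel₀ _ (pow_ne_zero n hp0)]; ring
  have t5 := t1.add (t4.mul t2)
  rw [one_mul] at t5
  refine tendsto_nhds_unique t3 (t5.congr fun n => ?_)
  have hpn0 := pow_ne_zero n hp0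
  rw [show 1 + ((1 + z) * (1 + w) - 1) = (1 + z) * (1 + w) by ring, mul_pow]
  field_simp
  ring

/-- The logarithm is an isometry on the disc of radius `1/p`. -/
lemma norm_logOneAdd (hp3 : 3 ≤ p) {z : ℚ_[p]} (hz : ‖z‖ ≤ (p : ℝ)⁻¹) :
    ‖logOneAdd z‖ = ‖z‖ := by
  have hpR : (3 : ℝ) ≤ p := by exact_mod_cast hp3
  have hlt : (p : ℝ)⁻¹ < 1 := inv_lt_one_of_one_lt₀ (by linarith)
  have hz1 : ‖z‖ < 1 := lt_of_le_of_lt hz hlt
  have hs := log_summable hz1
  unfold logOneAdd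
  set f : ℕ → ℚ_[p] := fun k => (-1) ^ k * z ^ (k + 1) / ((k : ℚ_[p]) + 1) with hf
  have hf0 : f 0 = z := by simp [hf]
  rw [hs.tsum_eq_zero_add, hf0]
  have hs1 : Summable (fun n => f (n + 1)) := (summable_nat_add_iff 1).mpr hs
  have hb : ‖∑' (b : ℕ), f (b + 1)‖ ≤ ‖z‖ * (p : ℝ)⁻¹ :=
    norm_tsum_le_padic hs1 fun n => norm_log_term_le hp3 hz (n + 1) (by omega)
  rcases eq_or_ne z 0 with h0 | hne
  · have h1 : ∑' (b : ℕ), f (b + 1) = 0 := by
      rw [h0, norm_zero, zero_mul] at hb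
      exact norm_le_zero_iff.mp hb
    rw [h1, add_zero]
  · have hzpos : 0 < ‖z‖ := norm_pos_iff.mpr hne
    have h2 : ‖∑' (b : ℕ), f (b + 1)‖ < ‖z‖ := by
      refine lt_of_le_of_lt hb ?_
      calc ‖z‖ * (p : ℝ)⁻¹ < ‖z‖ * 1 := mul_lt_mul_of_pos_left hlt hzpos
        _ = ‖z‖ := mul_one _
    rw [Padic.add_eq_max_of_ne h2.ne', max_eq_left h2.le]

/-- The logarithm of a `p`-adic unit. -/
noncomputable def ulog (u : ℤ_[p]) : ℚ_[p] :=
  logOneAdd (((u ^ (p - 1) - 1 : ℤ_[p]) : ℚ_[p])) / ((p : ℚ_[p]) - 1)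

lemma valuation_coe_unit {u : ℤ_[p]} (hu : IsUnit u) : (u : ℚ_[p]).valuation = 0 := by
  have h1 : ‖(u : ℚ_[p])‖ = 1 := by
    rw [PadicInt.padic_norm_e_of_padicInt]
    exact PadicInt.isUnit_iff.mp hu
  have hne : (u : ℚ_[p]) ≠ 0 := by
    intro h
    rw [h, norm_zero] at h1
    exact zero_ne_one h1
  rw [Padic.norm_eq_zpow_neg_valuation hne] at h1
  have hp1 : (1 : ℝ) < p := by exact_mod_cast hp.out.one_lt
  have h2 := (zpow_eq_one_iff_right₀ (by positivity) hp1.ne').mp h1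
  omega

lemma iwasawaLog_coe {u : ℤ_[p]} (hu : IsUnit u) : iwasawaLog (u : ℚ_[p]) = ulog u := by
  unfold iwasawaLog ulog
  rw [valuation_coe_unit hu, neg_zero, zpow_zero, mul_one]
  push_cast
  rfl

lemma norm_p_sub_one (hp3 : 3 ≤ p) : ‖((p : ℚ_[p]) - 1)‖ = 1 := by
  have h1 : ‖(p : ℚ_[p])‖ < 1 := Padic.norm_p_lt_one
  have h2 : ‖(-1 : ℚ_[p])‖ = 1 := by rw [norm_neg, norm_one]
  rw [sub_eq_add_neg, Padic.add_eq_max_of_ne (by rw [h2]; exact h1.ne), h2, max_eq_right h1.le]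

lemma norm_coe_pow_sub_one_le {u : ℤ_[p]} (hu : IsUnit u) :
    ‖((u ^ (p - 1) - 1 : ℤ_[p]) : ℚ_[p])‖ ≤ (p : ℝ)⁻¹ := by
  rw [PadicInt.padic_norm_e_of_padicInt]
  exact norm_pow_sub_one_le hu

lemma inv_p_lt_one : (p : ℝ)⁻¹ < 1 := by
  have : (1 : ℝ) < p := by exact_mod_cast hp.out.one_lt
  exact inv_lt_one_of_one_lt₀ this

lemma ulog_mul {u v : ℤ_[p]} (hu : IsUnit u) (hv : IsUnit v) : ulog (u * v) = ulog u + ulog v := by
  unfold ulog
  have h1 := logOneAdd_mul (lt_of_le_of_lt (norm_coe_pow_sub_one_le hu) inv_p_lt_one)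
    (lt_of_le_of_lt (norm_coe_pow_sub_one_le hv) inv_p_lt_one)
  rw [← add_div, ← h1]
  congr 2
  push_cast
  ring

lemma ulog_one : ulog (1 : ℤ_[p]) = 0 := by
  have := ulog_mul (p := p) isUnit_one isUnit_one
  rw [one_mul] at this
  linear_combination -this

lemma ulog_pow {u : ℤ_[p]} (hu : IsUnit u) (n : ℕ) : ulog (u ^ n) = n * ulog u := by
  induction n with
  | zero => rw [pow_zero, ulog_one]; simp
  | succ n ih => rw [pow_succ, ulog_mul (hu.pow n) hu, ih]; push_cast; ring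

lemma norm_ulog (hp3 : 3 ≤ p) {u : ℤ_[p]} (hu : IsUnit u) :
    ‖ulog u‖ = ‖u ^ (p - 1) - 1‖ := by
  unfold ulog
  rw [norm_div, norm_p_sub_one hp3, div_one, norm_logOneAdd hp3 (norm_coe_pow_sub_one_le hu),
    PadicInt.padic_norm_e_of_padicInt]

lemma norm_ulog_le (hp3 : 3 ≤ p) {u : ℤ_[p]} (hu : IsUnit u) : ‖ulog u‖ ≤ (p : ℝ)⁻¹ := by
  rw [norm_ulog hp3 hu]
  exact norm_pow_sub_one_le hu

/-- On one-units the logarithm is an isometry. -/
lemma norm_ulog_of_one (hp3 : 3 ≤ p) {u : ℤ_[p]} (h1 : ‖u - 1‖ < 1) : ‖ulog u‖ = ‖u - 1‖ := by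
  have hu : IsUnit u := by
    rw [PadicInt.isUnit_iff]
    by_contra hne
    have hlt : ‖u‖ < 1 := lt_of_le_of_ne (PadicInt.norm_le_one _) hne
    have h2 : ‖(1 : ℤ_[p])‖ ≤ max ‖u‖ ‖-(u - 1)‖ := by
      have e : (1 : ℤ_[p]) = u + -(u - 1) := by ring
      calc ‖(1 : ℤ_[p])‖ = ‖u + -(u - 1)‖ := congrArg _ e
        _ ≤ _ := PadicInt.nonarchimedean _ _
    rw [norm_one, norm_neg] at h2
    have := max_lt hlt h1
    linarith
  rw [norm_ulog hp3 hu]
  -- u^(p-1) - 1 = (u - 1) * s with s a unit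
  have e : u ^ (p - 1) - 1 = (u - 1) * ∑ i ∈ Finset.range (p - 1), u ^ i := by
    rw [mul_comm, geom_sum_mul]
  rw [e, norm_mul]
  have hred : PadicInt.toZMod u = 1 := by
    have h2 : PadicInt.toZMod (u - 1) = 0 := by
      have h4 : (u - 1) ∈ (IsLocalRing.maximalIdeal ℤ_[p]) := by
        rw [IsLocalRing.mem_maximalIdeal, mem_nonunits_iff, PadicInt.isUnit_iff]
        exact h1.ne
      rw [← PadicInt.ker_toZMod] at h4
      exact h4
    rw [map_sub, map_one] at h2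
    exact sub_eq_zero.mp h2
  have hs : IsUnit (∑ i ∈ Finset.range (p - 1), u ^ i) := by
    by_contra hnu
    have h4 : (∑ i ∈ Finset.range (p - 1), u ^ i) ∈ (IsLocalRing.maximalIdeal ℤ_[p]) := by
      rw [IsLocalRing.mem_maximalIdeal, mem_nonunits_iff]; exact hnu
    rw [← PadicInt.ker_toZMod, RingHom.mem_ker, map_sum] at h4
    simp only [map_pow, hred, one_pow, Finset.sum_const, Finset.card_range, nsmul_eq_mul,
      mul_one] at h4
    rw [ZMod.natCast_eq_zero_iff] at h4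
    have := Nat.le_of_dvd (by omega) h4
    omega
  rw [PadicInt.isUnit_iff.mp hs, mul_one]

/-- Lipschitz property of the logarithm of units. -/
lemma norm_ulog_sub (hp3 : 3 ≤ p) {u v : ℤ_[p]} (hu : IsUnit u) (hv : IsUnit v)
    (h : ‖u - v‖ < 1) : ‖ulog u - ulog v‖ = ‖u - v‖ := by
  obtain ⟨w, hw⟩ : ∃ w, v * w = 1 := by
    obtain ⟨v', rfl⟩ := hv
    exact ⟨↑v'⁻¹, v'.mul_inv⟩
  have hwu : IsUnit w := IsUnit.of_mul_eq_one _ (by rw [mul_comm]; exact hw)
  have hnw : ‖w‖ = 1 := PadicInt.isUnit_iff.mp hwu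
  have e : u * w - 1 = (u - v) * w := by rw [← hw]; ring
  have h1 : ‖u * w - 1‖ = ‖u - v‖ := by rw [e, norm_mul, hnw, mul_one]
  have h2 : ulog (u * w) = ulog u - ulog v := by
    have h3 : ulog v + ulog w = 0 := by rw [← ulog_mul hv hwu, hw, ulog_one]
    rw [ulog_mul hu hwu]
    linear_combination h3
  rw [← h2, norm_ulog_of_one hp3 (by rw [h1]; exact h), h1]

lemma ulog_neg (hp3 : 3 ≤ p) (u : ℤ_[p]) : ulog (-u) = ulog u := by
  unfold ulog
  have heven : Even (p - 1) := by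
    have := hp.out.odd_of_ne_two (by omega)
    exact this.tsub_odd odd_one
  rw [heven.neg_pow]

end Pool.Agent.Lib.MP_3550b5_nt
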