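import Mathlib

namespace Pool.Agent.Lib.MP_3550b5_nt

open PowerSeries

/-- `f` has logarithmic derivative `h` with respect to `X d/dX`. -/
def LD {R : Type*} [CommRing R] (f h : R⟦X⟧) : Prop := X * derivative R f = h * f

lemma LD.mul {R : Type*} [CommRing R] {f g h k : R⟦X⟧} (hf : LD f h) (hg : LD g k) :
    LD (f * g) (h + k) := by
  unfold LD at *
  rw [Derivation.leibniz, smul_eq_mul, smul_eq_mul]
  linear_combination f * hg + g * hf

lemma LD.pow {R : Type*} [CommRing R] {f h : R⟦X⟧} (hf : LD f h) (n : ℕ) :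
    LD (f ^ n) (n * h) := by
  induction n with
  | zero => simp [LD]
  | succ n ih =>
    rw [pow_succ]
    have := ih.mul hf
    have e : ((n + 1 : ℕ) : R⟦X⟧) * h = n * h + h := by push_cast; ring
    rw [e]; exact this

lemma LD_X {R : Type*} [CommRing R] : LD (X : R⟦X⟧) 1 := by simp [LD]

/-- The Hasse invariant, as coefficient of the reversed polynomial. -/
noncomputable def hasseRev {R : Type*} [CommRing R] (a b : R) (q : ℕ) : Polynomial R :=
  (1 + Polynomial.C a * Polynomial.X ^ 2 + Polynomial.C b * Polynomial.X ^ 3) ^ q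

lemma hasseRev_natDegree {R : Type*} [CommRing R] (a b : R) (q : ℕ) :
    (hasseRev a b q).natDegree < 3 * q + 1 := by
  unfold hasseRev
  have h1 : (1 + Polynomial.C a * Polynomial.X ^ 2 + Polynomial.C b * Polynomial.X ^ 3 :
      Polynomial R).natDegree ≤ 3 := by
    refine (Polynomial.natDegree_add_le _ _).trans (max_le ?_ (Polynomial.natDegree_C_mul_X_pow_le _ _))
    refine (Polynomial.natDegree_add_le _ _).trans (max_le (by simp) ?_)
    exact (Polynomial.natDegree_C_mul_X_pow_le _ _).trans (by norm_num)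
  have h2 := Polynomial.natDegree_pow_le_of_le q h1
  omega

/-- First congruence: `Ω_{pn-1} = A Ω_{p(n-1)}` in characteristic `p`. -/
theorem cartier_one {p q : ℕ} [Fact p.Prime] (hpq : p = 2 * q + 1) (hq : 1 ≤ q) {a b : ZMod p}
    {W V Om : (ZMod p)⟦X⟧} (hW : W = 1 + C a * X ^ 4 * W ^ 2 + C b * X ^ 6 * W ^ 3)
    (hV : W * V = 1) (hOm : 2 * W * Om = 2 * W + X * derivative (ZMod p) W) (n : ℕ) (hn : 1 ≤ n) :
    coeff (p * n - 1) Om = (hasseRev a b q).coeff q * coeff (p * (n - 1)) Om := by
  have hp2 : (2 : ZMod p) ≠ 0 := by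
    have : Fact (Nat.Prime p) := inferInstance
    have hne : ((2 : ℕ) : ZMod p) ≠ 0 := by
      rw [Ne, ZMod.natCast_eq_zero_iff]
      intro hd
      have := Nat.le_of_dvd (by norm_num) hd
      have h2 := this.antisymm (Fact.out (p := p.Prime)).two_le
      omega
    exact_mod_cast hne
  -- log derivatives
  have LW : LD W (2 * Om - 2) := by
    unfold LD
    linear_combination -hOm
  have LV : LD V (2 - 2 * Om) := by
    unfold LD
    have h1 : derivative (ZMod p) (W * V) = 0 := by rw [hV]; exact derivative_one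
    rw [Derivation.leibniz, smul_eq_mul, smul_eq_mul] at h1
    unfold LD at LW
    linear_combination (V * X) * h1 - V ^ 2 * LW + (X * derivative (ZMod p) V - V * (2 - 2 * Om)) * (-hV)
  set s : (ZMod p)⟦X⟧ := X ^ 2 * W with hs
  have Ls : LD s (2 * Om) := by
    have := (LD_X (R := ZMod p)).pow 2 |>.mul LW
    rw [hs]
    convert this using 1
    push_cast; ring
  have hWs : W = 1 + C a * s ^ 2 + C b * s ^ 3 := by
    rw [hs]
    linear_combination hW
  have hWq : W ^ q = ∑ k ∈ Finset.range (3 * q + 1), C ((hasseRev a b q).coeff k) * s ^ k := by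
    have e1 : Polynomial.aeval s (hasseRev a b q) = W ^ q := by
      unfold hasseRev
      rw [map_pow]
      congr 1
      conv_rhs => rw [hWs]
      simp only [map_add, map_one, map_mul, Polynomial.aeval_C, map_pow, Polynomial.aeval_X]
      rfl
    rw [← e1, Polynomial.aeval_eq_sum_range' (hasseRev_natDegree a b q)]
    refine Finset.sum_congr rfl fun k _ => ?_
    rw [smul_eq_C_mul]
  -- the primitive
  let c : ℕ → ZMod p := fun k => if k = q then 0 else
    (hasseRev a b q).coeff k / (((k : ZMod p)) - (q : ZMod p))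
  let Y : ℕ → (ZMod p)⟦X⟧ := fun k => X * V ^ q * s ^ k
  set K : (ZMod p)⟦X⟧ := ∑ k ∈ Finset.range (3 * q + 1), C (c k) * Y k with hK
  have hpz : (p : (ZMod p)⟦X⟧) = 0 := by
    have : ((p : ZMod p) : ZMod p) = 0 := by simp
    rw [← map_natCast (C (R := ZMod p)), this, map_zero]
  have hY : ∀ k, X * derivative (ZMod p) (Y k) = 2 * Om * (C ((k : ZMod p) - (q : ZMod p))) * Y k := by
    intro k
    have := ((LD_X (R := ZMod p)).mul (LV.pow q)).mul (Ls.pow k)
    unfold LD at this
    simp only [Y]
    rw [this]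
    congr 1
    rw [map_sub, map_natCast, map_natCast]
    have hpz' : (2 * (q : (ZMod p)⟦X⟧) + 1) = 0 := by
      have h0 : ((2 * q + 1 : ℕ) : (ZMod p)⟦X⟧) = 0 := by rw [← hpq]; exact hpz
      rw [← h0]; push_cast; ring
    linear_combination hpz'
  have hXK : X * derivative (ZMod p) K = X * (2 * Om * (1 - C ((hasseRev a b q).coeff q) * X ^ (2 * q))) := by
    rw [hK, map_sum, Finset.mul_sum]
    have e1 : ∀ k ∈ Finset.range (3 * q + 1), X * derivative (ZMod p) (C (c k) * Y k) =
        2 * Om * (X * V ^ q) * (C (if k = q then 0 else (hasseRev a b q).coeff k) * s ^ k) := by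
      intro k hk
      rw [Derivation.leibniz, derivative_C, smul_zero, add_zero, smul_eq_mul]
      have e2 : X * (C (c k) * derivative (ZMod p) (Y k)) = C (c k) * (X * derivative (ZMod p) (Y k)) := by
        ring
      rw [e2, hY k]
      simp only [c, Y]
      by_cases hkq : k = q
      · simp [hkq]
      · rw [if_neg hkq, if_neg hkq]
        have hne : (k : ZMod p) - (q : ZMod p) ≠ 0 := by
          rw [sub_ne_zero]
          intro hh
          rw [ZMod.natCast_eq_natCast_iff'] at hh
          have hk' := Finset.mem_range.mp hk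
          rcases lt_or_gt_of_ne hkq with hlt | hlt
          · rw [Nat.mod_eq_of_lt (by omega), Nat.mod_eq_of_lt (by omega)] at hh
            exact hkq hh
          · have hq' : q % p = q := Nat.mod_eq_of_lt (by omega)
            rw [hq'] at hh
            rcases lt_or_ge k p with h1 | h1
            · rw [Nat.mod_eq_of_lt h1] at hh; exact hkq hh
            · have : k % p = k - p := by
                rw [Nat.mod_eq_sub_mod h1, Nat.mod_eq_of_lt (by omega)]
              omega
        have e3 : C ((hasseRev a b q).coeff k) = C ((hasseRev a b q).coeff k / ((k : ZMod p) - (q : ZMod p))) *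
          C ((k : ZMod p) - (q : ZMod p)) := by
          rw [← map_mul, div_mul_cancel₀ _ hne]
        rw [e3]
        ring
    rw [Finset.sum_congr rfl e1, ← Finset.mul_sum]
    have e4 : ∑ k ∈ Finset.range (3 * q + 1), C (if k = q then 0 else (hasseRev a b q).coeff k) * s ^ k
        = W ^ q - C ((hasseRev a b q).coeff q) * s ^ q := by
      rw [hWq, eq_sub_iff_add_eq]
      have hmem : q ∈ Finset.range (3 * q + 1) := Finset.mem_range.mpr (by omega)
      rw [← Finset.add_sum_erase _ _ hmem, ← Finset.add_sum_erase _ (fun k => C ((hasseRev a b q).coeff k) * s ^ k) hmem]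
      simp only [if_true, map_zero, zero_mul, zero_add]
      rw [add_comm]
      congr 1
      refine Finset.sum_congr rfl fun k hk => ?_
      rw [if_neg (Finset.ne_of_mem_erase hk)]
    rw [e4]
    have e5 : V ^ q * W ^ q = 1 := by rw [← mul_pow, mul_comm V W, hV, one_pow]
    have e6 : V ^ q * s ^ q = X ^ (2 * q) := by
      rw [← mul_pow, hs, pow_mul]
      congr 1
      linear_combination X ^ 2 * hV
    linear_combination (2 * Om * X) * e5 - (2 * Om * X * C ((hasseRev a b q).coeff q)) * e6
  have hK' : derivative (ZMod p) K = 2 * Om * (1 - C ((hasseRev a b q).coeff q) * X ^ (2 * q)) := by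
    exact mul_left_cancel₀ X_ne_zero hXK
  have hc := congrArg (coeff (p * n - 1)) hK'
  have hpn : 1 ≤ p * n := Nat.one_le_iff_ne_zero.mpr (by
    have := (Fact.out (p := p.Prime)).pos
    positivity)
  rw [coeff_derivative] at hc
  have hcast : ((p * n - 1 : ℕ) : ZMod p) + 1 = 0 := by
    have : ((p * n - 1 : ℕ) : ZMod p) + 1 = ((p * n - 1 + 1 : ℕ) : ZMod p) := by push_cast; ring
    rw [this, Nat.sub_add_cancel hpn]
    simp
  rw [hcast, mul_zero] at hc
  have e7 : 2 * Om * (1 - C ((hasseRev a b q).coeff q) * X ^ (2 * q)) =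
      C 2 * (Om - C ((hasseRev a b q).coeff q) * (Om * X ^ (2 * q))) := by
    rw [show (C 2 : (ZMod p)⟦X⟧) = 2 from map_ofNat C 2]
    ring
  rw [e7, coeff_C_mul, map_sub, coeff_C_mul, coeff_mul_X_pow'] at hc
  have hle : 2 * q ≤ p * n - 1 := by
    have : p * 1 ≤ p * n := Nat.mul_le_mul_left _ hn
    omega
  rw [if_pos hle] at hc
  have hidx : p * n - 1 - 2 * q = p * (n - 1) := by
    obtain ⟨m, rfl⟩ : ∃ m, n = m + 1 := ⟨n - 1, by omega⟩
    rw [Nat.add_sub_cancel]
    have : p * (m + 1) = p * m + p := by ring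
    omega
  rw [hidx] at hc
  have := (mul_eq_zero.mp hc.symm).resolve_left hp2
  exact sub_eq_zero.mp this

end Pool.Agent.Lib.MP_3550b5_nt
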