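import Mathlib
import Pool.Agent.Lib.MP_3550b5_nt.Hasse

namespace Pool.Agent.Lib.MP_3550b5_nt

open PowerSeries

lemma X_mul_derivative_expand {R : Type*} [CommRing R] (p : ℕ) (hp : p ≠ 0) (f : R⟦X⟧) :
    X * derivative R (expand p hp f) = C (p : R) * expand p hp (X * derivative R f) := by
  ext n
  rw [coeff_C_mul, coeff_expand]
  rcases n with _ | n
  · simp
  · rw [coeff_succ_X_mul, coeff_derivative, coeff_expand]
    by_cases hd : p ∣ n + 1
    · obtain ⟨m, hm⟩ := hd
      have hmm : (n + 1) / p = m := by rw [hm, Nat.mul_div_cancel_left _ (Nat.pos_of_ne_zero hp)]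
      have hm0 : m ≠ 0 := by
        rintro rfl
        simp at hm
      obtain ⟨k, rfl⟩ := Nat.exists_eq_succ_of_ne_zero hm0
      rw [if_pos ⟨_, hm⟩, if_pos ⟨_, hm⟩, hmm, Nat.succ_eq_add_one, coeff_succ_X_mul,
        coeff_derivative]
      have : ((n : R) + 1) = (p : R) * ((k : R) + 1) := by exact_mod_cast congrArg (Nat.cast (R := R)) hm
      rw [this]; ring
    · rw [if_neg hd, if_neg hd]; simp

lemma derivative_expand_zmod {p : ℕ} [hp : Fact p.Prime] (f : (ZMod p)⟦X⟧) :
    derivative (ZMod p) (expand p hp.out.ne_zero f) = 0 := by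
  ext n
  rw [coeff_derivative, coeff_expand, map_zero]
  by_cases hd : p ∣ n + 1
  · have : ((n : ZMod p) + 1) = 0 := by
      have h0 : ((n + 1 : ℕ) : ZMod p) = 0 := (ZMod.natCast_eq_zero_iff _ _).mpr hd
      exact_mod_cast h0
    rw [this, mul_zero]
  · rw [if_neg hd, zero_mul]

lemma dvd_of_toZMod_eq_zero {p : ℕ} [hp : Fact p.Prime] {z : ℤ_[p]}
    (hz : PadicInt.toZMod z = 0) : (p : ℤ_[p]) ∣ z := by
  have h1 : z ∈ RingHom.ker (PadicInt.toZMod (p := p)) := hz
  rw [PadicInt.ker_toZMod, PadicInt.maximalIdeal_eq_span_p] at h1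
  exact Ideal.mem_span_singleton.mp h1

/-- Second congruence: `Ω_{pm} ≡ Ω_m`. -/
theorem cartier_two {p : ℕ} [hp : Fact p.Prime] (hp2 : p ≠ 2) {W V Om : ℤ_[p]⟦X⟧}
    (hV : W * V = 1) (hOm : 2 * W * Om = 2 * W + X * derivative ℤ_[p] W) (m : ℕ) :
    PadicInt.toZMod (coeff (p * m) Om) = PadicInt.toZMod (coeff m Om) := by
  have hp0 := hp.out.ne_zero
  set φ : ℤ_[p] →+* ZMod p := PadicInt.toZMod (p := p) with hφ
  have htwo : (2 : ZMod p) ≠ 0 := by
    have hne : ((2 : ℕ) : ZMod p) ≠ 0 := by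
      rw [Ne, ZMod.natCast_eq_zero_iff]
      intro hd
      have := Nat.le_of_dvd (by norm_num) hd
      have h2 := this.antisymm hp.out.two_le
      omega
    exact_mod_cast hne
  have hfrob : map φ (W ^ p) = map φ (expand p hp0 W) := by
    rw [map_expand, map_pow]
    have h1 := MvPowerSeries.map_frobenius_expand (R := ZMod p) (σ := Unit) p hp0 (f := map φ W)
    rw [ZMod.frobenius_zmod] at h1
    rw [← h1]
    exact congrFun (congrArg DFunLike.coe (MvPowerSeries.map_id (σ := Unit) (R := ZMod p))) _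
  have hH : ∃ H : ℤ_[p]⟦X⟧, W ^ p = expand p hp0 W + C (p : ℤ_[p]) * H := by
    have h1 : ∀ n, ∃ h : ℤ_[p], coeff n (W ^ p) = coeff n (expand p hp0 W) + p * h := by
      intro n
      have h2 : φ (coeff n (W ^ p) - coeff n (expand p hp0 W)) = 0 := by
        rw [map_sub, ← coeff_map, ← coeff_map, hfrob, sub_self]
      obtain ⟨h, hh⟩ := dvd_of_toZMod_eq_zero h2
      exact ⟨h, by rw [← hh]; ring⟩
    choose h hh using h1
    refine ⟨PowerSeries.mk h, ?_⟩
    ext n
    rw [hh n, map_add, coeff_C_mul, coeff_mk]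
  obtain ⟨H, hH⟩ := hH
  set θ : ℤ_[p]⟦X⟧ := X * derivative ℤ_[p] W with hθ
  -- (A)
  have hpC : (C (p : ℤ_[p]) : ℤ_[p]⟦X⟧) ≠ 0 := by
    intro h0
    have h1 := congrArg (coeff 0) h0
    rw [coeff_zero_C, map_zero] at h1
    exact (Nat.cast_ne_zero.mpr hp0) h1
  have hA : W ^ (p - 1) * θ = expand p hp0 θ + X * derivative ℤ_[p] H := by
    apply mul_left_cancel₀ hpC
    have h1 := congrArg (fun f => X * derivative ℤ_[p] f) hH
    simp only [map_add] at h1
    rw [derivative_pow, Derivation.leibniz, derivative_C, smul_zero, add_zero, smul_eq_mul,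
      mul_add, X_mul_derivative_expand] at h1
    have h2 : ((p : ℤ_[p]⟦X⟧)) = C (p : ℤ_[p]) := (map_natCast C p).symm
    rw [h2] at h1
    rw [hθ]
    linear_combination h1
  have hB : 2 * W ^ p * Om = 2 * W ^ p + expand p hp0 θ + X * derivative ℤ_[p] H := by
    have h1 : W ^ p = W ^ (p - 1) * W := by
      rw [← pow_succ, Nat.sub_add_cancel hp.out.one_le]
    rw [h1]
    linear_combination W ^ (p - 1) * hOm + hA
  have hC : 2 * expand p hp0 W * expand p hp0 Om = 2 * expand p hp0 W + expand p hp0 θ := by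
    have h1 := congrArg (expand p hp0) hOm
    simp only [map_mul, map_add, map_ofNat] at h1
    exact h1
  have hB' := congrArg (map φ) hB
  have hC' := congrArg (map φ) hC
  simp only [map_mul, map_add, map_ofNat] at hB' hC'
  rw [hfrob] at hB'
  set Eb := map φ (expand p hp0 W) with hEb
  set F := expand p hp0 (map φ V) with hF
  have hEF : Eb * F = 1 := by
    rw [hEb, hF, map_expand, ← map_mul, ← map_mul, hV, map_one, map_one]
  have hder : X * derivative (ZMod p) (map φ H) = map φ X * map φ (derivative ℤ_[p] H) := by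
    rw [map_X]
    congr 1
    ext n
    simp [coeff_derivative]
  rw [← hder] at hB'
  have hD : C 2 * (map φ Om - expand p hp0 (map φ Om)) =
      X * derivative (ZMod p) (map φ H * F) := by
    rw [Derivation.leibniz, hF, derivative_expand_zmod, smul_zero, zero_add, smul_eq_mul, ← hF,
      show (C 2 : (ZMod p)⟦X⟧) = 2 from map_ofNat C 2]
    rw [map_expand] at hC'
    linear_combination F * hB' - F * hC' - 2 * (map φ Om - expand p hp0 (map φ Om)) * hEF
  have hE := congrArg (coeff (p * m)) hD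
  rw [coeff_C_mul, map_sub, coeff_expand_mul, coeff_map, coeff_map] at hE
  have hz : coeff (p * m) (X * derivative (ZMod p) (map φ H * F)) = 0 := by
    rcases Nat.eq_zero_or_pos (p * m) with h0 | h0
    · rw [h0]; simp
    · obtain ⟨k, hk⟩ := Nat.exists_eq_succ_of_ne_zero h0.ne'
      rw [hk, Nat.succ_eq_add_one, coeff_succ_X_mul, coeff_derivative]
      have : ((k : ZMod p) + 1) = 0 := by
        have h1 : ((k + 1 : ℕ) : ZMod p) = 0 := by
          rw [← Nat.succ_eq_add_one, ← hk]; simp
        exact_mod_cast h1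
      rw [this, mul_zero]
  rw [hz] at hE
  have := (mul_eq_zero.mp hE).resolve_left htwo
  exact sub_eq_zero.mp this

/-- In the ordinary case the coefficient of index `p^k - 1` of the invariant differential is a
unit. -/
theorem Om_unit {p q : ℕ} [hp : Fact p.Prime] (hpq : p = 2 * q + 1) (hq : 1 ≤ q) {a b : ℤ_[p]}
    {W V Om : ℤ_[p]⟦X⟧} (hW : W = 1 + C a * X ^ 4 * W ^ 2 + C b * X ^ 6 * W ^ 3)
    (hV : W * V = 1) (hOm : 2 * W * Om = 2 * W + X * derivative ℤ_[p] W)
    (hA : (hasseRev (PadicInt.toZMod a) (PadicInt.toZMod b) q).coeff q ≠ 0) (k : ℕ) :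
    PadicInt.toZMod (coeff (p ^ k - 1) Om) ≠ 0 := by
  set φ : ℤ_[p] →+* ZMod p := PadicInt.toZMod (p := p) with hφ
  have hmap : ∀ f : ℤ_[p]⟦X⟧, map φ (derivative ℤ_[p] f) = derivative (ZMod p) (map φ f) := by
    intro f
    ext n
    simp [coeff_derivative]
  have hW' := congrArg (map φ) hW
  have hV' := congrArg (map φ) hV
  have hOm' := congrArg (map φ) hOm
  simp only [map_mul, map_add, map_ofNat, map_one, map_pow, map_C, map_X, hmap] at hW' hV' hOm'
  have hp2 : p ≠ 2 := by omega
  induction k with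
  | zero =>
    simp only [pow_zero, Nat.sub_self]
    -- constant coefficient of Om is 1
    have h0 := congrArg (coeff 0) hOm
    have hW0 := congrArg (coeff 0) hW
    simp only [coeff_zero_eq_constantCoeff, map_mul, map_add, map_one, constantCoeff_X,
      map_pow, ne_eq, OfNat.ofNat_ne_zero, not_false_eq_true, zero_pow, mul_zero, zero_mul,
      add_zero, map_ofNat] at h0 hW0
    rw [hW0] at h0
    have h1 : constantCoeff Om = 1 := by
      have h2 : (2 : ℤ_[p]) ≠ 0 := two_ne_zero
      apply mul_left_cancel₀ h2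
      linear_combination h0
    rw [coeff_zero_eq_constantCoeff_apply, h1, map_one]
    exact one_ne_zero
  | succ k ih =>
    have h1 := cartier_one hpq hq hW' hV' hOm' (p ^ k) (Nat.one_le_pow _ _ hp.out.pos)
    rw [← pow_succ', coeff_map, coeff_map, cartier_two hp2 hV hOm] at h1
    rw [h1]
    exact mul_ne_zero hA ih

end Pool.Agent.Lib.MP_3550b5_nt
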