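import Mathlib
import Pool.Agent.Lib.MP_3550b5_nt.Defs

namespace Pool.Agent.Lib.MP_3550b5_nt

open PowerSeries

/-- Unfolded data of a sigma function `σ = X * S`. -/
structure SigmaData (p : ℕ) [Fact p.Prime] (a b c : ℤ_[p]) (W V Om S Z : ℤ_[p]⟦X⟧) : Prop where
  hW : W = 1 + C a * X ^ 4 * W ^ 2 + C b * X ^ 6 * W ^ 3
  hV : W * V = 1
  hOm : 2 * W * Om = 2 * W + X * derivative ℤ_[p] W
  S0 : constantCoeff S = 1
  S1 : coeff 1 S = 0
  Seven : ∀ n, Odd n → coeff n S = 0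
  E1 : X * Om * S * Z = S - Om * S + X * derivative ℤ_[p] S
  E2 : X ^ 2 * W * derivative ℤ_[p] Z = W - Om - C c * X ^ 2 * W * Om

variable {p : ℕ} [hp : Fact p.Prime]

lemma exists_inv_of_constantCoeff {f : ℤ_[p]⟦X⟧} (h : constantCoeff f = 1) :
    ∃ g, f * g = 1 := by
  have : IsUnit f := by
    rw [PowerSeries.isUnit_iff_constantCoeff, h]
    exact isUnit_one
  obtain ⟨u, hu⟩ := this
  exact ⟨↑u⁻¹, by rw [← hu]; exact u.mul_inv⟩

lemma sigmaData_of_sigma {a b : ℤ_[p]} {σ : ℤ_[p]⟦X⟧} (h : IsMazurTateSigma p a b σ) :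
    ∃ (c : ℤ_[p]) (W V Om S Z : ℤ_[p]⟦X⟧), σ = X * S ∧ SigmaData p a b c W V Om S Z := by
  obtain ⟨w, Om, c, hw0, hw, hOm, hode⟩ := h.ode
  obtain ⟨w1, hw1⟩ : X ∣ w := X_dvd_iff.mpr hw0
  -- w1 = X^2 * W
  set W : ℤ_[p]⟦X⟧ := 1 + C a * w1 ^ 2 + C b * w1 ^ 3 with hWdef
  have hw1W : w1 = X ^ 2 * W := by
    apply mul_left_cancel₀ (X_ne_zero (R := ℤ_[p]))
    rw [← hw1, hw, hw1, hWdef]
    ring
  have hwW : w = X ^ 3 * W := by rw [hw1, hw1W]; ring
  have hW : W = 1 + C a * X ^ 4 * W ^ 2 + C b * X ^ 6 * W ^ 3 := by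
    conv_lhs => rw [hWdef, hw1W]
    ring
  have hWc : constantCoeff W = 1 := by
    have := congrArg constantCoeff hW
    simpa using this
  obtain ⟨V, hV⟩ := exists_inv_of_constantCoeff hWc
  have hWne : W ≠ 0 := by
    rintro h0
    rw [h0, map_zero] at hWc
    exact zero_ne_one hWc
  have hX3 : (X ^ 3 : ℤ_[p]⟦X⟧) ≠ 0 := pow_ne_zero 3 X_ne_zero
  have hOm' : 2 * W * Om = 2 * W + X * derivative ℤ_[p] W := by
    apply mul_left_cancel₀ hX3
    have h1 := hOm
    rw [hwW, Derivation.leibniz, derivative_pow, derivative_X, smul_eq_mul, smul_eq_mul] at h1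
    push_cast at h1
    linear_combination h1
  have hOmc : constantCoeff Om = 1 := by
    have := congrArg constantCoeff hOm'
    simp only [map_mul, map_add, hWc, constantCoeff_X, zero_mul, add_zero, mul_one,
      map_ofNat] at this
    have h2 : (2 : ℤ_[p]) ≠ 0 := two_ne_zero
    apply mul_left_cancel₀ h2
    rw [this, mul_one]
  have hOmne : Om ≠ 0 := by
    rintro h0
    rw [h0, map_zero] at hOmc
    exact zero_ne_one hOmc
  obtain ⟨S, hS⟩ : X ∣ σ := X_dvd_iff.mpr (by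
    rw [← coeff_zero_eq_constantCoeff_apply]; exact h.coeff_zero)
  have hS0 : constantCoeff S = 1 := by
    have := h.coeff_one
    rw [hS, show (1 : ℕ) = 0 + 1 from rfl, coeff_succ_X_mul] at this
    rw [← coeff_zero_eq_constantCoeff_apply]; exact this
  have hS1 : coeff 1 S = 0 := by
    have := h.odd 2 (by decide)
    rw [hS, show (2 : ℕ) = 1 + 1 from rfl, coeff_succ_X_mul] at this
    exact this
  have hSeven : ∀ n, Odd n → coeff n S = 0 := by
    intro n hn
    have := h.odd (n + 1) hn.add_one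
    rw [hS, coeff_succ_X_mul] at this
    exact this
  have hSne : S ≠ 0 := by
    rintro h0
    rw [h0, map_zero] at hS0
    exact zero_ne_one hS0
  -- definition of Z
  obtain ⟨N1, hN1⟩ : X ∣ (S - Om * S + X * derivative ℤ_[p] S) := X_dvd_iff.mpr (by
    simp [hS0, hOmc])
  obtain ⟨G, hG⟩ := exists_inv_of_constantCoeff (f := Om * S) (by rw [map_mul, hOmc, hS0, mul_one])
  set Z := N1 * G with hZ
  have hE1 : X * Om * S * Z = S - Om * S + X * derivative ℤ_[p] S := by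
    rw [hN1, hZ]
    linear_combination X * N1 * hG
  -- derivative of σ
  set S' := derivative ℤ_[p] S with hS'
  set Z' := derivative ℤ_[p] Z with hZ'
  set Om' := derivative ℤ_[p] Om with hOmd
  have hσ1 : derivative ℤ_[p] σ = Om * S * (1 + X * Z) := by
    rw [hS, Derivation.leibniz, derivative_X, smul_eq_mul, smul_eq_mul, mul_one, ← hS']
    linear_combination -hE1
  have hσ2 : derivative ℤ_[p] (derivative ℤ_[p] σ) =
      (Om' * S + Om * S') * (1 + X * Z) + Om * S * (Z + X * Z') := by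
    rw [hσ1]
    simp only [Derivation.leibniz, map_add, derivative_X, derivative_one, smul_eq_mul]
    ring
  have hE2 : X ^ 2 * W * Z' = W - Om - C c * X ^ 2 * W * Om := by
    have hne : X ^ 3 * Om ^ 2 * S ^ 2 ≠ 0 :=
      mul_ne_zero (mul_ne_zero hX3 (pow_ne_zero 2 hOmne)) (pow_ne_zero 2 hSne)
    apply mul_left_cancel₀ hne
    rw [hσ2, hσ1, hwW, hS] at hode
    linear_combination hode + (X ^ 3 * W * Om ^ 2 * S * (1 + X * Z)) * hE1
  exact ⟨c, W, V, Om, S, Z, hS, ⟨hW, hV, hOm', hS0, hS1, hSeven, hE1, hE2⟩⟩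

end Pool.Agent.Lib.MP_3550b5_nt
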