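import Mathlib
import Pool.Agent.Lib.MP_3550b5_nt.Sigma
import Pool.Agent.Lib.MP_3550b5_nt.Hasse2
import Pool.Agent.Lib.MP_3550b5_nt.Eval

namespace Pool.Agent.Lib.MP_3550b5_nt

open PowerSeries

variable {p : ℕ} [hp : Fact p.Prime]

lemma toZModPow_eq_zero_iff (k : ℕ) (z : ℤ_[p]) :
    PadicInt.toZModPow k z = 0 ↔ ‖z‖ ≤ (p : ℝ) ^ (-(k : ℤ)) := by
  rw [PadicInt.norm_le_pow_iff_mem_span_pow, ← PadicInt.ker_toZModPow, RingHom.mem_ker]

lemma toZModPow_eq_iff (k : ℕ) (z z' : ℤ_[p]) :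
    PadicInt.toZModPow k z = PadicInt.toZModPow k z' ↔ ‖z - z'‖ ≤ (p : ℝ) ^ (-(k : ℤ)) := by
  rw [← toZModPow_eq_zero_iff, map_sub, sub_eq_zero]

lemma map_derivative' {R S : Type*} [CommRing R] [CommRing S] (φ : R →+* S) (f : R⟦X⟧) :
    map φ (derivative R f) = derivative S (map φ f) := by
  ext n
  simp [coeff_derivative]

lemma W_unique {R : Type*} [CommRing R] {a b : R} {W W2 : R⟦X⟧}
    (h : W = 1 + C a * X ^ 4 * W ^ 2 + C b * X ^ 6 * W ^ 3)
    (h2 : W2 = 1 + C a * X ^ 4 * W2 ^ 2 + C b * X ^ 6 * W2 ^ 3) : W = W2 := by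
  have hu : IsUnit (1 - X * (C a * X ^ 3 * (W + W2) + C b * X ^ 5 * (W ^ 2 + W * W2 + W2 ^ 2))) := by
    rw [PowerSeries.isUnit_iff_constantCoeff]
    simp
  have h3 : (W - W2) * (1 - X * (C a * X ^ 3 * (W + W2) +
      C b * X ^ 5 * (W ^ 2 + W * W2 + W2 ^ 2))) = 0 := by
    linear_combination h - h2
  have h4 := (hu.mul_left_eq_zero).mp h3
  exact sub_eq_zero.mp h4

lemma coeff_norm_le_of_map_eq {k : ℕ} {f g : ℤ_[p]⟦X⟧}
    (h : map (PadicInt.toZModPow k) f = map (PadicInt.toZModPow (p := p) k) g) (n : ℕ) :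
    ‖coeff n f - coeff n g‖ ≤ (p : ℝ) ^ (-(k : ℤ)) := by
  rw [← toZModPow_eq_iff]
  have := congrArg (coeff n) h
  rwa [coeff_map, coeff_map] at this

lemma norm_coeff_mul_le {f g : ℤ_[p]⟦X⟧} {r : ℝ} (hr : 0 ≤ r) (n : ℕ)
    (h : ∀ m ≤ n, ‖coeff m f‖ ≤ r) : ‖coeff n (f * g)‖ ≤ r := by
  rw [coeff_mul]
  have : ∀ s : Finset (ℕ × ℕ), s ⊆ Finset.HasAntidiagonal.antidiagonal n →
      ‖∑ x ∈ s, coeff x.1 f * coeff x.2 g‖ ≤ r := by
    intro s
    induction s using Finset.induction_on with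
    | empty => intro _; simpa using hr
    | insert x s hx ih =>
      intro hs
      rw [Finset.sum_insert hx]
      refine (PadicInt.nonarchimedean _ _).trans (max_le ?_ (ih fun y hy => hs (Finset.mem_insert_of_mem hy)))
      rw [norm_mul]
      have h1 : x.1 ≤ n := by
        have := Finset.HasAntidiagonal.mem_antidiagonal.mp (hs (Finset.mem_insert_self _ _))
        omega
      calc ‖coeff x.1 f‖ * ‖coeff x.2 g‖ ≤ r * 1 :=
            mul_le_mul (h _ h1) (PadicInt.norm_le_one _) (norm_nonneg _) hr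
        _ = r := mul_one r
  exact this _ (Finset.Subset.refl _)

lemma coeff_one_X_mul' {R : Type*} [CommRing R] (f : R⟦X⟧) : coeff 1 (X * f) = coeff 0 f :=
  coeff_succ_X_mul 0 f

lemma inv_norm_natCast_le (n : ℕ) (hn : n ≠ 0) : ‖(n : ℤ_[p])‖⁻¹ ≤ n := by
  have h0 : (n : ℤ_[p]) ≠ 0 := Nat.cast_ne_zero.mpr hn
  rw [PadicInt.norm_eq_zpow_neg_valuation h0, ← zpow_neg, neg_neg]
  have h1 : ((n : ℤ_[p])).valuation = padicValNat p n := by
    have := Padic.valuation_natCast (p := p) n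
    have h2 := PadicInt.valuation_coe (p := p) (n : ℤ_[p])
    rw [PadicInt.coe_natCast] at h2
    rw [this] at h2
    exact_mod_cast h2.symm
  rw [h1, zpow_natCast]
  exact_mod_cast Nat.le_of_dvd (Nat.pos_of_ne_zero hn) (pow_padicValNat_dvd)

variable {q : ℕ} {a b c a' b' c' : ℤ_[p]} {W V Om S Z W' V' Om' S' Z' : ℤ_[p]⟦X⟧}

lemma SigmaData.Om_eq (h : SigmaData p a b c W V Om S Z) {t : ℤ_[p]} (ht : 2 * t = 1) :
    Om = 1 + C t * X * derivative ℤ_[p] W * V := by
  have h2 : (2 : ℤ_[p]⟦X⟧) * C t = 1 := by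
    rw [show (2 : ℤ_[p]⟦X⟧) = C 2 from (map_ofNat C 2).symm, ← map_mul, ht, map_one]
  linear_combination (C t * V) * h.hOm - (Om - 1) * (2 * C t) * h.hV - (Om - 1) * h2

/-- Coefficientwise comparison modulo `p^k`. -/
lemma map_eq_of_close (hp2 : p ≠ 2) (k : ℕ)
    (h : SigmaData p a b c W V Om S Z) (h' : SigmaData p a' b' c' W' V' Om' S' Z')
    (ha : PadicInt.toZModPow k a = PadicInt.toZModPow k a')
    (hb : PadicInt.toZModPow k b = PadicInt.toZModPow k b') :
    map (PadicInt.toZModPow k) W = map (PadicInt.toZModPow (p := p) k) W' ∧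
    map (PadicInt.toZModPow k) V = map (PadicInt.toZModPow (p := p) k) V' ∧
    map (PadicInt.toZModPow k) Om = map (PadicInt.toZModPow (p := p) k) Om' := by
  set ψ := PadicInt.toZModPow (p := p) k with hψ
  have hWW : map ψ W = map ψ W' := by
    have e1 := congrArg (map ψ) h.hW
    have e2 := congrArg (map ψ) h'.hW
    simp only [map_add, map_mul, map_one, map_pow, map_C, map_X] at e1 e2
    rw [← ha, ← hb] at e2
    exact W_unique e1 e2
  have hVV : map ψ V = map ψ V' := by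
    have e1 := congrArg (map ψ) h.hV
    have e2 := congrArg (map ψ) h'.hV
    simp only [map_mul, map_one] at e1 e2
    rw [← hWW] at e2
    linear_combination (map ψ V') * e1 - (map ψ V) * e2
  refine ⟨hWW, hVV, ?_⟩
  -- an inverse of 2
  obtain ⟨t, ht⟩ : ∃ t : ℤ_[p], 2 * t = 1 := by
    have hu : IsUnit (2 : ℤ_[p]) := by
      rw [PadicInt.isUnit_iff]
      have : ‖((2 : ℕ) : ℤ_[p])‖ = 1 := by
        rw [PadicInt.norm_natCast_eq_one_iff]
        exact (Nat.coprime_primes hp.out Nat.prime_two).mpr hp2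
      exact_mod_cast this
    obtain ⟨u, hu⟩ := hu
    exact ⟨↑u⁻¹, by rw [← hu]; exact u.mul_inv⟩
  have e1 := congrArg (map ψ) (h.Om_eq ht)
  have e2 := congrArg (map ψ) (h'.Om_eq ht)
  simp only [map_add, map_mul, map_one, map_C, map_X, map_derivative'] at e1 e2
  rw [e1, e2, hWW, hVV]

/-- The constant `c` modulo `p^k` is determined by the curve modulo `p^k`. -/
lemma c_eq_of_close (hpq : p = 2 * q + 1) (hq : 1 ≤ q) (k : ℕ)
    (h : SigmaData p a b c W V Om S Z) (h' : SigmaData p a' b' c' W' V' Om' S' Z')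
    (ha : PadicInt.toZModPow k a = PadicInt.toZModPow k a')
    (hb : PadicInt.toZModPow k b = PadicInt.toZModPow k b')
    (hA : (hasseRev (PadicInt.toZMod a) (PadicInt.toZMod b) q).coeff q ≠ 0) :
    PadicInt.toZModPow k c = PadicInt.toZModPow k c' := by
  obtain ⟨hWW, hVV, hOO⟩ := map_eq_of_close (by omega) k h h' ha hb
  set ψ := PadicInt.toZModPow (p := p) k with hψ
  have key : ∀ {a b c : ℤ_[p]} {W V Om S Z : ℤ_[p]⟦X⟧}, SigmaData p a b c W V Om S Z →
      ψ (coeff (p ^ k + 1) (V * Om)) + ψ c * ψ (coeff (p ^ k - 1) Om) = 0 := by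
    intro a b c W V Om S Z h
    have e1 : X ^ 2 * derivative ℤ_[p] Z = 1 - V * Om - C c * (X ^ 2 * Om) := by
      linear_combination V * h.E2 - (X ^ 2 * derivative ℤ_[p] Z - 1 + C c * (X ^ 2 * Om)) * h.hV
    have hpk : 1 ≤ p ^ k := Nat.one_le_pow _ _ hp.out.pos
    have e2 := congrArg (coeff (p ^ k - 1 + 2)) e1
    rw [coeff_X_pow_mul, map_sub, map_sub, coeff_C_mul, coeff_X_pow_mul, coeff_derivative,
      coeff_one, if_neg (by omega), show p ^ k - 1 + 2 = p ^ k + 1 by omega] at e2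
    have e3 : ((p ^ k - 1 : ℕ) : ℤ_[p]) + 1 = (p : ℤ_[p]) ^ k := by
      have : ((p ^ k - 1 : ℕ) : ℤ_[p]) + 1 = ((p ^ k - 1 + 1 : ℕ) : ℤ_[p]) := by push_cast; ring
      rw [this, Nat.sub_add_cancel hpk]
      push_cast; ring
    rw [e3] at e2
    have e4 := congrArg ψ e2
    simp only [map_mul, map_sub, map_zero, map_pow, map_natCast] at e4
    have e5 : ((p : ZMod (p ^ k)) ^ k) = 0 := by
      have : ((p ^ k : ℕ) : ZMod (p ^ k)) = 0 := ZMod.natCast_self _
      exact_mod_cast this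
    rw [e5, mul_zero] at e4
    linear_combination e4
  have k1 := key h
  have k2 := key h'
  have e1 : ψ (coeff (p ^ k + 1) (V * Om)) = ψ (coeff (p ^ k + 1) (V' * Om')) := by
    have e0 : map ψ (V * Om) = map ψ (V' * Om') := by
      rw [(map ψ).map_mul, (map ψ).map_mul, hVV, hOO]
    rw [← coeff_map, ← coeff_map, e0]
  have e2 : ψ (coeff (p ^ k - 1) Om) = ψ (coeff (p ^ k - 1) Om') := by
    rw [← coeff_map, ← coeff_map, hOO]
  rw [← e1, ← e2] at k2
  have hunit : IsUnit (ψ (coeff (p ^ k - 1) Om)) := by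
    apply IsUnit.map
    have h1 := Om_unit hpq hq h.hW h.hV h.hOm hA k
    rw [PadicInt.isUnit_iff]
    by_contra hne
    have hlt : ‖coeff (p ^ k - 1) Om‖ < 1 := lt_of_le_of_ne (PadicInt.norm_le_one _) hne
    rw [PadicInt.norm_lt_one_iff_dvd] at hlt
    obtain ⟨d, hd⟩ := hlt
    apply h1
    rw [hd, map_mul, map_natCast]
    simp
  have e3 : (ψ c - ψ c') * ψ (coeff (p ^ k - 1) Om) = 0 := by linear_combination k1 - k2
  exact sub_eq_zero.mp ((hunit.mul_left_eq_zero).mp e3)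

/-- The main comparison: values of `S` are Lipschitz in the coefficients of the curve. -/
theorem ev_S_close (hpq : p = 2 * q + 1) (hq : 1 ≤ q) (k : ℕ)
    (h : SigmaData p a b c W V Om S Z) (h' : SigmaData p a' b' c' W' V' Om' S' Z')
    (ha : PadicInt.toZModPow k a = PadicInt.toZModPow k a')
    (hb : PadicInt.toZModPow k b = PadicInt.toZModPow k b')
    (hA : (hasseRev (PadicInt.toZMod a) (PadicInt.toZMod b) q).coeff q ≠ 0)
    {t : ℤ_[p]} (ht : ‖t‖ < 1) :
    ‖ev S' t - ev S t‖ ≤ (p : ℝ) ^ (-(k : ℤ)) := by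
  obtain ⟨hWW, hVV, hOO⟩ := map_eq_of_close (by omega) k h h' ha hb
  have hcc := c_eq_of_close hpq hq k h h' ha hb hA
  set r : ℝ := (p : ℝ) ^ (-(k : ℤ)) with hr
  have hr0 : 0 ≤ r := by positivity
  -- coefficients of Z' - Z
  have hOmcoef : ∀ {a b c : ℤ_[p]} {W V Om S Z : ℤ_[p]⟦X⟧}, SigmaData p a b c W V Om S Z →
      constantCoeff Om = 1 ∧ coeff 1 Om = 0 ∧ coeff 0 Z = 0 := by
    intro a b c W V Om S Z h
    have hW0 : constantCoeff W = 1 := by
      have := congrArg constantCoeff h.hW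
      simpa using this
    have hW1 : coeff 1 W = 0 := by
      have e := congrArg (coeff 1) h.hW
      have e1 : (1 + C a * X ^ 4 * W ^ 2 + C b * X ^ 6 * W ^ 3 : ℤ_[p]⟦X⟧) =
        1 + X ^ 4 * (C a * W ^ 2 + C b * X ^ 2 * W ^ 3) := by ring
      rw [e1, map_add, coeff_one, if_neg one_ne_zero, zero_add, coeff_X_pow_mul', if_neg (by norm_num)] at e
      exact e
    have h2 : (2 : ℤ_[p]) ≠ 0 := two_ne_zero
    have hO0 : constantCoeff Om = 1 := by
      have := congrArg constantCoeff h.hOm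
      simp only [map_mul, map_add, hW0, constantCoeff_X, zero_mul, add_zero, mul_one,
        map_ofNat] at this
      apply mul_left_cancel₀ h2
      rw [this, mul_one]
    have hO1 : coeff 1 Om = 0 := by
      have e := congrArg (coeff 1) h.hOm
      have e1 : (2 * W * Om : ℤ_[p]⟦X⟧) = C 2 * (W * Om) := by
        rw [show (C 2 : ℤ_[p]⟦X⟧) = 2 from map_ofNat C 2]; ring
      have e2 : (2 * W + X * derivative ℤ_[p] W : ℤ_[p]⟦X⟧) = C 2 * W + X * derivative ℤ_[p] W := by
        rw [show (C 2 : ℤ_[p]⟦X⟧) = 2 from map_ofNat C 2]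
      rw [e1, e2, coeff_C_mul, map_add, coeff_C_mul, hW1, mul_zero, zero_add,
        coeff_one_X_mul', coeff_derivative, zero_add, hW1, zero_mul, coeff_one_mul, hW1, hW0,
        zero_mul, mul_one, zero_add] at e
      exact (mul_eq_zero.mp e).resolve_left h2
    refine ⟨hO0, hO1, ?_⟩
    have e := congrArg (coeff 1) h.E1
    have e1 : (X * Om * S * Z : ℤ_[p]⟦X⟧) = X * (Om * S * Z) := by ring
    rw [e1, coeff_one_X_mul', map_add, map_sub, coeff_one_X_mul',
      coeff_derivative, zero_add, h.S1] at e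
    have e2 : coeff 1 (Om * S) = 0 := by
      rw [coeff_one_mul, hO1, h.S1]; ring
    rw [e2] at e
    simp only [coeff_zero_eq_constantCoeff, map_mul, hO0, h.S0, one_mul] at e
    rw [coeff_zero_eq_constantCoeff_apply, e]
    simp
  obtain ⟨hO0, hO1, hZ0⟩ := hOmcoef h
  obtain ⟨hO0', hO1', hZ0'⟩ := hOmcoef h'
  have hdZ : ∀ n, ‖coeff n (Z' - Z)‖ ≤ r * n := by
    intro n
    rcases n with _ | n
    · rw [map_sub, hZ0, hZ0']; simp
    · have e1 : ∀ {a b c : ℤ_[p]} {W V Om S Z : ℤ_[p]⟦X⟧}, SigmaData p a b c W V Om S Z →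
          X ^ 2 * derivative ℤ_[p] Z = 1 - V * Om - C c * (X ^ 2 * Om) := by
        intro a b c W V Om S Z h
        linear_combination V * h.E2 - (X ^ 2 * derivative ℤ_[p] Z - 1 + C c * (X ^ 2 * Om)) * h.hV
      have m1 := congrArg (map (PadicInt.toZModPow (p := p) k)) (e1 h)
      have m2 := congrArg (map (PadicInt.toZModPow (p := p) k)) (e1 h')
      simp only [map_mul, map_sub, map_one, map_C, map_pow, map_X] at m1 m2
      rw [← hcc, ← hVV, ← hOO, ← m1] at m2
      have m3 := congrArg (coeff (n + 2)) m2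
      rw [coeff_X_pow_mul, coeff_X_pow_mul, coeff_map, coeff_map, toZModPow_eq_iff,
        coeff_derivative, coeff_derivative, ← sub_mul, norm_mul, ← map_sub] at m3
      have hn : ((n : ℤ_[p]) + 1) = ((n + 1 : ℕ) : ℤ_[p]) := by push_cast; ring
      rw [hn] at m3
      have hne : ((n + 1 : ℕ) : ℤ_[p]) ≠ 0 := Nat.cast_ne_zero.mpr (by omega)
      have hnpos : 0 < ‖((n + 1 : ℕ) : ℤ_[p])‖ := norm_pos_iff.mpr hne
      calc ‖coeff (n + 1) (Z' - Z)‖
          = (‖coeff (n + 1) (Z' - Z)‖ * ‖((n + 1 : ℕ) : ℤ_[p])‖) * ‖((n + 1 : ℕ) : ℤ_[p])‖⁻¹ := by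
            field_simp
        _ ≤ r * ((n + 1 : ℕ) : ℝ) := by
            apply mul_le_mul m3 (inv_norm_natCast_le _ (by omega)) (by positivity) hr0
  -- U = S' / S
  obtain ⟨T, hT⟩ := exists_inv_of_constantCoeff h.S0
  set U := S' * T with hU
  set g := Om' * (1 + X * Z') - Om * (1 + X * Z) with hg
  have hT0 : constantCoeff T = 1 := by
    have := congrArg constantCoeff hT
    rw [map_mul, h.S0, one_mul, map_one] at this
    exact this
  have hU0 : constantCoeff U = 1 := by rw [hU, map_mul, h'.S0, hT0, one_mul]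
  have hUd : X * derivative ℤ_[p] U = U * g := by
    have hTd : derivative ℤ_[p] T = - T ^ 2 * derivative ℤ_[p] S := by
      have e := congrArg (derivative ℤ_[p]) hT
      rw [Derivation.leibniz, derivative_one, smul_eq_mul, smul_eq_mul] at e
      linear_combination T * e - (derivative ℤ_[p] T) * hT
    rw [hU, Derivation.leibniz, smul_eq_mul, smul_eq_mul, hTd, hg]
    linear_combination (-T) * h'.E1 + (S' * T ^ 2) * h.E1 - (S' * T * (Om * (1 + X * Z) - 1)) * hT
  have hgj : ∀ j, ‖coeff j g‖ ≤ r * j := by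
    intro j
    rcases j with _ | j
    · simp [hg, hO0, hO0']
    · have e1 : g = (Om' - Om) * (1 + X * Z') + X * ((Z' - Z) * Om) := by rw [hg]; ring
      rw [e1, map_add, coeff_succ_X_mul]
      refine (PadicInt.nonarchimedean _ _).trans (max_le ?_ ?_)
      · refine (norm_coeff_mul_le hr0 _ fun m _ => ?_).trans ?_
        · rw [map_sub]
          exact coeff_norm_le_of_map_eq hOO.symm m
        · have : (1 : ℝ) ≤ ((j + 1 : ℕ) : ℝ) := by exact_mod_cast Nat.le_add_left 1 j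
          nlinarith
      · refine (norm_coeff_mul_le (r := r * j) (by positivity) _ fun m hm => ?_).trans ?_
        · refine (hdZ m).trans ?_
          have : (m : ℝ) ≤ j := by exact_mod_cast hm
          nlinarith
        · have : (j : ℝ) ≤ ((j + 1 : ℕ) : ℝ) := by exact_mod_cast Nat.le_succ j
          nlinarith
  have hUn : ∀ n, 1 ≤ n → ‖coeff n U‖ ≤ r * n ^ 2 := by
    intro n hn
    have e1 := congrArg (coeff n) hUd
    obtain ⟨m, rfl⟩ : ∃ m, n = m + 1 := ⟨n - 1, by omega⟩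
    rw [coeff_succ_X_mul, coeff_derivative, mul_comm U g] at e1
    have hm : ((m : ℤ_[p]) + 1) = ((m + 1 : ℕ) : ℤ_[p]) := by push_cast; ring
    rw [hm] at e1
    have e2 : ‖coeff (m + 1) (g * U)‖ ≤ r * ((m + 1 : ℕ) : ℝ) := by
      refine norm_coeff_mul_le (by positivity) _ fun j hj => (hgj j).trans ?_
      have : (j : ℝ) ≤ ((m + 1 : ℕ) : ℝ) := by exact_mod_cast hj
      nlinarith
    rw [← e1, norm_mul] at e2
    have hne : ((m + 1 : ℕ) : ℤ_[p]) ≠ 0 := Nat.cast_ne_zero.mpr (by omega)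
    have hnpos : 0 < ‖((m + 1 : ℕ) : ℤ_[p])‖ := norm_pos_iff.mpr hne
    calc ‖coeff (m + 1) U‖
        = (‖coeff (m + 1) U‖ * ‖((m + 1 : ℕ) : ℤ_[p])‖) * ‖((m + 1 : ℕ) : ℤ_[p])‖⁻¹ := by
          field_simp
      _ ≤ (r * ((m + 1 : ℕ) : ℝ)) * ((m + 1 : ℕ) : ℝ) := by
          apply mul_le_mul e2 (inv_norm_natCast_le _ (by omega)) (by positivity) (by positivity)
      _ = r * ((m + 1 : ℕ) : ℝ) ^ 2 := by ring
  have htp : ‖t‖ ≤ (p : ℝ)⁻¹ := by
    have := (PadicInt.norm_lt_pow_iff_norm_le_pow_sub_one t 0).mp (by simpa using ht)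
    simpa using this
  have hp3 : 3 ≤ p := by omega
  have hnp : ∀ n : ℕ, 1 ≤ n → (n : ℝ) ^ 2 ≤ (p : ℝ) ^ n := by
    intro n hn
    have h3 : n ^ 2 ≤ 3 ^ n := by
      induction n with
      | zero => omega
      | succ n ih =>
        rcases Nat.lt_or_ge n 1 with h0 | h0
        · interval_cases n; norm_num
        · have := ih h0
          have h4 : (n + 1) ^ 2 ≤ 3 * n ^ 2 ∨ n = 1 := by
            by_cases h1 : n = 1
            · exact Or.inr h1
            · left
              have h5 : 2 ≤ n := by omega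
              nlinarith
          rcases h4 with h4 | h4
          · calc (n + 1) ^ 2 ≤ 3 * n ^ 2 := h4
              _ ≤ 3 * 3 ^ n := by omega
              _ = 3 ^ (n + 1) := by ring
          · subst h4; norm_num
    calc (n : ℝ) ^ 2 ≤ (3 : ℝ) ^ n := by exact_mod_cast h3
      _ ≤ (p : ℝ) ^ n := by
          apply pow_le_pow_left₀ (by norm_num)
          exact_mod_cast hp3
  have hev : ‖ev (U - 1) t‖ ≤ r := by
    apply norm_ev_le ht
    intro n
    rcases Nat.eq_zero_or_pos n with h0 | h0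
    · subst h0
      rw [map_sub, coeff_zero_eq_constantCoeff_apply, hU0]
      simpa using hr0
    · rw [map_sub, coeff_one, if_neg (by omega), sub_zero, norm_mul, norm_pow]
      have hppos : (0 : ℝ) < (p : ℝ) := by exact_mod_cast hp.out.pos
      calc ‖coeff n U‖ * ‖t‖ ^ n ≤ (r * n ^ 2) * ((p : ℝ)⁻¹) ^ n := by
            apply mul_le_mul (hUn n h0) (pow_le_pow_left₀ (norm_nonneg _) htp n) (by positivity)
              (by positivity)
        _ = r * ((n : ℝ) ^ 2 / (p : ℝ) ^ n) := by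
            rw [inv_pow]; ring
        _ ≤ r * 1 := by
            apply mul_le_mul_of_nonneg_left _ hr0
            rw [div_le_one (by positivity)]
            exact hnp n h0
        _ = r := mul_one r
  have hfin : S' - S = S * (U - 1) := by
    rw [hU]
    linear_combination (-S') * hT
  rw [← ev_sub _ _ ht, hfin, ev_mul _ _ ht, norm_mul]
  calc ‖ev S t‖ * ‖ev (U - 1) t‖ ≤ 1 * r :=
        mul_le_mul (PadicInt.norm_le_one _) hev (norm_nonneg _) zero_le_one
    _ = r := one_mul r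

end Pool.Agent.Lib.MP_3550b5_nt
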