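import Mathlib

namespace Pool.Agent.Lib.MP_3550b5_nt

/-- The symmetric form attached to `y^2 = x^3 + a x + b`. -/
def symForm {F : Type*} [Field F] (a b x1 x2 x3 : F) : F :=
  (x1 * x2 + x1 * x3 + x2 * x3 - a) ^ 2 - 4 * (x1 + x2 + x3) * (x1 * x2 * x3 + b)

lemma symForm_id {F : Type*} [Field F] {a b x1 y1 x2 y2 : F} (z : F)
    (h1 : y1 ^ 2 = x1 ^ 3 + a * x1 + b) (h2 : y2 ^ 2 = x2 ^ 3 + a * x2 + b) (hd : x1 - x2 ≠ 0) :
    (x1 - x2) ^ 2 * ((((y1 - y2) / (x1 - x2)) ^ 2 - x1 - x2) - z) *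
      ((((y1 + y2) / (x1 - x2)) ^ 2 - x1 - x2) - z) = symForm a b x1 x2 z := by
  have e1 : (x1 - x2) ^ 2 * ((((y1 - y2) / (x1 - x2)) ^ 2 - x1 - x2) - z) *
      ((((y1 + y2) / (x1 - x2)) ^ 2 - x1 - x2) - z) =
      ((y1 ^ 2 - y2 ^ 2) ^ 2 - 2 * (x1 + x2 + z) * (x1 - x2) ^ 2 * (y1 ^ 2 + y2 ^ 2)
        + (x1 + x2 + z) ^ 2 * (x1 - x2) ^ 4) / (x1 - x2) ^ 2 := by
    field_simp
    ring
  rw [e1, h1, h2, div_eq_iff (pow_ne_zero 2 hd), symForm]
  ring

lemma symForm_comm {F : Type*} [Field F] (a b x1 x2 x3 : F) :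
    symForm a b x1 x2 x3 = symForm a b x3 x2 x1 := by
  unfold symForm; ring

lemma symForm_dup {F : Type*} [Field F] {a b x y : F} (z : F)
    (h : y ^ 2 = x ^ 3 + a * x + b) (h2 : (2 : F) ≠ 0) (hy : y ≠ 0) :
    symForm a b z x x = 4 * y ^ 2 * ((((3 * x ^ 2 + a) / (2 * y)) ^ 2 - 2 * x) - z) := by
  have e1 : 4 * y ^ 2 * ((((3 * x ^ 2 + a) / (2 * y)) ^ 2 - 2 * x) - z)
      = (3 * x ^ 2 + a) ^ 2 - 4 * y ^ 2 * (2 * x + z) := by
    field_simp
    ring
  rw [e1, h, symForm]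
  ring

/-- Coordinates of multiples of a point of infinite order on `y^2 = x^3 + a x + b`. -/
structure MultSeq (a b x y : ℚ) (X Y : ℕ → ℚ) : Prop where
  X1 : X 1 = x
  Y1 : Y 1 = y
  eqn : ∀ n, 1 ≤ n → Y n ^ 2 = X n ^ 3 + a * X n + b
  Yne : ∀ n, 1 ≤ n → Y n ≠ 0
  Xne : ∀ n, 2 ≤ n → X n ≠ x
  succ : ∀ n, 2 ≤ n → X (n + 1) = ((Y n - y) / (X n - x)) ^ 2 - X n - x
  pred : ∀ n, 2 ≤ n → X (n - 1) = ((Y n + y) / (X n - x)) ^ 2 - X n - x
  dbl : ∀ n, 1 ≤ n → X (2 * n) = ((3 * X n ^ 2 + a) / (2 * Y n)) ^ 2 - 2 * X n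
  Y2 : Y 2 = -(y + (3 * x ^ 2 + a) / (2 * y) * (X 2 - x))

/-- The sequence defined from the group law. -/
noncomputable def Vseq (x y : ℚ) (X : ℕ → ℚ) : ℕ → ℚ
  | 0 => 0
  | 1 => 1
  | 2 => 2 * y
  | (n + 3) => (x - X (n + 2)) * Vseq x y X (n + 2) ^ 2 / Vseq x y X (n + 1)

variable {a b x y : ℚ} {X Y : ℕ → ℚ}

lemma MultSeq.y_ne (h : MultSeq a b x y X Y) : y ≠ 0 := by
  have := h.Yne 1 le_rfl
  rwa [h.Y1] at this

lemma MultSeq.eq1 (h : MultSeq a b x y X Y) : y ^ 2 = x ^ 3 + a * x + b := by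
  have := h.eqn 1 le_rfl
  rwa [h.X1, h.Y1] at this

lemma MultSeq.V_ne (h : MultSeq a b x y X Y) : ∀ n, 1 ≤ n → Vseq x y X n ≠ 0 := by
  intro n
  induction n using Nat.strong_induction_on with
  | _ n ih =>
    intro hn
    match n, hn, ih with
    | 1, _, _ => simp [Vseq]
    | 2, _, _ => simp [Vseq, h.y_ne]
    | (n + 3), _, ih =>
      rw [Vseq]
      refine div_ne_zero (mul_ne_zero ?_ (pow_ne_zero 2 (ih _ (by omega) (by omega))))
        (ih _ (by omega) (by omega))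
      exact sub_ne_zero.mpr (h.Xne _ (by omega)).symm

lemma MultSeq.V_mul (h : MultSeq a b x y X Y) (n : ℕ) (hn : 1 ≤ n) :
    Vseq x y X (n + 1) * Vseq x y X (n - 1) = (x - X n) * Vseq x y X n ^ 2 := by
  match n, hn with
  | 1, _ => simp [Vseq, h.X1]
  | (n + 2), _ =>
    have hne := h.V_ne (n + 1) (by omega)
    rw [show n + 2 + 1 = n + 3 by ring, show n + 2 - 1 = n + 1 by omega, Vseq]
    field_simp

/-- The elliptic sequence relation in terms of coordinates. -/
lemma MultSeq.T (h : MultSeq a b x y X Y) : ∀ n, 1 ≤ n → ∀ m, n < m →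
    Vseq x y X (m + n) * Vseq x y X (m - n) =
      Vseq x y X m ^ 2 * Vseq x y X n ^ 2 * (X n - X m) := by
  have h4 := h.eq1
  have hy := h.y_ne
  -- `F1 m`: symmetric form at multiples
  have F1 : ∀ m, 2 ≤ m → ∀ z, (x - X m) ^ 2 * (z - X (m + 1)) * (z - X (m - 1)) =
      symForm a b (X m) x z := by
    intro m hm z
    have hd : X m - x ≠ 0 := sub_ne_zero.mpr (h.Xne m hm)
    have := symForm_id (a := a) (b := b) z (h.eqn m (by omega)) h4 hd
    rw [← h.succ m hm, ← h.pred m hm] at this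
    rw [← this]; ring
  intro n
  induction n using Nat.strong_induction_on with
  | _ n ih =>
    intro hn m hm
    match n, hn, ih, hm with
    | 1, _, _, hm =>
      rw [h.V_mul m (by omega), h.X1]
      simp [Vseq]; ring
    | 2, _, _, hm =>
      have e1 := h.V_mul (m + 1) (by omega)
      have e2 := h.V_mul (m - 1) (by omega)
      have e3 := h.V_mul m (by omega)
      have hne := h.V_ne m (by omega)
      rw [show m + 1 + 1 = m + 2 by ring, show m + 1 - 1 = m by omega] at e1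
      rw [show m - 1 + 1 = m by omega, show m - 1 - 1 = m - 2 by omega] at e2
      have f1 := F1 m (by omega) x
      have f2 := symForm_dup (a := a) (b := b) (X m) h4 (by norm_num) hy
      have hX2 := h.dbl 1 le_rfl
      rw [h.X1, h.Y1, mul_one] at hX2
      rw [← hX2] at f2
      have hV2 : Vseq x y X 2 = 2 * y := by simp [Vseq]
      rw [hV2]
      apply mul_left_cancel₀ (pow_ne_zero 2 hne)
      calc Vseq x y X m ^ 2 * (Vseq x y X (m + 2) * Vseq x y X (m - 2))
          = (Vseq x y X (m + 2) * Vseq x y X m) * (Vseq x y X m * Vseq x y X (m - 2)) := by ring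
        _ = ((x - X (m + 1)) * Vseq x y X (m + 1) ^ 2) * ((x - X (m - 1)) * Vseq x y X (m - 1) ^ 2)
            := by rw [e1, e2]
        _ = (x - X (m + 1)) * (x - X (m - 1)) * (Vseq x y X (m + 1) * Vseq x y X (m - 1)) ^ 2 := by
            ring
        _ = (x - X (m + 1)) * (x - X (m - 1)) * ((x - X m) * Vseq x y X m ^ 2) ^ 2 := by rw [e3]
        _ = Vseq x y X m ^ 4 * ((x - X m) ^ 2 * (x - X (m + 1)) * (x - X (m - 1))) := by ring
        _ = Vseq x y X m ^ 4 * (4 * y ^ 2 * (X 2 - X m)) := by rw [f1, f2]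
        _ = Vseq x y X m ^ 2 * (Vseq x y X m ^ 2 * (2 * y) ^ 2 * (X 2 - X m)) := by ring
    | (k + 3), _, ih, hm =>
      -- set n' = k + 2
      have t1 := ih (k + 2) (by omega) (by omega) (m + 1) (by omega)
      have t2 := ih (k + 2) (by omega) (by omega) (m - 1) (by omega)
      have t3 := ih (k + 1) (by omega) (by omega) m (by omega)
      have e3 := h.V_mul m (by omega)
      have e4 := h.V_mul (k + 2) (by omega)
      rw [show k + 2 + 1 = k + 3 by ring, show k + 2 - 1 = k + 1 by omega] at e4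
      have f1 := F1 m (by omega) (X (k + 2))
      have f2 := F1 (k + 2) (by omega) (X m)
      rw [show k + 2 + 1 = k + 3 by ring, show k + 2 - 1 = k + 1 by omega] at f2
      have f3 : (x - X m) ^ 2 * (X (k + 2) - X (m + 1)) * (X (k + 2) - X (m - 1)) =
          (x - X (k + 2)) ^ 2 * (X m - X (k + 3)) * (X m - X (k + 1)) := by
        rw [f1, f2, symForm_comm]
      rw [show m + 1 + (k + 2) = m + (k + 3) by ring, show m + 1 - (k + 2) = m - (k + 1) by omega]
        at t1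
      rw [show m - 1 + (k + 2) = m + (k + 1) by omega, show m - 1 - (k + 2) = m - (k + 3) by omega]
        at t2
      have n1 := h.V_ne (m + (k + 1)) (by omega)
      have n2 := h.V_ne (m - (k + 1)) (by omega)
      apply mul_left_cancel₀ (mul_ne_zero n1 n2)
      calc Vseq x y X (m + (k + 1)) * Vseq x y X (m - (k + 1)) *
            (Vseq x y X (m + (k + 3)) * Vseq x y X (m - (k + 3)))
          = (Vseq x y X (m + (k + 3)) * Vseq x y X (m - (k + 1))) *
            (Vseq x y X (m + (k + 1)) * Vseq x y X (m - (k + 3))) := by ring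
        _ = (Vseq x y X (m + 1) ^ 2 * Vseq x y X (k + 2) ^ 2 * (X (k + 2) - X (m + 1))) *
            (Vseq x y X (m - 1) ^ 2 * Vseq x y X (k + 2) ^ 2 * (X (k + 2) - X (m - 1))) := by
            rw [t1, t2]
        _ = (Vseq x y X (m + 1) * Vseq x y X (m - 1)) ^ 2 * Vseq x y X (k + 2) ^ 4 *
            ((X (k + 2) - X (m + 1)) * (X (k + 2) - X (m - 1))) := by ring
        _ = ((x - X m) * Vseq x y X m ^ 2) ^ 2 * Vseq x y X (k + 2) ^ 4 *
            ((X (k + 2) - X (m + 1)) * (X (k + 2) - X (m - 1))) := by rw [e3]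
        _ = Vseq x y X m ^ 4 * Vseq x y X (k + 2) ^ 4 *
            ((x - X m) ^ 2 * (X (k + 2) - X (m + 1)) * (X (k + 2) - X (m - 1))) := by ring
        _ = Vseq x y X m ^ 4 * Vseq x y X (k + 2) ^ 4 *
            ((x - X (k + 2)) ^ 2 * (X m - X (k + 3)) * (X m - X (k + 1))) := by rw [f3]
        _ = Vseq x y X m ^ 4 * ((x - X (k + 2)) * Vseq x y X (k + 2) ^ 2) ^ 2 *
            ((X m - X (k + 3)) * (X m - X (k + 1))) := by ring
        _ = Vseq x y X m ^ 4 * (Vseq x y X (k + 3) * Vseq x y X (k + 1)) ^ 2 *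
            ((X m - X (k + 3)) * (X m - X (k + 1))) := by rw [e4]
        _ = (Vseq x y X m ^ 2 * Vseq x y X (k + 1) ^ 2 * (X (k + 1) - X m)) *
            (Vseq x y X m ^ 2 * Vseq x y X (k + 3) ^ 2 * (X (k + 3) - X m)) := by ring
        _ = Vseq x y X (m + (k + 1)) * Vseq x y X (m - (k + 1)) *
            (Vseq x y X m ^ 2 * Vseq x y X (k + 3) ^ 2 * (X (k + 3) - X m)) := by rw [t3]


/-- The elliptic sequence relation for `Vseq`. -/
lemma MultSeq.T' (h : MultSeq a b x y X Y) (n : ℕ) (hn : 1 ≤ n) (m : ℕ) (hm : n < m) :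
    Vseq x y X (m + n) * Vseq x y X (m - n) =
      Vseq x y X (m + 1) * Vseq x y X (m - 1) * Vseq x y X n ^ 2 -
      Vseq x y X (n + 1) * Vseq x y X (n - 1) * Vseq x y X m ^ 2 := by
  rw [h.T n hn m hm, h.V_mul m (by omega), h.V_mul n hn]
  ring

lemma MultSeq.V_two_mul (h : MultSeq a b x y X Y) (n : ℕ) (hn : 1 ≤ n) :
    Vseq x y X (2 * n) = 2 * Y n * Vseq x y X n ^ 4 := by
  match n, hn with
  | 1, _ => simp [Vseq, h.Y1]
  | (k + 2), _ =>
    have hd : X (k + 2) - x ≠ 0 := sub_ne_zero.mpr (h.Xne _ (by omega))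
    have hs := h.succ (k + 2) (by omega)
    have hp := h.pred (k + 2) (by omega)
    rw [show k + 2 + 1 = k + 3 by ring] at hs
    rw [show k + 2 - 1 = k + 1 by omega] at hp
    have hV := h.V_mul (k + 2) (by omega)
    rw [show k + 2 + 1 = k + 3 by ring, show k + 2 - 1 = k + 1 by omega] at hV
    have hy := h.y_ne
    have hdiff : (X (k + 1) - X (k + 3)) * (x - X (k + 2)) ^ 2 = 4 * Y (k + 2) * y := by
      rw [hs, hp]
      field_simp
      ring
    have t := h.T (k + 1) (by omega) (k + 3) (by omega)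
    rw [show k + 3 + (k + 1) = 2 * (k + 2) by ring, show k + 3 - (k + 1) = 2 by omega] at t
    have hV2 : Vseq x y X 2 = 2 * y := by simp [Vseq]
    rw [hV2] at t
    have hne : (2 * y : ℚ) ≠ 0 := by simp [hy]
    apply mul_right_cancel₀ hne
    rw [t]
    calc Vseq x y X (k + 3) ^ 2 * Vseq x y X (k + 1) ^ 2 * (X (k + 1) - X (k + 3))
        = (Vseq x y X (k + 3) * Vseq x y X (k + 1)) ^ 2 * (X (k + 1) - X (k + 3)) := by ring
      _ = Vseq x y X (k + 2) ^ 4 * ((X (k + 1) - X (k + 3)) * (x - X (k + 2)) ^ 2) := by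
          rw [hV]; ring
      _ = 2 * Y (k + 2) * Vseq x y X (k + 2) ^ 4 * (2 * y) := by rw [hdiff]; ring

lemma MultSeq.V_three_mul (h : MultSeq a b x y X Y) (n : ℕ) (hn : 1 ≤ n) :
    Vseq x y X (3 * n) = Vseq x y X n ^ 9 *
      (12 * X n * Y n ^ 2 - (3 * X n ^ 2 + a) ^ 2) := by
  have t := h.T n hn (2 * n) (by omega)
  rw [show 2 * n + n = 3 * n by ring, show 2 * n - n = n by omega, h.V_two_mul n hn, h.dbl n hn] at t
  have hV := h.V_ne n hn
  have hY := h.Yne n hn
  apply mul_right_cancel₀ hV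
  rw [t]
  field_simp
  ring

/-- `c3` invariant (third division value). -/
def c3 {R : Type*} [CommRing R] (a x y : R) : R := 12 * x * y ^ 2 - (3 * x ^ 2 + a) ^ 2
/-- `d4` invariant (fourth division value over the second one). -/
def d4 {R : Type*} [CommRing R] (a x y : R) : R := 2 * (3 * x ^ 2 + a) * c3 a x y - 16 * y ^ 4

/-- The elliptic divisibility sequence of the point `(x, y)`. -/
def Wseq {R : Type*} [CommRing R] (a x y : R) (n : ℕ) : R :=
  normEDS (2 * y) (c3 a x y) (d4 a x y) (n : ℤ)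

lemma Wseq_map {R S : Type*} [CommRing R] [CommRing S] (f : R →+* S) (a x y : R) (n : ℕ) :
    f (Wseq a x y n) = Wseq (f a) (f x) (f y) n := by
  simp only [Wseq, map_normEDS, c3, d4, map_sub, map_mul, map_pow, map_add, map_ofNat]

lemma MultSeq.V3 (h : MultSeq a b x y X Y) : Vseq x y X 3 = c3 a x y := by
  have := h.V_three_mul 1 le_rfl
  rw [h.X1, h.Y1] at this
  simp only [mul_one] at this
  rw [this, c3]
  simp [Vseq]

lemma MultSeq.V4 (h : MultSeq a b x y X Y) : Vseq x y X 4 = d4 a x y * (2 * y) := by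
  have h2 := h.V_two_mul 2 (by norm_num)
  have hY2 := h.Y2
  have hX2 := h.dbl 1 le_rfl
  rw [h.X1, h.Y1] at hX2
  simp only [mul_one] at hX2
  have hy := h.y_ne
  rw [show 2 * 2 = 4 by norm_num] at h2
  rw [h2, hY2, hX2, d4, c3]
  simp only [Vseq]
  field_simp
  ring

lemma MultSeq.V_eq_W (h : MultSeq a b x y X Y) (n : ℕ) : Vseq x y X n = Wseq a x y n := by
  induction n using normEDSRec' with
  | zero => simp [Vseq, Wseq]
  | one => simp [Vseq, Wseq]
  | two => simp [Vseq, Wseq]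
  | three => rw [h.V3]; simp [Wseq]
  | four => rw [h.V4]; simp [Wseq]
  | even m ih =>
    have t := h.T' (m + 2) (by omega) (m + 4) (by omega)
    rw [show m + 4 + (m + 2) = 2 * (m + 3) by ring, show m + 4 - (m + 2) = 2 by omega,
      show m + 4 + 1 = m + 5 by ring, show m + 4 - 1 = m + 3 by omega,
      show m + 2 + 1 = m + 3 by ring, show m + 2 - 1 = m + 1 by omega] at t
    have hV2 : Vseq x y X 2 = 2 * y := by simp [Vseq]
    have hne : (2 * y : ℚ) ≠ 0 := by simp [h.y_ne]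
    rw [hV2] at t
    apply mul_right_cancel₀ hne
    rw [t, ih (m + 1) (by omega), ih (m + 2) (by omega), ih (m + 3) (by omega),
      ih (m + 4) (by omega), ih (m + 5) (by omega)]
    have e := normEDS_even (2 * y) (c3 a x y) (d4 a x y) ((m : ℤ) + 3)
    simp only [Wseq]
    push_cast
    rw [show (2 : ℤ) * ((m : ℤ) + 3) = 2 * (m + 3) by ring] at *
    rw [e]
    ring_nf
  | odd m ih =>
    have t := h.T' (m + 2) (by omega) (m + 3) (by omega)
    rw [show m + 3 + (m + 2) = 2 * (m + 2) + 1 by ring, show m + 3 - (m + 2) = 1 by omega,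
      show m + 3 + 1 = m + 4 by ring, show m + 3 - 1 = m + 2 by omega,
      show m + 2 + 1 = m + 3 by ring, show m + 2 - 1 = m + 1 by omega] at t
    have hV1 : Vseq x y X 1 = 1 := by simp [Vseq]
    rw [hV1, mul_one] at t
    rw [t, ih (m + 1) (by omega), ih (m + 2) (by omega), ih (m + 3) (by omega),
      ih (m + 4) (by omega)]
    have e := normEDS_odd (2 * y) (c3 a x y) (d4 a x y) ((m : ℤ) + 2)
    simp only [Wseq]
    push_cast
    rw [e]
    ring_nf

end Pool.Agent.Lib.MP_3550b5_nt
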