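import Mathlib
import Pool.Agent.Lib.MP_3550b5_nt.EDS

namespace Pool.Agent.Lib.MP_3550b5_nt

variable {a b x y : ℤ} {X Y : ℕ → ℚ}

lemma Wseq_cast (a x y : ℤ) (n : ℕ) :
    ((Wseq a x y n : ℤ) : ℚ) = Wseq (a : ℚ) (x : ℚ) (y : ℚ) n :=
  Wseq_map (Int.castRingHom ℚ) a x y n

lemma W_eq_V (h : MultSeq (a : ℚ) b x y X Y) (n : ℕ) :
    ((Wseq a x y n : ℤ) : ℚ) = Vseq (x : ℚ) y X n := by
  rw [Wseq_cast, h.V_eq_W]

lemma W_ne_zero (h : MultSeq (a : ℚ) b x y X Y) (n : ℕ) (hn : 1 ≤ n) : Wseq a x y n ≠ 0 := by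
  have := h.V_ne n hn
  rw [← W_eq_V h n] at this
  exact_mod_cast this

lemma W_T (h : MultSeq (a : ℚ) b x y X Y) (n : ℕ) (hn : 1 ≤ n) (m : ℕ) (hm : n < m) :
    Wseq a x y (m + n) * Wseq a x y (m - n) =
      Wseq a x y (m + 1) * Wseq a x y (m - 1) * Wseq a x y n ^ 2 -
      Wseq a x y (n + 1) * Wseq a x y (n - 1) * Wseq a x y m ^ 2 := by
  have := h.T' n hn m hm
  simp only [← W_eq_V h] at this
  exact_mod_cast this

@[simp] lemma Wseq_zero {R : Type*} [CommRing R] (a x y : R) : Wseq a x y 0 = 0 := by simp [Wseq]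
@[simp] lemma Wseq_one {R : Type*} [CommRing R] (a x y : R) : Wseq a x y 1 = 1 := by simp [Wseq]
@[simp] lemma Wseq_two {R : Type*} [CommRing R] (a x y : R) : Wseq a x y 2 = 2 * y := by simp [Wseq]
@[simp] lemma Wseq_three {R : Type*} [CommRing R] (a x y : R) : Wseq a x y 3 = c3 a x y := by
  simp [Wseq]
@[simp] lemma Wseq_four {R : Type*} [CommRing R] (a x y : R) :
    Wseq a x y 4 = d4 a x y * (2 * y) := by simp [Wseq]

/-- Consecutive terms have no common prime factor when the point is nonsingular modulo every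
prime. -/
lemma W_consecutive (h : MultSeq (a : ℚ) b x y X Y) {l : ℤ} (hl : Prime l)
    (hns : ¬ (l ∣ 2 * y ∧ l ∣ 3 * x ^ 2 + a)) (n : ℕ) :
    ¬ (l ∣ Wseq a x y n ∧ l ∣ Wseq a x y (n + 1)) := by
  have h23 : ¬ (l ∣ Wseq a x y 2 ∧ l ∣ Wseq a x y 3) := by
    rintro ⟨h2, h3⟩
    rw [Wseq_two] at h2
    rw [Wseq_three, c3] at h3
    apply hns
    refine ⟨h2, ?_⟩
    have h4 : l ∣ (3 * x ^ 2 + a) ^ 2 := by
      have : (3 * x ^ 2 + a) ^ 2 = (2 * y) * (6 * x * y) -
        (12 * x * y ^ 2 - (3 * x ^ 2 + a) ^ 2) := by ring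
      rw [this]
      exact dvd_sub (Dvd.dvd.mul_right h2 _) h3
    exact hl.dvd_of_dvd_pow h4
  induction n using Nat.strong_induction_on with
  | _ n ih =>
    rintro ⟨hn0, hn1⟩
    match n, hn0, hn1, ih with
    | 0, _, hn1, _ =>
      rw [zero_add, Wseq_one] at hn1
      exact hl.not_isUnit (isUnit_of_dvd_one hn1)
    | 1, hn0, _, _ =>
      rw [Wseq_one] at hn0
      exact hl.not_isUnit (isUnit_of_dvd_one hn0)
    | 2, hn0, hn1, _ => exact h23 ⟨hn0, hn1⟩
    | 3, hn0, hn1, ih =>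
      have h2 : ¬ l ∣ 2 * y := fun h2 => h23 ⟨by rw [Wseq_two]; exact h2, hn0⟩
      rw [show 3 + 1 = 4 by norm_num, Wseq_four] at hn1
      rcases hl.dvd_or_dvd hn1 with h4 | h4
      · rw [Wseq_three] at hn0
        rw [d4] at h4
        have : l ∣ (2 * y) ^ 4 := by
          have e : (2 * y) ^ 4 = (2 * (3 * x ^ 2 + a)) * c3 a x y -
            (2 * (3 * x ^ 2 + a) * c3 a x y - 16 * y ^ 4) := by ring
          rw [e]
          exact dvd_sub (Dvd.dvd.mul_left hn0 _) h4
        exact h2 (hl.dvd_of_dvd_pow this)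
      · exact h2 h4
    | (k + 4), hn0, hn1, ih =>
      have hprev : ¬ l ∣ Wseq a x y (k + 3) := fun hd => ih (k + 3) (by omega) ⟨hd, hn0⟩
      have t := W_T h 2 (by norm_num) (k + 3) (by omega)
      rw [show k + 3 + 2 = k + 4 + 1 by ring, show k + 3 - 2 = k + 1 by omega,
        show k + 3 + 1 = k + 4 by ring, show k + 3 - 1 = k + 2 by omega,
        show 2 + 1 = 3 by norm_num, show 2 - 1 = 1 by norm_num, Wseq_one, mul_one] at t
      have h3 : l ∣ Wseq a x y 3 * Wseq a x y (k + 3) ^ 2 := by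
        have e : Wseq a x y 3 * Wseq a x y (k + 3) ^ 2 =
          Wseq a x y (k + 4) * (Wseq a x y (k + 2) * Wseq a x y 2 ^ 2) -
            Wseq a x y (k + 4 + 1) * Wseq a x y (k + 1) := by rw [t]; ring
        rw [e]
        exact dvd_sub (Dvd.dvd.mul_right hn0 _) (Dvd.dvd.mul_right hn1 _)
      have h3' : l ∣ Wseq a x y 3 := by
        rcases hl.dvd_or_dvd h3 with h | h
        · exact h
        · exact absurd (hl.dvd_of_dvd_pow h) hprev
      have h2 : ¬ l ∣ Wseq a x y 2 := fun h2 => h23 ⟨h2, h3'⟩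
      have h4 : ¬ l ∣ Wseq a x y 4 := by
        intro h4
        exact ih 3 (by omega) ⟨h3', h4⟩
      -- all non multiples of three are nonzero mod l
      have key : ∀ j, ¬ l ∣ Wseq a x y (3 * j + 1) ∧ ¬ l ∣ Wseq a x y (3 * j + 2) := by
        intro j
        induction j using Nat.strong_induction_on with
        | _ j ihj =>
          match j, ihj with
          | 0, _ =>
            refine ⟨?_, by simpa using h2⟩
            rw [mul_zero, zero_add, Wseq_one]
            exact fun hd => hl.not_isUnit (isUnit_of_dvd_one hd)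
          | 1, ihj =>
            refine ⟨h4, ?_⟩
            have t5 := W_T h 2 (by norm_num) 3 (by norm_num)
            norm_num at t5
            intro h5
            rw [show 3 * 1 + 2 = 5 by norm_num] at h5
            have : l ∣ Wseq a x y 4 * Wseq a x y 2 ^ 3 := by
              have e : Wseq a x y 4 * Wseq a x y 2 ^ 3 = Wseq a x y 5 +
                Wseq a x y 3 * (Wseq a x y 3 ^ 2) := by
                have e2 : Wseq a x y 5 = Wseq a x y 4 * Wseq a x y 2 * Wseq a x y 2 ^ 2 -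
                  Wseq a x y 3 * Wseq a x y 3 ^ 2 := by
                  simpa using t5
                rw [e2]; ring
              rw [e]
              exact dvd_add h5 (Dvd.dvd.mul_right h3' _)
            rcases hl.dvd_or_dvd this with h | h
            · exact h4 h
            · exact h2 (hl.dvd_of_dvd_pow h)
          | (i + 2), ihj =>
            have step : ∀ k', 4 ≤ k' → ¬ l ∣ Wseq a x y k' → ¬ l ∣ Wseq a x y (k' + 3) := by
              intro k' hk' hk hd
              have t := W_T h 3 (by norm_num) k' (by omega)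
              rw [show 3 + 1 = 4 by norm_num, show 3 - 1 = 2 by norm_num] at t
              have : l ∣ Wseq a x y 4 * Wseq a x y 2 * Wseq a x y k' ^ 2 := by
                have e : Wseq a x y 4 * Wseq a x y 2 * Wseq a x y k' ^ 2 =
                  Wseq a x y 3 * (Wseq a x y (k' + 1) * Wseq a x y (k' - 1) * Wseq a x y 3) -
                  Wseq a x y (k' + 3) * Wseq a x y (k' - 3) := by rw [t]; ring
                rw [e]
                exact dvd_sub (Dvd.dvd.mul_right h3' _) (Dvd.dvd.mul_right hd _)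
              rcases hl.dvd_or_dvd this with h | h
              · rcases hl.dvd_or_dvd h with h | h
                · exact h4 h
                · exact h2 h
              · exact hk (hl.dvd_of_dvd_pow h)
            obtain ⟨i1, i2⟩ := ihj (i + 1) (by omega)
            refine ⟨?_, ?_⟩
            · have := step (3 * (i + 1) + 1) (by omega) i1
              rwa [show 3 * (i + 1) + 1 + 3 = 3 * (i + 2) + 1 by ring] at this
            · have := step (3 * (i + 1) + 2) (by omega) i2
              rwa [show 3 * (i + 1) + 2 + 3 = 3 * (i + 2) + 2 by ring] at this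
      have hmod : (k + 4) % 3 = 0 ∨ (k + 4) % 3 = 1 ∨ (k + 4) % 3 = 2 := by omega
      rcases hmod with hm | hm | hm
      · obtain ⟨j, hj⟩ : ∃ j, k + 4 + 1 = 3 * j + 1 := ⟨(k + 4) / 3, by omega⟩
        rw [hj] at hn1
        exact (key j).1 hn1
      · obtain ⟨j, hj⟩ : ∃ j, k + 4 = 3 * j + 1 := ⟨(k + 4) / 3, by omega⟩
        rw [hj] at hn0
        exact (key j).1 hn0
      · obtain ⟨j, hj⟩ : ∃ j, k + 4 = 3 * j + 2 := ⟨(k + 4) / 3, by omega⟩
        rw [hj] at hn0
        exact (key j).2 hn0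

/-- Numerator of `x (n P)`. -/
def Aseq {R : Type*} [CommRing R] (a x y : R) (n : ℕ) : R :=
  x * Wseq a x y n ^ 2 - Wseq a x y (n + 1) * Wseq a x y (n - 1)

lemma X_eq (h : MultSeq (a : ℚ) b x y X Y) (n : ℕ) (hn : 1 ≤ n) :
    X n = ((Aseq a x y n : ℤ) : ℚ) / ((Wseq a x y n : ℤ) : ℚ) ^ 2 := by
  have hV := h.V_mul n hn
  have hne := h.V_ne n hn
  simp only [← W_eq_V h] at hV hne
  rw [Aseq]
  push_cast
  rw [hV]
  field_simp
  ring

/-- Existence of the numerator of `y (n P)` with the nonsingularity condition. -/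
lemma exists_B (h : MultSeq (a : ℚ) b x y X Y) (hns : IsCoprime (2 * y) (3 * x ^ 2 + a))
    (n : ℕ) (hn : 1 ≤ n) :
    ∃ B : ℤ, Y n = (B : ℚ) / ((Wseq a x y n : ℤ) : ℚ) ^ 3 ∧
      IsCoprime (2 * B) (3 * Aseq a x y n ^ 2 + a * Wseq a x y n ^ 4) ∧
      B ^ 2 = Aseq a x y n ^ 3 + a * Aseq a x y n * Wseq a x y n ^ 4 + b * Wseq a x y n ^ 6 := by
  have hWne : ((Wseq a x y n : ℤ) : ℚ) ≠ 0 := by exact_mod_cast W_ne_zero h n hn
  have hsq : (Y n * ((Wseq a x y n : ℤ) : ℚ) ^ 3) ^ 2 =
      ((Aseq a x y n ^ 3 + a * Aseq a x y n * Wseq a x y n ^ 4 + b * Wseq a x y n ^ 6 : ℤ) : ℚ) := by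
    have e := h.eqn n hn
    rw [X_eq h n hn] at e
    rw [mul_pow, e]
    push_cast
    field_simp
  obtain ⟨B, hB⟩ : ∃ B : ℤ, (algebraMap ℤ ℚ) B = Y n * ((Wseq a x y n : ℤ) : ℚ) ^ 3 := by
    apply IsIntegrallyClosed.exists_algebraMap_eq_of_isIntegral_pow (R := ℤ) (n := 2) (by norm_num)
    rw [hsq]
    exact isIntegral_algebraMap (R := ℤ) (A := ℚ)
  have hB' : (B : ℚ) = Y n * ((Wseq a x y n : ℤ) : ℚ) ^ 3 := by simpa using hB
  have hBeq : B ^ 2 = Aseq a x y n ^ 3 + a * Aseq a x y n * Wseq a x y n ^ 4 +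
      b * Wseq a x y n ^ 6 := by
    rw [← hB'] at hsq
    exact_mod_cast hsq
  refine ⟨B, by rw [hB']; field_simp, ?_, hBeq⟩
  have h2n : Wseq a x y (2 * n) = 2 * B * Wseq a x y n := by
    have e := h.V_two_mul n hn
    simp only [← W_eq_V h] at e
    have : ((Wseq a x y (2 * n) : ℤ) : ℚ) = 2 * B * ((Wseq a x y n : ℤ) : ℚ) := by
      rw [e, hB']; ring
    exact_mod_cast this
  have h3n : Wseq a x y (3 * n) = Wseq a x y n *
      (12 * Aseq a x y n * B ^ 2 - (3 * Aseq a x y n ^ 2 + a * Wseq a x y n ^ 4) ^ 2) := by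
    have e := h.V_three_mul n hn
    simp only [← W_eq_V h] at e
    have : ((Wseq a x y (3 * n) : ℤ) : ℚ) = ((Wseq a x y n : ℤ) : ℚ) *
      (12 * ((Aseq a x y n : ℤ) : ℚ) * B ^ 2 -
        (3 * ((Aseq a x y n : ℤ) : ℚ) ^ 2 + a * ((Wseq a x y n : ℤ) : ℚ) ^ 4) ^ 2) := by
      rw [e, hB', X_eq h n hn]
      field_simp
    exact_mod_cast this
  have hns' : ∀ l : ℤ, Prime l → ¬ (l ∣ 2 * y ∧ l ∣ 3 * x ^ 2 + a) := by
    rintro l hl ⟨h1, h2⟩
    exact hl.not_isUnit (hns.isUnit_of_dvd' h1 h2)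
  apply isCoprime_of_prime_dvd
  · rintro ⟨hB0, hA0⟩
    have hB00 : B = 0 := by omega
    have hYn := h.Yne n hn
    rw [hB00] at hB'
    simp only [Int.cast_zero] at hB'
    rcases mul_eq_zero.mp hB'.symm with h0 | h0
    · exact hYn h0
    · exact (pow_ne_zero 3 hWne) h0
  · intro l hl h1 h2
    have hcn := W_consecutive h hl (hns' l hl)
    by_cases hlW : l ∣ Wseq a x y n
    · -- l divides W_n
      have hA : ¬ l ∣ Aseq a x y n := by
        intro hA
        have : l ∣ Wseq a x y (n + 1) * Wseq a x y (n - 1) := by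
          have e : Wseq a x y (n + 1) * Wseq a x y (n - 1) =
            Wseq a x y n * (x * Wseq a x y n) - Aseq a x y n := by rw [Aseq]; ring
          rw [e]
          exact dvd_sub (Dvd.dvd.mul_right hlW _) hA
        rcases hl.dvd_or_dvd this with h' | h'
        · exact hcn n ⟨hlW, h'⟩
        · have := hcn (n - 1)
          rw [show n - 1 + 1 = n by omega] at this
          exact this ⟨h', hlW⟩
      rcases hl.dvd_or_dvd h1 with h' | h'
      · -- l divides 2
        have h3 : l ∣ 3 * Aseq a x y n ^ 2 := by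
          have e : 3 * Aseq a x y n ^ 2 = (3 * Aseq a x y n ^ 2 + a * Wseq a x y n ^ 4) -
            Wseq a x y n * (a * Wseq a x y n ^ 3) := by ring
          rw [e]
          exact dvd_sub h2 (Dvd.dvd.mul_right hlW _)
        have h4 : l ∣ Aseq a x y n ^ 2 := by
          have e : Aseq a x y n ^ 2 = 3 * Aseq a x y n ^ 2 - 2 * (Aseq a x y n ^ 2) := by ring
          rw [e]
          exact dvd_sub h3 (Dvd.dvd.mul_right h' _)
        exact hA (hl.dvd_of_dvd_pow h4)
      · have h3 : l ∣ Aseq a x y n ^ 3 := by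
          have e : Aseq a x y n ^ 3 = B * B - Wseq a x y n *
            (a * Aseq a x y n * Wseq a x y n ^ 3 + b * Wseq a x y n ^ 5) := by
            have : B * B = B ^ 2 := by ring
            rw [this, hBeq]; ring
          rw [e]
          exact dvd_sub (Dvd.dvd.mul_right h' _) (Dvd.dvd.mul_right hlW _)
        exact hA (hl.dvd_of_dvd_pow h3)
    · have h2n' : l ∣ Wseq a x y (2 * n) := by rw [h2n]; exact Dvd.dvd.mul_right h1 _
      have h3n' : l ∣ Wseq a x y (3 * n) := by
        rw [h3n]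
        apply Dvd.dvd.mul_left
        have e : 12 * Aseq a x y n * B ^ 2 - (3 * Aseq a x y n ^ 2 + a * Wseq a x y n ^ 4) ^ 2 =
          (2 * B) * (6 * Aseq a x y n * B) -
          (3 * Aseq a x y n ^ 2 + a * Wseq a x y n ^ 4) *
          (3 * Aseq a x y n ^ 2 + a * Wseq a x y n ^ 4) := by ring
        rw [e]
        exact dvd_sub (Dvd.dvd.mul_right h1 _) (Dvd.dvd.mul_right h2 _)
      have t := W_T h n hn (2 * n) (by omega)
      rw [show 2 * n + n = 3 * n by ring, show 2 * n - n = n by omega] at t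
      have : l ∣ Wseq a x y (2 * n + 1) * Wseq a x y (2 * n - 1) * Wseq a x y n ^ 2 := by
        have e : Wseq a x y (2 * n + 1) * Wseq a x y (2 * n - 1) * Wseq a x y n ^ 2 =
          Wseq a x y (3 * n) * Wseq a x y n + Wseq a x y (2 * n) *
          (Wseq a x y (n + 1) * Wseq a x y (n - 1) * Wseq a x y (2 * n)) := by rw [t]; ring
        rw [e]
        exact dvd_add (Dvd.dvd.mul_right h3n' _) (Dvd.dvd.mul_right h2n' _)
      rcases hl.dvd_or_dvd this with h' | h'
      · rcases hl.dvd_or_dvd h' with h' | h'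
        · exact hcn (2 * n) ⟨h2n', h'⟩
        · have := hcn (2 * n - 1)
          rw [show 2 * n - 1 + 1 = 2 * n by omega] at this
          exact this ⟨h', h2n'⟩
      · exact hlW (hl.dvd_of_dvd_pow h')

end Pool.Agent.Lib.MP_3550b5_nt
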