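import Mathlib
import Pool.Agent.Lib.MP_3550b5_nt.EDSInt

namespace Pool.Agent.Lib.MP_3550b5_nt

variable {a b x y : ℤ} {X Y : ℕ → ℚ}

/-- Every prime divides a term of index at most `2 p + 1`. -/
lemma exists_apparition (h : MultSeq (a : ℚ) b x y X Y) (p : ℕ) [hp : Fact p.Prime] :
    ∃ m, 1 ≤ m ∧ m ≤ 2 * p + 1 ∧ (p : ℤ) ∣ Wseq a x y m := by
  by_contra hcon
  push Not at hcon
  have hW : ∀ m, 1 ≤ m → m ≤ 2 * p + 1 → ((Wseq a x y m : ℤ) : ZMod p) ≠ 0 := by
    intro m h1 h2 h0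
    exact hcon m h1 h2 ((ZMod.intCast_zmod_eq_zero_iff_dvd _ _).mp h0)
  -- pigeonhole
  let e : Fin (p + 1) → ZMod p := fun i =>
    ((Wseq a x y (i.val + 1 + 1) : ℤ) : ZMod p) * ((Wseq a x y (i.val + 1 - 1) : ℤ) : ZMod p) /
      ((Wseq a x y (i.val + 1) : ℤ) : ZMod p) ^ 2
  obtain ⟨i, j, hij, hee⟩ := Fintype.exists_ne_map_eq_of_card_lt e (by simp [ZMod.card])
  wlog hlt : i.val < j.val generalizing i j with H
  · exact H j i hij.symm hee.symm (by
      have : i.val ≠ j.val := fun hh => hij (Fin.ext hh)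
      omega)
  have t := W_T h (i.val + 1) (by omega) (j.val + 1) (by omega)
  have t' := congrArg (fun z : ℤ => (z : ZMod p)) t
  push_cast at t'
  have hi := hW (i.val + 1) (by omega) (by omega)
  have hj := hW (j.val + 1) (by omega) (by omega)
  have hp1 := hW (j.val + 1 + (i.val + 1)) (by omega) (by omega)
  have hp2 := hW (j.val + 1 - (i.val + 1)) (by omega) (by omega)
  simp only [e] at hee
  rw [div_eq_div_iff (pow_ne_zero 2 hi) (pow_ne_zero 2 hj)] at hee
  simp only [Nat.add_sub_cancel] at hee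
  rw [← hee, sub_self] at t'
  rw [show j.val + 1 - (i.val + 1) = j.val - i.val by omega] at hp2
  exact (mul_ne_zero hp1 hp2) t'

end Pool.Agent.Lib.MP_3550b5_nt
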