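import Mathlib

namespace Pool.Agent.Lib.MP_3550b5_nt

open Finset

/-- Reduction of an integer vector. -/
def residV {n : ℕ} (M : ℕ) (z : Fin n → ℤ) : Fin n → ZMod M := fun i => (z i : ZMod M)

/-- Weighted scaling of a vector. -/
def scalV {R : Type*} [CommRing R] {n : ℕ} (w : Fin n → ℕ) (l : R) (z : Fin n → R) : Fin n → R :=
  fun i => l ^ (w i) * z i

lemma residV_scalV {n : ℕ} (M : ℕ) (w : Fin n → ℕ) (l : ℤ) (z : Fin n → ℤ) :
    residV M (scalV w l z) = scalV w (l : ZMod M) (residV M z) := by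
  funext i
  simp [residV, scalV]

lemma eval_scalV {R : Type*} [CommRing R] {n : ℕ} {w : Fin n → ℕ} {f : MvPolynomial (Fin n) R}
    {e : ℕ} (hf : f.IsWeightedHomogeneous w e) (l : R) (z : Fin n → R) :
    MvPolynomial.eval (scalV w l z) f = l ^ e * MvPolynomial.eval z f := by
  rw [MvPolynomial.eval_eq', MvPolynomial.eval_eq', Finset.mul_sum]
  refine Finset.sum_congr rfl fun d hd => ?_
  have hw := hf (MvPolynomial.mem_support_iff.mp hd)
  have h1 : ∏ i, (scalV w l z) i ^ d i = l ^ e * ∏ i, z i ^ d i := by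
    have hw2 : e = ∑ i, d i * w i := by
      rw [← hw, Finsupp.weight_apply, Finsupp.sum_fintype]
      · simp
      · intro i; exact zero_smul _ _
    rw [hw2, ← Finset.prod_pow_eq_pow_sum, ← Finset.prod_mul_distrib]
    refine Finset.prod_congr rfl fun i _ => ?_
    rw [scalV, mul_pow, ← pow_mul, mul_comm (w i)]
  rw [h1]; ring

lemma eval_congr {n : ℕ} {M : ℕ} (f : MvPolynomial (Fin n) ℤ) {z z' : Fin n → ℤ}
    (h : residV M z = residV M z') :
    MvPolynomial.eval z f ≡ MvPolynomial.eval z' f [ZMOD M] := by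
  rw [← ZMod.intCast_eq_intCast_iff]
  have key : ∀ z : Fin n → ℤ, ((MvPolynomial.eval z f : ℤ) : ZMod M) =
      MvPolynomial.eval₂ (Int.castRingHom (ZMod M)) (residV M z) f := by
    intro z
    have h1 := MvPolynomial.eval₂_comp_left (Int.castRingHom (ZMod M)) (RingHom.id ℤ) z f
    rw [MvPolynomial.eval₂_id] at h1
    exact h1
  rw [key, key, h]

/-- Counting the integer vectors of a box with prescribed residues. -/
lemma boxV_count {n : ℕ} (M : ℕ) (hM : 0 < M) (Z : Fin n → ℕ) (hZ : ∀ i, M ≤ Z i)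
    (E : Finset (Fin n → ℤ)) (hE : ∀ z ∈ E, ∀ i, |z i| ≤ Z i) :
    E.card * M ^ n ≤ 3 ^ n * (∏ i, Z i) * (E.image (residV M)).card := by
  have hMZ : (0 : ℤ) < M := by exact_mod_cast hM
  have h1 : E.card ≤ (∏ i, (2 * Z i / M + 1)) * (E.image (residV M)).card := by
    apply Finset.card_le_mul_card_image
    intro c _
    have hmaps : Set.MapsTo (fun (z : Fin n → ℤ) (i : Fin n) => ((z i + Z i) / M).toNat)
        (↑(E.filter (fun z => residV M z = c)) : Set (Fin n → ℤ))
        (↑(Fintype.piFinset (fun i : Fin n => range (2 * Z i / M + 1))) : Set (Fin n → ℕ)) := by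
      intro z hz
      have hz' := Finset.mem_coe.mp hz
      rw [Finset.mem_filter] at hz'
      rw [Finset.mem_coe, Fintype.mem_piFinset]
      intro i
      have b := hE z hz'.1 i
      rw [abs_le] at b
      have h3 : (z i + Z i) / M ≤ (2 * Z i : ℤ) / M := Int.ediv_le_ediv hMZ (by linarith)
      rw [Finset.mem_range, Int.toNat_lt' (Nat.succ_pos _)]
      push_cast
      linarith
    have hinj : Set.InjOn (fun (z : Fin n → ℤ) (i : Fin n) => ((z i + Z i) / M).toNat)
        (↑(E.filter (fun z => residV M z = c)) : Set (Fin n → ℤ)) := by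
      intro z hz z' hz' heq
      have hz1 := Finset.mem_coe.mp hz
      have hz1' := Finset.mem_coe.mp hz'
      rw [Finset.mem_filter] at hz1 hz1'
      have hres : residV M z = residV M z' := hz1.2.trans hz1'.2.symm
      funext i
      have b := hE z hz1.1 i
      have b' := hE z' hz1'.1 i
      rw [abs_le] at b b'
      have h2 := congrFun hres i
      have h3 := congrFun heq i
      simp only [residV] at h2
      simp only at h3
      have n1 : 0 ≤ (z i + Z i) / M := Int.ediv_nonneg (by linarith) hMZ.le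
      have n2 : 0 ≤ (z' i + Z i) / M := Int.ediv_nonneg (by linarith) hMZ.le
      have h4 : (z i + Z i) / M = (z' i + Z i) / M := by omega
      have h5 : z i ≡ z' i [ZMOD M] := (ZMod.intCast_eq_intCast_iff _ _ _).mp h2
      have h6 : (z i + Z i) % M = (z' i + Z i) % M := h5.add_right _
      have h7 := Int.emod_add_mul_ediv (z i + Z i) M
      have h8 := Int.emod_add_mul_ediv (z' i + Z i) M
      rw [h4, h6] at h7
      linarith
    have := Finset.card_le_card_of_injOn _ hmaps hinj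
    simpa [Fintype.card_piFinset] using this
  have aux : ∀ N : ℕ, M ≤ N → (2 * N / M + 1) * M ≤ 3 * N := by
    intro N hN
    have := Nat.div_mul_le_self (2 * N) M
    nlinarith
  have h2 : (∏ i, (2 * Z i / M + 1)) * M ^ n ≤ 3 ^ n * ∏ i, Z i := by
    have e1 : (∏ i, (2 * Z i / M + 1)) * M ^ n = ∏ i : Fin n, ((2 * Z i / M + 1) * M) := by
      rw [Finset.prod_mul_distrib, Finset.prod_const, Finset.card_univ, Fintype.card_fin]
    have e2 : 3 ^ n * ∏ i, Z i = ∏ i : Fin n, (3 * Z i) := by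
      rw [Finset.prod_mul_distrib, Finset.prod_const, Finset.card_univ, Fintype.card_fin]
    rw [e1, e2]
    exact Finset.prod_le_prod' fun i _ => aux _ (hZ i)
  calc E.card * M ^ n ≤ (∏ i, (2 * Z i / M + 1)) * (E.image (residV M)).card * M ^ n :=
        Nat.mul_le_mul_right _ h1
    _ = (∏ i, (2 * Z i / M + 1)) * M ^ n * (E.image (residV M)).card := by ring
    _ ≤ 3 ^ n * (∏ i, Z i) * (E.image (residV M)).card := Nat.mul_le_mul_right _ h2

/-- Trivial count of a box. -/
lemma boxV_card {n : ℕ} (Z : Fin n → ℕ) (hZ : ∀ i, 1 ≤ Z i)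
    (E : Finset (Fin n → ℤ)) (hE : ∀ z ∈ E, ∀ i, |z i| ≤ Z i) :
    E.card ≤ 3 ^ n * ∏ i, Z i := by
  have := boxV_count 1 one_pos Z hZ E hE
  have h1 : (E.image (residV 1)).card ≤ 1 := by
    apply Finset.card_le_one.mpr
    intro a _ b _
    funext i
    exact Subsingleton.elim _ _
  calc E.card = E.card * 1 ^ n := by simp
    _ ≤ 3 ^ n * (∏ i, Z i) * (E.image (residV 1)).card := this
    _ ≤ 3 ^ n * (∏ i, Z i) * 1 := Nat.mul_le_mul_left _ h1
    _ = 3 ^ n * ∏ i, Z i := mul_one _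

/-- Double counting along the scaling action of the one-units. -/
theorem scaled_bound {p : ℕ} (hp1 : 1 < p) {n : ℕ} (w : Fin n → ℕ) (k : ℕ)
    (Z : Fin n → ℕ) (hZ : ∀ i, p ^ k ≤ Z i)
    (E : Finset (Fin n → ℤ)) (hE : ∀ z ∈ E, ∀ i, |z i| ≤ Z i) (N : ℕ)
    (hfib : ∀ z₀ ∈ E, ∀ j₀ < p ^ (k - 1), ∀ J : Finset ℕ,
      (∀ j ∈ J, j < p ^ (k - 1) ∧ ∃ z ∈ E, residV (p ^ k) (scalV w (1 + (p : ℤ) * j) z) =
        residV (p ^ k) (scalV w (1 + (p : ℤ) * j₀) z₀)) → J.card ≤ N) :
    E.card * p ^ (k - 1) ≤ 3 ^ n * N * ∏ i, Z i := by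
  classical
  have : NeZero (p ^ k) := ⟨pow_ne_zero _ (by omega)⟩
  set M := p ^ k with hM
  set Bk := E.image (residV M) with hBk
  set F : ℕ × (Fin n → ZMod M) → (Fin n → ZMod M) :=
    fun t => scalV w (((1 + (p : ℤ) * t.1 : ℤ)) : ZMod M) t.2 with hF
  set D := range (p ^ (k - 1)) ×ˢ Bk with hD
  have hunit : ∀ j : ℕ, IsUnit (((1 + (p : ℤ) * j : ℤ)) : ZMod M) := by
    intro j
    have hMc : ((M : ℕ) : ℤ) = (p : ℤ) ^ k := by simp [hM]
    have hcp : IsCoprime ((M : ℕ) : ℤ) (1 + (p : ℤ) * j) := by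
      simp only [hMc]
      apply IsCoprime.pow_left
      exact ⟨-j, 1, by ring⟩
    exact (ZMod.coe_int_isUnit_iff_isCoprime _ _).mpr hcp
  have hfibF : ∀ v ∈ D.image F, (D.filter (fun t => F t = v)).card ≤ N := by
    intro v hv
    obtain ⟨t₀, ht₀, hv⟩ := Finset.mem_image.mp hv
    have ht0' := ht₀
    rw [hD, Finset.mem_product, Finset.mem_range] at ht0'
    obtain ⟨z₀, hz₀, hzt⟩ := Finset.mem_image.mp ht0'.2
    have hinj : Set.InjOn Prod.fst (↑(D.filter (fun t => F t = v)) :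
        Set (ℕ × (Fin n → ZMod M))) := by
      intro t ht t' ht' heq
      have h1 := (Finset.mem_filter.mp (Finset.mem_coe.mp ht)).2
      have h2 := (Finset.mem_filter.mp (Finset.mem_coe.mp ht')).2
      have h3 := h1.trans h2.symm
      refine Prod.ext heq (funext fun i => ?_)
      have h4 := congrFun h3 i
      simp only [hF, scalV] at h4
      rw [heq] at h4
      exact ((hunit t'.1).pow _).mul_left_cancel h4
    rw [← Finset.card_image_of_injOn hinj]
    apply hfib z₀ hz₀ t₀.1 ht0'.1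
    intro j hj
    obtain ⟨t, ht, rfl⟩ := Finset.mem_image.mp hj
    have h1 := Finset.mem_filter.mp ht
    have h2 := h1.1
    rw [hD, Finset.mem_product, Finset.mem_range] at h2
    obtain ⟨z, hz, hzt'⟩ := Finset.mem_image.mp h2.2
    refine ⟨h2.1, z, hz, ?_⟩
    rw [residV_scalV, residV_scalV, hzt, hzt']
    exact h1.2.trans hv.symm
  have h1 : D.card ≤ N * (D.image F).card := Finset.card_le_mul_card_image _ _ hfibF
  have hcardall : Fintype.card (Fin n → ZMod M) = M ^ n := by
    rw [Fintype.card_pi, Finset.prod_const, Finset.card_univ, Fintype.card_fin, ZMod.card]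
  have h2 : (D.image F).card ≤ M ^ n := by
    rw [← hcardall]; exact Finset.card_le_univ _
  have h3 : D.card = p ^ (k - 1) * Bk.card := by
    rw [hD, Finset.card_product, Finset.card_range]
  have h4 : p ^ (k - 1) * Bk.card ≤ N * M ^ n :=
    h3 ▸ h1.trans (Nat.mul_le_mul_left _ h2)
  have hM0 : 0 < M := by positivity
  have h5 := boxV_count M hM0 Z hZ E hE
  have h6 : E.card * p ^ (k - 1) * M ^ n ≤ (3 ^ n * N * ∏ i, Z i) * M ^ n := by
    calc E.card * p ^ (k - 1) * M ^ n = (E.card * M ^ n) * p ^ (k - 1) := by ring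
      _ ≤ (3 ^ n * (∏ i, Z i) * Bk.card) * p ^ (k - 1) := Nat.mul_le_mul_right _ h5
      _ = 3 ^ n * (∏ i, Z i) * (p ^ (k - 1) * Bk.card) := by ring
      _ ≤ 3 ^ n * (∏ i, Z i) * (N * M ^ n) := Nat.mul_le_mul_left _ h4
      _ = (3 ^ n * N * ∏ i, Z i) * M ^ n := by ring
  exact Nat.le_of_mul_le_mul_right h6 (by positivity)

/-- Members of an interval in a residue class. -/
lemma card_class_le {p : ℕ} (hp1 : 1 < p) (K e : ℕ) (J : Finset ℕ) (hJ : ∀ j ∈ J, j < p ^ K)
    (hc : ∀ j ∈ J, ∀ j' ∈ J, j ≡ j' [MOD p ^ (K - e)]) : J.card ≤ p ^ e := by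
  have hmaps : Set.MapsTo (fun j : ℕ => j / p ^ (K - e)) (↑J : Set ℕ) (↑(range (p ^ e)) : Set ℕ) := by
    intro j hj
    have h1 := hJ j (Finset.mem_coe.mp hj)
    rw [Finset.mem_coe, Finset.mem_range, Nat.div_lt_iff_lt_mul (by positivity), ← pow_add]
    exact lt_of_lt_of_le h1 (Nat.pow_le_pow_right (by omega) (by omega))
  have hinj : Set.InjOn (fun j : ℕ => j / p ^ (K - e)) (↑J : Set ℕ) := by
    intro j hj j' hj' heq
    have h1 := hc j (Finset.mem_coe.mp hj) j' (Finset.mem_coe.mp hj')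
    have h7 := Nat.mod_add_div j (p ^ (K - e))
    have h8 := Nat.mod_add_div j' (p ^ (K - e))
    have h6 : j % p ^ (K - e) = j' % p ^ (K - e) := h1
    simp only at heq
    rw [heq, h6] at h7
    omega
  have := Finset.card_le_card_of_injOn _ hmaps hinj
  simpa using this

end Pool.Agent.Lib.MP_3550b5_nt
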