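import Mathlib
import Pool.Agent.Lib.MP_3550b5_nt.Hasse

namespace Pool.Agent.Lib.MP_3550b5_nt

open Polynomial

lemma cubic_natDegree_le {R : Type*} [CommRing R] (a b : R) :
    (X ^ 3 + C a * X + C b : R[X]).natDegree ≤ 3 := by
  refine (natDegree_add_le _ _).trans (max_le ?_ (by simp))
  refine (natDegree_add_le _ _).trans (max_le (natDegree_X_pow_le 3) ?_)
  have := natDegree_C_mul_X_pow_le a 1
  rw [pow_one] at this
  exact this.trans (by norm_num)

lemma reflect_cubic {R : Type*} [CommRing R] (a b : R) :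
    reflect 3 (X ^ 3 + C a * X + C b : R[X]) = 1 + C a * X ^ 2 + C b * X ^ 3 := by
  rw [reflect_add, reflect_add, reflect_C, reflect_monomial]
  have h1 : reflect 3 (C a * X : R[X]) = C a * X ^ 2 := by
    have := reflect_C_mul_X_pow (R := R) 3 1 (c := a)
    rw [pow_one] at this
    rw [this]
    congr 1
  rw [h1]
  congr 2

lemma reflect_cubic_pow {R : Type*} [CommRing R] (a b : R) (q : ℕ) :
    reflect (3 * q) ((X ^ 3 + C a * X + C b : R[X]) ^ q) = hasseRev a b q := by
  induction q with
  | zero => simp [hasseRev]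
  | succ q ih =>
    rw [pow_succ, show 3 * (q + 1) = 3 * q + 3 by ring,
      reflect_mul _ _ ((natDegree_pow_le_of_le q (cubic_natDegree_le a b)).trans (by omega))
        (cubic_natDegree_le a b), ih, reflect_cubic]
    unfold hasseRev
    exact (pow_succ _ _).symm

lemma cubic_pow_coeff {R : Type*} [CommRing R] (a b : R) (q : ℕ) :
    ((X ^ 3 + C a * X + C b : R[X]) ^ q).coeff (2 * q) = (hasseRev a b q).coeff q := by
  rw [← reflect_cubic_pow, coeff_reflect, revAt_le (by omega)]
  congr 1
  omega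

lemma sum_pow_mid {p q : ℕ} [Fact p.Prime] (hpq : p = 2 * q + 1) (hq : 1 ≤ q) (i : ℕ)
    (hi : i ≤ 3 * q) : ∑ x : ZMod p, x ^ i = if i = 2 * q then -1 else 0 := by
  have hcard : Fintype.card (ZMod p) = p := ZMod.card p
  rcases lt_trichotomy i (2 * q) with h | h | h
  · rw [if_neg (by omega)]
    apply FiniteField.sum_pow_lt_card_sub_one
    rw [hcard]; omega
  · rw [if_pos h, h]
    have h1 : ∀ x : ZMod p, x ^ (2 * q) = if x = 0 then 0 else 1 := by
      intro x
      split_ifs with hx
      · rw [hx, zero_pow (by omega)]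
      · have := ZMod.pow_card_sub_one_eq_one hx
        rwa [show p - 1 = 2 * q by omega] at this
    simp only [h1]
    rw [Finset.sum_ite, Finset.sum_const_zero, zero_add, Finset.sum_const, nsmul_eq_mul, mul_one]
    have h2 : (Finset.univ.filter (fun x : ZMod p => ¬ x = 0)).card = p - 1 := by
      have : (Finset.univ.filter (fun x : ZMod p => ¬ x = 0)) = Finset.univ.erase 0 := by
        ext x; simp
      rw [this, Finset.card_erase_of_mem (Finset.mem_univ _), Finset.card_univ, hcard]
    rw [h2, Nat.cast_sub (Fact.out (p := p.Prime)).one_le]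
    simp
  · rw [if_neg (by omega)]
    have h1 : ∀ x : ZMod p, x ^ i = x ^ (i - 2 * q) := by
      intro x
      by_cases hx : x = 0
      · rw [hx, zero_pow (by omega), zero_pow (by omega)]
      · have := ZMod.pow_card_sub_one_eq_one hx
        rw [show p - 1 = 2 * q by omega] at this
        conv_lhs => rw [show i = (i - 2 * q) + 2 * q by omega, pow_add, this, mul_one]
    simp only [h1]
    apply FiniteField.sum_pow_lt_card_sub_one
    rw [hcard]; omega

theorem count_affine {p q : ℕ} [Fact p.Prime] (hpq : p = 2 * q + 1) (hq : 1 ≤ q)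
    (a b : ZMod p) :
    ((Nat.card {v : ZMod p × ZMod p // v.2 ^ 2 = v.1 ^ 3 + a * v.1 + b} : ℕ) : ZMod p) =
      - (hasseRev a b q).coeff q := by
  classical
  have hcard : Fintype.card (ZMod p) = p := ZMod.card p
  have hchar : ringChar (ZMod p) ≠ 2 := by
    rw [ZMod.ringChar_zmod_n]; omega
  have e1 : Nat.card {v : ZMod p × ZMod p // v.2 ^ 2 = v.1 ^ 3 + a * v.1 + b} =
      ∑ x : ZMod p, Fintype.card {y : ZMod p // y ^ 2 = x ^ 3 + a * x + b} := by
    rw [← Fintype.card_sigma, ← Nat.card_eq_fintype_card]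
    apply Nat.card_congr
    refine ⟨fun v => ⟨v.1.1, v.1.2, v.2⟩, fun v => ⟨(v.1, v.2.1), v.2.2⟩, fun _ => rfl, fun _ => rfl⟩
  have e2 : ∀ x : ZMod p, ((Fintype.card {y : ZMod p // y ^ 2 = x ^ 3 + a * x + b} : ℕ) : ZMod p) =
      (x ^ 3 + a * x + b) ^ q + 1 := by
    intro x
    have h1 := quadraticChar_card_sqrts hchar (x ^ 3 + a * x + b)
    have h2 : Fintype.card {y : ZMod p // y ^ 2 = x ^ 3 + a * x + b} =
        ({y : ZMod p | y ^ 2 = x ^ 3 + a * x + b}.toFinset).card := by
      rw [Set.toFinset_card]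
      exact Fintype.card_congr (Equiv.refl _)
    rw [h2]
    have h3 := congrArg (Int.cast (R := ZMod p)) h1
    push_cast at h3
    rw [h3, quadraticChar_eq_pow_of_char_ne_two' hchar, hcard, show p / 2 = q by omega]
  rw [e1]
  push_cast
  rw [Finset.sum_congr rfl (fun x _ => e2 x), Finset.sum_add_distrib]
  simp only [Finset.sum_const, Finset.card_univ, hcard, nsmul_eq_mul, mul_one, CharP.cast_eq_zero,
    add_zero]
  set F : (ZMod p)[X] := (X ^ 3 + C a * X + C b) ^ q with hF
  have hFdeg : F.natDegree < 3 * q + 1 := by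
    have := natDegree_pow_le_of_le q (cubic_natDegree_le a b)
    rw [← hF] at this
    omega
  have e3 : ∀ x : ZMod p, (x ^ 3 + a * x + b) ^ q = ∑ i ∈ Finset.range (3 * q + 1), F.coeff i * x ^ i := by
    intro x
    rw [← eval_eq_sum_range' hFdeg x, hF]
    simp
  rw [Finset.sum_congr rfl (fun x _ => e3 x), Finset.sum_comm]
  have e4 : ∀ i ∈ Finset.range (3 * q + 1), ∑ x : ZMod p, F.coeff i * x ^ i =
      if i = 2 * q then - F.coeff i else 0 := by
    intro i hi
    rw [← Finset.mul_sum, sum_pow_mid hpq hq i (by have := Finset.mem_range.mp hi; omega)]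
    split_ifs <;> ring
  rw [Finset.sum_congr rfl e4, Finset.sum_ite_eq' , if_pos (Finset.mem_range.mpr (by omega)),
    hF, cubic_pow_coeff]

end Pool.Agent.Lib.MP_3550b5_nt
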