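import Mathlib
import Pool.Agent.Lib.MP_3550b5_nt.Lip
import Pool.Agent.Lib.MP_3550b5_nt.EDSInt

namespace Pool.Agent.Lib.MP_3550b5_nt

open PowerSeries

variable {p : ℕ} [hp : Fact p.Prime]
variable {q : ℕ} {a b c a' b' c' : ℤ_[p]} {W V Om S Z W' V' Om' S' Z' : ℤ_[p]⟦X⟧}

lemma derivative_rescale {R : Type*} [CommRing R] (l : R) (f : R⟦X⟧) :
    derivative R (rescale l f) = C l * rescale l (derivative R f) := by
  ext n
  rw [coeff_derivative, coeff_rescale, coeff_C_mul, coeff_rescale, coeff_derivative]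
  ring

lemma rescale_X' {R : Type*} [CommRing R] (l : R) : rescale l (X : R⟦X⟧) = C l * X := by
  ext n
  rw [coeff_rescale, coeff_C_mul, coeff_X]
  split_ifs with h
  · subst h; simp
  · simp

lemma rescale_C' {R : Type*} [CommRing R] (l r : R) : rescale l (C r : R⟦X⟧) = C r := by
  ext n
  rw [coeff_rescale, coeff_C]
  split_ifs with h
  · subst h; simp
  · simp

lemma SigmaData.rescale (h : SigmaData p a b c W V Om S Z) (l : ℤ_[p]) :
    SigmaData p (l ^ 4 * a) (l ^ 6 * b) (l ^ 2 * c) (PowerSeries.rescale l W)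
      (PowerSeries.rescale l V) (PowerSeries.rescale l Om) (PowerSeries.rescale l S)
      (C l * PowerSeries.rescale l Z) := by
  refine ⟨?_, ?_, ?_, ?_, ?_, ?_, ?_, ?_⟩
  · have := congrArg (PowerSeries.rescale l) h.hW
    simp only [map_add, map_mul, map_pow, map_one, rescale_X', rescale_C'] at this
    simp only [map_mul, map_pow]
    linear_combination this
  · rw [← map_mul, h.hV, map_one]
  · have := congrArg (PowerSeries.rescale l) h.hOm
    simp only [map_add, map_mul, map_ofNat, rescale_X'] at this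
    rw [this, derivative_rescale]
    ring
  · rw [← coeff_zero_eq_constantCoeff_apply, coeff_rescale, pow_zero, one_mul,
      coeff_zero_eq_constantCoeff_apply, h.S0]
  · rw [coeff_rescale, h.S1, mul_zero]
  · intro n hn
    rw [coeff_rescale, h.Seven n hn, mul_zero]
  · have := congrArg (PowerSeries.rescale l) h.E1
    simp only [map_add, map_sub, map_mul, rescale_X'] at this
    rw [derivative_rescale]
    linear_combination this
  · have := congrArg (PowerSeries.rescale l) h.E2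
    simp only [map_sub, map_mul, map_pow, rescale_X', rescale_C'] at this
    rw [Derivation.leibniz, derivative_C, smul_zero, add_zero, smul_eq_mul, derivative_rescale]
    simp only [map_mul, map_pow]
    linear_combination this

lemma ev_rescale (l : ℤ_[p]) (f : ℤ_[p]⟦X⟧) (t : ℤ_[p]) :
    ev (PowerSeries.rescale l f) t = ev f (l * t) := by
  unfold ev
  refine tsum_congr fun n => ?_
  rw [coeff_rescale]; ring

lemma ev_neg_of_even {f : ℤ_[p]⟦X⟧} (hf : ∀ n, Odd n → coeff n f = 0) (t : ℤ_[p]) :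
    ev f (-t) = ev f t := by
  unfold ev
  refine tsum_congr fun n => ?_
  rcases Nat.even_or_odd n with h | h
  · rw [h.neg_pow]
  · rw [hf n h]; ring

lemma norm_sub_le_of_mul {x y x' y' : ℤ_[p]} {r : ℝ} (hx : ‖x - x'‖ ≤ r) (hy : ‖y - y'‖ ≤ r) :
    ‖x * y - x' * y'‖ ≤ r := by
  have : x * y - x' * y' = (x - x') * y + x' * (y - y') := by ring
  rw [this]
  refine (PadicInt.nonarchimedean _ _).trans (max_le ?_ ?_)
  · rw [norm_mul]
    calc ‖x - x'‖ * ‖y‖ ≤ ‖x - x'‖ * 1 := by gcongr; exact PadicInt.norm_le_one _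
      _ ≤ r := by rw [mul_one]; exact hx
  · rw [norm_mul]
    calc ‖x'‖ * ‖y - y'‖ ≤ 1 * ‖y - y'‖ := by gcongr; exact PadicInt.norm_le_one _
      _ ≤ r := by rw [one_mul]; exact hy

lemma norm_add_le_max' (x y : ℤ_[p]) {r : ℝ} (hx : ‖x‖ ≤ r) (hy : ‖y‖ ≤ r) : ‖x + y‖ ≤ r :=
  (PadicInt.nonarchimedean _ _).trans (max_le hx hy)

/-- Core congruence, fixed sign. -/
lemma core_aux (hpq : p = 2 * q + 1) (hq : 1 ≤ q) (k : ℕ)
    (h : SigmaData p a b c W V Om S Z) (h' : SigmaData p a' b' c' W' V' Om' S' Z')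
    (ha : ‖a - a'‖ ≤ (p : ℝ) ^ (-(k : ℤ))) (hb : ‖b - b'‖ ≤ (p : ℝ) ^ (-(k : ℤ)))
    (hA : (hasseRev (PadicInt.toZMod a) (PadicInt.toZMod b) q).coeff q ≠ 0)
    {A D Bi A' D' Bi' : ℤ_[p]} (hAA : ‖A - A'‖ ≤ (p : ℝ) ^ (-(k : ℤ)))
    (hDD : ‖D - D'‖ ≤ (p : ℝ) ^ (-(k : ℤ))) (hBi : ‖Bi - Bi'‖ ≤ (p : ℝ) ^ (-(k : ℤ)))
    (hD : ‖D‖ < 1) (hD' : ‖D'‖ < 1) :
    ‖A * Bi * ev S (-(A * D * Bi)) - A' * Bi' * ev S' (-(A' * D' * Bi'))‖ ≤
      (p : ℝ) ^ (-(k : ℤ)) := by
  have ht : ‖-(A * D * Bi)‖ < 1 := by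
    rw [norm_neg, norm_mul, norm_mul]
    calc ‖A‖ * ‖D‖ * ‖Bi‖ ≤ 1 * ‖D‖ * 1 := by
          gcongr
          · exact PadicInt.norm_le_one _
          · exact PadicInt.norm_le_one _
      _ = ‖D‖ := by ring
      _ < 1 := hD
  have ht' : ‖-(A' * D' * Bi')‖ < 1 := by
    rw [norm_neg, norm_mul, norm_mul]
    calc ‖A'‖ * ‖D'‖ * ‖Bi'‖ ≤ 1 * ‖D'‖ * 1 := by
          gcongr
          · exact PadicInt.norm_le_one _
          · exact PadicInt.norm_le_one _
      _ = ‖D'‖ := by ring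
      _ < 1 := hD'
  have htt : ‖-(A * D * Bi) - -(A' * D' * Bi')‖ ≤ (p : ℝ) ^ (-(k : ℤ)) := by
    have : -(A * D * Bi) - -(A' * D' * Bi') = -(A * D * Bi - A' * D' * Bi') := by ring
    rw [this, norm_neg]
    exact norm_sub_le_of_mul (norm_sub_le_of_mul hAA hDD) hBi
  refine norm_sub_le_of_mul (norm_sub_le_of_mul hAA hBi) ?_
  have e1 := ev_S_close hpq hq k h h' ((toZModPow_eq_iff k _ _).mpr ha)
    ((toZModPow_eq_iff k _ _).mpr hb) hA ht
  have e2 := norm_ev_sub_le S' ht ht'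
  have e3 : ev S (-(A * D * Bi)) - ev S' (-(A' * D' * Bi')) =
      -(ev S' (-(A * D * Bi)) - ev S (-(A * D * Bi))) +
      (ev S' (-(A * D * Bi)) - ev S' (-(A' * D' * Bi'))) := by ring
  rw [e3]
  exact norm_add_le_max' _ _ (by rw [norm_neg]; exact e1) (e2.trans htt)

/-- Core congruence. -/
theorem core_congr (hpq : p = 2 * q + 1) (hq : 1 ≤ q) (k : ℕ)
    (h : SigmaData p a b c W V Om S Z) (h' : SigmaData p a' b' c' W' V' Om' S' Z')
    (ha : ‖a - a'‖ ≤ (p : ℝ) ^ (-(k : ℤ))) (hb : ‖b - b'‖ ≤ (p : ℝ) ^ (-(k : ℤ)))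
    (hA : (hasseRev (PadicInt.toZMod a) (PadicInt.toZMod b) q).coeff q ≠ 0)
    {A D B Bi A' D' B' Bi' : ℤ_[p]} (hAA : ‖A - A'‖ ≤ (p : ℝ) ^ (-(k : ℤ)))
    (hDD : ‖D - D'‖ ≤ (p : ℝ) ^ (-(k : ℤ)))
    (hB : B ^ 2 = A ^ 3 + a * A * D ^ 4 + b * D ^ 6)
    (hB' : B' ^ 2 = A' ^ 3 + a' * A' * D' ^ 4 + b' * D' ^ 6)
    (hBi : B * Bi = 1) (hBi' : B' * Bi' = 1)
    (hD : ‖D‖ < 1) (hD' : ‖D'‖ < 1) :
    ‖(A * Bi * ev S (-(A * D * Bi))) ^ 2 - (A' * Bi' * ev S' (-(A' * D' * Bi'))) ^ 2‖ ≤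
      (p : ℝ) ^ (-(k : ℤ)) := by
  set r : ℝ := (p : ℝ) ^ (-(k : ℤ)) with hr
  have hnB : ‖B‖ = 1 := by
    have : IsUnit B := IsUnit.of_mul_eq_one _ hBi
    exact PadicInt.isUnit_iff.mp this
  have hnB' : ‖B'‖ = 1 := by
    have : IsUnit B' := IsUnit.of_mul_eq_one _ hBi'
    exact PadicInt.isUnit_iff.mp this
  have hnBi : ‖Bi‖ = 1 := by
    have : IsUnit Bi := IsUnit.of_mul_eq_one _ (by rw [mul_comm]; exact hBi)
    exact PadicInt.isUnit_iff.mp this
  have hnBi' : ‖Bi'‖ = 1 := by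
    have : IsUnit Bi' := IsUnit.of_mul_eq_one _ (by rw [mul_comm]; exact hBi')
    exact PadicInt.isUnit_iff.mp this
  have hBB : ‖B ^ 2 - B' ^ 2‖ ≤ r := by
    rw [hB, hB']
    have e : A ^ 3 + a * A * D ^ 4 + b * D ^ 6 - (A' ^ 3 + a' * A' * D' ^ 4 + b' * D' ^ 6) =
      (A * A * A - A' * A' * A') + (a * A * (D * D * (D * D)) - a' * A' * (D' * D' * (D' * D'))) +
      (b * (D * D * D * (D * D * D)) - b' * (D' * D' * D' * (D' * D' * D'))) := by ring
    rw [e]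
    refine norm_add_le_max' _ _ (norm_add_le_max' _ _ ?_ ?_) ?_
    · exact norm_sub_le_of_mul (norm_sub_le_of_mul hAA hAA) hAA
    · exact norm_sub_le_of_mul (norm_sub_le_of_mul ha hAA)
        (norm_sub_le_of_mul (norm_sub_le_of_mul hDD hDD) (norm_sub_le_of_mul hDD hDD))
    · exact norm_sub_le_of_mul hb (norm_sub_le_of_mul
        (norm_sub_le_of_mul (norm_sub_le_of_mul hDD hDD) hDD)
        (norm_sub_le_of_mul (norm_sub_le_of_mul hDD hDD) hDD))
  have hn2 : ‖(2 : ℤ_[p])‖ = 1 := by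
    have : ‖((2 : ℕ) : ℤ_[p])‖ = 1 := by
      rw [PadicInt.norm_natCast_eq_one_iff]
      exact (Nat.coprime_primes hp.out Nat.prime_two).mpr (by omega)
    exact_mod_cast this
  have hsplit : ‖B - B'‖ ≤ r ∨ ‖B + B'‖ ≤ r := by
    have e1 : B ^ 2 - B' ^ 2 = (B - B') * (B + B') := by ring
    rw [e1, norm_mul] at hBB
    have e2 : ‖(B - B') + (B + B')‖ = 1 := by
      have : (B - B') + (B + B') = 2 * B := by ring
      rw [this, norm_mul, hn2, hnB, one_mul]
    have e3 : 1 ≤ max ‖B - B'‖ ‖B + B'‖ := by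
      rw [← e2]; exact PadicInt.nonarchimedean _ _
    rcases le_max_iff.mp e3 with h1 | h1
    · right
      have : ‖B - B'‖ = 1 := le_antisymm (PadicInt.norm_le_one _) h1
      rw [this, one_mul] at hBB
      exact hBB
    · left
      have : ‖B + B'‖ = 1 := le_antisymm (PadicInt.norm_le_one _) h1
      rw [this, mul_one] at hBB
      exact hBB
  rcases hsplit with h1 | h1
  · have hBiBi : ‖Bi - Bi'‖ ≤ r := by
      have e : Bi - Bi' = -(Bi * Bi' * (B - B')) := by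
        linear_combination Bi' * hBi - Bi * hBi'
      rw [e, norm_neg, norm_mul, norm_mul, hnBi, hnBi', one_mul, one_mul]
      exact h1
    have := core_aux hpq hq k h h' ha hb hA hAA hDD hBiBi hD hD'
    rw [pow_two, pow_two]
    exact norm_sub_le_of_mul this this
  · have hBiBi : ‖Bi - -Bi'‖ ≤ r := by
      have e : Bi - -Bi' = (Bi * Bi' * (B + B')) := by
        linear_combination (-Bi') * hBi - Bi * hBi'
      rw [e, norm_mul, norm_mul, hnBi, hnBi', one_mul, one_mul]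
      exact h1
    have := core_aux hpq hq k h h' ha hb hA hAA hDD hBiBi hD hD'
    have e1 : (A' * Bi' * ev S' (-(A' * D' * Bi'))) ^ 2 =
        (A' * -Bi' * ev S' (-(A' * D' * -Bi'))) ^ 2 := by
      have e2 : -(A' * D' * -Bi') = -(-(A' * D' * Bi')) := by ring
      rw [e2, ev_neg_of_even h'.Seven]
      ring
    rw [e1, pow_two, pow_two]
    exact norm_sub_le_of_mul this this

end Pool.Agent.Lib.MP_3550b5_nt
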