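import Mathlib
import Pool.Agent.Lib.MP_3550b5_nt.EDSInt

namespace Pool.Agent.Lib.MP_3550b5_nt

/-- Homogeneity of normalised elliptic divisibility sequences. -/
lemma normEDS_scale {R : Type*} [CommRing R] [IsDomain R] (l b c d : R) (hl : l ≠ 0) (hb : b ≠ 0)
    (n : ℕ) :
    l * normEDS (l ^ 3 * b) (l ^ 8 * c) (l ^ 12 * d) (n : ℤ) =
      l ^ (n ^ 2) * normEDS b c d (n : ℤ) := by
  have hLb : l ^ 3 * b ≠ 0 := mul_ne_zero (pow_ne_zero _ hl) hb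
  induction n using normEDSRec' with
  | zero => simp
  | one => simp
  | two => simp; ring
  | three => simp; ring
  | four => simp; ring
  | even m ih =>
    have i1 := ih (m + 1) (by omega)
    have i2 := ih (m + 2) (by omega)
    have i3 := ih (m + 3) (by omega)
    have i4 := ih (m + 4) (by omega)
    have i5 := ih (m + 5) (by omega)
    have e := normEDS_even b c d ((m : ℤ) + 3)
    have e' := normEDS_even (l ^ 3 * b) (l ^ 8 * c) (l ^ 12 * d) ((m : ℤ) + 3)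
    rw [show ((m : ℤ) + 3 - 1) = ((m + 2 : ℕ) : ℤ) by push_cast; ring,
      show ((m : ℤ) + 3 + 2) = ((m + 5 : ℕ) : ℤ) by push_cast; ring,
      show ((m : ℤ) + 3 - 2) = ((m + 1 : ℕ) : ℤ) by push_cast; ring,
      show ((m : ℤ) + 3 + 1) = ((m + 4 : ℕ) : ℤ) by push_cast; ring,
      show ((m : ℤ) + 3) = ((m + 3 : ℕ) : ℤ) by push_cast; ring] at e e'
    rw [show ((2 * (m + 3) : ℕ) : ℤ) = 2 * ((m + 3 : ℕ) : ℤ) by push_cast; ring]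
    apply mul_left_cancel₀ (pow_ne_zero 3 hl)
    apply mul_left_cancel₀ hLb
    calc l ^ 3 * b * (l ^ 3 * (l * normEDS (l ^ 3 * b) (l ^ 8 * c) (l ^ 12 * d)
            (2 * ((m + 3 : ℕ) : ℤ))))
        = l ^ 4 * (normEDS (l ^ 3 * b) (l ^ 8 * c) (l ^ 12 * d) (2 * ((m + 3 : ℕ) : ℤ))
            * (l ^ 3 * b)) := by ring
      _ = (l * normEDS (l ^ 3 * b) (l ^ 8 * c) (l ^ 12 * d) ((m + 2 : ℕ) : ℤ)) ^ 2 *
          (l * normEDS (l ^ 3 * b) (l ^ 8 * c) (l ^ 12 * d) ((m + 3 : ℕ) : ℤ)) *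
          (l * normEDS (l ^ 3 * b) (l ^ 8 * c) (l ^ 12 * d) ((m + 5 : ℕ) : ℤ)) -
          (l * normEDS (l ^ 3 * b) (l ^ 8 * c) (l ^ 12 * d) ((m + 1 : ℕ) : ℤ)) *
          (l * normEDS (l ^ 3 * b) (l ^ 8 * c) (l ^ 12 * d) ((m + 3 : ℕ) : ℤ)) *
          (l * normEDS (l ^ 3 * b) (l ^ 8 * c) (l ^ 12 * d) ((m + 4 : ℕ) : ℤ)) ^ 2 := by
          rw [e']; ring
      _ = l ^ ((2 * (m + 3)) ^ 2 + 6) * (normEDS b c d ((m + 2 : ℕ) : ℤ) ^ 2 *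
          normEDS b c d ((m + 3 : ℕ) : ℤ) * normEDS b c d ((m + 5 : ℕ) : ℤ) -
          normEDS b c d ((m + 1 : ℕ) : ℤ) * normEDS b c d ((m + 3 : ℕ) : ℤ) *
          normEDS b c d ((m + 4 : ℕ) : ℤ) ^ 2) := by
          rw [i1, i2, i3, i4, i5]; ring
      _ = l ^ 3 * b * (l ^ 3 * (l ^ (2 * (m + 3)) ^ 2 * normEDS b c d
            (2 * ((m + 3 : ℕ) : ℤ)))) := by
          rw [← e]; ring
  | odd m ih =>
    have i1 := ih (m + 1) (by omega)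
    have i2 := ih (m + 2) (by omega)
    have i3 := ih (m + 3) (by omega)
    have i4 := ih (m + 4) (by omega)
    have e := normEDS_odd b c d ((m : ℤ) + 2)
    have e' := normEDS_odd (l ^ 3 * b) (l ^ 8 * c) (l ^ 12 * d) ((m : ℤ) + 2)
    rw [show ((m : ℤ) + 2 - 1) = ((m + 1 : ℕ) : ℤ) by push_cast; ring,
      show ((m : ℤ) + 2 + 2) = ((m + 4 : ℕ) : ℤ) by push_cast; ring,
      show ((m : ℤ) + 2 + 1) = ((m + 3 : ℕ) : ℤ) by push_cast; ring,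
      show ((m : ℤ) + 2) = ((m + 2 : ℕ) : ℤ) by push_cast; ring] at e e'
    rw [show ((2 * (m + 2) + 1 : ℕ) : ℤ) = 2 * ((m + 2 : ℕ) : ℤ) + 1 by push_cast; ring]
    apply mul_left_cancel₀ (pow_ne_zero 3 hl)
    calc l ^ 3 * (l * normEDS (l ^ 3 * b) (l ^ 8 * c) (l ^ 12 * d)
            (2 * ((m + 2 : ℕ) : ℤ) + 1))
        = (l * normEDS (l ^ 3 * b) (l ^ 8 * c) (l ^ 12 * d) ((m + 4 : ℕ) : ℤ)) *
          (l * normEDS (l ^ 3 * b) (l ^ 8 * c) (l ^ 12 * d) ((m + 2 : ℕ) : ℤ)) ^ 3 -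
          (l * normEDS (l ^ 3 * b) (l ^ 8 * c) (l ^ 12 * d) ((m + 1 : ℕ) : ℤ)) *
          (l * normEDS (l ^ 3 * b) (l ^ 8 * c) (l ^ 12 * d) ((m + 3 : ℕ) : ℤ)) ^ 3 := by
          rw [e']; ring
      _ = l ^ ((2 * (m + 2) + 1) ^ 2 + 3) * (normEDS b c d ((m + 4 : ℕ) : ℤ) *
          normEDS b c d ((m + 2 : ℕ) : ℤ) ^ 3 -
          normEDS b c d ((m + 1 : ℕ) : ℤ) * normEDS b c d ((m + 3 : ℕ) : ℤ) ^ 3) := by
          rw [i1, i2, i3, i4]; ring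
      _ = l ^ 3 * (l ^ (2 * (m + 2) + 1) ^ 2 * normEDS b c d (2 * ((m + 2 : ℕ) : ℤ) + 1)) := by
          rw [← e]; ring

lemma Wseq_scale {R : Type*} [CommRing R] [IsDomain R] (l a x y : R) (hl : l ≠ 0)
    (hy : 2 * y ≠ 0) (n : ℕ) :
    l * Wseq (l ^ 4 * a) (l ^ 2 * x) (l ^ 3 * y) n = l ^ (n ^ 2) * Wseq a x y n := by
  have := normEDS_scale l (2 * y) (c3 a x y) (d4 a x y) hl hy n
  rw [Wseq, Wseq, ← this]
  congr 2
  · ring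
  · simp only [c3]; ring
  · simp only [d4, c3]; ring

lemma Wseq_scale' {R : Type*} [CommRing R] [IsDomain R] (l a x y : R) (hl : l ≠ 0)
    (hy : 2 * y ≠ 0) (n : ℕ) (hn : 1 ≤ n) :
    Wseq (l ^ 4 * a) (l ^ 2 * x) (l ^ 3 * y) n = l ^ (n ^ 2 - 1) * Wseq a x y n := by
  apply mul_left_cancel₀ hl
  rw [Wseq_scale l a x y hl hy n, ← mul_assoc, ← pow_succ', Nat.sub_add_cancel]
  exact Nat.one_le_pow _ _ hn

lemma Aseq_scale {R : Type*} [CommRing R] [IsDomain R] (l a x y : R) (hl : l ≠ 0)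
    (hy : 2 * y ≠ 0) (n : ℕ) (hn : 1 ≤ n) :
    Aseq (l ^ 4 * a) (l ^ 2 * x) (l ^ 3 * y) n = l ^ (2 * n ^ 2) * Aseq a x y n := by
  have e0 := Wseq_scale l a x y hl hy n
  have e1 := Wseq_scale l a x y hl hy (n + 1)
  have e2 := Wseq_scale l a x y hl hy (n - 1)
  apply mul_left_cancel₀ (pow_ne_zero 2 hl)
  have hexp : (n + 1) ^ 2 + (n - 1) ^ 2 = 2 * n ^ 2 + 2 := by
    obtain ⟨k, rfl⟩ : ∃ k, n = k + 1 := ⟨n - 1, by omega⟩
    simp only [Nat.add_sub_cancel]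
    ring
  rw [Aseq, Aseq]
  calc l ^ 2 * (l ^ 2 * x * Wseq (l ^ 4 * a) (l ^ 2 * x) (l ^ 3 * y) n ^ 2 -
        Wseq (l ^ 4 * a) (l ^ 2 * x) (l ^ 3 * y) (n + 1) *
        Wseq (l ^ 4 * a) (l ^ 2 * x) (l ^ 3 * y) (n - 1))
      = l ^ 2 * x * (l * Wseq (l ^ 4 * a) (l ^ 2 * x) (l ^ 3 * y) n) ^ 2 -
        (l * Wseq (l ^ 4 * a) (l ^ 2 * x) (l ^ 3 * y) (n + 1)) *
        (l * Wseq (l ^ 4 * a) (l ^ 2 * x) (l ^ 3 * y) (n - 1)) := by ring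
    _ = l ^ 2 * x * (l ^ (n ^ 2) * Wseq a x y n) ^ 2 -
        l ^ ((n + 1) ^ 2 + (n - 1) ^ 2) * (Wseq a x y (n + 1) * Wseq a x y (n - 1)) := by
        rw [e0, e1, e2, pow_add]; ring
    _ = l ^ 2 * (l ^ (2 * n ^ 2) * (x * Wseq a x y n ^ 2 -
        Wseq a x y (n + 1) * Wseq a x y (n - 1))) := by
        rw [hexp]; ring

end Pool.Agent.Lib.MP_3550b5_nt
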