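import Mathlib
import Pool.Agent.Lib.MP_3550b5_nt.Core
import Pool.Agent.Lib.MP_3550b5_nt.Scale

namespace Pool.Agent.Lib.MP_3550b5_nt

open PowerSeries

variable {p : ℕ} [hp : Fact p.Prime]

/-- The data attached to a triple `(a, x, y)` whose point has vanishing height. -/
def UnitData (p : ℕ) [Fact p.Prime] (a b x y : ℤ) (m : ℕ) (g : ℤ_[p]) : Prop :=
  ∃ (c : ℤ_[p]) (W V Om S Z : ℤ_[p]⟦X⟧) (B : ℤ) (Bi : ℤ_[p]),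
    SigmaData p (a : ℤ_[p]) (b : ℤ_[p]) c W V Om S Z ∧
    B ^ 2 = Aseq a x y m ^ 3 + a * Aseq a x y m * Wseq a x y m ^ 4 + b * Wseq a x y m ^ 6 ∧
    (B : ℤ_[p]) * Bi = 1 ∧
    (g * ((Aseq a x y m : ℤ) : ℤ_[p]) * Bi *
      ev S (-(((Aseq a x y m : ℤ) : ℤ_[p]) * ((Wseq a x y m : ℤ) : ℤ_[p]) * Bi))) ^ (p - 1) = 1

lemma Wseq_congr {N : ℤ} {a x y a' x' y' : ℤ} (ha : a ≡ a' [ZMOD N]) (hx : x ≡ x' [ZMOD N])
    (hy : y ≡ y' [ZMOD N]) (n : ℕ) : Wseq a x y n ≡ Wseq a' x' y' n [ZMOD N] := by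
  obtain ⟨M, hM⟩ : ∃ M : ℕ, N.natAbs = M := ⟨_, rfl⟩
  have key : ∀ u v : ℤ, u ≡ v [ZMOD N] ↔ ((u : ZMod M) = (v : ZMod M)) := by
    intro u v
    rw [ZMod.intCast_eq_intCast_iff, ← hM]
    constructor
    · intro h
      exact (Int.modEq_natAbs).mpr h
    · intro h
      exact (Int.modEq_natAbs).mp h
  rw [key] at *
  have e := Wseq_map (Int.castRingHom (ZMod M)) a x y n
  have e' := Wseq_map (Int.castRingHom (ZMod M)) a' x' y' n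
  simp only [eq_intCast] at e e'
  rw [e, e', ha, hx, hy]

lemma Aseq_congr {N : ℤ} {a x y a' x' y' : ℤ} (ha : a ≡ a' [ZMOD N]) (hx : x ≡ x' [ZMOD N])
    (hy : y ≡ y' [ZMOD N]) (n : ℕ) : Aseq a x y n ≡ Aseq a' x' y' n [ZMOD N] := by
  unfold Aseq
  exact Int.ModEq.sub (hx.mul ((Wseq_congr ha hx hy n).pow 2))
    ((Wseq_congr ha hx hy (n + 1)).mul (Wseq_congr ha hx hy (n - 1)))

lemma norm_sub_le_of_modEq {k : ℕ} {u v : ℤ} (h : u ≡ v [ZMOD (p : ℤ) ^ k]) :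
    ‖(u : ℤ_[p]) - (v : ℤ_[p])‖ ≤ (p : ℝ) ^ (-(k : ℤ)) := by
  have h1 : ((p ^ k : ℕ) : ℤ) ∣ (u - v) := by
    have := h.symm.dvd
    exact_mod_cast this
  have := (PadicInt.norm_int_le_pow_iff_dvd (p := p) (k := u - v) (n := k)).mpr (by
    exact_mod_cast h1)
  push_cast at this
  exact this

lemma modEq_of_norm_sub_le {k : ℕ} {u v : ℤ}
    (h : ‖(u : ℤ_[p]) - (v : ℤ_[p])‖ ≤ (p : ℝ) ^ (-(k : ℤ))) : u ≡ v [ZMOD (p : ℤ) ^ k] := by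
  have h1 : ‖((u - v : ℤ) : ℤ_[p])‖ ≤ (p : ℝ) ^ (-(k : ℤ)) := by push_cast; exact h
  have := (PadicInt.norm_int_le_pow_iff_dvd (p := p) (k := u - v) (n := k)).mp h1
  exact (Int.modEq_of_dvd (by exact_mod_cast this)).symm

lemma exists_inv_of_modEq_one {l : ℤ} (h : l ≡ 1 [ZMOD (p : ℤ)]) :
    ∃ u : ℤ_[p], (l : ℤ_[p]) * u = 1 := by
  have : IsUnit (l : ℤ_[p]) := by
    rw [PadicInt.isUnit_iff]
    have hn : ¬ (p : ℤ) ∣ l := by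
      intro hd
      have h2 : (p : ℤ) ∣ 1 := by
        have := (Int.emod_emod_of_dvd l (dvd_refl (p : ℤ)))
        have h3 : (1 : ℤ) ≡ 0 [ZMOD p] := h.symm.trans (Int.modEq_zero_iff_dvd.mpr hd)
        exact Int.modEq_zero_iff_dvd.mp h3
      have := Int.natAbs_dvd_natAbs.mpr h2
      simp only [Int.natAbs_natCast, Int.natAbs_one, Nat.dvd_one] at this
      exact hp.out.one_lt.ne' this
    by_contra hne
    have hlt : ‖(l : ℤ_[p])‖ < 1 := lt_of_le_of_ne (PadicInt.norm_le_one _) hne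
    exact hn ((PadicInt.norm_int_lt_one_iff_dvd l).mp hlt)
  obtain ⟨u, hu⟩ := this
  exact ⟨↑u⁻¹, by rw [← hu]; exact u.mul_inv⟩

/-- Scaled data. -/
lemma scaled_data {a b x y : ℤ} {m : ℕ} (hm : 1 ≤ m) {g : ℤ_[p]} (hy0 : 2 * y ≠ 0)
    (h : UnitData p a b x y m g) {l : ℤ} {u : ℤ_[p]} (hlu : (l : ℤ_[p]) * u = 1) :
    ∃ (c : ℤ_[p]) (W V Om S Z : ℤ_[p]⟦X⟧) (B Bi : ℤ_[p]),
    SigmaData p ((l ^ 4 * a : ℤ) : ℤ_[p]) ((l ^ 6 * b : ℤ) : ℤ_[p]) c W V Om S Z ∧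
    B ^ 2 = ((Aseq (l ^ 4 * a) (l ^ 2 * x) (l ^ 3 * y) m : ℤ) : ℤ_[p]) ^ 3 +
      ((l ^ 4 * a : ℤ) : ℤ_[p]) * ((Aseq (l ^ 4 * a) (l ^ 2 * x) (l ^ 3 * y) m : ℤ) : ℤ_[p]) *
        ((Wseq (l ^ 4 * a) (l ^ 2 * x) (l ^ 3 * y) m : ℤ) : ℤ_[p]) ^ 4 +
      ((l ^ 6 * b : ℤ) : ℤ_[p]) * ((Wseq (l ^ 4 * a) (l ^ 2 * x) (l ^ 3 * y) m : ℤ) : ℤ_[p]) ^ 6 ∧
    B * Bi = 1 ∧
    (g * (((Aseq (l ^ 4 * a) (l ^ 2 * x) (l ^ 3 * y) m : ℤ) : ℤ_[p]) * Bi *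
      ev S (-(((Aseq (l ^ 4 * a) (l ^ 2 * x) (l ^ 3 * y) m : ℤ) : ℤ_[p]) *
        ((Wseq (l ^ 4 * a) (l ^ 2 * x) (l ^ 3 * y) m : ℤ) : ℤ_[p]) * Bi)))) ^ (p - 1) =
      u ^ (m ^ 2 * (p - 1)) := by
  obtain ⟨c, W, V, Om, S, Z, B, Bi, hS, hB, hBi, hu⟩ := h
  have hl0 : l ≠ 0 := by
    rintro rfl
    simp at hlu
  have hA := Aseq_scale l a x y hl0 hy0 m hm
  have hW := Wseq_scale' l a x y hl0 hy0 m hm
  set A := Aseq a x y m with hAdef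
  set D := Wseq a x y m with hDdef
  have hres := hS.rescale (l : ℤ_[p])
  have hlun : ∀ n : ℕ, (l : ℤ_[p]) ^ n * u ^ n = 1 := fun n => by rw [← mul_pow, hlu, one_pow]
  refine ⟨_, _, _, _, _, _, (l : ℤ_[p]) ^ (3 * m ^ 2) * (B : ℤ_[p]), u ^ (3 * m ^ 2) * Bi,
    by push_cast; exact hres, ?_, ?_, ?_⟩
  · rw [hA, hW]
    have hB' := congrArg (fun z : ℤ => (z : ℤ_[p])) hB
    push_cast at hB' ⊢
    obtain ⟨k, hk⟩ : ∃ k, m ^ 2 = k + 1 := ⟨m ^ 2 - 1, by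
      have : 1 ≤ m ^ 2 := Nat.one_le_pow _ _ hm
      omega⟩
    rw [hk, Nat.add_sub_cancel]
    linear_combination ((l : ℤ_[p]) ^ (6 * (k + 1))) * hB'
  · linear_combination (hlun (3 * m ^ 2)) * ((B : ℤ_[p]) * Bi) + hBi
  · rw [hA, hW]
    push_cast
    obtain ⟨k, hk⟩ : ∃ k, m ^ 2 = k + 1 := ⟨m ^ 2 - 1, by
      have : 1 ≤ m ^ 2 := Nat.one_le_pow _ _ hm
      omega⟩
    rw [hk, Nat.add_sub_cancel, ev_rescale]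
    have earg : (l : ℤ_[p]) * -((l : ℤ_[p]) ^ (2 * (k + 1)) * (A : ℤ_[p]) *
        ((l : ℤ_[p]) ^ k * (D : ℤ_[p])) * (u ^ (3 * (k + 1)) * Bi)) =
        -((A : ℤ_[p]) * (D : ℤ_[p]) * Bi) := by
      have := hlun (3 * (k + 1))
      linear_combination (-((A : ℤ_[p]) * (D : ℤ_[p]) * Bi)) * this
    rw [earg]
    have e2 : g * ((l : ℤ_[p]) ^ (2 * (k + 1)) * (A : ℤ_[p]) * (u ^ (3 * (k + 1)) * Bi) *
        ev S (-((A : ℤ_[p]) * (D : ℤ_[p]) * Bi))) =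
        u ^ (k + 1) * (g * (A : ℤ_[p]) * Bi * ev S (-((A : ℤ_[p]) * (D : ℤ_[p]) * Bi))) := by
      have := hlun (2 * (k + 1))
      linear_combination (u ^ (k + 1) * (g * (A : ℤ_[p]) * Bi *
        ev S (-((A : ℤ_[p]) * (D : ℤ_[p]) * Bi)))) * this
    rw [e2, mul_pow, hu, mul_one, ← pow_mul]

/-- Two scaled triples which are congruent modulo `p ^ k` have close scaling parameters. -/
theorem lambda_congr {q : ℕ} (hpq : p = 2 * q + 1) (hq : 1 ≤ q) {a b x y a' b' x' y' : ℤ}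
    {m : ℕ} (hm : 1 ≤ m) {g : ℤ_[p]} (hy0 : 2 * y ≠ 0) (hy0' : 2 * y' ≠ 0)
    (h : UnitData p a b x y m g) (h' : UnitData p a' b' x' y' m g)
    (hD : (p : ℤ) ∣ Wseq a x y m) (hD' : (p : ℤ) ∣ Wseq a' x' y' m)
    (hA : (hasseRev (PadicInt.toZMod (p := p) (a : ℤ_[p]))
      (PadicInt.toZMod (p := p) (b : ℤ_[p])) q).coeff q ≠ 0)
    {l l' : ℤ} (hl : l ≡ 1 [ZMOD (p : ℤ)]) (hl' : l' ≡ 1 [ZMOD (p : ℤ)]) {k : ℕ}
    (ea : l ^ 4 * a ≡ l' ^ 4 * a' [ZMOD (p : ℤ) ^ k])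
    (eb : l ^ 6 * b ≡ l' ^ 6 * b' [ZMOD (p : ℤ) ^ k])
    (ex : l ^ 2 * x ≡ l' ^ 2 * x' [ZMOD (p : ℤ) ^ k])
    (ey : l ^ 3 * y ≡ l' ^ 3 * y' [ZMOD (p : ℤ) ^ k]) :
    l ^ (m ^ 2 * (p - 1)) ≡ l' ^ (m ^ 2 * (p - 1)) [ZMOD (p : ℤ) ^ k] := by
  obtain ⟨u, hlu⟩ := exists_inv_of_modEq_one (p := p) hl
  obtain ⟨u', hlu'⟩ := exists_inv_of_modEq_one (p := p) hl'
  obtain ⟨c, W, V, Om, S, Z, B, Bi, hS, hB, hBi, hu⟩ := scaled_data hm hy0 h hlu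
  obtain ⟨c', W', V', Om', S', Z', B', Bi', hS', hB', hBi', hu'⟩ := scaled_data hm hy0' h' hlu'
  have hl0 : l ≠ 0 := by rintro rfl; simp at hlu
  have hl0' : l' ≠ 0 := by rintro rfl; simp at hlu'
  have hA2 : (hasseRev (PadicInt.toZMod (p := p) ((l ^ 4 * a : ℤ) : ℤ_[p]))
      (PadicInt.toZMod (p := p) ((l ^ 6 * b : ℤ) : ℤ_[p])) q).coeff q ≠ 0 := by
    have hl1 : (l : ZMod p) = 1 := by
      have := (ZMod.intCast_eq_intCast_iff l 1 p).mpr hl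
      simpa using this
    push_cast
    simp only [map_mul, map_pow, map_intCast, hl1, one_pow, one_mul] at hA ⊢
    exact hA
  have hnD : ‖((Wseq (l ^ 4 * a) (l ^ 2 * x) (l ^ 3 * y) m : ℤ) : ℤ_[p])‖ < 1 := by
    rw [PadicInt.norm_int_lt_one_iff_dvd, Wseq_scale' l a x y hl0 hy0 m hm]
    exact Dvd.dvd.mul_left hD _
  have hnD' : ‖((Wseq (l' ^ 4 * a') (l' ^ 2 * x') (l' ^ 3 * y') m : ℤ) : ℤ_[p])‖ < 1 := by
    rw [PadicInt.norm_int_lt_one_iff_dvd, Wseq_scale' l' a' x' y' hl0' hy0' m hm]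
    exact Dvd.dvd.mul_left hD' _
  have key := core_congr hpq hq k hS hS' (norm_sub_le_of_modEq ea) (norm_sub_le_of_modEq eb) hA2
    (norm_sub_le_of_modEq (Aseq_congr ea ex ey m)) (norm_sub_le_of_modEq (Wseq_congr ea ex ey m))
    hB hB' hBi hBi' hnD hnD'
  have hp1 : p - 1 = 2 * q := by omega
  rw [hp1, mul_pow, pow_mul _ 2 q, pow_mul (_ * _) 2 q] at hu hu'
  set U := (((Aseq (l ^ 4 * a) (l ^ 2 * x) (l ^ 3 * y) m : ℤ) : ℤ_[p]) * Bi *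
      ev S (-(((Aseq (l ^ 4 * a) (l ^ 2 * x) (l ^ 3 * y) m : ℤ) : ℤ_[p]) *
        ((Wseq (l ^ 4 * a) (l ^ 2 * x) (l ^ 3 * y) m : ℤ) : ℤ_[p]) * Bi))) ^ 2 with hU
  set U' := (((Aseq (l' ^ 4 * a') (l' ^ 2 * x') (l' ^ 3 * y') m : ℤ) : ℤ_[p]) * Bi' *
      ev S' (-(((Aseq (l' ^ 4 * a') (l' ^ 2 * x') (l' ^ 3 * y') m : ℤ) : ℤ_[p]) *
        ((Wseq (l' ^ 4 * a') (l' ^ 2 * x') (l' ^ 3 * y') m : ℤ) : ℤ_[p]) * Bi'))) ^ 2 with hU'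
  have hpow : ‖U ^ q - U' ^ q‖ ≤ (p : ℝ) ^ (-(k : ℤ)) := by
    obtain ⟨w, hw⟩ := sub_dvd_pow_sub_pow U U' q
    rw [hw, norm_mul]
    calc ‖U - U'‖ * ‖w‖ ≤ (p : ℝ) ^ (-(k : ℤ)) * 1 := by
          gcongr
          exact PadicInt.norm_le_one _
      _ = _ := mul_one _
  have hfin : ‖u ^ (m ^ 2 * (2 * q)) - u' ^ (m ^ 2 * (2 * q))‖ ≤ (p : ℝ) ^ (-(k : ℤ)) := by
    rw [← hu, ← hu', ← mul_sub, norm_mul]
    calc ‖(g ^ 2) ^ q‖ * ‖U ^ q - U' ^ q‖ ≤ 1 * (p : ℝ) ^ (-(k : ℤ)) := by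
          gcongr
          exact PadicInt.norm_le_one _
      _ = _ := one_mul _
  rw [hp1]
  apply modEq_of_norm_sub_le
  push_cast
  set N := m ^ 2 * (2 * q) with hN
  have hluN : (l : ℤ_[p]) ^ N * u ^ N = 1 := by rw [← mul_pow, hlu, one_pow]
  have hluN' : (l' : ℤ_[p]) ^ N * u' ^ N = 1 := by rw [← mul_pow, hlu', one_pow]
  have e : (l : ℤ_[p]) ^ N - (l' : ℤ_[p]) ^ N =
      -((l : ℤ_[p]) ^ N * (l' : ℤ_[p]) ^ N * (u ^ N - u' ^ N)) := by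
    linear_combination (l' : ℤ_[p]) ^ N * hluN - (l : ℤ_[p]) ^ N * hluN'
  rw [e, norm_neg, norm_mul]
  calc ‖(l : ℤ_[p]) ^ N * (l' : ℤ_[p]) ^ N‖ * ‖u ^ N - u' ^ N‖
      ≤ 1 * (p : ℝ) ^ (-(k : ℤ)) := by
        gcongr
        exact PadicInt.norm_le_one _
    _ = _ := one_mul _

/-- Lifting the exponent. -/
lemma modEq_of_pow_modEq {l l' : ℤ} (hp2 : p ≠ 2) (hl : l ≡ 1 [ZMOD (p : ℤ)])
    (hl' : l' ≡ 1 [ZMOD (p : ℤ)]) {N e k : ℕ} (hN : ¬ p ^ (e + 1) ∣ N)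
    (h : l ^ N ≡ l' ^ N [ZMOD (p : ℤ) ^ (k + e)]) : l ≡ l' [ZMOD (p : ℤ) ^ k] := by
  have hodd : Odd p := hp.out.odd_of_ne_two hp2
  have hN0 : N ≠ 0 := by rintro rfl; exact hN (dvd_zero _)
  have hxy : (p : ℤ) ∣ l - l' := (hl'.trans hl.symm).dvd
  have hx : ¬ (p : ℤ) ∣ l := by
    intro hd
    have h3 : (1 : ℤ) ≡ 0 [ZMOD p] := hl.symm.trans (Int.modEq_zero_iff_dvd.mpr hd)
    have h2 := Int.modEq_zero_iff_dvd.mp h3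
    have := Int.natAbs_dvd_natAbs.mpr h2
    simp only [Int.natAbs_natCast, Int.natAbs_one, Nat.dvd_one] at this
    exact hp.out.one_lt.ne' this
  have hlte := Int.emultiplicity_pow_sub_pow hp.out hodd hxy hx N
  have hdvd : (p : ℤ) ^ (k + e) ∣ l ^ N - l' ^ N := h.symm.dvd
  have h1 : ((k + e : ℕ) : ℕ∞) ≤ emultiplicity (p : ℤ) (l ^ N - l' ^ N) :=
    le_emultiplicity_of_pow_dvd hdvd
  rw [hlte] at h1
  have h2 : emultiplicity p N ≤ (e : ℕ∞) := by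
    have := emultiplicity_lt_iff_not_dvd.mpr hN
    have h2 : emultiplicity p N < (e : ℕ∞) + 1 := by exact_mod_cast this
    exact (ENat.lt_add_one_iff (ENat.natCast_ne_top e)).mp h2
  have h3 : ((k : ℕ) : ℕ∞) ≤ emultiplicity (p : ℤ) (l - l') := by
    have h4 : ((k : ℕ) : ℕ∞) + (e : ℕ∞) ≤ emultiplicity (p : ℤ) (l - l') + (e : ℕ∞) := by
      calc ((k : ℕ) : ℕ∞) + (e : ℕ∞) = ((k + e : ℕ) : ℕ∞) := by push_cast; rfl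
        _ ≤ _ := h1
        _ ≤ _ := by gcongr
    exact (ENat.add_le_add_iff_right (ENat.natCast_ne_top e)).mp h4
  exact (Int.modEq_of_dvd (pow_dvd_of_le_emultiplicity h3)).symm

end Pool.Agent.Lib.MP_3550b5_nt
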