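import Mathlib
import Pool.Agent.Lib.MP_3550b5_nt.Combine
import Pool.Agent.Lib.MP_3550b5_nt.LogHom

namespace Pool.Agent.Lib.MP_3550b5_nt

open PowerSeries

variable {p : ℕ} [hp : Fact p.Prime]

lemma isUnit_intCast {n : ℤ} (h : ¬ (p : ℤ) ∣ n) : IsUnit (n : ℤ_[p]) := by
  rw [PadicInt.isUnit_iff]
  by_contra hne
  have hlt : ‖(n : ℤ_[p])‖ < 1 := lt_of_le_of_ne (PadicInt.norm_le_one _) hne
  exact h ((PadicInt.norm_int_lt_one_iff_dvd n).mp hlt)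

lemma ev_isUnit {f : ℤ_[p]⟦X⟧} (hf : constantCoeff f = 1) {t : ℤ_[p]} (ht : ‖t‖ < 1) :
    IsUnit (ev f t) := by
  have h1 := norm_ev_sub_le f ht (t' := 0) (by simp)
  have h0 : ev f 0 = 1 := by
    unfold ev
    rw [tsum_eq_single 0]
    · rw [coeff_zero_eq_constantCoeff_apply, hf]; simp
    · intro n hn
      rw [zero_pow hn, mul_zero]
  rw [h0, sub_zero] at h1
  rw [PadicInt.isUnit_iff]
  by_contra hne
  have hlt : ‖ev f t‖ < 1 := lt_of_le_of_ne (PadicInt.norm_le_one _) hne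
  have h2 : ‖(1 : ℤ_[p])‖ ≤ max ‖ev f t‖ ‖ev f t - 1‖ := by
    have e : (1 : ℤ_[p]) = ev f t + -(ev f t - 1) := by ring
    calc ‖(1 : ℤ_[p])‖ = ‖ev f t + -(ev f t - 1)‖ := congrArg _ e
      _ ≤ max ‖ev f t‖ ‖-(ev f t - 1)‖ := PadicInt.nonarchimedean _ _
      _ = _ := by rw [norm_neg]
  rw [norm_one] at h2
  have h3 : max ‖ev f t‖ ‖ev f t - 1‖ < 1 := max_lt hlt (lt_of_le_of_lt h1 ht)
  linarith

/-- `u` is the `p`-adic unit computing the height of `m P` for the triple `(a, x, y)`. -/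
def HtData (p : ℕ) [Fact p.Prime] (a b x y : ℤ) (m : ℕ) (u : ℤ_[p]) : Prop :=
  ∃ (c : ℤ_[p]) (W V Om S Z : ℤ_[p]⟦X⟧) (B : ℤ) (Bi : ℤ_[p]),
    SigmaData p (a : ℤ_[p]) (b : ℤ_[p]) c W V Om S Z ∧
    B ^ 2 = Aseq a x y m ^ 3 + a * Aseq a x y m * Wseq a x y m ^ 4 + b * Wseq a x y m ^ 6 ∧
    (B : ℤ_[p]) * Bi = 1 ∧
    u = ((Aseq a x y m : ℤ) : ℤ_[p]) * Bi *
      ev S (-(((Aseq a x y m : ℤ) : ℤ_[p]) * ((Wseq a x y m : ℤ) : ℤ_[p]) * Bi))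

lemma HtData.isUnit {a b x y : ℤ} {m : ℕ} {u : ℤ_[p]} (h : HtData p a b x y m u)
    (hD : (p : ℤ) ∣ Wseq a x y m) : IsUnit u := by
  obtain ⟨c, W, V, Om, S, Z, B, Bi, hS, hB, hBi, rfl⟩ := h
  have hpZ : Prime (p : ℤ) := Nat.prime_iff_prime_int.mp hp.out
  have hBn : ¬ (p : ℤ) ∣ B := by
    intro hd
    have h1 : ‖(B : ℤ_[p])‖ < 1 := (PadicInt.norm_int_lt_one_iff_dvd B).mpr hd
    have h2 : ‖(B : ℤ_[p])‖ = 1 := PadicInt.isUnit_iff.mp (IsUnit.of_mul_eq_one _ hBi)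
    linarith
  have hAn : ¬ (p : ℤ) ∣ Aseq a x y m := by
    intro hd
    apply hBn
    have h1 : (p : ℤ) ∣ B ^ 2 := by
      rw [hB]
      exact dvd_add (dvd_add (dvd_pow hd (by norm_num))
        (Dvd.dvd.mul_left (dvd_pow hD (by norm_num)) _))
        (Dvd.dvd.mul_left (dvd_pow hD (by norm_num)) _)
    exact hpZ.dvd_of_dvd_pow h1
  have hDn : ‖((Wseq a x y m : ℤ) : ℤ_[p])‖ < 1 := (PadicInt.norm_int_lt_one_iff_dvd _).mpr hD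
  have ht : ‖-(((Aseq a x y m : ℤ) : ℤ_[p]) * ((Wseq a x y m : ℤ) : ℤ_[p]) * Bi)‖ < 1 := by
    rw [norm_neg, norm_mul, norm_mul]
    calc ‖((Aseq a x y m : ℤ) : ℤ_[p])‖ * ‖((Wseq a x y m : ℤ) : ℤ_[p])‖ * ‖Bi‖
        ≤ 1 * ‖((Wseq a x y m : ℤ) : ℤ_[p])‖ * 1 := by
          gcongr
          · exact PadicInt.norm_le_one _
          · exact PadicInt.norm_le_one _
      _ = ‖((Wseq a x y m : ℤ) : ℤ_[p])‖ := by ring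
      _ < 1 := hDn
  have h2 : IsUnit Bi := IsUnit.of_mul_eq_one _ (by rw [mul_comm]; exact hBi)
  exact ((isUnit_intCast hAn).mul h2).mul (ev_isUnit hS.S0 ht)

/-- Scaled data. -/
lemma scaled_ht {a b x y : ℤ} {m : ℕ} (hm : 1 ≤ m) {v : ℤ_[p]} (hy0 : 2 * y ≠ 0)
    (h : HtData p a b x y m v) {l : ℤ} {u : ℤ_[p]} (hlu : (l : ℤ_[p]) * u = 1) :
    ∃ (c : ℤ_[p]) (W V Om S Z : ℤ_[p]⟦X⟧) (B Bi : ℤ_[p]),
    SigmaData p ((l ^ 4 * a : ℤ) : ℤ_[p]) ((l ^ 6 * b : ℤ) : ℤ_[p]) c W V Om S Z ∧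
    B ^ 2 = ((Aseq (l ^ 4 * a) (l ^ 2 * x) (l ^ 3 * y) m : ℤ) : ℤ_[p]) ^ 3 +
      ((l ^ 4 * a : ℤ) : ℤ_[p]) * ((Aseq (l ^ 4 * a) (l ^ 2 * x) (l ^ 3 * y) m : ℤ) : ℤ_[p]) *
        ((Wseq (l ^ 4 * a) (l ^ 2 * x) (l ^ 3 * y) m : ℤ) : ℤ_[p]) ^ 4 +
      ((l ^ 6 * b : ℤ) : ℤ_[p]) * ((Wseq (l ^ 4 * a) (l ^ 2 * x) (l ^ 3 * y) m : ℤ) : ℤ_[p]) ^ 6 ∧
    B * Bi = 1 ∧
    ((Aseq (l ^ 4 * a) (l ^ 2 * x) (l ^ 3 * y) m : ℤ) : ℤ_[p]) * Bi *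
      ev S (-(((Aseq (l ^ 4 * a) (l ^ 2 * x) (l ^ 3 * y) m : ℤ) : ℤ_[p]) *
        ((Wseq (l ^ 4 * a) (l ^ 2 * x) (l ^ 3 * y) m : ℤ) : ℤ_[p]) * Bi)) =
      u ^ (m ^ 2) * v := by
  obtain ⟨c, W, V, Om, S, Z, B, Bi, hS, hB, hBi, hu⟩ := h
  have hl0 : l ≠ 0 := by
    rintro rfl
    simp at hlu
  have hA := Aseq_scale l a x y hl0 hy0 m hm
  have hW := Wseq_scale' l a x y hl0 hy0 m hm
  set A := Aseq a x y m with hAdef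
  set D := Wseq a x y m with hDdef
  have hres := hS.rescale (l : ℤ_[p])
  have hlun : ∀ n : ℕ, (l : ℤ_[p]) ^ n * u ^ n = 1 := fun n => by rw [← mul_pow, hlu, one_pow]
  refine ⟨_, _, _, _, _, _, (l : ℤ_[p]) ^ (3 * m ^ 2) * (B : ℤ_[p]), u ^ (3 * m ^ 2) * Bi,
    by push_cast; exact hres, ?_, ?_, ?_⟩
  · rw [hA, hW]
    have hB' := congrArg (fun z : ℤ => (z : ℤ_[p])) hB
    push_cast at hB' ⊢
    obtain ⟨k, hk⟩ : ∃ k, m ^ 2 = k + 1 := ⟨m ^ 2 - 1, by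
      have : 1 ≤ m ^ 2 := Nat.one_le_pow _ _ hm
      omega⟩
    rw [hk, Nat.add_sub_cancel]
    linear_combination ((l : ℤ_[p]) ^ (6 * (k + 1))) * hB'
  · linear_combination (hlun (3 * m ^ 2)) * ((B : ℤ_[p]) * Bi) + hBi
  · rw [hA, hW]
    push_cast
    obtain ⟨k, hk⟩ : ∃ k, m ^ 2 = k + 1 := ⟨m ^ 2 - 1, by
      have : 1 ≤ m ^ 2 := Nat.one_le_pow _ _ hm
      omega⟩
    rw [hk, Nat.add_sub_cancel, ev_rescale]
    have earg : (l : ℤ_[p]) * -((l : ℤ_[p]) ^ (2 * (k + 1)) * (A : ℤ_[p]) *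
        ((l : ℤ_[p]) ^ k * (D : ℤ_[p])) * (u ^ (3 * (k + 1)) * Bi)) =
        -((A : ℤ_[p]) * (D : ℤ_[p]) * Bi) := by
      have := hlun (3 * (k + 1))
      linear_combination (-((A : ℤ_[p]) * (D : ℤ_[p]) * Bi)) * this
    rw [earg]
    have e2 : (l : ℤ_[p]) ^ (2 * (k + 1)) * (A : ℤ_[p]) * (u ^ (3 * (k + 1)) * Bi) *
        ev S (-((A : ℤ_[p]) * (D : ℤ_[p]) * Bi)) =
        u ^ (k + 1) * ((A : ℤ_[p]) * Bi * ev S (-((A : ℤ_[p]) * (D : ℤ_[p]) * Bi))) := by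
      have := hlun (2 * (k + 1))
      linear_combination (u ^ (k + 1) * ((A : ℤ_[p]) * Bi *
        ev S (-((A : ℤ_[p]) * (D : ℤ_[p]) * Bi)))) * this
    rw [e2, hu]

lemma zpow_neg_lt_one {k : ℕ} (hk : 1 ≤ k) : (p : ℝ) ^ (-(k : ℤ)) < 1 := by
  have hp1 : (1 : ℝ) < p := by exact_mod_cast hp.out.one_lt
  rw [zpow_neg, zpow_natCast]
  exact inv_lt_one_of_one_lt₀ (one_lt_pow₀ hp1 (by omega))

lemma norm_two_padic (hp3 : 3 ≤ p) : ‖(2 : ℚ_[p])‖ = 1 := by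
  have h2 : ‖((2 : ℕ) : ℤ_[p])‖ = 1 := by
    rw [PadicInt.norm_natCast_eq_one_iff]
    exact (Nat.coprime_primes hp.out Nat.prime_two).mpr (by omega)
  have e : (((2 : ℕ) : ℤ_[p]) : ℚ_[p]) = 2 := by
    rw [PadicInt.coe_natCast]; norm_num
  rw [← e, PadicInt.padic_norm_e_of_padicInt]
  exact h2

/-- The shifted heights of two congruent scaled triples are close. -/
theorem ht_close {q : ℕ} (hpq : p = 2 * q + 1) (hq : 1 ≤ q) {a b x y a' b' x' y' : ℤ}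
    {m : ℕ} (hm : 1 ≤ m) {v v' : ℤ_[p]} (hy0 : 2 * y ≠ 0) (hy0' : 2 * y' ≠ 0)
    (h : HtData p a b x y m v) (h' : HtData p a' b' x' y' m v')
    (hD : (p : ℤ) ∣ Wseq a x y m) (hD' : (p : ℤ) ∣ Wseq a' x' y' m)
    (hA : (hasseRev (PadicInt.toZMod (p := p) (a : ℤ_[p]))
      (PadicInt.toZMod (p := p) (b : ℤ_[p])) q).coeff q ≠ 0)
    {l l' : ℤ} (hl : l ≡ 1 [ZMOD (p : ℤ)]) (hl' : l' ≡ 1 [ZMOD (p : ℤ)]) {k : ℕ} (hk : 1 ≤ k)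
    (ea : l ^ 4 * a ≡ l' ^ 4 * a' [ZMOD (p : ℤ) ^ k])
    (eb : l ^ 6 * b ≡ l' ^ 6 * b' [ZMOD (p : ℤ) ^ k])
    (ex : l ^ 2 * x ≡ l' ^ 2 * x' [ZMOD (p : ℤ) ^ k])
    (ey : l ^ 3 * y ≡ l' ^ 3 * y' [ZMOD (p : ℤ) ^ k]) :
    ‖(ulog v - (m : ℚ_[p]) ^ 2 * ulog (l : ℤ_[p])) -
      (ulog v' - (m : ℚ_[p]) ^ 2 * ulog (l' : ℤ_[p]))‖ ≤ (p : ℝ) ^ (-(k : ℤ)) := by
  have hp3 : 3 ≤ p := by omega
  have hv := h.isUnit hD
  have hv' := h'.isUnit hD'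
  obtain ⟨u, hlu⟩ := exists_inv_of_modEq_one (p := p) hl
  obtain ⟨u', hlu'⟩ := exists_inv_of_modEq_one (p := p) hl'
  obtain ⟨c, W, V, Om, S, Z, B, Bi, hS, hB, hBi, hu⟩ := scaled_ht hm hy0 h hlu
  obtain ⟨c', W', V', Om', S', Z', B', Bi', hS', hB', hBi', hu'⟩ := scaled_ht hm hy0' h' hlu'
  have hl0 : l ≠ 0 := by rintro rfl; simp at hlu
  have hl0' : l' ≠ 0 := by rintro rfl; simp at hlu'
  have hA2 : (hasseRev (PadicInt.toZMod (p := p) ((l ^ 4 * a : ℤ) : ℤ_[p]))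
      (PadicInt.toZMod (p := p) ((l ^ 6 * b : ℤ) : ℤ_[p])) q).coeff q ≠ 0 := by
    have hl1 : (l : ZMod p) = 1 := by
      have := (ZMod.intCast_eq_intCast_iff l 1 p).mpr hl
      simpa using this
    push_cast
    simp only [map_mul, map_pow, map_intCast, hl1, one_pow, one_mul] at hA ⊢
    exact hA
  have hnD : ‖((Wseq (l ^ 4 * a) (l ^ 2 * x) (l ^ 3 * y) m : ℤ) : ℤ_[p])‖ < 1 := by
    rw [PadicInt.norm_int_lt_one_iff_dvd, Wseq_scale' l a x y hl0 hy0 m hm]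
    exact Dvd.dvd.mul_left hD _
  have hnD' : ‖((Wseq (l' ^ 4 * a') (l' ^ 2 * x') (l' ^ 3 * y') m : ℤ) : ℤ_[p])‖ < 1 := by
    rw [PadicInt.norm_int_lt_one_iff_dvd, Wseq_scale' l' a' x' y' hl0' hy0' m hm]
    exact Dvd.dvd.mul_left hD' _
  have key := core_congr hpq hq k hS hS' (norm_sub_le_of_modEq ea) (norm_sub_le_of_modEq eb) hA2
    (norm_sub_le_of_modEq (Aseq_congr ea ex ey m)) (norm_sub_le_of_modEq (Wseq_congr ea ex ey m))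
    hB hB' hBi hBi' hnD hnD'
  rw [hu, hu'] at key
  have huu : IsUnit u := IsUnit.of_mul_eq_one _ (by rw [mul_comm]; exact hlu)
  have huu' : IsUnit u' := IsUnit.of_mul_eq_one _ (by rw [mul_comm]; exact hlu')
  have hlU : IsUnit (l : ℤ_[p]) := IsUnit.of_mul_eq_one _ hlu
  have hlU' : IsUnit (l' : ℤ_[p]) := IsUnit.of_mul_eq_one _ hlu'
  have h1 : IsUnit (u ^ m ^ 2 * v) := (huu.pow _).mul hv
  have h1' : IsUnit (u' ^ m ^ 2 * v') := (huu'.pow _).mul hv'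
  have hlt := zpow_neg_lt_one (p := p) hk
  have key2 := norm_ulog_sub hp3 (h1.pow 2) (h1'.pow 2) (lt_of_le_of_lt key hlt)
  rw [← key2, ulog_pow h1, ulog_pow h1', ulog_mul (huu.pow _) hv, ulog_mul (huu'.pow _) hv',
    ulog_pow huu, ulog_pow huu'] at key
  have hlog : ulog (l : ℤ_[p]) + ulog u = 0 := by rw [← ulog_mul hlU huu, hlu, ulog_one]
  have hlog' : ulog (l' : ℤ_[p]) + ulog u' = 0 := by rw [← ulog_mul hlU' huu', hlu', ulog_one]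
  have e : ((2 : ℕ) : ℚ_[p]) * (((m ^ 2 : ℕ) : ℚ_[p]) * ulog u + ulog v) -
      ((2 : ℕ) : ℚ_[p]) * (((m ^ 2 : ℕ) : ℚ_[p]) * ulog u' + ulog v') =
      2 * ((ulog v - (m : ℚ_[p]) ^ 2 * ulog (l : ℤ_[p])) -
      (ulog v' - (m : ℚ_[p]) ^ 2 * ulog (l' : ℤ_[p]))) := by
    push_cast
    linear_combination 2 * (m : ℚ_[p]) ^ 2 * (hlog - hlog')
  rw [e, norm_mul, norm_two_padic hp3, one_mul] at key
  exact key

end Pool.Agent.Lib.MP_3550b5_nt
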