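import Mathlib
import Pool.Agent.Lib.MP_3550b5_nt.EDSInt
import Pool.Agent.Lib.MP_3550b5_nt.Defs

namespace Pool.Agent.Lib.MP_3550b5_nt

open WeierstrassCurve.Affine

/-- first coordinate -/
def ptX {W : WeierstrassCurve.Affine ℚ} : W.Point → ℚ
  | .zero => 0
  | .some x _ _ => x
/-- second coordinate -/
def ptY {W : WeierstrassCurve.Affine ℚ} : W.Point → ℚ
  | .zero => 0
  | .some _ y _ => y

lemma ptX_some {W : WeierstrassCurve.Affine ℚ} {x y : ℚ} (h : W.Nonsingular x y) :
    ptX (Point.some x y h) = x := rfl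
lemma ptY_some {W : WeierstrassCurve.Affine ℚ} {x y : ℚ} (h : W.Nonsingular x y) :
    ptY (Point.some x y h) = y := rfl

lemma exists_eq_some {W : WeierstrassCurve.Affine ℚ} (Q : W.Point) (hQ : Q ≠ 0) :
    ∃ h : W.Nonsingular (ptX Q) (ptY Q), Q = .some (ptX Q) (ptY Q) h := by
  match Q, hQ with
  | .zero, hQ => exact absurd rfl hQ
  | .some x y h, _ => exact ⟨h, rfl⟩

variable {a b : ℤ}

lemma curve_eq {x y : ℚ} (h : (curve a b).Nonsingular x y) : y ^ 2 = x ^ 3 + a * x + b := by
  have := (equation_iff ..).mp h.1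
  simp only [curve] at this
  linarith

lemma curve_negY (x y : ℚ) : (curve a b).negY x y = -y := by
  simp [WeierstrassCurve.Affine.negY, curve]

lemma multSeq_of_point {x y : ℚ} (h : (curve a b).Nonsingular x y)
    (hinf : ∀ n : ℕ, 0 < n → n • (Point.some x y h : (curve a b).Point) ≠ 0) :
    MultSeq (a : ℚ) b x y (fun n => ptX (n • (Point.some x y h : (curve a b).Point)))
      (fun n => ptY (n • (Point.some x y h : (curve a b).Point))) := by
  set P : (curve a b).Point := Point.some x y h with hP
  have hrep : ∀ n, 1 ≤ n → ∃ hh : (curve a b).Nonsingular (ptX (n • P)) (ptY (n • P)),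
      n • P = .some (ptX (n • P)) (ptY (n • P)) hh := fun n hn => exists_eq_some _ (hinf n hn)
  have hY : ∀ n, 1 ≤ n → ptY (n • P) ≠ 0 := by
    intro n hn h0
    obtain ⟨hh, e⟩ := hrep n hn
    apply hinf (2 * n) (by omega)
    rw [two_mul, add_smul]
    have : n • P = -(n • P) := by
      conv_rhs => rw [e]
      rw [Point.neg_some]
      conv_lhs => rw [e]
      simp only [Point.some.injEq, true_and]
      rw [curve_negY, h0, neg_zero]
    nth_rw 2 [this]
    exact add_neg_cancel _
  have hXne : ∀ n, 2 ≤ n → ptX (n • P) ≠ x := by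
    intro n hn h0
    obtain ⟨hh, e⟩ := hrep n (by omega)
    have := (Point.X_eq_iff (h₁ := hh) (h₂ := h)).mp h0
    rw [← e, ← hP] at this
    rcases this with h1 | h1
    · apply hinf (n - 1) (by omega)
      have : n • P = (n - 1) • P + P := by
        conv_lhs => rw [show n = (n - 1) + 1 by omega]
        rw [succ_nsmul]
      rw [this] at h1
      simpa using h1
    · apply hinf (n + 1) (by omega)
      rw [succ_nsmul, h1]
      simp
  refine ⟨?_, ?_, ?_, hY, hXne, ?_, ?_, ?_, ?_⟩
  · simp [hP, ptX]
  · simp [hP, ptY]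
  · intro n hn
    obtain ⟨hh, e⟩ := hrep n hn
    exact curve_eq hh
  · intro n hn
    obtain ⟨hh, e⟩ := hrep n (by omega)
    have e1 : (n + 1) • P = Point.some _ _ hh + Point.some x y h := by
      rw [succ_nsmul, ← e, ← hP]
    rw [e1, Point.add_of_X_ne (hXne n hn), ptX_some, WeierstrassCurve.Affine.slope_of_X_ne (hXne n hn)]
    simp [WeierstrassCurve.Affine.addX, curve]
  · intro n hn
    obtain ⟨hh, e⟩ := hrep n (by omega)
    have e1 : (n - 1) • P = Point.some _ _ hh + -Point.some x y h := by
      rw [← e, ← hP]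
      have : n • P = (n - 1) • P + P := by
        conv_lhs => rw [show n = (n - 1) + 1 by omega]
        rw [succ_nsmul]
      rw [this]; simp
    rw [e1, Point.neg_some, Point.add_of_X_ne (hXne n hn), ptX_some, WeierstrassCurve.Affine.slope_of_X_ne (hXne n hn), curve_negY]
    simp [WeierstrassCurve.Affine.addX, curve]
  · intro n hn
    obtain ⟨hh, e⟩ := hrep n hn
    have e1 : (2 * n) • P = Point.some _ _ hh + Point.some _ _ hh := by
      rw [← e, two_mul, add_smul]
    have hYne : ptY (n • P) ≠ (curve a b).negY (ptX (n • P)) (ptY (n • P)) := by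
      rw [curve_negY]
      intro h0
      exact hY n hn (by linarith)
    rw [e1, Point.add_self_of_Y_ne hYne, ptX_some,
      WeierstrassCurve.Affine.slope_of_Y_ne rfl hYne, curve_negY]
    simp only [WeierstrassCurve.Affine.addX, curve]
    ring_nf
  · have h1 : 1 • P = Point.some x y h := by rw [one_smul, hP]
    have hy : y ≠ 0 := by
      have := hY 1 le_rfl
      rwa [h1] at this
    have e1 : 2 • P = Point.some _ _ h + Point.some _ _ h := by
      rw [two_smul, hP]
    have hYne : y ≠ (curve a b).negY x y := by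
      rw [curve_negY]
      intro h0
      exact hy (by linarith)
    rw [e1, Point.add_self_of_Y_ne hYne, ptX_some, ptY_some,
      WeierstrassCurve.Affine.slope_of_Y_ne rfl hYne, curve_negY]
    simp only [WeierstrassCurve.Affine.addX, WeierstrassCurve.Affine.addY,
      WeierstrassCurve.Affine.negAddY, WeierstrassCurve.Affine.negY, curve]
    ring_nf

end Pool.Agent.Lib.MP_3550b5_nt
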