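import Mathlib
import Pool.Agent.Lib.MP_3550b5_nt.Ht
import Pool.Agent.Lib.MP_3550b5_nt.Points
import Pool.Agent.Lib.MP_3550b5_nt.Count

namespace Pool.Agent.Lib.MP_3550b5_nt

open PowerSeries

variable {p : ℕ} [hp : Fact p.Prime]

lemma IsCanonicalHeight.zero {a b : ℤ} {B : (curve a b).Point → (curve a b).Point → ℚ_[p]}
    (hB : IsCanonicalHeight p a b B) (R : (curve a b).Point) : B 0 R = 0 := by
  have := hB.add 0 0 R
  rw [add_zero] at this
  linear_combination -this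

lemma IsCanonicalHeight.nsmul {a b : ℤ} {B : (curve a b).Point → (curve a b).Point → ℚ_[p]}
    (hB : IsCanonicalHeight p a b B) (n : ℕ) (P R : (curve a b).Point) :
    B (n • P) R = n * B P R := by
  induction n with
  | zero => rw [zero_nsmul, hB.zero]; simp
  | succ n ih => rw [succ_nsmul, hB.add, ih]; push_cast; ring

lemma IsCanonicalHeight.neg {a b : ℤ} {B : (curve a b).Point → (curve a b).Point → ℚ_[p]}
    (hB : IsCanonicalHeight p a b B) (P R : (curve a b).Point) :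
    B (-P) R = - B P R := by
  have := hB.add P (-P) R
  rw [add_neg_cancel, hB.zero] at this
  linear_combination -this

lemma IsCanonicalHeight.zsmul {a b : ℤ} {B : (curve a b).Point → (curve a b).Point → ℚ_[p]}
    (hB : IsCanonicalHeight p a b B) (n : ℤ) (P R : (curve a b).Point) :
    B (n • P) R = n * B P R := by
  obtain ⟨k, rfl | rfl⟩ := n.eq_nat_or_neg
  · rw [natCast_zsmul, hB.nsmul]; simp
  · rw [neg_zsmul, natCast_zsmul, hB.neg, hB.nsmul]; push_cast; ring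

lemma IsCanonicalHeight.torsion {a b : ℤ} {B : (curve a b).Point → (curve a b).Point → ℚ_[p]}
    (hB : IsCanonicalHeight p a b B)
    {R : (curve a b).Point} (hR : IsOfFinAddOrder R) (S : (curve a b).Point) : B R S = 0 := by
  obtain ⟨k, hk, hkR⟩ := hR.exists_nsmul_eq_zero
  have h1 : (k : ℚ_[p]) * B R S = 0 := by
    rw [← hB.nsmul, hkR, hB.zero]
  rcases mul_eq_zero.mp h1 with h | h
  · exact absurd (by exact_mod_cast h) hk.ne'
  · exact h

/-- The height of a point in terms of the unit attached to one of its multiples. -/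
theorem ht_of_point (hp5 : 5 ≤ p) {a b x y : ℤ}
    (hns : IsCoprime (2 * y) (3 * x ^ 2 + a))
    (h : (curve a b).Nonsingular (x : ℚ) (y : ℚ))
    (hinf : ∀ n : ℕ, 0 < n → n • (.some _ _ h : (curve a b).Point) ≠ 0)
    {B : (curve a b).Point → (curve a b).Point → ℚ_[p]} (hB : IsCanonicalHeight p a b B)
    {m : ℕ} (hm : 1 ≤ m) (hdvd : (p : ℤ) ∣ Wseq a x y m) :
    ∃ u : ℤ_[p], HtData p a b x y m u ∧
      (m : ℚ_[p]) ^ 2 * B (.some _ _ h) (.some _ _ h) = ulog u := by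
  have hms := multSeq_of_point h hinf
  obtain ⟨σ, hσ, hform⟩ := hB.formula
  obtain ⟨c, W, V, Om, S, Z, hσS, hS⟩ := sigmaData_of_sigma hσ
  obtain ⟨Bm, hY, hcop, hBeq⟩ := exists_B hms hns m hm
  have hX := X_eq hms m hm
  set A := Aseq a x y m with hA
  set D := Wseq a x y m with hD
  have hD0 : D ≠ 0 := W_ne_zero hms m hm
  have hpZ : Prime (p : ℤ) := Nat.prime_iff_prime_int.mp hp.out
  -- `A`, `Bm` are prime to `p`
  have hAn : ¬ (p : ℤ) ∣ A := by
    intro hd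
    have h1 : (p : ℤ) ∣ Bm ^ 2 := by
      rw [hBeq]
      exact dvd_add (dvd_add (dvd_pow hd (by norm_num)) (Dvd.dvd.mul_left (dvd_pow hdvd (by norm_num)) _))
        (Dvd.dvd.mul_left (dvd_pow hdvd (by norm_num)) _)
    have h2 : (p : ℤ) ∣ 2 * Bm := Dvd.dvd.mul_left (hpZ.dvd_of_dvd_pow h1) _
    have h3 : (p : ℤ) ∣ 3 * A ^ 2 + a * D ^ 4 :=
      dvd_add (Dvd.dvd.mul_left (dvd_pow hd (by norm_num)) _)
        (Dvd.dvd.mul_left (dvd_pow hdvd (by norm_num)) _)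
    exact hpZ.not_isUnit (hcop.isUnit_of_dvd' h2 h3)
  have hBn : ¬ (p : ℤ) ∣ Bm := by
    intro hd
    apply hAn
    have h1 : (p : ℤ) ∣ A ^ 3 := by
      have e : A ^ 3 = Bm * Bm - D * (a * A * D ^ 3 + b * D ^ 5) := by
        have : Bm * Bm = Bm ^ 2 := by ring
        rw [this, hBeq]; ring
      rw [e]
      exact dvd_sub (Dvd.dvd.mul_right hd _) (Dvd.dvd.mul_right hdvd _)
    exact hpZ.dvd_of_dvd_pow h1
  obtain ⟨Bi, hBi⟩ : ∃ Bi : ℤ_[p], (Bm : ℤ_[p]) * Bi = 1 := by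
    obtain ⟨u, hu⟩ := isUnit_intCast hBn
    exact ⟨↑u⁻¹, by rw [← hu]; exact u.mul_inv⟩
  refine ⟨_, ⟨c, W, V, Om, S, Z, Bm, Bi, hS, hBeq, hBi, rfl⟩, ?_⟩
  -- the point `m P`
  obtain ⟨hh, e⟩ := exists_eq_some _ (hinf m (by omega))
  have hXm : ptX (m • (.some _ _ h : (curve a b).Point)) = (A : ℚ) / (D : ℚ) ^ 2 := hX
  have hYm : ptY (m • (.some _ _ h : (curve a b).Point)) = (Bm : ℚ) / (D : ℚ) ^ 3 := hY
  have hh' : (curve a b).Nonsingular ((A : ℚ) / (D : ℚ) ^ 2) ((Bm : ℚ) / (D : ℚ) ^ 3) := by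
    rw [← hXm, ← hYm]; exact hh
  have e' : m • (.some _ _ h : (curve a b).Point) = .some _ _ hh' := by
    rw [e]
    simp only [WeierstrassCurve.Affine.Point.some.injEq]
    exact ⟨hXm, hYm⟩
  have hf := hform A Bm D hh' hD0 hdvd hcop
  rw [← e'] at hf
  have hz : B (m • (.some _ _ h : (curve a b).Point)) (m • (.some _ _ h : (curve a b).Point)) =
      (m : ℚ_[p]) ^ 2 * B (.some _ _ h) (.some _ _ h) := by
    rw [hB.nsmul, hB.symm, hB.nsmul]; ring
  rw [hz] at hf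
  rw [hf]
  -- the parameter
  have hBi' : ((Bm : ℤ_[p]) : ℚ_[p]) * ((Bi : ℤ_[p]) : ℚ_[p]) = 1 := by exact_mod_cast congrArg (fun z : ℤ_[p] => (z : ℚ_[p])) hBi
  have hBm0 : (Bm : ℚ_[p]) ≠ 0 := by
    intro h
    rw [PadicInt.coe_intCast, h, zero_mul] at hBi'
    exact zero_ne_one hBi'
  have hDp0 : (D : ℚ_[p]) ≠ 0 := by exact_mod_cast hD0
  have hDn : ‖(D : ℤ_[p])‖ < 1 := (PadicInt.norm_int_lt_one_iff_dvd D).mpr hdvd
  have ht : ‖-((A : ℤ_[p]) * (D : ℤ_[p]) * Bi)‖ < 1 := by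
    rw [norm_neg, norm_mul, norm_mul]
    calc ‖(A : ℤ_[p])‖ * ‖(D : ℤ_[p])‖ * ‖Bi‖ ≤ 1 * ‖(D : ℤ_[p])‖ * 1 := by
          gcongr
          · exact PadicInt.norm_le_one _
          · exact PadicInt.norm_le_one _
      _ = ‖(D : ℤ_[p])‖ := by ring
      _ < 1 := hDn
  have harg : -((A : ℚ_[p]) * (D : ℚ_[p])) / (Bm : ℚ_[p]) =
      ((-((A : ℤ_[p]) * (D : ℤ_[p]) * Bi) : ℤ_[p]) : ℚ_[p]) := by
    push_cast
    rw [div_eq_iff hBm0]
    rw [PadicInt.coe_intCast] at hBi'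
    linear_combination (A : ℚ_[p]) * (D : ℚ_[p]) * hBi'
  rw [harg, seriesVal_coe σ ht, hσS, ev_mul _ _ ht, ev_X]
  set t : ℤ_[p] := -((A : ℤ_[p]) * (D : ℤ_[p]) * Bi) with htdef
  have hu : (((t * ev S t : ℤ_[p]) : ℚ_[p]) / (D : ℚ_[p])) =
      ((-((A : ℤ_[p]) * Bi * ev S t) : ℤ_[p]) : ℚ_[p]) := by
    rw [div_eq_iff hDp0, htdef]
    push_cast
    ring
  rw [hu]
  have hunit : IsUnit ((A : ℤ_[p]) * Bi * ev S t) := by
    have h1 : IsUnit (A : ℤ_[p]) := isUnit_intCast hAn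
    have h2 : IsUnit Bi := IsUnit.of_mul_eq_one _ (by rw [mul_comm]; exact hBi)
    have h3 : IsUnit (ev S t) := ev_isUnit hS.S0 ht
    exact (h1.mul h2).mul h3
  rw [iwasawaLog_coe hunit.neg, ulog_neg (by omega)]

/-- The Hasse invariant of a curve with good ordinary reduction. -/
lemma hasse_of_goodOrdinary {q : ℕ} (hpq : p = 2 * q + 1) (hq : 1 ≤ q) {a b : ℤ}
    (h : GoodOrdinary p a b) :
    (hasseRev (PadicInt.toZMod (p := p) (a : ℤ_[p]))
      (PadicInt.toZMod (p := p) (b : ℤ_[p])) q).coeff q ≠ 0 := by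
  have h1 := count_affine hpq hq (a : ZMod p) (b : ZMod p)
  intro h0
  simp only [map_intCast] at h0
  rw [h0, neg_zero] at h1
  exact h.2 ((ZMod.natCast_eq_zero_iff _ _).mp h1)

end Pool.Agent.Lib.MP_3550b5_nt
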