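import Mathlib
import Pool.Agent.Lib.MP_3550b5_nt.HeightVal
import Pool.Agent.Lib.MP_3550b5_nt.Apparition
import Pool.Agent.Lib.MP_3550b5_nt.Family

namespace Pool.Agent.Lib.MP_3550b5_nt

variable {p : ℕ} [hp : Fact p.Prime]

lemma two_y_ne_of_not_torsion {a b x y : ℤ} (h : (curve a b).Nonsingular (x : ℚ) (y : ℚ))
    (htor : ¬ IsOfFinAddOrder (.some _ _ h : (curve a b).Point)) : 2 * y ≠ 0 := by
  intro h0
  have hy : y = 0 := by omega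
  apply htor
  rw [isOfFinAddOrder_iff_nsmul_eq_zero]
  refine ⟨2, by norm_num, ?_⟩
  rw [two_smul]
  apply WeierstrassCurve.Affine.Point.add_self_of_Y_eq
  rw [curve_negY, hy]
  simp

lemma nsmul_ne_of_not_torsion {a b x y : ℤ} {h : (curve a b).Nonsingular (x : ℚ) (y : ℚ)}
    (htor : ¬ IsOfFinAddOrder (.some _ _ h : (curve a b).Point)) (n : ℕ) (hn : 0 < n) :
    n • (.some _ _ h : (curve a b).Point) ≠ 0 := by
  intro h0
  apply htor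
  rw [isOfFinAddOrder_iff_nsmul_eq_zero]
  exact ⟨n, hn, h0⟩

lemma norm_index_ge {m : ℕ} (hm : 1 ≤ m) (hm2 : m < p ^ 2) : (p : ℝ)⁻¹ ≤ ‖(m : ℚ_[p])‖ := by
  have hm0 : m ≠ 0 := by omega
  have h1 : padicValNat p m < 2 := by
    by_contra hge
    push Not at hge
    have := Nat.le_of_dvd (by omega) ((padicValNat_dvd_iff_le hm0).mpr hge)
    omega
  have h2 := Padic.norm_eq_zpow_neg_valuation (p := p) (x := ((m : ℕ) : ℚ_[p])) (by
      exact_mod_cast hm0)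
  rw [Padic.valuation_natCast] at h2
  rw [h2]
  have hp1 : (1 : ℝ) ≤ p := by exact_mod_cast hp.out.one_lt.le
  rw [← zpow_neg_one]
  exact zpow_le_zpow_right₀ hp1 (by omega)

/-- Reduction of congruent scaled triples modulo `p`. -/
lemma modEq_of_scaled {l l' z z' : ℤ} {e k : ℕ} (hk : 1 ≤ k) (hl : l ≡ 1 [ZMOD (p : ℤ)])
    (hl' : l' ≡ 1 [ZMOD (p : ℤ)]) (h : l ^ e * z ≡ l' ^ e * z' [ZMOD (p : ℤ) ^ k]) :
    z ≡ z' [ZMOD (p : ℤ)] := by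
  have hone : ∀ {l z : ℤ}, l ≡ 1 [ZMOD (p : ℤ)] → l ^ e * z ≡ z [ZMOD (p : ℤ)] := by
    intro l z hl
    have := (hl.pow e).mul_right z
    simpa using this
  exact (hone hl).symm.trans ((h.of_dvd (dvd_pow_self _ (by omega))).trans (hone hl'))

lemma one_add_modEq (j : ℕ) : (1 + (p : ℤ) * j) ≡ 1 [ZMOD (p : ℤ)] := by simp [Int.ModEq]

/-- Small values of the logarithm of a ratio of one-units. -/
lemma modEq_of_ulog_close (hp3 : 3 ≤ p) {j j' : ℕ} {e : ℕ}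
    (h : ‖ulog (((1 + (p : ℤ) * j : ℤ)) : ℤ_[p]) - ulog (((1 + (p : ℤ) * j' : ℤ)) : ℤ_[p])‖ ≤
      (p : ℝ) ^ (-((e + 1 : ℕ) : ℤ))) : j ≡ j' [MOD p ^ e] := by
  obtain ⟨w, hw⟩ := exists_inv_of_modEq_one (p := p) (one_add_modEq (p := p) j)
  obtain ⟨w', hw'⟩ := exists_inv_of_modEq_one (p := p) (one_add_modEq (p := p) j')
  have hu := IsUnit.of_mul_eq_one _ hw
  have hu' := IsUnit.of_mul_eq_one _ hw'
  have h1 : ((1 + (p : ℤ) * j : ℤ) : ℤ_[p]) - ((1 + (p : ℤ) * j' : ℤ) : ℤ_[p]) =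
      (((p : ℤ) * ((j : ℤ) - (j' : ℤ)) : ℤ) : ℤ_[p]) := by push_cast; ring
  have h2 : ‖((1 + (p : ℤ) * j : ℤ) : ℤ_[p]) - ((1 + (p : ℤ) * j' : ℤ) : ℤ_[p])‖ < 1 := by
    rw [h1, PadicInt.norm_int_lt_one_iff_dvd]
    exact Dvd.intro _ rfl
  rw [norm_ulog_sub hp3 hu hu' h2, h1] at h
  have h3 := (PadicInt.norm_int_le_pow_iff_dvd (p := p)
    (k := (p : ℤ) * ((j : ℤ) - (j' : ℤ))) (n := e + 1)).mp h
  rw [pow_succ'] at h3
  have h4 : (p : ℤ) ^ e ∣ (j : ℤ) - (j' : ℤ) :=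
    (mul_dvd_mul_iff_left (by exact_mod_cast hp.out.ne_zero)).mp h3
  have h5 : (j' : ℤ) ≡ j [ZMOD ((p ^ e : ℕ) : ℤ)] := by
    apply Int.modEq_of_dvd
    push_cast
    exact h4
  exact ((Int.natCast_modEq_iff).mp h5).symm

end Pool.Agent.Lib.MP_3550b5_nt
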