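import Mathlib
import Pool.Agent.Lib.MP_3550b5_nt.Points

namespace Pool.Agent.Lib.MP_3550b5_nt

section rat

variable {a b x y : ℚ} {X Y : ℕ → ℚ}

/-- Change of coordinates. -/
lemma MultSeq.scale (h : MultSeq a b x y X Y) {u : ℚ} (hu : u ≠ 0) :
    MultSeq (u ^ 4 * a) (u ^ 6 * b) (u ^ 2 * x) (u ^ 3 * y) (fun n => u ^ 2 * X n)
      (fun n => u ^ 3 * Y n) := by
  have hne : ∀ n, 2 ≤ n → X n - x ≠ 0 := fun n hn => sub_ne_zero.mpr (h.Xne n hn)
  have hy : ∀ n, 1 ≤ n → Y n ≠ 0 := h.Yne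
  have hy0 := h.y_ne
  refine ⟨?_, ?_, ?_, ?_, ?_, ?_, ?_, ?_, ?_⟩
  · simp only [h.X1]
  · simp only [h.Y1]
  · intro n hn
    linear_combination u ^ 6 * h.eqn n hn
  · intro n hn
    exact mul_ne_zero (pow_ne_zero _ hu) (hy n hn)
  · intro n hn heq
    exact h.Xne n hn (mul_left_cancel₀ (pow_ne_zero 2 hu) heq)
  · intro n hn
    have h1 := hne n hn
    rw [h.succ n hn, show u ^ 3 * Y n - u ^ 3 * y = u ^ 3 * (Y n - y) by ring,
      show u ^ 2 * X n - u ^ 2 * x = u ^ 2 * (X n - x) by ring]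
    field_simp
  · intro n hn
    have h1 := hne n hn
    rw [h.pred n hn, show u ^ 3 * Y n + u ^ 3 * y = u ^ 3 * (Y n + y) by ring,
      show u ^ 2 * X n - u ^ 2 * x = u ^ 2 * (X n - x) by ring]
    field_simp
  · intro n hn
    have h1 := hy n hn
    rw [h.dbl n hn]
    field_simp
  · rw [h.Y2]
    field_simp

lemma Vseq_scale (x y : ℚ) (X : ℕ → ℚ) {u : ℚ} (hu : u ≠ 0) : ∀ n : ℕ,
    u * Vseq (u ^ 2 * x) (u ^ 3 * y) (fun n => u ^ 2 * X n) n = u ^ (n ^ 2) * Vseq x y X n := by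
  intro n
  induction n using Nat.strong_induction_on with
  | _ n ih =>
    match n, ih with
    | 0, _ => simp [Vseq]
    | 1, _ => simp [Vseq]
    | 2, _ => simp only [Vseq]; ring
    | (n + 3), ih =>
      have h1 := ih (n + 1) (by omega)
      have h2 := ih (n + 2) (by omega)
      rw [Vseq, Vseq]
      have e1 : Vseq (u ^ 2 * x) (u ^ 3 * y) (fun n => u ^ 2 * X n) (n + 1) =
          u ^ ((n + 1) ^ 2) * Vseq x y X (n + 1) / u := by
        rw [eq_div_iff hu, mul_comm, h1]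
      have e2 : Vseq (u ^ 2 * x) (u ^ 3 * y) (fun n => u ^ 2 * X n) (n + 2) =
          u ^ ((n + 2) ^ 2) * Vseq x y X (n + 2) / u := by
        rw [eq_div_iff hu, mul_comm, h2]
      rw [e1, e2]
      rcases eq_or_ne (Vseq x y X (n + 1)) 0 with h0 | h0
      · rw [h0]; simp
      · have hexp : u ^ (n + 3) ^ 2 * u ^ (n + 1) ^ 2 = u ^ 2 * (u ^ (n + 2) ^ 2) ^ 2 := by
          rw [← pow_mul, ← pow_add, ← pow_add]; congr 1; ring
        field_simp
        linear_combination (-(x - X (n + 2))) * hexp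

/-- The sequence of multiples of a multiple. -/
lemma MultSeq.V_mul_mul (h : MultSeq a b x y X Y) (c : ℕ) (hc : 1 ≤ c) :
    ∀ m, Vseq (X c) (Y c) (fun n => X (n * c)) m * Vseq x y X c ^ (m ^ 2) =
      Vseq x y X (m * c) := by
  have hVc := h.V_ne c hc
  intro m
  induction m using Nat.strong_induction_on with
  | _ m ih =>
    match m, ih with
    | 0, _ => simp [Vseq]
    | 1, _ => simp [Vseq]
    | 2, _ => rw [h.V_two_mul c hc]; simp only [Vseq]; ring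
    | (m + 3), ih =>
      have h1 := ih (m + 1) (by omega)
      have h2 := ih (m + 2) (by omega)
      have hT := h.T c hc ((m + 2) * c) (by nlinarith)
      rw [show (m + 2) * c + c = (m + 3) * c by ring,
        show (m + 2) * c - c = (m + 1) * c by
          rw [show (m + 2) * c = (m + 1) * c + c by ring]; omega] at hT
      have hne1 := h.V_ne ((m + 1) * c) (by nlinarith)
      have hne1' : Vseq (X c) (Y c) (fun n => X (n * c)) (m + 1) ≠ 0 := by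
        intro h0
        rw [h0, zero_mul] at h1
        exact hne1 h1.symm
      rw [Vseq]
      apply mul_right_cancel₀ hne1
      rw [hT]
      rw [← h2]
      rw [← h1]
      have hexp : Vseq x y X c ^ ((m + 3) ^ 2) * Vseq x y X c ^ ((m + 1) ^ 2) =
          (Vseq x y X c ^ ((m + 2) ^ 2)) ^ 2 * Vseq x y X c ^ 2 := by
        rw [← pow_mul, ← pow_add, ← pow_add]; congr 1; ring
      field_simp
      linear_combination (Vseq (X c) (Y c) (fun n => X (n * c)) (m + 2)) ^ 2 *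
        (X c - X ((m + 2) * c)) * hexp

end rat

/-- Denominators of the multiples of `(A / D ^ 2, B / D ^ 3)`. -/
def Dn (a A B D : ℤ) (n : ℕ) : ℤ := D * Wseq (a * D ^ 4) A B n
/-- Numerators of the multiples of `(A / D ^ 2, B / D ^ 3)`. -/
def An (a A B D : ℤ) (n : ℕ) : ℤ := Aseq (a * D ^ 4) A B n

section int

variable {a b A B D : ℤ} {X Y : ℕ → ℚ}

lemma MultSeq.toInt (h : MultSeq (a : ℚ) b ((A : ℚ) / (D : ℚ) ^ 2) ((B : ℚ) / (D : ℚ) ^ 3) X Y)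
    (hD : D ≠ 0) :
    MultSeq ((a * D ^ 4 : ℤ) : ℚ) ((b * D ^ 6 : ℤ) : ℚ) (A : ℚ) (B : ℚ)
      (fun n => (D : ℚ) ^ 2 * X n) (fun n => (D : ℚ) ^ 3 * Y n) := by
  have hD' : (D : ℚ) ≠ 0 := by exact_mod_cast hD
  have := h.scale hD'
  have e1 : (D : ℚ) ^ 2 * ((A : ℚ) / (D : ℚ) ^ 2) = A := by field_simp
  have e2 : (D : ℚ) ^ 3 * ((B : ℚ) / (D : ℚ) ^ 3) = B := by field_simp
  rw [e1, e2] at this
  push_cast
  rw [mul_comm (a : ℚ), mul_comm (b : ℚ)]
  exact this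

lemma Dn_eq_V (h : MultSeq (a : ℚ) b ((A : ℚ) / (D : ℚ) ^ 2) ((B : ℚ) / (D : ℚ) ^ 3) X Y)
    (hD : D ≠ 0) (n : ℕ) : ((Dn a A B D n : ℤ) : ℚ) =
      (D : ℚ) ^ (n ^ 2) * Vseq ((A : ℚ) / (D : ℚ) ^ 2) ((B : ℚ) / (D : ℚ) ^ 3) X n := by
  have hD' : (D : ℚ) ≠ 0 := by exact_mod_cast hD
  have h1 := W_eq_V (h.toInt hD) n
  have h2 := Vseq_scale ((A : ℚ) / (D : ℚ) ^ 2) ((B : ℚ) / (D : ℚ) ^ 3) X hD' n
  have e1 : (D : ℚ) ^ 2 * ((A : ℚ) / (D : ℚ) ^ 2) = A := by field_simp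
  have e2 : (D : ℚ) ^ 3 * ((B : ℚ) / (D : ℚ) ^ 3) = B := by field_simp
  rw [e1, e2] at h2
  rw [← h2, ← h1, Dn]
  push_cast
  ring

lemma Dn_ne (h : MultSeq (a : ℚ) b ((A : ℚ) / (D : ℚ) ^ 2) ((B : ℚ) / (D : ℚ) ^ 3) X Y)
    (hD : D ≠ 0) (n : ℕ) (hn : 1 ≤ n) : Dn a A B D n ≠ 0 :=
  mul_ne_zero hD (W_ne_zero (h.toInt hD) n hn)

lemma X_eq_An (h : MultSeq (a : ℚ) b ((A : ℚ) / (D : ℚ) ^ 2) ((B : ℚ) / (D : ℚ) ^ 3) X Y)
    (hD : D ≠ 0) (n : ℕ) (hn : 1 ≤ n) :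
    X n = ((An a A B D n : ℤ) : ℚ) / ((Dn a A B D n : ℤ) : ℚ) ^ 2 := by
  have hD' : (D : ℚ) ≠ 0 := by exact_mod_cast hD
  have h1 := X_eq (h.toInt hD) n hn
  have h2 : ((Wseq (a * D ^ 4) A B n : ℤ) : ℚ) ≠ 0 := by
    exact_mod_cast W_ne_zero (h.toInt hD) n hn
  rw [An, Dn]
  push_cast
  rw [eq_div_iff (pow_ne_zero _ (mul_ne_zero hD' h2))]
  rw [eq_div_iff (pow_ne_zero _ h2)] at h1
  rw [← h1]
  ring

end int

/-- Numerators of the `y`-coordinates, with the nonsingularity condition one prime at a time. -/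
lemma exists_B_loc {a b x y : ℤ} {X Y : ℕ → ℚ} (h : MultSeq (a : ℚ) b x y X Y)
    (n : ℕ) (hn : 1 ≤ n) :
    ∃ B : ℤ, Y n = (B : ℚ) / ((Wseq a x y n : ℤ) : ℚ) ^ 3 ∧
      B ^ 2 = Aseq a x y n ^ 3 + a * Aseq a x y n * Wseq a x y n ^ 4 + b * Wseq a x y n ^ 6 ∧
      ∀ l : ℤ, Prime l → ¬ (l ∣ 2 * y ∧ l ∣ 3 * x ^ 2 + a) →
        ¬ (l ∣ 2 * B ∧ l ∣ 3 * Aseq a x y n ^ 2 + a * Wseq a x y n ^ 4) := by
  have hWne : ((Wseq a x y n : ℤ) : ℚ) ≠ 0 := by exact_mod_cast W_ne_zero h n hn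
  have hsq : (Y n * ((Wseq a x y n : ℤ) : ℚ) ^ 3) ^ 2 =
      ((Aseq a x y n ^ 3 + a * Aseq a x y n * Wseq a x y n ^ 4 + b * Wseq a x y n ^ 6 : ℤ) : ℚ) := by
    have e := h.eqn n hn
    rw [X_eq h n hn] at e
    rw [mul_pow, e]
    push_cast
    field_simp
  obtain ⟨B, hB⟩ : ∃ B : ℤ, (algebraMap ℤ ℚ) B = Y n * ((Wseq a x y n : ℤ) : ℚ) ^ 3 := by
    apply IsIntegrallyClosed.exists_algebraMap_eq_of_isIntegral_pow (R := ℤ) (n := 2) (by norm_num)
    rw [hsq]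
    exact isIntegral_algebraMap (R := ℤ) (A := ℚ)
  have hB' : (B : ℚ) = Y n * ((Wseq a x y n : ℤ) : ℚ) ^ 3 := by simpa using hB
  have hBeq : B ^ 2 = Aseq a x y n ^ 3 + a * Aseq a x y n * Wseq a x y n ^ 4 +
      b * Wseq a x y n ^ 6 := by
    rw [← hB'] at hsq
    exact_mod_cast hsq
  refine ⟨B, by rw [hB']; field_simp, hBeq, ?_⟩
  have h2n : Wseq a x y (2 * n) = 2 * B * Wseq a x y n := by
    have e := h.V_two_mul n hn
    simp only [← W_eq_V h] at e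
    have : ((Wseq a x y (2 * n) : ℤ) : ℚ) = 2 * B * ((Wseq a x y n : ℤ) : ℚ) := by
      rw [e, hB']; ring
    exact_mod_cast this
  have h3n : Wseq a x y (3 * n) = Wseq a x y n *
      (12 * Aseq a x y n * B ^ 2 - (3 * Aseq a x y n ^ 2 + a * Wseq a x y n ^ 4) ^ 2) := by
    have e := h.V_three_mul n hn
    simp only [← W_eq_V h] at e
    have : ((Wseq a x y (3 * n) : ℤ) : ℚ) = ((Wseq a x y n : ℤ) : ℚ) *
      (12 * ((Aseq a x y n : ℤ) : ℚ) * B ^ 2 -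
        (3 * ((Aseq a x y n : ℤ) : ℚ) ^ 2 + a * ((Wseq a x y n : ℤ) : ℚ) ^ 4) ^ 2) := by
      rw [e, hB', X_eq h n hn]
      field_simp
    exact_mod_cast this
  rintro l hl hns' ⟨h1, h2⟩
  have hcn := W_consecutive h hl hns'
  by_cases hlW : l ∣ Wseq a x y n
  · -- l divides W_n
    have hA : ¬ l ∣ Aseq a x y n := by
      intro hA
      have : l ∣ Wseq a x y (n + 1) * Wseq a x y (n - 1) := by
        have e : Wseq a x y (n + 1) * Wseq a x y (n - 1) =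
          Wseq a x y n * (x * Wseq a x y n) - Aseq a x y n := by rw [Aseq]; ring
        rw [e]
        exact dvd_sub (Dvd.dvd.mul_right hlW _) hA
      rcases hl.dvd_or_dvd this with h' | h'
      · exact hcn n ⟨hlW, h'⟩
      · have := hcn (n - 1)
        rw [show n - 1 + 1 = n by omega] at this
        exact this ⟨h', hlW⟩
    rcases hl.dvd_or_dvd h1 with h' | h'
    · -- l divides 2
      have h3 : l ∣ 3 * Aseq a x y n ^ 2 := by
        have e : 3 * Aseq a x y n ^ 2 = (3 * Aseq a x y n ^ 2 + a * Wseq a x y n ^ 4) -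
          Wseq a x y n * (a * Wseq a x y n ^ 3) := by ring
        rw [e]
        exact dvd_sub h2 (Dvd.dvd.mul_right hlW _)
      have h4 : l ∣ Aseq a x y n ^ 2 := by
        have e : Aseq a x y n ^ 2 = 3 * Aseq a x y n ^ 2 - 2 * (Aseq a x y n ^ 2) := by ring
        rw [e]
        exact dvd_sub h3 (Dvd.dvd.mul_right h' _)
      exact hA (hl.dvd_of_dvd_pow h4)
    · have h3 : l ∣ Aseq a x y n ^ 3 := by
        have e : Aseq a x y n ^ 3 = B * B - Wseq a x y n *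
          (a * Aseq a x y n * Wseq a x y n ^ 3 + b * Wseq a x y n ^ 5) := by
          have : B * B = B ^ 2 := by ring
          rw [this, hBeq]; ring
        rw [e]
        exact dvd_sub (Dvd.dvd.mul_right h' _) (Dvd.dvd.mul_right hlW _)
      exact hA (hl.dvd_of_dvd_pow h3)
  · have h2n' : l ∣ Wseq a x y (2 * n) := by rw [h2n]; exact Dvd.dvd.mul_right h1 _
    have h3n' : l ∣ Wseq a x y (3 * n) := by
      rw [h3n]
      apply Dvd.dvd.mul_left
      have e : 12 * Aseq a x y n * B ^ 2 - (3 * Aseq a x y n ^ 2 + a * Wseq a x y n ^ 4) ^ 2 =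
        (2 * B) * (6 * Aseq a x y n * B) -
        (3 * Aseq a x y n ^ 2 + a * Wseq a x y n ^ 4) *
        (3 * Aseq a x y n ^ 2 + a * Wseq a x y n ^ 4) := by ring
      rw [e]
      exact dvd_sub (Dvd.dvd.mul_right h1 _) (Dvd.dvd.mul_right h2 _)
    have t := W_T h n hn (2 * n) (by omega)
    rw [show 2 * n + n = 3 * n by ring, show 2 * n - n = n by omega] at t
    have : l ∣ Wseq a x y (2 * n + 1) * Wseq a x y (2 * n - 1) * Wseq a x y n ^ 2 := by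
      have e : Wseq a x y (2 * n + 1) * Wseq a x y (2 * n - 1) * Wseq a x y n ^ 2 =
        Wseq a x y (3 * n) * Wseq a x y n + Wseq a x y (2 * n) *
        (Wseq a x y (n + 1) * Wseq a x y (n - 1) * Wseq a x y (2 * n)) := by rw [t]; ring
      rw [e]
      exact dvd_add (Dvd.dvd.mul_right h3n' _) (Dvd.dvd.mul_right h2n' _)
    rcases hl.dvd_or_dvd this with h' | h'
    · rcases hl.dvd_or_dvd h' with h' | h'
      · exact hcn (2 * n) ⟨h2n', h'⟩
      · have := hcn (2 * n - 1)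
        rw [show 2 * n - 1 + 1 = 2 * n by omega] at this
        exact this ⟨h', h2n'⟩
    · exact hlW (hl.dvd_of_dvd_pow h')

/-- Representation of the multiples of a rational point. -/
lemma exists_Bn {a b A B D : ℤ} {X Y : ℕ → ℚ}
    (h : MultSeq (a : ℚ) b ((A : ℚ) / (D : ℚ) ^ 2) ((B : ℚ) / (D : ℚ) ^ 3) X Y)
    (hD : D ≠ 0) (n : ℕ) (hn : 1 ≤ n) :
    ∃ β : ℤ, Y n = (β : ℚ) / ((Dn a A B D n : ℤ) : ℚ) ^ 3 ∧
      β ^ 2 = An a A B D n ^ 3 + a * An a A B D n * Dn a A B D n ^ 4 + b * Dn a A B D n ^ 6 ∧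
      ∀ l : ℤ, Prime l → ¬ (l ∣ 2 * B ∧ l ∣ 3 * A ^ 2 + a * D ^ 4) →
        ¬ (l ∣ 2 * β ∧ l ∣ 3 * An a A B D n ^ 2 + a * Dn a A B D n ^ 4) := by
  have hD' : (D : ℚ) ≠ 0 := by exact_mod_cast hD
  obtain ⟨β, h1, h2, h3⟩ := exists_B_loc (h.toInt hD) n hn
  have hW : ((Wseq (a * D ^ 4) A B n : ℤ) : ℚ) ≠ 0 := by
    exact_mod_cast W_ne_zero (h.toInt hD) n hn
  refine ⟨β, ?_, ?_, ?_⟩
  · rw [eq_div_iff (pow_ne_zero _ hW)] at h1
    rw [Dn, eq_div_iff (by push_cast; exact pow_ne_zero _ (mul_ne_zero hD' hW))]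
    push_cast
    rw [← h1]; ring
  · rw [h2, An, Dn]; ring
  · intro l hl hns
    have := h3 l hl hns
    rw [An, Dn]
    rw [show a * (D * Wseq (a * D ^ 4) A B n) ^ 4 = a * D ^ 4 * Wseq (a * D ^ 4) A B n ^ 4 by ring]
    exact this

end Pool.Agent.Lib.MP_3550b5_nt
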