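import Mathlib
import Pool.Agent.Lib.MP_3550b5_nt.SMult
import Pool.Agent.Lib.MP_3550b5_nt.NearBase

namespace Pool.Agent.Lib.MP_3550b5_nt

open PowerSeries

variable {p : ℕ} [hp : Fact p.Prime]

/-- `P` is the rational point `(A / D ^ 2, B / D ^ 3)`. -/
def IsRep (a b A B D : ℤ) (P : (curve a b).Point) : Prop :=
  D ≠ 0 ∧ ∃ h : (curve a b).Nonsingular ((A : ℚ) / (D : ℚ) ^ 2) ((B : ℚ) / (D : ℚ) ^ 3),
    P = .some _ _ h

lemma IsRep.eqn {a b A B D : ℤ} {P : (curve a b).Point} (h : IsRep a b A B D P) :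
    B ^ 2 = A ^ 3 + a * A * D ^ 4 + b * D ^ 6 := by
  obtain ⟨hD, hh, -⟩ := h
  have hD' : (D : ℚ) ≠ 0 := by exact_mod_cast hD
  have := curve_eq hh
  field_simp at this
  have h2 : (B : ℚ) ^ 2 = (A : ℚ) ^ 3 + a * A * (D : ℚ) ^ 4 + b * (D : ℚ) ^ 6 := by
    linear_combination this
  exact_mod_cast h2

lemma nsmul_ne_of_not_tor {a b : ℤ} {P : (curve a b).Point}
    (htor : ¬ IsOfFinAddOrder P) (n : ℕ) (hn : 0 < n) : n • P ≠ 0 := by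
  intro h0
  apply htor
  rw [isOfFinAddOrder_iff_nsmul_eq_zero]
  exact ⟨n, hn, h0⟩

lemma IsRep.multSeq {a b A B D : ℤ} {P : (curve a b).Point} (h : IsRep a b A B D P)
    (htor : ¬ IsOfFinAddOrder P) :
    MultSeq (a : ℚ) b ((A : ℚ) / (D : ℚ) ^ 2) ((B : ℚ) / (D : ℚ) ^ 3)
      (fun n => ptX (n • P)) (fun n => ptY (n • P)) := by
  obtain ⟨hD, hh, rfl⟩ := h
  exact multSeq_of_point hh (nsmul_ne_of_not_tor htor)

lemma IsRep.B_ne {a b A B D : ℤ} {P : (curve a b).Point} (h : IsRep a b A B D P)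
    (htor : ¬ IsOfFinAddOrder P) : 2 * B ≠ 0 := by
  have h1 := (h.multSeq htor).y_ne
  intro h0
  have hB : B = 0 := by omega
  apply h1
  rw [hB]; simp

/-- Multiples of a represented point. -/
lemma IsRep.mult {a b A B D : ℤ} {P : (curve a b).Point} (h : IsRep a b A B D P)
    (htor : ¬ IsOfFinAddOrder P) (n : ℕ) (hn : 1 ≤ n) :
    ∃ β : ℤ, IsRep a b (An a A B D n) β (Dn a A B D n) (n • P) ∧
      ∀ l : ℤ, Prime l → ¬ (l ∣ 2 * B ∧ l ∣ 3 * A ^ 2 + a * D ^ 4) →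
        ¬ (l ∣ 2 * β ∧ l ∣ 3 * An a A B D n ^ 2 + a * Dn a A B D n ^ 4) := by
  have hms := h.multSeq htor
  obtain ⟨β, h1, h2, h3⟩ := exists_Bn hms h.1 n hn
  refine ⟨β, ⟨Dn_ne hms h.1 n hn, ?_⟩, h3⟩
  have hX := X_eq_An hms h.1 n hn
  obtain ⟨hh, e⟩ := exists_eq_some _ (nsmul_ne_of_not_tor htor n (by omega))
  have hh' : (curve a b).Nonsingular (((An a A B D n : ℤ) : ℚ) / ((Dn a A B D n : ℤ) : ℚ) ^ 2)
      ((β : ℚ) / ((Dn a A B D n : ℤ) : ℚ) ^ 3) := by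
    rw [← h1, ← hX]; exact hh
  refine ⟨hh', ?_⟩
  rw [e]
  simp only [WeierstrassCurve.Affine.Point.some.injEq]
  exact ⟨hX, h1⟩

/-- Removing common factors from a representation. -/
lemma reduce_rep (a b : ℤ) : ∀ (N : ℕ) (A B D : ℤ), D ≠ 0 → D.natAbs ≤ N →
    B ^ 2 = A ^ 3 + a * A * D ^ 4 + b * D ^ 6 →
    ∃ G A₁ B₁ D₁ : ℤ, 0 < G ∧ D₁ ≠ 0 ∧ A = G ^ 2 * A₁ ∧ B = G ^ 3 * B₁ ∧ D = G * D₁ ∧
      ∀ l : ℤ, Prime l → ¬ (l ∣ A₁ ∧ l ∣ D₁) := by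
  intro N
  induction N with
  | zero =>
    intro A B D hD hN
    exact absurd (Int.natAbs_eq_zero.mp (by omega)) hD
  | succ N ih =>
    intro A B D hD hN heq
    by_cases hex : ∃ l : ℕ, l.Prime ∧ (l : ℤ) ∣ A ∧ (l : ℤ) ∣ D
    · obtain ⟨l, hl, ⟨A', rfl⟩, ⟨D', rfl⟩⟩ := hex
      have hlZ : Prime (l : ℤ) := Nat.prime_iff_prime_int.mp hl
      have hl0 : (l : ℤ) ≠ 0 := hlZ.ne_zero
      -- `l ^ 2 ∣ B`
      have hB : (l : ℤ) ∣ B := by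
        apply hlZ.dvd_of_dvd_pow (n := 2)
        rw [heq]
        exact ⟨l ^ 2 * A' ^ 3 + a * A' * l ^ 4 * D' ^ 4 + b * l ^ 5 * D' ^ 6, by ring⟩
      obtain ⟨B', rfl⟩ := hB
      have heq2 : B' ^ 2 = l * (A' ^ 3 + a * A' * l ^ 2 * D' ^ 4 + b * l ^ 3 * D' ^ 6) := by
        have : (l : ℤ) ^ 2 * B' ^ 2 =
            (l : ℤ) ^ 2 * (l * (A' ^ 3 + a * A' * l ^ 2 * D' ^ 4 + b * l ^ 3 * D' ^ 6)) := by
          linear_combination heq
        exact mul_left_cancel₀ (pow_ne_zero 2 hl0) this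
      have hB' : (l : ℤ) ∣ B' := by
        apply hlZ.dvd_of_dvd_pow (n := 2)
        rw [heq2]; exact Dvd.intro _ rfl
      obtain ⟨B2, rfl⟩ := hB'
      have heq3 : l * B2 ^ 2 = A' ^ 3 + a * A' * l ^ 2 * D' ^ 4 + b * l ^ 3 * D' ^ 6 := by
        apply mul_left_cancel₀ hl0
        linear_combination heq2
      have hA' : (l : ℤ) ∣ A' := by
        apply hlZ.dvd_of_dvd_pow (n := 3)
        have : A' ^ 3 = l * (B2 ^ 2 - a * A' * l * D' ^ 4 - b * l ^ 2 * D' ^ 6) := by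
          linear_combination -heq3
        rw [this]; exact Dvd.intro _ rfl
      obtain ⟨A2, rfl⟩ := hA'
      have heq4 : B2 ^ 2 = l ^ 2 * (A2 ^ 3 + a * A2 * D' ^ 4 + b * D' ^ 6) := by
        apply mul_left_cancel₀ hl0
        linear_combination heq3
      have hB2 : (l : ℤ) ∣ B2 := by
        apply hlZ.dvd_of_dvd_pow (n := 2)
        rw [heq4, pow_two, mul_assoc]; exact Dvd.intro _ rfl
      obtain ⟨B3, rfl⟩ := hB2
      have heq5 : B3 ^ 2 = A2 ^ 3 + a * A2 * D' ^ 4 + b * D' ^ 6 := by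
        apply mul_left_cancel₀ (pow_ne_zero 2 hl0)
        linear_combination heq4
      have hD' : D' ≠ 0 := by
        rintro rfl
        exact hD (mul_zero _)
      have hlt : D'.natAbs ≤ N := by
        rw [Int.natAbs_mul, Int.natAbs_natCast] at hN
        have h1 : 1 ≤ D'.natAbs := Int.natAbs_pos.mpr hD'
        have h2 := hl.two_le
        nlinarith
      obtain ⟨G, A₁, B₁, D₁, hG, hD1, hA1, hB1, hDD, hprim⟩ := ih A2 B3 D' hD' hlt heq5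
      refine ⟨l * G, A₁, B₁, D₁, mul_pos (by exact_mod_cast hl.pos) hG, hD1, ?_, ?_, ?_, hprim⟩
      · rw [hA1]; ring
      · rw [hB1]; ring
      · rw [hDD]; ring
    · push Not at hex
      refine ⟨1, A, B, D, one_pos, hD, by ring, by ring, by ring, ?_⟩
      rintro l hl ⟨h1, h2⟩
      have := hex l.natAbs (Int.prime_iff_natAbs_prime.mp hl) (Int.natAbs_dvd.mpr h1)
      exact this (Int.natAbs_dvd.mpr h2)

/-- `u` is the `p`-adic unit attached to the point `(α / δ ^ 2, β / δ ^ 3)` with `p ∣ δ`. -/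
def HtD (p : ℕ) [Fact p.Prime] (a b α δ : ℤ) (u : ℤ_[p]) : Prop :=
  ∃ (c : ℤ_[p]) (W V Om S Z : ℤ_[p]⟦X⟧) (β : ℤ) (βi : ℤ_[p]),
    SigmaData p (a : ℤ_[p]) (b : ℤ_[p]) c W V Om S Z ∧
    β ^ 2 = α ^ 3 + a * α * δ ^ 4 + b * δ ^ 6 ∧
    (β : ℤ_[p]) * βi = 1 ∧
    u = (α : ℤ_[p]) * βi * ev S (-((α : ℤ_[p]) * (δ : ℤ_[p]) * βi))

lemma HtD.isUnit {a b α δ : ℤ} {u : ℤ_[p]} (h : HtD p a b α δ u)
    (hD : (p : ℤ) ∣ δ) : IsUnit u := by
  obtain ⟨c, W, V, Om, S, Z, B, Bi, hS, hB, hBi, rfl⟩ := h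
  have hpZ : Prime (p : ℤ) := Nat.prime_iff_prime_int.mp hp.out
  have hBn : ¬ (p : ℤ) ∣ B := by
    intro hd
    have h1 : ‖(B : ℤ_[p])‖ < 1 := (PadicInt.norm_int_lt_one_iff_dvd B).mpr hd
    have h2 : ‖(B : ℤ_[p])‖ = 1 := PadicInt.isUnit_iff.mp (IsUnit.of_mul_eq_one _ hBi)
    linarith
  have hAn : ¬ (p : ℤ) ∣ α := by
    intro hd
    apply hBn
    have h1 : (p : ℤ) ∣ B ^ 2 := by
      rw [hB]
      exact dvd_add (dvd_add (dvd_pow hd (by norm_num))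
        (Dvd.dvd.mul_left (dvd_pow hD (by norm_num)) _))
        (Dvd.dvd.mul_left (dvd_pow hD (by norm_num)) _)
    exact hpZ.dvd_of_dvd_pow h1
  have hDn : ‖(δ : ℤ_[p])‖ < 1 := (PadicInt.norm_int_lt_one_iff_dvd _).mpr hD
  have ht : ‖-((α : ℤ_[p]) * (δ : ℤ_[p]) * Bi)‖ < 1 := by
    rw [norm_neg, norm_mul, norm_mul]
    calc ‖(α : ℤ_[p])‖ * ‖(δ : ℤ_[p])‖ * ‖Bi‖
        ≤ 1 * ‖(δ : ℤ_[p])‖ * 1 := by
          gcongr
          · exact PadicInt.norm_le_one _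
          · exact PadicInt.norm_le_one _
      _ = ‖(δ : ℤ_[p])‖ := by ring
      _ < 1 := hDn
  have h2 : IsUnit Bi := IsUnit.of_mul_eq_one _ (by rw [mul_comm]; exact hBi)
  exact ((isUnit_intCast hAn).mul h2).mul (ev_isUnit hS.S0 ht)

/-- The height of a nonsingular rational point in terms of one of its multiples. -/
theorem ht_of_rep (hp5 : 5 ≤ p) {a b A B D : ℤ} {P : (curve a b).Point}
    (hP : IsRep a b A B D P) (htor : ¬ IsOfFinAddOrder P)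
    (hns : IsCoprime (2 * B) (3 * A ^ 2 + a * D ^ 4))
    {Bh : (curve a b).Point → (curve a b).Point → ℚ_[p]} (hB : IsCanonicalHeight p a b Bh)
    {m : ℕ} (hm : 1 ≤ m) (hdvd : (p : ℤ) ∣ Dn a A B D m) :
    ∃ u : ℤ_[p], HtD p a b (An a A B D m) (Dn a A B D m) u ∧
      (m : ℚ_[p]) ^ 2 * Bh P P = ulog u := by
  obtain ⟨σ, hσ, hform⟩ := hB.formula
  obtain ⟨c, W, V, Om, S, Z, hσS, hS⟩ := sigmaData_of_sigma hσ
  obtain ⟨Bm, hrep, hloc⟩ := hP.mult htor m hm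
  have hBeq := hrep.eqn
  have hcop : IsCoprime (2 * Bm) (3 * An a A B D m ^ 2 + a * Dn a A B D m ^ 4) := by
    apply isCoprime_of_prime_dvd
    · rintro ⟨hB0, -⟩
      have htor' : ¬ IsOfFinAddOrder (m • P) := by
        rw [isOfFinAddOrder_nsmul]
        push Not
        exact ⟨htor, by omega⟩
      exact hrep.B_ne htor' hB0
    · intro l hl h1 h2
      exact hloc l hl (fun hh => hl.not_isUnit (hns.isUnit_of_dvd' hh.1 hh.2)) ⟨h1, h2⟩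
  obtain ⟨hD0, hh', e'⟩ := hrep
  set A' := An a A B D m with hA
  set D' := Dn a A B D m with hD
  have hpZ : Prime (p : ℤ) := Nat.prime_iff_prime_int.mp hp.out
  have hAn : ¬ (p : ℤ) ∣ A' := by
    intro hd
    have h1 : (p : ℤ) ∣ Bm ^ 2 := by
      rw [hBeq]
      exact dvd_add (dvd_add (dvd_pow hd (by norm_num)) (Dvd.dvd.mul_left (dvd_pow hdvd (by norm_num)) _))
        (Dvd.dvd.mul_left (dvd_pow hdvd (by norm_num)) _)
    have h2 : (p : ℤ) ∣ 2 * Bm := Dvd.dvd.mul_left (hpZ.dvd_of_dvd_pow h1) _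
    have h3 : (p : ℤ) ∣ 3 * A' ^ 2 + a * D' ^ 4 :=
      dvd_add (Dvd.dvd.mul_left (dvd_pow hd (by norm_num)) _)
        (Dvd.dvd.mul_left (dvd_pow hdvd (by norm_num)) _)
    exact hpZ.not_isUnit (hcop.isUnit_of_dvd' h2 h3)
  have hBn : ¬ (p : ℤ) ∣ Bm := by
    intro hd
    apply hAn
    have h1 : (p : ℤ) ∣ A' ^ 3 := by
      have e : A' ^ 3 = Bm * Bm - D' * (a * A' * D' ^ 3 + b * D' ^ 5) := by
        have : Bm * Bm = Bm ^ 2 := by ring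
        rw [this, hBeq]; ring
      rw [e]
      exact dvd_sub (Dvd.dvd.mul_right hd _) (Dvd.dvd.mul_right hdvd _)
    exact hpZ.dvd_of_dvd_pow h1
  obtain ⟨Bi, hBi⟩ : ∃ Bi : ℤ_[p], (Bm : ℤ_[p]) * Bi = 1 := by
    obtain ⟨u, hu⟩ := isUnit_intCast hBn
    exact ⟨↑u⁻¹, by rw [← hu]; exact u.mul_inv⟩
  refine ⟨_, ⟨c, W, V, Om, S, Z, Bm, Bi, hS, hBeq, hBi, rfl⟩, ?_⟩
  have hf := hform A' Bm D' hh' hD0 hdvd hcop
  rw [← e'] at hf
  have hz : Bh (m • P) (m • P) = (m : ℚ_[p]) ^ 2 * Bh P P := by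
    rw [hB.nsmul, hB.symm, hB.nsmul]; ring
  rw [hz] at hf
  rw [hf]
  have hBi' : ((Bm : ℤ_[p]) : ℚ_[p]) * ((Bi : ℤ_[p]) : ℚ_[p]) = 1 := by
    exact_mod_cast congrArg (fun z : ℤ_[p] => (z : ℚ_[p])) hBi
  have hBm0 : (Bm : ℚ_[p]) ≠ 0 := by
    intro h
    rw [PadicInt.coe_intCast, h, zero_mul] at hBi'
    exact zero_ne_one hBi'
  have hDp0 : (D' : ℚ_[p]) ≠ 0 := by exact_mod_cast hD0
  have hDn : ‖(D' : ℤ_[p])‖ < 1 := (PadicInt.norm_int_lt_one_iff_dvd D').mpr hdvd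
  have ht : ‖-((A' : ℤ_[p]) * (D' : ℤ_[p]) * Bi)‖ < 1 := by
    rw [norm_neg, norm_mul, norm_mul]
    calc ‖(A' : ℤ_[p])‖ * ‖(D' : ℤ_[p])‖ * ‖Bi‖ ≤ 1 * ‖(D' : ℤ_[p])‖ * 1 := by
          gcongr
          · exact PadicInt.norm_le_one _
          · exact PadicInt.norm_le_one _
      _ = ‖(D' : ℤ_[p])‖ := by ring
      _ < 1 := hDn
  have harg : -((A' : ℚ_[p]) * (D' : ℚ_[p])) / (Bm : ℚ_[p]) =
      ((-((A' : ℤ_[p]) * (D' : ℤ_[p]) * Bi) : ℤ_[p]) : ℚ_[p]) := by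
    push_cast
    rw [div_eq_iff hBm0]
    rw [PadicInt.coe_intCast] at hBi'
    linear_combination (A' : ℚ_[p]) * (D' : ℚ_[p]) * hBi'
  rw [harg, seriesVal_coe σ ht, hσS, ev_mul _ _ ht, ev_X]
  set t : ℤ_[p] := -((A' : ℤ_[p]) * (D' : ℤ_[p]) * Bi) with htdef
  have hu : (((t * ev S t : ℤ_[p]) : ℚ_[p]) / (D' : ℚ_[p])) =
      ((-((A' : ℤ_[p]) * Bi * ev S t) : ℤ_[p]) : ℚ_[p]) := by
    rw [div_eq_iff hDp0, htdef]
    push_cast
    ring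
  rw [hu]
  have hunit : IsUnit ((A' : ℤ_[p]) * Bi * ev S t) := by
    have h1 : IsUnit (A' : ℤ_[p]) := isUnit_intCast hAn
    have h2 : IsUnit Bi := IsUnit.of_mul_eq_one _ (by rw [mul_comm]; exact hBi)
    have h3 : IsUnit (ev S t) := ev_isUnit hS.S0 ht
    exact (h1.mul h2).mul h3
  rw [iwasawaLog_coe hunit.neg, ulog_neg (by omega)]

end Pool.Agent.Lib.MP_3550b5_nt
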