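import Mathlib
import Pool.Agent.Lib.MP_3550b5_nt.SHt

namespace Pool.Agent.Lib.MP_3550b5_nt

open WeierstrassCurve.Affine

/-- The curve `y^2 = x^3 + a x + b` over a field. -/
def scurve {F : Type*} [Field F] (a b : F) : WeierstrassCurve.Affine F := ⟨0, 0, 0, a, b⟩

section

variable {F : Type*} [Field F] {a b : F}

lemma scurve_negY (x y : F) : (scurve a b).negY x y = -y := by
  simp [WeierstrassCurve.Affine.negY, scurve]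

lemma scurve_eq {x y : F} (h : (scurve a b).Nonsingular x y) : y ^ 2 = x ^ 3 + a * x + b := by
  have := (equation_iff ..).mp h.1
  simp only [scurve] at this
  linear_combination this

/-- The relation `P₁ - P₂ = P₃` in coordinates. -/
def SubRel (a x1 y1 x2 y2 x3 y3 : F) : Prop :=
  (x1 ≠ x2 ∧ (x1 - x2) ^ 2 * (x3 + x1 + x2) = (y1 + y2) ^ 2 ∧
    (x1 - x2) * (y3 + y1) = -((y1 + y2) * (x3 - x1))) ∨
  (x1 = x2 ∧ y1 = -y2 ∧ 2 * y1 ≠ 0 ∧ (2 * y1) ^ 2 * (x3 + 2 * x1) = (3 * x1 ^ 2 + a) ^ 2 ∧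
    2 * y1 * (y3 + y1) = -((3 * x1 ^ 2 + a) * (x3 - x1)))

lemma subRel_of_sub [DecidableEq F] {x1 y1 x2 y2 x3 y3 : F} (h1 : (scurve a b).Nonsingular x1 y1)
    (h2 : (scurve a b).Nonsingular x2 y2) (h3 : (scurve a b).Nonsingular x3 y3)
    (h : (Point.some x1 y1 h1 : (scurve a b).Point) - Point.some x2 y2 h2 = Point.some x3 y3 h3) :
    SubRel a x1 y1 x2 y2 x3 y3 := by
  rw [sub_eq_add_neg, Point.neg_some] at h
  by_cases hxx : x1 = x2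
  · right
    subst hxx
    have hYne : y1 ≠ (scurve a b).negY x1 ((scurve a b).negY x1 y2) := by
      intro h0
      rw [Point.add_of_Y_eq rfl h0] at h
      exact absurd h.symm (Point.some_ne_zero h3)
    have hYne' := hYne
    rw [scurve_negY, scurve_negY, neg_neg] at hYne'
    have hy : y1 = -y2 := by
      have e1 := scurve_eq h1
      have e2 := scurve_eq h2
      have : (y1 - y2) * (y1 + y2) = 0 := by linear_combination e1 - e2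
      rcases mul_eq_zero.mp this with h4 | h4
      · exact absurd (sub_eq_zero.mp h4) hYne'
      · exact eq_neg_of_add_eq_zero_left h4
    have h2y : 2 * y1 ≠ 0 := by
      intro h0
      apply hYne'
      have : y1 - y2 = 0 := by rw [hy] at h0 ⊢; linear_combination h0
      exact sub_eq_zero.mp this
    rw [Point.add_some (fun hh => hYne hh.2)] at h
    simp only [Point.some.injEq] at h
    obtain ⟨hx3, hy3⟩ := h
    rw [WeierstrassCurve.Affine.slope_of_Y_ne rfl hYne] at hx3 hy3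
    rw [scurve_negY] at hx3 hy3
    simp only [WeierstrassCurve.Affine.addX, WeierstrassCurve.Affine.addY,
      WeierstrassCurve.Affine.negAddY, WeierstrassCurve.Affine.negY, scurve] at hx3 hy3
    have hden : y1 - -y1 = 2 * y1 := by ring
    obtain ⟨L, hL⟩ : ∃ L, L = (3 * x1 ^ 2 + a) / (2 * y1) := ⟨_, rfl⟩
    have hLe : 2 * y1 * L = 3 * x1 ^ 2 + a := by rw [hL, mul_comm, div_mul_cancel₀ _ h2y]
    have hs : (3 * x1 ^ 2 + 2 * 0 * x1 + a - 0 * y1) / (y1 - -y1) = L := by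
      rw [hL, hden]; ring_nf
    rw [hs] at hx3 hy3
    refine ⟨rfl, hy, h2y, ?_, ?_⟩
    · rw [← hx3, ← hLe]; ring
    · rw [← hy3, ← hx3, ← hLe]; ring
  · left
    have hd : x1 - x2 ≠ 0 := sub_ne_zero.mpr hxx
    rw [Point.add_some (fun hh => hxx hh.1)] at h
    simp only [Point.some.injEq] at h
    obtain ⟨hx3, hy3⟩ := h
    rw [WeierstrassCurve.Affine.slope_of_X_ne hxx] at hx3 hy3
    rw [scurve_negY] at hx3 hy3
    simp only [WeierstrassCurve.Affine.addX, WeierstrassCurve.Affine.addY,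
      WeierstrassCurve.Affine.negAddY, WeierstrassCurve.Affine.negY, scurve] at hx3 hy3
    obtain ⟨L, hL⟩ : ∃ L, L = (y1 - -y2) / (x1 - x2) := ⟨_, rfl⟩
    have hLe : (x1 - x2) * L = y1 + y2 := by rw [hL]; field_simp; ring
    rw [← hL] at hx3 hy3
    refine ⟨hxx, ?_, ?_⟩
    · rw [← hx3, ← hLe]; ring
    · rw [← hy3, ← hx3, ← hLe]; ring

lemma sub_of_subRel [DecidableEq F] {x1 y1 x2 y2 x3 y3 : F} (h1 : (scurve a b).Nonsingular x1 y1)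
    (h2 : (scurve a b).Nonsingular x2 y2) (h3 : (scurve a b).Nonsingular x3 y3)
    (h : SubRel a x1 y1 x2 y2 x3 y3) :
    (Point.some x1 y1 h1 : (scurve a b).Point) - Point.some x2 y2 h2 = Point.some x3 y3 h3 := by
  rw [sub_eq_add_neg, Point.neg_some]
  rcases h with ⟨hxx, e1, e2⟩ | ⟨hxx, hyy, h2y, e1, e2⟩
  · have hd : x1 - x2 ≠ 0 := sub_ne_zero.mpr hxx
    rw [Point.add_some (fun hh => hxx hh.1)]
    simp only [Point.some.injEq]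
    rw [WeierstrassCurve.Affine.slope_of_X_ne hxx, scurve_negY]
    simp only [WeierstrassCurve.Affine.addX, WeierstrassCurve.Affine.addY,
      WeierstrassCurve.Affine.negAddY, WeierstrassCurve.Affine.negY, scurve]
    obtain ⟨L, hL⟩ : ∃ L, L = (y1 - -y2) / (x1 - x2) := ⟨_, rfl⟩
    have hLe : (x1 - x2) * L = y1 + y2 := by rw [hL]; field_simp; ring
    rw [← hL]
    rw [← hLe] at e1 e2
    have hx3 : x3 = L ^ 2 - x1 - x2 := by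
      apply mul_left_cancel₀ (pow_ne_zero 2 hd)
      linear_combination e1
    have hy3 : y3 = -(L * (x3 - x1)) - y1 := by
      apply mul_left_cancel₀ hd
      linear_combination e2
    constructor
    · rw [hx3]; ring
    · rw [hy3, hx3]; ring
  · subst hxx
    have hYne : y1 ≠ (scurve a b).negY x1 ((scurve a b).negY x1 y2) := by
      rw [scurve_negY, scurve_negY, neg_neg]
      intro h0
      apply h2y
      rw [← h0] at hyy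
      linear_combination hyy
    rw [Point.add_some (fun hh => hYne hh.2)]
    simp only [Point.some.injEq]
    rw [WeierstrassCurve.Affine.slope_of_Y_ne rfl hYne, scurve_negY]
    simp only [WeierstrassCurve.Affine.addX, WeierstrassCurve.Affine.addY,
      WeierstrassCurve.Affine.negAddY, WeierstrassCurve.Affine.negY, scurve]
    have hden : y1 - -y1 = 2 * y1 := by ring
    obtain ⟨L, hL⟩ : ∃ L, L = (3 * x1 ^ 2 + a) / (2 * y1) := ⟨_, rfl⟩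
    have hLe : 2 * y1 * L = 3 * x1 ^ 2 + a := by rw [hL, mul_comm, div_mul_cancel₀ _ h2y]
    have hs : (3 * x1 ^ 2 + 2 * 0 * x1 + a - 0 * y1) / (y1 - -y1) = L := by
      rw [hL, hden]; ring_nf
    rw [hs]
    rw [← hLe] at e1 e2
    have hx3 : x3 = L ^ 2 - 2 * x1 := by
      apply mul_left_cancel₀ (pow_ne_zero 2 h2y)
      linear_combination e1
    have hy3 : y3 = -(L * (x3 - x1)) - y1 := by
      apply mul_left_cancel₀ h2y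
      linear_combination e2
    constructor
    · rw [hx3]; ring
    · rw [hy3, hx3]; ring

/-- Clearing denominators. -/
lemma clear1 {X1 Y1 W1 X2 Y2 W2 X3 W3 : F} (h1 : W1 ≠ 0) (h2 : W2 ≠ 0) (h3 : W3 ≠ 0) :
    ((X1 / W1 ^ 2 - X2 / W2 ^ 2) ^ 2 * (X3 / W3 ^ 2 + X1 / W1 ^ 2 + X2 / W2 ^ 2) =
      (Y1 / W1 ^ 3 + Y2 / W2 ^ 3) ^ 2) ↔
    (X1 * W2 ^ 2 - X2 * W1 ^ 2) ^ 2 *
      (X3 * W1 ^ 2 * W2 ^ 2 + X1 * W2 ^ 2 * W3 ^ 2 + X2 * W1 ^ 2 * W3 ^ 2) =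
      (Y1 * W2 ^ 3 + Y2 * W1 ^ 3) ^ 2 * W3 ^ 2 := by
  rw [← sub_eq_zero, ← sub_eq_zero (b := (Y1 * W2 ^ 3 + Y2 * W1 ^ 3) ^ 2 * W3 ^ 2)]
  have e : (X1 / W1 ^ 2 - X2 / W2 ^ 2) ^ 2 * (X3 / W3 ^ 2 + X1 / W1 ^ 2 + X2 / W2 ^ 2) -
      (Y1 / W1 ^ 3 + Y2 / W2 ^ 3) ^ 2 = ((X1 * W2 ^ 2 - X2 * W1 ^ 2) ^ 2 *
      (X3 * W1 ^ 2 * W2 ^ 2 + X1 * W2 ^ 2 * W3 ^ 2 + X2 * W1 ^ 2 * W3 ^ 2) -
      (Y1 * W2 ^ 3 + Y2 * W1 ^ 3) ^ 2 * W3 ^ 2) / (W1 ^ 6 * W2 ^ 6 * W3 ^ 2) := by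
    field_simp
  rw [e, div_eq_zero_iff]
  constructor
  · rintro (h | h)
    · exact h
    · exact absurd h (by positivity)
  · exact Or.inl

lemma clear2 {X1 Y1 W1 X2 Y2 W2 X3 Y3 W3 : F} (h1 : W1 ≠ 0) (h2 : W2 ≠ 0) (h3 : W3 ≠ 0) :
    ((X1 / W1 ^ 2 - X2 / W2 ^ 2) * (Y3 / W3 ^ 3 + Y1 / W1 ^ 3) =
      -((Y1 / W1 ^ 3 + Y2 / W2 ^ 3) * (X3 / W3 ^ 2 - X1 / W1 ^ 2))) ↔
    (X1 * W2 ^ 2 - X2 * W1 ^ 2) * (Y3 * W1 ^ 3 + Y1 * W3 ^ 3) * W2 =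
      -((Y1 * W2 ^ 3 + Y2 * W1 ^ 3) * (X3 * W1 ^ 2 - X1 * W3 ^ 2) * W3) := by
  rw [← sub_eq_zero, ← sub_eq_zero (b := -((Y1 * W2 ^ 3 + Y2 * W1 ^ 3) *
    (X3 * W1 ^ 2 - X1 * W3 ^ 2) * W3))]
  have e : (X1 / W1 ^ 2 - X2 / W2 ^ 2) * (Y3 / W3 ^ 3 + Y1 / W1 ^ 3) -
      -((Y1 / W1 ^ 3 + Y2 / W2 ^ 3) * (X3 / W3 ^ 2 - X1 / W1 ^ 2)) =
      ((X1 * W2 ^ 2 - X2 * W1 ^ 2) * (Y3 * W1 ^ 3 + Y1 * W3 ^ 3) * W2 -
      -((Y1 * W2 ^ 3 + Y2 * W1 ^ 3) * (X3 * W1 ^ 2 - X1 * W3 ^ 2) * W3)) /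
        (W1 ^ 5 * W2 ^ 3 * W3 ^ 3) := by
    field_simp
  rw [e, div_eq_zero_iff]
  constructor
  · rintro (h | h)
    · exact h
    · exact absurd h (by positivity)
  · exact Or.inl

lemma clear3 {X1 Y1 W1 X3 W3 A : F} (h1 : W1 ≠ 0) (h3 : W3 ≠ 0) :
    ((2 * (Y1 / W1 ^ 3)) ^ 2 * (X3 / W3 ^ 2 + 2 * (X1 / W1 ^ 2)) =
      (3 * (X1 / W1 ^ 2) ^ 2 + A) ^ 2) ↔
    (2 * Y1) ^ 2 * (X3 * W1 ^ 2 + 2 * X1 * W3 ^ 2) = (3 * X1 ^ 2 + A * W1 ^ 4) ^ 2 * W3 ^ 2 := by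
  rw [← sub_eq_zero, ← sub_eq_zero (b := (3 * X1 ^ 2 + A * W1 ^ 4) ^ 2 * W3 ^ 2)]
  have e : (2 * (Y1 / W1 ^ 3)) ^ 2 * (X3 / W3 ^ 2 + 2 * (X1 / W1 ^ 2)) -
      (3 * (X1 / W1 ^ 2) ^ 2 + A) ^ 2 = ((2 * Y1) ^ 2 * (X3 * W1 ^ 2 + 2 * X1 * W3 ^ 2) -
      (3 * X1 ^ 2 + A * W1 ^ 4) ^ 2 * W3 ^ 2) / (W1 ^ 8 * W3 ^ 2) := by
    field_simp
  rw [e, div_eq_zero_iff]
  constructor
  · rintro (h | h)
    · exact h
    · exact absurd h (by positivity)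
  · exact Or.inl

lemma clear4 {X1 Y1 W1 X3 Y3 W3 A : F} (h1 : W1 ≠ 0) (h3 : W3 ≠ 0) :
    (2 * (Y1 / W1 ^ 3) * (Y3 / W3 ^ 3 + Y1 / W1 ^ 3) =
      -((3 * (X1 / W1 ^ 2) ^ 2 + A) * (X3 / W3 ^ 2 - X1 / W1 ^ 2))) ↔
    2 * Y1 * (Y3 * W1 ^ 3 + Y1 * W3 ^ 3) =
      -((3 * X1 ^ 2 + A * W1 ^ 4) * (X3 * W1 ^ 2 - X1 * W3 ^ 2) * W3) := by
  rw [← sub_eq_zero, ← sub_eq_zero (b := -((3 * X1 ^ 2 + A * W1 ^ 4) *
    (X3 * W1 ^ 2 - X1 * W3 ^ 2) * W3))]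
  have e : 2 * (Y1 / W1 ^ 3) * (Y3 / W3 ^ 3 + Y1 / W1 ^ 3) -
      -((3 * (X1 / W1 ^ 2) ^ 2 + A) * (X3 / W3 ^ 2 - X1 / W1 ^ 2)) =
      (2 * Y1 * (Y3 * W1 ^ 3 + Y1 * W3 ^ 3) -
      -((3 * X1 ^ 2 + A * W1 ^ 4) * (X3 * W1 ^ 2 - X1 * W3 ^ 2) * W3)) /
        (W1 ^ 6 * W3 ^ 3) := by
    field_simp
  rw [e, div_eq_zero_iff]
  constructor
  · rintro (h | h)
    · exact h
    · exact absurd h (by positivity)
  · exact Or.inl

lemma clear5 {X1 W1 X2 W2 : F} (h1 : W1 ≠ 0) (h2 : W2 ≠ 0) (n : ℕ) :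
    (X1 / W1 ^ n = X2 / W2 ^ n) ↔ X1 * W2 ^ n = X2 * W1 ^ n :=
  div_eq_div_iff (pow_ne_zero n h1) (pow_ne_zero n h2)

end

/-- Transfer of the relation to specialisations. -/
theorem subRel_transfer {R K : Type*} [CommRing R] [Field K] (φ : R →+* K)
    (hφ : Function.Injective φ) {A X1 Y1 W1 X2 Y2 W2 X3 Y3 W3 : R} (h1 : W1 ≠ 0) (h2 : W2 ≠ 0)
    (h3 : W3 ≠ 0)
    (h : SubRel (φ A) (φ X1 / φ W1 ^ 2) (φ Y1 / φ W1 ^ 3) (φ X2 / φ W2 ^ 2) (φ Y2 / φ W2 ^ 3)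
      (φ X3 / φ W3 ^ 2) (φ Y3 / φ W3 ^ 3)) :
    ∃ H : R, H ≠ 0 ∧ ∀ {F : Type} [Field F] (ψ : R →+* F), ψ H ≠ 0 → ψ W1 ≠ 0 → ψ W2 ≠ 0 →
      ψ W3 ≠ 0 → SubRel (ψ A) (ψ X1 / ψ W1 ^ 2) (ψ Y1 / ψ W1 ^ 3) (ψ X2 / ψ W2 ^ 2)
        (ψ Y2 / ψ W2 ^ 3) (ψ X3 / ψ W3 ^ 2) (ψ Y3 / ψ W3 ^ 3) := by
  have k1 : φ W1 ≠ 0 := (map_ne_zero_iff φ hφ).mpr h1
  have k2 : φ W2 ≠ 0 := (map_ne_zero_iff φ hφ).mpr h2
  have k3 : φ W3 ≠ 0 := (map_ne_zero_iff φ hφ).mpr h3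
  rcases h with ⟨hxx, e1, e2⟩ | ⟨hxx, hyy, h2y, e1, e2⟩
  · rw [clear1 k1 k2 k3] at e1
    rw [clear2 k1 k2 k3] at e2
    have f1 : (X1 * W2 ^ 2 - X2 * W1 ^ 2) ^ 2 *
        (X3 * W1 ^ 2 * W2 ^ 2 + X1 * W2 ^ 2 * W3 ^ 2 + X2 * W1 ^ 2 * W3 ^ 2) =
        (Y1 * W2 ^ 3 + Y2 * W1 ^ 3) ^ 2 * W3 ^ 2 := by
      apply hφ
      simpa only [map_mul, map_add, map_sub, map_pow] using e1
    have f2 : (X1 * W2 ^ 2 - X2 * W1 ^ 2) * (Y3 * W1 ^ 3 + Y1 * W3 ^ 3) * W2 =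
        -((Y1 * W2 ^ 3 + Y2 * W1 ^ 3) * (X3 * W1 ^ 2 - X1 * W3 ^ 2) * W3) := by
      apply hφ
      simpa only [map_mul, map_add, map_sub, map_pow, map_neg] using e2
    refine ⟨X1 * W2 ^ 2 - X2 * W1 ^ 2, ?_, ?_⟩
    · intro h0
      apply hxx
      rw [clear5 k1 k2]
      rw [← map_pow, ← map_pow, ← map_mul, ← map_mul, sub_eq_zero.mp h0]
    · intro F _ ψ hH l1 l2 l3
      left
      have g1 := congrArg ψ f1
      have g2 := congrArg ψ f2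
      simp only [map_mul, map_add, map_sub, map_pow, map_neg] at g1 g2 hH
      refine ⟨?_, (clear1 l1 l2 l3).mpr g1, (clear2 l1 l2 l3).mpr g2⟩
      intro h0
      rw [clear5 l1 l2] at h0
      exact hH (sub_eq_zero.mpr h0)
  · rw [clear3 k1 k3] at e1
    rw [clear4 k1 k3] at e2
    rw [clear5 k1 k2] at hxx
    rw [← neg_div, clear5 k1 k2] at hyy
    have f1 : (2 * Y1) ^ 2 * (X3 * W1 ^ 2 + 2 * X1 * W3 ^ 2) =
        (3 * X1 ^ 2 + A * W1 ^ 4) ^ 2 * W3 ^ 2 := by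
      apply hφ
      simpa only [map_mul, map_add, map_sub, map_pow, map_ofNat] using e1
    have f2 : 2 * Y1 * (Y3 * W1 ^ 3 + Y1 * W3 ^ 3) =
        -((3 * X1 ^ 2 + A * W1 ^ 4) * (X3 * W1 ^ 2 - X1 * W3 ^ 2) * W3) := by
      apply hφ
      simpa only [map_mul, map_add, map_sub, map_pow, map_ofNat, map_neg] using e2
    have f3 : X1 * W2 ^ 2 = X2 * W1 ^ 2 := by
      apply hφ
      simpa only [map_mul, map_pow] using hxx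
    have f4 : Y1 * W2 ^ 3 = -Y2 * W1 ^ 3 := by
      apply hφ
      simpa only [map_mul, map_pow, map_neg] using hyy
    refine ⟨2 * Y1, ?_, ?_⟩
    · intro h0
      apply h2y
      have := congrArg φ h0
      rw [map_mul, map_ofNat, map_zero] at this
      rw [← mul_div_assoc, this, zero_div]
    · intro F _ ψ hH l1 l2 l3
      right
      have g1 := congrArg ψ f1
      have g2 := congrArg ψ f2
      have g3 := congrArg ψ f3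
      have g4 := congrArg ψ f4
      simp only [map_mul, map_add, map_sub, map_pow, map_neg, map_ofNat] at g1 g2 g3 g4 hH
      refine ⟨(clear5 l1 l2 2).mpr g3, ?_, ?_, (clear3 l1 l3).mpr g1, (clear4 l1 l3).mpr g2⟩
      · rw [← neg_div]; exact (clear5 l1 l2 3).mpr g4
      · rw [← mul_div_assoc]
        exact div_ne_zero hH (pow_ne_zero 3 l1)

end Pool.Agent.Lib.MP_3550b5_nt
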