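import Mathlib
import Pool.Agent.Lib.MP_3550b5_nt.Family

namespace Pool.Agent.Lib.MP_3550b5_nt

open Polynomial

/-- Dehomogenisation. -/
noncomputable def dehom (F : MvPolynomial (Fin 2) ℤ) : ℤ[X] :=
  MvPolynomial.aeval ![X, 1] F

lemma dehom_eval {A : Type*} [CommRing A] (F : MvPolynomial (Fin 2) ℤ) (x : A) :
    ((dehom F).map (Int.castRingHom A)).eval x = MvPolynomial.aeval ![x, 1] F := by
  rw [dehom, Polynomial.eval_map]
  have h := MvPolynomial.eval₂_comp_left (Polynomial.eval₂RingHom (Int.castRingHom A) x)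
    (algebraMap ℤ ℤ[X]) ![X, 1] F
  rw [MvPolynomial.aeval_def, MvPolynomial.aeval_def]
  refine h.trans ?_
  congr 1
  · ext n; simp
  · funext i
    fin_cases i
    · simp
    · simp

lemma aeval_hom {F : MvPolynomial (Fin 2) ℤ} {e : ℕ} (hF : F.IsWeightedHomogeneous 1 e)
    (m : ℤ) {n : ℤ} (hn : n ≠ 0) :
    ((MvPolynomial.eval ![m, n] F : ℤ) : ℚ) =
      (n : ℚ) ^ e * MvPolynomial.aeval ![(m : ℚ) / n, 1] F := by
  have hn' : (n : ℚ) ≠ 0 := by exact_mod_cast hn
  have h1 : (F.map (Int.castRingHom ℚ)).IsWeightedHomogeneous 1 e := by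
    intro d hd
    apply hF
    intro h0
    apply hd
    rw [MvPolynomial.coeff_map, h0, map_zero]
  have h2 := eval_scalV h1 (n : ℚ) ![(m : ℚ) / n, 1]
  have h3 : scalV (1 : Fin 2 → ℕ) (n : ℚ) ![(m : ℚ) / n, 1] = ![(m : ℚ), n] := by
    funext i
    fin_cases i
    · simp [scalV]; field_simp
    · simp [scalV]
  rw [h3, MvPolynomial.eval_map, MvPolynomial.eval_map] at h2
  have h4 : ((MvPolynomial.eval ![m, n] F : ℤ) : ℚ) =
      MvPolynomial.eval₂ (Int.castRingHom ℚ) ![(m : ℚ), n] F := by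
    have h5 := MvPolynomial.eval₂_comp_left (Int.castRingHom ℚ) (RingHom.id ℤ) ![m, n] F
    rw [MvPolynomial.eval₂_id] at h5
    refine h5.trans ?_
    congr 1
    funext i
    fin_cases i <;> simp
  rw [h4, h2]
  rfl

/-- Clearing denominators in a Bezout relation. -/
lemma bezout_int {f g : ℤ[X]}
    (h : IsCoprime (f.map (Int.castRingHom ℚ)) (g.map (Int.castRingHom ℚ))) :
    ∃ (R : ℤ) (U V : ℤ[X]), R ≠ 0 ∧ U * f + V * g = C R := by
  obtain ⟨u, v, huv⟩ := h
  obtain ⟨b1, hb1m, hb1⟩ := IsLocalization.integerNormalization_spec (nonZeroDivisors ℤ) u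
  obtain ⟨b2, hb2m, hb2⟩ := IsLocalization.integerNormalization_spec (nonZeroDivisors ℤ) v
  set U := IsLocalization.integerNormalization (nonZeroDivisors ℤ) u
  set V := IsLocalization.integerNormalization (nonZeroDivisors ℤ) v
  have hb1' : ((b1 : ℤ)) ≠ 0 := nonZeroDivisors.ne_zero hb1m
  have hb2' : ((b2 : ℤ)) ≠ 0 := nonZeroDivisors.ne_zero hb2m
  refine ⟨b1 * b2, C (b2 : ℤ) * U, C (b1 : ℤ) * V, mul_ne_zero hb1' hb2', ?_⟩
  apply Polynomial.map_injective (Int.castRingHom ℚ) Int.cast_injective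
  have e1 : U.map (Int.castRingHom ℚ) = C (((b1 : ℤ) : ℚ)) * u := by
    have : U.map (algebraMap ℤ ℚ) = (b1 : ℤ) • u := hb1
    rw [← eq_intCast (algebraMap ℤ ℚ)]
    rw [show Int.castRingHom ℚ = algebraMap ℤ ℚ from rfl, this, Algebra.smul_def]
    simp
  have e2 : V.map (Int.castRingHom ℚ) = C (((b2 : ℤ) : ℚ)) * v := by
    have : V.map (algebraMap ℤ ℚ) = (b2 : ℤ) • v := hb2
    rw [← eq_intCast (algebraMap ℤ ℚ)]
    rw [show Int.castRingHom ℚ = algebraMap ℤ ℚ from rfl, this, Algebra.smul_def]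
    simp
  rw [Polynomial.map_add, Polynomial.map_mul, Polynomial.map_mul, Polynomial.map_mul,
    Polynomial.map_mul, Polynomial.map_C, Polynomial.map_C, Polynomial.map_C, e1, e2]
  have c1 : (Int.castRingHom ℚ) ((b1 : ℤ) * (b2 : ℤ)) = ((b1 : ℤ) : ℚ) * ((b2 : ℤ) : ℚ) := by
    simp
  have c2 : (Int.castRingHom ℚ) (b1 : ℤ) = ((b1 : ℤ) : ℚ) := rfl
  have c3 : (Int.castRingHom ℚ) (b2 : ℤ) = ((b2 : ℤ) : ℚ) := rfl
  rw [c1, c2, c3, C_mul]
  linear_combination (C ((b1 : ℤ) : ℚ) * C ((b2 : ℤ) : ℚ)) * huv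

/-- One chart. -/
lemma chart {F G : MvPolynomial (Fin 2) ℤ} {e f : ℕ} (hF : F.IsWeightedHomogeneous 1 e)
    (hG : G.IsWeightedHomogeneous 1 f)
    (h : ∀ x : ℂ, ¬ (MvPolynomial.aeval ![x, 1] F = 0 ∧ MvPolynomial.aeval ![x, 1] G = 0)) :
    ∃ (R : ℤ) (M : ℕ), R ≠ 0 ∧ ∀ m n D : ℤ, D ∣ MvPolynomial.eval ![m, n] F →
      D ∣ MvPolynomial.eval ![m, n] G → D ∣ R * n ^ M := by
  have hcop : IsCoprime ((dehom F).map (Int.castRingHom ℚ)) ((dehom G).map (Int.castRingHom ℚ)) := by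
    rw [Polynomial.isCoprime_iff_aeval_ne_zero_of_isAlgClosed ℚ ℂ]
    intro x
    by_contra hcon
    push Not at hcon
    apply h x
    have key : ∀ F : MvPolynomial (Fin 2) ℤ,
        Polynomial.aeval x ((dehom F).map (Int.castRingHom ℚ)) = MvPolynomial.aeval ![x, 1] F := by
      intro F
      rw [← dehom_eval, Polynomial.aeval_def, Polynomial.eval₂_map, Polynomial.eval_map]
      congr 1
    rw [key, key] at hcon
    exact hcon
  obtain ⟨R, U, V, hR, hUV⟩ := bezout_int hcop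
  refine ⟨R, U.natDegree + V.natDegree + e + f + 1, hR, ?_⟩
  intro m n D h1 h2
  rcases eq_or_ne n 0 with h0 | hn
  · rw [h0, zero_pow (by omega), mul_zero]; exact dvd_zero D
  · have hn' : (n : ℚ) ≠ 0 := by exact_mod_cast hn
    have clear : ∀ P : ℤ[X], ∃ T : ℤ, (T : ℚ) =
        (n : ℚ) ^ P.natDegree * (P.map (Int.castRingHom ℚ)).eval ((m : ℚ) / n) := by
      intro P
      obtain ⟨T, bi, hbi, hT⟩ := denomsClearable_natDegree (Int.castRingHom ℚ) P m
        (b := n) (bi := (n : ℚ)⁻¹) (inv_mul_cancel₀ hn')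
      refine ⟨T, ?_⟩
      have hbi' : bi = (n : ℚ)⁻¹ := by
        rw [eq_comm, inv_eq_iff_eq_inv, eq_comm]
        rw [eq_intCast] at hbi
        exact eq_inv_of_mul_eq_one_right hbi |>.symm ▸ rfl
      rw [eq_intCast, eq_intCast, eq_intCast, hbi', ← div_eq_mul_inv] at hT
      exact hT
    obtain ⟨TU, hTU⟩ := clear U
    obtain ⟨TV, hTV⟩ := clear V
    have hFe := aeval_hom hF m hn
    have hGe := aeval_hom hG m hn
    rw [← dehom_eval] at hFe hGe
    have hev := congrArg (fun P : ℤ[X] => (P.map (Int.castRingHom ℚ)).eval ((m : ℚ) / n)) hUV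
    rw [Polynomial.map_add, Polynomial.map_mul, Polynomial.map_mul, Polynomial.map_C,
      Polynomial.eval_add, Polynomial.eval_mul, Polynomial.eval_mul, Polynomial.eval_C] at hev
    have hevR : (Int.castRingHom ℚ) R = (R : ℚ) := rfl
    rw [hevR] at hev
    have key : R * n ^ (U.natDegree + V.natDegree + e + f + 1) =
        (TU * n ^ (V.natDegree + f + 1)) * MvPolynomial.eval ![m, n] F +
        (TV * n ^ (U.natDegree + e + 1)) * MvPolynomial.eval ![m, n] G := by
      have : ((R * n ^ (U.natDegree + V.natDegree + e + f + 1) : ℤ) : ℚ) =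
        (((TU * n ^ (V.natDegree + f + 1)) * MvPolynomial.eval ![m, n] F +
        (TV * n ^ (U.natDegree + e + 1)) * MvPolynomial.eval ![m, n] G : ℤ) : ℚ) := by
        push_cast
        rw [hTU, hTV, hFe, hGe, ← hev]
        ring
      exact_mod_cast this
    rw [key]
    exact dvd_add (Dvd.dvd.mul_left h1 _) (Dvd.dvd.mul_left h2 _)

/-- Common divisors of the values of two forms without common zeros at coprime integers. -/
theorem exists_common_bound {F G : MvPolynomial (Fin 2) ℤ} {e f : ℕ}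
    (hF : F.IsWeightedHomogeneous 1 e) (hG : G.IsWeightedHomogeneous 1 f)
    (h : ∀ z : Fin 2 → ℂ, z ≠ 0 → ¬ (MvPolynomial.aeval z F = 0 ∧ MvPolynomial.aeval z G = 0)) :
    ∃ R : ℤ, R ≠ 0 ∧ ∀ z : Fin 2 → ℤ, IsCoprime (z 0) (z 1) → ∀ D : ℤ,
      D ∣ MvPolynomial.eval z F → D ∣ MvPolynomial.eval z G → D ∣ R := by
  obtain ⟨R1, M1, hR1, h1⟩ := chart hF hG (fun x => h ![x, 1] (fun h0 => by
    have := congrFun h0 1
    simp at this))
  -- the other chart
  set σ : Fin 2 → Fin 2 := ![1, 0] with hσ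
  have hhom : ∀ {F : MvPolynomial (Fin 2) ℤ} {e : ℕ}, F.IsWeightedHomogeneous 1 e →
      (MvPolynomial.rename σ F).IsWeightedHomogeneous 1 e := by
    intro F e hF
    have : (MvPolynomial.rename σ F).IsHomogeneous e := MvPolynomial.IsHomogeneous.rename_isHomogeneous hF
    exact this
  have hswap : ∀ (m n : ℤ) (F : MvPolynomial (Fin 2) ℤ),
      MvPolynomial.eval ![n, m] (MvPolynomial.rename σ F) = MvPolynomial.eval ![m, n] F := by
    intro m n F
    rw [MvPolynomial.eval_rename]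
    congr 2
    funext i
    fin_cases i <;> simp [hσ]
  obtain ⟨R2, M2, hR2, h2⟩ := chart (hhom hF) (hhom hG) (fun x => by
    have h3 : ∀ F : MvPolynomial (Fin 2) ℤ, MvPolynomial.aeval ![x, 1] (MvPolynomial.rename σ F) =
        MvPolynomial.aeval (![1, x] : Fin 2 → ℂ) F := by
      intro F
      rw [MvPolynomial.aeval_rename]
      congr 2
      funext i
      fin_cases i <;> simp [hσ]
    rw [h3, h3]
    exact h ![1, x] (fun h0 => by
      have := congrFun h0 0
      simp at this))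
  refine ⟨R1 * R2, mul_ne_zero hR1 hR2, ?_⟩
  intro z hz D hDF hDG
  have hz2 : z = ![z 0, z 1] := by
    funext i
    fin_cases i <;> rfl
  rw [hz2] at hDF hDG
  have k1 := h1 (z 0) (z 1) D hDF hDG
  have k2 := h2 (z 1) (z 0) D (by rw [hswap]; exact hDF) (by rw [hswap]; exact hDG)
  obtain ⟨u, v, huv⟩ : IsCoprime (z 1 ^ M1) (z 0 ^ M2) := (hz.symm.pow_left).pow_right
  have e1 : R1 * R2 = (u * R2) * (R1 * z 1 ^ M1) + (v * R1) * (R2 * z 0 ^ M2) := by
    linear_combination (-(R1 * R2)) * huv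
  rw [e1]
  exact dvd_add (Dvd.dvd.mul_left k1 _) (Dvd.dvd.mul_left k2 _)

end Pool.Agent.Lib.MP_3550b5_nt
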