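import Mathlib

namespace Pool.Agent.Lib.MP_3550b5_nt

open Polynomial

/-- The matrix with `1` on the diagonal and `1 / 2` elsewhere. -/
def shiftM (F : Type*) [Field F] (r : ℕ) : Matrix (Fin r) (Fin r) F :=
  Matrix.of fun i j => if i = j then 1 else 1 / 2

lemma det_shiftM (F : Type*) [Field F] (h2 : (2 : F) ≠ 0) (r : ℕ) :
    2 ^ r * (shiftM F r).det = (r : F) + 1 := by
  have h1 : (2 : F) • shiftM F r = 1 + Matrix.replicateCol Unit (fun _ : Fin r => (1 : F)) *
      Matrix.replicateRow Unit (fun _ : Fin r => (1 : F)) := by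
    ext i j
    simp only [shiftM, Matrix.smul_apply, Matrix.of_apply, smul_eq_mul, Matrix.add_apply,
      Matrix.one_apply, Matrix.mul_apply, Matrix.replicateCol_apply, Matrix.replicateRow_apply,
      Finset.univ_unique, Finset.sum_singleton]
    split_ifs
    · norm_num
    · rw [zero_add, mul_one]; field_simp
  have h3 := congrArg Matrix.det h1
  rw [Matrix.det_smul, Matrix.det_one_add_replicateCol_mul_replicateRow, Fintype.card_fin] at h3
  rw [h3]
  simp [dotProduct, add_comm]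

variable {p : ℕ} [hp : Fact p.Prime]

lemma norm_sum_le_padic {ι : Type*} (s : Finset ι) (f : ι → ℚ_[p]) {r : ℝ} (hr : 0 ≤ r)
    (h : ∀ i ∈ s, ‖f i‖ ≤ r) : ‖∑ i ∈ s, f i‖ ≤ r := by
  classical
  induction s using Finset.induction_on with
  | empty => simpa using hr
  | insert a s ha ih =>
    rw [Finset.sum_insert ha]
    exact (Padic.nonarchimedean _ _).trans (max_le (h a (Finset.mem_insert_self _ _))
      (ih fun i hi => h i (Finset.mem_insert_of_mem hi)))

lemma norm_prod_sub_le {ι : Type*} (s : Finset ι) (f g : ι → ℚ_[p]) {R ε : ℝ} (hR : 0 ≤ R)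
    (hε : 0 ≤ ε) (hf : ∀ i ∈ s, ‖f i‖ ≤ R) (hg : ∀ i ∈ s, ‖g i‖ ≤ R)
    (hfg : ∀ i ∈ s, ‖f i - g i‖ ≤ ε) :
    ‖∏ i ∈ s, f i - ∏ i ∈ s, g i‖ * R ≤ ε * R ^ s.card := by
  classical
  induction s using Finset.induction_on with
  | empty => simp; exact hε
  | insert a s ha ih =>
    have ih' := ih (fun i hi => hf i (Finset.mem_insert_of_mem hi))
      (fun i hi => hg i (Finset.mem_insert_of_mem hi))
      (fun i hi => hfg i (Finset.mem_insert_of_mem hi))
    rw [Finset.prod_insert ha, Finset.prod_insert ha, Finset.card_insert_of_notMem ha]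
    have e : f a * ∏ i ∈ s, f i - g a * ∏ i ∈ s, g i =
        f a * (∏ i ∈ s, f i - ∏ i ∈ s, g i) + (f a - g a) * ∏ i ∈ s, g i := by ring
    have hprod : ‖∏ i ∈ s, g i‖ ≤ R ^ s.card := by
      rw [norm_prod]
      calc ∏ i ∈ s, ‖g i‖ ≤ ∏ _i ∈ s, R :=
            Finset.prod_le_prod (fun i _ => norm_nonneg _)
              (fun i hi => hg i (Finset.mem_insert_of_mem hi))
        _ = R ^ s.card := by rw [Finset.prod_const]
    have h1 : ‖f a * (∏ i ∈ s, f i - ∏ i ∈ s, g i)‖ * R ≤ ε * R ^ (s.card + 1) := by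
      rw [norm_mul]
      calc ‖f a‖ * ‖∏ i ∈ s, f i - ∏ i ∈ s, g i‖ * R =
            ‖f a‖ * (‖∏ i ∈ s, f i - ∏ i ∈ s, g i‖ * R) := by ring
        _ ≤ R * (ε * R ^ s.card) :=
            mul_le_mul (hf a (Finset.mem_insert_self _ _)) ih' (by positivity) hR
        _ = ε * R ^ (s.card + 1) := by ring
    have h2 : ‖(f a - g a) * ∏ i ∈ s, g i‖ * R ≤ ε * R ^ (s.card + 1) := by
      rw [norm_mul]
      calc ‖f a - g a‖ * ‖∏ i ∈ s, g i‖ * R ≤ ε * R ^ s.card * R := by
            gcongr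
            exact hfg a (Finset.mem_insert_self _ _)
        _ = ε * R ^ (s.card + 1) := by ring
    rw [e]
    rcases max_choice ‖f a * (∏ i ∈ s, f i - ∏ i ∈ s, g i)‖ ‖(f a - g a) * ∏ i ∈ s, g i‖ with hm | hm
    · refine (mul_le_mul_of_nonneg_right (Padic.nonarchimedean _ _) hR).trans ?_
      rw [hm]; exact h1
    · refine (mul_le_mul_of_nonneg_right (Padic.nonarchimedean _ _) hR).trans ?_
      rw [hm]; exact h2

/-- Perturbation of a determinant. -/
lemma norm_det_sub_le {r : ℕ} (A B : Matrix (Fin r) (Fin r) ℚ_[p]) {R ε : ℝ} (hR : 0 < R)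
    (hε : 0 ≤ ε) (hA : ∀ i j, ‖A i j‖ ≤ R) (hB : ∀ i j, ‖B i j‖ ≤ R)
    (hAB : ∀ i j, ‖A i j - B i j‖ ≤ ε) :
    ‖A.det - B.det‖ * R ≤ ε * R ^ r := by
  rw [Matrix.det_apply', Matrix.det_apply', ← Finset.sum_sub_distrib]
  have h1 : ‖∑ σ : Equiv.Perm (Fin r), (((Equiv.Perm.sign σ : ℤ) : ℚ_[p]) * ∏ i, A (σ i) i -
      ((Equiv.Perm.sign σ : ℤ) : ℚ_[p]) * ∏ i, B (σ i) i)‖ ≤ ε * R ^ r / R := by
    apply norm_sum_le_padic _ _ (by positivity)
    intro σ _
    rw [← mul_sub, norm_mul]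
    have hs : ‖((Equiv.Perm.sign σ : ℤ) : ℚ_[p])‖ ≤ 1 := Padic.norm_int_le_one _
    have h2 := norm_prod_sub_le Finset.univ (fun i => A (σ i) i) (fun i => B (σ i) i) hR.le hε
      (fun i _ => hA _ _) (fun i _ => hB _ _) (fun i _ => hAB _ _)
    rw [Finset.card_univ, Fintype.card_fin] at h2
    rw [le_div_iff₀ hR]
    calc ‖((Equiv.Perm.sign σ : ℤ) : ℚ_[p])‖ * ‖∏ i, A (σ i) i - ∏ i, B (σ i) i‖ * R
        ≤ 1 * ‖∏ i, A (σ i) i - ∏ i, B (σ i) i‖ * R := by gcongr
      _ = ‖∏ i, A (σ i) i - ∏ i, B (σ i) i‖ * R := by ring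
      _ ≤ ε * R ^ r := h2
  calc _ ≤ (ε * R ^ r / R) * R := mul_le_mul_of_nonneg_right h1 hR.le
    _ = ε * R ^ r := by field_simp

/-- Separated points where a polynomial is small bound its top coefficient. -/
lemma coeff_bound {r : ℕ} (Q : Polynomial ℚ_[p]) (hQ : Q.natDegree ≤ r) {ι : Type*} [DecidableEq ι]
    (s : Finset ι) (hs : s.card = r + 1) (v : ι → ℚ_[p]) {ε δ : ℝ} (hδ : 0 < δ) (hε : 0 ≤ ε)
    (hsep : ∀ i ∈ s, ∀ j ∈ s, i ≠ j → δ ≤ ‖v i - v j‖)
    (hsmall : ∀ i ∈ s, ‖Q.eval (v i)‖ ≤ ε) : ‖Q.coeff r‖ * δ ^ r ≤ ε := by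
  have hinj : Set.InjOn v s := by
    intro i hi j hj hij
    by_contra hne
    have := hsep i hi j hj hne
    rw [hij, sub_self, norm_zero] at this
    linarith
  have hdeg : Q.degree < s.card := by
    rw [hs]
    calc Q.degree ≤ (Q.natDegree : WithBot ℕ) := degree_le_natDegree
      _ < ((r + 1 : ℕ) : WithBot ℕ) := by exact_mod_cast Nat.lt_succ_of_le hQ
  have h1 := Lagrange.coeff_eq_sum hinj hdeg
  rw [hs, Nat.add_sub_cancel] at h1
  rw [h1]
  have h2 : ‖∑ i ∈ s, Q.eval (v i) / ∏ j ∈ s.erase i, (v i - v j)‖ ≤ ε / δ ^ r := by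
    apply norm_sum_le_padic _ _ (by positivity)
    intro i hi
    rw [norm_div, norm_prod]
    have h3 : δ ^ r ≤ ∏ j ∈ s.erase i, ‖v i - v j‖ := by
      have hc : (s.erase i).card = r := by rw [Finset.card_erase_of_mem hi, hs]; simp
      rw [← hc, ← Finset.prod_const]
      apply Finset.prod_le_prod
      · intro _ _; exact hδ.le
      · intro j hj
        rw [Finset.mem_erase] at hj
        exact hsep i hi j hj.2 hj.1.symm
    exact div_le_div₀ hε (hsmall i hi) (by positivity) h3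
  calc _ ≤ (ε / δ ^ r) * δ ^ r := mul_le_mul_of_nonneg_right h2 (by positivity)
    _ = ε := by field_simp

/-- A pencil of matrices. -/
lemma pencil {F : Type*} [Field F] {r : ℕ} (M G : Matrix (Fin r) (Fin r) F) (v : F) (hr : 1 ≤ r) :
    ∃ Q : Polynomial F, Q.natDegree ≤ r ∧ Q.coeff r = M.det ∧
      ∀ t, Q.eval t = (Matrix.of fun i j => G i j + t * M i j).det - v := by
  refine ⟨Matrix.det ((X : F[X]) • M.map C + G.map C) - C v, ?_, ?_, ?_⟩
  · refine (natDegree_sub_le _ _).trans (max_le ?_ ?_)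
    · have := natDegree_det_X_add_C_le M G
      rwa [Fintype.card_fin] at this
    · rw [natDegree_C]; omega
  · have := coeff_det_X_add_C_card M G
    rw [Fintype.card_fin] at this
    rw [coeff_sub, this, coeff_C, if_neg (by omega), sub_zero]
  · intro t
    rw [eval_sub, eval_C, ← coe_evalRingHom, RingHom.map_det]
    congr 2
    ext i j
    simp
    ring

end Pool.Agent.Lib.MP_3550b5_nt
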