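import Mathlib
import Pool.Agent.Lib.MP_3550b5_nt.DetLemmas
import Pool.Agent.Lib.MP_3550b5_nt.Family

namespace Pool.Agent.Lib.MP_3550b5_nt

open Finset

/-- The box. -/
noncomputable def box (n N : ℕ) : Finset (Fin n → ℤ) :=
  Fintype.piFinset fun _ => Finset.Icc (-(N : ℤ)) N

lemma mem_box {n N : ℕ} {z : Fin n → ℤ} : z ∈ box n N ↔ ∀ i, |z i| ≤ N := by
  simp [box, Fintype.mem_piFinset, abs_le]

lemma card_Icc_box (N : ℕ) : (Finset.Icc (-(N : ℤ)) N).card = 2 * N + 1 := by
  rw [Int.card_Icc]; omega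

lemma card_box (n N : ℕ) : (box n N).card = (2 * N + 1) ^ n := by
  rw [box, Fintype.card_piFinset, Finset.prod_const, card_Icc_box, Finset.card_univ,
    Fintype.card_fin]

/-- Zeros of a nonzero polynomial in the box. -/
lemma card_zeros_le {n N : ℕ} {F : MvPolynomial (Fin (n + 1)) ℤ} (hF : F ≠ 0) :
    ((box (n + 1) N).filter (fun z => MvPolynomial.eval z F = 0)).card ≤
      F.totalDegree * (2 * N + 1) ^ n := by
  have h := MvPolynomial.schwartz_zippel_totalDegree hF (Finset.Icc (-(N : ℤ)) N)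
  rw [card_Icc_box] at h
  have hpos : (0 : ℚ≥0) < ((2 * N + 1 : ℕ) : ℚ≥0) := by positivity
  rw [div_le_div_iff₀ (by positivity) hpos] at h
  have h2 : ((((box (n + 1) N).filter (fun z => MvPolynomial.eval z F = 0)).card *
      (2 * N + 1) : ℕ) : ℚ≥0) ≤ ((F.totalDegree * (2 * N + 1) ^ (n + 1) : ℕ) : ℚ≥0) := by
    push_cast at h ⊢
    exact h
  have h3 : ((box (n + 1) N).filter (fun z => MvPolynomial.eval z F = 0)).card * (2 * N + 1) ≤
      (F.totalDegree * (2 * N + 1) ^ n) * (2 * N + 1) := by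
    calc _ ≤ F.totalDegree * (2 * N + 1) ^ (n + 1) := by exact_mod_cast h2
      _ = _ := by ring
  exact Nat.le_of_mul_le_mul_right h3 (by positivity)

/-- Members of the interval in a residue class. -/
lemma card_residue_le {M N : ℕ} (hM : 0 < M) (S : Finset ℤ) (hS : ∀ x ∈ S, |x| ≤ N)
    (hc : ∀ x ∈ S, ∀ y ∈ S, x ≡ y [ZMOD M]) : S.card ≤ 2 * N / M + 1 := by
  have hMZ : (0 : ℤ) < M := by exact_mod_cast hM
  have hmaps : Set.MapsTo (fun x : ℤ => ((x + N) / M).toNat) (↑S : Set ℤ)
      (↑(Finset.range (2 * N / M + 1)) : Set ℕ) := by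
    intro x hx
    have b := hS x (Finset.mem_coe.mp hx)
    rw [abs_le] at b
    have h3 : (x + N) / M ≤ (2 * N : ℤ) / M := Int.ediv_le_ediv hMZ (by linarith)
    rw [Finset.mem_coe, Finset.mem_range, Int.toNat_lt' (Nat.succ_pos _)]
    push_cast
    linarith
  have hinj : Set.InjOn (fun x : ℤ => ((x + N) / M).toNat) (↑S : Set ℤ) := by
    intro x hx y hy heq
    have b := hS x (Finset.mem_coe.mp hx)
    have b' := hS y (Finset.mem_coe.mp hy)
    rw [abs_le] at b b'
    simp only at heq
    have n1 : 0 ≤ (x + N) / M := Int.ediv_nonneg (by linarith) hMZ.le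
    have n2 : 0 ≤ (y + N) / M := Int.ediv_nonneg (by linarith) hMZ.le
    have h4 : (x + N) / M = (y + N) / M := by omega
    have h5 := hc x (Finset.mem_coe.mp hx) y (Finset.mem_coe.mp hy)
    have h6 : (x + N) % M = (y + N) % M := h5.add_right _
    have h7 := Int.emod_add_mul_ediv (x + N) M
    have h8 := Int.emod_add_mul_ediv (y + N) M
    rw [h4, h6] at h7
    linarith
  have := Finset.card_le_card_of_injOn _ hmaps hinj
  simpa using this

/-- A one-variable polynomial is rarely divisible by a high power of `l`. -/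
lemma card_dvd_one {l : ℕ} (hl : l.Prime) {e j K' N : ℕ} (hN : l ^ j ≤ N) (Q : Polynomial ℤ)
    (hQ : Q.natDegree ≤ e) (hQe : ¬ (l : ℤ) ^ K' ∣ Q.coeff e) (S : Finset ℤ)
    (hS : ∀ x ∈ S, |x| ≤ N ∧ (l : ℤ) ^ (K' + j * e) ∣ Q.eval x) :
    S.card * l ^ j ≤ 3 * e * N := by
  classical
  have : Fact l.Prime := ⟨hl⟩
  have hl1 : 1 < l := hl.one_lt
  have hlR : (1 : ℝ) < l := by exact_mod_cast hl1
  have hl0 : (0 : ℝ) < l := by linarith
  have hM : 0 < l ^ j := by positivity
  have himg : (S.image (fun x : ℤ => x % ((l ^ j : ℕ) : ℤ))).card ≤ e := by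
    by_contra hcon
    push Not at hcon
    obtain ⟨U, hU1, hU2⟩ := Finset.exists_subset_card_eq (s := S.image (fun x : ℤ => x % ((l ^ j : ℕ) : ℤ)))
      (n := e + 1) hcon
    have hrep : ∀ u ∈ U, ∃ x ∈ S, x % ((l ^ j : ℕ) : ℤ) = u := fun u hu => by
      obtain ⟨x, hx, hxu⟩ := Finset.mem_image.mp (hU1 hu)
      exact ⟨x, hx, hxu⟩
    choose! f hf1 hf2 using hrep
    have hb := coeff_bound (p := l) (Q.map (Int.castRingHom ℚ_[l]))
      ((Polynomial.natDegree_map_le).trans hQ) U hU2 (fun u => ((f u : ℤ) : ℚ_[l]))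
      (ε := (l : ℝ) ^ (-((K' + j * e : ℕ) : ℤ))) (δ := (l : ℝ) ^ (-(j : ℤ)))
      (by positivity) (by positivity)
      (by
        intro u hu v hv hne
        by_contra hlt
        push Not at hlt
        apply hne
        rw [← hf2 u hu, ← hf2 v hv]
        have h1 : ‖((f u - f v : ℤ) : ℚ_[l])‖ ≤ (l : ℝ) ^ (-(j : ℤ)) := by
          push_cast; exact hlt.le
        rw [Padic.norm_int_le_pow_iff_dvd] at h1
        have h2 : f u ≡ f v [ZMOD ((l ^ j : ℕ) : ℤ)] := by
          apply Int.modEq_iff_dvd.mpr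
          have := dvd_neg.mpr h1
          simpa using this
        exact h2)
      (by
        intro u hu
        have h1 := (hS _ (hf1 u hu)).2
        have h2 : (Q.map (Int.castRingHom ℚ_[l])).eval ((f u : ℤ) : ℚ_[l]) =
            ((Q.eval (f u) : ℤ) : ℚ_[l]) := by
          rw [Polynomial.eval_intCast_map]; rfl
        rw [h2]
        exact (Padic.norm_int_le_pow_iff_dvd _ _).mpr (by exact_mod_cast h1))
    apply hQe
    rw [Polynomial.coeff_map] at hb
    have h3 : ‖((Q.coeff e : ℤ) : ℚ_[l])‖ ≤ (l : ℝ) ^ (-(K' : ℤ)) := by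
      have h4 : (l : ℝ) ^ (-((K' + j * e : ℕ) : ℤ)) =
          (l : ℝ) ^ (-(K' : ℤ)) * ((l : ℝ) ^ (-(j : ℤ))) ^ e := by
        rw [← zpow_natCast, ← zpow_mul, ← zpow_add₀ hl0.ne']
        congr 1
        push_cast
        ring
      rw [h4] at hb
      exact le_of_mul_le_mul_right hb (by positivity)
    exact_mod_cast (Padic.norm_int_le_pow_iff_dvd _ K').mp h3
  have h1 : S.card ≤ (2 * N / l ^ j + 1) * (S.image (fun x : ℤ => x % ((l ^ j : ℕ) : ℤ))).card := by
    apply Finset.card_le_mul_card_image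
    intro c _
    apply card_residue_le hM
    · intro x hx
      exact (hS x (Finset.mem_filter.mp hx).1).1
    · intro x hx y hy
      exact (Finset.mem_filter.mp hx).2.trans (Finset.mem_filter.mp hy).2.symm
  have h2 : (2 * N / l ^ j + 1) * l ^ j ≤ 3 * N := by
    have := Nat.div_mul_le_self (2 * N) (l ^ j)
    nlinarith
  calc S.card * l ^ j ≤ (2 * N / l ^ j + 1) * e * l ^ j := by
        gcongr
        exact h1.trans (Nat.mul_le_mul_left _ himg)
    _ = (2 * N / l ^ j + 1) * l ^ j * e := by ring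
    _ ≤ 3 * N * e := Nat.mul_le_mul_right _ h2
    _ = 3 * e * N := by ring

/-- A nonzero polynomial is rarely divisible by a high power of `l`. -/
theorem card_dvd_le {l : ℕ} (hl : l.Prime) : ∀ (n : ℕ) (F : MvPolynomial (Fin n) ℤ), F ≠ 0 →
    ∃ A : ℕ, ∀ j : ℕ, ∃ K : ℕ, ∀ N : ℕ, l ^ j ≤ N →
      ((box n N).filter (fun z => (l : ℤ) ^ K ∣ MvPolynomial.eval z F)).card * l ^ j ≤
        A * N ^ n := by
  classical
  intro n
  induction n with
  | zero =>
    intro F hF
    refine ⟨0, fun j => ?_⟩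
    -- `F` is a nonzero constant
    obtain ⟨c, hc⟩ : ∃ c : ℤ, F = MvPolynomial.C c :=
      ⟨_, MvPolynomial.eq_C_of_isEmpty F⟩
    have hc0 : c ≠ 0 := by
      rintro rfl
      apply hF
      rw [hc, map_zero]
    refine ⟨c.natAbs, fun N _ => ?_⟩
    have hempty : ((box 0 N).filter
        (fun z => (l : ℤ) ^ c.natAbs ∣ MvPolynomial.eval z F)) = ∅ := by
      apply Finset.filter_eq_empty_iff.mpr
      intro z _ hd
      rw [hc, MvPolynomial.eval_C] at hd
      have h1 := Int.natAbs_dvd_natAbs.mpr hd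
      rw [Int.natAbs_pow, Int.natAbs_natCast] at h1
      have h2 := Nat.le_of_dvd (Int.natAbs_pos.mpr hc0) h1
      have h3 := Nat.lt_pow_self (n := c.natAbs) hl.one_lt
      omega
    rw [hempty]
    simp
  | succ n ih =>
    intro F hF
    set G := MvPolynomial.finSuccEquiv ℤ n F with hG
    have hG0 : G ≠ 0 := by
      rw [hG]
      exact (map_ne_zero_iff _ (MvPolynomial.finSuccEquiv ℤ n).injective).mpr hF
    set e := G.natDegree with he
    have hg0 : G.coeff e ≠ 0 := by
      rw [he]
      exact Polynomial.leadingCoeff_ne_zero.mpr hG0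
    obtain ⟨A', hA'⟩ := ih (G.coeff e) hg0
    refine ⟨3 * A' + 3 * e * 3 ^ n, fun j => ?_⟩
    obtain ⟨K', hK'⟩ := hA' j
    refine ⟨K' + j * e, fun N hN => ?_⟩
    have hN1 : 1 ≤ N := le_trans (Nat.one_le_pow _ _ hl.pos) hN
    set Bad := (box (n + 1) N).filter (fun z => (l : ℤ) ^ (K' + j * e) ∣ MvPolynomial.eval z F)
      with hBad
    set P : (Fin (n + 1) → ℤ) → Prop :=
      fun z => (l : ℤ) ^ K' ∣ MvPolynomial.eval (Fin.tail z) (G.coeff e) with hP
    have hsplit := Finset.card_filter_add_card_filter_not (s := Bad) P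
    have htail : ∀ z ∈ Bad, Fin.tail z ∈ box n N := by
      intro z hz
      rw [hBad, Finset.mem_filter, mem_box] at hz
      rw [mem_box]
      exact fun i => hz.1 i.succ
    have hfib : ∀ (S : Finset (Fin (n + 1) → ℤ)) (s : Fin n → ℤ), (∀ z ∈ S, Fin.tail z = s) →
        (S.image (fun z => z 0)).card = S.card := by
      intro S s hs
      apply Finset.card_image_of_injOn
      intro z hz z' hz' h0
      have e1 := hs z (Finset.mem_coe.mp hz)
      have e2 := hs z' (Finset.mem_coe.mp hz')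
      rw [← Fin.cons_self_tail z, ← Fin.cons_self_tail z', e1, e2]
      simp only at h0
      rw [h0]
    -- first part
    have h1 : (Bad.filter P).card * l ^ j ≤ 3 * A' * N ^ (n + 1) := by
      have h2 : (Bad.filter P).card ≤ (2 * N + 1) *
          ((box n N).filter (fun s => (l : ℤ) ^ K' ∣ MvPolynomial.eval s (G.coeff e))).card := by
        apply Finset.card_le_mul_card_image_of_maps_to (f := Fin.tail)
        · intro z hz
          rw [Finset.mem_filter] at hz ⊢
          exact ⟨htail z hz.1, hz.2⟩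
        · intro s _
          rw [← hfib _ s (fun z hz => (Finset.mem_filter.mp hz).2), ← card_Icc_box N]
          apply Finset.card_le_card
          intro x hx
          obtain ⟨z, hz, rfl⟩ := Finset.mem_image.mp hx
          have h3 := (Finset.mem_filter.mp (Finset.mem_filter.mp (Finset.mem_filter.mp hz).1).1).1
          rw [mem_box] at h3
          rw [Finset.mem_Icc, ← abs_le]
          exact h3 0
      calc (Bad.filter P).card * l ^ j ≤ ((2 * N + 1) *
            ((box n N).filter (fun s => (l : ℤ) ^ K' ∣ MvPolynomial.eval s (G.coeff e))).card) *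
              l ^ j := Nat.mul_le_mul_right _ h2
        _ = (2 * N + 1) * (((box n N).filter
            (fun s => (l : ℤ) ^ K' ∣ MvPolynomial.eval s (G.coeff e))).card * l ^ j) := by ring
        _ ≤ (2 * N + 1) * (A' * N ^ n) := Nat.mul_le_mul_left _ (hK' N hN)
        _ ≤ (3 * N) * (A' * N ^ n) := Nat.mul_le_mul_right _ (by omega)
        _ = 3 * A' * N ^ (n + 1) := by ring
    -- second part
    have h2 : (Bad.filter (fun z => ¬ P z)).card * l ^ j ≤ 3 * e * 3 ^ n * N ^ (n + 1) := by
      have h3 : ∀ s ∈ (box n N).filter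
          (fun s => ¬ (l : ℤ) ^ K' ∣ MvPolynomial.eval s (G.coeff e)),
          ((Bad.filter (fun z => ¬ P z)).filter (fun z => Fin.tail z = s)).card ≤
            3 * e * N / l ^ j := by
        intro s hs
        rw [Finset.mem_filter] at hs
        rw [← hfib _ s (fun z hz => (Finset.mem_filter.mp hz).2)]
        rw [Nat.le_div_iff_mul_le (pow_pos hl.pos j)]
        apply card_dvd_one hl (K' := K') hN (G.map (MvPolynomial.eval s))
          (Polynomial.natDegree_map_le.trans he.ge)
        · rw [Polynomial.coeff_map]; exact hs.2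
        · intro x hx
          obtain ⟨z, hz, rfl⟩ := Finset.mem_image.mp hx
          have h4 := Finset.mem_filter.mp hz
          have h5 := Finset.mem_filter.mp (Finset.mem_filter.mp h4.1).1
          rw [mem_box] at h5
          refine ⟨h5.1 0, ?_⟩
          have h6 := h5.2
          rw [← Fin.cons_self_tail z, MvPolynomial.eval_eq_eval_mv_eval', h4.2] at h6
          exact h6
      have h4 : (Bad.filter (fun z => ¬ P z)).card ≤ (3 * e * N / l ^ j) * ((box n N).filter
          (fun s => ¬ (l : ℤ) ^ K' ∣ MvPolynomial.eval s (G.coeff e))).card := by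
        apply Finset.card_le_mul_card_image_of_maps_to (f := Fin.tail) _ _ h3
        intro z hz
        rw [Finset.mem_filter] at hz ⊢
        exact ⟨htail z hz.1, hz.2⟩
      have h5 : ((box n N).filter
          (fun s => ¬ (l : ℤ) ^ K' ∣ MvPolynomial.eval s (G.coeff e))).card ≤ (3 * N) ^ n := by
        refine (Finset.card_filter_le _ _).trans ?_
        rw [card_box]
        exact Nat.pow_le_pow_left (by omega) n
      calc (Bad.filter (fun z => ¬ P z)).card * l ^ j ≤
            ((3 * e * N / l ^ j) * (3 * N) ^ n) * l ^ j :=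
            Nat.mul_le_mul_right _ (h4.trans (Nat.mul_le_mul_left _ h5))
        _ = (3 * e * N / l ^ j) * l ^ j * (3 * N) ^ n := by ring
        _ ≤ (3 * e * N) * (3 * N) ^ n := Nat.mul_le_mul_right _ (Nat.div_mul_le_self _ _)
        _ = 3 * e * 3 ^ n * N ^ (n + 1) := by ring
    calc Bad.card * l ^ j = (Bad.filter P).card * l ^ j +
          (Bad.filter (fun z => ¬ P z)).card * l ^ j := by rw [← hsplit]; ring
      _ ≤ 3 * A' * N ^ (n + 1) + 3 * e * 3 ^ n * N ^ (n + 1) := Nat.add_le_add h1 h2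
      _ = (3 * A' + 3 * e * 3 ^ n) * N ^ (n + 1) := by ring

/-- Numbers composed of given primes. -/
lemma card_smooth_le (S : Finset ℕ) (B : ℕ) (T : Finset ℕ)
    (hT : ∀ g ∈ T, 0 < g ∧ g ≤ B ∧ ∀ l : ℕ, l.Prime → l ∣ g → l ∈ S) :
    T.card ≤ (Nat.log 2 B + 1) ^ S.card := by
  classical
  have hcard : (S.pi (fun _ => Finset.range (Nat.log 2 B + 1))).card =
      (Nat.log 2 B + 1) ^ S.card := by
    rw [Finset.card_pi, Finset.prod_const, Finset.card_range]
  rw [← hcard]
  apply Finset.card_le_card_of_injOn (fun g => fun l _ => g.factorization l)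
  · intro g hg
    obtain ⟨h1, h2, -⟩ := hT g (Finset.mem_coe.mp hg)
    rw [Finset.mem_coe, Finset.mem_pi]
    intro l _
    rw [Finset.mem_range, Nat.lt_succ_iff]
    by_cases hl : l.Prime
    · apply Nat.le_log_of_pow_le (by norm_num)
      calc 2 ^ g.factorization l ≤ l ^ g.factorization l := Nat.pow_le_pow_left hl.two_le _
        _ ≤ g := Nat.le_of_dvd h1 (Nat.ordProj_dvd g l)
        _ ≤ B := h2
    · simp only
      rw [Nat.factorization_eq_zero_of_not_prime _ hl]; exact Nat.zero_le _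
  · intro g hg g' hg' heq
    obtain ⟨h1, -, h3⟩ := hT g (Finset.mem_coe.mp hg)
    obtain ⟨h1', -, h3'⟩ := hT g' (Finset.mem_coe.mp hg')
    apply Nat.eq_of_factorization_eq h1.ne' h1'.ne'
    intro l
    by_cases hl : l ∈ S
    · exact congrFun (congrFun heq l) hl
    · have e1 : g.factorization l = 0 := by
        by_cases hlp : l.Prime
        · exact Nat.factorization_eq_zero_of_not_dvd (fun hd => hl (h3 l hlp hd))
        · exact Nat.factorization_eq_zero_of_not_prime _ hlp
      have e2 : g'.factorization l = 0 := by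
        by_cases hlp : l.Prime
        · exact Nat.factorization_eq_zero_of_not_dvd (fun hd => hl (h3' l hlp hd))
        · exact Nat.factorization_eq_zero_of_not_prime _ hlp
      rw [e1, e2]

/-- Polynomial growth. -/
lemma exists_growth {n : ℕ} (F : MvPolynomial (Fin n) ℤ) :
    ∃ C e : ℕ, ∀ N : ℕ, 1 ≤ N → ∀ z : Fin n → ℤ, (∀ i, |z i| ≤ N) →
      |MvPolynomial.eval z F| ≤ C * (N : ℤ) ^ e := by
  induction F using MvPolynomial.induction_on with
  | C c =>
    refine ⟨c.natAbs, 0, fun N _ z _ => ?_⟩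
    rw [MvPolynomial.eval_C]
    simp
  | add F G hF hG =>
    obtain ⟨C, e, h⟩ := hF
    obtain ⟨C', e', h'⟩ := hG
    refine ⟨C + C', e + e', fun N hN z hz => ?_⟩
    rw [map_add]
    have hN' : (1 : ℤ) ≤ N := by exact_mod_cast hN
    calc |MvPolynomial.eval z F + MvPolynomial.eval z G| ≤
          |MvPolynomial.eval z F| + |MvPolynomial.eval z G| := abs_add_le _ _
      _ ≤ C * (N : ℤ) ^ e + C' * (N : ℤ) ^ e' := add_le_add (h N hN z hz) (h' N hN z hz)
      _ ≤ C * (N : ℤ) ^ (e + e') + C' * (N : ℤ) ^ (e + e') := by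
          gcongr
          · omega
          · omega
      _ = ((C + C' : ℕ) : ℤ) * (N : ℤ) ^ (e + e') := by push_cast; ring
  | mul_X F i hF =>
    obtain ⟨C, e, h⟩ := hF
    refine ⟨C, e + 1, fun N hN z hz => ?_⟩
    rw [map_mul, MvPolynomial.eval_X, abs_mul, pow_succ, ← mul_assoc]
    exact mul_le_mul (h N hN z hz) (hz i) (abs_nonneg _) (by positivity)

end Pool.Agent.Lib.MP_3550b5_nt
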