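import Mathlib
import Pool.Agent.Lib.MP_3550b5_nt.NearBase
import Pool.Agent.Lib.MP_3550b5_nt.DetLemmas

namespace Pool.Agent.Lib.MP_3550b5_nt

variable {p : ℕ} [hp : Fact p.Prime]

/-- `h` is the height of the good point `(x, y)`. -/
def IsHt (p : ℕ) [Fact p.Prime] (a b x y : ℤ) (h : ℚ_[p]) : Prop :=
  GoodOrdinary p a b ∧ ∃ (P : (curve a b).Point) (B : (curve a b).Point → (curve a b).Point → ℚ_[p]),
    IsGoodPoint a b x y P ∧ IsCanonicalHeight p a b B ∧ B P P = h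

lemma IsHt.two_y_ne {a b x y : ℤ} {h : ℚ_[p]} (H : IsHt p a b x y h) : 2 * y ≠ 0 := by
  obtain ⟨-, P, B, ⟨⟨hh, rfl⟩, -, htor⟩, -, -⟩ := H
  exact two_y_ne_of_not_torsion hh htor

lemma IsHt.apparition {a b x y : ℤ} {h : ℚ_[p]} (H : IsHt p a b x y h) :
    ∃ m, 1 ≤ m ∧ m ≤ 2 * p + 1 ∧ (p : ℤ) ∣ Wseq a x y m := by
  obtain ⟨-, P, B, ⟨⟨hh, rfl⟩, -, htor⟩, -, -⟩ := H
  exact exists_apparition (multSeq_of_point hh (nsmul_ne_of_not_torsion htor)) p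

lemma IsHt.data (hp5 : 5 ≤ p) {a b x y : ℤ} {h : ℚ_[p]} (H : IsHt p a b x y h) {m : ℕ}
    (hm : 1 ≤ m) (hdvd : (p : ℤ) ∣ Wseq a x y m) :
    ∃ u : ℤ_[p], HtData p a b x y m u ∧ (m : ℚ_[p]) ^ 2 * h = ulog u := by
  obtain ⟨-, P, B, ⟨⟨hh, rfl⟩, hns, htor⟩, hB, rfl⟩ := H
  exact ht_of_point hp5 hns hh (nsmul_ne_of_not_torsion htor) hB hm hdvd

lemma IsHt.norm_le (hp5 : 5 ≤ p) {a b x y : ℤ} {h : ℚ_[p]} (H : IsHt p a b x y h) :
    ‖h‖ ≤ p := by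
  obtain ⟨m, hm1, hm2, hmd⟩ := H.apparition
  obtain ⟨u, hu, hhu⟩ := H.data hp5 hm1 hmd
  have h1 := norm_ulog_le (p := p) (by omega) (hu.isUnit hmd)
  rw [← hhu, norm_mul, norm_pow] at h1
  have hmn := norm_index_ge (p := p) hm1 (by nlinarith)
  have hp0 : (0 : ℝ) < p := by exact_mod_cast hp.out.pos
  have h2 : (p : ℝ)⁻¹ ^ 2 * ‖h‖ ≤ (p : ℝ)⁻¹ := by
    refine le_trans ?_ h1
    gcongr
  calc ‖h‖ = ((p : ℝ)⁻¹ ^ 2 * ‖h‖) * (p : ℝ) ^ 2 := by field_simp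
    _ ≤ (p : ℝ)⁻¹ * (p : ℝ) ^ 2 := by gcongr
    _ = p := by field_simp

/-- The shifted heights of congruent scaled points are close. -/
theorem IsHt.close (hp5 : 5 ≤ p) {a b x y a' b' x' y' : ℤ} {h h' : ℚ_[p]}
    (H : IsHt p a b x y h) (H' : IsHt p a' b' x' y' h') {l l' : ℤ}
    (hl : l ≡ 1 [ZMOD (p : ℤ)]) (hl' : l' ≡ 1 [ZMOD (p : ℤ)]) {k : ℕ} (hk : 1 ≤ k)
    (ea : l ^ 4 * a ≡ l' ^ 4 * a' [ZMOD (p : ℤ) ^ k])
    (eb : l ^ 6 * b ≡ l' ^ 6 * b' [ZMOD (p : ℤ) ^ k])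
    (ex : l ^ 2 * x ≡ l' ^ 2 * x' [ZMOD (p : ℤ) ^ k])
    (ey : l ^ 3 * y ≡ l' ^ 3 * y' [ZMOD (p : ℤ) ^ k]) :
    ‖(h - ulog (l : ℤ_[p])) - (h' - ulog (l' : ℤ_[p]))‖ ≤ (p : ℝ) ^ (-(k : ℤ)) * (p : ℝ) ^ 2 := by
  obtain ⟨q, hpq⟩ : ∃ q, p = 2 * q + 1 := by
    have := hp.out.odd_of_ne_two (by omega)
    obtain ⟨q, hq⟩ := this
    exact ⟨q, hq⟩
  have hq : 1 ≤ q := by omega
  obtain ⟨m, hm1, hm2, hmd⟩ := H.apparition
  have ea1 := modEq_of_scaled hk hl hl' ea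
  have ex1 := modEq_of_scaled hk hl hl' ex
  have ey1 := modEq_of_scaled hk hl hl' ey
  have hmd' : (p : ℤ) ∣ Wseq a' x' y' m := by
    have := Wseq_congr ea1 ex1 ey1 m
    exact Int.modEq_zero_iff_dvd.mp (this.symm.trans (Int.modEq_zero_iff_dvd.mpr hmd))
  obtain ⟨u, hu, hun⟩ := H.data hp5 hm1 hmd
  obtain ⟨u', hu', hun'⟩ := H'.data hp5 hm1 hmd'
  have key := ht_close hpq hq hm1 H.two_y_ne H'.two_y_ne hu hu' hmd hmd'
    (hasse_of_goodOrdinary hpq hq H.1) hl hl' hk ea eb ex ey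
  have hp0 : (0 : ℝ) < p := by exact_mod_cast hp.out.pos
  rw [← hun, ← hun'] at key
  have e : (m : ℚ_[p]) ^ 2 * h - (m : ℚ_[p]) ^ 2 * ulog (l : ℤ_[p]) -
      ((m : ℚ_[p]) ^ 2 * h' - (m : ℚ_[p]) ^ 2 * ulog (l' : ℤ_[p])) =
      (m : ℚ_[p]) ^ 2 * ((h - ulog (l : ℤ_[p])) - (h' - ulog (l' : ℤ_[p]))) := by ring
  rw [e, norm_mul, norm_pow] at key
  have hmn := norm_index_ge (p := p) hm1 (by nlinarith)
  have h2 : (p : ℝ)⁻¹ ^ 2 * ‖(h - ulog (l : ℤ_[p])) - (h' - ulog (l' : ℤ_[p]))‖ ≤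
      (p : ℝ) ^ (-(k : ℤ)) := by
    refine le_trans ?_ key
    gcongr
  calc ‖(h - ulog (l : ℤ_[p])) - (h' - ulog (l' : ℤ_[p]))‖
      = ((p : ℝ)⁻¹ ^ 2 * ‖(h - ulog (l : ℤ_[p])) - (h' - ulog (l' : ℤ_[p]))‖) * (p : ℝ) ^ 2 := by
        field_simp
    _ ≤ (p : ℝ) ^ (-(k : ℤ)) * (p : ℝ) ^ 2 := by gcongr

/-- The pairing as a homomorphism in the first variable. -/
noncomputable def IsCanonicalHeight.hom {a b : ℤ}
    {B : (curve a b).Point → (curve a b).Point → ℚ_[p]}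
    (hB : IsCanonicalHeight p a b B) (R : (curve a b).Point) : (curve a b).Point →+ ℚ_[p] :=
  AddMonoidHom.mk' (fun P => B P R) (fun P Q => hB.add P Q R)

lemma IsCanonicalHeight.sum {a b : ℤ} {B : (curve a b).Point → (curve a b).Point → ℚ_[p]}
    (hB : IsCanonicalHeight p a b B) {ι : Type*} (s : Finset ι) (f : ι → (curve a b).Point)
    (R : (curve a b).Point) : B (∑ i ∈ s, f i) R = ∑ i ∈ s, B (f i) R :=
  map_sum (hB.hom R) f s

lemma IsCanonicalHeight.sub_self {a b : ℤ} {B : (curve a b).Point → (curve a b).Point → ℚ_[p]}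
    (hB : IsCanonicalHeight p a b B) (P Q : (curve a b).Point) :
    B (P - Q) (P - Q) = B P P - 2 * B P Q + B Q Q := by
  have h1 : ∀ P Q R, B (P - Q) R = B P R - B Q R := fun P Q R => map_sub (hB.hom R) P Q
  rw [h1, hB.symm P, hB.symm Q, h1, h1, hB.symm Q P]
  ring

/-- The regulator of a family is a square multiple of the regulator of a basis. -/
lemma regulator_le_of_basis {a b : ℤ} {B : (curve a b).Point → (curve a b).Point → ℚ_[p]}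
    (hB : IsCanonicalHeight p a b B) {r : ℕ} {Q : Fin r → (curve a b).Point} (hQ : IsMWBasis Q)
    (P : Fin r → (curve a b).Point) : ‖regulator B P‖ ≤ ‖regulator B Q‖ := by
  choose N hN _ using fun i => hQ (P i)
  have hexp : ∀ i R, B (P i) R = ∑ k, (N i k : ℚ_[p]) * B (Q k) R := by
    intro i R
    have e : P i = (P i - ∑ k, N i k • Q k) + ∑ k, N i k • Q k := by abel
    rw [e, hB.add, hB.torsion (hN i), zero_add, hB.sum]
    exact Finset.sum_congr rfl fun k _ => hB.zsmul _ _ _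
  have hmat : (Matrix.of fun i j => B (P i) (P j)) =
      (Matrix.of fun i k => (N i k : ℚ_[p])) * (Matrix.of fun i j => B (Q i) (Q j)) *
        (Matrix.of fun i k => (N i k : ℚ_[p])).transpose := by
    ext i j
    simp only [Matrix.of_apply, Matrix.mul_apply, Matrix.transpose_apply]
    rw [hexp]
    simp_rw [Finset.sum_mul]
    rw [Finset.sum_comm]
    refine Finset.sum_congr rfl fun k _ => ?_
    rw [hB.symm, hexp, Finset.mul_sum]
    refine Finset.sum_congr rfl fun l _ => ?_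
    rw [hB.symm (Q l)]; ring
  have hdet : regulator B P = (Matrix.of fun i k => (N i k : ℚ_[p])).det *
      regulator B Q * (Matrix.of fun i k => (N i k : ℚ_[p])).det := by
    unfold regulator
    rw [hmat, Matrix.det_mul, Matrix.det_mul, Matrix.det_transpose]
  have hint : (Matrix.of fun i k => (N i k : ℚ_[p])).det =
      (((Matrix.of N).det : ℤ) : ℚ_[p]) := by
    have := (Int.castRingHom ℚ_[p]).map_det (Matrix.of N)
    simp only [eq_intCast] at this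
    rw [this]
    rfl
  rw [hdet, hint, norm_mul, norm_mul]
  have h1 : ‖(((Matrix.of N).det : ℤ) : ℚ_[p])‖ ≤ 1 := Padic.norm_int_le_one _
  calc _ ≤ 1 * ‖regulator B Q‖ * 1 := by gcongr
    _ = ‖regulator B Q‖ := by ring

end Pool.Agent.Lib.MP_3550b5_nt
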