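import Mathlib
import Pool.Agent.Lib.MP_3550b5_nt.Reg

namespace Pool.Agent.Lib.MP_3550b5_nt

variable {p : ℕ} [hp : Fact p.Prime]

/-- The Gram matrix of a curve with marked points. -/
lemma gram {r : ℕ} {v : ℚ_[p]} {K : ℕ} {a b : ℤ} {x y : Fin r → ℤ} {x' y' : Fin r → Fin r → ℤ}
    (H : RegulatorNear p v K a b x y x' y') :
    ∃ G : Matrix (Fin r) (Fin r) ℚ_[p], (∀ i j, G i j = G j i) ∧
      (∀ i, IsHt p a b (x i) (y i) (G i i)) ∧
      (∀ i j, i < j → IsHt p a b (x' i j) (y' i j) (G i i - 2 * G i j + G j j)) ∧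
      ‖G.det - v‖ ≤ (p : ℝ) ^ (-(K : ℤ)) := by
  obtain ⟨hord, P, hP, hPP, B, hB, hdet⟩ := H
  refine ⟨Matrix.of fun i j => B (P i) (P j), fun i j => hB.symm _ _, fun i => ?_,
    fun i j hij => ?_, ?_⟩
  · exact ⟨hord, P i, B, hP i, hB, rfl⟩
  · exact ⟨hord, P i - P j, B, hPP i j hij, hB, hB.sub_self _ _⟩
  · rcases hdet with h | ⟨hv, Q, hQ, hreg⟩
    · exact h
    · rw [hv, sub_zero]
      exact (regulator_le_of_basis hB hQ P).trans hreg

/-- Closeness of Gram matrices. -/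
lemma gram_close (hp5 : 5 ≤ p) {r : ℕ} {a b a' b' : ℤ} {x y : Fin r → ℤ}
    {x' y' : Fin r → Fin r → ℤ} {X Y : Fin r → ℤ} {X' Y' : Fin r → Fin r → ℤ}
    {G G' : Matrix (Fin r) (Fin r) ℚ_[p]} (hG : ∀ i j, G i j = G j i)
    (hG' : ∀ i j, G' i j = G' j i)
    (h1 : ∀ i, IsHt p a b (x i) (y i) (G i i))
    (h1' : ∀ i, IsHt p a' b' (X i) (Y i) (G' i i))
    (h2 : ∀ i j, i < j → IsHt p a b (x' i j) (y' i j) (G i i - 2 * G i j + G j j))
    (h2' : ∀ i j, i < j → IsHt p a' b' (X' i j) (Y' i j) (G' i i - 2 * G' i j + G' j j))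
    {l l' : ℤ} (hl : l ≡ 1 [ZMOD (p : ℤ)]) (hl' : l' ≡ 1 [ZMOD (p : ℤ)]) {k : ℕ} (hk : 1 ≤ k)
    (ea : l ^ 4 * a ≡ l' ^ 4 * a' [ZMOD (p : ℤ) ^ k])
    (eb : l ^ 6 * b ≡ l' ^ 6 * b' [ZMOD (p : ℤ) ^ k])
    (ex : ∀ i, l ^ 2 * x i ≡ l' ^ 2 * X i [ZMOD (p : ℤ) ^ k])
    (ey : ∀ i, l ^ 3 * y i ≡ l' ^ 3 * Y i [ZMOD (p : ℤ) ^ k])
    (ex' : ∀ i j, l ^ 2 * x' i j ≡ l' ^ 2 * X' i j [ZMOD (p : ℤ) ^ k])
    (ey' : ∀ i j, l ^ 3 * y' i j ≡ l' ^ 3 * Y' i j [ZMOD (p : ℤ) ^ k]) (i j : Fin r) :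
    ‖G i j - (G' i j + (ulog (l : ℤ_[p]) - ulog (l' : ℤ_[p])) * shiftM ℚ_[p] r i j)‖ ≤
      (p : ℝ) ^ (-(k : ℤ)) * (p : ℝ) ^ 2 := by
  set t : ℚ_[p] := ulog (l : ℤ_[p]) - ulog (l' : ℤ_[p]) with ht
  set ε : ℝ := (p : ℝ) ^ (-(k : ℤ)) * (p : ℝ) ^ 2 with hε
  have c1 : ∀ i, ‖G i i - G' i i - t‖ ≤ ε := by
    intro i
    have := (h1 i).close hp5 (h1' i) hl hl' hk ea eb (ex i) (ey i)
    have e : G i i - G' i i - t =
        (G i i - ulog (l : ℤ_[p])) - (G' i i - ulog (l' : ℤ_[p])) := by rw [ht]; ring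
    rw [e]; exact this
  have c2 : ∀ i j, i < j → ‖G i j - G' i j - t / 2‖ ≤ ε := by
    intro i j hij
    have := (h2 i j hij).close hp5 (h2' i j hij) hl hl' hk ea eb (ex' i j) (ey' i j)
    have e : G i j - G' i j - t / 2 = ((1 : ℚ_[p]) / 2) * ((G i i - G' i i - t) +
        ((G j j - G' j j - t) + -(((G i i - 2 * G i j + G j j) - ulog (l : ℤ_[p])) -
        ((G' i i - 2 * G' i j + G' j j) - ulog (l' : ℤ_[p]))))) := by
      rw [ht]; ring
    rw [e, norm_mul, norm_div, norm_one, norm_two_padic (by omega), div_one, one_mul]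
    refine (Padic.nonarchimedean _ _).trans (max_le (c1 i) ?_)
    refine (Padic.nonarchimedean _ _).trans (max_le (c1 j) ?_)
    rw [norm_neg]; exact this
  rcases lt_trichotomy i j with hij | hij | hij
  · have := c2 i j hij
    simp only [shiftM, Matrix.of_apply, if_neg hij.ne]
    rw [show G i j - (G' i j + t * (1 / 2)) = G i j - G' i j - t / 2 by ring]
    exact this
  · subst hij
    simp only [shiftM, Matrix.of_apply, if_true]
    rw [show G i i - (G' i i + t * 1) = G i i - G' i i - t by ring]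
    exact c1 i
  · have := c2 j i hij
    simp only [shiftM, Matrix.of_apply, if_neg hij.ne']
    rw [hG i j, hG' i j, show G j i - (G' j i + t * (1 / 2)) = G j i - G' j i - t / 2 by ring]
    exact this

lemma norm_shiftM_le (hp3 : 3 ≤ p) (r : ℕ) (i j : Fin r) : ‖shiftM ℚ_[p] r i j‖ ≤ 1 := by
  simp only [shiftM, Matrix.of_apply]
  split_ifs
  · rw [norm_one]
  · rw [norm_div, norm_one, norm_two_padic hp3, div_one]

lemma norm_det_shiftM (hp3 : 3 ≤ p) (r : ℕ) :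
    ‖(shiftM ℚ_[p] r).det‖ = (p : ℝ) ^ (-(padicValNat p (r + 1) : ℤ)) := by
  have h2 : (2 : ℚ_[p]) ≠ 0 := two_ne_zero
  have h3 := congrArg norm (det_shiftM ℚ_[p] h2 r)
  rw [norm_mul, norm_pow, norm_two_padic hp3, one_pow, one_mul] at h3
  rw [h3]
  have h4 := Padic.norm_eq_zpow_neg_valuation (p := p) (x := ((r + 1 : ℕ) : ℚ_[p])) (by
    exact_mod_cast Nat.succ_ne_zero r)
  rw [Padic.valuation_natCast, Nat.cast_succ] at h4
  exact h4

/-- Separation of the logarithms of incongruent one-units. -/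
lemma ulog_separated (hp3 : 3 ≤ p) {j j' : ℕ} {e : ℕ} (h : ¬ j ≡ j' [MOD p ^ e]) :
    (p : ℝ) ^ (-(e : ℤ)) ≤
    ‖ulog (((1 + (p : ℤ) * j : ℤ)) : ℤ_[p]) - ulog (((1 + (p : ℤ) * j' : ℤ)) : ℤ_[p])‖ := by
  by_contra hcon
  push Not at hcon
  apply h
  apply modEq_of_ulog_close hp3
  -- the norm is an integral power of `p`
  set s := ulog (((1 + (p : ℤ) * j : ℤ)) : ℤ_[p]) - ulog (((1 + (p : ℤ) * j' : ℤ)) : ℤ_[p])
  rcases eq_or_ne s 0 with h0 | hne
  · rw [h0, norm_zero]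
    have : (0 : ℝ) < p := by exact_mod_cast hp.out.pos
    positivity
  · have hp1 : (1 : ℝ) < p := by exact_mod_cast hp.out.one_lt
    rw [Padic.norm_eq_zpow_neg_valuation hne] at hcon ⊢
    have := (zpow_lt_zpow_iff_right₀ hp1).mp hcon
    exact zpow_le_zpow_right₀ hp1.le (by push_cast; omega)

/-- Fibre bound. -/
theorem fibre_bound (hp5 : 5 ≤ p) {n r : ℕ} (hr : 1 ≤ r) (w : Fin n → ℕ) {d : ℕ} (hd : 1 ≤ d)
    {fa fb : MvPolynomial (Fin n) ℤ} {fx fy : Fin r → MvPolynomial (Fin n) ℤ}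
    {gx gy : Fin r → Fin r → MvPolynomial (Fin n) ℤ}
    (ha : fa.IsWeightedHomogeneous w (4 * d)) (hb : fb.IsWeightedHomogeneous w (6 * d))
    (hx : ∀ i, (fx i).IsWeightedHomogeneous w (2 * d))
    (hy : ∀ i, (fy i).IsWeightedHomogeneous w (3 * d))
    (hx' : ∀ i j, (gx i j).IsWeightedHomogeneous w (2 * d))
    (hy' : ∀ i j, (gy i j).IsWeightedHomogeneous w (3 * d))
    (v : ℚ_[p]) (K e k : ℕ)
    (hk : k = r * (e + padicValNat p d + 1) + 2 + padicValNat p (r + 1)) (hkK : k ≤ K)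
    (E : Finset (Fin n → ℤ))
    (hN : ∀ z ∈ E, RegulatorNear p v K (MvPolynomial.eval z fa) (MvPolynomial.eval z fb)
      (fun i => MvPolynomial.eval z (fx i)) (fun i => MvPolynomial.eval z (fy i))
      (fun i j => MvPolynomial.eval z (gx i j)) (fun i j => MvPolynomial.eval z (gy i j)))
    (z₀ : Fin n → ℤ) (hz₀ : z₀ ∈ E) (j₀ : ℕ) (J : Finset ℕ)
    (hJ : ∀ j ∈ J, j < p ^ (k - 1) ∧ ∃ z ∈ E, residV (p ^ k) (scalV w (1 + (p : ℤ) * j) z) =
        residV (p ^ k) (scalV w (1 + (p : ℤ) * j₀) z₀)) :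
    J.card ≤ r * p ^ (k - 1 - e) := by
  classical
  have hp1 : 1 < p := hp.out.one_lt
  have hpR : (1 : ℝ) < p := by exact_mod_cast hp1
  have hp0 : (0 : ℝ) < p := by linarith
  set vd := padicValNat p d with hvd
  set vr := padicValNat p (r + 1) with hvr
  have hrle : r * (e + vd + 1) = r * e + r * vd + r := by ring
  have hkpos : 1 ≤ k := by omega
  have hre : e ≤ r * e := Nat.le_mul_of_pos_left e (by omega)
  have heK : e ≤ k - 1 := by omega
  set u : ℕ → ℚ_[p] := fun j => ulog (((1 + (p : ℤ) * j : ℤ)) : ℤ_[p]) with hu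
  have hunit : ∀ j : ℕ, IsUnit (((1 + (p : ℤ) * j : ℤ)) : ℤ_[p]) := by
    intro j
    obtain ⟨w1, hw1⟩ := exists_inv_of_modEq_one (p := p) (one_add_modEq (p := p) j)
    exact IsUnit.of_mul_eq_one _ hw1
  have hpow : ∀ j : ℕ, ulog ((((1 + (p : ℤ) * j) ^ d : ℤ)) : ℤ_[p]) = d * u j := by
    intro j
    rw [hu]
    simp only
    rw [← ulog_pow (hunit j)]; push_cast; rfl
  have hl : ∀ j : ℕ, (1 + (p : ℤ) * j) ^ d ≡ 1 [ZMOD (p : ℤ)] := by
    intro j
    have := (one_add_modEq (p := p) j).pow d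
    simpa using this
  obtain ⟨G₀, hG₀s, hG₀1, hG₀2, -⟩ := gram (hN z₀ hz₀)
  obtain ⟨Q, hQ1, hQ2, hQ3⟩ := pencil (shiftM ℚ_[p] r) G₀ v hr
  set T : ℕ → ℚ_[p] := fun j => (d : ℚ_[p]) * u j - (d : ℚ_[p]) * u j₀ with hT
  have hdn : ‖(d : ℚ_[p])‖ = (p : ℝ) ^ (-(vd : ℤ)) := by
    have h2 := Padic.norm_eq_zpow_neg_valuation (p := p) (x := ((d : ℕ) : ℚ_[p])) (by
      exact_mod_cast (by omega : d ≠ 0))
    rwa [Padic.valuation_natCast] at h2
  have hTn : ∀ j, ‖T j‖ ≤ 1 := by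
    intro j
    rw [hT]
    simp only
    have h1 : ∀ j, ‖(d : ℚ_[p]) * u j‖ ≤ 1 := by
      intro j
      rw [norm_mul]
      have h2 : ‖u j‖ ≤ (p : ℝ)⁻¹ := norm_ulog_le (by omega) (hunit j)
      have h3 : (p : ℝ)⁻¹ ≤ 1 := inv_p_lt_one.le
      calc ‖(d : ℚ_[p])‖ * ‖u j‖ ≤ 1 * 1 := by
            gcongr
            · exact norm_natCast_le_one' d
            · exact h2.trans h3
        _ = 1 := one_mul 1
    rw [sub_eq_add_neg]
    refine (Padic.nonarchimedean _ _).trans (max_le (h1 j) ?_)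
    rw [norm_neg]; exact h1 j₀
  have hGnorm : ∀ {a b : ℤ} {x y : Fin r → ℤ} {x' y' : Fin r → Fin r → ℤ}
      {G : Matrix (Fin r) (Fin r) ℚ_[p]}, (∀ i j, G i j = G j i) →
      (∀ i, IsHt p a b (x i) (y i) (G i i)) →
      (∀ i j, i < j → IsHt p a b (x' i j) (y' i j) (G i i - 2 * G i j + G j j)) →
      ∀ i j, ‖G i j‖ ≤ p := by
    intro a b x y x' y' G hs h1 h2 i j
    have c : ∀ i j, i < j → ‖G i j‖ ≤ p := by
      intro i j hij
      have e1 : G i j = (1 / 2) * (G i i + (G j j + -(G i i - 2 * G i j + G j j))) := by ring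
      rw [e1, norm_mul, norm_div, norm_one, norm_two_padic (by omega), div_one, one_mul]
      refine (Padic.nonarchimedean _ _).trans (max_le ((h1 i).norm_le hp5) ?_)
      refine (Padic.nonarchimedean _ _).trans (max_le ((h1 j).norm_le hp5) ?_)
      rw [norm_neg]; exact (h2 i j hij).norm_le hp5
    rcases lt_trichotomy i j with hij | hij | hij
    · exact c i j hij
    · subst hij; exact (h1 i).norm_le hp5
    · rw [hs]; exact c j i hij
  -- values of the polynomial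
  have hsmall : ∀ j ∈ J, ‖Q.eval (T j)‖ ≤ (p : ℝ) ^ ((r : ℤ) + 1 - (k : ℤ)) := by
    intro j hj
    obtain ⟨-, z, hz, hres⟩ := hJ j hj
    obtain ⟨G, hGs, hG1, hG2, hG3⟩ := gram (hN z hz)
    have conv : ∀ {f : MvPolynomial (Fin n) ℤ} {s : ℕ}, f.IsWeightedHomogeneous w (s * d) →
        ((1 + (p : ℤ) * j) ^ d) ^ s * MvPolynomial.eval z f ≡
        ((1 + (p : ℤ) * j₀) ^ d) ^ s * MvPolynomial.eval z₀ f [ZMOD (p : ℤ) ^ k] := by
      intro f s hf
      have h1 := eval_congr f hres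
      rw [eval_scalV hf, eval_scalV hf] at h1
      rw [← pow_mul, ← pow_mul, mul_comm d s]
      exact_mod_cast h1
    have hcl := gram_close hp5 hGs hG₀s hG1 hG₀1 hG2 hG₀2 (hl j) (hl j₀) hkpos (conv ha)
      (conv hb) (fun i => conv (hx i)) (fun i => conv (hy i)) (fun i j => conv (hx' i j))
      (fun i j => conv (hy' i j))
    rw [hpow, hpow] at hcl
    have hn1 := hGnorm hGs hG1 hG2
    have hn2 : ∀ i i', ‖(Matrix.of fun i i' => G₀ i i' + T j * shiftM ℚ_[p] r i i') i i'‖ ≤ p := by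
      intro i i'
      rw [Matrix.of_apply]
      refine (Padic.nonarchimedean _ _).trans (max_le (hGnorm hG₀s hG₀1 hG₀2 i i') ?_)
      rw [norm_mul]
      calc ‖T j‖ * ‖shiftM ℚ_[p] r i i'‖ ≤ 1 * 1 := by
            gcongr
            · exact hTn j
            · exact norm_shiftM_le (by omega) r i i'
        _ ≤ p := by linarith
    have hdet := norm_det_sub_le G (Matrix.of fun i i' => G₀ i i' + T j * shiftM ℚ_[p] r i i')
      hp0 (ε := (p : ℝ) ^ (-(k : ℤ)) * (p : ℝ) ^ 2) (by positivity) hn1 hn2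
      (fun i i' => hcl i i')
    have hdet2 : ‖G.det - (Matrix.of fun i i' => G₀ i i' + T j * shiftM ℚ_[p] r i i').det‖ ≤
        (p : ℝ) ^ ((r : ℤ) + 1 - (k : ℤ)) := by
      have h5 : (p : ℝ) ^ (-(k : ℤ)) * (p : ℝ) ^ 2 * (p : ℝ) ^ r =
          (p : ℝ) ^ ((r : ℤ) + 1 - (k : ℤ)) * p := by
        rw [show (p : ℝ) ^ 2 = (p : ℝ) ^ (2 : ℤ) by norm_cast,
          show (p : ℝ) ^ r = (p : ℝ) ^ (r : ℤ) by norm_cast, ← zpow_add₀ hp0.ne',
          ← zpow_add₀ hp0.ne', ← zpow_add_one₀ hp0.ne']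
        congr 1; ring
      rw [h5] at hdet
      exact le_of_mul_le_mul_right hdet hp0
    rw [hQ3]
    have e1 : (Matrix.of fun i i' => G₀ i i' + T j * shiftM ℚ_[p] r i i').det - v =
      (G.det - v) + -(G.det - (Matrix.of fun i i' => G₀ i i' + T j * shiftM ℚ_[p] r i i').det) := by
      ring
    rw [e1]
    refine (Padic.nonarchimedean _ _).trans (max_le ?_ (by rw [norm_neg]; exact hdet2))
    refine hG3.trans (zpow_le_zpow_right₀ hpR.le ?_)
    omega
  -- few classes modulo `p ^ e`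
  have himg : (J.image (fun j => j % p ^ e)).card ≤ r := by
    by_contra hcon
    push Not at hcon
    obtain ⟨S, hS1, hS2⟩ := Finset.exists_subset_card_eq (s := J.image (fun j => j % p ^ e))
      (n := r + 1) hcon
    have hrep : ∀ s ∈ S, ∃ j ∈ J, j % p ^ e = s := fun s hs => by
      obtain ⟨j, hj, hjs⟩ := Finset.mem_image.mp (hS1 hs)
      exact ⟨j, hj, hjs⟩
    choose! ρ hρ1 hρ2 using hrep
    have hb := coeff_bound Q hQ1 S hS2 (fun s => T (ρ s))
      (ε := (p : ℝ) ^ ((r : ℤ) + 1 - (k : ℤ))) (δ := (p : ℝ) ^ (-((vd + e : ℕ) : ℤ)))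
      (by positivity) (by positivity)
      (by
        intro s hs s' hs' hne
        have hnc : ¬ ρ s ≡ ρ s' [MOD p ^ e] := by
          intro hc
          apply hne
          rw [← hρ2 s hs, ← hρ2 s' hs']
          exact hc
        have h6 := ulog_separated (p := p) (by omega) hnc
        have e1 : T (ρ s) - T (ρ s') = (d : ℚ_[p]) * (u (ρ s) - u (ρ s')) := by
          rw [hT]; ring
        rw [e1, norm_mul, hdn]
        calc (p : ℝ) ^ (-((vd + e : ℕ) : ℤ)) = (p : ℝ) ^ (-(vd : ℤ)) * (p : ℝ) ^ (-(e : ℤ)) := by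
              rw [← zpow_add₀ hp0.ne']; congr 1; push_cast; ring
          _ ≤ _ := by gcongr)
      (fun s hs => hsmall _ (hρ1 s hs))
    rw [hQ2, norm_det_shiftM (by omega), ← zpow_natCast, ← zpow_mul, ← zpow_add₀ hp0.ne'] at hb
    have h7 := (zpow_le_zpow_iff_right₀ hpR).mp hb
    rw [hk] at h7
    push_cast at h7
    nlinarith
  -- conclusion
  have h8 : J.card ≤ p ^ (k - 1 - e) * (J.image (fun j => j % p ^ e)).card := by
    apply Finset.card_le_mul_card_image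
    intro s _
    apply card_class_le hp1 (k - 1) (k - 1 - e)
    · intro j hj
      exact (hJ j (Finset.mem_filter.mp hj).1).1
    · intro j hj j' hj'
      rw [show k - 1 - (k - 1 - e) = e by omega]
      exact (Finset.mem_filter.mp hj).2.trans (Finset.mem_filter.mp hj').2.symm
  calc J.card ≤ p ^ (k - 1 - e) * (J.image (fun j => j % p ^ e)).card := h8
    _ ≤ p ^ (k - 1 - e) * r := Nat.mul_le_mul_left _ himg
    _ = r * p ^ (k - 1 - e) := mul_comm _ _

/-- Small ball estimate for the regulators of a weighted homogeneous family. -/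
theorem regulator_bound (hp5 : 5 ≤ p) {n r : ℕ} (hr : 1 ≤ r) (w : Fin n → ℕ) {d : ℕ} (hd : 1 ≤ d)
    {fa fb : MvPolynomial (Fin n) ℤ} {fx fy : Fin r → MvPolynomial (Fin n) ℤ}
    {gx gy : Fin r → Fin r → MvPolynomial (Fin n) ℤ}
    (ha : fa.IsWeightedHomogeneous w (4 * d)) (hb : fb.IsWeightedHomogeneous w (6 * d))
    (hx : ∀ i, (fx i).IsWeightedHomogeneous w (2 * d))
    (hy : ∀ i, (fy i).IsWeightedHomogeneous w (3 * d))
    (hx' : ∀ i j, (gx i j).IsWeightedHomogeneous w (2 * d))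
    (hy' : ∀ i j, (gy i j).IsWeightedHomogeneous w (3 * d))
    (v : ℚ_[p]) (K : ℕ) (Z : Fin n → ℕ) (M : ℕ) (hM1 : 1 ≤ M) (hMZ : ∀ i, M ≤ Z i)
    (hMK : M ≤ p ^ K)
    (E : Finset (Fin n → ℤ)) (hE : ∀ z ∈ E, ∀ i, |z i| ≤ Z i)
    (hN : ∀ z ∈ E, RegulatorNear p v K (MvPolynomial.eval z fa) (MvPolynomial.eval z fb)
      (fun i => MvPolynomial.eval z (fx i)) (fun i => MvPolynomial.eval z (fy i))
      (fun i j => MvPolynomial.eval z (gx i j)) (fun i j => MvPolynomial.eval z (gy i j))) :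
    E.card ^ r * M ≤ (3 ^ n * r * ∏ i, Z i) ^ r *
      p ^ (2 * r + 2 + r * padicValNat p d + padicValNat p (r + 1)) := by
  have hp1 : 1 < p := hp.out.one_lt
  set vd := padicValNat p d with hvd
  set vr := padicValNat p (r + 1) with hvr
  set c₀ := r * (vd + 1) + 2 + vr with hc₀
  set L := Nat.log p M with hL
  have hL1 : p ^ L ≤ M := Nat.pow_log_le_self p (by omega)
  have hL2 : M < p ^ (L + 1) := Nat.lt_pow_succ_log_self hp1 M
  have hexp : r + c₀ = 2 * r + 2 + r * vd + vr := by rw [hc₀]; ring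
  rw [← hexp]
  rcases Nat.lt_or_ge L c₀ with hlt | hge
  · have h1 := boxV_card Z (fun i => hM1.trans (hMZ i)) E hE
    have h2 : E.card ≤ 3 ^ n * r * ∏ i, Z i := by
      calc E.card ≤ 3 ^ n * ∏ i, Z i := h1
        _ = 3 ^ n * 1 * ∏ i, Z i := by ring
        _ ≤ 3 ^ n * r * ∏ i, Z i := by gcongr
    have h3 : M ≤ p ^ (r + c₀) :=
      hL2.le.trans (Nat.pow_le_pow_right (by omega) (by omega))
    exact Nat.mul_le_mul (Nat.pow_le_pow_left h2 r) h3
  · set e := (L - c₀) / r with he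
    have he1 : r * e ≤ L - c₀ := Nat.mul_div_le _ _
    have he2 : L - c₀ < r * (e + 1) := Nat.lt_mul_div_succ _ (by omega)
    set k := r * (e + vd + 1) + 2 + vr with hk
    have hkc : k = r * e + c₀ := by rw [hk, hc₀]; ring
    have hkL : k ≤ L := by omega
    have hkK : k ≤ K := (Nat.pow_le_pow_iff_right hp1).mp
      ((Nat.pow_le_pow_right (by omega) hkL).trans (hL1.trans hMK))
    have hpk : p ^ k ≤ M := (Nat.pow_le_pow_right (by omega) hkL).trans hL1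
    have hsb := scaled_bound hp1 w k Z (fun i => hpk.trans (hMZ i)) E hE
      (r * p ^ (k - 1 - e)) (fun z₀ hz₀ j₀ _ J hJ =>
        fibre_bound hp5 hr w hd ha hb hx hy hx' hy' v K e k hk hkK E hN z₀ hz₀ j₀ J hJ)
    have hre : e ≤ r * e := Nat.le_mul_of_pos_left e (by omega)
    have hek : e ≤ k - 1 := by omega
    have h4 : E.card * p ^ e ≤ 3 ^ n * r * ∏ i, Z i := by
      have h5 : E.card * p ^ e * p ^ (k - 1 - e) ≤ (3 ^ n * r * ∏ i, Z i) * p ^ (k - 1 - e) := by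
        calc E.card * p ^ e * p ^ (k - 1 - e) = E.card * p ^ (k - 1) := by
              rw [mul_assoc, ← pow_add]; congr 2; omega
          _ ≤ 3 ^ n * (r * p ^ (k - 1 - e)) * ∏ i, Z i := hsb
          _ = (3 ^ n * r * ∏ i, Z i) * p ^ (k - 1 - e) := by ring
      exact Nat.le_of_mul_le_mul_right h5 (by positivity)
    have h6 : M ≤ p ^ (r * e) * p ^ (r + c₀) := by
      rw [← pow_add]
      refine hL2.le.trans (Nat.pow_le_pow_right (by omega) ?_)
      have : r * (e + 1) = r * e + r := by ring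
      omega
    calc E.card ^ r * M ≤ E.card ^ r * (p ^ (r * e) * p ^ (r + c₀)) := Nat.mul_le_mul_left _ h6
      _ = (E.card * p ^ e) ^ r * p ^ (r + c₀) := by
          rw [mul_pow, ← pow_mul, mul_comm e r]; ring
      _ ≤ (3 ^ n * r * ∏ i, Z i) ^ r * p ^ (r + c₀) :=
          Nat.mul_le_mul_right _ (Nat.pow_le_pow_left h4 r)

end Pool.Agent.Lib.MP_3550b5_nt
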