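import Mathlib
import Pool.Agent.Lib.MP_3550b5_nt.SHt

namespace Pool.Agent.Lib.MP_3550b5_nt

open PowerSeries

variable {p : ℕ} [hp : Fact p.Prime]

/-- `h` is the corrected height of the point `(A / D ^ 2, B / D ^ 3)`: it is computed by the
units attached to the multiples of index divisible by `c`. -/
def HtCl (p : ℕ) [Fact p.Prime] (a b A B D : ℤ) (c : ℕ) (h : ℚ_[p]) : Prop :=
  2 * B ≠ 0 ∧ (∃ m, 1 ≤ m ∧ m ≤ 2 * p + 1 ∧ (p : ℤ) ∣ Dn a A B D (m * c)) ∧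
  ∀ m, 1 ≤ m → (p : ℤ) ∣ Dn a A B D (m * c) →
    ∃ u : ℤ_[p], HtD p a b (An a A B D (m * c)) (Dn a A B D (m * c)) u ∧
      ((m * c : ℕ) : ℚ_[p]) ^ 2 * h = ulog u

lemma IsRep.ptX_eq {a b A B D : ℤ} {P : (curve a b).Point} (h : IsRep a b A B D P) :
    ptX P = (A : ℚ) / (D : ℚ) ^ 2 := by
  obtain ⟨-, hh, rfl⟩ := h
  rfl

lemma IsRep.ptY_eq {a b A B D : ℤ} {P : (curve a b).Point} (h : IsRep a b A B D P) :
    ptY P = (B : ℚ) / (D : ℚ) ^ 3 := by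
  obtain ⟨-, hh, rfl⟩ := h
  rfl

lemma Dn_mul {a b A B D A₁ B₁ D₁ G : ℤ} {P : (curve a b).Point} (hP : IsRep a b A B D P)
    (htor : ¬ IsOfFinAddOrder P) {c : ℕ} (hc : 1 ≤ c) (hQ : IsRep a b A₁ B₁ D₁ (c • P))
    (hG' : Dn a A B D c = G * D₁) (m : ℕ) :
    Dn a A B D (m * c) = G ^ (m ^ 2) * Dn a A₁ B₁ D₁ m := by
  have htor' : ¬ IsOfFinAddOrder (c • P) := by
    rw [isOfFinAddOrder_nsmul]; push Not; exact ⟨htor, by omega⟩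
  have h1 := Dn_eq_V (hP.multSeq htor) hP.1 (m * c)
  have h2 := Dn_eq_V (hQ.multSeq htor') hQ.1 m
  have h3 := (hP.multSeq htor).V_mul_mul c hc m
  have h4 := Dn_eq_V (hP.multSeq htor) hP.1 c
  have e1 : (fun n => ptX ((n * c) • P)) = (fun n => ptX (n • c • P)) := by
    funext n; rw [mul_smul]
  rw [hQ.ptX_eq, hQ.ptY_eq, e1] at h3
  rw [hG'] at h4
  have key : ((Dn a A B D (m * c) : ℤ) : ℚ) = ((G ^ (m ^ 2) * Dn a A₁ B₁ D₁ m : ℤ) : ℚ) := by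
    push_cast at h4 ⊢
    rw [h1, h2, ← h3]
    have e2 : (D : ℚ) ^ ((m * c) ^ 2) = ((D : ℚ) ^ (c ^ 2)) ^ (m ^ 2) := by
      rw [← pow_mul]; congr 1; ring
    rw [e2]
    calc ((D : ℚ) ^ (c ^ 2)) ^ (m ^ 2) * (Vseq ((A₁ : ℚ) / (D₁ : ℚ) ^ 2) ((B₁ : ℚ) / (D₁ : ℚ) ^ 3)
          (fun n => ptX (n • c • P)) m *
          Vseq ((A : ℚ) / (D : ℚ) ^ 2) ((B : ℚ) / (D : ℚ) ^ 3) (fun n => ptX (n • P)) c ^ m ^ 2)
        = ((D : ℚ) ^ (c ^ 2) *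
          Vseq ((A : ℚ) / (D : ℚ) ^ 2) ((B : ℚ) / (D : ℚ) ^ 3) (fun n => ptX (n • P)) c) ^ (m ^ 2) *
          Vseq ((A₁ : ℚ) / (D₁ : ℚ) ^ 2) ((B₁ : ℚ) / (D₁ : ℚ) ^ 3)
          (fun n => ptX (n • c • P)) m := by rw [mul_pow]; ring
      _ = _ := by rw [← h4, mul_pow]; ring
  exact_mod_cast key

lemma An_mul {a b A B D A₁ B₁ D₁ G : ℤ} {P : (curve a b).Point} (hP : IsRep a b A B D P)
    (htor : ¬ IsOfFinAddOrder P) {c : ℕ} (hc : 1 ≤ c) (hQ : IsRep a b A₁ B₁ D₁ (c • P))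
    (hG' : Dn a A B D c = G * D₁) (m : ℕ) (hm : 1 ≤ m) :
    An a A B D (m * c) = G ^ (2 * m ^ 2) * An a A₁ B₁ D₁ m := by
  have htor' : ¬ IsOfFinAddOrder (c • P) := by
    rw [isOfFinAddOrder_nsmul]; push Not; exact ⟨htor, by omega⟩
  have hmc : 1 ≤ m * c := Nat.mul_pos hm hc
  have h1 := X_eq_An (hP.multSeq htor) hP.1 (m * c) hmc
  have h2 := X_eq_An (hQ.multSeq htor') hQ.1 m hm
  rw [mul_smul, h2, Dn_mul hP htor hc hQ hG' m] at h1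
  have hG0 : (G : ℚ) ≠ 0 := by
    have := Dn_ne (hP.multSeq htor) hP.1 c hc
    rw [hG'] at this
    exact_mod_cast left_ne_zero_of_mul this
  have hd : ((Dn a A₁ B₁ D₁ m : ℤ) : ℚ) ≠ 0 := by
    exact_mod_cast Dn_ne (hQ.multSeq htor') hQ.1 m hm
  have key : ((An a A B D (m * c) : ℤ) : ℚ) = ((G ^ (2 * m ^ 2) * An a A₁ B₁ D₁ m : ℤ) : ℚ) := by
    push_cast at h1 ⊢
    rw [div_eq_div_iff (pow_ne_zero _ hd)
      (pow_ne_zero _ (mul_ne_zero (pow_ne_zero _ hG0) hd))] at h1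
    apply mul_right_cancel₀ (pow_ne_zero 2 hd)
    rw [← h1]
    rw [show (G : ℚ) ^ (2 * m ^ 2) = ((G : ℚ) ^ (m ^ 2)) ^ 2 by rw [← pow_mul]; congr 1; ring]
    ring
  exact_mod_cast key

/-- Corrected height of a point with a nonsingular multiple. -/
theorem htCl_of_mult (hp5 : 5 ≤ p) {a b A B D A₁ B₁ D₁ G : ℤ} {P : (curve a b).Point}
    (hP : IsRep a b A B D P) (htor : ¬ IsOfFinAddOrder P) {c : ℕ} (hc : 1 ≤ c)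
    (hQ : IsRep a b A₁ B₁ D₁ (c • P)) (hcop : IsCoprime (2 * B₁) (3 * A₁ ^ 2 + a * D₁ ^ 4))
    (hG' : Dn a A B D c = G * D₁) (hpG : ¬ (p : ℤ) ∣ G)
    {Bh : (curve a b).Point → (curve a b).Point → ℚ_[p]} (hB : IsCanonicalHeight p a b Bh) :
    HtCl p a b A B D c (Bh P P - ulog (G : ℤ_[p]) / (c : ℚ_[p]) ^ 2) := by
  have hpZ : Prime (p : ℤ) := Nat.prime_iff_prime_int.mp hp.out
  have htor' : ¬ IsOfFinAddOrder (c • P) := by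
    rw [isOfFinAddOrder_nsmul]; push Not; exact ⟨htor, by omega⟩
  have hdvd : ∀ m, (p : ℤ) ∣ Dn a A B D (m * c) ↔ (p : ℤ) ∣ Dn a A₁ B₁ D₁ m := by
    intro m
    rw [Dn_mul hP htor hc hQ hG' m]
    constructor
    · intro h
      rcases hpZ.dvd_or_dvd h with h | h
      · exact absurd (hpZ.dvd_of_dvd_pow h) hpG
      · exact h
    · intro h
      exact Dvd.dvd.mul_left h _
  refine ⟨hP.B_ne htor, ?_, ?_⟩
  · obtain ⟨m, h1, h2, h3⟩ := exists_apparition ((hQ.multSeq htor').toInt hQ.1) p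
    refine ⟨m, h1, h2, ?_⟩
    rw [hdvd, Dn]
    exact Dvd.dvd.mul_left h3 _
  · intro m hm hd
    rw [hdvd] at hd
    obtain ⟨u, ⟨c', W, V, Om, S, Z, β, βi, hS, hBeq, hBi, hu⟩, hlog⟩ :=
      ht_of_rep hp5 hQ htor' hcop hB hm hd
    have huU : IsUnit u := HtD.isUnit ⟨c', W, V, Om, S, Z, β, βi, hS, hBeq, hBi, hu⟩ hd
    obtain ⟨Gi, hGi⟩ : ∃ Gi : ℤ_[p], (G : ℤ_[p]) * Gi = 1 := by
      obtain ⟨u, hu⟩ := isUnit_intCast hpG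
      exact ⟨↑u⁻¹, by rw [← hu]; exact u.mul_inv⟩
    have hGp : ∀ n : ℕ, (G : ℤ_[p]) ^ n * Gi ^ n = 1 := fun n => by rw [← mul_pow, hGi, one_pow]
    have hGU : IsUnit (G : ℤ_[p]) := isUnit_intCast hpG
    have hGiU : IsUnit Gi := IsUnit.of_mul_eq_one _ (by rw [mul_comm]; exact hGi)
    rw [Dn_mul hP htor hc hQ hG' m, An_mul hP htor hc hQ hG' m hm]
    refine ⟨Gi ^ (m ^ 2) * u, ⟨c', W, V, Om, S, Z, G ^ (3 * m ^ 2) * β, Gi ^ (3 * m ^ 2) * βi, hS,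
      ?_, ?_, ?_⟩, ?_⟩
    · rw [mul_pow, hBeq]
      rw [show (G : ℤ) ^ (3 * m ^ 2) = (G ^ (m ^ 2)) ^ 3 by rw [← pow_mul]; congr 1; ring,
        show (G : ℤ) ^ (2 * m ^ 2) = (G ^ (m ^ 2)) ^ 2 by rw [← pow_mul]; congr 1; ring]
      ring
    · push_cast
      linear_combination (hGp (3 * m ^ 2)) * ((β : ℤ_[p]) * βi) + hBi
    · push_cast
      have earg : -((G : ℤ_[p]) ^ (2 * m ^ 2) * ((An a A₁ B₁ D₁ m : ℤ) : ℤ_[p]) *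
          ((G : ℤ_[p]) ^ (m ^ 2) * ((Dn a A₁ B₁ D₁ m : ℤ) : ℤ_[p])) * (Gi ^ (3 * m ^ 2) * βi)) =
          -(((An a A₁ B₁ D₁ m : ℤ) : ℤ_[p]) * ((Dn a A₁ B₁ D₁ m : ℤ) : ℤ_[p]) * βi) := by
        have h1 := hGp (3 * m ^ 2)
        rw [show (G : ℤ_[p]) ^ (3 * m ^ 2) = G ^ (2 * m ^ 2) * G ^ (m ^ 2) by
          rw [← pow_add]; congr 1; ring] at h1
        linear_combination (-(((An a A₁ B₁ D₁ m : ℤ) : ℤ_[p]) *
          ((Dn a A₁ B₁ D₁ m : ℤ) : ℤ_[p]) * βi)) * h1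
      rw [earg, hu]
      have h2 := hGp (2 * m ^ 2)
      rw [show Gi ^ (3 * m ^ 2) = Gi ^ (2 * m ^ 2) * Gi ^ (m ^ 2) by
        rw [← pow_add]; congr 1; ring]
      linear_combination (-(Gi ^ (m ^ 2) * (((An a A₁ B₁ D₁ m : ℤ) : ℤ_[p]) * βi *
        ev S (-(((An a A₁ B₁ D₁ m : ℤ) : ℤ_[p]) * ((Dn a A₁ B₁ D₁ m : ℤ) : ℤ_[p]) * βi))))) * h2
    · rw [ulog_mul (hGiU.pow _) huU, ulog_pow hGiU, ← hlog]
      have hlogG : ulog (G : ℤ_[p]) + ulog Gi = 0 := by rw [← ulog_mul hGU hGiU, hGi, ulog_one]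
      have hc0 : (c : ℚ_[p]) ≠ 0 := by exact_mod_cast (by omega : c ≠ 0)
      have hz : Bh (c • P) (c • P) = (c : ℚ_[p]) ^ 2 * Bh P P := by
        rw [hB.nsmul, hB.symm, hB.nsmul]; ring
      rw [hz]
      push_cast
      field_simp
      linear_combination (-((m : ℚ_[p]) ^ 2)) * hlogG

/-- Scaled data. -/
lemma scaled_htD {a b A B D : ℤ} {m : ℕ} (hm : 1 ≤ m) {v : ℤ_[p]} (hy0 : 2 * B ≠ 0)
    (h : HtD p a b (An a A B D m) (Dn a A B D m) v) {l μ : ℤ} {u w : ℤ_[p]}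
    (hlu : (l : ℤ_[p]) * u = 1) (hμw : (μ : ℤ_[p]) * w = 1) :
    ∃ (c : ℤ_[p]) (W V Om S Z : ℤ_[p]⟦X⟧) (β Bi : ℤ_[p]),
    SigmaData p ((l ^ 4 * a : ℤ) : ℤ_[p]) ((l ^ 6 * b : ℤ) : ℤ_[p]) c W V Om S Z ∧
    β ^ 2 = ((An (l ^ 4 * a) (l ^ 2 * μ ^ 2 * A) (l ^ 3 * μ ^ 3 * B) (μ * D) m : ℤ) : ℤ_[p]) ^ 3 +
      ((l ^ 4 * a : ℤ) : ℤ_[p]) *
        ((An (l ^ 4 * a) (l ^ 2 * μ ^ 2 * A) (l ^ 3 * μ ^ 3 * B) (μ * D) m : ℤ) : ℤ_[p]) *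
        ((Dn (l ^ 4 * a) (l ^ 2 * μ ^ 2 * A) (l ^ 3 * μ ^ 3 * B) (μ * D) m : ℤ) : ℤ_[p]) ^ 4 +
      ((l ^ 6 * b : ℤ) : ℤ_[p]) *
        ((Dn (l ^ 4 * a) (l ^ 2 * μ ^ 2 * A) (l ^ 3 * μ ^ 3 * B) (μ * D) m : ℤ) : ℤ_[p]) ^ 6 ∧
    β * Bi = 1 ∧
    ((An (l ^ 4 * a) (l ^ 2 * μ ^ 2 * A) (l ^ 3 * μ ^ 3 * B) (μ * D) m : ℤ) : ℤ_[p]) * Bi *
      ev S (-(((An (l ^ 4 * a) (l ^ 2 * μ ^ 2 * A) (l ^ 3 * μ ^ 3 * B) (μ * D) m : ℤ) : ℤ_[p]) *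
        ((Dn (l ^ 4 * a) (l ^ 2 * μ ^ 2 * A) (l ^ 3 * μ ^ 3 * B) (μ * D) m : ℤ) : ℤ_[p]) * Bi)) =
      (u * w) ^ (m ^ 2) * v := by
  obtain ⟨c, W, V, Om, S, Z, β, Bi, hS, hB, hBi, hu⟩ := h
  have hl0 : l ≠ 0 := by rintro rfl; simp at hlu
  have hμ0 : μ ≠ 0 := by rintro rfl; simp at hμw
  have hlμ0 : l * μ ≠ 0 := mul_ne_zero hl0 hμ0
  have hlun : ∀ n : ℕ, ((l : ℤ_[p]) * μ) ^ n * (u * w) ^ n = 1 := fun n => by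
    rw [← mul_pow, show (l : ℤ_[p]) * μ * (u * w) = (l * u) * (μ * w) by ring, hlu, hμw, one_mul,
      one_pow]
  obtain ⟨k, hk⟩ : ∃ k, m ^ 2 = k + 1 := ⟨m ^ 2 - 1, by
      have : 1 ≤ m ^ 2 := Nat.one_le_pow _ _ hm
      omega⟩
  have hA : An (l ^ 4 * a) (l ^ 2 * μ ^ 2 * A) (l ^ 3 * μ ^ 3 * B) (μ * D) m =
      (l * μ) ^ (2 * m ^ 2) * An a A B D m := by
    have := Aseq_scale (l * μ) (a * D ^ 4) A B hlμ0 hy0 m hm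
    rw [An, An, ← this]
    congr 1 <;> ring
  have hW : Dn (l ^ 4 * a) (l ^ 2 * μ ^ 2 * A) (l ^ 3 * μ ^ 3 * B) (μ * D) m =
      μ * ((l * μ) ^ k * Dn a A B D m) := by
    have := Wseq_scale' (l * μ) (a * D ^ 4) A B hlμ0 hy0 m hm
    rw [hk, Nat.add_sub_cancel] at this
    have e1 : Wseq (l ^ 4 * a * (μ * D) ^ 4) (l ^ 2 * μ ^ 2 * A) (l ^ 3 * μ ^ 3 * B) m =
        Wseq ((l * μ) ^ 4 * (a * D ^ 4)) ((l * μ) ^ 2 * A) ((l * μ) ^ 3 * B) m := by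
      congr 1 <;> ring
    rw [Dn, Dn, e1, this]
    ring
  set α := An a A B D m with hα
  set δ := Dn a A B D m with hδ
  have hres := hS.rescale (l : ℤ_[p])
  refine ⟨_, _, _, _, _, _, ((l : ℤ_[p]) * μ) ^ (3 * m ^ 2) * (β : ℤ_[p]),
    (u * w) ^ (3 * m ^ 2) * Bi, by push_cast; exact hres, ?_, ?_, ?_⟩
  · rw [hA, hW]
    have hB' := congrArg (fun z : ℤ => (z : ℤ_[p])) hB
    push_cast at hB' ⊢
    rw [hk]
    rw [show ((l : ℤ_[p]) * μ) ^ (3 * (k + 1)) = (((l : ℤ_[p]) * μ) ^ k * (l * μ)) ^ 3 by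
        rw [← pow_succ, ← pow_mul]; congr 1; ring,
      show ((l : ℤ_[p]) * μ) ^ (2 * (k + 1)) = (((l : ℤ_[p]) * μ) ^ k * (l * μ)) ^ 2 by
        rw [← pow_succ, ← pow_mul]; congr 1; ring]
    linear_combination ((((l : ℤ_[p]) * μ) ^ k * (l * μ)) ^ 6) * hB'
  · linear_combination (hlun (3 * m ^ 2)) * ((β : ℤ_[p]) * Bi) + hBi
  · rw [hA, hW]
    push_cast
    rw [hk, ev_rescale]
    have e3 : ((l : ℤ_[p]) * μ) ^ (2 * (k + 1)) = (((l : ℤ_[p]) * μ) ^ (k + 1)) ^ 2 := by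
        rw [← pow_mul]; congr 1; ring
    have e4 : (u * w) ^ (3 * (k + 1)) = ((u * w) ^ (k + 1)) ^ 3 := by
        rw [← pow_mul]; congr 1; ring
    have e5 := hlun (k + 1)
    set Λ := ((l : ℤ_[p]) * μ) ^ (k + 1) with hΛ
    set Υ := (u * w) ^ (k + 1) with hΥ
    have e6 : (l : ℤ_[p]) * (μ * ((l * μ) ^ k * (δ : ℤ_[p]))) = Λ * δ := by
      rw [hΛ, pow_succ]; ring
    have e5' : (Λ * Υ) ^ 2 = 1 := by rw [e5, one_pow]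
    have e5'' : (Λ * Υ) ^ 3 = 1 := by rw [e5, one_pow]
    have earg : (l : ℤ_[p]) * -(((l : ℤ_[p]) * μ) ^ (2 * (k + 1)) * (α : ℤ_[p]) *
        ((μ : ℤ_[p]) * (((l : ℤ_[p]) * μ) ^ k * (δ : ℤ_[p]))) * ((u * w) ^ (3 * (k + 1)) * Bi)) =
        -((α : ℤ_[p]) * (δ : ℤ_[p]) * Bi) := by
      rw [e3, e4]
      linear_combination (-(Λ ^ 2 * (α : ℤ_[p]) * Υ ^ 3 * Bi)) * e6 -
        ((α : ℤ_[p]) * (δ : ℤ_[p]) * Bi) * e5''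
    rw [earg, e3, e4, hu]
    linear_combination (Υ * ((α : ℤ_[p]) * Bi * ev S (-((α : ℤ_[p]) * (δ : ℤ_[p]) * Bi)))) * e5'

lemma Dn_congr {N : ℤ} {a A B D a' A' B' D' : ℤ} (ha : a ≡ a' [ZMOD N]) (hA : A ≡ A' [ZMOD N])
    (hB : B ≡ B' [ZMOD N]) (hD : D ≡ D' [ZMOD N]) (n : ℕ) :
    Dn a A B D n ≡ Dn a' A' B' D' n [ZMOD N] :=
  hD.mul (Wseq_congr (ha.mul (hD.pow 4)) hA hB n)

lemma An_congr {N : ℤ} {a A B D a' A' B' D' : ℤ} (ha : a ≡ a' [ZMOD N]) (hA : A ≡ A' [ZMOD N])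
    (hB : B ≡ B' [ZMOD N]) (hD : D ≡ D' [ZMOD N]) (n : ℕ) :
    An a A B D n ≡ An a' A' B' D' n [ZMOD N] :=
  Aseq_congr (ha.mul (hD.pow 4)) hA hB n

/-- The shifted logarithms of the units of two congruent scaled points are close. -/
theorem htD_close {q : ℕ} (hpq : p = 2 * q + 1) (hq : 1 ≤ q) {a b A B D a' b' A' B' D' : ℤ}
    {m : ℕ} (hm : 1 ≤ m) {v v' : ℤ_[p]} (hy0 : 2 * B ≠ 0) (hy0' : 2 * B' ≠ 0)
    (h : HtD p a b (An a A B D m) (Dn a A B D m) v)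
    (h' : HtD p a' b' (An a' A' B' D' m) (Dn a' A' B' D' m) v')
    (hD : (p : ℤ) ∣ Dn a A B D m) (hD' : (p : ℤ) ∣ Dn a' A' B' D' m)
    (hA : (hasseRev (PadicInt.toZMod (p := p) (a : ℤ_[p]))
      (PadicInt.toZMod (p := p) (b : ℤ_[p])) q).coeff q ≠ 0)
    {l l' μ μ' : ℤ} (hl : l ≡ 1 [ZMOD (p : ℤ)]) (hl' : l' ≡ 1 [ZMOD (p : ℤ)])
    (hμ : μ ≡ 1 [ZMOD (p : ℤ)]) (hμ' : μ' ≡ 1 [ZMOD (p : ℤ)]) {k : ℕ} (hk : 1 ≤ k)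
    (ea : l ^ 4 * a ≡ l' ^ 4 * a' [ZMOD (p : ℤ) ^ k])
    (eb : l ^ 6 * b ≡ l' ^ 6 * b' [ZMOD (p : ℤ) ^ k])
    (eA : l ^ 2 * μ ^ 2 * A ≡ l' ^ 2 * μ' ^ 2 * A' [ZMOD (p : ℤ) ^ k])
    (eB : l ^ 3 * μ ^ 3 * B ≡ l' ^ 3 * μ' ^ 3 * B' [ZMOD (p : ℤ) ^ k])
    (eD : μ * D ≡ μ' * D' [ZMOD (p : ℤ) ^ k]) :
    ‖(ulog v - (m : ℚ_[p]) ^ 2 * (ulog (l : ℤ_[p]) + ulog (μ : ℤ_[p]))) -
      (ulog v' - (m : ℚ_[p]) ^ 2 * (ulog (l' : ℤ_[p]) + ulog (μ' : ℤ_[p])))‖ ≤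
      (p : ℝ) ^ (-(k : ℤ)) := by
  have hp3 : 3 ≤ p := by omega
  have hv := h.isUnit hD
  have hv' := h'.isUnit hD'
  obtain ⟨u, hlu⟩ := exists_inv_of_modEq_one (p := p) hl
  obtain ⟨u', hlu'⟩ := exists_inv_of_modEq_one (p := p) hl'
  obtain ⟨w, hμw⟩ := exists_inv_of_modEq_one (p := p) hμ
  obtain ⟨w', hμw'⟩ := exists_inv_of_modEq_one (p := p) hμ'
  obtain ⟨c, W, V, Om, S, Z, β, Bi, hS, hB, hBi, hu⟩ := scaled_htD hm hy0 h hlu hμw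
  obtain ⟨c', W', V', Om', S', Z', β', Bi', hS', hB', hBi', hu'⟩ :=
    scaled_htD hm hy0' h' hlu' hμw'
  have hA2 : (hasseRev (PadicInt.toZMod (p := p) ((l ^ 4 * a : ℤ) : ℤ_[p]))
      (PadicInt.toZMod (p := p) ((l ^ 6 * b : ℤ) : ℤ_[p])) q).coeff q ≠ 0 := by
    have hl1 : (l : ZMod p) = 1 := by
      have := (ZMod.intCast_eq_intCast_iff l 1 p).mpr hl
      simpa using this
    push_cast
    simp only [map_mul, map_pow, map_intCast, hl1, one_pow, one_mul] at hA ⊢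
    exact hA
  have hred : ∀ {l μ a A B D : ℤ}, l ≡ 1 [ZMOD (p : ℤ)] → μ ≡ 1 [ZMOD (p : ℤ)] →
      Dn (l ^ 4 * a) (l ^ 2 * μ ^ 2 * A) (l ^ 3 * μ ^ 3 * B) (μ * D) m ≡
        Dn a A B D m [ZMOD (p : ℤ)] := by
    intro l μ a A B D hl hμ
    apply Dn_congr
    · simpa using (hl.pow 4).mul_right a
    · simpa using ((hl.pow 2).mul (hμ.pow 2)).mul_right A
    · simpa using ((hl.pow 3).mul (hμ.pow 3)).mul_right B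
    · simpa using hμ.mul_right D
  have hnD : ‖((Dn (l ^ 4 * a) (l ^ 2 * μ ^ 2 * A) (l ^ 3 * μ ^ 3 * B) (μ * D) m : ℤ) : ℤ_[p])‖
      < 1 := by
    rw [PadicInt.norm_int_lt_one_iff_dvd]
    exact Int.modEq_zero_iff_dvd.mp ((hred hl hμ).trans (Int.modEq_zero_iff_dvd.mpr hD))
  have hnD' : ‖((Dn (l' ^ 4 * a') (l' ^ 2 * μ' ^ 2 * A') (l' ^ 3 * μ' ^ 3 * B') (μ' * D') m : ℤ) :
      ℤ_[p])‖ < 1 := by
    rw [PadicInt.norm_int_lt_one_iff_dvd]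
    exact Int.modEq_zero_iff_dvd.mp ((hred hl' hμ').trans (Int.modEq_zero_iff_dvd.mpr hD'))
  have key := core_congr hpq hq k hS hS' (norm_sub_le_of_modEq ea) (norm_sub_le_of_modEq eb) hA2
    (norm_sub_le_of_modEq (An_congr ea eA eB eD m)) (norm_sub_le_of_modEq (Dn_congr ea eA eB eD m))
    hB hB' hBi hBi' hnD hnD'
  rw [hu, hu'] at key
  have huu : IsUnit u := IsUnit.of_mul_eq_one _ (by rw [mul_comm]; exact hlu)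
  have huu' : IsUnit u' := IsUnit.of_mul_eq_one _ (by rw [mul_comm]; exact hlu')
  have hww : IsUnit w := IsUnit.of_mul_eq_one _ (by rw [mul_comm]; exact hμw)
  have hww' : IsUnit w' := IsUnit.of_mul_eq_one _ (by rw [mul_comm]; exact hμw')
  have hlU : IsUnit (l : ℤ_[p]) := IsUnit.of_mul_eq_one _ hlu
  have hlU' : IsUnit (l' : ℤ_[p]) := IsUnit.of_mul_eq_one _ hlu'
  have hμU : IsUnit (μ : ℤ_[p]) := IsUnit.of_mul_eq_one _ hμw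
  have hμU' : IsUnit (μ' : ℤ_[p]) := IsUnit.of_mul_eq_one _ hμw'
  have h1 : IsUnit ((u * w) ^ m ^ 2 * v) := ((huu.mul hww).pow _).mul hv
  have h1' : IsUnit ((u' * w') ^ m ^ 2 * v') := ((huu'.mul hww').pow _).mul hv'
  have hlt := zpow_neg_lt_one (p := p) hk
  have key2 := norm_ulog_sub hp3 (h1.pow 2) (h1'.pow 2) (lt_of_le_of_lt key hlt)
  rw [← key2, ulog_pow h1, ulog_pow h1', ulog_mul ((huu.mul hww).pow _) hv,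
    ulog_mul ((huu'.mul hww').pow _) hv', ulog_pow (huu.mul hww), ulog_pow (huu'.mul hww'),
    ulog_mul huu hww, ulog_mul huu' hww'] at key
  have hlog : ulog (l : ℤ_[p]) + ulog u = 0 := by rw [← ulog_mul hlU huu, hlu, ulog_one]
  have hlog' : ulog (l' : ℤ_[p]) + ulog u' = 0 := by rw [← ulog_mul hlU' huu', hlu', ulog_one]
  have hlogμ : ulog (μ : ℤ_[p]) + ulog w = 0 := by rw [← ulog_mul hμU hww, hμw, ulog_one]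
  have hlogμ' : ulog (μ' : ℤ_[p]) + ulog w' = 0 := by rw [← ulog_mul hμU' hww', hμw', ulog_one]
  have e : ((2 : ℕ) : ℚ_[p]) * (((m ^ 2 : ℕ) : ℚ_[p]) * (ulog u + ulog w) + ulog v) -
      ((2 : ℕ) : ℚ_[p]) * (((m ^ 2 : ℕ) : ℚ_[p]) * (ulog u' + ulog w') + ulog v') =
      2 * ((ulog v - (m : ℚ_[p]) ^ 2 * (ulog (l : ℤ_[p]) + ulog (μ : ℤ_[p]))) -
      (ulog v' - (m : ℚ_[p]) ^ 2 * (ulog (l' : ℤ_[p]) + ulog (μ' : ℤ_[p])))) := by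
    push_cast
    linear_combination 2 * (m : ℚ_[p]) ^ 2 * (hlog + hlogμ - hlog' - hlogμ')
  rw [e, norm_mul, norm_two_padic hp3, one_mul] at key
  exact key

end Pool.Agent.Lib.MP_3550b5_nt
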