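import Mathlib
import Pool.Agent.Lib.MP_3550b5_nt.SCl

namespace Pool.Agent.Lib.MP_3550b5_nt

open PowerSeries

variable {p : ℕ} [hp : Fact p.Prime]

lemma norm_mul_index_ge {m c : ℕ} (hm : 1 ≤ m) (hm2 : m < p ^ 2) (hc : 1 ≤ c) :
    ((p : ℝ) ^ (padicValNat p c + 1))⁻¹ ≤ ‖((m * c : ℕ) : ℚ_[p])‖ := by
  have hc0 : c ≠ 0 := by omega
  have h1 := norm_index_ge (p := p) hm hm2
  have h2 := Padic.norm_eq_zpow_neg_valuation (p := p) (x := ((c : ℕ) : ℚ_[p])) (by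
      exact_mod_cast hc0)
  rw [Padic.valuation_natCast] at h2
  have hp0 : (0 : ℝ) < p := by exact_mod_cast hp.out.pos
  push_cast
  rw [norm_mul, h2, pow_succ, mul_inv, mul_comm, zpow_neg, zpow_natCast]
  gcongr

lemma lt_sq_of_le (hp3 : 3 ≤ p) {m : ℕ} (hm : m ≤ 2 * p + 1) : m < p ^ 2 := by nlinarith

lemma HtCl.norm_le (hp3 : 3 ≤ p) {a b A B D : ℤ} {c : ℕ} (hc : 1 ≤ c) {h : ℚ_[p]}
    (H : HtCl p a b A B D c h) : ‖h‖ ≤ (p : ℝ) ^ (2 * padicValNat p c + 1) := by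
  obtain ⟨-, ⟨m, hm1, hm2, hmd⟩, hall⟩ := H
  obtain ⟨u, hu, hhu⟩ := hall m hm1 hmd
  have h1 := norm_ulog_le (p := p) hp3 (hu.isUnit hmd)
  rw [← hhu, norm_mul, norm_pow] at h1
  have hmn := norm_mul_index_ge (p := p) hm1 (lt_sq_of_le hp3 hm2) hc
  have hp0 : (0 : ℝ) < p := by exact_mod_cast hp.out.pos
  set v := padicValNat p c with hv
  have h2 : (((p : ℝ) ^ (v + 1))⁻¹) ^ 2 * ‖h‖ ≤ (p : ℝ)⁻¹ := by
    refine le_trans ?_ h1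
    gcongr
  calc ‖h‖ = ((((p : ℝ) ^ (v + 1))⁻¹) ^ 2 * ‖h‖) * ((p : ℝ) ^ (v + 1)) ^ 2 := by field_simp
    _ ≤ (p : ℝ)⁻¹ * ((p : ℝ) ^ (v + 1)) ^ 2 := by gcongr
    _ = (p : ℝ) ^ (2 * v + 1) := by
        rw [← pow_mul, show (v + 1) * 2 = (2 * v + 1) + 1 by ring, pow_succ]
        field_simp

/-- The shifted corrected heights of congruent scaled points are close. -/
theorem HtCl.close (hp5 : 5 ≤ p) {a b A B D a' b' A' B' D' : ℤ} {c : ℕ} (hc : 1 ≤ c)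
    {h h' : ℚ_[p]} (hord : GoodOrdinary p a b)
    (H : HtCl p a b A B D c h) (H' : HtCl p a' b' A' B' D' c h') {l l' μ μ' : ℤ}
    (hl : l ≡ 1 [ZMOD (p : ℤ)]) (hl' : l' ≡ 1 [ZMOD (p : ℤ)])
    (hμ : μ ≡ 1 [ZMOD (p : ℤ)]) (hμ' : μ' ≡ 1 [ZMOD (p : ℤ)]) {k : ℕ} (hk : 1 ≤ k)
    (ea : l ^ 4 * a ≡ l' ^ 4 * a' [ZMOD (p : ℤ) ^ k])
    (eb : l ^ 6 * b ≡ l' ^ 6 * b' [ZMOD (p : ℤ) ^ k])
    (eA : l ^ 2 * μ ^ 2 * A ≡ l' ^ 2 * μ' ^ 2 * A' [ZMOD (p : ℤ) ^ k])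
    (eB : l ^ 3 * μ ^ 3 * B ≡ l' ^ 3 * μ' ^ 3 * B' [ZMOD (p : ℤ) ^ k])
    (eD : μ * D ≡ μ' * D' [ZMOD (p : ℤ) ^ k]) :
    ‖(h - (ulog (l : ℤ_[p]) + ulog (μ : ℤ_[p]))) - (h' - (ulog (l' : ℤ_[p]) +
      ulog (μ' : ℤ_[p])))‖ ≤ (p : ℝ) ^ (-(k : ℤ)) * (p : ℝ) ^ (2 * padicValNat p c + 2) := by
  obtain ⟨q, hpq⟩ : ∃ q, p = 2 * q + 1 := by
    have := hp.out.odd_of_ne_two (by omega)
    obtain ⟨q, hq⟩ := this
    exact ⟨q, hq⟩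
  have hq : 1 ≤ q := by omega
  obtain ⟨hB0, ⟨m, hm1, hm2, hmd⟩, hall⟩ := H
  obtain ⟨hB0', -, hall'⟩ := H'
  -- reduction modulo `p`
  have hdiv : ∀ {l l' z z' : ℤ}, l ≡ 1 [ZMOD (p : ℤ)] → l' ≡ 1 [ZMOD (p : ℤ)] →
      l * z ≡ l' * z' [ZMOD (p : ℤ) ^ k] → z ≡ z' [ZMOD (p : ℤ)] := by
    intro l l' z z' h1 h2 h3
    have e1 : l * z ≡ z [ZMOD (p : ℤ)] := by simpa using h1.mul_right z
    have e2 : l' * z' ≡ z' [ZMOD (p : ℤ)] := by simpa using h2.mul_right z'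
    exact e1.symm.trans ((h3.of_dvd (dvd_pow_self _ (by omega))).trans e2)
  have one_pow' : ∀ {l : ℤ} (n : ℕ), l ≡ 1 [ZMOD (p : ℤ)] → l ^ n ≡ 1 [ZMOD (p : ℤ)] := by
    intro l n h; simpa using h.pow n
  have ea1 := hdiv (one_pow' 4 hl) (one_pow' 4 hl') ea
  have eA1 := hdiv (by simpa using (one_pow' 2 hl).mul (one_pow' 2 hμ))
    (by simpa using (one_pow' 2 hl').mul (one_pow' 2 hμ')) eA
  have eB1 := hdiv (by simpa using (one_pow' 3 hl).mul (one_pow' 3 hμ))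
    (by simpa using (one_pow' 3 hl').mul (one_pow' 3 hμ')) eB
  have eD1 := hdiv hμ hμ' eD
  have hmd' : (p : ℤ) ∣ Dn a' A' B' D' (m * c) :=
    Int.modEq_zero_iff_dvd.mp ((Dn_congr ea1 eA1 eB1 eD1 (m * c)).symm.trans
      (Int.modEq_zero_iff_dvd.mpr hmd))
  obtain ⟨u, hu, hun⟩ := hall m hm1 hmd
  obtain ⟨u', hu', hun'⟩ := hall' m hm1 hmd'
  have key := htD_close hpq hq (Nat.mul_pos hm1 hc) hB0 hB0' hu hu' hmd hmd'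
    (hasse_of_goodOrdinary hpq hq hord) hl hl' hμ hμ' hk ea eb eA eB eD
  have hp0 : (0 : ℝ) < p := by exact_mod_cast hp.out.pos
  rw [← hun, ← hun'] at key
  set N : ℕ := m * c with hN
  have e : (N : ℚ_[p]) ^ 2 * h - (N : ℚ_[p]) ^ 2 * (ulog (l : ℤ_[p]) + ulog (μ : ℤ_[p])) -
      ((N : ℚ_[p]) ^ 2 * h' - (N : ℚ_[p]) ^ 2 * (ulog (l' : ℤ_[p]) + ulog (μ' : ℤ_[p]))) =
      (N : ℚ_[p]) ^ 2 * ((h - (ulog (l : ℤ_[p]) + ulog (μ : ℤ_[p]))) -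
        (h' - (ulog (l' : ℤ_[p]) + ulog (μ' : ℤ_[p])))) := by ring
  rw [e, norm_mul, norm_pow] at key
  have hmn := norm_mul_index_ge (p := p) hm1 (lt_sq_of_le (by omega) hm2) hc
  rw [← hN] at hmn
  set v := padicValNat p c with hv
  set x := ‖(h - (ulog (l : ℤ_[p]) + ulog (μ : ℤ_[p]))) -
        (h' - (ulog (l' : ℤ_[p]) + ulog (μ' : ℤ_[p])))‖ with hx
  have hx0 : 0 ≤ x := norm_nonneg _
  have h2 : (((p : ℝ) ^ (v + 1))⁻¹) ^ 2 * x ≤ (p : ℝ) ^ (-(k : ℤ)) := by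
    refine le_trans ?_ key
    gcongr
  calc x = ((((p : ℝ) ^ (v + 1))⁻¹) ^ 2 * x) * ((p : ℝ) ^ (v + 1)) ^ 2 := by field_simp
    _ ≤ (p : ℝ) ^ (-(k : ℤ)) * ((p : ℝ) ^ (v + 1)) ^ 2 := by gcongr
    _ = _ := by rw [← pow_mul]; congr 2; ring

end Pool.Agent.Lib.MP_3550b5_nt
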