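import Mathlib
import Pool.Agent.Lib.MP_3550b5_nt.Defs

/-!
Definitions for families of elliptic curves parametrised by the projective line.
-/

namespace Pool.Agent.Lib.MP_3550b5_nt

/-- The generic fibre: the elliptic curve `y^2 = x^3 + a x + b` over the field of rational
functions in two variables. -/
noncomputable def genericCurve (a b : MvPolynomial (Fin 2) ℤ) :
    WeierstrassCurve.Affine (FractionRing (MvPolynomial (Fin 2) ℤ)) :=
  ⟨0, 0, 0, algebraMap _ _ a, algebraMap _ _ b⟩

/-- The point `P` of the generic fibre is `(X / W^2, Y / W^3)`, where `X`, `Y`, `W` are forms of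
degree `2 (d + w)`, `3 (d + w)`, `w`, and the section of the family which it defines over the
projective line goes through nonsingular points of all complex fibres: at every nonzero pair `z`,
`2 Y` and `3 X^2 + a W^4` are not both zero. (The section then meets the zero section at the `w`
zeros of `W`.) -/
structure IsSection (d : ℕ) (a b : MvPolynomial (Fin 2) ℤ) (w : ℕ)
    (X Y W : MvPolynomial (Fin 2) ℤ) (P : (genericCurve a b).Point) : Prop where
  homX : X.IsHomogeneous (2 * (d + w))
  homY : Y.IsHomogeneous (3 * (d + w))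
  homW : W.IsHomogeneous w
  W_ne : W ≠ 0
  point : ∃ h : (genericCurve a b).Nonsingular
    (algebraMap _ (FractionRing (MvPolynomial (Fin 2) ℤ)) X /
      algebraMap _ (FractionRing (MvPolynomial (Fin 2) ℤ)) W ^ 2)
    (algebraMap _ (FractionRing (MvPolynomial (Fin 2) ℤ)) Y /
      algebraMap _ (FractionRing (MvPolynomial (Fin 2) ℤ)) W ^ 3), P = .some _ _ h
  nonsing : ∀ z : Fin 2 → ℂ, z ≠ 0 → ¬ (MvPolynomial.aeval z (2 * Y) = 0 ∧
    MvPolynomial.aeval z (3 * X ^ 2 + a * W ^ 4) = 0)

/-- The matrix of the geometric height pairing `⟨P_i, P_j⟩` of sections of `y^2 = x^3 + a x + b`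
(with `a`, `b` forms of degree `4 d`, `6 d`) through nonsingular points of all fibres, where
`w i i` is the intersection number of `P_i` with the zero section and `w i j` (`i < j`) that of
`P_i - P_j`: the height of `P_i` is `2 (d + w i i)`, that of `P_i - P_j` is `2 (d + w i j)`. -/
def heightMatrix (d : ℕ) {r : ℕ} (w : Fin r → Fin r → ℕ) : Matrix (Fin r) (Fin r) ℤ :=
  Matrix.of fun i j => if i = j then 2 * ((d : ℤ) + w i i)
    else (d : ℤ) + w i i + w j j - w (min i j) (max i j)

/-- The value at the rational number `t` of an integral form: its value at `(num t, den t)`. -/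
noncomputable def formVal (F : MvPolynomial (Fin 2) ℤ) (t : ℚ) : ℤ :=
  MvPolynomial.eval ![t.num, (t.den : ℤ)] F

/-- `Q` is the value at `t` of the section `(X / W^2, Y / W^3)`: a point of the fibre
`y^2 = x^3 + a(t) x + b(t)`. -/
def IsValue (a b X Y W : MvPolynomial (Fin 2) ℤ) (t : ℚ)
    (Q : (curve (formVal a t) (formVal b t)).Point) : Prop :=
  (formVal W t = 0 ∧ Q = 0) ∨ (formVal W t ≠ 0 ∧
    ∃ h : (curve (formVal a t) (formVal b t)).Nonsingular
      ((formVal X t : ℚ) / (formVal W t : ℚ) ^ 2) ((formVal Y t : ℚ) / (formVal W t : ℚ) ^ 3),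
      Q = .some _ _ h)

/-- The fibre `E_t : y^2 = x^3 + a(t) x + b(t)` has good ordinary reduction at `p` and, for its
canonical `p`-adic height pairing `B`, either the `p`-adic regulator of the values at `t` of the
sections `(X i / (W i)^2, Y i / (W i)^3)` is at distance at most `p ^ (-K)` from `v`, or `v = 0`,
`E_t` has rank `r` and its `p`-adic regulator has absolute value at most `p ^ (-K)`. -/
def FibreNear (p : ℕ) [Fact p.Prime] {r : ℕ} (v : ℚ_[p]) (K : ℕ) (a b : MvPolynomial (Fin 2) ℤ)
    (X Y W : Fin r → MvPolynomial (Fin 2) ℤ) (t : ℚ) : Prop :=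
  GoodOrdinary p (formVal a t) (formVal b t) ∧
  ∃ (B : (curve (formVal a t) (formVal b t)).Point →
      (curve (formVal a t) (formVal b t)).Point → ℚ_[p])
    (Q : Fin r → (curve (formVal a t) (formVal b t)).Point),
    IsCanonicalHeight p (formVal a t) (formVal b t) B ∧
    (((∀ i, IsValue a b (X i) (Y i) (W i) t (Q i)) ∧
        ‖regulator B Q - v‖ ≤ (p : ℝ) ^ (-(K : ℤ))) ∨
      (v = 0 ∧ IsMWBasis Q ∧ ‖regulator B Q‖ ≤ (p : ℝ) ^ (-(K : ℤ))))

end Pool.Agent.Lib.MP_3550b5_nt
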