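import Mathlib
import Pool.Agent.Lib.MP_3550b5_nt.RegMain
import Pool.Agent.Lib.MP_3550b5_nt.SClose
import Pool.Agent.Lib.MP_3550b5_nt.SDefs

namespace Pool.Agent.Lib.MP_3550b5_nt

variable {p : ℕ} [hp : Fact p.Prime]

/-- The value of the quadratic form at `e_i` or at `e_i - e_j`. -/
def qf {F : Type*} [Field F] {r : ℕ} (G : Matrix (Fin r) (Fin r) F) (i j : Fin r) : F :=
  if i = j then G i i else G i i - 2 * G i j + G j j

/-- Half of the height matrix. -/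
noncomputable def shiftC (p : ℕ) [Fact p.Prime] (d : ℕ) {r : ℕ} (w : Fin r → Fin r → ℕ) :
    Matrix (Fin r) (Fin r) ℚ_[p] :=
  Matrix.of fun i j => ((heightMatrix d w i j : ℤ) : ℚ_[p]) / 2

lemma norm_shiftC_le (hp3 : 3 ≤ p) (d : ℕ) {r : ℕ} (w : Fin r → Fin r → ℕ) (i j : Fin r) :
    ‖shiftC p d w i j‖ ≤ 1 := by
  rw [shiftC, Matrix.of_apply, norm_div, norm_two_padic hp3, div_one]
  exact Padic.norm_int_le_one _

lemma norm_det_shiftC (hp3 : 3 ≤ p) (d : ℕ) {r : ℕ} (w : Fin r → Fin r → ℕ)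
    (hdet : (heightMatrix d w).det ≠ 0) :
    ‖(shiftC p d w).det‖ = (p : ℝ) ^ (-(padicValInt p (heightMatrix d w).det : ℤ)) := by
  have e1 : shiftC p d w = (1 / 2 : ℚ_[p]) • (heightMatrix d w).map (Int.castRingHom ℚ_[p]) := by
    ext i j
    simp only [shiftC, Matrix.of_apply, Matrix.smul_apply, Matrix.map_apply, eq_intCast,
      smul_eq_mul]
    ring
  rw [e1, Matrix.det_smul, norm_mul, norm_pow, norm_div, norm_one, norm_two_padic hp3, div_one,
    one_pow, one_mul]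
  have e2 : ((heightMatrix d w).map (Int.castRingHom ℚ_[p])).det =
      (((heightMatrix d w).det : ℤ) : ℚ_[p]) := by
    have := (Int.castRingHom ℚ_[p]).map_det (heightMatrix d w)
    rw [eq_intCast] at this
    rw [this]; rfl
  rw [e2]
  have h2 := Padic.norm_eq_zpow_neg_valuation (p := p) (x := (((heightMatrix d w).det : ℤ) : ℚ_[p]))
    (by exact_mod_cast hdet)
  rwa [Padic.valuation_intCast] at h2

/-- Closeness of matrices from closeness of the quadratic forms. -/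
lemma matrix_close (hp3 : 3 ≤ p) {r : ℕ} {G G' : Matrix (Fin r) (Fin r) ℚ_[p]}
    (hG : ∀ i j, G i j = G j i) (hG' : ∀ i j, G' i j = G' j i) (d : ℕ) (w : Fin r → Fin r → ℕ)
    {T : ℚ_[p]} {ε : ℝ}
    (h : ∀ i j, i ≤ j → ‖qf G i j - qf G' i j - ((d : ℚ_[p]) + w i j) * T‖ ≤ ε) (i j : Fin r) :
    ‖G i j - (G' i j + T * shiftC p d w i j)‖ ≤ ε := by
  have c1 : ∀ i, ‖G i i - G' i i - ((d : ℚ_[p]) + w i i) * T‖ ≤ ε := by
    intro i
    have := h i i le_rfl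
    simpa [qf] using this
  have c2 : ∀ i j, i < j → ‖G i j - (G' i j + T * shiftC p d w i j)‖ ≤ ε := by
    intro i j hij
    have h3 := h i j hij.le
    rw [qf, qf, if_neg hij.ne, if_neg hij.ne] at h3
    have hs : shiftC p d w i j = ((d : ℚ_[p]) + w i i + w j j - w i j) / 2 := by
      rw [shiftC, Matrix.of_apply, heightMatrix, Matrix.of_apply, if_neg hij.ne,
        min_eq_left hij.le, max_eq_right hij.le]
      push_cast
      rfl
    have e : G i j - (G' i j + T * shiftC p d w i j) = ((1 : ℚ_[p]) / 2) *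
        ((G i i - G' i i - ((d : ℚ_[p]) + w i i) * T) +
        ((G j j - G' j j - ((d : ℚ_[p]) + w j j) * T) +
        -((G i i - 2 * G i j + G j j) - (G' i i - 2 * G' i j + G' j j) -
          ((d : ℚ_[p]) + w i j) * T))) := by
      rw [hs]; ring
    rw [e, norm_mul, norm_div, norm_one, norm_two_padic hp3, div_one, one_mul]
    refine (Padic.nonarchimedean _ _).trans (max_le (c1 i) ?_)
    refine (Padic.nonarchimedean _ _).trans (max_le (c1 j) ?_)
    rw [norm_neg]; exact h3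
  rcases lt_trichotomy i j with hij | hij | hij
  · exact c2 i j hij
  · subst hij
    have hs : shiftC p d w i i = (d : ℚ_[p]) + w i i := by
      rw [shiftC, Matrix.of_apply, heightMatrix, Matrix.of_apply, if_pos rfl]
      push_cast
      ring
    rw [hs, show G i i - (G' i i + T * ((d : ℚ_[p]) + w i i)) =
      G i i - G' i i - ((d : ℚ_[p]) + w i i) * T by ring]
    exact c1 i
  · have hs : shiftC p d w i j = shiftC p d w j i := by
      rw [shiftC, Matrix.of_apply, Matrix.of_apply, heightMatrix, Matrix.of_apply, Matrix.of_apply,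
        if_neg hij.ne, if_neg hij.ne', min_comm, max_comm]
      push_cast
      ring
    rw [hs, hG i j, hG' i j]
    exact c2 j i hij

/-- Norms of the entries from norms of the quadratic forms. -/
lemma matrix_norm_le (hp3 : 3 ≤ p) {r : ℕ} {G : Matrix (Fin r) (Fin r) ℚ_[p]}
    (hG : ∀ i j, G i j = G j i) {R : ℝ} (h : ∀ i j, i ≤ j → ‖qf G i j‖ ≤ R) (i j : Fin r) :
    ‖G i j‖ ≤ R := by
  have c1 : ∀ i, ‖G i i‖ ≤ R := by
    intro i
    simpa [qf] using h i i le_rfl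
  have c : ∀ i j, i < j → ‖G i j‖ ≤ R := by
    intro i j hij
    have h3 := h i j hij.le
    rw [qf, if_neg hij.ne] at h3
    have e1 : G i j = (1 / 2) * (G i i + (G j j + -(G i i - 2 * G i j + G j j))) := by ring
    rw [e1, norm_mul, norm_div, norm_one, norm_two_padic hp3, div_one, one_mul]
    refine (Padic.nonarchimedean _ _).trans (max_le (c1 i) ?_)
    refine (Padic.nonarchimedean _ _).trans (max_le (c1 j) ?_)
    rw [norm_neg]; exact h3
  rcases lt_trichotomy i j with hij | hij | hij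
  · exact c i j hij
  · subst hij; exact c1 i
  · rw [hG]; exact c j i hij

/-- The reduced data of a section at a fibre. -/
def SecHt (p : ℕ) [Fact p.Prime] (a b X Y W : ℤ) (c s : ℕ) (h : ℚ_[p]) : Prop :=
  ∃ A B D : ℤ, X = p ^ (2 * s) * A ∧ Y = p ^ (3 * s) * B ∧ W = p ^ s * D ∧ HtCl p a b A B D c h

lemma modEq_cancel_pow {x y : ℤ} {s k : ℕ} (hsk : s ≤ k)
    (h : (p : ℤ) ^ s * x ≡ (p : ℤ) ^ s * y [ZMOD (p : ℤ) ^ k]) : x ≡ y [ZMOD (p : ℤ) ^ (k - s)] := by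
  have hp0 : (p : ℤ) ≠ 0 := by exact_mod_cast hp.out.ne_zero
  rw [Int.modEq_iff_dvd] at h ⊢
  have h1 : (p : ℤ) ^ k = (p : ℤ) ^ s * (p : ℤ) ^ (k - s) := by rw [← pow_add]; congr 1; omega
  rw [h1, ← mul_sub] at h
  exact (mul_dvd_mul_iff_left (pow_ne_zero s hp0)).mp h

/-- The shifted corrected heights of sections at congruent scaled fibres are close. -/
theorem SecHt.close (hp5 : 5 ≤ p) {a b X Y W a' b' X' Y' W' : ℤ} {c s : ℕ} (hc : 1 ≤ c)
    {h h' : ℚ_[p]} (hord : GoodOrdinary p a b)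
    (H : SecHt p a b X Y W c s h) (H' : SecHt p a' b' X' Y' W' c s h') {l l' μ μ' : ℤ}
    (hl : l ≡ 1 [ZMOD (p : ℤ)]) (hl' : l' ≡ 1 [ZMOD (p : ℤ)])
    (hμ : μ ≡ 1 [ZMOD (p : ℤ)]) (hμ' : μ' ≡ 1 [ZMOD (p : ℤ)]) {k : ℕ} (hk : 3 * s + 1 ≤ k)
    (ea : l ^ 4 * a ≡ l' ^ 4 * a' [ZMOD (p : ℤ) ^ k])
    (eb : l ^ 6 * b ≡ l' ^ 6 * b' [ZMOD (p : ℤ) ^ k])
    (eX : l ^ 2 * μ ^ 2 * X ≡ l' ^ 2 * μ' ^ 2 * X' [ZMOD (p : ℤ) ^ k])
    (eY : l ^ 3 * μ ^ 3 * Y ≡ l' ^ 3 * μ' ^ 3 * Y' [ZMOD (p : ℤ) ^ k])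
    (eW : μ * W ≡ μ' * W' [ZMOD (p : ℤ) ^ k]) :
    ‖(h - (ulog (l : ℤ_[p]) + ulog (μ : ℤ_[p]))) - (h' - (ulog (l' : ℤ_[p]) +
      ulog (μ' : ℤ_[p])))‖ ≤ (p : ℝ) ^ (-((k - 3 * s : ℕ) : ℤ)) *
        (p : ℝ) ^ (2 * padicValNat p c + 2) := by
  obtain ⟨A, B, D, rfl, rfl, rfl, H⟩ := H
  obtain ⟨A', B', D', rfl, rfl, rfl, H'⟩ := H'
  have hle : ∀ t, t ≤ 3 * s → ((p : ℤ) ^ (k - 3 * s)) ∣ (p : ℤ) ^ (k - t) := fun t ht =>
    pow_dvd_pow _ (by omega)
  apply HtCl.close hp5 hc hord H H' hl hl' hμ hμ' (k := k - 3 * s) (by omega)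
    (ea.of_dvd (hle 0 (by omega))) (eb.of_dvd (hle 0 (by omega)))
  · refine (modEq_cancel_pow (s := 2 * s) (k := k) (by omega) ?_).of_dvd (hle (2 * s) (by omega))
    convert eX using 1 <;> ring
  · refine (modEq_cancel_pow (s := 3 * s) (k := k) (by omega) ?_).of_dvd (hle (3 * s) (by omega))
    convert eY using 1 <;> ring
  · refine (modEq_cancel_pow (s := s) (k := k) (by omega) ?_).of_dvd (hle s (by omega))
    convert eW using 1 <;> ring

lemma SecHt.norm_le (hp3 : 3 ≤ p) {a b X Y W : ℤ} {c s : ℕ} (hc : 1 ≤ c) {h : ℚ_[p]}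
    (H : SecHt p a b X Y W c s h) : ‖h‖ ≤ (p : ℝ) ^ (2 * padicValNat p c + 1) := by
  obtain ⟨A, B, D, -, -, -, H⟩ := H
  exact H.norm_le hp3 hc

end Pool.Agent.Lib.MP_3550b5_nt
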