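import Mathlib
import Pool.Agent.Lib.MP_3550b5_nt.SClass

namespace Pool.Agent.Lib.MP_3550b5_nt

variable {p : ℕ} [hp : Fact p.Prime]

/-- A fibre in a class: there is a Gram matrix with determinant near `v` whose entries are the
corrected heights of the sections. -/
def InClass (p : ℕ) [Fact p.Prime] {r : ℕ} (v : ℚ_[p]) (K : ℕ) (c : ℕ) (s : Fin r → Fin r → ℕ)
    (κ : Fin r → Fin r → ℚ_[p]) (a b : ℤ) (X Y W : Fin r → Fin r → ℤ) : Prop :=
  GoodOrdinary p a b ∧ ∃ G : Matrix (Fin r) (Fin r) ℚ_[p], (∀ i j, G i j = G j i) ∧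
    ‖G.det - v‖ ≤ (p : ℝ) ^ (-(K : ℤ)) ∧
    ∀ i j, i ≤ j → SecHt p a b (X i j) (Y i j) (W i j) c (s i j) (qf G i j - κ i j)

/-- Fibre bound for a class. -/
theorem class_fibre_bound (hp5 : 5 ≤ p) {r : ℕ} (hr : 1 ≤ r) {d : ℕ}
    {fa fb : MvPolynomial (Fin 2) ℤ} {X Y W : Fin r → Fin r → MvPolynomial (Fin 2) ℤ}
    {w : Fin r → Fin r → ℕ}
    (ha : fa.IsWeightedHomogeneous 1 (4 * d)) (hb : fb.IsWeightedHomogeneous 1 (6 * d))
    (hX : ∀ i j, i ≤ j → (X i j).IsWeightedHomogeneous 1 (2 * (d + w i j)))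
    (hY : ∀ i j, i ≤ j → (Y i j).IsWeightedHomogeneous 1 (3 * (d + w i j)))
    (hW : ∀ i j, i ≤ j → (W i j).IsWeightedHomogeneous 1 (w i j))
    (hdet : (heightMatrix d w).det ≠ 0) {c : ℕ} (hc : 1 ≤ c) (s : Fin r → Fin r → ℕ) {S₀ : ℕ}
    (hs : ∀ i j, s i j ≤ S₀) (κ : Fin r → Fin r → ℚ_[p])
    (hκ : ∀ i j, ‖κ i j‖ ≤ (p : ℝ) ^ (2 * padicValNat p c + 1)) (v : ℚ_[p]) (K e k : ℕ)
    (hk : k = r * e + (padicValInt p (heightMatrix d w).det + 3 * S₀ +
      (2 * padicValNat p c + 1) * r + 2)) (hkK : k ≤ K)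
    (E : Finset (Fin 2 → ℤ))
    (hN : ∀ z ∈ E, InClass p v K c s κ (MvPolynomial.eval z fa) (MvPolynomial.eval z fb)
      (fun i j => MvPolynomial.eval z (X i j)) (fun i j => MvPolynomial.eval z (Y i j))
      (fun i j => MvPolynomial.eval z (W i j)))
    (z₀ : Fin 2 → ℤ) (hz₀ : z₀ ∈ E) (j₀ : ℕ) (J : Finset ℕ)
    (hJ : ∀ j ∈ J, j < p ^ (k - 1) ∧ ∃ z ∈ E, residV (p ^ k) (scalV 1 (1 + (p : ℤ) * j) z) =
        residV (p ^ k) (scalV 1 (1 + (p : ℤ) * j₀) z₀)) :
    J.card ≤ r * p ^ (k - 1 - e) := by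
  classical
  have hp1 : 1 < p := hp.out.one_lt
  have hpR : (1 : ℝ) < p := by exact_mod_cast hp1
  have hp0 : (0 : ℝ) < p := by linarith
  set vM := padicValInt p (heightMatrix d w).det with hvM
  set vc := padicValNat p c with hvc
  set ρ := 2 * vc + 1 with hρ
  have hre : e ≤ r * e := Nat.le_mul_of_pos_left e (by omega)
  have heK : e ≤ k - 1 := by omega
  set u : ℕ → ℚ_[p] := fun j => ulog (((1 + (p : ℤ) * j : ℤ)) : ℤ_[p]) with hu
  have hunit : ∀ j : ℕ, IsUnit (((1 + (p : ℤ) * j : ℤ)) : ℤ_[p]) := by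
    intro j
    obtain ⟨w1, hw1⟩ := exists_inv_of_modEq_one (p := p) (one_add_modEq (p := p) j)
    exact IsUnit.of_mul_eq_one _ hw1
  have hpow : ∀ (n j : ℕ), ulog ((((1 + (p : ℤ) * j) ^ n : ℤ)) : ℤ_[p]) = n * u j := by
    intro n j
    rw [hu]
    simp only
    rw [← ulog_pow (hunit j)]; push_cast; rfl
  have hl : ∀ n j : ℕ, (1 + (p : ℤ) * j) ^ n ≡ 1 [ZMOD (p : ℤ)] := by
    intro n j
    have := (one_add_modEq (p := p) j).pow n
    simpa using this
  obtain ⟨hord₀, G₀, hG₀s, hG₀d, hG₀q⟩ := hN z₀ hz₀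
  obtain ⟨Q, hQ1, hQ2, hQ3⟩ := pencil (shiftC p d w) G₀ v hr
  set T : ℕ → ℚ_[p] := fun j => u j - u j₀ with hT
  have hTn : ∀ j, ‖T j‖ ≤ 1 := by
    intro j
    have h1 : ∀ j, ‖u j‖ ≤ 1 := by
      intro j
      have h2 : ‖u j‖ ≤ (p : ℝ)⁻¹ := norm_ulog_le (by omega) (hunit j)
      exact h2.trans inv_p_lt_one.le
    rw [hT]
    simp only
    rw [sub_eq_add_neg]
    refine (Padic.nonarchimedean _ _).trans (max_le (h1 j) ?_)
    rw [norm_neg]; exact h1 j₀
  have hqn : ∀ {a b : ℤ} {X Y W : Fin r → Fin r → ℤ} {G : Matrix (Fin r) (Fin r) ℚ_[p]},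
      (∀ i j, i ≤ j → SecHt p a b (X i j) (Y i j) (W i j) c (s i j) (qf G i j - κ i j)) →
      ∀ i j, i ≤ j → ‖qf G i j‖ ≤ (p : ℝ) ^ ρ := by
    intro a b X Y W G h i j hij
    have e1 : qf G i j = (qf G i j - κ i j) + κ i j := by ring
    rw [e1]
    exact (Padic.nonarchimedean _ _).trans (max_le ((h i j hij).norm_le (by omega) hc) (hκ i j))
  -- values of the polynomial
  have hsmall : ∀ j ∈ J, ‖Q.eval (T j)‖ ≤
      (p : ℝ) ^ (-(k : ℤ) + 3 * S₀ + ρ * r + 1) := by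
    intro j hj
    obtain ⟨-, z, hz, hres⟩ := hJ j hj
    obtain ⟨hord, G, hGs, hGd, hGq⟩ := hN z hz
    have conv : ∀ {f : MvPolynomial (Fin 2) ℤ} {n : ℕ}, f.IsWeightedHomogeneous 1 n →
        (1 + (p : ℤ) * j) ^ n * MvPolynomial.eval z f ≡
        (1 + (p : ℤ) * j₀) ^ n * MvPolynomial.eval z₀ f [ZMOD (p : ℤ) ^ k] := by
      intro f n hf
      have h1 := eval_congr f hres
      rw [eval_scalV hf, eval_scalV hf] at h1
      exact_mod_cast h1
    have hq : ∀ i i', i ≤ i' → ‖qf G i i' - qf G₀ i i' - ((d : ℚ_[p]) + w i i') * T j‖ ≤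
        (p : ℝ) ^ (-(k : ℤ) + 3 * S₀ + ρ + 1) := by
      intro i i' hii
      have h1 := SecHt.close hp5 hc hord (hGq i i' hii) (hG₀q i i' hii)
        (l := (1 + (p : ℤ) * j) ^ d) (l' := (1 + (p : ℤ) * j₀) ^ d)
        (μ := (1 + (p : ℤ) * j) ^ (w i i')) (μ' := (1 + (p : ℤ) * j₀) ^ (w i i'))
        (hl _ _) (hl _ _) (hl _ _) (hl _ _) (k := k) (by have := hs i i'; omega)
        (by
          have h2 := conv ha
          rw [← pow_mul, ← pow_mul, mul_comm d 4]
          exact h2)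
        (by
          have h2 := conv hb
          rw [← pow_mul, ← pow_mul, mul_comm d 6]
          exact h2)
        (by
          have h2 := conv (hX i i' hii)
          rw [← pow_mul, ← pow_mul, ← pow_mul, ← pow_mul, ← pow_add, ← pow_add,
            show d * 2 + w i i' * 2 = 2 * (d + w i i') by ring]
          exact h2)
        (by
          have h2 := conv (hY i i' hii)
          rw [← pow_mul, ← pow_mul, ← pow_mul, ← pow_mul, ← pow_add, ← pow_add,
            show d * 3 + w i i' * 3 = 3 * (d + w i i') by ring]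
          exact h2)
        (conv (hW i i' hii))
      rw [hpow, hpow, hpow, hpow] at h1
      have e1 : qf G i i' - κ i i' - (↑d * u j + ↑(w i i') * u j) -
          (qf G₀ i i' - κ i i' - (↑d * u j₀ + ↑(w i i') * u j₀)) =
          qf G i i' - qf G₀ i i' - ((d : ℚ_[p]) + w i i') * T j := by
        rw [hT]; ring
      rw [e1] at h1
      refine h1.trans ?_
      rw [show (p : ℝ) ^ (2 * vc + 2) = (p : ℝ) ^ ((2 * vc + 2 : ℕ) : ℤ) by norm_cast,
        ← zpow_add₀ hp0.ne']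
      apply zpow_le_zpow_right₀ hpR.le
      have h3 := hs i i'
      have h4 : 3 * s i i' ≤ k := by omega
      rw [hρ]
      push_cast [Nat.cast_sub h4]
      have h5 : (s i i' : ℤ) ≤ S₀ := by exact_mod_cast h3
      linarith
    have hcl := matrix_close (by omega) hGs hG₀s d w hq
    have hn1 := matrix_norm_le (by omega) hGs (hqn hGq)
    have hn0 := matrix_norm_le (by omega) hG₀s (hqn hG₀q)
    have hρ1 : (1 : ℝ) ≤ (p : ℝ) ^ ρ := one_le_pow₀ hpR.le
    have hn2 : ∀ i i', ‖(Matrix.of fun i i' => G₀ i i' + T j * shiftC p d w i i') i i'‖ ≤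
        (p : ℝ) ^ ρ := by
      intro i i'
      rw [Matrix.of_apply]
      refine (Padic.nonarchimedean _ _).trans (max_le (hn0 i i') ?_)
      rw [norm_mul]
      calc ‖T j‖ * ‖shiftC p d w i i'‖ ≤ 1 * 1 := by
            gcongr
            · exact hTn j
            · exact norm_shiftC_le (by omega) d w i i'
        _ ≤ (p : ℝ) ^ ρ := by linarith
    have hdet := norm_det_sub_le G (Matrix.of fun i i' => G₀ i i' + T j * shiftC p d w i i')
      (R := (p : ℝ) ^ ρ) (by positivity) (ε := (p : ℝ) ^ (-(k : ℤ) + 3 * S₀ + ρ + 1))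
      (by positivity) hn1 hn2 (fun i i' => hcl i i')
    rw [hQ3]
    have e1 : (Matrix.of fun i i' => G₀ i i' + T j * shiftC p d w i i').det - v =
      (G.det - v) + -(G.det - (Matrix.of fun i i' => G₀ i i' + T j * shiftC p d w i i').det) := by
      ring
    rw [e1]
    refine (Padic.nonarchimedean _ _).trans (max_le ?_ ?_)
    · refine hGd.trans (zpow_le_zpow_right₀ hpR.le ?_)
      have h6 : (0 : ℤ) ≤ (ρ : ℤ) * r := by positivity
      omega
    rw [norm_neg]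
    have h5 : (p : ℝ) ^ (-(k : ℤ) + 3 * S₀ + ρ + 1) * ((p : ℝ) ^ ρ) ^ r =
        (p : ℝ) ^ (-(k : ℤ) + 3 * S₀ + ρ * r + 1) * (p : ℝ) ^ ρ := by
      rw [← pow_mul, show (p : ℝ) ^ (ρ * r) = (p : ℝ) ^ ((ρ * r : ℕ) : ℤ) by norm_cast,
        show (p : ℝ) ^ ρ = (p : ℝ) ^ (ρ : ℤ) by norm_cast, ← zpow_add₀ hp0.ne',
        ← zpow_add₀ hp0.ne']
      congr 1
      push_cast
      ring
    rw [h5] at hdet
    exact le_of_mul_le_mul_right hdet (by positivity)
  -- few classes modulo `p ^ e`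
  have himg : (J.image (fun j => j % p ^ e)).card ≤ r := by
    by_contra hcon
    push Not at hcon
    obtain ⟨S, hS1, hS2⟩ := Finset.exists_subset_card_eq (s := J.image (fun j => j % p ^ e))
      (n := r + 1) hcon
    have hrep : ∀ s ∈ S, ∃ j ∈ J, j % p ^ e = s := fun s hs => by
      obtain ⟨j, hj, hjs⟩ := Finset.mem_image.mp (hS1 hs)
      exact ⟨j, hj, hjs⟩
    choose! f hf1 hf2 using hrep
    have hb := coeff_bound Q hQ1 S hS2 (fun s => T (f s))
      (ε := (p : ℝ) ^ (-(k : ℤ) + 3 * S₀ + ρ * r + 1)) (δ := (p : ℝ) ^ (-(e : ℤ)))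
      (by positivity) (by positivity)
      (by
        intro s hs s' hs' hne
        have hnc : ¬ f s ≡ f s' [MOD p ^ e] := by
          intro hc
          apply hne
          rw [← hf2 s hs, ← hf2 s' hs']
          exact hc
        have h6 := ulog_separated (p := p) (by omega) hnc
        have e1 : T (f s) - T (f s') = u (f s) - u (f s') := by
          rw [hT]; ring
        rw [e1]
        exact h6)
      (fun s hs => hsmall _ (hf1 s hs))
    rw [hQ2, norm_det_shiftC (by omega) d w hdet, ← zpow_natCast, ← zpow_mul,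
      ← zpow_add₀ hp0.ne'] at hb
    have h7 := (zpow_le_zpow_iff_right₀ hpR).mp hb
    rw [hk] at h7
    push_cast at h7
    nlinarith
  -- conclusion
  have h8 : J.card ≤ p ^ (k - 1 - e) * (J.image (fun j => j % p ^ e)).card := by
    apply Finset.card_le_mul_card_image
    intro s _
    apply card_class_le hp1 (k - 1) (k - 1 - e)
    · intro j hj
      exact (hJ j (Finset.mem_filter.mp hj).1).1
    · intro j hj j' hj'
      rw [show k - 1 - (k - 1 - e) = e by omega]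
      exact (Finset.mem_filter.mp hj).2.trans (Finset.mem_filter.mp hj').2.symm
  calc J.card ≤ p ^ (k - 1 - e) * (J.image (fun j => j % p ^ e)).card := h8
    _ ≤ p ^ (k - 1 - e) * r := Nat.mul_le_mul_left _ himg
    _ = r * p ^ (k - 1 - e) := mul_comm _ _

/-- Bound for the number of fibres in a class. -/
theorem class_bound (hp5 : 5 ≤ p) {r : ℕ} (hr : 1 ≤ r) {d : ℕ}
    {fa fb : MvPolynomial (Fin 2) ℤ} {X Y W : Fin r → Fin r → MvPolynomial (Fin 2) ℤ}
    {w : Fin r → Fin r → ℕ}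
    (ha : fa.IsWeightedHomogeneous 1 (4 * d)) (hb : fb.IsWeightedHomogeneous 1 (6 * d))
    (hX : ∀ i j, i ≤ j → (X i j).IsWeightedHomogeneous 1 (2 * (d + w i j)))
    (hY : ∀ i j, i ≤ j → (Y i j).IsWeightedHomogeneous 1 (3 * (d + w i j)))
    (hW : ∀ i j, i ≤ j → (W i j).IsWeightedHomogeneous 1 (w i j))
    (hdet : (heightMatrix d w).det ≠ 0) {c : ℕ} (hc : 1 ≤ c) (s : Fin r → Fin r → ℕ) {S₀ : ℕ}
    (hs : ∀ i j, s i j ≤ S₀) (κ : Fin r → Fin r → ℚ_[p])
    (hκ : ∀ i j, ‖κ i j‖ ≤ (p : ℝ) ^ (2 * padicValNat p c + 1)) (v : ℚ_[p]) (K N m : ℕ)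
    (hm1 : 1 ≤ m) (hmN : m ≤ N) (hmK : m ≤ p ^ K)
    (E : Finset (Fin 2 → ℤ)) (hE : ∀ z ∈ E, ∀ i, |z i| ≤ N)
    (hN : ∀ z ∈ E, InClass p v K c s κ (MvPolynomial.eval z fa) (MvPolynomial.eval z fb)
      (fun i j => MvPolynomial.eval z (X i j)) (fun i j => MvPolynomial.eval z (Y i j))
      (fun i j => MvPolynomial.eval z (W i j))) :
    E.card ^ r * m ≤ (9 * r * N ^ 2) ^ r * p ^ (r + (padicValInt p (heightMatrix d w).det +
      3 * S₀ + (2 * padicValNat p c + 1) * r + 2)) := by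
  have hp1 : 1 < p := hp.out.one_lt
  set c₀ := padicValInt p (heightMatrix d w).det + 3 * S₀ + (2 * padicValNat p c + 1) * r + 2
    with hc₀
  set L := Nat.log p m with hL
  have hL1 : p ^ L ≤ m := Nat.pow_log_le_self p (by omega)
  have hL2 : m < p ^ (L + 1) := Nat.lt_pow_succ_log_self hp1 m
  have hprod : 3 ^ 2 * r * ∏ _i : Fin 2, N = 9 * r * N ^ 2 := by
    rw [Finset.prod_const, Finset.card_univ, Fintype.card_fin]; ring
  rcases Nat.lt_or_ge L c₀ with hlt | hge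
  · have h1 := boxV_card (fun _ : Fin 2 => N) (fun i => hm1.trans hmN) E hE
    have h2 : E.card ≤ 9 * r * N ^ 2 := by
      rw [← hprod]
      calc E.card ≤ 3 ^ 2 * ∏ _i : Fin 2, N := h1
        _ = 3 ^ 2 * 1 * ∏ _i : Fin 2, N := by ring
        _ ≤ 3 ^ 2 * r * ∏ _i : Fin 2, N := by gcongr
    have h3 : m ≤ p ^ (r + c₀) :=
      hL2.le.trans (Nat.pow_le_pow_right (by omega) (by omega))
    exact Nat.mul_le_mul (Nat.pow_le_pow_left h2 r) h3
  · set e := (L - c₀) / r with he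
    have he1 : r * e ≤ L - c₀ := Nat.mul_div_le _ _
    have he2 : L - c₀ < r * (e + 1) := Nat.lt_mul_div_succ _ (by omega)
    set k := r * e + c₀ with hk
    have hkL : k ≤ L := by omega
    have hkK : k ≤ K := (Nat.pow_le_pow_iff_right hp1).mp
      ((Nat.pow_le_pow_right (by omega) hkL).trans (hL1.trans hmK))
    have hpk : p ^ k ≤ N := ((Nat.pow_le_pow_right (by omega) hkL).trans hL1).trans hmN
    have hsb := scaled_bound hp1 (1 : Fin 2 → ℕ) k (fun _ => N) (fun i => hpk) E hE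
      (r * p ^ (k - 1 - e)) (fun z₀ hz₀ j₀ _ J hJ =>
        class_fibre_bound hp5 hr ha hb hX hY hW hdet hc s hs κ hκ v K e k hk hkK E hN z₀ hz₀
          j₀ J hJ)
    have hre : e ≤ r * e := Nat.le_mul_of_pos_left e (by omega)
    have hek : e ≤ k - 1 := by omega
    have h4 : E.card * p ^ e ≤ 9 * r * N ^ 2 := by
      have h5 : E.card * p ^ e * p ^ (k - 1 - e) ≤ (9 * r * N ^ 2) * p ^ (k - 1 - e) := by
        calc E.card * p ^ e * p ^ (k - 1 - e) = E.card * p ^ (k - 1) := by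
              rw [mul_assoc, ← pow_add]; congr 2; omega
          _ ≤ 3 ^ 2 * (r * p ^ (k - 1 - e)) * ∏ _i : Fin 2, N := hsb
          _ = (9 * r * N ^ 2) * p ^ (k - 1 - e) := by rw [← hprod]; ring
      exact Nat.le_of_mul_le_mul_right h5 (by positivity)
    have h6 : m ≤ p ^ (r * e) * p ^ (r + c₀) := by
      rw [← pow_add]
      refine hL2.le.trans (Nat.pow_le_pow_right (by omega) ?_)
      have : r * (e + 1) = r * e + r := by ring
      omega
    calc E.card ^ r * m ≤ E.card ^ r * (p ^ (r * e) * p ^ (r + c₀)) := Nat.mul_le_mul_left _ h6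
      _ = (E.card * p ^ e) ^ r * p ^ (r + c₀) := by
          rw [mul_pow, ← pow_mul, mul_comm e r]; ring
      _ ≤ (9 * r * N ^ 2) ^ r * p ^ (r + c₀) :=
          Nat.mul_le_mul_right _ (Nat.pow_le_pow_left h4 r)

end Pool.Agent.Lib.MP_3550b5_nt
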