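import Mathlib
import Pool.Agent.Lib.MP_3550b5_nt.SCl

namespace Pool.Agent.Lib.MP_3550b5_nt

open WeierstrassCurve.Affine

/-- `Q` is an affine point reducing to a singular point modulo `l`. -/
def SingAt (l : ℕ) [Fact l.Prime] {a b : ℤ} (Q : (curve a b).Point) : Prop :=
  ‖((ptX Q : ℚ) : ℚ_[l])‖ ≤ 1 ∧ ‖2 * ((ptY Q : ℚ) : ℚ_[l])‖ < 1 ∧
    ‖3 * ((ptX Q : ℚ) : ℚ_[l]) ^ 2 + (a : ℚ_[l])‖ < 1

section

variable {l : ℕ} [hl : Fact l.Prime]

lemma norm_int_lt_one' {n : ℤ} : ‖(n : ℚ_[l])‖ < 1 ↔ (l : ℤ) ∣ n := Padic.norm_intCast_lt_one_iff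

lemma sing_of_rep {a b A B D : ℤ} {Q : (curve a b).Point} (h : IsRep a b A B D Q)
    (hs : SingAt l Q) : (l : ℤ) ∣ 2 * B ∧ (l : ℤ) ∣ 3 * A ^ 2 + a * D ^ 4 := by
  obtain ⟨h1, h2, h3⟩ := hs
  rw [h.ptX_eq] at h1 h3
  rw [h.ptY_eq] at h2
  have hD : (D : ℚ_[l]) ≠ 0 := by exact_mod_cast h.1
  have hDn : ‖(D : ℚ_[l])‖ ≤ 1 := Padic.norm_int_le_one D
  push_cast at h1 h2 h3
  constructor
  · rw [← norm_int_lt_one']
    have e : ((2 * B : ℤ) : ℚ_[l]) = (2 * ((B : ℚ_[l]) / (D : ℚ_[l]) ^ 3)) * (D : ℚ_[l]) ^ 3 := by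
      push_cast
      field_simp
    rw [e, norm_mul, norm_pow]
    calc _ ≤ ‖2 * ((B : ℚ_[l]) / (D : ℚ_[l]) ^ 3)‖ * 1 := by
          gcongr
          exact pow_le_one₀ (norm_nonneg _) hDn
      _ = ‖2 * ((B : ℚ_[l]) / (D : ℚ_[l]) ^ 3)‖ := mul_one _
      _ < 1 := h2
  · rw [← norm_int_lt_one']
    have e : ((3 * A ^ 2 + a * D ^ 4 : ℤ) : ℚ_[l]) =
        (3 * ((A : ℚ_[l]) / (D : ℚ_[l]) ^ 2) ^ 2 + (a : ℚ_[l])) * (D : ℚ_[l]) ^ 4 := by
      push_cast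
      field_simp
    rw [e, norm_mul, norm_pow]
    calc _ ≤ ‖3 * ((A : ℚ_[l]) / (D : ℚ_[l]) ^ 2) ^ 2 + (a : ℚ_[l])‖ * 1 := by
          gcongr
          exact pow_le_one₀ (norm_nonneg _) hDn
      _ = ‖3 * ((A : ℚ_[l]) / (D : ℚ_[l]) ^ 2) ^ 2 + (a : ℚ_[l])‖ := mul_one _
      _ < 1 := h3

lemma rep_of_sing {a b A B D : ℤ} {Q : (curve a b).Point} (h : IsRep a b A B D Q)
    (hprim : ¬ ((l : ℤ) ∣ A ∧ (l : ℤ) ∣ D))
    (h1 : (l : ℤ) ∣ 2 * B) (h2 : (l : ℤ) ∣ 3 * A ^ 2 + a * D ^ 4) : SingAt l Q := by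
  have hlZ : Prime (l : ℤ) := Nat.prime_iff_prime_int.mp hl.out
  have hlD : ¬ (l : ℤ) ∣ D := by
    intro hd
    apply hprim
    refine ⟨?_, hd⟩
    have h3 : (l : ℤ) ∣ 3 * A ^ 2 := by
      have e : 3 * A ^ 2 = (3 * A ^ 2 + a * D ^ 4) - D * (a * D ^ 3) := by ring
      rw [e]; exact dvd_sub h2 (Dvd.dvd.mul_right hd _)
    rcases hlZ.dvd_or_dvd h3 with h4 | h4
    · -- `l = 3`
      have hB : (l : ℤ) ∣ B := by
        rcases hlZ.dvd_or_dvd h1 with h5 | h5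
        · exfalso
          have : (l : ℤ) ∣ 1 := by
            have e : (1 : ℤ) = 3 - 2 := by norm_num
            rw [e]; exact dvd_sub h4 h5
          exact hlZ.not_isUnit (isUnit_of_dvd_one this)
        · exact h5
      have hA3 : (l : ℤ) ∣ A ^ 3 := by
        have e : A ^ 3 = B * B - D * (a * A * D ^ 3 + b * D ^ 5) := by
          linear_combination -h.eqn
        rw [e]
        exact dvd_sub (Dvd.dvd.mul_right hB _) (Dvd.dvd.mul_right hd _)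
      exact hlZ.dvd_of_dvd_pow hA3
    · exact hlZ.dvd_of_dvd_pow h4
  have hDn : ‖(D : ℚ_[l])‖ = 1 := by
    refine le_antisymm (Padic.norm_int_le_one D) ?_
    by_contra hlt
    exact hlD (norm_int_lt_one'.mp (not_le.mp hlt))
  have hD : (D : ℚ_[l]) ≠ 0 := by exact_mod_cast h.1
  refine ⟨?_, ?_, ?_⟩
  · rw [h.ptX_eq]
    push_cast
    rw [norm_div, norm_pow, hDn, one_pow, div_one]
    exact Padic.norm_int_le_one A
  · rw [h.ptY_eq]
    push_cast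
    have := norm_int_lt_one'.mpr h1
    push_cast at this
    rw [mul_div_assoc', norm_div, norm_pow, hDn, one_pow, div_one]
    exact this
  · rw [h.ptX_eq]
    push_cast
    have := norm_int_lt_one'.mpr h2
    push_cast at this
    have e : 3 * ((A : ℚ_[l]) / (D : ℚ_[l]) ^ 2) ^ 2 + (a : ℚ_[l]) =
        (3 * (A : ℚ_[l]) ^ 2 + a * (D : ℚ_[l]) ^ 4) / (D : ℚ_[l]) ^ 4 := by
      field_simp
    rw [e, norm_div, norm_pow, hDn, one_pow, div_one]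
    exact this

/-- Some multiple of small index does not reduce to a singular point. -/
theorem exists_nonsing {a b : ℤ} {P : (curve a b).Point} (htor : ¬ IsOfFinAddOrder P) {K : ℕ}
    (hK : ¬ (l : ℤ) ^ K ∣ 4 * (4 * a ^ 3 + 27 * b ^ 2)) :
    ∃ n, 1 ≤ n ∧ n ≤ l ^ (2 * K) + 1 ∧ ¬ SingAt l (n • P) := by
  by_contra hcon
  push Not at hcon
  have hlt1 : 1 < l := hl.out.one_lt
  have hrep : ∀ n, 1 ≤ n → ∃ hh : (curve a b).Nonsingular (ptX (n • P)) (ptY (n • P)),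
      n • P = .some (ptX (n • P)) (ptY (n • P)) hh :=
    fun n hn => exists_eq_some _ (nsmul_ne_of_not_tor htor n (by omega))
  -- integrality of coordinates
  have hint : ∀ n, 1 ≤ n → n ≤ l ^ (2 * K) + 1 →
      ‖((ptX (n • P) : ℚ) : ℚ_[l])‖ ≤ 1 ∧ ‖((ptY (n • P) : ℚ) : ℚ_[l])‖ ≤ 1 := by
    intro n hn1 hn2
    obtain ⟨h1, -, -⟩ := hcon n hn1 hn2
    refine ⟨h1, ?_⟩
    obtain ⟨hh, -⟩ := hrep n hn1
    have e := congrArg (fun z : ℚ => (z : ℚ_[l])) (curve_eq hh)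
    push_cast at e
    have e2 : ‖((ptY (n • P) : ℚ) : ℚ_[l])‖ ^ 2 ≤ 1 := by
      rw [← norm_pow, e]
      refine (Padic.nonarchimedean _ _).trans (max_le ((Padic.nonarchimedean _ _).trans
        (max_le ?_ ?_)) (Padic.norm_int_le_one b))
      · rw [norm_pow]; exact pow_le_one₀ (norm_nonneg _) h1
      · rw [norm_mul]; exact mul_le_one₀ (Padic.norm_int_le_one a) (norm_nonneg _) h1
    exact (pow_le_one_iff_of_nonneg (norm_nonneg _) (by norm_num)).mp e2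
  -- pigeonhole
  let fx : Fin (l ^ (2 * K) + 1) → ℤ_[l] := fun i =>
    ⟨((ptX ((i.val + 1) • P) : ℚ) : ℚ_[l]), (hint (i.val + 1) (by omega) (by omega)).1⟩
  let fy : Fin (l ^ (2 * K) + 1) → ℤ_[l] := fun i =>
    ⟨((ptY ((i.val + 1) • P) : ℚ) : ℚ_[l]), (hint (i.val + 1) (by omega) (by omega)).2⟩
  let f : Fin (l ^ (2 * K) + 1) → ZMod (l ^ K) × ZMod (l ^ K) := fun i =>
    (PadicInt.toZModPow K (fx i), PadicInt.toZModPow K (fy i))
  have : NeZero (l ^ K) := ⟨pow_ne_zero _ (by omega)⟩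
  obtain ⟨i, j, hij, hee⟩ := Fintype.exists_ne_map_eq_of_card_lt f (by
    rw [Fintype.card_prod, ZMod.card, Fintype.card_fin, ← pow_add]
    rw [show K + K = 2 * K by ring]; omega)
  wlog hlt : i.val < j.val generalizing i j with H
  · exact H j i hij.symm hee.symm (by
      have : i.val ≠ j.val := fun hh => hij (Fin.ext hh)
      omega)
  set n1 := i.val + 1 with hn1
  set n2 := j.val + 1 with hn2
  have hn12 : n1 < n2 := by omega
  have hn1' : 1 ≤ n1 := by omega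
  have hn2' : 1 ≤ n2 := by omega
  have hn2N : n2 ≤ l ^ (2 * K) + 1 := by omega
  have hxx0 : PadicInt.toZModPow K (fx i) = PadicInt.toZModPow K (fx j) := congrArg Prod.fst hee
  have hyy0 : PadicInt.toZModPow K (fy i) = PadicInt.toZModPow K (fy j) := congrArg Prod.snd hee
  have hxx := (toZModPow_eq_iff K _ _).mp hxx0
  have hyy := (toZModPow_eq_iff K _ _).mp hyy0
  obtain ⟨hh1, e1⟩ := hrep n1 hn1'
  obtain ⟨hh2, e2⟩ := hrep n2 hn2'
  have hne : ptX (n2 • P) ≠ ptX (n1 • P) := by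
    intro h0
    have := (Point.X_eq_iff (h₁ := hh2) (h₂ := hh1)).mp h0
    rw [← e1, ← e2] at this
    rcases this with h3 | h3
    · apply nsmul_ne_of_not_tor htor (n2 - n1) (by omega)
      have h4 : n2 • P = (n2 - n1) • P + n1 • P := by
        rw [← add_smul]; congr 1; omega
      rw [h4] at h3
      simpa using h3
    · apply nsmul_ne_of_not_tor htor (n2 + n1) (by omega)
      rw [add_smul, h3]; simp
  have hdiff : ptX ((n2 - n1) • P) = ((ptY (n2 • P) + ptY (n1 • P)) /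
      (ptX (n2 • P) - ptX (n1 • P))) ^ 2 - ptX (n2 • P) - ptX (n1 • P) := by
    have e3 : (n2 - n1) • P = Point.some _ _ hh2 + -Point.some _ _ hh1 := by
      rw [← e1, ← e2]
      have h4 : n2 • P = (n2 - n1) • P + n1 • P := by
        rw [← add_smul]; congr 1; omega
      rw [h4]; simp
    rw [e3, Point.neg_some, Point.add_of_X_ne hne, ptX_some,
      WeierstrassCurve.Affine.slope_of_X_ne hne, curve_negY]
    simp [WeierstrassCurve.Affine.addX, curve]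
  obtain ⟨hs, -, -⟩ := hcon (n2 - n1) (by omega) (by omega)
  -- notation
  have hx1 := (hint n1 hn1' (by omega)).1
  have hx2 := (hint n2 hn2' hn2N).1
  have ee1 := congrArg (fun z : ℚ => (z : ℚ_[l])) (curve_eq hh1)
  have ee2 := congrArg (fun z : ℚ => (z : ℚ_[l])) (curve_eq hh2)
  have ed := congrArg (fun z : ℚ => (z : ℚ_[l])) hdiff
  have hne' : ((ptX (n2 • P) : ℚ) : ℚ_[l]) ≠ ((ptX (n1 • P) : ℚ) : ℚ_[l]) := by
    intro h0; exact hne (by exact_mod_cast h0)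
  push_cast at ee1 ee2 ed
  have hxx' : ‖((ptX (n1 • P) : ℚ) : ℚ_[l]) - ((ptX (n2 • P) : ℚ) : ℚ_[l])‖ ≤
    (l : ℝ) ^ (-(K : ℤ)) := hxx
  have hyy' : ‖((ptY (n1 • P) : ℚ) : ℚ_[l]) - ((ptY (n2 • P) : ℚ) : ℚ_[l])‖ ≤
    (l : ℝ) ^ (-(K : ℤ)) := hyy
  rw [ed] at hs
  set x1 := ((ptX (n1 • P) : ℚ) : ℚ_[l]) with hx1d
  set x2 := ((ptX (n2 • P) : ℚ) : ℚ_[l]) with hx2d
  set y1 := ((ptY (n1 • P) : ℚ) : ℚ_[l]) with hy1d
  set y2 := ((ptY (n2 • P) : ℚ) : ℚ_[l]) with hy2d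
  set ε : ℝ := (l : ℝ) ^ (-(K : ℤ)) with hε
  have hε0 : 0 < ε := by
    rw [hε]
    have : (0 : ℝ) < l := by exact_mod_cast hl.out.pos
    positivity
  have hε1 : ε ≤ 1 := by
    rw [hε, zpow_neg, zpow_natCast]
    apply inv_le_one_of_one_le₀
    exact one_le_pow₀ (by exact_mod_cast hl.out.one_lt.le)
  have hxne : x2 - x1 ≠ 0 := sub_ne_zero.mpr hne'
  -- the slope is integral
  have hsl : ‖(y2 + y1) / (x2 - x1)‖ ≤ 1 := by
    have h3 : ‖((y2 + y1) / (x2 - x1)) ^ 2‖ ≤ 1 := by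
      have e4 : ((y2 + y1) / (x2 - x1)) ^ 2 =
        (((y2 + y1) / (x2 - x1)) ^ 2 - x2 - x1) + (x2 + x1) := by ring
      rw [e4]
      refine (Padic.nonarchimedean _ _).trans (max_le hs ?_)
      exact (Padic.nonarchimedean _ _).trans (max_le hx2 hx1)
    rw [norm_pow] at h3
    exact (pow_le_one_iff_of_nonneg (norm_nonneg _) (by norm_num)).mp h3
  have hyle : ‖y2 + y1‖ ≤ ‖x2 - x1‖ := by
    rw [norm_div] at hsl
    exact (div_le_one (norm_pos_iff.mpr hxne)).mp hsl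
  have hxle : ‖x2 - x1‖ ≤ ε := by rw [← norm_neg, neg_sub]; exact hxx'
  have hyle2 : ‖y2 - y1‖ ≤ ε := by rw [← norm_neg, neg_sub]; exact hyy'
  have h2y : ‖2 * y1‖ ≤ ε := by
    have e4 : 2 * y1 = (y2 + y1) + -(y2 - y1) := by ring
    rw [e4]
    refine (Padic.nonarchimedean _ _).trans (max_le (hyle.trans hxle) ?_)
    rw [norm_neg]; exact hyle2
  have hfac : (y2 - y1) * (y2 + y1) = (x2 - x1) * (x2 ^ 2 + x1 * x2 + x1 ^ 2 + a) := by
    linear_combination ee2 - ee1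
  have hf1 : ‖x2 ^ 2 + x1 * x2 + x1 ^ 2 + (a : ℚ_[l])‖ ≤ ε := by
    have h3 := congrArg norm hfac
    rw [norm_mul, norm_mul] at h3
    have h4 : ‖x2 - x1‖ * ‖x2 ^ 2 + x1 * x2 + x1 ^ 2 + (a : ℚ_[l])‖ ≤ ‖x2 - x1‖ * ε := by
      rw [← h3, mul_comm]
      exact mul_le_mul hyle hyle2 (norm_nonneg _) (norm_nonneg _)
    exact le_of_mul_le_mul_left h4 (norm_pos_iff.mpr hxne)
  have hf2 : ‖3 * x1 ^ 2 + (a : ℚ_[l])‖ ≤ ε := by
    have e4 : 3 * x1 ^ 2 + (a : ℚ_[l]) = (x2 ^ 2 + x1 * x2 + x1 ^ 2 + (a : ℚ_[l])) +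
      -((x2 - x1) * (x2 + x1 + x1)) := by ring
    rw [e4]
    refine (Padic.nonarchimedean _ _).trans (max_le hf1 ?_)
    rw [norm_neg, norm_mul]
    have h5 : ‖x2 + x1 + x1‖ ≤ 1 := (Padic.nonarchimedean _ _).trans
      (max_le ((Padic.nonarchimedean _ _).trans (max_le hx2 hx1)) hx1)
    calc ‖x2 - x1‖ * ‖x2 + x1 + x1‖ ≤ ε * 1 := by gcongr
      _ = ε := mul_one _
  -- the discriminant
  apply hK
  have hdisc : ((4 * (4 * a ^ 3 + 27 * b ^ 2) : ℤ) : ℚ_[l]) =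
      -((18 * a * x1 - 27 * b) * ((2 * y1) * (2 * y1))) +
      4 * (6 * a * x1 ^ 2 - 9 * b * x1 + 4 * a ^ 2) * (3 * x1 ^ 2 + a) := by
    push_cast
    have e5 : (2 * y1) * (2 * y1) = 4 * (x1 ^ 3 + a * x1 + b) := by rw [← ee1]; ring
    rw [e5]; ring
  have hbound : ‖((4 * (4 * a ^ 3 + 27 * b ^ 2) : ℤ) : ℚ_[l])‖ ≤ ε := by
    rw [hdisc]
    have hi : ∀ n : ℤ, ‖(n : ℚ_[l])‖ ≤ 1 := Padic.norm_int_le_one
    have hb1 : ‖18 * (a : ℚ_[l]) * x1 - 27 * b‖ ≤ 1 := by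
      have e6 : 18 * (a : ℚ_[l]) * x1 - 27 * b = ((18 * a : ℤ) : ℚ_[l]) * x1 +
        ((-27 * b : ℤ) : ℚ_[l]) := by push_cast; ring
      rw [e6]
      refine (Padic.nonarchimedean _ _).trans (max_le ?_ (hi _))
      rw [norm_mul]; exact mul_le_one₀ (hi _) (norm_nonneg _) hx1
    have hb2 : ‖4 * (6 * (a : ℚ_[l]) * x1 ^ 2 - 9 * b * x1 + 4 * a ^ 2)‖ ≤ 1 := by
      have e6 : 4 * (6 * (a : ℚ_[l]) * x1 ^ 2 - 9 * b * x1 + 4 * a ^ 2) =
        ((24 * a : ℤ) : ℚ_[l]) * x1 ^ 2 + ((-36 * b : ℤ) : ℚ_[l]) * x1 +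
          ((16 * a ^ 2 : ℤ) : ℚ_[l]) := by push_cast; ring
      rw [e6]
      refine (Padic.nonarchimedean _ _).trans (max_le ((Padic.nonarchimedean _ _).trans
        (max_le ?_ ?_)) (hi _))
      · rw [norm_mul, norm_pow]
        exact mul_le_one₀ (hi _) (by positivity) (pow_le_one₀ (norm_nonneg _) hx1)
      · rw [norm_mul]; exact mul_le_one₀ (hi _) (norm_nonneg _) hx1
    refine (Padic.nonarchimedean _ _).trans (max_le ?_ ?_)
    · rw [norm_neg, norm_mul, norm_mul]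
      calc _ ≤ 1 * (ε * ε) := by gcongr
        _ ≤ ε := by nlinarith
    · rw [norm_mul]
      calc _ ≤ 1 * ε := by gcongr
        _ = ε := one_mul _
  exact_mod_cast (Padic.norm_int_le_pow_iff_dvd _ K).mp hbound

end

/-- All multiples of index divisible by `N !` are nonsingular, if `N` is large. -/
theorem exists_good_multiple {a b A B D : ℤ} {P : (curve a b).Point} (hP : IsRep a b A B D P)
    (htor : ¬ IsOfFinAddOrder P) {N : ℕ}
    (hN : ∀ l : ℕ, l.Prime → (l : ℤ) ∣ 2 * B → (l : ℤ) ∣ 3 * A ^ 2 + a * D ^ 4 →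
      ∃ K, ¬ (l : ℤ) ^ K ∣ 4 * (4 * a ^ 3 + 27 * b ^ 2) ∧ l ^ (2 * K) + 1 ≤ N) :
    ∃ G A₁ B₁ D₁ : ℤ, 0 < G ∧ IsRep a b A₁ B₁ D₁ (N.factorial • P) ∧
      IsCoprime (2 * B₁) (3 * A₁ ^ 2 + a * D₁ ^ 4) ∧ Dn a A B D N.factorial = G * D₁ ∧
      ∀ l : ℕ, l.Prime → (l : ℤ) ∣ G → (l : ℤ) ∣ 2 * B ∧ (l : ℤ) ∣ 3 * A ^ 2 + a * D ^ 4 := by
  set c := N.factorial with hc
  have hc1 : 1 ≤ c := Nat.factorial_pos N
  have htor' : ¬ IsOfFinAddOrder (c • P) := by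
    rw [isOfFinAddOrder_nsmul]; push Not; exact ⟨htor, by omega⟩
  obtain ⟨β, hrep, hloc⟩ := hP.mult htor c hc1
  obtain ⟨G, A₁, B₁, D₁, hG, hD1, hA1, hB1, hDD, hprim⟩ :=
    reduce_rep a b _ _ _ _ hrep.1 le_rfl hrep.eqn
  have hrep1 : IsRep a b A₁ B₁ D₁ (c • P) := by
    refine ⟨hD1, ?_⟩
    obtain ⟨-, hh, e⟩ := hrep
    have hG' : (G : ℚ) ≠ 0 := by exact_mod_cast hG.ne'
    have hD1' : (D₁ : ℚ) ≠ 0 := by exact_mod_cast hD1
    have ex : ((An a A B D c : ℤ) : ℚ) / ((Dn a A B D c : ℤ) : ℚ) ^ 2 =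
        (A₁ : ℚ) / (D₁ : ℚ) ^ 2 := by
      rw [hA1, hDD]; push_cast; field_simp
    have ey : (β : ℚ) / ((Dn a A B D c : ℤ) : ℚ) ^ 3 = (B₁ : ℚ) / (D₁ : ℚ) ^ 3 := by
      rw [hB1, hDD]; push_cast; field_simp
    have hh' : (curve a b).Nonsingular ((A₁ : ℚ) / (D₁ : ℚ) ^ 2) ((B₁ : ℚ) / (D₁ : ℚ) ^ 3) := by
      rw [← ex, ← ey]; exact hh
    refine ⟨hh', ?_⟩
    rw [e]
    simp only [WeierstrassCurve.Affine.Point.some.injEq]
    exact ⟨ex, ey⟩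
  -- common divisors of the new representation
  have hup : ∀ l : ℤ, l ∣ 2 * B₁ → l ∣ 3 * A₁ ^ 2 + a * D₁ ^ 4 → l ∣ 2 * β ∧
      l ∣ 3 * An a A B D c ^ 2 + a * Dn a A B D c ^ 4 := by
    intro l h1 h2
    rw [hB1, hA1, hDD]
    refine ⟨?_, ?_⟩
    · rw [show 2 * (G ^ 3 * B₁) = (2 * B₁) * G ^ 3 by ring]
      exact Dvd.dvd.mul_right h1 _
    · rw [show 3 * (G ^ 2 * A₁) ^ 2 + a * (G * D₁) ^ 4 = (3 * A₁ ^ 2 + a * D₁ ^ 4) * G ^ 4 by ring]
      exact Dvd.dvd.mul_right h2 _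
  refine ⟨G, A₁, B₁, D₁, hG, hrep1, ?_, hDD, ?_⟩
  · apply isCoprime_of_prime_dvd
    · rintro ⟨hB0, -⟩
      exact hrep1.B_ne htor' hB0
    · intro l' hl' h1 h2
      -- natural prime
      obtain ⟨l, hl, hll⟩ : ∃ l : ℕ, l.Prime ∧ (l : ℤ) ∣ l' ∧ l' ∣ (l : ℤ) := by
        refine ⟨l'.natAbs, Int.prime_iff_natAbs_prime.mp hl', ?_, ?_⟩
        · exact Int.natAbs_dvd.mpr dvd_rfl
        · exact Int.dvd_natAbs.mpr dvd_rfl
      have g1 : (l : ℤ) ∣ 2 * B₁ := hll.1.trans h1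
      have g2 : (l : ℤ) ∣ 3 * A₁ ^ 2 + a * D₁ ^ 4 := hll.1.trans h2
      have hlZ : Prime (l : ℤ) := Nat.prime_iff_prime_int.mp hl
      have : Fact l.Prime := ⟨hl⟩
      by_cases hbad : (l : ℤ) ∣ 2 * B ∧ (l : ℤ) ∣ 3 * A ^ 2 + a * D ^ 4
      · obtain ⟨K, hK, hKN⟩ := hN l hl hbad.1 hbad.2
        obtain ⟨n, hn1, hn2, hns⟩ := exists_nonsing (l := l) htor hK
        have hnN : n ≤ N := hn2.trans hKN
        obtain ⟨m, hm⟩ : n ∣ c := (Nat.dvd_factorial hn1 hnN)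
        have htorn : ¬ IsOfFinAddOrder (n • P) := by
          rw [isOfFinAddOrder_nsmul]; push Not; exact ⟨htor, by omega⟩
        have hm1 : 1 ≤ m := by
          rcases Nat.eq_zero_or_pos m with h0 | h0
          · rw [h0, mul_zero] at hm; omega
          · exact h0
        obtain ⟨β', hrepn, -⟩ := hP.mult htor n hn1
        obtain ⟨G', A', B', D', hG', hD', hA', hB', hDD', hprim'⟩ :=
          reduce_rep a b _ _ _ _ hrepn.1 le_rfl hrepn.eqn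
        have hrep' : IsRep a b A' B' D' (n • P) := by
          refine ⟨hD', ?_⟩
          obtain ⟨-, hh, e⟩ := hrepn
          have hG'' : (G' : ℚ) ≠ 0 := by exact_mod_cast hG'.ne'
          have hD1' : (D' : ℚ) ≠ 0 := by exact_mod_cast hD'
          have ex : ((An a A B D n : ℤ) : ℚ) / ((Dn a A B D n : ℤ) : ℚ) ^ 2 =
              (A' : ℚ) / (D' : ℚ) ^ 2 := by
            rw [hA', hDD']; push_cast; field_simp
          have ey : (β' : ℚ) / ((Dn a A B D n : ℤ) : ℚ) ^ 3 = (B' : ℚ) / (D' : ℚ) ^ 3 := by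
            rw [hB', hDD']; push_cast; field_simp
          have hh' : (curve a b).Nonsingular ((A' : ℚ) / (D' : ℚ) ^ 2)
              ((B' : ℚ) / (D' : ℚ) ^ 3) := by
            rw [← ex, ← ey]; exact hh
          refine ⟨hh', ?_⟩
          rw [e]
          simp only [WeierstrassCurve.Affine.Point.some.injEq]
          exact ⟨ex, ey⟩
        have hns' : ¬ ((l : ℤ) ∣ 2 * B' ∧ (l : ℤ) ∣ 3 * A' ^ 2 + a * D' ^ 4) := by
          rintro ⟨h3, h4⟩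
          exact hns (rep_of_sing hrep' (hprim' l hlZ) h3 h4)
        obtain ⟨β2, hrep2, hloc2⟩ := hrep'.mult htorn m hm1
        have hmn : m • n • P = c • P := by rw [hm, ← mul_smul, mul_comm]
        rw [hmn] at hrep2
        have hsing := rep_of_sing (l := l) hrep1 (hprim l hlZ) g1 g2
        exact hloc2 l hlZ hns' (sing_of_rep hrep2 hsing)
      · exact hloc l hlZ hbad (hup l g1 g2)
  · intro l hl hd
    have hlZ : Prime (l : ℤ) := Nat.prime_iff_prime_int.mp hl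
    by_contra hbad
    apply hloc l hlZ hbad
    rw [hB1, hA1, hDD]
    obtain ⟨G2, rfl⟩ := hd
    refine ⟨⟨2 * (l ^ 2 * G2 ^ 3 * B₁), by ring⟩, ⟨3 * (l ^ 3 * G2 ^ 4 * A₁ ^ 2) +
      a * (l ^ 3 * G2 ^ 4 * D₁ ^ 4), by ring⟩⟩

end Pool.Agent.Lib.MP_3550b5_nt
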