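import Mathlib
import Pool.Agent.Lib.MP_3550b5_nt.SFibre
import Pool.Agent.Lib.MP_3550b5_nt.SIndex

namespace Pool.Agent.Lib.MP_3550b5_nt

open WeierstrassCurve.Affine

lemma IsRep.unique {a b A B D A' B' D' : ℤ} {P : (curve a b).Point} (h : IsRep a b A B D P)
    (hD' : D' ≠ 0) (hx : (A : ℚ) / (D : ℚ) ^ 2 = (A' : ℚ) / (D' : ℚ) ^ 2)
    (hy : (B : ℚ) / (D : ℚ) ^ 3 = (B' : ℚ) / (D' : ℚ) ^ 3) : IsRep a b A' B' D' P := by
  obtain ⟨-, hh, e⟩ := h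
  have hh' : (curve a b).Nonsingular ((A' : ℚ) / (D' : ℚ) ^ 2) ((B' : ℚ) / (D' : ℚ) ^ 3) := by
    rw [← hx, ← hy]; exact hh
  refine ⟨hD', hh', ?_⟩
  rw [e]
  simp only [WeierstrassCurve.Affine.Point.some.injEq]
  exact ⟨hx, hy⟩

/-- Removing a common factor from a representation. -/
lemma IsRep.descale {a b A B D g : ℤ} {P : (curve a b).Point}
    (h : IsRep a b (g ^ 2 * A) (g ^ 3 * B) (g * D) P) : IsRep a b A B D P := by
  have hg : g ≠ 0 := left_ne_zero_of_mul h.1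
  have hD : D ≠ 0 := right_ne_zero_of_mul h.1
  have hg' : (g : ℚ) ≠ 0 := by exact_mod_cast hg
  have hD' : (D : ℚ) ≠ 0 := by exact_mod_cast hD
  apply h.unique hD
  · push_cast; field_simp
  · push_cast; field_simp

/-- Denominators for proportional representations. -/
lemma Dn_descale {a b A B D g : ℤ} {P : (curve a b).Point}
    (h : IsRep a b (g ^ 2 * A) (g ^ 3 * B) (g * D) P) (htor : ¬ IsOfFinAddOrder P) (n : ℕ) :
    Dn a (g ^ 2 * A) (g ^ 3 * B) (g * D) n = g ^ (n ^ 2) * Dn a A B D n := by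
  have hg : g ≠ 0 := left_ne_zero_of_mul h.1
  have hD : D ≠ 0 := right_ne_zero_of_mul h.1
  have hg' : (g : ℚ) ≠ 0 := by exact_mod_cast hg
  have hD' : (D : ℚ) ≠ 0 := by exact_mod_cast hD
  have h1 := Dn_eq_V (h.multSeq htor) h.1 n
  have h2 := Dn_eq_V (h.descale.multSeq htor) hD n
  have ex : ((g ^ 2 * A : ℤ) : ℚ) / ((g * D : ℤ) : ℚ) ^ 2 = (A : ℚ) / (D : ℚ) ^ 2 := by
    push_cast; field_simp
  have ey : ((g ^ 3 * B : ℤ) : ℚ) / ((g * D : ℤ) : ℚ) ^ 3 = (B : ℚ) / (D : ℚ) ^ 3 := by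
    push_cast; field_simp
  rw [ex, ey] at h1
  have h3 : ((Dn a (g ^ 2 * A) (g ^ 3 * B) (g * D) n : ℤ) : ℚ) =
      ((g ^ (n ^ 2) * Dn a A B D n : ℤ) : ℚ) := by
    rw [h1]
    push_cast
    rw [h2]; ring
  exact_mod_cast h3

/-- A point which is singular modulo `l` forces `l` to divide the discriminant. -/
lemma dvd_disc_of_sing {a b A B D l : ℤ} (hl : Prime l) (hlD : ¬ l ∣ D)
    (heq : B ^ 2 = A ^ 3 + a * A * D ^ 4 + b * D ^ 6) (h1 : l ∣ 2 * B)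
    (h2 : l ∣ 3 * A ^ 2 + a * D ^ 4) : l ∣ 4 * (4 * a ^ 3 + 27 * b ^ 2) := by
  have e : 4 * (4 * a ^ 3 + 27 * b ^ 2) * D ^ 8 =
      (2 * B) * (-(18 * a * A - 27 * b * D ^ 2) * (2 * B)) +
      (3 * A ^ 2 + a * D ^ 4) * (4 * (6 * a * A ^ 2 - 9 * b * A * D ^ 2 + 4 * a ^ 2 * D ^ 4)) := by
    linear_combination (4 * (18 * a * A - 27 * b * D ^ 2)) * heq
  have h3 : l ∣ 4 * (4 * a ^ 3 + 27 * b ^ 2) * D ^ 8 := by
    rw [e]
    exact dvd_add (Dvd.dvd.mul_right h1 _) (Dvd.dvd.mul_right h2 _)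
  rcases hl.dvd_or_dvd h3 with h4 | h4
  · exact h4
  · exact absurd (hl.dvd_of_dvd_pow h4) hlD

/-- The data of a section at a fibre. -/
theorem sec_data {p : ℕ} [hp : Fact p.Prime] (hp5 : 5 ≤ p) {a b X Y W : ℤ}
    {P : (curve a b).Point}
    (hP : IsRep a b X Y W P) (htor : ¬ IsOfFinAddOrder P)
    (hgood : ¬ (p : ℤ) ∣ 4 * a ^ 3 + 27 * b ^ 2)
    {Bh : (curve a b).Point → (curve a b).Point → ℚ_[p]} (hB : IsCanonicalHeight p a b Bh)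
    {R : ℤ} (hR : R ≠ 0) (hcommon : ∀ D : ℤ, D ∣ 2 * Y → D ∣ 3 * X ^ 2 + a * W ^ 4 → D ∣ R)
    {N : ℕ} (hN : ∀ l : ℕ, l.Prime → (l : ℤ) ∣ R →
      ∃ K, ¬ (l : ℤ) ^ K ∣ 4 * (4 * a ^ 3 + 27 * b ^ 2) ∧ l ^ (2 * K) + 1 ≤ N) :
    ∃ s G : ℕ, s ≤ R.natAbs ∧ 0 < G ∧ G ∣ (Dn a X Y W N.factorial).natAbs ∧
      Dn a X Y W N.factorial ≠ 0 ∧
      (∀ l : ℕ, l.Prime → l ∣ G → l ∣ R.natAbs) ∧ ¬ (p : ℤ) ∣ (G : ℤ) ∧
      SecHt p a b X Y W N.factorial s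
        (Bh P P - ulog (((G : ℕ) : ℤ) : ℤ_[p]) / (N.factorial : ℚ_[p]) ^ 2) := by
  have hpZ : Prime (p : ℤ) := Nat.prime_iff_prime_int.mp hp.out
  have hp0 : (p : ℤ) ≠ 0 := hpZ.ne_zero
  obtain ⟨G0, A₁, B₁, D₁, hG0, hD1, rfl, rfl, rfl, hprim⟩ :=
    reduce_rep a b _ _ _ _ hP.1 le_rfl hP.eqn
  -- the part of `G0` at `p`
  obtain ⟨s, g, hg, hG0e⟩ : ∃ (s : ℕ) (g : ℤ), ¬ (p : ℤ) ∣ g ∧ G0 = p ^ s * g := by
    have hfin : FiniteMultiplicity (p : ℤ) G0 :=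
      Int.finiteMultiplicity_iff.mpr ⟨by
        rw [Int.natAbs_natCast]; exact hp.out.ne_one, hG0.ne'⟩
    obtain ⟨g, hge, hgn⟩ := hfin.exists_eq_pow_mul_and_not_dvd
    exact ⟨_, g, hgn, hge⟩
  subst hG0e
  have hps : (p : ℤ) ^ s ≠ 0 := pow_ne_zero _ hp0
  set A : ℤ := g ^ 2 * A₁ with hA
  set B : ℤ := g ^ 3 * B₁ with hBdef
  set D : ℤ := g * D₁ with hD
  have eX : ((p : ℤ) ^ s * g) ^ 2 * A₁ = ((p : ℤ) ^ s) ^ 2 * A := by rw [hA]; ring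
  have eY : ((p : ℤ) ^ s * g) ^ 3 * B₁ = ((p : ℤ) ^ s) ^ 3 * B := by rw [hBdef]; ring
  have eW : (p : ℤ) ^ s * g * D₁ = (p : ℤ) ^ s * D := by rw [hD]; ring
  rw [eX, eY, eW] at hP hcommon ⊢
  have hP' : IsRep a b A B D P := hP.descale
  have hpD : ¬ ((p : ℤ) ∣ A ∧ (p : ℤ) ∣ D) := by
    rintro ⟨h1, h2⟩
    apply hprim p hpZ
    constructor
    · rcases hpZ.dvd_or_dvd h1 with h | h
      · exact absurd (hpZ.dvd_of_dvd_pow h) hg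
      · exact h
    · rcases hpZ.dvd_or_dvd h2 with h | h
      · exact absurd h hg
      · exact h
  have hup : ∀ l : ℤ, l ∣ 2 * B → l ∣ 3 * A ^ 2 + a * D ^ 4 → l ∣ R := by
    intro l h1 h2
    apply hcommon
    · rw [show 2 * (((p : ℤ) ^ s) ^ 3 * B) = (2 * B) * ((p : ℤ) ^ s) ^ 3 by ring]
      exact Dvd.dvd.mul_right h1 _
    · rw [show 3 * (((p : ℤ) ^ s) ^ 2 * A) ^ 2 + a * ((p : ℤ) ^ s * D) ^ 4 =
        (3 * A ^ 2 + a * D ^ 4) * ((p : ℤ) ^ s) ^ 4 by ring]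
      exact Dvd.dvd.mul_right h2 _
  obtain ⟨G, A₂, B₂, D₂, hG, hrep2, hcop, hDG, hGl⟩ := exists_good_multiple hP' htor (N := N) (by
    intro l hl h1 h2
    exact hN l hl (hup l h1 h2))
  have hsR : s ≤ R.natAbs := by
    have h1 : (p : ℤ) ^ s ∣ R := by
      apply hcommon
      · exact ⟨2 * (((p : ℤ) ^ s) ^ 2 * B), by ring⟩
      · exact ⟨3 * (((p : ℤ) ^ s) ^ 3 * A ^ 2) + a * (((p : ℤ) ^ s) ^ 3 * D ^ 4), by ring⟩
    have h2 := Nat.le_of_dvd (Int.natAbs_pos.mpr hR) (Int.natAbs_dvd_natAbs.mpr h1)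
    rw [Int.natAbs_pow, Int.natAbs_natCast] at h2
    exact (Nat.lt_pow_self hp.out.one_lt).le.trans h2
  have hpG : ¬ (p : ℤ) ∣ G := by
    intro hd
    obtain ⟨h1, h2⟩ := hGl p hp.out hd
    have hpD' : ¬ (p : ℤ) ∣ D := by
      intro h3
      apply hpD
      refine ⟨?_, h3⟩
      have h4 : (p : ℤ) ∣ 3 * A ^ 2 := by
        have e : 3 * A ^ 2 = (3 * A ^ 2 + a * D ^ 4) - D * (a * D ^ 3) := by ring
        rw [e]; exact dvd_sub h2 (Dvd.dvd.mul_right h3 _)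
      rcases hpZ.dvd_or_dvd h4 with h5 | h5
      · exfalso
        have := Int.le_of_dvd (by norm_num) h5
        omega
      · exact hpZ.dvd_of_dvd_pow h5
    have h3 := dvd_disc_of_sing hpZ hpD' hP'.eqn h1 h2
    rcases hpZ.dvd_or_dvd h3 with h4 | h4
    · have := Int.le_of_dvd (by norm_num) h4
      omega
    · exact hgood h4
  have hDnz : Dn a A B D N.factorial ≠ 0 :=
    Dn_ne (hP'.multSeq htor) hP'.1 _ (Nat.factorial_pos N)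
  have hDe := Dn_descale hP htor N.factorial
  obtain ⟨Gn, rfl⟩ : ∃ n : ℕ, G = n := ⟨G.toNat, (Int.toNat_of_nonneg hG.le).symm⟩
  refine ⟨s, Gn, hsR, by exact_mod_cast hG, ?_, ?_, ?_, hpG, ?_⟩
  · rw [hDe, hDG]
    have : (Gn : ℤ) ∣ ((p : ℤ) ^ s) ^ (N.factorial ^ 2) * (Gn * D₂) :=
      ⟨((p : ℤ) ^ s) ^ (N.factorial ^ 2) * D₂, by ring⟩
    have := Int.natAbs_dvd_natAbs.mpr this
    rwa [Int.natAbs_natCast] at this
  · rw [hDe]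
    exact mul_ne_zero (pow_ne_zero _ hps) hDnz
  · intro l hl hd
    obtain ⟨h1, h2⟩ := hGl l hl (by exact_mod_cast hd)
    have := Int.natAbs_dvd_natAbs.mpr (hup l h1 h2)
    rwa [Int.natAbs_natCast] at this
  · refine ⟨A, B, D, by rw [← pow_mul, mul_comm s 2], by rw [← pow_mul, mul_comm s 3], rfl, ?_⟩
    exact htCl_of_mult hp5 hP' htor (Nat.factorial_pos N) hrep2 hcop hDG hpG hB

end Pool.Agent.Lib.MP_3550b5_nt
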