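import Mathlib
import Pool.Agent.Lib.MP_3550b5_nt.SHt

namespace Pool.Agent.Lib.MP_3550b5_nt

open WeierstrassCurve.Affine

variable {l : ℕ} [hl : Fact l.Prime]

lemma norm_add_eq_left {x y : ℚ_[l]} (h : ‖y‖ < ‖x‖) : ‖x + y‖ = ‖x‖ := by
  rw [Padic.add_eq_max_of_ne h.ne', max_eq_left h.le]

/-- Norms of the coordinates of a point in the kernel of reduction. -/
lemma ker_norms {a b x y : ℚ_[l]} (ha : ‖a‖ ≤ 1) (hb : ‖b‖ ≤ 1) (hx : 1 < ‖x‖)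
    (E : y ^ 2 = x ^ 3 + a * x + b) :
    y ≠ 0 ∧ ‖x / y‖ ^ 2 * ‖x‖ = 1 ∧ ‖x / y‖ ^ 3 * ‖y‖ = 1 ∧ 0 < ‖x / y‖ ∧ ‖x / y‖ < 1 := by
  have hx0 : 0 < ‖x‖ := by linarith
  have h3 : ‖y‖ ^ 2 = ‖x‖ ^ 3 := by
    rw [← norm_pow, E, add_assoc]
    have h1 : ‖a * x + b‖ < ‖x ^ 3‖ := by
      refine lt_of_le_of_lt (Padic.nonarchimedean _ _) (max_lt ?_ ?_)
      · rw [norm_mul, norm_pow]
        calc ‖a‖ * ‖x‖ ≤ 1 * ‖x‖ := by gcongr
          _ < ‖x‖ ^ 3 := by nlinarith [mul_pos hx0 hx0]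
      · rw [norm_pow]
        calc ‖b‖ ≤ 1 := hb
          _ < ‖x‖ ^ 3 := one_lt_pow₀ hx (by norm_num)
    rw [norm_add_eq_left h1, norm_pow]
  have hy0 : 0 < ‖y‖ := by
    by_contra h0
    have : ‖y‖ = 0 := le_antisymm (not_lt.mp h0) (norm_nonneg _)
    rw [this] at h3
    have : 0 < ‖x‖ ^ 3 := by positivity
    linarith [h3]
  have hyne : y ≠ 0 := norm_pos_iff.mp hy0
  have hsq : ‖x / y‖ ^ 2 * ‖x‖ = 1 := by
    rw [norm_div, div_pow, h3]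
    field_simp
  have hpos : 0 < ‖x / y‖ := by rw [norm_div]; positivity
  refine ⟨hyne, hsq, ?_, hpos, ?_⟩
  · have h4 : (‖x / y‖ ^ 3 * ‖y‖) ^ 2 = 1 := by
      calc (‖x / y‖ ^ 3 * ‖y‖) ^ 2 = (‖x / y‖ ^ 2) ^ 3 * ‖y‖ ^ 2 := by ring
        _ = (‖x / y‖ ^ 2 * ‖x‖) ^ 3 := by rw [h3]; ring
        _ = 1 := by rw [hsq, one_pow]
    exact (pow_eq_one_iff_of_nonneg (by positivity) (by norm_num)).mp h4
  · by_contra hge
    push Not at hge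
    have : 1 < ‖x / y‖ ^ 2 * ‖x‖ := by
      calc 1 < ‖x‖ := hx
        _ = 1 * ‖x‖ := (one_mul _).symm
        _ ≤ ‖x / y‖ ^ 2 * ‖x‖ := by
            gcongr
            exact one_le_pow₀ hge
    linarith

/-- Three collinear points. -/
lemma line_lemma {a b x1 x2 x3 y1 y2 L M : ℚ_[l]} {τ : ℝ} (ha : ‖a‖ ≤ 1) (hb : ‖b‖ ≤ 1)
    (h1 : y1 = L * x1 + M) (h2 : y2 = L * x2 + M) (s1 : x1 + x2 + x3 = L ^ 2)
    (s2 : x1 * x2 + x1 * x3 + x2 * x3 = a - 2 * L * M) (s3 : x1 * x2 * x3 = M ^ 2 - b)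
    (hx1 : 1 < ‖x1‖) (hx2 : 1 < ‖x2‖) (E1 : y1 ^ 2 = x1 ^ 3 + a * x1 + b)
    (E2 : y2 ^ 2 = x2 ^ 3 + a * x2 + b) (ht1 : ‖x1 / y1‖ ≤ τ) (ht2 : ‖x2 / y2‖ = τ)
    (hLM : ‖L‖ ≤ τ ^ 2 * ‖M‖) :
    1 < ‖x3‖ ∧ ‖x1 / y1 + x2 / y2 + x3 / (L * x3 + M)‖ ≤ τ ^ 3 := by
  obtain ⟨n1, -, q1, p1, -⟩ := ker_norms ha hb hx1 E1
  obtain ⟨n2, -, q2, p2, r2⟩ := ker_norms ha hb hx2 E2
  have hτ0 : 0 < τ := by rw [← ht2]; exact p2
  have hτ1 : τ < 1 := by rw [← ht2]; exact r2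
  have hM : M ≠ 0 := by
    rintro rfl
    rw [norm_zero, mul_zero] at hLM
    have hL : L = 0 := norm_le_zero_iff.mp hLM
    apply n1
    rw [h1, hL]; ring
  have hMp : 0 < ‖M‖ := norm_pos_iff.mpr hM
  have hy1 : 0 < ‖y1‖ := norm_pos_iff.mpr n1
  have hy2 : 0 < ‖y2‖ := norm_pos_iff.mpr n2
  -- lower bound for `M`
  have hMlow : 1 ≤ ‖M‖ * (τ ^ 2 * ‖x1 / y1‖) := by
    have e : (1 : ℚ_[l]) = L * (x1 / y1) + M / y1 := by
      field_simp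
      exact h1
    have e2 : ‖(1 : ℚ_[l])‖ ≤ ‖M‖ * (τ ^ 2 * ‖x1 / y1‖) := by
      rw [e]
      refine (Padic.nonarchimedean _ _).trans (max_le ?_ ?_)
      · rw [norm_mul]
        calc ‖L‖ * ‖x1 / y1‖ ≤ (τ ^ 2 * ‖M‖) * ‖x1 / y1‖ := by gcongr
          _ = _ := by ring
      · have h5 : ‖M / y1‖ = ‖M‖ * ‖x1 / y1‖ ^ 3 := by
          rw [norm_div, div_eq_iff hy1.ne', mul_assoc, q1, mul_one]
        rw [h5]
        calc ‖M‖ * ‖x1 / y1‖ ^ 3 = ‖M‖ * (‖x1 / y1‖ ^ 2 * ‖x1 / y1‖) := by ring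
          _ ≤ ‖M‖ * (τ ^ 2 * ‖x1 / y1‖) := by gcongr
    rwa [norm_one] at e2
  have hLM' : ‖L‖ ≤ ‖M‖ := hLM.trans (by
    calc τ ^ 2 * ‖M‖ ≤ 1 * ‖M‖ := by
          gcongr
          exact pow_le_one₀ hτ0.le hτ1.le
      _ = ‖M‖ := one_mul _)
  have hLMlt : ‖L‖ < ‖M‖ := lt_of_le_of_lt hLM (by
    calc τ ^ 2 * ‖M‖ < 1 * ‖M‖ := by
          gcongr
          exact pow_lt_one₀ hτ0.le hτ1 (by norm_num)
      _ = ‖M‖ := one_mul _)
  -- product of the ordinates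
  have hprod : y1 * y2 * (L * x3 + M) = M ^ 3 + (a * L ^ 2 * M + -(b * L ^ 3)) := by
    rw [h1, h2]
    linear_combination (L * M ^ 2) * s1 + (L ^ 2 * M) * s2 + L ^ 3 * s3
  have hnum : x1 * y2 * (L * x3 + M) + y1 * x2 * (L * x3 + M) + y1 * y2 * x3 =
      2 * a * L * M + -(3 * b * L ^ 2) := by
    rw [h1, h2]
    linear_combination (M ^ 2) * s1 + (2 * L * M) * s2 + (3 * L ^ 2) * s3
  have hprodn : ‖y1 * y2 * (L * x3 + M)‖ = ‖M‖ ^ 3 := by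
    rw [hprod]
    have h5 : ‖a * L ^ 2 * M + -(b * L ^ 3)‖ < ‖M ^ 3‖ := by
      refine lt_of_le_of_lt (Padic.nonarchimedean _ _) (max_lt ?_ ?_)
      · rw [norm_mul, norm_mul, norm_pow, norm_pow]
        calc ‖a‖ * ‖L‖ ^ 2 * ‖M‖ ≤ 1 * ‖L‖ ^ 2 * ‖M‖ := by gcongr
          _ = ‖L‖ * ‖L‖ * ‖M‖ := by ring
          _ < ‖M‖ * ‖M‖ * ‖M‖ := by
              gcongr
          _ = ‖M‖ ^ 3 := by ring
      · rw [norm_neg, norm_mul, norm_pow, norm_pow]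
        calc ‖b‖ * ‖L‖ ^ 3 ≤ 1 * ‖L‖ ^ 3 := by gcongr
          _ = ‖L‖ ^ 3 := one_mul _
          _ < ‖M‖ ^ 3 := by gcongr
    rw [norm_add_eq_left h5, norm_pow]
  have hy3 : L * x3 + M ≠ 0 := by
    intro h0
    rw [h0, mul_zero, norm_zero] at hprodn
    have : 0 < ‖M‖ ^ 3 := by positivity
    linarith
  constructor
  · -- the third point
    have h6 : 1 < ‖L * x3 + M‖ := by
      have h7 : ‖y1‖ * ‖y2‖ * ‖L * x3 + M‖ = ‖M‖ ^ 3 := by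
        rw [← norm_mul, ← norm_mul]; exact hprodn
      have h8 : ‖L * x3 + M‖ = ‖M‖ ^ 3 * (‖x1 / y1‖ ^ 3 * ‖x2 / y2‖ ^ 3) := by
        calc ‖L * x3 + M‖ = (‖x1 / y1‖ ^ 3 * ‖y1‖) * (‖x2 / y2‖ ^ 3 * ‖y2‖) * ‖L * x3 + M‖ := by
              rw [q1, q2]; ring
          _ = (‖y1‖ * ‖y2‖ * ‖L * x3 + M‖) * (‖x1 / y1‖ ^ 3 * ‖x2 / y2‖ ^ 3) := by ring
          _ = _ := by rw [h7]
      have h9 : 1 ≤ ‖L * x3 + M‖ * τ ^ 3 := by
        rw [h8, ht2]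
        calc (1 : ℝ) = 1 ^ 3 := by norm_num
          _ ≤ (‖M‖ * (τ ^ 2 * ‖x1 / y1‖)) ^ 3 := by gcongr
          _ = ‖M‖ ^ 3 * (‖x1 / y1‖ ^ 3 * τ ^ 3) * τ ^ 3 := by ring
      by_contra hcon
      push Not at hcon
      have h10 : ‖L * x3 + M‖ * τ ^ 3 ≤ 1 * τ ^ 3 := by gcongr
      have h11 : τ ^ 3 < 1 := pow_lt_one₀ hτ0.le hτ1 (by norm_num)
      linarith
    by_contra hcon
    push Not at hcon
    have E3 : (L * x3 + M) ^ 2 = x3 ^ 3 + a * x3 + b := by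
      linear_combination (-x3 ^ 2) * s1 + x3 * s2 - s3
    have h7 : ‖L * x3 + M‖ ^ 2 ≤ 1 := by
      rw [← norm_pow, E3]
      refine (Padic.nonarchimedean _ _).trans (max_le ((Padic.nonarchimedean _ _).trans
        (max_le ?_ ?_)) hb)
      · rw [norm_pow]; exact pow_le_one₀ (norm_nonneg _) hcon
      · rw [norm_mul]; exact mul_le_one₀ ha (norm_nonneg _) hcon
    have h8 : 1 < ‖L * x3 + M‖ ^ 2 := one_lt_pow₀ h6 (by norm_num)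
    linarith
  · have e : x1 / y1 + x2 / y2 + x3 / (L * x3 + M) =
        (2 * a * L * M + -(3 * b * L ^ 2)) / (y1 * y2 * (L * x3 + M)) := by
      rw [← hnum, div_add_div _ _ n1 n2, div_add_div _ _ (mul_ne_zero n1 n2) hy3]
      congr 1
      ring
    rw [e, norm_div, hprodn, div_le_iff₀ (by positivity)]
    have h5 : ‖2 * a * L * M + -(3 * b * L ^ 2)‖ ≤ τ ^ 2 * ‖M‖ ^ 2 := by
      have i2 : ‖(2 : ℚ_[l])‖ ≤ 1 := by exact_mod_cast Padic.norm_int_le_one (p := l) 2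
      have i3 : ‖(3 : ℚ_[l])‖ ≤ 1 := by exact_mod_cast Padic.norm_int_le_one (p := l) 3
      refine (Padic.nonarchimedean _ _).trans (max_le ?_ ?_)
      · rw [norm_mul, norm_mul, norm_mul]
        calc ‖(2 : ℚ_[l])‖ * ‖a‖ * ‖L‖ * ‖M‖ ≤ 1 * 1 * (τ ^ 2 * ‖M‖) * ‖M‖ := by gcongr
          _ = _ := by ring
      · rw [norm_neg, norm_mul, norm_mul, norm_pow]
        calc ‖(3 : ℚ_[l])‖ * ‖b‖ * ‖L‖ ^ 2 ≤ 1 * 1 * ‖L‖ ^ 2 := by gcongr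
          _ = ‖L‖ * ‖L‖ := by ring
          _ ≤ (τ ^ 2 * ‖M‖) * ‖M‖ := by gcongr
          _ = _ := by ring
    have h6 : 1 ≤ ‖M‖ * τ ^ 3 := hMlow.trans (by
      calc ‖M‖ * (τ ^ 2 * ‖x1 / y1‖) ≤ ‖M‖ * (τ ^ 2 * τ) := by gcongr
        _ = ‖M‖ * τ ^ 3 := by ring)
    calc ‖2 * a * L * M + -(3 * b * L ^ 2)‖ ≤ τ ^ 2 * ‖M‖ ^ 2 := h5
      _ ≤ 1 * ‖M‖ ^ 2 * 1 := by
          have : τ ^ 2 ≤ 1 := pow_le_one₀ hτ0.le hτ1.le
          nlinarith [sq_nonneg ‖M‖]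
      _ ≤ 1 * ‖M‖ ^ 2 * (‖M‖ * τ ^ 3) := by gcongr
      _ = τ ^ 3 * ‖M‖ ^ 3 := by ring

/-- The slope of a chord. -/
lemma chord_slope {a b x1 x2 y1 y2 L M : ℚ_[l]} {τ : ℝ} (ha : ‖a‖ ≤ 1) (hb : ‖b‖ ≤ 1)
    (hx1 : 1 < ‖x1‖) (hx2 : 1 < ‖x2‖) (E1 : y1 ^ 2 = x1 ^ 3 + a * x1 + b)
    (E2 : y2 ^ 2 = x2 ^ 3 + a * x2 + b) (ht1 : ‖x1 / y1‖ ≤ τ) (ht2 : ‖x2 / y2‖ = τ)
    (hne : x1 ≠ x2) (hL : L * (x1 - x2) = y1 - y2) (hM : M = y1 - L * x1) :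
    ‖L‖ ≤ τ ^ 2 * ‖M‖ := by
  obtain ⟨n1, m1, q1, p1, r1⟩ := ker_norms ha hb hx1 E1
  obtain ⟨n2, m2, q2, p2, r2⟩ := ker_norms ha hb hx2 E2
  have hd' : x1 - x2 ≠ 0 := sub_ne_zero.mpr hne
  have hMd : M * (x1 - x2) = y2 * x1 - y1 * x2 := by
    rw [hM]
    linear_combination (-x1) * hL
  have hdp : 0 < ‖x1 - x2‖ := norm_pos_iff.mpr hd'
  apply le_of_mul_le_mul_right _ hdp
  rw [← norm_mul, mul_assoc, ← norm_mul, hL, hMd]
  have hτ0 : 0 ≤ τ := by rw [← ht2]; exact norm_nonneg _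
  have hτ1 : τ < 1 := by rw [← ht2]; exact r2
  obtain ⟨T1, hT1⟩ : ∃ T, T = x1 / y1 := ⟨_, rfl⟩
  obtain ⟨T2, hT2⟩ : ∃ T, T = x2 / y2 := ⟨_, rfl⟩
  obtain ⟨w1, hw1⟩ : ∃ T, T = 1 / y1 := ⟨_, rfl⟩
  obtain ⟨w2, hw2⟩ : ∃ T, T = 1 / y2 := ⟨_, rfl⟩
  have hW1 : w1 = T1 ^ 3 + a * T1 * w1 ^ 2 + b * w1 ^ 3 := by
    rw [hT1, hw1]
    field_simp
    linear_combination E1
  have hW2 : w2 = T2 ^ 3 + a * T2 * w2 ^ 2 + b * w2 ^ 3 := by
    rw [hT2, hw2]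
    field_simp
    linear_combination E2
  rw [← hT1] at q1 ht1
  rw [← hT2] at q2 ht2
  have hw1n : ‖w1‖ ≤ τ ^ 3 := by
    have : ‖w1‖ = ‖T1‖ ^ 3 := by
      rw [hw1, norm_div, norm_one, div_eq_iff (norm_pos_iff.mpr n1).ne', q1]
    rw [this]; gcongr
  have hw2n : ‖w2‖ ≤ τ ^ 3 := by
    have : ‖w2‖ = ‖T2‖ ^ 3 := by
      rw [hw2, norm_div, norm_one, div_eq_iff (norm_pos_iff.mpr n2).ne', q2]
    rw [this, ht2]
  have hτ3 : τ ^ 3 ≤ τ := by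
    calc τ ^ 3 = τ ^ 2 * τ := by ring
      _ ≤ 1 * τ := by
          gcongr
          exact pow_le_one₀ hτ0 hτ1.le
      _ = τ := one_mul _
  have hw1n' : ‖w1‖ ≤ τ := hw1n.trans hτ3
  have hw2n' : ‖w2‖ ≤ τ := hw2n.trans hτ3
  have hfac : (w1 - w2) * (1 + -(a * T2 * (w1 + w2) +
      b * (w1 ^ 2 + w1 * w2 + w2 ^ 2))) = (T1 - T2) * (T1 ^ 2 + T1 * T2 + T2 ^ 2 +
        a * w1 ^ 2) := by
    linear_combination hW1 - hW2
  have hsmall : ‖-(a * T2 * (w1 + w2) + b * (w1 ^ 2 + w1 * w2 + w2 ^ 2))‖ <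
      ‖(1 : ℚ_[l])‖ := by
    rw [norm_neg, norm_one]
    have hww : ‖w1 + w2‖ ≤ τ := (Padic.nonarchimedean _ _).trans (max_le hw1n' hw2n')
    refine lt_of_le_of_lt (Padic.nonarchimedean _ _) (max_lt ?_ ?_)
    · rw [norm_mul, norm_mul, ht2]
      calc ‖a‖ * τ * ‖w1 + w2‖ ≤ 1 * τ * τ := by gcongr
        _ < 1 := by nlinarith
    · rw [norm_mul]
      have h5 : ‖w1 ^ 2 + w1 * w2 + w2 ^ 2‖ ≤ τ ^ 2 := by
        refine (Padic.nonarchimedean _ _).trans (max_le ((Padic.nonarchimedean _ _).trans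
          (max_le ?_ ?_)) ?_)
        · rw [norm_pow]; gcongr
        · rw [norm_mul]
          calc ‖w1‖ * ‖w2‖ ≤ τ * τ := by gcongr
            _ = τ ^ 2 := by ring
        · rw [norm_pow]; gcongr
      calc ‖b‖ * ‖w1 ^ 2 + w1 * w2 + w2 ^ 2‖ ≤ 1 * τ ^ 2 := by gcongr
        _ < 1 := by
            rw [one_mul]; exact pow_lt_one₀ hτ0 hτ1 (by norm_num)
  have hle2 : ‖w1 - w2‖ ≤ τ ^ 2 * ‖T1 - T2‖ := by
    have h5 := congrArg norm hfac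
    rw [norm_mul, norm_add_eq_left hsmall, norm_one, mul_one, norm_mul] at h5
    rw [h5, mul_comm]
    have h6 : ‖T1 ^ 2 + T1 * T2 + T2 ^ 2 + a * w1 ^ 2‖ ≤ τ ^ 2 := by
      refine (Padic.nonarchimedean _ _).trans (max_le ((Padic.nonarchimedean _ _).trans
        (max_le ((Padic.nonarchimedean _ _).trans (max_le ?_ ?_)) ?_)) ?_)
      · rw [norm_pow]; gcongr
      · rw [norm_mul, ht2]
        calc ‖T1‖ * τ ≤ τ * τ := by gcongr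
          _ = τ ^ 2 := by ring
      · rw [norm_pow, ht2]
      · rw [norm_mul, norm_pow]
        calc ‖a‖ * ‖w1‖ ^ 2 ≤ 1 * τ ^ 2 := by gcongr
          _ = τ ^ 2 := one_mul _
    exact mul_le_mul_of_nonneg_right h6 (norm_nonneg _)
  have e3 : y1 - y2 = (y1 * y2) * (w2 - w1) := by
    rw [hw1, hw2]; field_simp
  have e4 : y2 * x1 - y1 * x2 = (y1 * y2) * (T1 - T2) := by
    rw [hT1, hT2]; field_simp
  rw [e3, e4, norm_mul, norm_mul (y1 * y2) (T1 - T2), norm_sub_rev w2 w1]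
  calc ‖y1 * y2‖ * ‖w1 - w2‖ ≤ ‖y1 * y2‖ * (τ ^ 2 * ‖T1 - T2‖) :=
        mul_le_mul_of_nonneg_left hle2 (norm_nonneg _)
    _ = τ ^ 2 * (‖y1 * y2‖ * ‖T1 - T2‖) := by ring

/-- The slope of a tangent. -/
lemma tangent_slope {a b x y L M : ℚ_[l]} (ha : ‖a‖ ≤ 1) (hb : ‖b‖ ≤ 1)
    (hx : 1 < ‖x‖) (E : y ^ 2 = x ^ 3 + a * x + b)
    (hL : 2 * y * L = 3 * x ^ 2 + a) (hM : M = y - L * x) :
    ‖L‖ ≤ ‖x / y‖ ^ 2 * ‖M‖ := by
  obtain ⟨n1, m1, q1, p1, r1⟩ := ker_norms ha hb hx E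
  have hx0 : 0 < ‖x‖ := by linarith
  have h20 : 2 * y ≠ 0 := mul_ne_zero two_ne_zero n1
  have hM2 : (2 * y) * M = -(x ^ 3) + (a * x + 2 * b) := by
    rw [hM]
    linear_combination 2 * E - x * hL
  have hnL : ‖3 * x ^ 2 + a‖ ≤ ‖x‖ ^ 2 := by
    have i3 : ‖(3 : ℚ_[l])‖ ≤ 1 := by exact_mod_cast Padic.norm_int_le_one (p := l) 3
    refine (Padic.nonarchimedean _ _).trans (max_le ?_ ?_)
    · rw [norm_mul, norm_pow]
      calc ‖(3 : ℚ_[l])‖ * ‖x‖ ^ 2 ≤ 1 * ‖x‖ ^ 2 := by gcongr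
        _ = _ := one_mul _
    · exact ha.trans (one_le_pow₀ hx.le)
  have hnM : ‖-(x ^ 3) + (a * x + 2 * b)‖ = ‖x‖ ^ 3 := by
    have i2 : ‖(2 : ℚ_[l])‖ ≤ 1 := by exact_mod_cast Padic.norm_int_le_one (p := l) 2
    have h5 : ‖a * x + 2 * b‖ < ‖-(x ^ 3)‖ := by
      rw [norm_neg, norm_pow]
      refine lt_of_le_of_lt (Padic.nonarchimedean _ _) (max_lt ?_ ?_)
      · rw [norm_mul]
        calc ‖a‖ * ‖x‖ ≤ 1 * ‖x‖ := by gcongr
          _ < ‖x‖ ^ 3 := by nlinarith [mul_pos hx0 hx0]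
      · rw [norm_mul]
        calc ‖(2 : ℚ_[l])‖ * ‖b‖ ≤ 1 * 1 := by gcongr
          _ < ‖x‖ ^ 3 := by
              rw [one_mul]; exact one_lt_pow₀ hx (by norm_num)
    rw [norm_add_eq_left h5, norm_neg, norm_pow]
  rw [← hL, norm_mul] at hnL
  rw [← hM2, norm_mul] at hnM
  have h2y : 0 < ‖2 * y‖ := norm_pos_iff.mpr h20
  apply le_of_mul_le_mul_left _ h2y
  calc _ ≤ ‖x‖ ^ 2 := hnL
    _ = (‖x / y‖ ^ 2 * ‖x‖) * ‖x‖ ^ 2 := by rw [m1, one_mul]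
    _ = ‖x / y‖ ^ 2 * ‖x‖ ^ 3 := by ring
    _ = _ := by rw [← hnM]; ring

/-- The local parameter of a point. -/
noncomputable def tt (l : ℕ) [Fact l.Prime] {a b : ℤ} (Q : (curve a b).Point) : ℚ_[l] :=
  ((ptX Q : ℚ) : ℚ_[l]) / ((ptY Q : ℚ) : ℚ_[l])

/-- The line through two points. -/
lemma exists_line {a b : ℤ} {x1 y1 x2 y2 : ℚ} (hh1 : (curve a b).Nonsingular x1 y1)
    (hh2 : (curve a b).Nonsingular x2 y2)
    (hne : (Point.some x1 y1 hh1 : (curve a b).Point) + Point.some x2 y2 hh2 ≠ 0) :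
    ∃ L M : ℚ, y1 = L * x1 + M ∧ y2 = L * x2 + M ∧
      x1 * x2 + x1 * (L ^ 2 - x1 - x2) + x2 * (L ^ 2 - x1 - x2) = a - 2 * L * M ∧
      x1 * x2 * (L ^ 2 - x1 - x2) = M ^ 2 - b ∧
      ptX ((Point.some x1 y1 hh1 : (curve a b).Point) + Point.some x2 y2 hh2) =
        L ^ 2 - x1 - x2 ∧
      ptY ((Point.some x1 y1 hh1 : (curve a b).Point) + Point.some x2 y2 hh2) =
        -(L * (L ^ 2 - x1 - x2) + M) ∧
      ((x1 ≠ x2 ∧ L * (x1 - x2) = y1 - y2) ∨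
        (x1 = x2 ∧ y1 = y2 ∧ 2 * y1 * L = 3 * x1 ^ 2 + a)) := by
  have E1 := curve_eq hh1
  have E2 := curve_eq hh2
  have hneg : ¬ (x1 = x2 ∧ y1 = -y2) := by
    rintro ⟨h3, h4⟩
    apply hne
    have : (Point.some x1 y1 hh1 : (curve a b).Point) = -Point.some x2 y2 hh2 := by
      rw [Point.neg_some]
      simp only [Point.some.injEq]
      exact ⟨h3, by rw [curve_negY]; exact h4⟩
    rw [this]
    exact neg_add_cancel _
  by_cases hxx : x1 = x2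
  · subst hxx
    have hyy : y1 = y2 := by
      have : (y1 - y2) * (y1 + y2) = 0 := by
        have e3 : (y1 - y2) * (y1 + y2) = y1 ^ 2 - y2 ^ 2 := by ring
        rw [e3, E1, E2]; ring
      rcases mul_eq_zero.mp this with h3 | h3
      · linarith
      · exact absurd ⟨rfl, by linarith⟩ hneg
    subst hyy
    have hy0 : y1 ≠ 0 := by
      intro h0
      exact hneg ⟨rfl, by rw [h0]; ring⟩
    have hYne : y1 ≠ (curve a b).negY x1 y1 := by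
      rw [curve_negY]
      intro h0
      exact hy0 (by linarith)
    refine ⟨(3 * x1 ^ 2 + a) / (2 * y1), y1 - (3 * x1 ^ 2 + a) / (2 * y1) * x1, by ring, by ring,
      ?_, ?_, ?_, ?_, Or.inr ⟨rfl, rfl, ?_⟩⟩
    · field_simp
      ring
    · field_simp
      linear_combination (-4 * y1 ^ 2) * E1
    · rw [Point.add_self_of_Y_ne hYne, ptX_some,
        WeierstrassCurve.Affine.slope_of_Y_ne rfl hYne, curve_negY]
      simp only [WeierstrassCurve.Affine.addX, curve]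
      ring_nf
    · rw [Point.add_self_of_Y_ne hYne, ptY_some,
        WeierstrassCurve.Affine.slope_of_Y_ne rfl hYne, curve_negY]
      simp only [WeierstrassCurve.Affine.addX, WeierstrassCurve.Affine.addY,
        WeierstrassCurve.Affine.negAddY, WeierstrassCurve.Affine.negY, curve]
      ring_nf
    · field_simp
  · have hd : x1 - x2 ≠ 0 := sub_ne_zero.mpr hxx
    obtain ⟨L, hL⟩ : ∃ L : ℚ, L = (y1 - y2) / (x1 - x2) := ⟨_, rfl⟩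
    have hLd : L * (x1 - x2) = y1 - y2 := by rw [hL]; field_simp
    have hs2 : x1 * x2 + x1 * (L ^ 2 - x1 - x2) + x2 * (L ^ 2 - x1 - x2) =
        a - 2 * L * (y1 - L * x1) := by
      apply mul_left_cancel₀ hd
      have e3 : (x1 - x2) * (x1 ^ 2 + x1 * x2 + x2 ^ 2 + a) = (y1 - y2) * (y1 + y2) := by
        linear_combination E2 - E1
      rw [← hLd] at e3
      have hy2' : y2 = y1 - L * (x1 - x2) := by rw [hLd]; ring
      rw [hy2'] at e3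
      linear_combination -e3
    refine ⟨L, y1 - L * x1, by ring, ?_, hs2, ?_, ?_, ?_, Or.inl ⟨hxx, hLd⟩⟩
    · linear_combination hLd
    · linear_combination (-1 : ℚ) * E1 + x1 * hs2
    · rw [Point.add_of_X_ne hxx, ptX_some, WeierstrassCurve.Affine.slope_of_X_ne hxx, ← hL]
      simp only [WeierstrassCurve.Affine.addX, curve]
      ring
    · rw [Point.add_of_X_ne hxx, ptY_some, WeierstrassCurve.Affine.slope_of_X_ne hxx, ← hL]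
      simp only [WeierstrassCurve.Affine.addX, WeierstrassCurve.Affine.addY,
        WeierstrassCurve.Affine.negAddY, WeierstrassCurve.Affine.negY, curve]
      ring

/-- Addition in the kernel of reduction. -/
lemma ker_add_some {a b : ℤ} {x1 y1 x2 y2 : ℚ} (hh1 : (curve a b).Nonsingular x1 y1)
    (hh2 : (curve a b).Nonsingular x2 y2) (h1 : 1 < ‖(x1 : ℚ_[l])‖) (h2 : 1 < ‖(x2 : ℚ_[l])‖)
    (hne : (Point.some x1 y1 hh1 : (curve a b).Point) + Point.some x2 y2 hh2 ≠ 0)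
    (hle : ‖(x1 : ℚ_[l]) / (y1 : ℚ_[l])‖ ≤ ‖(x2 : ℚ_[l]) / (y2 : ℚ_[l])‖) :
    1 < ‖((ptX ((Point.some x1 y1 hh1 : (curve a b).Point) + Point.some x2 y2 hh2) : ℚ) :
      ℚ_[l])‖ ∧
      ‖tt l ((Point.some x1 y1 hh1 : (curve a b).Point) + Point.some x2 y2 hh2) -
        (x1 : ℚ_[l]) / (y1 : ℚ_[l]) - (x2 : ℚ_[l]) / (y2 : ℚ_[l])‖ ≤
        ‖(x2 : ℚ_[l]) / (y2 : ℚ_[l])‖ ^ 3 := by
  have ha : ‖(a : ℚ_[l])‖ ≤ 1 := Padic.norm_int_le_one a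
  have hb : ‖(b : ℚ_[l])‖ ≤ 1 := Padic.norm_int_le_one b
  have E1 : (y1 : ℚ_[l]) ^ 2 = (x1 : ℚ_[l]) ^ 3 + (a : ℚ_[l]) * x1 + (b : ℚ_[l]) := by
    have := congrArg (fun z : ℚ => (z : ℚ_[l])) (curve_eq hh1)
    push_cast at this
    exact this
  have E2 : (y2 : ℚ_[l]) ^ 2 = (x2 : ℚ_[l]) ^ 3 + (a : ℚ_[l]) * x2 + (b : ℚ_[l]) := by
    have := congrArg (fun z : ℚ => (z : ℚ_[l])) (curve_eq hh2)
    push_cast at this
    exact this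
  obtain ⟨L, M, g1, g2, g3, g4, g5, g6, g7⟩ := exists_line hh1 hh2 hne
  have c1 := congrArg (fun z : ℚ => (z : ℚ_[l])) g1
  have c2 := congrArg (fun z : ℚ => (z : ℚ_[l])) g2
  have c3 := congrArg (fun z : ℚ => (z : ℚ_[l])) g3
  have c4 := congrArg (fun z : ℚ => (z : ℚ_[l])) g4
  push_cast at c1 c2 c3 c4
  have hLM : ‖(L : ℚ_[l])‖ ≤ ‖(x2 : ℚ_[l]) / (y2 : ℚ_[l])‖ ^ 2 * ‖(M : ℚ_[l])‖ := by
    rcases g7 with ⟨hxx, hLd⟩ | ⟨hxx, hyy, hLd⟩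
    · have hLd' := congrArg (fun z : ℚ => (z : ℚ_[l])) hLd
      push_cast at hLd'
      exact chord_slope ha hb h1 h2 E1 E2 hle rfl (by exact_mod_cast hxx) hLd'
        (by rw [c1]; ring)
    · subst hxx
      subst hyy
      have hLd' := congrArg (fun z : ℚ => (z : ℚ_[l])) hLd
      push_cast at hLd'
      exact tangent_slope ha hb h1 E1 hLd' (by rw [c1]; ring)
  have key := line_lemma (x3 := (L : ℚ_[l]) ^ 2 - (x1 : ℚ_[l]) - (x2 : ℚ_[l])) ha hb c1 c2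
    (by ring) c3 c4 h1 h2 E1 E2 hle rfl hLM
  have hX : ((ptX ((Point.some x1 y1 hh1 : (curve a b).Point) + Point.some x2 y2 hh2) : ℚ) :
      ℚ_[l]) = (L : ℚ_[l]) ^ 2 - x1 - x2 := by
    rw [g5]; push_cast; rfl
  refine ⟨by rw [hX]; exact key.1, ?_⟩
  have hT : tt l ((Point.some x1 y1 hh1 : (curve a b).Point) + Point.some x2 y2 hh2) -
      (x1 : ℚ_[l]) / (y1 : ℚ_[l]) - (x2 : ℚ_[l]) / (y2 : ℚ_[l]) = -((x1 : ℚ_[l]) / (y1 : ℚ_[l]) +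
      (x2 : ℚ_[l]) / (y2 : ℚ_[l]) + ((L : ℚ_[l]) ^ 2 - x1 - x2) /
        ((L : ℚ_[l]) * ((L : ℚ_[l]) ^ 2 - x1 - x2) + M)) := by
    rw [tt, hX, g6]
    push_cast
    rw [div_neg]
    ring
  rw [hT, norm_neg]
  exact key.2

lemma ne_zero_of_norm {a b : ℤ} {Q : (curve a b).Point} (h : 1 < ‖((ptX Q : ℚ) : ℚ_[l])‖) :
    Q ≠ 0 := by
  rintro rfl
  have : ((ptX (0 : (curve a b).Point) : ℚ) : ℚ_[l]) = 0 := by
    show (((0 : ℚ)) : ℚ_[l]) = 0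
    simp
  rw [this, norm_zero] at h
  linarith

lemma ker_add {a b : ℤ} {Q1 Q2 : (curve a b).Point} (h1 : 1 < ‖((ptX Q1 : ℚ) : ℚ_[l])‖)
    (h2 : 1 < ‖((ptX Q2 : ℚ) : ℚ_[l])‖) (hne : Q1 + Q2 ≠ 0) (hle : ‖tt l Q1‖ ≤ ‖tt l Q2‖) :
    1 < ‖((ptX (Q1 + Q2) : ℚ) : ℚ_[l])‖ ∧
      ‖tt l (Q1 + Q2) - tt l Q1 - tt l Q2‖ ≤ ‖tt l Q2‖ ^ 3 := by
  match Q1, Q2, h1, h2, hne, hle with
  | .zero, _, h1, _, _, _ => exact absurd rfl (ne_zero_of_norm h1)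
  | .some _ _ _, .zero, _, h2, _, _ => exact absurd rfl (ne_zero_of_norm h2)
  | .some x1 y1 hh1, .some x2 y2 hh2, h1, h2, hne, hle =>
    exact ker_add_some hh1 hh2 h1 h2 hne hle

lemma tt_pos {a b : ℤ} {Q : (curve a b).Point} (h : 1 < ‖((ptX Q : ℚ) : ℚ_[l])‖) :
    0 < ‖tt l Q‖ ∧ ‖tt l Q‖ ^ 2 < 1 ∧ ‖tt l Q‖ ^ 2 * ‖((ptX Q : ℚ) : ℚ_[l])‖ = 1 := by
  match Q, h with
  | .zero, h => exact absurd rfl (ne_zero_of_norm h)
  | .some x y hh, h =>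
    have E : (y : ℚ_[l]) ^ 2 = (x : ℚ_[l]) ^ 3 + (a : ℚ_[l]) * x + (b : ℚ_[l]) := by
      have := congrArg (fun z : ℚ => (z : ℚ_[l])) (curve_eq hh)
      push_cast at this
      exact this
    obtain ⟨-, h2, -, h4, h5⟩ := ker_norms (Padic.norm_int_le_one a) (Padic.norm_int_le_one b) h E
    exact ⟨h4, pow_lt_one₀ (norm_nonneg _) h5 (by norm_num), h2⟩

/-- Multiples in the kernel of reduction. -/
lemma ker_mult {a b : ℤ} {Q : (curve a b).Point} (h : 1 < ‖((ptX Q : ℚ) : ℚ_[l])‖) {N : ℕ}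
    (hN : ∀ n, 1 ≤ n → n < N → n • Q ≠ 0) : ∀ n, 1 ≤ n → n < N →
      1 < ‖((ptX (n • Q) : ℚ) : ℚ_[l])‖ ∧ ‖tt l (n • Q) - n * tt l Q‖ ≤ ‖tt l Q‖ ^ 3 := by
  intro n hn
  induction n, hn using Nat.le_induction with
  | base =>
    intro _
    rw [one_smul]
    refine ⟨h, ?_⟩
    have : tt l Q - ((1 : ℕ) : ℚ_[l]) * tt l Q = 0 := by push_cast; ring
    rw [this, norm_zero]; positivity
  | succ n hn ih =>
    intro hlt
    obtain ⟨i1, i2⟩ := ih (by omega)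
    obtain ⟨hp, hlt1, -⟩ := tt_pos h
    have hle : ‖tt l (n • Q)‖ ≤ ‖tt l Q‖ := by
      have e : tt l (n • Q) = (tt l (n • Q) - n * tt l Q) + n * tt l Q := by ring
      rw [e]
      refine (Padic.nonarchimedean _ _).trans (max_le (i2.trans ?_) ?_)
      · calc ‖tt l Q‖ ^ 3 = ‖tt l Q‖ ^ 2 * ‖tt l Q‖ := by ring
          _ ≤ 1 * ‖tt l Q‖ := by gcongr
          _ = _ := one_mul _
      · rw [norm_mul]
        have : ‖(n : ℚ_[l])‖ ≤ 1 := by exact_mod_cast Padic.norm_int_le_one (p := l) n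
        calc ‖(n : ℚ_[l])‖ * ‖tt l Q‖ ≤ 1 * ‖tt l Q‖ := by gcongr
          _ = _ := one_mul _
    have hne : n • Q + Q ≠ 0 := by
      rw [← succ_nsmul]; exact hN (n + 1) (by omega) hlt
    obtain ⟨k1, k2⟩ := ker_add i1 h hne hle
    rw [succ_nsmul]
    refine ⟨k1, ?_⟩
    have e : tt l (n • Q + Q) - ((n + 1 : ℕ) : ℚ_[l]) * tt l Q =
        (tt l (n • Q + Q) - tt l (n • Q) - tt l Q) + (tt l (n • Q) - n * tt l Q) := by
      push_cast; ring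
    rw [e]
    exact (Padic.nonarchimedean _ _).trans (max_le k2 i2)

lemma tt_neg {a b : ℤ} (Q : (curve a b).Point) : tt l (-Q) = -tt l Q := by
  match Q with
  | .zero =>
    have : -(Point.zero : (curve a b).Point) = Point.zero := rfl
    rw [this, tt]
    have : ((ptX (Point.zero : (curve a b).Point) : ℚ) : ℚ_[l]) = 0 := by
      show (((0 : ℚ)) : ℚ_[l]) = 0
      simp
    rw [this]; simp
  | .some x y hh =>
    rw [Point.neg_some, tt, tt, ptX_some, ptY_some, ptX_some, ptY_some, curve_negY]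
    push_cast
    rw [div_neg]

/-- The order of a point of the kernel of reduction. -/
lemma norm_order_le {a b : ℤ} {Q : (curve a b).Point} (h : 1 < ‖((ptX Q : ℚ) : ℚ_[l])‖)
    {N : ℕ} (hN0 : 2 ≤ N) (hNQ : N • Q = 0) (hN : ∀ n, 1 ≤ n → n < N → n • Q ≠ 0) :
    ‖(N : ℚ_[l])‖ ≤ ‖tt l Q‖ ^ 2 := by
  obtain ⟨-, k⟩ := ker_mult h hN (N - 1) (by omega) (by omega)
  have e : (N - 1) • Q = -Q := by
    have : (N - 1) • Q + Q = 0 := by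
      rw [← succ_nsmul, show N - 1 + 1 = N by omega]; exact hNQ
    exact eq_neg_of_add_eq_zero_left this
  rw [e, tt_neg] at k
  have e2 : -tt l Q - ((N - 1 : ℕ) : ℚ_[l]) * tt l Q = -((N : ℚ_[l]) * tt l Q) := by
    rw [Nat.cast_sub (by omega)]; push_cast; ring
  rw [e2, norm_neg, norm_mul] at k
  obtain ⟨hp, -, -⟩ := tt_pos h
  have : ‖(N : ℚ_[l])‖ * ‖tt l Q‖ ≤ ‖tt l Q‖ ^ 2 * ‖tt l Q‖ := by
    calc _ ≤ ‖tt l Q‖ ^ 3 := k
      _ = _ := by ring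
  exact le_of_mul_le_mul_right this hp

/-- The kernel of reduction has no torsion. -/
theorem ker_not_torsion {a b : ℤ} {Q : (curve a b).Point} (h : 1 < ‖((ptX Q : ℚ) : ℚ_[l])‖) :
    ¬ IsOfFinAddOrder Q := by
  intro htor
  have hQ0 := ne_zero_of_norm h
  obtain ⟨N, hN⟩ : ∃ N, N = addOrderOf Q := ⟨_, rfl⟩
  have hNpos : 0 < N := by rw [hN]; exact htor.addOrderOf_pos
  have hN1 : N ≠ 1 := by
    rw [hN]
    intro h1
    exact hQ0 (AddMonoid.addOrderOf_eq_one_iff.mp h1)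
  have hNQ : N • Q = 0 := by rw [hN]; exact addOrderOf_nsmul_eq_zero Q
  have hmin : ∀ n, 1 ≤ n → n < N → n • Q ≠ 0 := by
    intro n hn hlt h0
    rw [hN] at hlt
    have := addOrderOf_le_of_nsmul_eq_zero (by omega : 0 < n) h0
    omega
  have h1 := norm_order_le h (by omega) hNQ hmin
  obtain ⟨hp, hlt1, -⟩ := tt_pos h
  have hdvd : l ∣ N := by
    have h2 : ‖((N : ℤ) : ℚ_[l])‖ < 1 := by
      have := h1.trans_lt hlt1
      exact_mod_cast this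
    exact_mod_cast (Padic.norm_intCast_lt_one_iff).mp h2
  obtain ⟨m, hm⟩ := hdvd
  have hl2 := hl.out.two_le
  have hm1 : 1 ≤ m := by
    rcases Nat.eq_zero_or_pos m with h0 | h0
    · rw [h0, mul_zero] at hm; omega
    · exact h0
  have hmN : m < N := by rw [hm]; nlinarith
  obtain ⟨k1, -⟩ := ker_mult h hmin m hm1 hmN
  have h3 := norm_order_le k1 (N := l) hl2 (by rw [← mul_smul, ← hm]; exact hNQ) (by
    intro n hn hlt
    rw [← mul_smul]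
    apply hmin
    · exact Nat.mul_pos hn hm1
    · rw [hm]; exact Nat.mul_lt_mul_of_pos_right hlt hm1)
  obtain ⟨hp', hlt', hn'⟩ := tt_pos k1
  rw [Padic.norm_p] at h3
  -- the norm of the abscissa is at least `l ^ 2`
  set X : ℚ_[l] := ((ptX (m • Q) : ℚ) : ℚ_[l]) with hX
  have hX0 : X ≠ 0 := by
    intro h0
    rw [h0, norm_zero] at k1
    linarith
  have hl0 : (0 : ℝ) < l := by exact_mod_cast hl.out.pos
  have hl1 : (1 : ℝ) < l := by exact_mod_cast hl.out.one_lt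
  have h4 : ‖X‖ ≤ l := by
    have : (l : ℝ)⁻¹ * ‖X‖ ≤ 1 := by
      calc (l : ℝ)⁻¹ * ‖X‖ ≤ ‖tt l (m • Q)‖ ^ 2 * ‖X‖ := by gcongr
        _ = 1 := hn'
    calc ‖X‖ = (l : ℝ) * ((l : ℝ)⁻¹ * ‖X‖) := by field_simp
      _ ≤ l * 1 := by gcongr
      _ = l := mul_one _
  -- but it is an even power of `l`
  have h5 : tt l (m • Q) ≠ 0 := norm_pos_iff.mp hp'
  have h6 := Padic.norm_eq_zpow_neg_valuation h5
  rw [h6] at hn' hlt'
  rw [← zpow_natCast, ← zpow_mul] at hn' hlt'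
  have h7 : (l : ℝ) ^ (-(tt l (m • Q)).valuation * ((2 : ℕ) : ℤ)) < (l : ℝ) ^ (0 : ℤ) := by
    rw [zpow_zero]; exact hlt'
  have h8 := (zpow_lt_zpow_iff_right₀ hl1).mp h7
  have h9 : (l : ℝ) ^ (-(tt l (m • Q)).valuation * ((2 : ℕ) : ℤ)) ≤ (l : ℝ) ^ (-2 : ℤ) := by
    apply zpow_le_zpow_right₀ hl1.le
    push_cast at h8 ⊢
    omega
  have h10 : (1 : ℝ) ≤ (l : ℝ) ^ (-2 : ℤ) * l := by
    calc (1 : ℝ) = _ := hn'.symm
      _ ≤ (l : ℝ) ^ (-2 : ℤ) * l := by gcongr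
  have h11 : (l : ℝ) ^ (-2 : ℤ) * l = (l : ℝ)⁻¹ := by
    rw [← zpow_add_one₀ hl0.ne']
    norm_num
  rw [h11] at h10
  have h12 : (l : ℝ)⁻¹ < 1 := inv_lt_one_of_one_lt₀ hl1
  linarith

/-- The ordinate of a torsion point is a unit at the primes where the point is nonsingular. -/
theorem torsion_unit {a b A B D : ℤ} {P : (curve a b).Point} (hP : IsRep a b A B D P)
    (htor : IsOfFinAddOrder P) (hB : B ≠ 0) (hns : ¬ ((l : ℤ) ∣ 2 * B ∧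
      (l : ℤ) ∣ 3 * A ^ 2 + a * D ^ 4)) : ¬ (l : ℤ) ∣ B := by
  intro hd
  have hlZ : Prime (l : ℤ) := Nat.prime_iff_prime_int.mp hl.out
  have hn : ¬ (l : ℤ) ∣ 3 * A ^ 2 + a * D ^ 4 := fun h => hns ⟨Dvd.dvd.mul_left hd _, h⟩
  have hlD : ¬ (l : ℤ) ∣ D := by
    intro hD
    apply hn
    have hA : (l : ℤ) ∣ A := by
      apply hlZ.dvd_of_dvd_pow (n := 3)
      have e : A ^ 3 = B * B - D * (a * A * D ^ 3 + b * D ^ 5) := by
        linear_combination -hP.eqn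
      rw [e]
      exact dvd_sub (Dvd.dvd.mul_right hd _) (Dvd.dvd.mul_right hD _)
    exact dvd_add (Dvd.dvd.mul_left (dvd_pow hA (by norm_num)) _)
      (Dvd.dvd.mul_left (dvd_pow hD (by norm_num)) _)
  obtain ⟨hD0, hh, rfl⟩ := hP
  have hD0' : (D : ℚ) ≠ 0 := by exact_mod_cast hD0
  have hB0' : (B : ℚ) ≠ 0 := by exact_mod_cast hB
  set x : ℚ := (A : ℚ) / (D : ℚ) ^ 2 with hx
  set y : ℚ := (B : ℚ) / (D : ℚ) ^ 3 with hy
  have hy0 : y ≠ 0 := by rw [hy]; positivity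
  have hYne : y ≠ (curve a b).negY x y := by
    rw [curve_negY]
    intro h0
    exact hy0 (by linarith)
  have hX : ptX ((Point.some x y hh : (curve a b).Point) + Point.some x y hh) =
      ((3 * x ^ 2 + a) / (2 * y)) ^ 2 - x - x := by
    rw [Point.add_self_of_Y_ne hYne, ptX_some,
      WeierstrassCurve.Affine.slope_of_Y_ne rfl hYne, curve_negY]
    simp only [WeierstrassCurve.Affine.addX, curve]
    ring_nf
  have hDn : ‖(D : ℚ_[l])‖ = 1 := by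
    refine le_antisymm (Padic.norm_int_le_one D) ?_
    by_contra hlt
    exact hlD (Padic.norm_intCast_lt_one_iff.mp (not_le.mp hlt))
  have hxn : ‖(x : ℚ_[l])‖ ≤ 1 := by
    rw [hx]
    push_cast
    rw [norm_div, norm_pow, hDn, one_pow, div_one]
    exact Padic.norm_int_le_one A
  have hyn : ‖2 * (y : ℚ_[l])‖ < 1 := by
    rw [hy]
    push_cast
    rw [norm_mul, norm_div, norm_pow, hDn, one_pow, div_one]
    have h2 : ‖(2 : ℚ_[l])‖ ≤ 1 := by exact_mod_cast Padic.norm_int_le_one (p := l) 2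
    have h3 : ‖(B : ℚ_[l])‖ < 1 := Padic.norm_intCast_lt_one_iff.mpr hd
    calc ‖(2 : ℚ_[l])‖ * ‖(B : ℚ_[l])‖ ≤ 1 * ‖(B : ℚ_[l])‖ := by gcongr
      _ < 1 := by rw [one_mul]; exact h3
  have hfn : ‖3 * (x : ℚ_[l]) ^ 2 + a‖ = 1 := by
    have e : 3 * (x : ℚ_[l]) ^ 2 + a = (((3 * A ^ 2 + a * D ^ 4 : ℤ)) : ℚ_[l]) / (D : ℚ_[l]) ^ 4 := by
      have hD1 : (D : ℚ_[l]) ≠ 0 := by exact_mod_cast hD0
      rw [hx]; push_cast; field_simp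
    rw [e, norm_div, norm_pow, hDn, one_pow, div_one]
    refine le_antisymm (Padic.norm_int_le_one _) ?_
    by_contra hlt
    exact hn (Padic.norm_intCast_lt_one_iff.mp (not_le.mp hlt))
  have hy0l : (y : ℚ_[l]) ≠ 0 := by exact_mod_cast hy0
  have h2y : 0 < ‖2 * (y : ℚ_[l])‖ := norm_pos_iff.mpr (mul_ne_zero two_ne_zero hy0l)
  have hbig : 1 < ‖((ptX ((Point.some x y hh : (curve a b).Point) + Point.some x y hh) : ℚ) :
      ℚ_[l])‖ := by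
    rw [hX]
    push_cast
    have h5 : 1 < ‖((3 * (x : ℚ_[l]) ^ 2 + a) / (2 * y)) ^ 2‖ := by
      rw [norm_pow, norm_div, hfn]
      apply one_lt_pow₀ _ (by norm_num)
      rw [one_div]
      exact (one_lt_inv₀ h2y).mpr hyn
    have h6 : ‖-((x : ℚ_[l]) + x)‖ < ‖((3 * (x : ℚ_[l]) ^ 2 + a) / (2 * y)) ^ 2‖ := by
      rw [norm_neg]
      exact lt_of_le_of_lt ((Padic.nonarchimedean _ _).trans (max_le hxn hxn)) h5
    rw [show ((3 * (x : ℚ_[l]) ^ 2 + a) / (2 * y)) ^ 2 - x - x =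
      ((3 * (x : ℚ_[l]) ^ 2 + a) / (2 * y)) ^ 2 + -((x : ℚ_[l]) + x) by ring,
      norm_add_eq_left h6]
    exact h5
  apply ker_not_torsion hbig
  rw [← two_nsmul]
  exact htor.nsmul

end Pool.Agent.Lib.MP_3550b5_nt
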