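import Mathlib
import Pool.Agent.Lib.MP_3550b5_nt.SData
import Pool.Agent.Lib.MP_3550b5_nt.SCount
import Pool.Agent.Lib.MP_3550b5_nt.SRes
import Pool.Agent.Lib.MP_3550b5_nt.STors

namespace Pool.Agent.Lib.MP_3550b5_nt

open MvPolynomial

/-- The polynomial form of a section. -/
structure SecForm (d : ℕ) (a b : MvPolynomial (Fin 2) ℤ) (w : ℕ)
    (X Y W : MvPolynomial (Fin 2) ℤ) : Prop where
  homX : X.IsWeightedHomogeneous 1 (2 * (d + w))
  homY : Y.IsWeightedHomogeneous 1 (3 * (d + w))
  homW : W.IsWeightedHomogeneous 1 w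
  W_ne : W ≠ 0
  eqn : Y ^ 2 = X ^ 3 + a * X * W ^ 4 + b * W ^ 6
  smooth : ∀ z : Fin 2 → ℂ, z ≠ 0 → ¬ (aeval z (2 * Y) = 0 ∧ aeval z (3 * X ^ 2 + a * W ^ 4) = 0)

section

variable {d : ℕ} {a b : MvPolynomial (Fin 2) ℤ} {w : ℕ} {X Y W : MvPolynomial (Fin 2) ℤ}

lemma SecForm.hom2 (h : SecForm d a b w X Y W) :
    (2 * Y).IsWeightedHomogeneous 1 (3 * (d + w)) := by
  have h1 : (C (2 : ℤ) : MvPolynomial (Fin 2) ℤ).IsWeightedHomogeneous 1 0 :=
    isWeightedHomogeneous_C _ _
  have := h1.mul h.homY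
  rw [zero_add] at this
  exact this

lemma SecForm.hom3 (h : SecForm d a b w X Y W) (ha : a.IsWeightedHomogeneous 1 (4 * d)) :
    (3 * X ^ 2 + a * W ^ 4).IsWeightedHomogeneous 1 (4 * (d + w)) := by
  apply IsWeightedHomogeneous.add
  · have h1 : (C (3 : ℤ) : MvPolynomial (Fin 2) ℤ).IsWeightedHomogeneous 1 0 :=
      isWeightedHomogeneous_C _ _
    have := h1.mul (h.homX.pow 2)
    rw [zero_add, smul_eq_mul, show 2 * (2 * (d + w)) = 4 * (d + w) by ring] at this
    exact this
  · have := ha.mul (h.homW.pow 4)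
    rw [smul_eq_mul, show 4 * d + 4 * w = 4 * (d + w) by ring] at this
    exact this

/-- A form of positive degree has a nontrivial complex zero. -/
lemma exists_zero_of_form {F : MvPolynomial (Fin 2) ℤ} {e : ℕ}
    (hF : F.IsWeightedHomogeneous 1 e) (he : 1 ≤ e) : ∃ z : Fin 2 → ℂ, z ≠ 0 ∧ aeval z F = 0 := by
  by_contra hcon
  push Not at hcon
  set f : Polynomial ℂ := (dehom F).map (Int.castRingHom ℂ) with hf
  have hroot : ∀ x : ℂ, f.eval x ≠ 0 := by
    intro x
    rw [hf, dehom_eval]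
    apply hcon
    intro h0
    have := congrFun h0 1
    simp at this
  -- `f` is constant
  have hdeg : f.degree ≤ 0 := by
    by_contra hd
    push Not at hd
    obtain ⟨x, hx⟩ := Complex.exists_root hd
    exact hroot x hx
  obtain ⟨c, hc⟩ : ∃ c, f = Polynomial.C c := ⟨_, Polynomial.eq_C_of_degree_le_zero hdeg⟩
  -- the polynomial `F (1, s)`
  set g : Polynomial ℂ := aeval ![1, Polynomial.X] F with hg
  have hgev : ∀ s : ℂ, g.eval s = aeval ![1, s] F := by
    intro s
    rw [hg]
    have h := MvPolynomial.eval₂_comp_left (Polynomial.evalRingHom s)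
      (algebraMap ℤ (Polynomial ℂ)) ![1, Polynomial.X] F
    rw [aeval_def, aeval_def]
    refine h.trans ?_
    congr 1
    · ext n; simp
    · funext i
      fin_cases i
      · simp
      · simp
  have hFC : (F.map (Int.castRingHom ℂ)).IsWeightedHomogeneous 1 e := by
    intro d hd
    apply hF
    intro h0
    apply hd
    rw [MvPolynomial.coeff_map, h0, map_zero]
  have hkey : (g - Polynomial.C c * Polynomial.X ^ e) * Polynomial.X = 0 := by
    apply Polynomial.funext
    intro s
    rw [Polynomial.eval_mul, Polynomial.eval_X, Polynomial.eval_zero]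
    rcases eq_or_ne s 0 with h0 | h0
    · rw [h0, mul_zero]
    · have h2 := eval_scalV hFC s ![1 / s, 1]
      have h3 : scalV (1 : Fin 2 → ℕ) s ![1 / s, 1] = ![1, s] := by
        funext i
        fin_cases i
        · simp [scalV, h0]
        · simp [scalV]
      rw [h3] at h2
      have h4 : ∀ z : Fin 2 → ℂ, eval z (F.map (Int.castRingHom ℂ)) = aeval z F := by
        intro z
        rw [MvPolynomial.eval_map]; rfl
      rw [h4, h4, ← dehom_eval, ← hf, hc, Polynomial.eval_C, ← hgev] at h2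
      rw [Polynomial.eval_sub, Polynomial.eval_mul, Polynomial.eval_C, Polynomial.eval_pow,
        Polynomial.eval_X, h2]
      ring
  have hg0 : g = Polynomial.C c * Polynomial.X ^ e := by
    rcases mul_eq_zero.mp hkey with h | h
    · exact sub_eq_zero.mp h
    · exact absurd h Polynomial.X_ne_zero
  apply hcon ![1, 0]
  · intro h0
    have := congrFun h0 0
    simp at this
  · rw [← hgev, hg0, Polynomial.eval_mul, Polynomial.eval_pow, Polynomial.eval_X,
      zero_pow (by omega), mul_zero]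

lemma SecForm.Y_ne (h : SecForm d a b w X Y W) (ha : a.IsWeightedHomogeneous 1 (4 * d))
    (hd : 1 ≤ d) : Y ≠ 0 := by
  intro h0
  obtain ⟨z, hz, hz0⟩ := exists_zero_of_form (h.hom3 ha) (by omega)
  apply h.smooth z hz
  rw [h0]
  exact ⟨by simp, hz0⟩

lemma SecForm.common (h : SecForm d a b w X Y W) (ha : a.IsWeightedHomogeneous 1 (4 * d)) :
    ∃ R : ℤ, R ≠ 0 ∧ ∀ z : Fin 2 → ℤ, IsCoprime (z 0) (z 1) → ∀ D : ℤ,
      D ∣ 2 * eval z Y → D ∣ 3 * eval z X ^ 2 + eval z a * eval z W ^ 4 → D ∣ R := by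
  obtain ⟨R, hR, hc⟩ := exists_common_bound h.hom2 (h.hom3 ha) h.smooth
  refine ⟨R, hR, fun z hz D h1 h2 => hc z hz D ?_ ?_⟩
  · simpa using h1
  · simpa using h2

/-- The denominator polynomial of a multiple. -/
noncomputable def DnP (a X Y W : MvPolynomial (Fin 2) ℤ) (n : ℕ) : MvPolynomial (Fin 2) ℤ :=
  W * Wseq (a * W ^ 4) X Y n

lemma eval_DnP (a X Y W : MvPolynomial (Fin 2) ℤ) (n : ℕ) (z : Fin 2 → ℤ) :
    eval z (DnP a X Y W n) = Dn (eval z a) (eval z X) (eval z Y) (eval z W) n := by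
  rw [DnP, Dn, map_mul, Wseq_map, map_mul, map_pow]

/-- Count of the fibres where the section is a torsion point. -/
theorem torsion_count (h : SecForm d a b w X Y W) (ha : a.IsWeightedHomogeneous 1 (4 * d))
    (hd : 1 ≤ d) {R : ℤ} (hR : R ≠ 0) (hcommon : ∀ z : Fin 2 → ℤ, IsCoprime (z 0) (z 1) →
      ∀ D : ℤ, D ∣ 2 * eval z Y → D ∣ 3 * eval z X ^ 2 + eval z a * eval z W ^ 4 → D ∣ R) :
    ∃ C e : ℕ, ∀ N : ℕ, 1 ≤ N → ∀ E : Finset (Fin 2 → ℤ), (∀ z ∈ E, z ∈ box 2 N ∧
      IsCoprime (z 0) (z 1) ∧ ∃ P : (curve (eval z a) (eval z b)).Point,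
        IsRep (eval z a) (eval z b) (eval z X) (eval z Y) (eval z W) P ∧ IsOfFinAddOrder P) →
      E.card ≤ (3 * (d + w) * (2 * N + 1)) *
        (2 * (Nat.log 2 (C * N ^ e) + 1) ^ R.natAbs.primeFactors.card + 1) := by
  classical
  obtain ⟨C, e, hCe⟩ := exists_growth Y
  refine ⟨C, e, fun N hN E hE => ?_⟩
  set T : Finset ℕ := (Finset.Icc 1 (C * N ^ e)).filter
    (fun g => ∀ l : ℕ, l.Prime → l ∣ g → l ∈ R.natAbs.primeFactors) with hT
  have hTc : T.card ≤ (Nat.log 2 (C * N ^ e) + 1) ^ R.natAbs.primeFactors.card := by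
    apply card_smooth_le
    intro g hg
    rw [hT, Finset.mem_filter, Finset.mem_Icc] at hg
    exact ⟨by omega, hg.1.2, hg.2⟩
  set V : Finset ℤ := (T.image (fun g : ℕ => (g : ℤ)) ∪ T.image (fun g : ℕ => -(g : ℤ))) ∪ {0}
    with hV
  have hVc : V.card ≤ 2 * T.card + 1 := by
    rw [hV]
    refine (Finset.card_union_le _ _).trans ?_
    rw [Finset.card_singleton]
    have := (Finset.card_union_le (T.image (fun g : ℕ => (g : ℤ)))
      (T.image (fun g : ℕ => -(g : ℤ))))
    have h1 := Finset.card_image_le (s := T) (f := fun g : ℕ => (g : ℤ))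
    have h2 := Finset.card_image_le (s := T) (f := fun g : ℕ => -(g : ℤ))
    omega
  have hmaps : ∀ z ∈ E, eval z Y ∈ V := by
    intro z hz
    obtain ⟨hzb, hco, P, hP, htor⟩ := hE z hz
    rw [hV, Finset.mem_union, Finset.mem_union, Finset.mem_singleton]
    rcases eq_or_ne (eval z Y) 0 with h0 | h0
    · exact Or.inr h0
    · left
      have hbd := hCe N hN z (mem_box.mp hzb)
      have hmem : (eval z Y).natAbs ∈ T := by
        rw [hT, Finset.mem_filter, Finset.mem_Icc]
        refine ⟨⟨Int.natAbs_pos.mpr h0, ?_⟩, ?_⟩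
        · have : ((eval z Y).natAbs : ℤ) ≤ C * (N : ℤ) ^ e := by
            rw [Int.natCast_natAbs]; exact hbd
          exact_mod_cast this
        · intro l hl hd
          rw [Nat.mem_primeFactors]
          have : Fact l.Prime := ⟨hl⟩
          refine ⟨hl, ?_, Int.natAbs_ne_zero.mpr hR⟩
          by_contra hlR
          apply torsion_unit hP htor h0 (l := l) _ (Int.natCast_dvd.mpr hd)
          rintro ⟨h1, h2⟩
          exact hlR (Int.natCast_dvd.mp (hcommon z hco l h1 h2))
      rcases Int.natAbs_eq (eval z Y) with h1 | h1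
      · left
        rw [Finset.mem_image]
        exact ⟨_, hmem, h1.symm⟩
      · right
        rw [Finset.mem_image]
        exact ⟨_, hmem, h1.symm⟩
  have hfib : ∀ v ∈ V, (E.filter (fun z => eval z Y = v)).card ≤ 3 * (d + w) * (2 * N + 1) := by
    intro v _
    have hne : Y - MvPolynomial.C v ≠ 0 := by
      intro h0
      have hYv := sub_eq_zero.mp h0
      rcases eq_or_ne v 0 with hv | hv
      · apply h.Y_ne ha hd
        rw [hYv, hv, map_zero]
      · have h1 : coeff 0 Y ≠ 0 := by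
          rw [hYv, coeff_zero_C]; exact hv
        have h2 := h.homY h1
        rw [map_zero] at h2
        omega
    have hdeg : (Y - MvPolynomial.C v).totalDegree ≤ 3 * (d + w) := by
      refine (totalDegree_sub _ _).trans (max_le ?_ ?_)
      · exact IsHomogeneous.totalDegree_le h.homY
      · rw [totalDegree_C]; exact Nat.zero_le _
    have h3 := card_zeros_le (N := N) hne
    have h4 : (E.filter (fun z => eval z Y = v)).card ≤
        ((box (1 + 1) N).filter (fun z => eval z (Y - MvPolynomial.C v) = 0)).card := by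
      apply Finset.card_le_card
      intro z hz
      rw [Finset.mem_filter] at hz ⊢
      refine ⟨(hE z hz.1).1, ?_⟩
      rw [map_sub, eval_C, hz.2, sub_self]
    refine h4.trans (h3.trans ?_)
    rw [pow_one]
    exact Nat.mul_le_mul_right _ hdeg
  calc E.card ≤ (3 * (d + w) * (2 * N + 1)) * V.card :=
        Finset.card_le_mul_card_image_of_maps_to hmaps _ hfib
    _ ≤ _ := Nat.mul_le_mul_left _ (hVc.trans (by omega))

end

end Pool.Agent.Lib.MP_3550b5_nt
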