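import Mathlib
import Pool.Agent.Lib.MP_3550b5_nt.SMain

namespace Pool.Agent.Lib.MP_3550b5_nt

open MvPolynomial

/-- A fibre whose sections have infinite order and whose regulator is near `v`. -/
def GoodInf (p : ℕ) [Fact p.Prime] {r : ℕ} (v : ℚ_[p]) (K : ℕ) (a b : MvPolynomial (Fin 2) ℤ)
    (X Y W : Fin r → Fin r → MvPolynomial (Fin 2) ℤ) (z : Fin 2 → ℤ) : Prop :=
  GoodOrdinary p (eval z a) (eval z b) ∧
  ∃ (P : Fin r → (curve (eval z a) (eval z b)).Point)
    (B : (curve (eval z a) (eval z b)).Point → (curve (eval z a) (eval z b)).Point → ℚ_[p]),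
    IsCanonicalHeight p (eval z a) (eval z b) B ∧
    ‖regulator B P - v‖ ≤ (p : ℝ) ^ (-(K : ℤ)) ∧
    ∀ i j, i ≤ j → IsRep (eval z a) (eval z b) (eval z (X i j)) (eval z (Y i j))
      (eval z (W i j)) (if i = j then P i else P i - P j) ∧
      ¬ IsOfFinAddOrder (if i = j then P i else P i - P j)

/-- Numbers composed of the primes of `R`, with bounded exponents. -/
lemma le_of_smooth {G n h : ℕ} (hn : n ≠ 0) (hG : 0 < G)
    (h1 : ∀ l : ℕ, l.Prime → l ∣ G → l ∣ n) (h2 : ∀ l : ℕ, l.Prime → l ∣ n → ¬ l ^ h ∣ G) :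
    G ≤ n ^ h := by
  have hpos : 0 < n ^ h := Nat.pow_pos (Nat.pos_of_ne_zero hn)
  apply Nat.le_of_dvd hpos
  rw [← Nat.factorization_prime_le_iff_dvd hG.ne' hpos.ne']
  intro l hl
  rw [Nat.factorization_pow, Finsupp.smul_apply, smul_eq_mul]
  by_cases hd : l ∣ n
  · have h3 : G.factorization l < h := by
      by_contra hge
      push Not at hge
      exact h2 l hl hd ((hl.pow_dvd_iff_le_factorization hG.ne').mpr hge)
    have h4 : 1 ≤ n.factorization l := hl.factorization_pos_of_dvd hn hd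
    nlinarith
  · have h3 : G.factorization l = 0 :=
      Nat.factorization_eq_zero_of_not_dvd (fun hg => hd (h1 l hl hg))
    rw [h3]; exact Nat.zero_le _

/-- Count of the fibres with regulator near `v`. -/
theorem good_count {p : ℕ} [hp : Fact p.Prime] (hp5 : 5 ≤ p) {r : ℕ} (hr : 1 ≤ r) {d : ℕ}
    {a b : MvPolynomial (Fin 2) ℤ} (ha : a.IsWeightedHomogeneous 1 (4 * d))
    (hb : b.IsWeightedHomogeneous 1 (6 * d)) {w : Fin r → Fin r → ℕ}
    {X Y W : Fin r → Fin r → MvPolynomial (Fin 2) ℤ}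
    (hS : ∀ i j, i ≤ j → SecForm d a b (w i j) (X i j) (Y i j) (W i j))
    (hdet : (heightMatrix d w).det ≠ 0) {R : ℤ} (hR : R ≠ 0)
    (hcommon : ∀ i j, i ≤ j → ∀ z : Fin 2 → ℤ, IsCoprime (z 0) (z 1) → ∀ D : ℤ,
      D ∣ 2 * eval z (Y i j) →
      D ∣ 3 * eval z (X i j) ^ 2 + eval z a * eval z (W i j) ^ 4 → D ∣ R) (M h : ℕ) :
    ∃ Q c : ℕ, ∀ (v : ℚ_[p]) (K N m : ℕ), 1 ≤ m → m ≤ N → m ≤ p ^ K →
      ∀ E : Finset (Fin 2 → ℤ), (∀ z ∈ E, z ∈ box 2 N ∧
      IsCoprime (z 0) (z 1) ∧ GoodInf p v K a b X Y W z ∧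
      (∀ l : ℕ, l.Prime → (l : ℤ) ∣ R → ∃ K, ¬ (l : ℤ) ^ K ∣
        4 * (4 * eval z a ^ 3 + 27 * eval z b ^ 2) ∧ l ^ (2 * K) + 1 ≤ M) ∧
      ∀ l : ℕ, l.Prime → (l : ℤ) ∣ R → ∀ i j, i ≤ j →
        ¬ (l : ℤ) ^ h ∣ eval z (DnP a (X i j) (Y i j) (W i j) M.factorial)) →
      E.card ^ r * m ≤ Q ^ r * ((9 * r * N ^ 2) ^ r * p ^ c) := by
  classical
  have hp1 : 1 < p := hp.out.one_lt
  refine ⟨((R.natAbs + 1) * R.natAbs ^ h) ^ (r * r),
    r + (padicValInt p (heightMatrix d w).det +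
      3 * R.natAbs + (2 * padicValNat p M.factorial + 1) * r + 2),
      fun v K N m hm1 hmN hmK E hE => ?_⟩
  have hRn : R.natAbs ≠ 0 := Int.natAbs_ne_zero.mpr hR
  set T : Finset ℕ := Finset.Icc 1 (R.natAbs ^ h) with hT
  have hTc : T.card = R.natAbs ^ h := by rw [hT, Nat.card_Icc]; simp
  have h1T : 1 ∈ T := by
    rw [hT, Finset.mem_Icc]
    exact ⟨le_rfl, Nat.pow_pos (Nat.pos_of_ne_zero hRn)⟩
  -- data of a fibre
  have hdata : ∀ z ∈ E, ∃ sG : Fin r → Fin r → ℕ × ℕ, (∀ i j, (sG i j).1 ≤ R.natAbs ∧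
      (sG i j).2 ∈ T ∧ ¬ (p : ℤ) ∣ ((sG i j).2 : ℤ)) ∧
      InClass p v K M.factorial (fun i j => (sG i j).1)
        (fun i j => ulog ((((sG i j).2 : ℕ) : ℤ) : ℤ_[p]) / (M.factorial : ℚ_[p]) ^ 2)
        (eval z a) (eval z b) (fun i j => eval z (X i j)) (fun i j => eval z (Y i j))
        (fun i j => eval z (W i j)) := by
    intro z hz
    obtain ⟨hzb, hco, ⟨hord, P, B, hB, hreg, hrep⟩, hK, hDn⟩ := hE z hz
    have h1 : ∀ i j, ∃ sG : ℕ × ℕ, sG.1 ≤ R.natAbs ∧ sG.2 ∈ T ∧ ¬ (p : ℤ) ∣ (sG.2 : ℤ) ∧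
        (i ≤ j → SecHt p (eval z a) (eval z b) (eval z (X i j)) (eval z (Y i j))
          (eval z (W i j)) M.factorial sG.1
          (B (if i = j then P i else P i - P j) (if i = j then P i else P i - P j) -
            ulog (((sG.2 : ℕ) : ℤ) : ℤ_[p]) / (M.factorial : ℚ_[p]) ^ 2)) := by
      intro i j
      by_cases hij : i ≤ j
      · obtain ⟨h2, h3⟩ := hrep i j hij
        obtain ⟨s, G, g1, g2, g3, g4, g5, g6, g7⟩ := sec_data hp5 h2 h3 hord.1 hB hR
          (hcommon i j hij z hco) hK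
        refine ⟨(s, G), g1, ?_, g6, fun _ => g7⟩
        rw [hT, Finset.mem_Icc]
        refine ⟨g2, le_of_smooth hRn g2 g5 ?_⟩
        intro l hl hlR hlG
        apply hDn l hl (Int.natCast_dvd.mpr hlR) i j hij
        rw [eval_DnP]
        have h4 := hlG.trans g3
        have h5 := Int.natCast_dvd.mpr h4
        exact_mod_cast h5
      · refine ⟨(0, 1), Nat.zero_le _, h1T, ?_, fun h => absurd h hij⟩
        intro hd
        have := Int.le_of_dvd (by norm_num) hd
        push_cast at this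
        omega
    choose sG g1 g2 g3 g4 using h1
    refine ⟨sG, fun i j => ⟨g1 i j, g2 i j, g3 i j⟩, hord, Matrix.of fun i j => B (P i) (P j),
      fun i j => hB.symm _ _, hreg, fun i j hij => ?_⟩
    have h5 := g4 i j hij
    have h6 : qf (Matrix.of fun i j => B (P i) (P j)) i j =
        B (if i = j then P i else P i - P j) (if i = j then P i else P i - P j) := by
      rw [qf]
      split_ifs with h
      · rfl
      · rw [hB.sub_self]; rfl
    rw [h6]
    exact h5
  choose! f hf1 hf2 using hdata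
  rcases E.eq_empty_or_nonempty with hemp | hne
  · rw [hemp, Finset.card_empty, zero_pow (by omega), zero_mul]; exact Nat.zero_le _
  obtain ⟨q, hq, hmax⟩ := Finset.exists_max_image (E.image f)
    (fun q => (E.filter (fun z => f z = q)).card) (hne.image f)
  have h1 : E.card ≤ (E.filter (fun z => f z = q)).card * (E.image f).card :=
    Finset.card_le_mul_card_image _ _ (fun q' hq' => hmax q' hq')
  have h2 : (E.image f).card ≤ ((R.natAbs + 1) * R.natAbs ^ h) ^ (r * r) := by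
    have h3 : E.image f ⊆ Fintype.piFinset (fun _ : Fin r => Fintype.piFinset
        (fun _ : Fin r => (Finset.range (R.natAbs + 1)) ×ˢ T)) := by
      intro v' hv'
      obtain ⟨z, hz, rfl⟩ := Finset.mem_image.mp hv'
      rw [Fintype.mem_piFinset]
      intro i
      rw [Fintype.mem_piFinset]
      intro j
      obtain ⟨k1, k2, -⟩ := hf1 z hz i j
      rw [Finset.mem_product, Finset.mem_range]
      exact ⟨by omega, k2⟩
    refine (Finset.card_le_card h3).trans ?_
    rw [Fintype.card_piFinset, Finset.prod_const, Fintype.card_piFinset, Finset.prod_const,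
      Finset.card_univ, Fintype.card_fin, ← pow_mul, Finset.card_product, Finset.card_range, hTc]
  obtain ⟨z₀, hz₀, hz₀v⟩ := Finset.mem_image.mp hq
  have h3 := class_bound hp5 hr ha hb (fun i j hij => (hS i j hij).homX)
    (fun i j hij => (hS i j hij).homY) (fun i j hij => (hS i j hij).homW) hdet
    (Nat.factorial_pos M) (fun i j => (q i j).1) (S₀ := R.natAbs)
    (fun i j => by rw [← hz₀v]; exact (hf1 z₀ hz₀ i j).1)
    (fun i j => ulog ((((q i j).2 : ℕ) : ℤ) : ℤ_[p]) / (M.factorial : ℚ_[p]) ^ 2)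
    (by
      intro i j
      have hu : IsUnit ((((q i j).2 : ℕ) : ℤ) : ℤ_[p]) := by
        rw [← hz₀v]; exact isUnit_intCast (hf1 z₀ hz₀ i j).2.2
      have hn := norm_ulog_le (p := p) (by omega) hu
      have hM0 : ((M.factorial : ℕ) : ℚ_[p]) ≠ 0 := by
        exact_mod_cast (Nat.factorial_pos M).ne'
      have hMn := Padic.norm_eq_zpow_neg_valuation hM0
      rw [Padic.valuation_natCast] at hMn
      have hpR : (1 : ℝ) < p := by exact_mod_cast hp1
      have hp0 : (0 : ℝ) < p := by linarith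
      rw [norm_div, norm_pow, hMn, ← zpow_natCast, ← zpow_mul]
      rw [div_le_iff₀ (by positivity), ← zpow_natCast, ← zpow_add₀ hp0.ne']
      refine hn.trans ?_
      rw [← zpow_neg_one]
      apply zpow_le_zpow_right₀ hpR.le
      push_cast
      omega)
    v K N m hm1 hmN hmK (E.filter (fun z => f z = q))
    (fun z hz i => mem_box.mp (hE z (Finset.mem_filter.mp hz).1).1 i)
    (fun z hz => by
      obtain ⟨k1, k2⟩ := Finset.mem_filter.mp hz
      rw [← k2]
      exact hf2 z k1)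
  calc E.card ^ r * m ≤ ((E.filter (fun z => f z = q)).card * (E.image f).card) ^ r * m := by
        gcongr
    _ = (E.image f).card ^ r * ((E.filter (fun z => f z = q)).card ^ r * m) := by ring
    _ ≤ _ := Nat.mul_le_mul (Nat.pow_le_pow_left h2 r) h3

end Pool.Agent.Lib.MP_3550b5_nt
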