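import Mathlib
import Pool.Agent.Lib.MP_3550b5_nt.SMain2

namespace Pool.Agent.Lib.MP_3550b5_nt

open MvPolynomial Filter

/-- A family of finite sets is negligible in the plane. -/
def Negl (S : ℕ → Finset (Fin 2 → ℤ)) : Prop :=
  ∀ δ : ℝ, 0 < δ → ∀ᶠ N : ℕ in atTop, ((S N).card : ℝ) ≤ δ * (N : ℝ) ^ 2

lemma log_bound (C e A : ℕ) (δ : ℝ) (hδ : 0 < δ) :
    ∀ᶠ N : ℕ in atTop, (((Nat.log 2 (C * N ^ e) + 1) ^ A : ℕ) : ℝ) ≤ δ * N := by
  set c : ℝ := (C : ℝ) + 3 * e + 1 with hc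
  have hc0 : 0 < c := by positivity
  have h1 := (Real.isLittleO_pow_log_id_atTop (n := A)).def (c := δ / c ^ A) (by positivity)
  have h2 : ∀ᶠ N : ℕ in atTop, ‖Real.log (N : ℝ) ^ A‖ ≤ δ / c ^ A * ‖id (N : ℝ)‖ :=
    tendsto_natCast_atTop_atTop.eventually h1
  filter_upwards [h2, eventually_ge_atTop 3] with N hN hN3
  have hN0 : (0 : ℝ) < N := by exact_mod_cast (by omega : 0 < N)
  have hlog1 : 1 ≤ Real.log N := by
    rw [Real.le_log_iff_exp_le hN0]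
    have h3 : (3 : ℝ) ≤ N := by exact_mod_cast hN3
    exact (Real.exp_one_lt_d9.le.trans (by norm_num)).trans h3
  have hlog0 : 0 ≤ Real.log N := by linarith
  -- the discrete logarithm
  have h4 : Nat.log 2 (C * N ^ e) ≤ C + e * (Nat.log 2 N + 1) := by
    have h5 : C * N ^ e ≤ 2 ^ (C + e * (Nat.log 2 N + 1)) := by
      rw [pow_add, pow_mul']
      have h6 : N ≤ 2 ^ (Nat.log 2 N + 1) := (Nat.lt_pow_succ_log_self (by norm_num) N).le
      exact Nat.mul_le_mul (Nat.lt_two_pow_self).le (Nat.pow_le_pow_left h6 e)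
    calc Nat.log 2 (C * N ^ e) ≤ Nat.log 2 (2 ^ (C + e * (Nat.log 2 N + 1))) :=
          Nat.log_mono_right h5
      _ = _ := Nat.log_pow (by norm_num) _
  have h5 : (Nat.log 2 N : ℝ) ≤ 2 * Real.log N := by
    have h6 := Real.natLog_le_logb N 2
    rw [Real.logb] at h6
    push_cast at h6
    have h7 : (1 : ℝ) / 2 ≤ Real.log 2 := by
      have := Real.log_two_gt_d9
      linarith
    refine h6.trans ?_
    rw [div_le_iff₀ (by linarith)]
    nlinarith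
  have h6 : ((Nat.log 2 (C * N ^ e) + 1 : ℕ) : ℝ) ≤ c * Real.log N := by
    have h7 : ((Nat.log 2 (C * N ^ e) : ℕ) : ℝ) ≤ C + e * (2 * Real.log N + 1) := by
      calc ((Nat.log 2 (C * N ^ e) : ℕ) : ℝ) ≤ ((C + e * (Nat.log 2 N + 1) : ℕ) : ℝ) := by
            exact_mod_cast h4
        _ = C + e * ((Nat.log 2 N : ℝ) + 1) := by push_cast; ring
        _ ≤ C + e * (2 * Real.log N + 1) := by gcongr
    rw [hc]
    push_cast
    have hC0 : (0 : ℝ) ≤ C := Nat.cast_nonneg C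
    have he0 : (0 : ℝ) ≤ e := Nat.cast_nonneg e
    nlinarith [mul_nonneg hC0 (sub_nonneg.mpr hlog1), mul_nonneg he0 (sub_nonneg.mpr hlog1)]
  have h7 : Real.log N ^ A ≤ δ / c ^ A * N := by
    have h8 := hN
    simp only [id_eq, Real.norm_eq_abs] at h8
    rwa [abs_of_nonneg (pow_nonneg hlog0 A), abs_of_pos hN0] at h8
  calc (((Nat.log 2 (C * N ^ e) + 1) ^ A : ℕ) : ℝ) = ((Nat.log 2 (C * N ^ e) + 1 : ℕ) : ℝ) ^ A := by
        push_cast; ring
    _ ≤ (c * Real.log N) ^ A := by gcongr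
    _ = c ^ A * Real.log N ^ A := mul_pow _ _ _
    _ ≤ c ^ A * (δ / c ^ A * N) := by gcongr
    _ = δ * N := by field_simp

lemma negl_zeros {F : MvPolynomial (Fin 2) ℤ} (hF : F ≠ 0) :
    Negl (fun N => (box 2 N).filter (fun z => eval z F = 0)) := by
  intro δ hδ
  obtain ⟨n₀, hn₀⟩ := exists_nat_gt (3 * (F.totalDegree : ℝ) / δ)
  filter_upwards [eventually_ge_atTop (max n₀ 1)] with N hN
  have hN1 : 1 ≤ N := (le_max_right _ _).trans hN
  have hNn : n₀ ≤ N := (le_max_left _ _).trans hN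
  have h1 := card_zeros_le (N := N) hF
  rw [pow_one] at h1
  have h2 : (((box (1 + 1) N).filter (fun z => eval z F = 0)).card : ℝ) ≤
      F.totalDegree * (3 * N) := by
    calc _ ≤ ((F.totalDegree * (2 * N + 1) : ℕ) : ℝ) := by exact_mod_cast h1
      _ ≤ ((F.totalDegree * (3 * N) : ℕ) : ℝ) := by
          exact_mod_cast Nat.mul_le_mul_left _ (by omega)
      _ = _ := by push_cast; ring
  refine h2.trans ?_
  have h3 : 3 * (F.totalDegree : ℝ) ≤ δ * N := by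
    rw [div_lt_iff₀ hδ] at hn₀
    have : (n₀ : ℝ) ≤ N := by exact_mod_cast hNn
    nlinarith
  calc (F.totalDegree : ℝ) * (3 * N) = (3 * F.totalDegree) * N := by ring
    _ ≤ (δ * N) * N := by gcongr
    _ = δ * (N : ℝ) ^ 2 := by ring

/-- High divisibility is rare. -/
lemma small_dvd_one {l : ℕ} (hl : l.Prime) {F : MvPolynomial (Fin 2) ℤ} (hF : F ≠ 0) (δ : ℝ)
    (hδ : 0 < δ) : ∃ h : ℕ, ∀ h' : ℕ, h ≤ h' → ∀ᶠ N : ℕ in atTop,
      (((box 2 N).filter (fun z => (l : ℤ) ^ h' ∣ eval z F)).card : ℝ) ≤ δ * (N : ℝ) ^ 2 := by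
  obtain ⟨A, hA⟩ := card_dvd_le hl 2 F hF
  obtain ⟨j, hj⟩ := exists_nat_gt ((A : ℝ) / δ)
  obtain ⟨K, hK⟩ := hA j
  refine ⟨K, fun h' hh' => ?_⟩
  filter_upwards [eventually_ge_atTop (l ^ j)] with N hN
  have h1 := hK N hN
  have h2 : ((box 2 N).filter (fun z => (l : ℤ) ^ h' ∣ eval z F)).card ≤
      ((box 2 N).filter (fun z => (l : ℤ) ^ K ∣ eval z F)).card := by
    apply Finset.card_le_card
    intro z hz
    rw [Finset.mem_filter] at hz ⊢
    exact ⟨hz.1, (pow_dvd_pow _ hh').trans hz.2⟩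
  have h3 : (((box 2 N).filter (fun z => (l : ℤ) ^ h' ∣ eval z F)).card : ℝ) * (l : ℝ) ^ j ≤
      A * (N : ℝ) ^ 2 := by
    exact_mod_cast (Nat.mul_le_mul_right _ h2).trans h1
  have h4 : (A : ℝ) ≤ δ * (l : ℝ) ^ j := by
    have h5 : (j : ℝ) ≤ (l : ℝ) ^ j := by
      exact_mod_cast (Nat.lt_pow_self hl.one_lt).le
    rw [div_lt_iff₀ hδ] at hj
    nlinarith
  have hlj : (0 : ℝ) < (l : ℝ) ^ j := by
    have : (0 : ℝ) < l := by exact_mod_cast hl.pos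
    positivity
  apply le_of_mul_le_mul_right _ hlj
  calc _ ≤ A * (N : ℝ) ^ 2 := h3
    _ ≤ (δ * (l : ℝ) ^ j) * (N : ℝ) ^ 2 := by gcongr
    _ = _ := by ring

lemma small_dvd {ι : Type*} (s : Finset ι) (l : ι → ℕ) (F : ι → MvPolynomial (Fin 2) ℤ)
    (hl : ∀ k ∈ s, (l k).Prime) (hF : ∀ k ∈ s, F k ≠ 0) (δ : ℝ) (hδ : 0 < δ) :
    ∃ h : ℕ, ∀ᶠ N : ℕ in atTop,
      (((box 2 N).filter (fun z => ∃ k ∈ s, (l k : ℤ) ^ h ∣ eval z (F k))).card : ℝ) ≤
        δ * (N : ℝ) ^ 2 := by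
  classical
  have hδ' : 0 < δ / (s.card + 1) := by positivity
  have h1 : ∀ k ∈ s, ∃ h : ℕ, ∀ h' : ℕ, h ≤ h' → ∀ᶠ N : ℕ in atTop,
      (((box 2 N).filter (fun z => (l k : ℤ) ^ h' ∣ eval z (F k))).card : ℝ) ≤
        δ / (s.card + 1) * (N : ℝ) ^ 2 := fun k hk => small_dvd_one (hl k hk) (hF k hk) _ hδ'
  choose! g hg using h1
  refine ⟨∑ k ∈ s, g k, ?_⟩
  have h2 : ∀ᶠ N : ℕ in atTop, ∀ k ∈ s,
      (((box 2 N).filter (fun z => (l k : ℤ) ^ (∑ k ∈ s, g k) ∣ eval z (F k))).card : ℝ) ≤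
        δ / (s.card + 1) * (N : ℝ) ^ 2 := by
    rw [Filter.eventually_all_finset]
    intro k hk
    exact hg k hk _ (Finset.single_le_sum (f := g) (fun _ _ => Nat.zero_le _) hk)
  filter_upwards [h2] with N hN
  have h3 : (box 2 N).filter (fun z => ∃ k ∈ s, (l k : ℤ) ^ (∑ k ∈ s, g k) ∣ eval z (F k)) ⊆
      s.biUnion (fun k => (box 2 N).filter
        (fun z => (l k : ℤ) ^ (∑ k ∈ s, g k) ∣ eval z (F k))) := by
    intro z hz
    rw [Finset.mem_filter] at hz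
    obtain ⟨hz1, k, hk, hd⟩ := hz
    rw [Finset.mem_biUnion]
    exact ⟨k, hk, Finset.mem_filter.mpr ⟨hz1, hd⟩⟩
  have h4 : (((box 2 N).filter
      (fun z => ∃ k ∈ s, (l k : ℤ) ^ (∑ k ∈ s, g k) ∣ eval z (F k))).card : ℝ) ≤
      ∑ k ∈ s, (((box 2 N).filter
        (fun z => (l k : ℤ) ^ (∑ k ∈ s, g k) ∣ eval z (F k))).card : ℝ) := by
    exact_mod_cast (Finset.card_le_card h3).trans Finset.card_biUnion_le
  refine h4.trans ((Finset.sum_le_sum hN).trans ?_)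
  rw [Finset.sum_const, nsmul_eq_mul]
  have h5 : (s.card : ℝ) * (δ / (s.card + 1) * (N : ℝ) ^ 2) =
      (s.card / (s.card + 1)) * (δ * (N : ℝ) ^ 2) := by ring
  rw [h5]
  have h6 : (s.card : ℝ) / (s.card + 1) ≤ 1 := by
    rw [div_le_one (by positivity)]; linarith
  calc _ ≤ 1 * (δ * (N : ℝ) ^ 2) := by gcongr
    _ = _ := one_mul _

/-- Torsion fibres are negligible. -/
lemma negl_torsion {d : ℕ} {a b : MvPolynomial (Fin 2) ℤ} {w : ℕ}
    {X Y W : MvPolynomial (Fin 2) ℤ} (h : SecForm d a b w X Y W)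
    (ha : a.IsWeightedHomogeneous 1 (4 * d))
    (hd : 1 ≤ d) {R : ℤ} (hR : R ≠ 0) (hcommon : ∀ z : Fin 2 → ℤ, IsCoprime (z 0) (z 1) →
      ∀ D : ℤ, D ∣ 2 * eval z Y → D ∣ 3 * eval z X ^ 2 + eval z a * eval z W ^ 4 → D ∣ R)
    (S : ℕ → Finset (Fin 2 → ℤ)) (hS : ∀ N, ∀ z ∈ S N, z ∈ box 2 N ∧
      IsCoprime (z 0) (z 1) ∧ ∃ P : (curve (eval z a) (eval z b)).Point,
        IsRep (eval z a) (eval z b) (eval z X) (eval z Y) (eval z W) P ∧ IsOfFinAddOrder P) :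
    Negl S := by
  intro δ hδ
  obtain ⟨C, e, hC⟩ := torsion_count h ha hd hR hcommon
  set c : ℝ := 9 * ((d : ℝ) + w) with hc
  have hc0 : 0 < c := by
    rw [hc]
    have : (1 : ℝ) ≤ d := by exact_mod_cast hd
    positivity
  have h1 := log_bound C e R.natAbs.primeFactors.card (δ / (4 * c)) (by positivity)
  obtain ⟨n₀, hn₀⟩ := exists_nat_gt (2 * c / δ)
  filter_upwards [h1, eventually_ge_atTop (max n₀ 1)] with N hN hNm
  have hN1 : 1 ≤ N := (le_max_right _ _).trans hNm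
  have hNn : n₀ ≤ N := (le_max_left _ _).trans hNm
  have h2 := hC N hN1 (S N) (hS N)
  have hNR : (1 : ℝ) ≤ N := by exact_mod_cast hN1
  have h3 : ((S N).card : ℝ) ≤ (c * N) *
      (2 * (((Nat.log 2 (C * N ^ e) + 1) ^ R.natAbs.primeFactors.card : ℕ) : ℝ) + 1) := by
    calc ((S N).card : ℝ) ≤ (((3 * (d + w) * (2 * N + 1)) *
        (2 * (Nat.log 2 (C * N ^ e) + 1) ^ R.natAbs.primeFactors.card + 1) : ℕ) : ℝ) := by
          exact_mod_cast h2
      _ = (3 * ((d : ℝ) + w) * (2 * N + 1)) *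
        (2 * (((Nat.log 2 (C * N ^ e) + 1) ^ R.natAbs.primeFactors.card : ℕ) : ℝ) + 1) := by
          push_cast; ring
      _ ≤ _ := by
          apply mul_le_mul_of_nonneg_right _ (by positivity)
          rw [hc]
          have : (0 : ℝ) ≤ (d : ℝ) + w := by positivity
          nlinarith
  refine h3.trans ?_
  have h4 : 2 * c ≤ δ * N := by
    rw [div_lt_iff₀ hδ] at hn₀
    have : (n₀ : ℝ) ≤ N := by exact_mod_cast hNn
    nlinarith
  calc _ ≤ (c * N) * (2 * (δ / (4 * c) * N) + 1) := by gcongr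
    _ = δ / 2 * (N : ℝ) ^ 2 + c * N := by field_simp; ring
    _ ≤ δ / 2 * (N : ℝ) ^ 2 + δ / 2 * N * N := by
        have : c ≤ δ / 2 * N := by linarith
        gcongr
    _ = δ * (N : ℝ) ^ 2 := by ring

end Pool.Agent.Lib.MP_3550b5_nt
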