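import Mathlib
import Pool.Agent.Lib.MP_3550b5_nt.SAsym
import Pool.Agent.Lib.MP_3550b5_nt.SSpec
import Pool.Agent.Lib.MP_3550b5_nt.SDefs

namespace Pool.Agent.Lib.MP_3550b5_nt

open MvPolynomial Filter

section

variable {d : ℕ} {a b : MvPolynomial (Fin 2) ℤ} {w : ℕ} {X Y W : MvPolynomial (Fin 2) ℤ}

lemma algebraMap_frac_injective : Function.Injective
    (algebraMap (MvPolynomial (Fin 2) ℤ) (FractionRing (MvPolynomial (Fin 2) ℤ))) :=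
  IsFractionRing.injective _ _

lemma IsSection.secForm {P : (genericCurve a b).Point} (h : IsSection d a b w X Y W P) :
    SecForm d a b w X Y W := by
  refine ⟨h.homX, h.homY, h.homW, h.W_ne, ?_, h.nonsing⟩
  obtain ⟨hh, -⟩ := h.point
  have hW : algebraMap (MvPolynomial (Fin 2) ℤ) (FractionRing (MvPolynomial (Fin 2) ℤ)) W ≠ 0 :=
    (map_ne_zero_iff _ algebraMap_frac_injective).mpr h.W_ne
  have he : (_ : FractionRing (MvPolynomial (Fin 2) ℤ)) ^ 2 = _ := scurve_eq (a := algebraMap _ _ a)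
    (b := algebraMap _ _ b) hh
  apply algebraMap_frac_injective
  rw [div_pow, div_eq_iff (pow_ne_zero _ (pow_ne_zero _ hW))] at he
  simp only [map_pow, map_add, map_mul]
  rw [he]
  field_simp

/-- The fibre point. -/
lemma nonsing_of_disc {a b A B D : ℤ} (hD : D ≠ 0)
    (heq : B ^ 2 = A ^ 3 + a * A * D ^ 4 + b * D ^ 6) (hΔ : 4 * a ^ 3 + 27 * b ^ 2 ≠ 0) :
    (curve a b).Nonsingular ((A : ℚ) / (D : ℚ) ^ 2) ((B : ℚ) / (D : ℚ) ^ 3) := by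
  have hD' : (D : ℚ) ≠ 0 := by exact_mod_cast hD
  have heqQ : (B : ℚ) ^ 2 = (A : ℚ) ^ 3 + a * A * (D : ℚ) ^ 4 + b * (D : ℚ) ^ 6 := by
    exact_mod_cast heq
  obtain ⟨x, hx⟩ : ∃ x : ℚ, x = (A : ℚ) / (D : ℚ) ^ 2 := ⟨_, rfl⟩
  obtain ⟨y, hy⟩ : ∃ y : ℚ, y = (B : ℚ) / (D : ℚ) ^ 3 := ⟨_, rfl⟩
  have e : y ^ 2 = x ^ 3 + a * x + b := by
    rw [hx, hy]
    field_simp
    linear_combination heqQ
  rw [← hx, ← hy, WeierstrassCurve.Affine.nonsingular_iff]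
  refine ⟨?_, ?_⟩
  · rw [WeierstrassCurve.Affine.equation_iff]
    simp only [curve]
    linear_combination e
  · simp only [curve]
    by_contra hcon
    push Not at hcon
    obtain ⟨h1, h2⟩ := hcon
    apply hΔ
    have h3 : y = 0 := by linarith
    have h4 : 3 * x ^ 2 + a = 0 := by
      have : (0 : ℚ) * y = 3 * x ^ 2 + 2 * 0 * x + a := h1
      linarith
    have h5 : ((4 * a ^ 3 + 27 * b ^ 2 : ℤ) : ℚ) = 0 := by
      push_cast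
      have ha : (a : ℚ) = -3 * x ^ 2 := by linarith
      have hb : (b : ℚ) = 2 * x ^ 3 := by
        rw [h3, ha] at e
        linarith
      rw [ha, hb]; ring
    exact_mod_cast h5

end

/-- Evaluation at an integral pair, with rational values. -/
noncomputable def evQ (z : Fin 2 → ℤ) : MvPolynomial (Fin 2) ℤ →+* ℚ :=
  (Int.castRingHom ℚ).comp (eval z)

lemma evQ_apply (z : Fin 2 → ℤ) (F : MvPolynomial (Fin 2) ℤ) : evQ z F = ((eval z F : ℤ) : ℚ) := rfl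

lemma exists_spec {a b : MvPolynomial (Fin 2) ℤ} {d : ℕ} {w₁ w₂ w₃ : ℕ}
    {X₁ Y₁ W₁ X₂ Y₂ W₂ X₃ Y₃ W₃ : MvPolynomial (Fin 2) ℤ}
    [DecidableEq (FractionRing (MvPolynomial (Fin 2) ℤ))]
    {P₁ P₂ : (genericCurve a b).Point}
    (h1 : IsSection d a b w₁ X₁ Y₁ W₁ P₁) (h2 : IsSection d a b w₂ X₂ Y₂ W₂ P₂)
    (h3 : IsSection d a b w₃ X₃ Y₃ W₃ (P₁ - P₂)) :
    ∃ H : MvPolynomial (Fin 2) ℤ, H ≠ 0 ∧ ∀ z : Fin 2 → ℤ, eval z H ≠ 0 → eval z W₁ ≠ 0 →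
      eval z W₂ ≠ 0 → eval z W₃ ≠ 0 →
      SubRel (((eval z a : ℤ) : ℚ)) (((eval z X₁ : ℤ) : ℚ) / ((eval z W₁ : ℤ) : ℚ) ^ 2)
        (((eval z Y₁ : ℤ) : ℚ) / ((eval z W₁ : ℤ) : ℚ) ^ 3)
        (((eval z X₂ : ℤ) : ℚ) / ((eval z W₂ : ℤ) : ℚ) ^ 2)
        (((eval z Y₂ : ℤ) : ℚ) / ((eval z W₂ : ℤ) : ℚ) ^ 3)
        (((eval z X₃ : ℤ) : ℚ) / ((eval z W₃ : ℤ) : ℚ) ^ 2)
        (((eval z Y₃ : ℤ) : ℚ) / ((eval z W₃ : ℤ) : ℚ) ^ 3) := by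
  obtain ⟨hh1, e1⟩ := h1.point
  obtain ⟨hh2, e2⟩ := h2.point
  obtain ⟨hh3, e3⟩ := h3.point
  rw [e1, e2] at e3
  have hrel := subRel_of_sub (a := algebraMap _ (FractionRing (MvPolynomial (Fin 2) ℤ)) a)
    (b := algebraMap _ (FractionRing (MvPolynomial (Fin 2) ℤ)) b) hh1 hh2 hh3 e3
  obtain ⟨H, hH, hspec⟩ := subRel_transfer
    (algebraMap (MvPolynomial (Fin 2) ℤ) (FractionRing (MvPolynomial (Fin 2) ℤ)))
    algebraMap_frac_injective h1.W_ne h2.W_ne h3.W_ne hrel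
  refine ⟨H, hH, fun z k1 k2 k3 k4 => ?_⟩
  have hc : ∀ F : MvPolynomial (Fin 2) ℤ, eval z F ≠ 0 → evQ z F ≠ 0 := by
    intro F hF
    rw [evQ_apply]; exact_mod_cast hF
  exact hspec (evQ z) (hc _ k1) (hc _ k2) (hc _ k3) (hc _ k4)

end Pool.Agent.Lib.MP_3550b5_nt
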