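import Mathlib
import Pool.Agent.Lib.MP_3550b5_nt.SFinal

namespace Pool.Agent.Lib.MP_3550b5_nt

open MvPolynomial Filter

/-- The pair of a rational number. -/
noncomputable def pair (t : ℚ) : Fin 2 → ℤ := ![t.num, (t.den : ℤ)]

lemma pair_injective : Function.Injective pair := by
  intro s t h
  have h0 := congrFun h 0
  have h1 := congrFun h 1
  simp only [pair, Matrix.cons_val_zero, Matrix.cons_val_one] at h0 h1
  exact Rat.ext h0 (by exact_mod_cast h1)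

lemma pair_coprime (t : ℚ) : IsCoprime (pair t 0) (pair t 1) := by
  simp only [pair, Matrix.cons_val_zero, Matrix.cons_val_one]
  rw [Int.isCoprime_iff_nat_coprime]
  simpa using t.reduced

lemma disc_ne_of_good {p : ℕ} {a b : ℤ} (h : GoodOrdinary p a b) :
    4 * a ^ 3 + 27 * b ^ 2 ≠ 0 := by
  intro h0
  apply h.1
  rw [h0]; exact dvd_zero _

variable {p : ℕ} [hp : Fact p.Prime]

/-- The three cases. -/
lemma fibre_cases {r d : ℕ} {a b : MvPolynomial (Fin 2) ℤ} {w : Fin r → Fin r → ℕ}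
    {X Y W : Fin r → Fin r → MvPolynomial (Fin 2) ℤ}
    (hS : ∀ i j, i ≤ j → SecForm d a b (w i j) (X i j) (Y i j) (W i j))
    (H : Fin r → Fin r → MvPolynomial (Fin 2) ℤ)
    (hH : ∀ i j, i < j → ∀ z : Fin 2 → ℤ, eval z (H i j) ≠ 0 → eval z (W i i) ≠ 0 →
      eval z (W j j) ≠ 0 → eval z (W i j) ≠ 0 →
      SubRel (((eval z a : ℤ) : ℚ)) (((eval z (X i i) : ℤ) : ℚ) / ((eval z (W i i) : ℤ) : ℚ) ^ 2)
        (((eval z (Y i i) : ℤ) : ℚ) / ((eval z (W i i) : ℤ) : ℚ) ^ 3)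
        (((eval z (X j j) : ℤ) : ℚ) / ((eval z (W j j) : ℤ) : ℚ) ^ 2)
        (((eval z (Y j j) : ℤ) : ℚ) / ((eval z (W j j) : ℤ) : ℚ) ^ 3)
        (((eval z (X i j) : ℤ) : ℚ) / ((eval z (W i j) : ℤ) : ℚ) ^ 2)
        (((eval z (Y i j) : ℤ) : ℚ) / ((eval z (W i j) : ℤ) : ℚ) ^ 3))
    {v : ℚ_[p]} {K : ℕ} {t : ℚ}
    (ht : FibreNear p v K a b (fun i => X i i) (fun i => Y i i) (fun i => W i i) t)
    (hWt : ∀ i j, i ≤ j → eval (pair t) (W i j) ≠ 0)
    (hHt : ∀ i j, i < j → eval (pair t) (H i j) ≠ 0) :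
    (∃ i j, i ≤ j ∧ ∃ P : (curve (eval (pair t) a) (eval (pair t) b)).Point,
      IsRep (eval (pair t) a) (eval (pair t) b) (eval (pair t) (X i j)) (eval (pair t) (Y i j))
        (eval (pair t) (W i j)) P ∧ IsOfFinAddOrder P) ∨
    GoodInf p v K a b X Y W (pair t) := by
  obtain ⟨hord, B, Q, hB, hcase⟩ := ht
  have hord' : GoodOrdinary p (eval (pair t) a) (eval (pair t) b) := hord
  have hΔ := disc_ne_of_good hord'
  have hns : ∀ i j, i ≤ j → (curve (eval (pair t) a) (eval (pair t) b)).Nonsingular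
      (((eval (pair t) (X i j) : ℤ) : ℚ) / ((eval (pair t) (W i j) : ℤ) : ℚ) ^ 2)
      (((eval (pair t) (Y i j) : ℤ) : ℚ) / ((eval (pair t) (W i j) : ℤ) : ℚ) ^ 3) := by
    intro i j hij
    apply nonsing_of_disc (hWt i j hij) _ hΔ
    have := congrArg (eval (pair t)) (hS i j hij).eqn
    simpa only [map_pow, map_add, map_mul] using this
  -- the points
  obtain ⟨P, hP, hreg⟩ : ∃ P : Fin r → (curve (eval (pair t) a) (eval (pair t) b)).Point,
      (∀ i, P i = .some _ _ (hns i i le_rfl)) ∧ ‖regulator B P - v‖ ≤ (p : ℝ) ^ (-(K : ℤ)) := by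
    rcases hcase with ⟨hval, hreg⟩ | ⟨hv, hMW, hreg⟩
    · refine ⟨Q, fun i => ?_, hreg⟩
      rcases hval i with ⟨h0, -⟩ | ⟨-, hh, he⟩
      · exact absurd h0 (hWt i i le_rfl)
      · exact he
    · refine ⟨fun i => .some _ _ (hns i i le_rfl), fun i => rfl, ?_⟩
      rw [hv, sub_zero]
      exact (regulator_le_of_basis hB hMW _).trans hreg
  have hrep : ∀ i j, i ≤ j → IsRep (eval (pair t) a) (eval (pair t) b) (eval (pair t) (X i j))
      (eval (pair t) (Y i j)) (eval (pair t) (W i j)) (if i = j then P i else P i - P j) := by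
    intro i j hij
    refine ⟨hWt i j hij, hns i j hij, ?_⟩
    rcases eq_or_lt_of_le hij with h | h
    · subst h
      rw [if_pos rfl]
      exact hP i
    · rw [if_neg h.ne, hP i, hP j]
      have hrel := hH i j h (pair t) (hHt i j h) (hWt i i le_rfl) (hWt j j le_rfl) (hWt i j hij)
      exact sub_of_subRel (a := ((eval (pair t) a : ℤ) : ℚ)) (b := ((eval (pair t) b : ℤ) : ℚ))
        (hns i i le_rfl) (hns j j le_rfl) (hns i j hij) hrel
  by_cases htor : ∃ i j, i ≤ j ∧ IsOfFinAddOrder (if i = j then P i else P i - P j)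
  · obtain ⟨i, j, hij, ht⟩ := htor
    exact Or.inl ⟨i, j, hij, _, hrep i j hij, ht⟩
  · push Not at htor
    exact Or.inr ⟨hord', P, B, hB, hreg, fun i j hij => ⟨hrep i j hij, htor i j hij⟩⟩

/-- Small balls for the regulators of the fibres. -/
theorem fibres_main (hp5 : 5 ≤ p) {r : ℕ} (hr : 1 ≤ r) {d : ℕ} (hd : 1 ≤ d)
    {a b : MvPolynomial (Fin 2) ℤ} (ha : a.IsWeightedHomogeneous 1 (4 * d))
    (hb : b.IsWeightedHomogeneous 1 (6 * d)) (hΔ : 4 * a ^ 3 + 27 * b ^ 2 ≠ 0)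
    {w : Fin r → Fin r → ℕ} {X Y W : Fin r → Fin r → MvPolynomial (Fin 2) ℤ}
    (hS : ∀ i j, i ≤ j → SecForm d a b (w i j) (X i j) (Y i j) (W i j))
    (hdet : (heightMatrix d w).det ≠ 0)
    (H : Fin r → Fin r → MvPolynomial (Fin 2) ℤ) (hH0 : ∀ i j, i < j → H i j ≠ 0)
    (hH : ∀ i j, i < j → ∀ z : Fin 2 → ℤ, eval z (H i j) ≠ 0 → eval z (W i i) ≠ 0 →
      eval z (W j j) ≠ 0 → eval z (W i j) ≠ 0 →
      SubRel (((eval z a : ℤ) : ℚ)) (((eval z (X i i) : ℤ) : ℚ) / ((eval z (W i i) : ℤ) : ℚ) ^ 2)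
        (((eval z (Y i i) : ℤ) : ℚ) / ((eval z (W i i) : ℤ) : ℚ) ^ 3)
        (((eval z (X j j) : ℤ) : ℚ) / ((eval z (W j j) : ℤ) : ℚ) ^ 2)
        (((eval z (Y j j) : ℤ) : ℚ) / ((eval z (W j j) : ℤ) : ℚ) ^ 3)
        (((eval z (X i j) : ℤ) : ℚ) / ((eval z (W i j) : ℤ) : ℚ) ^ 2)
        (((eval z (Y i j) : ℤ) : ℚ) / ((eval z (W i j) : ℤ) : ℚ) ^ 3))
    (v : ℚ_[p]) (ε : ℝ) (hε : 0 < ε) :
    ∃ K N₀ : ℕ, ∀ N : ℕ, N₀ ≤ N →
      (({t : ℚ | |t.num| ≤ N ∧ (t.den : ℤ) ≤ N ∧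
        FibreNear p v K a b (fun i => X i i) (fun i => Y i i) (fun i => W i i) t}.ncard : ℕ) : ℝ) ≤
        ε * (N : ℝ) ^ 2 := by
  classical
  set δ : ℝ := ε / 8 with hδ
  have hδ0 : 0 < δ := by positivity
  -- common divisors
  have hcom : ∀ i j, ∃ R : ℤ, R ≠ 0 ∧ (i ≤ j → ∀ z : Fin 2 → ℤ, IsCoprime (z 0) (z 1) →
      ∀ D : ℤ, D ∣ 2 * eval z (Y i j) →
      D ∣ 3 * eval z (X i j) ^ 2 + eval z a * eval z (W i j) ^ 4 → D ∣ R) := by
    intro i j
    by_cases hij : i ≤ j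
    · obtain ⟨R, hR, hR2⟩ := (hS i j hij).common ha
      exact ⟨R, hR, fun _ => hR2⟩
    · exact ⟨1, one_ne_zero, fun h => absurd h hij⟩
  choose R₀ hR₀ hR₀c using hcom
  set R : ℤ := ∏ i, ∏ j, R₀ i j with hR
  have hR0 : R ≠ 0 := Finset.prod_ne_zero_iff.mpr fun i _ =>
    Finset.prod_ne_zero_iff.mpr fun j _ => hR₀ i j
  have hcommon : ∀ i j, i ≤ j → ∀ z : Fin 2 → ℤ, IsCoprime (z 0) (z 1) → ∀ D : ℤ,
      D ∣ 2 * eval z (Y i j) →
      D ∣ 3 * eval z (X i j) ^ 2 + eval z a * eval z (W i j) ^ 4 → D ∣ R := by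
    intro i j hij z hz D h1 h2
    refine (hR₀c i j hij z hz D h1 h2).trans ?_
    exact (Finset.dvd_prod_of_mem (fun j => R₀ i j) (Finset.mem_univ j)).trans
      (Finset.dvd_prod_of_mem (fun i => ∏ j, R₀ i j) (Finset.mem_univ i))
  set 𝓛 := R.natAbs.primeFactors with h𝓛
  have hmem𝓛 : ∀ l : ℕ, l.Prime → (l : ℤ) ∣ R → l ∈ 𝓛 := fun l hl hd => by
    rw [h𝓛, Nat.mem_primeFactors]
    exact ⟨hl, Int.natCast_dvd.mp hd, Int.natAbs_ne_zero.mpr hR0⟩
  -- first exceptional set: zeros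
  set Z : MvPolynomial (Fin 2) ℤ := ∏ i, ∏ j, (if i ≤ j then W i j * (if i < j then H i j else 1)
    else 1) with hZ
  have hZ0 : Z ≠ 0 := by
    rw [hZ]
    refine Finset.prod_ne_zero_iff.mpr fun i _ => Finset.prod_ne_zero_iff.mpr fun j _ => ?_
    split_ifs with h1 h2
    · exact mul_ne_zero (hS i j h1).W_ne (hH0 i j h2)
    · exact mul_ne_zero (hS i j h1).W_ne one_ne_zero
    · exact one_ne_zero
  have hZf : ∀ z : Fin 2 → ℤ, eval z Z ≠ 0 → (∀ i j, i ≤ j → eval z (W i j) ≠ 0) ∧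
      ∀ i j, i < j → eval z (H i j) ≠ 0 := by
    intro z hz
    rw [hZ, map_prod] at hz
    have h1 := fun i => Finset.prod_ne_zero_iff.mp hz i (Finset.mem_univ i)
    have h2 : ∀ i j, eval z (if i ≤ j then W i j * (if i < j then H i j else 1) else 1) ≠ 0 := by
      intro i j
      have := h1 i
      rw [map_prod] at this
      exact Finset.prod_ne_zero_iff.mp this j (Finset.mem_univ j)
    constructor
    · intro i j hij h0
      have := h2 i j
      rw [if_pos hij, map_mul, h0, zero_mul] at this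
      exact this rfl
    · intro i j hij h0
      have := h2 i j
      rw [if_pos hij.le, if_pos hij, map_mul, h0, mul_zero] at this
      exact this rfl
  have hE1 := negl_zeros hZ0 δ hδ0
  -- second exceptional set: high divisibility of the discriminant
  have hD0 : (4 * (4 * a ^ 3 + 27 * b ^ 2) : MvPolynomial (Fin 2) ℤ) ≠ 0 :=
    mul_ne_zero (by norm_num) hΔ
  obtain ⟨h₂, hE2⟩ := small_dvd 𝓛 (fun l => l) (fun _ => 4 * (4 * a ^ 3 + 27 * b ^ 2))
    (fun l hl => Nat.prime_of_mem_primeFactors hl) (fun _ _ => hD0) δ hδ0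
  set M : ℕ := ∑ l ∈ 𝓛, (l ^ (2 * h₂) + 1) with hM
  have hMl : ∀ l ∈ 𝓛, l ^ (2 * h₂) + 1 ≤ M := fun l hl =>
    Finset.single_le_sum (f := fun l => l ^ (2 * h₂) + 1) (fun _ _ => Nat.zero_le _) hl
  -- third exceptional set: torsion
  set E3 : Fin r → Fin r → ℕ → Finset (Fin 2 → ℤ) := fun i j N => (box 2 N).filter
    (fun z => IsCoprime (z 0) (z 1) ∧ i ≤ j ∧ ∃ P : (curve (eval z a) (eval z b)).Point,
        IsRep (eval z a) (eval z b) (eval z (X i j)) (eval z (Y i j)) (eval z (W i j)) P ∧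
          IsOfFinAddOrder P) with hE3def
  have hδr : 0 < δ / (r * r) := by
    have : (0 : ℝ) < r := by exact_mod_cast (by omega : 0 < r)
    positivity
  have hE3 : ∀ᶠ N : ℕ in atTop, ∀ ij ∈ (Finset.univ : Finset (Fin r × Fin r)),
      ((E3 ij.1 ij.2 N).card : ℝ) ≤ δ / (r * r) * (N : ℝ) ^ 2 := by
    rw [Filter.eventually_all_finset]
    rintro ⟨i, j⟩ -
    by_cases hij : i ≤ j
    · apply negl_torsion (hS i j hij) ha hd hR0 (hcommon i j hij) (E3 i j) _ _ hδr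
      intro N z hz
      rw [hE3def, Finset.mem_filter] at hz
      exact ⟨hz.1, hz.2.1, hz.2.2.2⟩
    · filter_upwards with N
      have : E3 i j N = ∅ := by
        rw [hE3def]
        apply Finset.filter_eq_empty_iff.mpr
        rintro z - ⟨-, h, -⟩
        exact hij h
      simp only [this, Finset.card_empty, Nat.cast_zero]
      positivity
  -- fourth exceptional set and the main count
  have hE4 : ∃ K : ℕ, ∀ᶠ N : ℕ in atTop, (((box 2 N).filter (fun z => IsCoprime (z 0) (z 1) ∧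
      GoodInf p v K a b X Y W z ∧ ¬ ∃ l ∈ 𝓛, (l : ℤ) ^ h₂ ∣
        eval z (4 * (4 * a ^ 3 + 27 * b ^ 2)))).card : ℝ) ≤ 2 * δ * (N : ℝ) ^ 2 := by
    by_cases hDn : ∀ i j, i ≤ j → DnP a (X i j) (Y i j) (W i j) M.factorial ≠ 0
    · obtain ⟨h₄, hE4⟩ := small_dvd
        ((𝓛 ×ˢ (Finset.univ : Finset (Fin r × Fin r))).filter (fun k => k.2.1 ≤ k.2.2))
        (fun k => k.1) (fun k => DnP a (X k.2.1 k.2.2) (Y k.2.1 k.2.2) (W k.2.1 k.2.2) M.factorial)
        (fun k hk => by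
          rw [Finset.mem_filter, Finset.mem_product] at hk
          exact Nat.prime_of_mem_primeFactors hk.1.1)
        (fun k hk => hDn _ _ (Finset.mem_filter.mp hk).2) δ hδ0
      obtain ⟨Q, c, hQc⟩ := good_count hp5 hr ha hb hS hdet hR0 hcommon M h₄
      -- choice of `K`
      have hp1 : (1 : ℝ) < p := by exact_mod_cast hp.out.one_lt
      obtain ⟨K, hK⟩ := pow_unbounded_of_one_lt
        ((Q : ℝ) ^ r * ((9 * r) ^ r * p ^ c) / δ ^ r) hp1
      refine ⟨K, ?_⟩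
      filter_upwards [hE4, eventually_ge_atTop (p ^ K)] with N hN4 hNK
      set S := (box 2 N).filter (fun z => IsCoprime (z 0) (z 1) ∧
        GoodInf p v K a b X Y W z ∧ ¬ ∃ l ∈ 𝓛, (l : ℤ) ^ h₂ ∣
          eval z (4 * (4 * a ^ 3 + 27 * b ^ 2))) with hSdef
      set S' := S.filter (fun z => ¬ ∃ k ∈ ((𝓛 ×ˢ (Finset.univ : Finset (Fin r × Fin r))).filter
        (fun k => k.2.1 ≤ k.2.2)), (k.1 : ℤ) ^ h₄ ∣
          eval z (DnP a (X k.2.1 k.2.2) (Y k.2.1 k.2.2) (W k.2.1 k.2.2) M.factorial)) with hS'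
      have hcount := hQc v K N (p ^ K) (Nat.one_le_pow _ _ hp.out.pos) hNK le_rfl S' (by
        intro z hz
        rw [hS', Finset.mem_filter, hSdef, Finset.mem_filter] at hz
        obtain ⟨⟨hzb, hco, hgood, hdisc⟩, hdn⟩ := hz
        refine ⟨hzb, hco, hgood, ?_, ?_⟩
        · intro l hl hlR
          refine ⟨h₂, ?_, hMl l (hmem𝓛 l hl hlR)⟩
          intro hd
          apply hdisc
          refine ⟨l, hmem𝓛 l hl hlR, ?_⟩
          simpa only [map_mul, map_add, map_pow, map_ofNat] using hd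
        · intro l hl hlR i j hij hd
          apply hdn
          refine ⟨(l, (i, j)), ?_, hd⟩
          rw [Finset.mem_filter, Finset.mem_product]
          exact ⟨⟨hmem𝓛 l hl hlR, Finset.mem_univ _⟩, hij⟩)
      have hS'c : (S'.card : ℝ) ≤ δ * (N : ℝ) ^ 2 := by
        have h1 : ((S'.card : ℝ)) ^ r * (p : ℝ) ^ K ≤ (Q : ℝ) ^ r *
            ((9 * r * (N : ℝ) ^ 2) ^ r * (p : ℝ) ^ c) := by exact_mod_cast hcount
        rw [div_lt_iff₀ (by positivity)] at hK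
        have hpK : (0 : ℝ) < (p : ℝ) ^ K := by positivity
        have h2 : ((S'.card : ℝ)) ^ r ≤ (δ * (N : ℝ) ^ 2) ^ r := by
          apply le_of_mul_le_mul_right _ hpK
          calc ((S'.card : ℝ)) ^ r * (p : ℝ) ^ K ≤ (Q : ℝ) ^ r *
              ((9 * r * (N : ℝ) ^ 2) ^ r * (p : ℝ) ^ c) := h1
            _ = ((Q : ℝ) ^ r * ((9 * r) ^ r * p ^ c)) * ((N : ℝ) ^ 2) ^ r := by
                rw [mul_pow (9 * (r : ℝ))]; ring
            _ ≤ ((p : ℝ) ^ K * δ ^ r) * ((N : ℝ) ^ 2) ^ r := by gcongr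
            _ = (δ * (N : ℝ) ^ 2) ^ r * (p : ℝ) ^ K := by rw [mul_pow]; ring
        exact (pow_le_pow_iff_left₀ (by positivity) (by positivity) (by omega)).mp h2
      have hsplit := Finset.card_filter_add_card_filter_not (s := S)
        (fun z => ∃ k ∈ ((𝓛 ×ˢ (Finset.univ : Finset (Fin r × Fin r))).filter
        (fun k => k.2.1 ≤ k.2.2)), (k.1 : ℤ) ^ h₄ ∣
          eval z (DnP a (X k.2.1 k.2.2) (Y k.2.1 k.2.2) (W k.2.1 k.2.2) M.factorial))
      have hle : (S.filter (fun z => ∃ k ∈ ((𝓛 ×ˢ (Finset.univ : Finset (Fin r × Fin r))).filter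
        (fun k => k.2.1 ≤ k.2.2)), (k.1 : ℤ) ^ h₄ ∣
          eval z (DnP a (X k.2.1 k.2.2) (Y k.2.1 k.2.2) (W k.2.1 k.2.2) M.factorial))).card ≤
          ((box 2 N).filter (fun z => ∃ k ∈ ((𝓛 ×ˢ
        (Finset.univ : Finset (Fin r × Fin r))).filter
        (fun k => k.2.1 ≤ k.2.2)), (k.1 : ℤ) ^ h₄ ∣
          eval z (DnP a (X k.2.1 k.2.2) (Y k.2.1 k.2.2) (W k.2.1 k.2.2) M.factorial))).card := by
        apply Finset.card_le_card
        apply Finset.filter_subset_filter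
        rw [hSdef]
        exact Finset.filter_subset _ _
      have hle' := (Nat.cast_le (α := ℝ)).mpr hle
      have hsplit' := congrArg (fun n : ℕ => (n : ℝ)) hsplit
      simp only [Nat.cast_add] at hsplit'
      rw [← hsplit']
      have h9 := hle'.trans hN4
      linarith
    · push Not at hDn
      obtain ⟨i, j, hij, hD⟩ := hDn
      refine ⟨0, ?_⟩
      filter_upwards with N
      have : (box 2 N).filter (fun z => IsCoprime (z 0) (z 1) ∧
          GoodInf p v 0 a b X Y W z ∧ ¬ ∃ l ∈ 𝓛, (l : ℤ) ^ h₂ ∣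
            eval z (4 * (4 * a ^ 3 + 27 * b ^ 2))) = ∅ := by
        apply Finset.filter_eq_empty_iff.mpr
        rintro z - ⟨-, ⟨-, P, B, -, -, hrep⟩, -⟩
        obtain ⟨h1, h2⟩ := hrep i j hij
        have h3 := Dn_ne (h1.multSeq h2) h1.1 M.factorial (Nat.factorial_pos M)
        rw [← eval_DnP, hD, map_zero] at h3
        exact h3 rfl
      rw [this]
      simp only [Finset.card_empty, Nat.cast_zero]
      positivity
  obtain ⟨K, hE4⟩ := hE4
  obtain ⟨N₀, hN₀⟩ := Filter.eventually_atTop.mp ((hE1.and hE2).and (hE3.and hE4))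
  refine ⟨K, N₀, fun N hN => ?_⟩
  obtain ⟨⟨g1, g2⟩, g3, g4⟩ := hN₀ N hN
  -- the union
  set U : Finset (Fin 2 → ℤ) := ((box 2 N).filter (fun z => eval z Z = 0) ∪
    (box 2 N).filter (fun z => ∃ l ∈ 𝓛, (l : ℤ) ^ h₂ ∣ eval z (4 * (4 * a ^ 3 + 27 * b ^ 2)))) ∪
    ((Finset.univ : Finset (Fin r × Fin r)).biUnion (fun ij => E3 ij.1 ij.2 N) ∪
    (box 2 N).filter (fun z => IsCoprime (z 0) (z 1) ∧
      GoodInf p v K a b X Y W z ∧ ¬ ∃ l ∈ 𝓛, (l : ℤ) ^ h₂ ∣
        eval z (4 * (4 * a ^ 3 + 27 * b ^ 2)))) with hU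
  have hmaps : ∀ t ∈ {t : ℚ | |t.num| ≤ N ∧ (t.den : ℤ) ≤ N ∧
      FibreNear p v K a b (fun i => X i i) (fun i => Y i i) (fun i => W i i) t}, pair t ∈
        (U : Set (Fin 2 → ℤ)) := by
    rintro t ⟨ht1, ht2, ht3⟩
    have hbox : pair t ∈ box 2 N := by
      rw [mem_box]
      intro i
      fin_cases i
      · exact ht1
      · simp only [pair, Fin.mk_one, Matrix.cons_val_one]
        have : |(t.den : ℤ)| = t.den := abs_of_nonneg (by positivity)
        simpa [this] using ht2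
    have hco := pair_coprime t
    rw [Finset.mem_coe, hU, Finset.mem_union, Finset.mem_union, Finset.mem_union]
    by_cases c1 : eval (pair t) Z = 0
    · exact Or.inl (Or.inl (Finset.mem_filter.mpr ⟨hbox, c1⟩))
    by_cases c2 : ∃ l ∈ 𝓛, (l : ℤ) ^ h₂ ∣ eval (pair t) (4 * (4 * a ^ 3 + 27 * b ^ 2))
    · exact Or.inl (Or.inr (Finset.mem_filter.mpr ⟨hbox, c2⟩))
    right
    obtain ⟨c3, c4⟩ := hZf _ c1
    rcases fibre_cases hS H hH ht3 c3 c4 with ⟨i, j, hij, P, hP, htor⟩ | hgood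
    · left
      rw [Finset.mem_biUnion]
      refine ⟨(i, j), Finset.mem_univ _, ?_⟩
      rw [hE3def]
      exact Finset.mem_filter.mpr ⟨hbox, hco, hij, P, hP, htor⟩
    · right
      exact Finset.mem_filter.mpr ⟨hbox, hco, hgood, c2⟩
  have hcard := Set.ncard_le_ncard_of_injOn pair hmaps pair_injective.injOn (Finset.finite_toSet U)
  rw [Set.ncard_coe_finset] at hcard
  have hUc : (U.card : ℝ) ≤ 5 * δ * (N : ℝ) ^ 2 := by
    have k1 := Finset.card_union_le ((box 2 N).filter (fun z => eval z Z = 0) ∪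
      (box 2 N).filter (fun z => ∃ l ∈ 𝓛, (l : ℤ) ^ h₂ ∣ eval z (4 * (4 * a ^ 3 + 27 * b ^ 2))))
      ((Finset.univ : Finset (Fin r × Fin r)).biUnion (fun ij => E3 ij.1 ij.2 N) ∪
      (box 2 N).filter (fun z => IsCoprime (z 0) (z 1) ∧
        GoodInf p v K a b X Y W z ∧ ¬ ∃ l ∈ 𝓛, (l : ℤ) ^ h₂ ∣
        eval z (4 * (4 * a ^ 3 + 27 * b ^ 2))))
    have k2 := Finset.card_union_le ((box 2 N).filter (fun z => eval z Z = 0))
      ((box 2 N).filter (fun z => ∃ l ∈ 𝓛, (l : ℤ) ^ h₂ ∣ eval z (4 * (4 * a ^ 3 + 27 * b ^ 2))))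
    have k3 := Finset.card_union_le
      ((Finset.univ : Finset (Fin r × Fin r)).biUnion (fun ij => E3 ij.1 ij.2 N))
      ((box 2 N).filter (fun z => IsCoprime (z 0) (z 1) ∧
        GoodInf p v K a b X Y W z ∧ ¬ ∃ l ∈ 𝓛, (l : ℤ) ^ h₂ ∣
        eval z (4 * (4 * a ^ 3 + 27 * b ^ 2))))
    have k4 : (((Finset.univ : Finset (Fin r × Fin r)).biUnion
        (fun ij => E3 ij.1 ij.2 N)).card : ℝ) ≤ δ * (N : ℝ) ^ 2 := by
      have k5 : (((Finset.univ : Finset (Fin r × Fin r)).biUnion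
        (fun ij => E3 ij.1 ij.2 N)).card : ℝ) ≤
          ∑ ij ∈ (Finset.univ : Finset (Fin r × Fin r)), ((E3 ij.1 ij.2 N).card : ℝ) := by
        exact_mod_cast Finset.card_biUnion_le
      refine k5.trans ((Finset.sum_le_sum g3).trans ?_)
      rw [Finset.sum_const, Finset.card_univ, Fintype.card_prod, Fintype.card_fin, nsmul_eq_mul]
      have hr0 : (r : ℝ) ≠ 0 := by
        have : r ≠ 0 := by omega
        exact_mod_cast this
      push_cast
      apply le_of_eq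
      field_simp
    have k1' := (Nat.cast_le (α := ℝ)).mpr k1
    have k2' := (Nat.cast_le (α := ℝ)).mpr k2
    have k3' := (Nat.cast_le (α := ℝ)).mpr k3
    push_cast at k1' k2' k3'
    rw [hU]
    linarith
  calc _ ≤ (U.card : ℝ) := by exact_mod_cast hcard
    _ ≤ 5 * δ * (N : ℝ) ^ 2 := hUc
    _ ≤ ε * (N : ℝ) ^ 2 := by
        gcongr
        rw [hδ]; linarith

end Pool.Agent.Lib.MP_3550b5_nt
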