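import Mathlib
import Pool.Agent.Lib.MP_3550b5_nt.SIndex

namespace Pool.Agent.Lib.MP_3550b5_nt

open WeierstrassCurve.Affine

/-- The multiple of index `c` is nonsingular modulo every prime, if `c` is divisible by the local
indices. -/
theorem exists_good_multiple_c {a b A B D : ℤ} {P : (curve a b).Point} (hP : IsRep a b A B D P)
    (htor : ¬ IsOfFinAddOrder P) {c : ℕ} (hc1 : 1 ≤ c)
    (hN : ∀ (l : ℕ) (_ : Fact l.Prime), (l : ℤ) ∣ 2 * B → (l : ℤ) ∣ 3 * A ^ 2 + a * D ^ 4 →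
      ∃ n, 1 ≤ n ∧ n ∣ c ∧ ¬ SingAt l (n • P)) :
    ∃ G A₁ B₁ D₁ : ℤ, 0 < G ∧ IsRep a b A₁ B₁ D₁ (c • P) ∧
      IsCoprime (2 * B₁) (3 * A₁ ^ 2 + a * D₁ ^ 4) ∧ Dn a A B D c = G * D₁ ∧
      ∀ l : ℕ, l.Prime → (l : ℤ) ∣ G → (l : ℤ) ∣ 2 * B ∧ (l : ℤ) ∣ 3 * A ^ 2 + a * D ^ 4 := by
  have htor' : ¬ IsOfFinAddOrder (c • P) := by
    rw [isOfFinAddOrder_nsmul]; push Not; exact ⟨htor, by omega⟩
  obtain ⟨β, hrep, hloc⟩ := hP.mult htor c hc1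
  obtain ⟨G, A₁, B₁, D₁, hG, hD1, hA1, hB1, hDD, hprim⟩ :=
    reduce_rep a b _ _ _ _ hrep.1 le_rfl hrep.eqn
  have hrep1 : IsRep a b A₁ B₁ D₁ (c • P) := by
    refine ⟨hD1, ?_⟩
    obtain ⟨-, hh, e⟩ := hrep
    have hG' : (G : ℚ) ≠ 0 := by exact_mod_cast hG.ne'
    have hD1' : (D₁ : ℚ) ≠ 0 := by exact_mod_cast hD1
    have ex : ((An a A B D c : ℤ) : ℚ) / ((Dn a A B D c : ℤ) : ℚ) ^ 2 =
        (A₁ : ℚ) / (D₁ : ℚ) ^ 2 := by
      rw [hA1, hDD]; push_cast; field_simp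
    have ey : (β : ℚ) / ((Dn a A B D c : ℤ) : ℚ) ^ 3 = (B₁ : ℚ) / (D₁ : ℚ) ^ 3 := by
      rw [hB1, hDD]; push_cast; field_simp
    have hh' : (curve a b).Nonsingular ((A₁ : ℚ) / (D₁ : ℚ) ^ 2) ((B₁ : ℚ) / (D₁ : ℚ) ^ 3) := by
      rw [← ex, ← ey]; exact hh
    refine ⟨hh', ?_⟩
    rw [e]
    simp only [WeierstrassCurve.Affine.Point.some.injEq]
    exact ⟨ex, ey⟩
  -- common divisors of the new representation
  have hup : ∀ l : ℤ, l ∣ 2 * B₁ → l ∣ 3 * A₁ ^ 2 + a * D₁ ^ 4 → l ∣ 2 * β ∧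
      l ∣ 3 * An a A B D c ^ 2 + a * Dn a A B D c ^ 4 := by
    intro l h1 h2
    rw [hB1, hA1, hDD]
    refine ⟨?_, ?_⟩
    · rw [show 2 * (G ^ 3 * B₁) = (2 * B₁) * G ^ 3 by ring]
      exact Dvd.dvd.mul_right h1 _
    · rw [show 3 * (G ^ 2 * A₁) ^ 2 + a * (G * D₁) ^ 4 = (3 * A₁ ^ 2 + a * D₁ ^ 4) * G ^ 4 by ring]
      exact Dvd.dvd.mul_right h2 _
  refine ⟨G, A₁, B₁, D₁, hG, hrep1, ?_, hDD, ?_⟩
  · apply isCoprime_of_prime_dvd
    · rintro ⟨hB0, -⟩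
      exact hrep1.B_ne htor' hB0
    · intro l' hl' h1 h2
      -- natural prime
      obtain ⟨l, hl, hll⟩ : ∃ l : ℕ, l.Prime ∧ (l : ℤ) ∣ l' ∧ l' ∣ (l : ℤ) := by
        refine ⟨l'.natAbs, Int.prime_iff_natAbs_prime.mp hl', ?_, ?_⟩
        · exact Int.natAbs_dvd.mpr dvd_rfl
        · exact Int.dvd_natAbs.mpr dvd_rfl
      have g1 : (l : ℤ) ∣ 2 * B₁ := hll.1.trans h1
      have g2 : (l : ℤ) ∣ 3 * A₁ ^ 2 + a * D₁ ^ 4 := hll.1.trans h2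
      have hlZ : Prime (l : ℤ) := Nat.prime_iff_prime_int.mp hl
      have : Fact l.Prime := ⟨hl⟩
      by_cases hbad : (l : ℤ) ∣ 2 * B ∧ (l : ℤ) ∣ 3 * A ^ 2 + a * D ^ 4
      · obtain ⟨n, hn1, ⟨m, hm⟩, hns⟩ := hN l this hbad.1 hbad.2
        have htorn : ¬ IsOfFinAddOrder (n • P) := by
          rw [isOfFinAddOrder_nsmul]; push Not; exact ⟨htor, by omega⟩
        have hm1 : 1 ≤ m := by
          rcases Nat.eq_zero_or_pos m with h0 | h0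
          · rw [h0, mul_zero] at hm; omega
          · exact h0
        obtain ⟨β', hrepn, -⟩ := hP.mult htor n hn1
        obtain ⟨G', A', B', D', hG', hD', hA', hB', hDD', hprim'⟩ :=
          reduce_rep a b _ _ _ _ hrepn.1 le_rfl hrepn.eqn
        have hrep' : IsRep a b A' B' D' (n • P) := by
          refine ⟨hD', ?_⟩
          obtain ⟨-, hh, e⟩ := hrepn
          have hG'' : (G' : ℚ) ≠ 0 := by exact_mod_cast hG'.ne'
          have hD1' : (D' : ℚ) ≠ 0 := by exact_mod_cast hD'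
          have ex : ((An a A B D n : ℤ) : ℚ) / ((Dn a A B D n : ℤ) : ℚ) ^ 2 =
              (A' : ℚ) / (D' : ℚ) ^ 2 := by
            rw [hA', hDD']; push_cast; field_simp
          have ey : (β' : ℚ) / ((Dn a A B D n : ℤ) : ℚ) ^ 3 = (B' : ℚ) / (D' : ℚ) ^ 3 := by
            rw [hB', hDD']; push_cast; field_simp
          have hh' : (curve a b).Nonsingular ((A' : ℚ) / (D' : ℚ) ^ 2)
              ((B' : ℚ) / (D' : ℚ) ^ 3) := by
            rw [← ex, ← ey]; exact hh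
          refine ⟨hh', ?_⟩
          rw [e]
          simp only [WeierstrassCurve.Affine.Point.some.injEq]
          exact ⟨ex, ey⟩
        have hns' : ¬ ((l : ℤ) ∣ 2 * B' ∧ (l : ℤ) ∣ 3 * A' ^ 2 + a * D' ^ 4) := by
          rintro ⟨h3, h4⟩
          exact hns (rep_of_sing hrep' (hprim' l hlZ) h3 h4)
        obtain ⟨β2, hrep2, hloc2⟩ := hrep'.mult htorn m hm1
        have hmn : m • n • P = c • P := by rw [hm, ← mul_smul, mul_comm]
        rw [hmn] at hrep2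
        have hsing := rep_of_sing (l := l) hrep1 (hprim l hlZ) g1 g2
        exact hloc2 l hlZ hns' (sing_of_rep hrep2 hsing)
      · exact hloc l hlZ hbad (hup l g1 g2)
  · intro l hl hd
    have hlZ : Prime (l : ℤ) := Nat.prime_iff_prime_int.mp hl
    by_contra hbad
    apply hloc l hlZ hbad
    rw [hB1, hA1, hDD]
    obtain ⟨G2, rfl⟩ := hd
    refine ⟨⟨2 * (l ^ 2 * G2 ^ 3 * B₁), by ring⟩, ⟨3 * (l ^ 3 * G2 ^ 4 * A₁ ^ 2) +
      a * (l ^ 3 * G2 ^ 4 * D₁ ^ 4), by ring⟩⟩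

end Pool.Agent.Lib.MP_3550b5_nt
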