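import Mathlib
import Pool.Agent.Lib.MP_3550b5_nt.Eval

/-!
Functions which are `p`-adic limits of integral polynomials, and interpolation determinants.
-/

namespace Pool.Agent.Lib.MP_3550b5_nt

open Finset

variable {p : ℕ} [hp : Fact p.Prime]

/-- `f` is a uniform limit of polynomials with `p`-adic integer coefficients in the `a s i`. -/
def Appr {S : Type*} {d : ℕ} (a : S → Fin d → ℤ_[p]) (f : S → ℤ_[p]) : Prop :=
  ∀ M : ℕ, ∃ P : MvPolynomial (Fin d) ℤ_[p], ∀ s, (p : ℤ_[p]) ^ M ∣ f s - MvPolynomial.eval (a s) P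

section appr

variable {S : Type*} {d : ℕ} {a : S → Fin d → ℤ_[p]} {f g : S → ℤ_[p]}

lemma Appr.const (c : ℤ_[p]) : Appr a (fun _ => c) := fun M =>
  ⟨MvPolynomial.C c, fun s => by simp⟩

lemma Appr.coord (i : Fin d) : Appr a (fun s => a s i) := fun M =>
  ⟨MvPolynomial.X i, fun s => by simp⟩

lemma Appr.add (hf : Appr a f) (hg : Appr a g) : Appr a (fun s => f s + g s) := by
  intro M
  obtain ⟨P, hP⟩ := hf M
  obtain ⟨Q, hQ⟩ := hg M
  refine ⟨P + Q, fun s => ?_⟩
  rw [map_add, show f s + g s - (MvPolynomial.eval (a s) P + MvPolynomial.eval (a s) Q) =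
    (f s - MvPolynomial.eval (a s) P) + (g s - MvPolynomial.eval (a s) Q) by ring]
  exact dvd_add (hP s) (hQ s)

lemma Appr.mul (hf : Appr a f) (hg : Appr a g) : Appr a (fun s => f s * g s) := by
  intro M
  obtain ⟨P, hP⟩ := hf M
  obtain ⟨Q, hQ⟩ := hg M
  refine ⟨P * Q, fun s => ?_⟩
  rw [map_mul, show f s * g s - (MvPolynomial.eval (a s) P * MvPolynomial.eval (a s) Q) =
    (f s - MvPolynomial.eval (a s) P) * g s +
      MvPolynomial.eval (a s) P * (g s - MvPolynomial.eval (a s) Q) by ring]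
  exact dvd_add (Dvd.dvd.mul_right (hP s) _) (Dvd.dvd.mul_left (hQ s) _)

lemma Appr.pow (hf : Appr a f) (n : ℕ) : Appr a (fun s => f s ^ n) := by
  induction n with
  | zero => simpa using Appr.const (a := a) (1 : ℤ_[p])
  | succ n ih =>
    have := ih.mul hf
    simpa [pow_succ] using this

lemma Appr.sum {κ : Type*} {T : Finset κ} {F : κ → S → ℤ_[p]} (hF : ∀ k ∈ T, Appr a (F k)) :
    Appr a (fun s => ∑ k ∈ T, F k s) := by
  classical
  induction T using Finset.induction_on with
  | empty => simpa using Appr.const (a := a) (0 : ℤ_[p])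
  | insert k T hk ih =>
    have h1 := (hF k (mem_insert_self _ _)).add (ih fun j hj => hF j (mem_insert_of_mem hj))
    simpa [sum_insert hk] using h1

lemma Appr.prod {κ : Type*} {T : Finset κ} {F : κ → S → ℤ_[p]} (hF : ∀ k ∈ T, Appr a (F k)) :
    Appr a (fun s => ∏ k ∈ T, F k s) := by
  classical
  induction T using Finset.induction_on with
  | empty => simpa using Appr.const (a := a) (1 : ℤ_[p])
  | insert k T hk ih =>
    have h1 := (hF k (mem_insert_self _ _)).mul (ih fun j hj => hF j (mem_insert_of_mem hj))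
    simpa [prod_insert hk] using h1

lemma ev_trunc (g : PowerSeries ℤ_[p]) {z : ℤ_[p]} (hz : (p : ℤ_[p]) ∣ z) (M : ℕ) :
    (p : ℤ_[p]) ^ M ∣ ev g z - ∑ k ∈ range M, PowerSeries.coeff k g * z ^ k := by
  have hz1 : ‖z‖ < 1 := by
    obtain ⟨w, rfl⟩ := hz
    rw [norm_mul]
    calc ‖(p : ℤ_[p])‖ * ‖w‖ ≤ ‖(p : ℤ_[p])‖ * 1 := by gcongr; exact PadicInt.norm_le_one _
      _ < 1 := by
          rw [mul_one, PadicInt.norm_p]
          exact inv_lt_one_of_one_lt₀ (by exact_mod_cast hp.out.one_lt)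
  have h1 := (ev_summable g hz1).sum_add_tsum_nat_add M
  have h2 : ev g z - ∑ k ∈ range M, PowerSeries.coeff k g * z ^ k =
      ∑' k, PowerSeries.coeff (k + M) g * z ^ (k + M) := by
    unfold ev
    rw [← h1]; ring
  rw [h2]
  obtain ⟨w, rfl⟩ := hz
  have h3 : (∑' k, PowerSeries.coeff (k + M) g * ((p : ℤ_[p]) * w) ^ (k + M)) =
      (p : ℤ_[p]) ^ M * ∑' k, PowerSeries.coeff (k + M) g * (w ^ M * ((p : ℤ_[p]) * w) ^ k) := by
    rw [← Summable.tsum_mul_left]
    · refine tsum_congr fun k => ?_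
      rw [pow_add, mul_pow _ _ M]
      ring
    · apply Summable.of_norm
      refine Summable.of_nonneg_of_le (fun _ => norm_nonneg _) (fun n => ?_)
        (summable_geometric_of_lt_one (norm_nonneg ((p : ℤ_[p]) * w)) hz1)
      rw [norm_mul, norm_mul, norm_pow _ n]
      calc _ ≤ 1 * (1 * ‖(p : ℤ_[p]) * w‖ ^ n) := by
            gcongr
            · exact PadicInt.norm_le_one _
            · exact PadicInt.norm_le_one _
        _ = _ := by ring
  rw [h3]
  exact Dvd.intro _ rfl

lemma Appr.ev (g : PowerSeries ℤ_[p]) (hf : Appr a f) (hfp : ∀ s, (p : ℤ_[p]) ∣ f s) :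
    Appr a (fun s => ev g (f s)) := by
  intro M
  have h1 : Appr a (fun s => ∑ k ∈ range M, PowerSeries.coeff k g * f s ^ k) :=
    Appr.sum fun k _ => (Appr.const _).mul (hf.pow k)
  obtain ⟨P, hP⟩ := h1 M
  refine ⟨P, fun s => ?_⟩
  have h2 := ev_trunc g (hfp s) M
  have := dvd_add h2 (hP s)
  simpa using this

end appr

/-- Degree of a monomial. -/
def deg {d : ℕ} (k : Fin d →₀ ℕ) : ℕ := ∑ i, k i

lemma card_deg_lt {d : ℕ} (h : ℕ) (T : Finset (Fin d →₀ ℕ)) (hT : ∀ k ∈ T, deg k < h) :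
    T.card ≤ h ^ d := by
  have h1 : ∀ k ∈ T, ∀ i, k i < h := by
    intro k hk i
    refine lt_of_le_of_lt ?_ (hT k hk)
    exact single_le_sum (f := fun i => k i) (fun _ _ => Nat.zero_le _) (mem_univ i)
  have h2 : T.card ≤ (Fintype.piFinset fun _ : Fin d => range h).card := by
    apply card_le_card_of_injOn (fun k i => k i)
    · intro k hk
      rw [mem_coe, Fintype.mem_piFinset]
      exact fun i => mem_range.mpr (h1 k hk i)
    · intro k _ k' _ hkk
      exact DFunLike.coe_injective hkk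
  refine h2.trans (le_of_eq ?_)
  rw [Fintype.card_piFinset]
  simp

lemma sum_deg_ge {d : ℕ} {ι : Type*} [Fintype ι] (r : ι → Fin d →₀ ℕ)
    (hr : Function.Injective r) (h : ℕ) :
    h * (Fintype.card ι - h ^ d) ≤ ∑ i, deg (r i) := by
  classical
  set A := univ.filter fun i => deg (r i) < h with hA
  have h1 : A.card ≤ h ^ d := by
    have := card_deg_lt h (A.image r) (by
      intro k hk
      obtain ⟨i, hi, rfl⟩ := mem_image.mp hk
      exact (mem_filter.mp hi).2)
    rwa [card_image_of_injective _ hr] at this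
  have h2 : Aᶜ.card = Fintype.card ι - A.card := card_compl A
  calc h * (Fintype.card ι - h ^ d) ≤ h * Aᶜ.card := by
        rw [h2]
        apply Nat.mul_le_mul_left
        omega
    _ = ∑ i ∈ Aᶜ, h := by rw [sum_const, smul_eq_mul, mul_comm]
    _ ≤ ∑ i ∈ Aᶜ, deg (r i) := by
        refine sum_le_sum fun i hi => ?_
        have := (mem_compl.mp hi)
        rw [hA, mem_filter, not_and] at this
        exact not_lt.mp (this (mem_univ i))
    _ ≤ ∑ i, deg (r i) := sum_le_univ_sum_of_nonneg fun _ => Nat.zero_le _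

lemma monomial_eval_dvd {d : ℕ} (k : Fin d →₀ ℕ) (x : Fin d → ℤ_[p])
    (hx : ∀ i, (p : ℤ_[p]) ∣ x i) : (p : ℤ_[p]) ^ deg k ∣ ∏ i, x i ^ k i := by
  rw [deg, ← prod_pow_eq_pow_sum]
  exact prod_dvd_prod_of_dvd _ _ fun i _ => pow_dvd_pow_of_dvd (hx i) _

lemma det_poly_dvd {d : ℕ} {ι : Type*} [Fintype ι] [DecidableEq ι]
    (P : ι → MvPolynomial (Fin d) ℤ_[p]) (x : ι → Fin d → ℤ_[p])
    (hx : ∀ j i, (p : ℤ_[p]) ∣ x j i) (h : ℕ) :
    (p : ℤ_[p]) ^ (h * (Fintype.card ι - h ^ d)) ∣
      (Matrix.of fun i j => MvPolynomial.eval (x j) (P i)).det := by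
  classical
  set K : Finset (Fin d →₀ ℕ) := univ.biUnion fun i => (P i).support with hK
  have hrow : (Matrix.of fun i j => MvPolynomial.eval (x j) (P i)) =
      fun i => ∑ k ∈ K, (fun j => (P i).coeff k * ∏ l, x j l ^ k l) := by
    funext i j
    rw [Matrix.of_apply, MvPolynomial.eval_eq', Finset.sum_apply]
    apply sum_subset
    · exact subset_biUnion_of_mem (fun i => (P i).support) (mem_univ i)
    · intro k _ hk
      rw [MvPolynomial.notMem_support_iff.mp hk, zero_mul]
  have h1 : (Matrix.of fun i j => MvPolynomial.eval (x j) (P i)).det =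
      ∑ r ∈ Fintype.piFinset fun _ : ι => K,
        Matrix.detRowAlternating fun i => (fun j => (P i).coeff (r i) * ∏ l, x j l ^ r i l) := by
    rw [hrow]
    exact Matrix.detRowAlternating.toMultilinearMap.map_sum_finset _ _
  rw [h1]
  refine dvd_sum fun r _ => ?_
  have h2 : (Matrix.detRowAlternating fun i =>
      (fun j => (P i).coeff (r i) * ∏ l, x j l ^ r i l)) =
      (∏ i, (P i).coeff (r i)) *
        (Matrix.of fun i j => ∏ l, x j l ^ r i l : Matrix ι ι ℤ_[p]).det := by
    rw [← Matrix.det_mul_column]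
    rfl
  rw [h2]
  apply Dvd.dvd.mul_left
  by_cases hr : Function.Injective r
  · refine (pow_dvd_pow _ (sum_deg_ge r hr h)).trans ?_
    have h3 : ∀ i j, ∃ c, ∏ l, x j l ^ r i l = (p : ℤ_[p]) ^ deg (r i) * c := fun i j =>
      monomial_eval_dvd (r i) (x j) (hx j)
    choose c hc using h3
    have h4 : (Matrix.of fun i j => ∏ l, x j l ^ r i l : Matrix ι ι ℤ_[p]) =
        Matrix.of fun i j => (p : ℤ_[p]) ^ deg (r i) * (Matrix.of c) i j := by
      ext i j
      exact hc i j
    rw [h4, Matrix.det_mul_column, prod_pow_eq_pow_sum]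
    exact Dvd.intro _ rfl
  · rw [Function.Injective] at hr
    push Not at hr
    obtain ⟨i, i', hri, hne⟩ := hr
    rw [Matrix.det_zero_of_row_eq hne]
    · exact dvd_zero _
    · funext j
      simp only [Matrix.of_apply, hri]

/-- Interpolation determinants of limits of polynomials are `p`-adically small. -/
theorem det_appr_dvd {S : Type*} {d : ℕ} {a : S → Fin d → ℤ_[p]}
    (ha : ∀ s i, (p : ℤ_[p]) ∣ a s i) {ι : Type*} [Fintype ι] [DecidableEq ι]
    (f : ι → S → ℤ_[p]) (hf : ∀ i, Appr a (f i)) (s : ι → S) (h : ℕ) :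
    (p : ℤ_[p]) ^ (h * (Fintype.card ι - h ^ d)) ∣ (Matrix.of fun i j => f i (s j)).det := by
  set M := h * (Fintype.card ι - h ^ d) with hM
  choose P hP using fun i => hf i M
  have h1 := det_poly_dvd P (fun j => a (s j)) (fun j i => ha (s j) i) h
  have h2 : (p : ℤ_[p]) ^ M ∣ (Matrix.of fun i j => f i (s j)).det -
      (Matrix.of fun i j => MvPolynomial.eval (a (s j)) (P i)).det := by
    rw [← Ideal.mem_span_singleton, ← Ideal.Quotient.eq, RingHom.map_det, RingHom.map_det]
    congr 1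
    ext i j
    simp only [RingHom.mapMatrix_apply, Matrix.map_apply, Matrix.of_apply]
    rw [Ideal.Quotient.eq, Ideal.mem_span_singleton]
    exact hP i (s j)
  have := dvd_add h2 h1
  simpa using this

end Pool.Agent.Lib.MP_3550b5_nt
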