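import Mathlib
import Pool.Agent.Lib.MP_3550b5_nt.LogHom
import Pool.Agent.Lib.MP_3550b5_nt.RDet

/-!
The `p`-adic exponential.
-/

namespace Pool.Agent.Lib.MP_3550b5_nt

open Finset PowerSeries Filter Topology

variable {p : ℕ} [hp : Fact p.Prime]

lemma factorial_dvd_pow (k : ℕ) : ((k.factorial : ℕ) : ℤ_[p]) ∣ (p : ℤ_[p]) ^ k := by
  obtain ⟨v, u, hu, hk⟩ := Nat.exists_eq_pow_mul_and_not_dvd (Nat.factorial_ne_zero k) p
    hp.out.ne_one
  have hvk : v ≤ k := by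
    have h1 : padicValNat p k.factorial = v := by
      rw [hk, padicValNat.mul (pow_ne_zero _ hp.out.ne_zero) (by rintro rfl; exact hu (dvd_zero _)),
        padicValNat.prime_pow, padicValNat.eq_zero_of_not_dvd hu, add_zero]
    have h2 := sub_one_mul_padicValNat_factorial (p := p) k
    rw [h1] at h2
    have h3 : 1 ≤ p - 1 := by have := hp.out.two_le; omega
    calc v = 1 * v := (one_mul v).symm
      _ ≤ (p - 1) * v := Nat.mul_le_mul_right v h3
      _ = _ := h2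
      _ ≤ k := Nat.sub_le _ _
  have hunit : IsUnit ((u : ℕ) : ℤ_[p]) := by
    rw [PadicInt.isUnit_iff, PadicInt.norm_natCast_eq_one_iff]
    exact (Nat.Prime.coprime_iff_not_dvd hp.out).mpr hu
  rw [hk]
  push_cast
  exact (hunit.mul_right_dvd).mpr (pow_dvd_pow _ hvk)

lemma exists_expCoeff (y : ℤ_[p]) (hy : (p : ℤ_[p]) ∣ y) (k : ℕ) :
    ∃ c : ℤ_[p], ((k.factorial : ℕ) : ℤ_[p]) * c = y ^ k := by
  obtain ⟨c, hc⟩ := (factorial_dvd_pow k).trans (pow_dvd_pow_of_dvd hy k)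
  exact ⟨c, hc.symm⟩

open scoped Classical in
/-- The power series `exp (y X)`, for `y` divisible by `p`. -/
noncomputable def expS (y : ℤ_[p]) : ℤ_[p]⟦X⟧ :=
  PowerSeries.mk fun k => if h : ∃ c : ℤ_[p], ((k.factorial : ℕ) : ℤ_[p]) * c = y ^ k then h.choose
    else 0

lemma coeff_expS {y : ℤ_[p]} (hy : (p : ℤ_[p]) ∣ y) (k : ℕ) :
    ((k.factorial : ℕ) : ℤ_[p]) * coeff k (expS y) = y ^ k := by
  have h := exists_expCoeff y hy k
  rw [expS, coeff_mk, dif_pos h]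
  exact h.choose_spec

lemma factorial_ne_zero' (k : ℕ) : ((k.factorial : ℕ) : ℤ_[p]) ≠ 0 := by
  exact_mod_cast Nat.factorial_ne_zero k

lemma expS_add {y y' : ℤ_[p]} (hy : (p : ℤ_[p]) ∣ y) (hy' : (p : ℤ_[p]) ∣ y') :
    expS (y + y') = expS y * expS y' := by
  ext k
  apply mul_left_cancel₀ (factorial_ne_zero' (p := p) k)
  rw [coeff_expS (dvd_add hy hy'), coeff_mul, mul_sum, Commute.add_pow' (Commute.all _ _)]
  refine sum_congr rfl fun x hx => ?_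
  have h1 := HasAntidiagonal.mem_antidiagonal.mp hx
  rw [nsmul_eq_mul, ← coeff_expS hy, ← coeff_expS hy', ← h1,
    ← Nat.add_choose_mul_factorial_mul_factorial x.1 x.2]
  push_cast
  rw [Nat.choose_symm_add]
  ring

/-- `exp β`, for `β` divisible by `p ^ 2`. -/
noncomputable def pexp (β : ℤ_[p]) : ℤ_[p] := ∑' k, coeff k (expS β)

lemma norm_lt_one_of_dvd {z : ℤ_[p]} (hz : (p : ℤ_[p]) ∣ z) : ‖z‖ < 1 := by
  obtain ⟨w, rfl⟩ := hz
  rw [norm_mul, PadicInt.norm_p]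
  calc (p : ℝ)⁻¹ * ‖w‖ ≤ (p : ℝ)⁻¹ * 1 := by gcongr; exact PadicInt.norm_le_one _
    _ < 1 := by
      rw [mul_one]
      exact inv_lt_one_of_one_lt₀ (by exact_mod_cast hp.out.one_lt)

lemma ev_expS {x y : ℤ_[p]} (hx : (p : ℤ_[p]) ∣ x) (hy : (p : ℤ_[p]) ∣ y) :
    ev (expS y) x = pexp (x * y) := by
  unfold ev pexp
  refine tsum_congr fun k => ?_
  apply mul_left_cancel₀ (factorial_ne_zero' (p := p) k)
  rw [coeff_expS (Dvd.dvd.mul_right hx _), ← mul_assoc, coeff_expS hy]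
  ring

lemma pexp_add {β β' : ℤ_[p]} (h : (p : ℤ_[p]) ^ 2 ∣ β) (h' : (p : ℤ_[p]) ^ 2 ∣ β') :
    pexp (β + β') = pexp β * pexp β' := by
  obtain ⟨c, rfl⟩ := h
  obtain ⟨c', rfl⟩ := h'
  have hp1 : (p : ℤ_[p]) ∣ p := dvd_rfl
  have e1 : (p : ℤ_[p]) ^ 2 * c = p * (p * c) := by ring
  have e2 : (p : ℤ_[p]) ^ 2 * c' = p * (p * c') := by ring
  have e3 : (p : ℤ_[p]) ^ 2 * c + p ^ 2 * c' = p * (p * c + p * c') := by ring
  have d1 : (p : ℤ_[p]) ∣ p * c := Dvd.intro _ rfl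
  have d2 : (p : ℤ_[p]) ∣ p * c' := Dvd.intro _ rfl
  rw [e3, e1, e2, ← ev_expS hp1 d1, ← ev_expS hp1 d2, ← ev_expS hp1 (dvd_add d1 d2),
    expS_add d1 d2, ev_mul _ _ (norm_lt_one_of_dvd hp1)]

lemma pexp_zero : pexp (0 : ℤ_[p]) = 1 := by
  unfold pexp
  have h0 : (p : ℤ_[p]) ∣ 0 := dvd_zero _
  rw [tsum_eq_single 0]
  · have := coeff_expS h0 0
    simpa using this
  · intro k hk
    apply mul_left_cancel₀ (factorial_ne_zero' (p := p) k)
    rw [coeff_expS h0, mul_zero, zero_pow hk]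

lemma pexp_nsmul {β : ℤ_[p]} (h : (p : ℤ_[p]) ^ 2 ∣ β) (n : ℕ) :
    pexp ((n : ℤ_[p]) * β) = pexp β ^ n := by
  induction n with
  | zero => simp [pexp_zero]
  | succ n ih =>
    rw [pow_succ, ← ih, ← pexp_add (Dvd.dvd.mul_left h _) h]
    congr 1
    push_cast
    ring

lemma isUnit_natCast_of_lt {k : ℕ} (hk : 0 < k) (hkp : k < p) : IsUnit ((k : ℕ) : ℤ_[p]) := by
  rw [PadicInt.isUnit_iff, PadicInt.norm_natCast_eq_one_iff]
  exact (Nat.Prime.coprime_iff_not_dvd hp.out).mpr (Nat.not_dvd_of_pos_of_lt hk hkp)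

/-- First order approximation of the exponential. -/
lemma pexp_approx (hp5 : 5 ≤ p) {β : ℤ_[p]} (h : (p : ℤ_[p]) ^ 2 ∣ β) :
    ‖pexp β - 1 - β‖ ≤ ‖β‖ ^ 2 := by
  obtain ⟨c, rfl⟩ := h
  set y : ℤ_[p] := p * c with hy
  have hp1 : (p : ℤ_[p]) ∣ p := dvd_rfl
  have d1 : (p : ℤ_[p]) ∣ y := Dvd.intro _ rfl
  have e1 : (p : ℤ_[p]) ^ 2 * c = p * y := by rw [hy]; ring
  have hpn : ‖(p : ℤ_[p])‖ < 1 := norm_lt_one_of_dvd hp1
  rw [e1, ← ev_expS hp1 d1]
  have h1 := (ev_summable (expS y) hpn).sum_add_tsum_nat_add 2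
  have c0 : coeff 0 (expS y) = 1 := by
    have := coeff_expS d1 0
    simpa using this
  have c1 : coeff 1 (expS y) = y := by
    have := coeff_expS d1 1
    simpa using this
  have h2 : ev (expS y) p - 1 - p * y = ∑' k, coeff (k + 2) (expS y) * (p : ℤ_[p]) ^ (k + 2) := by
    unfold ev
    rw [← h1, sum_range_succ, sum_range_one, c0, c1]
    ring
  rw [h2]
  refine norm_tsum_le_of_forall ?_ fun k => ?_
  · exact ((summable_nat_add_iff 2).mpr (ev_summable (expS y) hpn))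
  · -- `(k+2)! * term = (p y) ^ (k + 2)`
    have h3 : (((k + 2).factorial : ℕ) : ℤ_[p]) * (coeff (k + 2) (expS y) * (p : ℤ_[p]) ^ (k + 2)) =
        (p * y) ^ 2 * (p * y) ^ k := by
      rw [← mul_assoc, coeff_expS d1]; ring
    have hdvd : (p * y) ^ 2 ∣ coeff (k + 2) (expS y) * (p : ℤ_[p]) ^ (k + 2) := by
      match k with
      | 0 =>
        have hu : IsUnit ((((0 + 2).factorial : ℕ)) : ℤ_[p]) :=
          isUnit_natCast_of_lt (by norm_num) (by norm_num [Nat.factorial]; omega)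
        rw [← hu.dvd_mul_left, h3]
        exact Dvd.intro _ rfl
      | 1 =>
        have h6 : ((1 + 2).factorial : ℕ) = 2 * 3 := by norm_num [Nat.factorial]
        have hu : IsUnit ((((1 + 2).factorial : ℕ)) : ℤ_[p]) := by
          rw [h6]
          push_cast
          have u2 := isUnit_natCast_of_lt (p := p) (k := 2) (by norm_num) (by omega)
          have u3 := isUnit_natCast_of_lt (p := p) (k := 3) (by norm_num) (by omega)
          push_cast at u2 u3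
          have e6 : (6 : ℤ_[p]) = 2 * 3 := by norm_num
          first
            | exact u2.mul u3
            | (rw [e6]; exact u2.mul u3)
        rw [← hu.dvd_mul_left, h3]
        exact Dvd.intro _ rfl
      | (k + 2) =>
        obtain ⟨r, hr⟩ := factorial_dvd_pow (p := p) (k + 2 + 2)
        have hle : (p : ℤ_[p]) ^ (k + 2 + 2) ∣ (p * y) ^ (k + 2) := by
          have : (p : ℤ_[p]) ^ (2 * (k + 2)) ∣ (p * y) ^ (k + 2) := by
            rw [pow_mul]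
            apply pow_dvd_pow_of_dvd
            rw [pow_two]
            exact mul_dvd_mul dvd_rfl d1
          exact (pow_dvd_pow _ (by omega)).trans this
        obtain ⟨s, hs⟩ := hle
        refine ⟨r * s, ?_⟩
        apply mul_left_cancel₀ (factorial_ne_zero' (p := p) (k + 2 + 2))
        rw [h3, hs, hr]
        ring
    obtain ⟨r, hr⟩ := hdvd
    rw [hr, norm_mul, norm_pow]
    exact mul_le_of_le_one_right (by positivity) (PadicInt.norm_le_one _)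

lemma pexp_sub_one (hp5 : 5 ≤ p) {β : ℤ_[p]} (h : (p : ℤ_[p]) ^ 2 ∣ β) : ‖pexp β - 1‖ < 1 := by
  have h1 := pexp_approx hp5 h
  have h2 : ‖β‖ < 1 := norm_lt_one_of_dvd ((dvd_pow_self _ two_ne_zero).trans h)
  have h3 : ‖β‖ ^ 2 < 1 := pow_lt_one₀ (norm_nonneg _) h2 two_ne_zero
  have e : pexp β - 1 = (pexp β - 1 - β) + β := by ring
  rw [e]
  exact lt_of_le_of_lt (PadicInt.nonarchimedean _ _) (max_lt (lt_of_le_of_lt h1 h3) h2)

lemma isUnit_of_sub_one {u : ℤ_[p]} (h1 : ‖u - 1‖ < 1) : IsUnit u := by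
  rw [PadicInt.isUnit_iff]
  by_contra hne
  have hlt : ‖u‖ < 1 := lt_of_le_of_ne (PadicInt.norm_le_one _) hne
  have h2 : ‖(1 : ℤ_[p])‖ ≤ max ‖u‖ ‖-(u - 1)‖ := by
    have e : (1 : ℤ_[p]) = u + -(u - 1) := by ring
    calc ‖(1 : ℤ_[p])‖ = ‖u + -(u - 1)‖ := congrArg _ e
      _ ≤ _ := PadicInt.nonarchimedean _ _
  rw [norm_one, norm_neg] at h2
  have := max_lt hlt h1
  linarith

/-- The logarithm of the exponential. -/
theorem log_pexp (hp5 : 5 ≤ p) {β : ℤ_[p]} (h : (p : ℤ_[p]) ^ 2 ∣ β) :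
    logOneAdd (((pexp β - 1 : ℤ_[p]) : ℚ_[p])) = (β : ℚ_[p]) := by
  have hz : ‖((pexp β - 1 : ℤ_[p]) : ℚ_[p])‖ < 1 := by
    rw [PadicInt.padic_norm_e_of_padicInt]
    exact pexp_sub_one hp5 h
  have h1 := tendsto_log hz
  refine tendsto_nhds_unique h1 ?_
  rw [tendsto_iff_norm_sub_tendsto_zero]
  have hp0 : (p : ℚ_[p]) ≠ 0 := by exact_mod_cast hp.out.ne_zero
  apply squeeze_zero (g := fun n : ℕ => ((p : ℝ)⁻¹) ^ n) (fun _ => norm_nonneg _)
  · intro n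
    have e1 : (1 + ((pexp β - 1 : ℤ_[p]) : ℚ_[p])) ^ p ^ n =
        ((pexp (((p ^ n : ℕ) : ℤ_[p]) * β) : ℤ_[p]) : ℚ_[p]) := by
      rw [pexp_nsmul h]
      push_cast
      ring_nf
    have e2 : ((1 + ((pexp β - 1 : ℤ_[p]) : ℚ_[p])) ^ p ^ n - 1) / (p : ℚ_[p]) ^ n - (β : ℚ_[p]) =
        ((pexp (((p ^ n : ℕ) : ℤ_[p]) * β) - 1 - ((p ^ n : ℕ) : ℤ_[p]) * β : ℤ_[p]) : ℚ_[p]) / (p : ℚ_[p]) ^ n := by
      rw [e1]
      push_cast
      field_simp
    rw [e2, norm_div, PadicInt.padic_norm_e_of_padicInt, norm_pow, Padic.norm_p]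
    have h3 := pexp_approx hp5 (β := ((p ^ n : ℕ) : ℤ_[p]) * β) (Dvd.dvd.mul_left h _)
    have h4 : ‖((p ^ n : ℕ) : ℤ_[p]) * β‖ ≤ (p : ℝ)⁻¹ ^ n := by
      rw [norm_mul]
      push_cast
      rw [norm_pow, PadicInt.norm_p]
      exact mul_le_of_le_one_right (by positivity) (PadicInt.norm_le_one _)
    have hpos : (0 : ℝ) < (p : ℝ)⁻¹ ^ n := by
      have : (0 : ℝ) < p := by exact_mod_cast hp.out.pos
      positivity
    rw [div_le_iff₀ hpos]
    calc _ ≤ _ := h3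
      _ ≤ ((p : ℝ)⁻¹ ^ n) ^ 2 := pow_le_pow_left₀ (norm_nonneg _) h4 2
      _ = _ := by ring
  · apply tendsto_pow_atTop_nhds_zero_of_lt_one
    · positivity
    · exact inv_p_lt_one

theorem ulog_pexp (hp5 : 5 ≤ p) {β : ℤ_[p]} (h : (p : ℤ_[p]) ^ 2 ∣ β) :
    ulog (pexp β) = (β : ℚ_[p]) := by
  unfold ulog
  rw [← pexp_nsmul h, log_pexp hp5 (Dvd.dvd.mul_left h _)]
  have h1 : ((p : ℚ_[p]) - 1) ≠ 0 := by
    intro h0
    have := norm_p_sub_one (p := p) (by omega)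
    rw [h0, norm_zero] at this
    exact zero_ne_one this
  rw [div_eq_iff h1]
  push_cast [hp.out.one_le]
  ring

/-- A one-unit is determined by its logarithm. -/
theorem eq_pexp_of_ulog (hp5 : 5 ≤ p) {u β : ℤ_[p]} (hu : ‖u - 1‖ < 1)
    (h : (p : ℤ_[p]) ^ 2 ∣ β) (hlog : ulog u = (β : ℚ_[p])) : u = pexp β := by
  have h1 := pexp_sub_one hp5 h
  have h2 : ‖u - pexp β‖ < 1 := by
    have e : u - pexp β = (u - 1) + -(pexp β - 1) := by ring
    rw [e]
    refine lt_of_le_of_lt (PadicInt.nonarchimedean _ _) (max_lt hu ?_)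
    rw [norm_neg]; exact h1
  have h3 := norm_ulog_sub (p := p) (by omega) (isUnit_of_sub_one hu) (isUnit_of_sub_one h1) h2
  rw [hlog, ulog_pexp hp5 h, sub_self, norm_zero] at h3
  exact sub_eq_zero.mp (norm_eq_zero.mp h3.symm)

end Pool.Agent.Lib.MP_3550b5_nt
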