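import Mathlib
import Pool.Agent.Lib.MP_3550b5_nt.SIndex
import Pool.Agent.Lib.MP_3550b5_nt.STors

/-!
The group of rational points which are nonsingular modulo all primes and reduce to the origin
modulo `p`.
-/

namespace Pool.Agent.Lib.MP_3550b5_nt

open WeierstrassCurve.Affine

section core

variable {l : ℕ} [hl : Fact l.Prime]

lemma norm_two_le : ‖(2 : ℚ_[l])‖ ≤ 1 := by
  have := Padic.norm_int_le_one (p := l) 2
  simpa using this

lemma norm_three_le : ‖(3 : ℚ_[l])‖ ≤ 1 := by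
  have := Padic.norm_int_le_one (p := l) 3
  simpa using this

lemma norm_four_le : ‖(4 : ℚ_[l])‖ ≤ 1 := by
  have := Padic.norm_int_le_one (p := l) 4
  simpa using this

lemma norm_add_lt {x y : ℚ_[l]} {r : ℝ} (hx : ‖x‖ < r) (hy : ‖y‖ < r) : ‖x + y‖ < r :=
  lt_of_le_of_lt (Padic.nonarchimedean _ _) (max_lt hx hy)

lemma norm_add_le' {x y : ℚ_[l]} {r : ℝ} (hx : ‖x‖ ≤ r) (hy : ‖y‖ ≤ r) : ‖x + y‖ ≤ r :=
  (Padic.nonarchimedean _ _).trans (max_le hx hy)

lemma norm_y_le {a b x y : ℚ_[l]} (ha : ‖a‖ ≤ 1) (hb : ‖b‖ ≤ 1) (hx : ‖x‖ ≤ 1)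
    (E : y ^ 2 = x ^ 3 + a * x + b) : ‖y‖ ≤ 1 := by
  have e2 : ‖y‖ ^ 2 ≤ 1 := by
    rw [← norm_pow, E]
    refine norm_add_le' (norm_add_le' ?_ ?_) hb
    · rw [norm_pow]; exact pow_le_one₀ (norm_nonneg _) hx
    · rw [norm_mul]; exact mul_le_one₀ ha (norm_nonneg _) hx
  exact (pow_le_one_iff_of_nonneg (norm_nonneg _) (by norm_num)).mp e2

/-- The sum of a singular and of a nonsingular point is singular. -/
lemma sing_core {a b x y s u L x₃ y₃ : ℚ_[l]} (ha : ‖a‖ ≤ 1) (hb : ‖b‖ ≤ 1)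
    (E : y ^ 2 = x ^ 3 + a * x + b) (E' : u ^ 2 = s ^ 3 + a * s + b)
    (hs : ‖s‖ ≤ 1) (hu : ‖2 * u‖ < 1) (hsu : ‖3 * s ^ 2 + a‖ < 1)
    (hns : ¬ (‖x‖ ≤ 1 ∧ ‖2 * y‖ < 1 ∧ ‖3 * x ^ 2 + a‖ < 1)) (hne : x ≠ s)
    (hL : L * (x - s) = y - u) (hx₃ : x₃ = L ^ 2 - s - x) (hy₃ : y₃ = -(L * (x₃ - s) + u)) :
    ‖x₃‖ ≤ 1 ∧ ‖2 * y₃‖ < 1 ∧ ‖3 * x₃ ^ 2 + a‖ < 1 := by
  have hne' : x - s ≠ 0 := sub_ne_zero.mpr hne
  have hu1 : ‖u‖ ≤ 1 := norm_y_le ha hb hs E'
  set δ := x₃ - s with hδ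
  have hkey : δ * (x - s) = 3 * s ^ 2 + a - 2 * u * L := by
    apply mul_right_cancel₀ hne'
    rw [hδ, hx₃]
    linear_combination (L * (x - s) + (y - u) + 2 * u) * hL + E - E'
  -- the two estimates
  have hmain : ‖δ‖ < 1 ∧ ‖L * δ‖ < 1 := by
    rcases le_or_gt ‖x‖ 1 with hx | hx
    · have hy1 : ‖y‖ ≤ 1 := norm_y_le ha hb hx E
      have hxs : ‖x - s‖ = 1 := by
        refine le_antisymm ?_ ?_
        · rw [sub_eq_add_neg]
          exact norm_add_le' hx (by rw [norm_neg]; exact hs)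
        · by_contra hlt
          push Not at hlt
          apply hns
          refine ⟨hx, ?_, ?_⟩
          · have h1 : ‖(2 * y) ^ 2‖ < 1 := by
              have e : (2 * y) ^ 2 = (2 * u) ^ 2 +
                (x - s) * (4 * (x ^ 2 + x * s + s ^ 2 + a)) := by
                linear_combination 4 * E - 4 * E'
              rw [e]
              apply norm_add_lt
              · rw [norm_pow]; exact pow_lt_one₀ (norm_nonneg _) hu two_ne_zero
              · rw [norm_mul]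
                have h2 : ‖4 * (x ^ 2 + x * s + s ^ 2 + a)‖ ≤ 1 := by
                  rw [norm_mul]
                  refine mul_le_one₀ norm_four_le (norm_nonneg _) ?_
                  refine norm_add_le' (norm_add_le' (norm_add_le' ?_ ?_) ?_) ha
                  · rw [norm_pow]; exact pow_le_one₀ (norm_nonneg _) hx
                  · rw [norm_mul]; exact mul_le_one₀ hx (norm_nonneg _) hs
                  · rw [norm_pow]; exact pow_le_one₀ (norm_nonneg _) hs
                calc ‖x - s‖ * ‖4 * (x ^ 2 + x * s + s ^ 2 + a)‖ ≤ ‖x - s‖ * 1 := by gcongr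
                  _ < 1 := by rw [mul_one]; exact hlt
            rw [norm_pow] at h1
            exact (pow_lt_one_iff_of_nonneg (norm_nonneg _) two_ne_zero).mp h1
          · have e : 3 * x ^ 2 + a = (3 * s ^ 2 + a) + (x - s) * (3 * (x + s)) := by ring
            rw [e]
            apply norm_add_lt hsu
            rw [norm_mul]
            have h2 : ‖3 * (x + s)‖ ≤ 1 := by
              rw [norm_mul]
              exact mul_le_one₀ norm_three_le (norm_nonneg _) (norm_add_le' hx hs)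
            calc ‖x - s‖ * ‖3 * (x + s)‖ ≤ ‖x - s‖ * 1 := by gcongr
              _ < 1 := by rw [mul_one]; exact hlt
      have hLn : ‖L‖ ≤ 1 := by
        have h1 := congrArg norm hL
        rw [norm_mul, hxs, mul_one] at h1
        rw [h1, sub_eq_add_neg]
        exact norm_add_le' hy1 (by rw [norm_neg]; exact hu1)
      have hδn : ‖δ‖ < 1 := by
        have h1 := congrArg norm hkey
        rw [norm_mul, hxs, mul_one] at h1
        rw [h1, sub_eq_add_neg]
        apply norm_add_lt hsu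
        rw [norm_neg, norm_mul]
        calc ‖2 * u‖ * ‖L‖ ≤ ‖2 * u‖ * 1 := by gcongr
          _ < 1 := by rw [mul_one]; exact hu
      refine ⟨hδn, ?_⟩
      rw [norm_mul]
      calc ‖L‖ * ‖δ‖ ≤ 1 * ‖δ‖ := by gcongr
        _ < 1 := by rw [one_mul]; exact hδn
    · obtain ⟨hy0, -, -, -, -⟩ := ker_norms ha hb hx E
      have hx0 : 0 < ‖x‖ := by linarith
      have h3 : ‖y‖ ^ 2 = ‖x‖ ^ 3 := by
        rw [← norm_pow, E, add_assoc]
        have h1 : ‖a * x + b‖ < ‖x ^ 3‖ := by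
          refine lt_of_le_of_lt (Padic.nonarchimedean _ _) (max_lt ?_ ?_)
          · rw [norm_mul, norm_pow]
            nlinarith [norm_nonneg a, sq_nonneg (‖x‖ - 1)]
          · rw [norm_pow]
            have : 1 < ‖x‖ ^ 3 := one_lt_pow₀ hx (by norm_num)
            linarith
        rw [norm_add_eq_left h1, norm_pow]
      have hxs : ‖x - s‖ = ‖x‖ := by
        rw [sub_eq_add_neg]
        exact norm_add_eq_left (by rw [norm_neg]; linarith)
      have hy1 : 1 < ‖y‖ := by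
        by_contra hle
        push Not at hle
        have h4 : ‖y‖ ^ 2 ≤ 1 := pow_le_one₀ (norm_nonneg _) hle
        have h5 : 1 < ‖x‖ ^ 3 := one_lt_pow₀ hx (by norm_num)
        linarith
      have hyu : ‖y - u‖ = ‖y‖ := by
        rw [sub_eq_add_neg]
        exact norm_add_eq_left (by rw [norm_neg]; linarith)
      have hLn : ‖L‖ * ‖x‖ = ‖y‖ := by
        have h1 := congrArg norm hL
        rw [norm_mul, hxs, hyu] at h1
        exact h1
      have hL2 : ‖L‖ ^ 2 = ‖x‖ := by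
        have h1 : ‖L‖ ^ 2 * ‖x‖ ^ 2 = ‖x‖ * ‖x‖ ^ 2 := by
          rw [← mul_pow, hLn, h3]; ring
        exact mul_right_cancel₀ (pow_ne_zero 2 hx0.ne') h1
      have hL1 : 1 < ‖L‖ := by
        by_contra hle
        push Not at hle
        have h4 : ‖L‖ ^ 2 ≤ 1 := pow_le_one₀ (norm_nonneg _) hle
        linarith
      have h4 : ‖δ‖ * ‖x‖ = ‖3 * s ^ 2 + a - 2 * u * L‖ := by
        rw [← hkey, norm_mul, hxs]
      have h5 : ‖3 * s ^ 2 + a - 2 * u * L‖ < ‖L‖ := by
        rw [sub_eq_add_neg]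
        apply norm_add_lt
        · linarith
        · rw [norm_neg, norm_mul]
          calc ‖2 * u‖ * ‖L‖ < 1 * ‖L‖ := by gcongr
            _ = ‖L‖ := one_mul _
      rw [← h4, ← hL2] at h5
      have h6 : ‖δ‖ * ‖L‖ < 1 := by
        have : ‖δ‖ * ‖L‖ * ‖L‖ < 1 * ‖L‖ := by
          rw [one_mul]
          calc ‖δ‖ * ‖L‖ * ‖L‖ = ‖δ‖ * ‖L‖ ^ 2 := by ring
            _ < ‖L‖ := h5
        exact lt_of_mul_lt_mul_right this (norm_nonneg _)
      refine ⟨?_, ?_⟩
      · calc ‖δ‖ = ‖δ‖ * 1 := (mul_one _).symm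
          _ ≤ ‖δ‖ * ‖L‖ := by gcongr
          _ < 1 := h6
      · rw [norm_mul, mul_comm]; exact h6
  obtain ⟨hδ1, hLδ⟩ := hmain
  have hx3 : x₃ = s + δ := by rw [hδ]; ring
  refine ⟨?_, ?_, ?_⟩
  · rw [hx3]; exact norm_add_le' hs hδ1.le
  · have e : 2 * y₃ = -(2 * (L * δ) + 2 * u) := by rw [hy₃]; ring
    rw [e, norm_neg]
    apply norm_add_lt _ hu
    rw [norm_mul]
    calc ‖(2 : ℚ_[l])‖ * ‖L * δ‖ ≤ 1 * ‖L * δ‖ := by gcongr; exact norm_two_le
      _ < 1 := by rw [one_mul]; exact hLδ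
  · have e : 3 * x₃ ^ 2 + a = (3 * s ^ 2 + a) + δ * (3 * (s + (s + δ))) := by rw [hx3]; ring
    rw [e]
    apply norm_add_lt hsu
    rw [norm_mul]
    have h2 : ‖3 * (s + (s + δ))‖ ≤ 1 := by
      rw [norm_mul]
      exact mul_le_one₀ norm_three_le (norm_nonneg _)
        (norm_add_le' hs (norm_add_le' hs hδ1.le))
    calc ‖δ‖ * ‖3 * (s + (s + δ))‖ ≤ ‖δ‖ * 1 := by gcongr
      _ < 1 := by rw [mul_one]; exact hδ1

variable {a b : ℤ}

lemma sing_neg {Q : (curve a b).Point} (h : SingAt l Q) : SingAt l (-Q) := by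
  match Q with
  | .zero => exact h
  | .some x y hh =>
    obtain ⟨h1, h2, h3⟩ := h
    refine ⟨h1, ?_, h3⟩
    rw [Point.neg_some, ptY_some, curve_negY]
    rw [ptY_some] at h2
    push_cast
    rw [mul_neg, norm_neg]
    exact h2

lemma sing_add {S P : (curve a b).Point} (hS0 : S ≠ 0) (hS : SingAt l S)
    (hP : P = 0 ∨ ¬ SingAt l P) : S + P ≠ 0 ∧ SingAt l (S + P) := by
  rcases hP with rfl | hP
  · rw [add_zero]; exact ⟨hS0, hS⟩
  by_cases hP0 : P = 0
  · rw [hP0, add_zero]; exact ⟨hS0, hS⟩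
  obtain ⟨hh, e⟩ := exists_eq_some P hP0
  obtain ⟨hh', e'⟩ := exists_eq_some S hS0
  have hne : ptX S ≠ ptX P := by
    intro h0
    have := (Point.X_eq_iff (h₁ := hh') (h₂ := hh)).mp h0
    rw [← e, ← e'] at this
    rcases this with h1 | h1
    · rw [h1] at hS; exact hP hS
    · apply hP
      have h2 := sing_neg hS
      rw [h1, neg_neg] at h2
      exact h2
  have hsum : S + P = Point.some _ _ hh' + Point.some _ _ hh := by rw [← e, ← e']
  have hx3 : ptX (S + P) = ((ptY S - ptY P) / (ptX S - ptX P)) ^ 2 - ptX S - ptX P := by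
    rw [hsum, Point.add_of_X_ne hne, ptX_some, WeierstrassCurve.Affine.slope_of_X_ne hne]
    simp [WeierstrassCurve.Affine.addX, curve]
  have hy3 : ptY (S + P) = -(((ptY S - ptY P) / (ptX S - ptX P)) * (ptX (S + P) - ptX S) +
      ptY S) := by
    rw [hx3, hsum, Point.add_of_X_ne hne, ptY_some, WeierstrassCurve.Affine.slope_of_X_ne hne]
    simp [WeierstrassCurve.Affine.addY, WeierstrassCurve.Affine.negAddY,
      WeierstrassCurve.Affine.negY, WeierstrassCurve.Affine.addX, curve]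
  refine ⟨?_, ?_⟩
  · rw [hsum, Point.add_of_X_ne hne]
    exact Point.some_ne_zero _
  have hne' : ((ptX P : ℚ) : ℚ_[l]) ≠ ((ptX S : ℚ) : ℚ_[l]) := by
    intro h0; exact hne (by exact_mod_cast h0.symm)
  have ee := congrArg (fun z : ℚ => (z : ℚ_[l])) (curve_eq hh)
  have ee' := congrArg (fun z : ℚ => (z : ℚ_[l])) (curve_eq hh')
  have ex := congrArg (fun z : ℚ => (z : ℚ_[l])) hx3
  have ey := congrArg (fun z : ℚ => (z : ℚ_[l])) hy3
  push_cast at ee ee' ex ey
  obtain ⟨hs1, hs2, hs3⟩ := hS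
  have hne2 : ((ptX S : ℚ) : ℚ_[l]) - ((ptX P : ℚ) : ℚ_[l]) ≠ 0 := sub_ne_zero.mpr hne'.symm
  have := sing_core (L := (((ptY S : ℚ) : ℚ_[l]) - ((ptY P : ℚ) : ℚ_[l])) /
      (((ptX S : ℚ) : ℚ_[l]) - ((ptX P : ℚ) : ℚ_[l]))) (Padic.norm_int_le_one a)
    (Padic.norm_int_le_one b) ee ee' hs1 hs2 hs3 hP hne' (by
      field_simp
      ring) ex ey
  exact this

/-- Nonsingular points modulo `l` form a group. -/
lemma nonsing_add {P Q : (curve a b).Point} (hP : P = 0 ∨ ¬ SingAt l P)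
    (hQ : Q = 0 ∨ ¬ SingAt l Q) : P + Q = 0 ∨ ¬ SingAt l (P + Q) := by
  by_contra hcon
  push Not at hcon
  obtain ⟨h0, hs⟩ := hcon
  have hQ' : -Q = 0 ∨ ¬ SingAt l (-Q) := by
    rcases hQ with h | h
    · left; rw [h, neg_zero]
    · right
      intro h1
      apply h
      have := sing_neg h1
      rwa [neg_neg] at this
  have h1 := sing_add h0 hs hQ'
  rw [add_neg_cancel_right] at h1
  rcases hP with h | h
  · exact h1.1 h
  · exact h h1.2

end core

/-- The group of rational points which reduce to the origin modulo `p` and to a nonsingular point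
modulo every prime. -/
def goodGroup (p : ℕ) [hp : Fact p.Prime] (a b : ℤ) : AddSubgroup (curve a b).Point where
  carrier := {P | P = 0 ∨ (1 < ‖((ptX P : ℚ) : ℚ_[p])‖ ∧
    ∀ (l : ℕ) (_ : Fact l.Prime), ¬ SingAt l P)}
  zero_mem' := Or.inl rfl
  add_mem' := by
    intro P Q hP hQ
    by_cases hP0 : P = 0
    · rw [hP0, zero_add]; exact hQ
    by_cases hQ0 : Q = 0
    · rw [hQ0, add_zero]; exact hP
    obtain ⟨hP1, hP2⟩ := hP.resolve_left hP0
    obtain ⟨hQ1, hQ2⟩ := hQ.resolve_left hQ0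
    by_cases h0 : P + Q = 0
    · exact Or.inl h0
    · right
      constructor
      · rcases le_total ‖tt p P‖ ‖tt p Q‖ with h | h
        · exact (ker_add hP1 hQ1 h0 h).1
        · rw [add_comm] at h0 ⊢
          exact (ker_add hQ1 hP1 h0 h).1
      · intro l hl
        exact (nonsing_add (l := l) (Or.inr (hP2 l hl)) (Or.inr (hQ2 l hl))).resolve_left h0
  neg_mem' := by
    intro P hP
    by_cases hP0 : P = 0
    · rw [hP0, neg_zero]; exact Or.inl rfl
    obtain ⟨hP1, hP2⟩ := hP.resolve_left hP0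
    right
    constructor
    · match P with
      | .zero => exact hP1
      | .some x y hh => exact hP1
    · intro l hl h
      apply hP2 l hl
      have := sing_neg h
      rwa [neg_neg] at this

end Pool.Agent.Lib.MP_3550b5_nt
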