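import Mathlib
import Pool.Agent.Lib.MP_3550b5_nt.RGeom

/-!
Multiples in the good group, representations of its points.
-/

namespace Pool.Agent.Lib.MP_3550b5_nt

open WeierstrassCurve.Affine

variable {a b : ℤ}

lemma exists_rep {Q : (curve a b).Point} (hQ : Q ≠ 0) :
    ∃ A B D : ℤ, IsRep a b A B D Q ∧ 0 < D ∧ IsCoprime A D := by
  obtain ⟨hh, e⟩ := exists_eq_some Q hQ
  set x := ptX Q with hx
  set y := ptY Q with hy
  have hxd : (x.den : ℚ) ≠ 0 := by exact_mod_cast x.den_ne_zero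
  have hyd : (y.den : ℚ) ≠ 0 := by exact_mod_cast y.den_ne_zero
  set D₀ : ℤ := x.den * y.den with hD₀
  have hD₀0 : D₀ ≠ 0 := by
    rw [hD₀]
    exact mul_ne_zero (by exact_mod_cast x.den_ne_zero) (by exact_mod_cast y.den_ne_zero)
  set A₀ : ℤ := x.num * x.den * y.den ^ 2 with hA₀
  set B₀ : ℤ := y.num * y.den ^ 2 * x.den ^ 3 with hB₀
  have ex : (A₀ : ℚ) / (D₀ : ℚ) ^ 2 = x := by
    rw [hA₀, hD₀]
    push_cast
    conv_rhs => rw [← Rat.num_div_den x]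
    field_simp
  have ey : (B₀ : ℚ) / (D₀ : ℚ) ^ 3 = y := by
    rw [hB₀, hD₀]
    push_cast
    conv_rhs => rw [← Rat.num_div_den y]
    field_simp
  have hrep : IsRep a b A₀ B₀ D₀ Q := by
    refine ⟨hD₀0, ?_⟩
    have hh' : (curve a b).Nonsingular ((A₀ : ℚ) / (D₀ : ℚ) ^ 2) ((B₀ : ℚ) / (D₀ : ℚ) ^ 3) := by
      rw [ex, ey]; exact hh
    refine ⟨hh', ?_⟩
    rw [e]
    simp only [Point.some.injEq]
    exact ⟨ex.symm, ey.symm⟩
  obtain ⟨G, A₁, B₁, D₁, hG, hD1, hA1, hB1, hDD, hprim⟩ :=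
    reduce_rep a b _ _ _ _ hrep.1 le_rfl hrep.eqn
  have hG' : (G : ℚ) ≠ 0 := by exact_mod_cast hG.ne'
  have hD1' : (D₁ : ℚ) ≠ 0 := by exact_mod_cast hD1
  -- sign
  obtain ⟨ε, hε, hεD⟩ : ∃ ε : ℤ, (ε = 1 ∨ ε = -1) ∧ 0 < ε * D₁ := by
    rcases lt_or_gt_of_ne hD1 with h | h
    · exact ⟨-1, Or.inr rfl, by linarith⟩
    · exact ⟨1, Or.inl rfl, by linarith⟩
  have hε2 : (ε : ℚ) ^ 2 = 1 := by rcases hε with rfl | rfl <;> norm_num
  have hε3 : (ε : ℚ) ^ 3 = ε := by rcases hε with rfl | rfl <;> norm_num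
  have hε0 : (ε : ℚ) ≠ 0 := by rcases hε with rfl | rfl <;> norm_num
  refine ⟨A₁, ε * B₁, ε * D₁, ⟨hεD.ne', ?_⟩, hεD, ?_⟩
  · have ex' : (A₁ : ℚ) / ((ε * D₁ : ℤ) : ℚ) ^ 2 = x := by
      rw [← ex, hA1, hDD]
      push_cast
      rw [mul_pow, hε2]
      field_simp
    have ey' : ((ε * B₁ : ℤ) : ℚ) / ((ε * D₁ : ℤ) : ℚ) ^ 3 = y := by
      rw [← ey, hB1, hDD]
      push_cast
      rw [mul_pow, hε3]
      field_simp
    have hh' : (curve a b).Nonsingular ((A₁ : ℚ) / ((ε * D₁ : ℤ) : ℚ) ^ 2)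
        (((ε * B₁ : ℤ) : ℚ) / ((ε * D₁ : ℤ) : ℚ) ^ 3) := by
      rw [ex', ey']; exact hh
    refine ⟨hh', ?_⟩
    rw [e]
    simp only [Point.some.injEq]
    exact ⟨ex'.symm, ey'.symm⟩
  · apply isCoprime_of_prime_dvd
    · rintro ⟨-, h0⟩
      exact hεD.ne' h0
    · intro l hl h1 h2
      apply hprim l hl
      refine ⟨h1, ?_⟩
      rcases hε with rfl | rfl
      · simpa using h2
      · simpa using h2

lemma rep_coprime_sq {A D : ℤ} (h : IsCoprime A D) : IsCoprime A (D ^ 2) := h.pow_right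

lemma rep_num_den {A B D : ℤ} {Q : (curve a b).Point} (h : IsRep a b A B D Q)
    (hc : IsCoprime A D) : (ptX Q).num = A ∧ ((ptX Q).den : ℤ) = D ^ 2 := by
  rw [h.ptX_eq]
  have hD : D ≠ 0 := h.1
  have hpos : 0 < D ^ 2 := by positivity
  have hcop : Nat.Coprime A.natAbs (D ^ 2).natAbs := Int.isCoprime_iff_gcd_eq_one.mp hc.pow_right
  have h1 := Rat.num_div_eq_of_coprime hpos hcop
  have h2 := Rat.den_div_eq_of_coprime hpos hcop
  push_cast at h1 h2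
  exact ⟨h1, h2⟩

variable {p : ℕ} [hp : Fact p.Prime]

lemma good_not_torsion {Q : (curve a b).Point} (hQ : Q ∈ goodGroup p a b) (h0 : Q ≠ 0) :
    ¬ IsOfFinAddOrder Q := by
  have h1 := (Or.resolve_left hQ h0).1
  exact ker_not_torsion h1

lemma good_rep {Q : (curve a b).Point} (hQ : Q ∈ goodGroup p a b) (h0 : Q ≠ 0) :
    ∃ A B D : ℤ, IsRep a b A B D Q ∧ 0 < D ∧ IsCoprime A D ∧ (p : ℤ) ∣ D ∧
      IsCoprime (2 * B) (3 * A ^ 2 + a * D ^ 4) := by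
  obtain ⟨A, B, D, hrep, hD, hcop⟩ := exists_rep h0
  obtain ⟨h1, h2⟩ := Or.resolve_left hQ h0
  refine ⟨A, B, D, hrep, hD, hcop, ?_, ?_⟩
  · by_contra hnd
    rw [hrep.ptX_eq] at h1
    push_cast at h1
    have hDn : ‖(D : ℚ_[p])‖ = 1 := by
      refine le_antisymm (Padic.norm_int_le_one D) ?_
      by_contra hlt
      exact hnd (norm_int_lt_one'.mp (not_le.mp hlt))
    rw [norm_div, norm_pow, hDn, one_pow, div_one] at h1
    have := Padic.norm_int_le_one (p := p) A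
    linarith
  · apply isCoprime_of_prime_dvd
    · rintro ⟨hB0, -⟩
      exact hrep.B_ne (good_not_torsion hQ h0) hB0
    · intro l' hl' g1 g2
      obtain ⟨l, hl, hll⟩ : ∃ l : ℕ, l.Prime ∧ (l : ℤ) ∣ l' ∧ l' ∣ (l : ℤ) := by
        refine ⟨l'.natAbs, Int.prime_iff_natAbs_prime.mp hl', ?_, ?_⟩
        · exact Int.natAbs_dvd.mpr dvd_rfl
        · exact Int.dvd_natAbs.mpr dvd_rfl
      have : Fact l.Prime := ⟨hl⟩
      have hlZ : Prime (l : ℤ) := Nat.prime_iff_prime_int.mp hl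
      apply h2 l this
      apply rep_of_sing hrep _ (hll.1.trans g1) (hll.1.trans g2)
      rintro ⟨h3, h4⟩
      exact hlZ.not_isUnit (hcop.isUnit_of_dvd' h3 h4)

lemma disc_of_sing {l : ℕ} [hl : Fact l.Prime] {Q : (curve a b).Point} (hQ : Q ≠ 0)
    (h : SingAt l Q) : (l : ℤ) ∣ 4 * (4 * a ^ 3 + 27 * b ^ 2) := by
  obtain ⟨hh, e⟩ := exists_eq_some Q hQ
  obtain ⟨h1, h2, h3⟩ := h
  have ee := congrArg (fun z : ℚ => (z : ℚ_[l])) (curve_eq hh)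
  push_cast at ee
  set x := ((ptX Q : ℚ) : ℚ_[l])
  set y := ((ptY Q : ℚ) : ℚ_[l])
  rw [← norm_int_lt_one']
  have hdisc : ((4 * (4 * a ^ 3 + 27 * b ^ 2) : ℤ) : ℚ_[l]) =
      (2 * y) * (-((18 * a * x - 27 * b) * (2 * y))) +
      (3 * x ^ 2 + a) * (4 * (6 * a * x ^ 2 - 9 * b * x + 4 * a ^ 2)) := by
    push_cast
    have e5 : (2 * y) * (2 * y) = 4 * (x ^ 3 + a * x + b) := by rw [← ee]; ring
    linear_combination (-(18 * a * x - 27 * b)) * (-e5)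
  have hi : ∀ n : ℤ, ‖(n : ℚ_[l])‖ ≤ 1 := Padic.norm_int_le_one
  have hb1 : ‖-((18 * (a : ℚ_[l]) * x - 27 * b) * (2 * y))‖ ≤ 1 := by
    have e6 : 18 * (a : ℚ_[l]) * x - 27 * b = ((18 * a : ℤ) : ℚ_[l]) * x +
      ((-27 * b : ℤ) : ℚ_[l]) := by push_cast; ring
    rw [e6, norm_neg, norm_mul]
    refine mul_le_one₀ ?_ (norm_nonneg _) h2.le
    refine norm_add_le' ?_ (hi _)
    rw [norm_mul]; exact mul_le_one₀ (hi _) (norm_nonneg _) h1
  have hb2 : ‖4 * (6 * (a : ℚ_[l]) * x ^ 2 - 9 * b * x + 4 * a ^ 2)‖ ≤ 1 := by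
    have e6 : 4 * (6 * (a : ℚ_[l]) * x ^ 2 - 9 * b * x + 4 * a ^ 2) =
      ((24 * a : ℤ) : ℚ_[l]) * x ^ 2 + ((-36 * b : ℤ) : ℚ_[l]) * x +
        ((16 * a ^ 2 : ℤ) : ℚ_[l]) := by push_cast; ring
    rw [e6]
    refine norm_add_le' (norm_add_le' ?_ ?_) (hi _)
    · rw [norm_mul, norm_pow]
      exact mul_le_one₀ (hi _) (by positivity) (pow_le_one₀ (norm_nonneg _) h1)
    · rw [norm_mul]; exact mul_le_one₀ (hi _) (norm_nonneg _) h1
  rw [hdisc]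
  apply norm_add_lt
  · rw [norm_mul]
    calc ‖2 * y‖ * _ ≤ ‖2 * y‖ * 1 := by gcongr
      _ < 1 := by rw [mul_one]; exact h2
  · rw [norm_mul]
    calc ‖3 * x ^ 2 + (a : ℚ_[l])‖ * _ ≤ ‖3 * x ^ 2 + (a : ℚ_[l])‖ * 1 := by gcongr
      _ < 1 := by rw [mul_one]; exact h3

lemma nonsing_nsmul {l : ℕ} [hl : Fact l.Prime] {P : (curve a b).Point}
    (hP : P = 0 ∨ ¬ SingAt l P) (n : ℕ) : n • P = 0 ∨ ¬ SingAt l (n • P) := by
  induction n with
  | zero => left; exact zero_nsmul _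
  | succ n ih => rw [succ_nsmul]; exact nonsing_add ih hP

/-- A multiple of every point is nonsingular modulo all primes. -/
lemma exists_mult_nonsing (hΔ : 4 * a ^ 3 + 27 * b ^ 2 ≠ 0) {P : (curve a b).Point}
    (hP : ¬ IsOfFinAddOrder P) :
    ∃ N : ℕ, 1 ≤ N ∧ ∀ (l : ℕ) (_ : Fact l.Prime), N • P = 0 ∨ ¬ SingAt l (N • P) := by
  classical
  set Δ : ℤ := 4 * (4 * a ^ 3 + 27 * b ^ 2) with hΔd
  have hΔ0 : Δ ≠ 0 := mul_ne_zero (by norm_num) hΔ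
  set S : Finset ℕ := Δ.natAbs.primeFactors with hS
  have hex : ∀ l : ℕ, ∃ n : ℕ, 1 ≤ n ∧ (∀ _ : Fact l.Prime, n • P = 0 ∨ ¬ SingAt l (n • P)) := by
    intro l
    by_cases hl : l.Prime
    · have : Fact l.Prime := ⟨hl⟩
      obtain ⟨K, hK⟩ : ∃ K, ¬ (l : ℤ) ^ K ∣ Δ := by
        have hlZ : Prime (l : ℤ) := Nat.prime_iff_prime_int.mp hl
        have hfin : FiniteMultiplicity (l : ℤ) Δ :=
          FiniteMultiplicity.of_not_isUnit hlZ.not_isUnit hΔ0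
        exact ⟨_, hfin.not_pow_dvd_of_multiplicity_lt (Nat.lt_succ_self _)⟩
      obtain ⟨n, h1, -, h3⟩ := exists_nonsing (l := l) hP hK
      exact ⟨n, h1, fun _ => Or.inr h3⟩
    · exact ⟨1, le_rfl, fun h => absurd h.out hl⟩
  choose n hn1 hn2 using hex
  refine ⟨∏ l ∈ S, n l, Finset.one_le_prod' fun l _ => hn1 l, fun l hl => ?_⟩
  by_cases hlS : l ∈ S
  · rw [← Finset.mul_prod_erase S n hlS, mul_comm, mul_smul]
    exact nonsing_nsmul (hn2 l hl) _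
  · by_cases h0 : (∏ l ∈ S, n l) • P = 0
    · exact Or.inl h0
    · right
      intro hs
      apply hlS
      have := disc_of_sing h0 hs
      rw [hS, Nat.mem_primeFactors]
      refine ⟨hl.out, Int.natCast_dvd.mp this, Int.natAbs_ne_zero.mpr hΔ0⟩

/-- Every point has a multiple in the good group. -/
theorem exists_mult_good (hΔ : 4 * a ^ 3 + 27 * b ^ 2 ≠ 0) (P : (curve a b).Point) :
    ∃ N : ℕ, 1 ≤ N ∧ N • P ∈ goodGroup p a b := by
  by_cases htor : IsOfFinAddOrder P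
  · obtain ⟨n, hn, h0⟩ := htor.exists_nsmul_eq_zero
    exact ⟨n, hn, Or.inl h0⟩
  obtain ⟨N, hN, hns⟩ := exists_mult_nonsing hΔ htor
  have htor' : ¬ IsOfFinAddOrder (N • P) := by
    rw [isOfFinAddOrder_nsmul]; push Not; exact ⟨htor, by omega⟩
  have hNP : N • P ≠ 0 := fun h => htor' (by rw [h]; exact IsOfFinAddOrder.zero)
  obtain ⟨A, B, D, hrep, hD, hcop⟩ := exists_rep hNP
  obtain ⟨m, hm1, -, hm3⟩ := exists_apparition ((hrep.multSeq htor').toInt hrep.1) p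
  obtain ⟨β, hrep2, hloc⟩ := hrep.mult htor' m hm1
  have hDm : (p : ℤ) ∣ Dn a A B D m := Dvd.dvd.mul_left hm3 _
  have hpZ : Prime (p : ℤ) := Nat.prime_iff_prime_int.mp hp.out
  have hnsp : ¬ ((p : ℤ) ∣ 2 * B ∧ (p : ℤ) ∣ 3 * A ^ 2 + a * D ^ 4) := by
    rintro ⟨h1, h2⟩
    apply (hns p hp).resolve_left hNP
    apply rep_of_sing hrep _ h1 h2
    rintro ⟨h3, h4⟩
    exact hpZ.not_isUnit (hcop.isUnit_of_dvd' h3 h4)
  have hnsm := hloc p hpZ hnsp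
  have hA : ¬ (p : ℤ) ∣ An a A B D m := by
    intro hd
    apply hnsm
    have h1 : (p : ℤ) ∣ β ^ 2 := by
      rw [hrep2.eqn]
      exact dvd_add (dvd_add (dvd_pow hd (by norm_num))
        (Dvd.dvd.mul_left (dvd_pow hDm (by norm_num)) _))
        (Dvd.dvd.mul_left (dvd_pow hDm (by norm_num)) _)
    exact ⟨Dvd.dvd.mul_left (hpZ.dvd_of_dvd_pow h1) _,
      dvd_add (Dvd.dvd.mul_left (dvd_pow hd (by norm_num)) _)
        (Dvd.dvd.mul_left (dvd_pow hDm (by norm_num)) _)⟩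
  refine ⟨m * N, Nat.mul_pos hm1 hN, Or.inr ⟨?_, ?_⟩⟩
  · rw [mul_smul, hrep2.ptX_eq]
    push_cast
    have h1 : ‖((An a A B D m : ℤ) : ℚ_[p])‖ = 1 := by
      refine le_antisymm (Padic.norm_int_le_one _) ?_
      by_contra hlt
      exact hA (norm_int_lt_one'.mp (not_le.mp hlt))
    have h2 : ‖((Dn a A B D m : ℤ) : ℚ_[p])‖ < 1 := norm_int_lt_one'.mpr hDm
    have h3 : 0 < ‖((Dn a A B D m : ℤ) : ℚ_[p])‖ := norm_pos_iff.mpr (by exact_mod_cast hrep2.1)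
    rw [norm_div, norm_pow, h1]
    rw [one_lt_div (by positivity)]
    exact pow_lt_one₀ h3.le h2 two_ne_zero
  · intro l hl
    rw [mul_smul]
    have h1 := nonsing_nsmul (hns l hl) m
    refine h1.resolve_left ?_
    exact fun h => htor' (by
      rw [isOfFinAddOrder_iff_nsmul_eq_zero]
      exact ⟨m, hm1, h⟩)

end Pool.Agent.Lib.MP_3550b5_nt
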