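import Mathlib
import Pool.Agent.Lib.MP_3550b5_nt.RDet
import Pool.Agent.Lib.MP_3550b5_nt.RExp
import Pool.Agent.Lib.MP_3550b5_nt.RMult

/-!
The formal group of `y^2 = x^3 + a x + b` at a point of the kernel of reduction: the parameter of
a sum is a power series in the parameter of one of the two points.
-/

namespace Pool.Agent.Lib.MP_3550b5_nt

open WeierstrassCurve.Affine PowerSeries

variable {p : ℕ} [hp : Fact p.Prime]

section series

lemma ev_C (c t : ℤ_[p]) : ev (C c : ℤ_[p]⟦X⟧) t = c := by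
  unfold ev
  rw [tsum_eq_single 0]
  · simp
  · intro n hn
    rw [coeff_C, if_neg hn, zero_mul]

lemma ev_pow (f : ℤ_[p]⟦X⟧) {t : ℤ_[p]} (ht : ‖t‖ < 1) (n : ℕ) : ev (f ^ n) t = ev f t ^ n := by
  induction n with
  | zero => rw [pow_zero, pow_zero, ev_one]
  | succ n ih => rw [pow_succ, pow_succ, ev_mul _ _ ht, ih]

lemma dvd_iff_norm_lt {z : ℤ_[p]} : (p : ℤ_[p]) ∣ z ↔ ‖z‖ < 1 := by
  rw [← Ideal.mem_span_singleton, ← PadicInt.maximalIdeal_eq_span_p,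
    IsLocalRing.mem_maximalIdeal, PadicInt.mem_nonunits]

/-- The value minus the constant coefficient. -/
lemma dvd_ev_sub (f : ℤ_[p]⟦X⟧) {t : ℤ_[p]} (ht : (p : ℤ_[p]) ∣ t) :
    (p : ℤ_[p]) ∣ ev f t - coeff 0 f := by
  have h := ev_trunc f ht 1
  simpa using h

/-- Division of `f - f(t')` by `X - t'`. -/
noncomputable def sdiv (f : ℤ_[p]⟦X⟧) (t' : ℤ_[p]) : ℤ_[p]⟦X⟧ :=
  PowerSeries.mk fun i => ev (PowerSeries.mk fun j => coeff (i + j + 1) f) t'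

lemma sdiv_spec (f : ℤ_[p]⟦X⟧) {t' : ℤ_[p]} (ht' : ‖t'‖ < 1) :
    f = C (ev f t') + (X - C t') * sdiv f t' := by
  have hrec : ∀ i : ℕ, ev (PowerSeries.mk fun j => coeff (i + j + 1) f) t' =
      coeff (i + 1) f + t' * ev (PowerSeries.mk fun j => coeff (i + 1 + j + 1) f) t' := by
    intro i
    have e : (PowerSeries.mk fun j => coeff (i + j + 1) f) =
        C (coeff (i + 1) f) + X * (PowerSeries.mk fun j => coeff (i + 1 + j + 1) f) := by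
      ext n
      cases n with
      | zero => simp
      | succ n =>
        rw [coeff_mk, map_add, coeff_C, if_neg (Nat.succ_ne_zero n), coeff_succ_X_mul, coeff_mk,
          zero_add, show i + (n + 1) + 1 = i + 1 + n + 1 by omega]
    rw [e, ev_add _ _ ht', ev_C, ev_mul _ _ ht', ev_X]
  have hrec0 : ev f t' = coeff 0 f + t' * ev (PowerSeries.mk fun j => coeff (0 + j + 1) f) t' := by
    have e : f = C (coeff 0 f) + X * (PowerSeries.mk fun j => coeff (0 + j + 1) f) := by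
      ext n
      cases n with
      | zero => simp
      | succ n =>
        rw [map_add, coeff_C, if_neg (Nat.succ_ne_zero n), coeff_succ_X_mul, coeff_mk,
          zero_add, zero_add]
    conv_lhs => rw [e]
    rw [ev_add _ _ ht', ev_C, ev_mul _ _ ht', ev_X]
  ext n
  rw [map_add, sub_mul, map_sub, coeff_C, coeff_C_mul, sdiv, coeff_mk]
  cases n with
  | zero =>
    rw [if_pos rfl, coeff_zero_X_mul, hrec0]
    ring
  | succ n =>
    rw [if_neg (Nat.succ_ne_zero n), coeff_succ_X_mul, coeff_mk, hrec n]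
    ring

lemma ev_sdiv (f : ℤ_[p]⟦X⟧) {t t' : ℤ_[p]} (ht : ‖t‖ < 1) (ht' : ‖t'‖ < 1) :
    ev f t - ev f t' = (t - t') * ev (sdiv f t') t := by
  conv_lhs => rw [sdiv_spec f ht']
  rw [ev_add _ _ ht, ev_mul _ _ ht, ev_sub _ _ ht, ev_X, ev_C, ev_C, ← sdiv_spec f ht']
  ring

lemma dvd_ev_sdiv {f : ℤ_[p]⟦X⟧} (hf : coeff 1 f = 0) {t t' : ℤ_[p]} (ht : (p : ℤ_[p]) ∣ t)
    (ht' : (p : ℤ_[p]) ∣ t') : (p : ℤ_[p]) ∣ ev (sdiv f t') t := by
  have h1 := dvd_ev_sub (sdiv f t') ht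
  have h2 := dvd_ev_sub (PowerSeries.mk fun j => coeff (0 + j + 1) f) ht'
  have h3 : coeff 0 (sdiv f t') = ev (PowerSeries.mk fun j => coeff (0 + j + 1) f) t' := by
    rw [sdiv, coeff_mk]
  have h4 : coeff 0 (PowerSeries.mk fun j => coeff (0 + j + 1) f) = 0 := by
    rw [coeff_mk]; simpa using hf
  rw [h4, sub_zero, ← h3] at h2
  have := dvd_add h1 h2
  simpa using this

end series

open scoped Classical in
/-- A `p`-adic number of norm at most one, as a `p`-adic integer. -/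
noncomputable def toZp (z : ℚ_[p]) : ℤ_[p] :=
  if h : ∃ w : ℤ_[p], (w : ℚ_[p]) = z then h.choose else 0

lemma coe_toZp {z : ℚ_[p]} (h : ‖z‖ ≤ 1) : ((toZp z : ℤ_[p]) : ℚ_[p]) = z := by
  have hex : ∃ w : ℤ_[p], (w : ℚ_[p]) = z := ⟨⟨z, h⟩, rfl⟩
  rw [toZp, dif_pos hex]
  exact hex.choose_spec

lemma toZp_zero : toZp (0 : ℚ_[p]) = 0 := by
  apply Subtype.coe_injective
  exact coe_toZp (by rw [norm_zero]; exact zero_le_one)

variable {a b : ℤ}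

/-- The parameter `t = -x / y`. -/
noncomputable def tz (p : ℕ) [Fact p.Prime] (Q : (curve a b).Point) : ℤ_[p] :=
  toZp (-((ptX Q : ℚ) : ℚ_[p]) / ((ptY Q : ℚ) : ℚ_[p]))

/-- The coordinate `w = -1 / y`. -/
noncomputable def wz (p : ℕ) [Fact p.Prime] (Q : (curve a b).Point) : ℤ_[p] :=
  toZp (-1 / ((ptY Q : ℚ) : ℚ_[p]))

lemma tz_zero : tz p (0 : (curve a b).Point) = 0 := by
  have h : ((ptX (0 : (curve a b).Point) : ℚ) : ℚ_[p]) = 0 := by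
    show (((0 : ℚ)) : ℚ_[p]) = 0
    simp
  rw [tz, h, neg_zero, zero_div, toZp_zero]

lemma wz_zero : wz p (0 : (curve a b).Point) = 0 := by
  have h : ((ptY (0 : (curve a b).Point) : ℚ) : ℚ_[p]) = 0 := by
    show (((0 : ℚ)) : ℚ_[p]) = 0
    simp
  rw [wz, h, div_zero, toZp_zero]

lemma ker_eqn {Q : (curve a b).Point} (h0 : Q ≠ 0) :
    ((ptY Q : ℚ) : ℚ_[p]) ^ 2 = ((ptX Q : ℚ) : ℚ_[p]) ^ 3 + (a : ℚ_[p]) * ((ptX Q : ℚ) : ℚ_[p]) +
      (b : ℚ_[p]) := by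
  obtain ⟨hh, e⟩ := exists_eq_some Q h0
  have := congrArg (fun z : ℚ => (z : ℚ_[p])) (curve_eq hh)
  push_cast at this
  exact this

lemma ker_coords {Q : (curve a b).Point} (h : 1 < ‖((ptX Q : ℚ) : ℚ_[p])‖) :
    ((ptY Q : ℚ) : ℚ_[p]) ≠ 0 ∧
    ((tz p Q : ℤ_[p]) : ℚ_[p]) = -((ptX Q : ℚ) : ℚ_[p]) / ((ptY Q : ℚ) : ℚ_[p]) ∧
    ((wz p Q : ℤ_[p]) : ℚ_[p]) = -1 / ((ptY Q : ℚ) : ℚ_[p]) ∧
    (p : ℤ_[p]) ∣ tz p Q ∧ (p : ℤ_[p]) ∣ wz p Q := by
  obtain ⟨h1, h2, h3, h4, h5⟩ := ker_norms (Padic.norm_int_le_one a) (Padic.norm_int_le_one b) h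
    (ker_eqn (ne_zero_of_norm h))
  have e1 : ‖-((ptX Q : ℚ) : ℚ_[p]) / ((ptY Q : ℚ) : ℚ_[p])‖ =
      ‖((ptX Q : ℚ) : ℚ_[p]) / ((ptY Q : ℚ) : ℚ_[p])‖ := by
    rw [neg_div, norm_neg]
  have e2 : ‖-1 / ((ptY Q : ℚ) : ℚ_[p])‖ =
      ‖((ptX Q : ℚ) : ℚ_[p]) / ((ptY Q : ℚ) : ℚ_[p])‖ ^ 3 := by
    rw [neg_div, norm_neg, norm_div, norm_one, div_eq_iff (norm_pos_iff.mpr h1).ne']
    exact h3.symm
  have c1 : ‖-((ptX Q : ℚ) : ℚ_[p]) / ((ptY Q : ℚ) : ℚ_[p])‖ < 1 := by rw [e1]; exact h5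
  have c2 : ‖-1 / ((ptY Q : ℚ) : ℚ_[p])‖ < 1 := by
    rw [e2]; exact pow_lt_one₀ h4.le h5 (by norm_num)
  have d1 : ((tz p Q : ℤ_[p]) : ℚ_[p]) = _ := coe_toZp c1.le
  have d2 : ((wz p Q : ℤ_[p]) : ℚ_[p]) = _ := coe_toZp c2.le
  refine ⟨h1, d1, d2, ?_, ?_⟩
  · rw [dvd_iff_norm_lt, ← PadicInt.padic_norm_e_of_padicInt, d1]; exact c1
  · rw [dvd_iff_norm_lt, ← PadicInt.padic_norm_e_of_padicInt, d2]; exact c2

/-- The kernel of reduction. -/
def Ker (p : ℕ) [Fact p.Prime] {a b : ℤ} (Q : (curve a b).Point) : Prop :=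
  Q = 0 ∨ 1 < ‖((ptX Q : ℚ) : ℚ_[p])‖

lemma Ker.of_good {Q : (curve a b).Point} (h : Q ∈ goodGroup p a b) : Ker p Q := by
  rcases h with h | h
  · exact Or.inl h
  · exact Or.inr h.1

lemma Ker.dvd_tz {Q : (curve a b).Point} (h : Ker p Q) : (p : ℤ_[p]) ∣ tz p Q := by
  rcases h with rfl | h
  · rw [tz_zero]; exact dvd_zero _
  · exact (ker_coords h).2.2.2.1

lemma Ker.dvd_wz {Q : (curve a b).Point} (h : Ker p Q) : (p : ℤ_[p]) ∣ wz p Q := by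
  rcases h with rfl | h
  · rw [wz_zero]; exact dvd_zero _
  · exact (ker_coords h).2.2.2.2

lemma Ker.wz_eqn {Q : (curve a b).Point} (h : Ker p Q) :
    wz p Q = tz p Q ^ 3 + a * tz p Q * wz p Q ^ 2 + b * wz p Q ^ 3 := by
  rcases h with rfl | h
  · rw [tz_zero, wz_zero]; ring
  · obtain ⟨h1, h2, h3, -, -⟩ := ker_coords h
    have E := ker_eqn (p := p) (ne_zero_of_norm h)
    apply Subtype.coe_injective
    show ((wz p Q : ℤ_[p]) : ℚ_[p]) =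
      ((tz p Q ^ 3 + a * tz p Q * wz p Q ^ 2 + b * wz p Q ^ 3 : ℤ_[p]) : ℚ_[p])
    push_cast
    rw [h2, h3]
    field_simp
    linear_combination -E

/-- The series `w(t)`. -/
lemma ev_w {W : ℤ_[p]⟦X⟧} (hW : W = 1 + C (a : ℤ_[p]) * X ^ 4 * W ^ 2 +
    C (b : ℤ_[p]) * X ^ 6 * W ^ 3) {Q : (curve a b).Point} (h : Ker p Q) :
    wz p Q = ev (X ^ 3 * W) (tz p Q) := by
  set t := tz p Q with ht
  set w := wz p Q with hw
  have htd : (p : ℤ_[p]) ∣ t := h.dvd_tz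
  have hwd : (p : ℤ_[p]) ∣ w := h.dvd_wz
  have htn : ‖t‖ < 1 := norm_lt_one_of_dvd htd
  have e1 : ev (X ^ 3 * W) t = t ^ 3 * ev W t := by
    rw [ev_mul _ _ htn, ev_pow _ htn, ev_X]
  have e2 : ev W t = 1 + a * t ^ 4 * ev W t ^ 2 + b * t ^ 6 * ev W t ^ 3 := by
    conv_lhs => rw [hW]
    rw [ev_add _ _ htn, ev_add _ _ htn, ev_mul _ _ htn, ev_mul _ _ htn, ev_mul _ _ htn,
      ev_mul _ _ htn, ev_pow _ htn, ev_pow _ htn, ev_pow _ htn, ev_pow _ htn, ev_one, ev_X, ev_C,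
      ev_C]
  set v := ev (X ^ 3 * W) t with hv
  have e3 : v = t ^ 3 + a * t * v ^ 2 + b * v ^ 3 := by
    rw [e1]
    linear_combination t ^ 3 * e2
  have hvd : (p : ℤ_[p]) ∣ v := by
    rw [e1]
    exact Dvd.dvd.mul_right (dvd_pow htd (by norm_num)) _
  have e4 : w = t ^ 3 + a * t * w ^ 2 + b * w ^ 3 := h.wz_eqn
  have e5 : (w - v) * (1 - (a * t * (w + v) + b * (w ^ 2 + w * v + v ^ 2))) = 0 := by
    linear_combination e4 - e3
  rcases mul_eq_zero.mp e5 with h6 | h6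
  · exact sub_eq_zero.mp h6
  · exfalso
    have h7 : (p : ℤ_[p]) ∣ a * t * (w + v) + b * (w ^ 2 + w * v + v ^ 2) := by
      apply dvd_add
      · exact Dvd.dvd.mul_right (Dvd.dvd.mul_left htd _) _
      · apply Dvd.dvd.mul_left
        exact dvd_add (dvd_add (dvd_pow hwd (by norm_num)) (Dvd.dvd.mul_right hwd _))
          (dvd_pow hvd (by norm_num))
    have h8 : (1 : ℤ_[p]) = a * t * (w + v) + b * (w ^ 2 + w * v + v ^ 2) :=
      sub_eq_zero.mp h6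
    rw [← h8, dvd_iff_norm_lt, norm_one] at h7
    exact lt_irrefl _ h7

/-- Points of the kernel of reduction are determined by their parameters. -/
lemma tz_inj {W : ℤ_[p]⟦X⟧} (hW : W = 1 + C (a : ℤ_[p]) * X ^ 4 * W ^ 2 +
    C (b : ℤ_[p]) * X ^ 6 * W ^ 3) {Q Q' : (curve a b).Point}
    (h : 1 < ‖((ptX Q : ℚ) : ℚ_[p])‖) (h' : 1 < ‖((ptX Q' : ℚ) : ℚ_[p])‖)
    (ht : tz p Q = tz p Q') : ptX Q = ptX Q' := by
  have hw : wz p Q = wz p Q' := by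
    rw [ev_w hW (Or.inr h), ev_w hW (Or.inr h'), ht]
  obtain ⟨h1, h2, h3, -, -⟩ := ker_coords h
  obtain ⟨h1', h2', h3', -, -⟩ := ker_coords h'
  rw [hw, h3'] at h3
  rw [ht, h2'] at h2
  have hy : ((ptY Q : ℚ) : ℚ_[p]) = ((ptY Q' : ℚ) : ℚ_[p]) := by
    field_simp at h3
    linear_combination -h3
  rw [hy] at h2
  have hx : ((ptX Q : ℚ) : ℚ_[p]) = ((ptX Q' : ℚ) : ℚ_[p]) := by
    field_simp at h2
    linear_combination h2
  exact_mod_cast hx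

lemma add_formula_field {K : Type*} [Field K] {a b x1 y1 x2 y2 x3 l m μ : K}
    (hm : m ≠ 0) (hy1 : y1 ≠ 0) (hy2 : y2 ≠ 0) (hy3 : l * x3 + m ≠ 0)
    (c1 : y1 = l * x1 + m) (c2 : y2 = l * x2 + m)
    (c3 : x1 * x2 + x1 * x3 + x2 * x3 = a - 2 * l * m) (c4 : x1 * x2 * x3 = m ^ 2 - b)
    (c5 : x3 = l ^ 2 - x1 - x2)
    (ht : -x1 / y1 - -x2 / y2 ≠ 0) (hμ : -1 / y1 - -1 / y2 = (-x1 / y1 - -x2 / y2) * μ) :
    (1 + a * μ ^ 2 + b * μ ^ 3) * (-x3 / (-(l * x3 + m)) - -x1 / y1 - -x2 / y2) =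
      (2 * a * μ + 3 * b * μ ^ 2) * (-1 / y2 - -x2 / y2 * μ) := by
  have hμ' : μ = -(l / m) := by
    apply mul_left_cancel₀ ht
    rw [← hμ]
    field_simp
    rw [c1, c2]
    ring
  have hprod : y1 * y2 * (l * x3 + m) = m ^ 3 + (a * l ^ 2 * m + -(b * l ^ 3)) := by
    rw [c1, c2]
    linear_combination (l * m ^ 2) * c5 + (l ^ 2 * m) * c3 + l ^ 3 * c4
  have hnum : x1 * y2 * (l * x3 + m) + y1 * x2 * (l * x3 + m) + y1 * y2 * x3 =
      2 * a * l * m + -(3 * b * l ^ 2) := by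
    rw [c1, c2]
    linear_combination (m ^ 2) * c5 + (2 * l * m) * c3 + (3 * l ^ 2) * c4
  have e1 : -x3 / (-(l * x3 + m)) - -x1 / y1 - -x2 / y2 =
      (2 * a * l * m + -(3 * b * l ^ 2)) / (y1 * y2 * (l * x3 + m)) := by
    rw [← hnum]
    generalize l * x3 + m = y3 at *
    field_simp
    ring
  have e2 : -1 / y2 - -x2 / y2 * μ = -(1 / m) := by
    rw [hμ']
    field_simp
    rw [c2]
    ring
  have e3 : 1 + a * μ ^ 2 + b * μ ^ 3 = (y1 * y2 * (l * x3 + m)) / m ^ 3 := by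
    rw [hprod, hμ']
    field_simp
    ring
  rw [e1, e2, e3, hμ']
  have h5 : y1 * y2 * (l * x3 + m) ≠ 0 := mul_ne_zero (mul_ne_zero hy1 hy2) hy3
  generalize y1 * y2 * (l * x3 + m) = z at *
  field_simp
  ring

/-- The addition formula, for two points of the kernel of reduction with distinct abscissas. -/
theorem tz_add_formula {Q Q' : (curve a b).Point}
    (h : 1 < ‖((ptX Q : ℚ) : ℚ_[p])‖) (h' : 1 < ‖((ptX Q' : ℚ) : ℚ_[p])‖)
    (hne : ptX Q ≠ ptX Q') (htne : tz p Q ≠ tz p Q')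
    {lam : ℤ_[p]} (hlam : wz p Q - wz p Q' = (tz p Q - tz p Q') * lam) :
    Q + Q' ≠ 0 ∧
    (1 + a * lam ^ 2 + b * lam ^ 3) * (tz p (Q + Q') - tz p Q - tz p Q') =
      (2 * a * lam + 3 * b * lam ^ 2) * (wz p Q' - tz p Q' * lam) := by
  obtain ⟨hh, e⟩ := exists_eq_some Q (ne_zero_of_norm h)
  obtain ⟨hh', e'⟩ := exists_eq_some Q' (ne_zero_of_norm h')
  have h0 : Q + Q' ≠ 0 := by
    intro h0
    rw [e, e', Point.add_of_X_ne hne] at h0
    exact Point.some_ne_zero _ h0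
  refine ⟨h0, ?_⟩
  have h3 : 1 < ‖((ptX (Q + Q') : ℚ) : ℚ_[p])‖ := by
    rcases le_total ‖tt p Q‖ ‖tt p Q'‖ with h4 | h4
    · exact (ker_add h h' h0 h4).1
    · rw [add_comm] at h0 ⊢
      exact (ker_add h' h h0 h4).1
  obtain ⟨q1, q2, q3, -, -⟩ := ker_coords h
  obtain ⟨r1, r2, r3, -, -⟩ := ker_coords h'
  obtain ⟨s1, s2, -, -, -⟩ := ker_coords h3
  have h0' : (Point.some _ _ hh : (curve a b).Point) + Point.some _ _ hh' ≠ 0 := by
    rw [← e, ← e']; exact h0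
  obtain ⟨L, M, g1, g2, g3, g4, g5, g6, g7⟩ := exists_line hh hh' h0'
  rw [← e, ← e'] at g5 g6
  have hLd : L * (ptX Q - ptX Q') = ptY Q - ptY Q' := by
    rcases g7 with h7 | h7
    · exact h7.2
    · exact absurd h7.1 hne
  have E1 := ker_eqn (p := p) (ne_zero_of_norm h)
  have E2 := ker_eqn (p := p) (ne_zero_of_norm h')
  have c1 := congrArg (fun z : ℚ => (z : ℚ_[p])) g1
  have c2 := congrArg (fun z : ℚ => (z : ℚ_[p])) g2
  have c3 := congrArg (fun z : ℚ => (z : ℚ_[p])) g3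
  have c4 := congrArg (fun z : ℚ => (z : ℚ_[p])) g4
  have c5 := congrArg (fun z : ℚ => (z : ℚ_[p])) g5
  have c6 := congrArg (fun z : ℚ => (z : ℚ_[p])) g6
  have c7 := congrArg (fun z : ℚ => (z : ℚ_[p])) hLd
  push_cast at c1 c2 c3 c4 c5 c6 c7
  have hM : (M : ℚ_[p]) ≠ 0 := by
    have hx : ((ptX Q : ℚ) : ℚ_[p]) ≠ ((ptX Q' : ℚ) : ℚ_[p]) := by exact_mod_cast hne
    have hLM : (M : ℚ_[p]) = 0 → (L : ℚ_[p]) = 0 := by
      intro hM0
      rcases le_total ‖((ptX Q : ℚ) : ℚ_[p]) / ((ptY Q : ℚ) : ℚ_[p])‖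
        ‖((ptX Q' : ℚ) : ℚ_[p]) / ((ptY Q' : ℚ) : ℚ_[p])‖ with h4 | h4
      · have := chord_slope (L := (L : ℚ_[p])) (M := (M : ℚ_[p])) (Padic.norm_int_le_one a)
          (Padic.norm_int_le_one b) h h' E1 E2 h4 rfl hx c7 (by rw [c1]; ring)
        rw [hM0, norm_zero, mul_zero] at this
        exact norm_le_zero_iff.mp this
      · have := chord_slope (L := (L : ℚ_[p])) (M := (M : ℚ_[p])) (Padic.norm_int_le_one a)
          (Padic.norm_int_le_one b) h' h E2 E1 h4 rfl hx.symm (by linear_combination -c7)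
          (by rw [c2]; ring)
        rw [hM0, norm_zero, mul_zero] at this
        exact norm_le_zero_iff.mp this
    intro hM0
    apply q1
    rw [c1, hM0, hLM hM0]; ring
  have hlamQ := congrArg (fun z : ℤ_[p] => (z : ℚ_[p])) hlam
  have htneQ : ((tz p Q : ℤ_[p]) : ℚ_[p]) - ((tz p Q' : ℤ_[p]) : ℚ_[p]) ≠ 0 := by
    rw [sub_ne_zero]
    intro h; exact htne (Subtype.coe_injective h)
  push_cast at hlamQ
  apply Subtype.coe_injective
  show (((1 + a * lam ^ 2 + b * lam ^ 3) * (tz p (Q + Q') - tz p Q - tz p Q') : ℤ_[p]) : ℚ_[p]) =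
    (((2 * a * lam + 3 * b * lam ^ 2) * (wz p Q' - tz p Q' * lam) : ℤ_[p]) : ℚ_[p])
  push_cast
  rw [q2, r2, q3, r3] at hlamQ
  rw [q2, r2] at htneQ
  rw [← c5] at c3 c4 c6
  rw [c6] at s1 s2
  rw [q2, r2, s2, r3]
  exact add_formula_field hM q1 r1 (neg_ne_zero.mp s1) c1 c2 c3 c4 c5 htneQ hlamQ

lemma coeff_one_w (W : ℤ_[p]⟦X⟧) : coeff 1 (X ^ 3 * W) = 0 := by
  rw [coeff_X_pow_mul', if_neg (by norm_num)]

/-- The parameter of the translate by a fixed point is a limit of polynomials in the parameter. -/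
theorem appr_tz_add {W : ℤ_[p]⟦X⟧} (hW : W = 1 + C (a : ℤ_[p]) * X ^ 4 * W ^ 2 +
    C (b : ℤ_[p]) * X ^ 6 * W ^ 3) {S : Type*} {d : ℕ} {α : S → Fin d → ℤ_[p]} {i : Fin d}
    {P : S → (curve a b).Point} (hP : ∀ s, 1 < ‖((ptX (P s) : ℚ) : ℚ_[p])‖)
    {Q : (curve a b).Point} (hQ : 1 < ‖((ptX Q : ℚ) : ℚ_[p])‖)
    (hne : ∀ s, ptX (P s) ≠ ptX Q) (hα : ∀ s, α s i = tz p (P s)) :
    Appr α (fun s => tz p (P s + Q)) := by
  obtain ⟨G, hG⟩ := exists_inv_of_constantCoeff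
    (f := (1 + C (a : ℤ_[p]) * X ^ 2 + C (b : ℤ_[p]) * X ^ 3 : ℤ_[p]⟦X⟧)) (by simp)
  set lam : S → ℤ_[p] := fun s => ev (sdiv (X ^ 3 * W) (tz p Q)) (α s i) with hlam
  have hlp : ∀ s, (p : ℤ_[p]) ∣ lam s := by
    intro s
    apply dvd_ev_sdiv (coeff_one_w W)
    · rw [hα]; exact (Ker.dvd_tz (Or.inr (hP s)))
    · exact (Ker.dvd_tz (Or.inr hQ))
  have hl1 : Appr α lam := (Appr.coord i).ev _ (fun s => by
    rw [hα]; exact (Ker.dvd_tz (Or.inr (hP s))))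
  have hl2 : Appr α (fun s => ev G (lam s)) := hl1.ev G hlp
  have e : (fun s => tz p (P s + Q)) = fun s => α s i + tz p Q +
      ((2 * a : ℤ_[p]) * lam s + (3 * b : ℤ_[p]) * lam s ^ 2) *
        (wz p Q + (-tz p Q) * lam s) * ev G (lam s) := by
    funext s
    have h1 : wz p (P s) - wz p Q = (tz p (P s) - tz p Q) * lam s := by
      have hls : lam s = ev (sdiv (X ^ 3 * W) (tz p Q)) (tz p (P s)) := by rw [← hα]
      rw [ev_w hW (Or.inr (hP s)), ev_w hW (Or.inr hQ), hls]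
      exact ev_sdiv _ (norm_lt_one_of_dvd (Ker.dvd_tz (Or.inr (hP s))))
        (norm_lt_one_of_dvd (Ker.dvd_tz (Or.inr hQ)))
    have h2 : tz p (P s) ≠ tz p Q := fun h => hne s (tz_inj hW (hP s) hQ h)
    obtain ⟨-, h3⟩ := tz_add_formula (hP s) hQ (hne s) h2 h1
    have hn : ‖lam s‖ < 1 := norm_lt_one_of_dvd (hlp s)
    have h4 : (1 + a * lam s ^ 2 + b * lam s ^ 3) * ev G (lam s) = 1 := by
      have := congrArg (fun f => ev f (lam s)) hG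
      simp only [ev_mul _ _ hn, ev_add _ _ hn, ev_one, ev_C, ev_pow _ hn, ev_X] at this
      exact this
    rw [hα]
    linear_combination ev G (lam s) * h3 - (tz p (P s + Q) - tz p (P s) - tz p Q) * h4
  rw [e]
  refine ((Appr.coord i).add (Appr.const _)).add ((Appr.mul ?_ ?_).mul hl2)
  · exact ((Appr.const _).mul hl1).add ((Appr.const _).mul (hl1.pow 2))
  · exact (Appr.const _).add ((Appr.const _).mul hl1)

end Pool.Agent.Lib.MP_3550b5_nt
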