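import Mathlib
import Pool.Agent.Lib.MP_3550b5_nt.UIndex
import Pool.Agent.Lib.MP_3550b5_nt.SData

namespace Pool.Agent.Lib.MP_3550b5_nt

section

variable {l : ℕ} [hl : Fact l.Prime]

lemma norm_le_sub_of_lt {u w : ℚ_[l]} (h : ‖w‖ < ‖u‖) : ‖u‖ ≤ ‖u - w‖ := by
  by_contra hlt
  push Not at hlt
  have h1 : ‖u‖ ≤ max ‖u - w‖ ‖w‖ := by
    have := Padic.nonarchimedean (u - w) w
    rwa [sub_add_cancel] at this
  exact absurd h1 (not_le.mpr (max_lt hlt h))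

lemma norm_add_le_of {u w : ℚ_[l]} {c : ℝ} (h1 : ‖u‖ ≤ c) (h2 : ‖w‖ ≤ c) : ‖u + w‖ ≤ c :=
  (Padic.nonarchimedean _ _).trans (max_le h1 h2)

lemma norm_sub_le_of {u w : ℚ_[l]} {c : ℝ} (h1 : ‖u‖ ≤ c) (h2 : ‖w‖ ≤ c) : ‖u - w‖ ≤ c := by
  rw [sub_eq_add_neg]
  exact norm_add_le_of h1 (by rwa [norm_neg])

lemma norm_mul_le_of_int {u w : ℚ_[l]} {c : ℝ} (h1 : ‖u‖ ≤ 1) (h2 : ‖w‖ ≤ c) :
    ‖u * w‖ ≤ c := by
  rw [norm_mul]
  calc ‖u‖ * ‖w‖ ≤ 1 * ‖w‖ := by gcongr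
    _ = ‖w‖ := one_mul _
    _ ≤ c := h2

lemma norm_nat_le (n : ℕ) [n.AtLeastTwo] : ‖(OfNat.ofNat n : ℚ_[l])‖ ≤ 1 := by
  have h := Padic.norm_int_le_one (p := l) ((OfNat.ofNat n : ℕ) : ℤ)
  rw [Int.cast_natCast] at h
  exact_mod_cast h

/-- The duplication polynomials are not both small. -/
lemma dup_bound {a b : ℤ} {h : ℕ} (hh : ¬ (l : ℤ) ^ h ∣ 4 * (4 * a ^ 3 + 27 * b ^ 2))
    (x : ℚ_[l]) {c : ℝ} (hx : ‖x‖ ≤ 1)
    (h1 : ‖4 * (x ^ 3 + a * x + b)‖ ≤ c) (h2 : ‖(x ^ 2 - a) ^ 2 - 8 * b * x‖ ≤ c) :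
    (l : ℝ) ^ (-(h : ℤ)) ≤ c := by
  by_contra hlt
  push Not at hlt
  apply hh
  apply (Padic.norm_int_le_pow_iff_dvd _ h).mp
  have hi : ∀ n : ℤ, ‖(n : ℚ_[l])‖ ≤ 1 := Padic.norm_int_le_one
  have e : ((4 * (4 * a ^ 3 + 27 * b ^ 2) : ℤ) : ℚ_[l]) =
      (12 * x ^ 2 + 16 * a) * ((x ^ 2 - a) ^ 2 - 8 * b * x) -
      (3 * x ^ 3 - 5 * a * x - 27 * b) * (4 * (x ^ 3 + a * x + b)) := by
    push_cast; ring
  rw [e]
  refine norm_sub_le_of (norm_mul_le_of_int ?_ (h2.trans hlt.le))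
    (norm_mul_le_of_int ?_ (h1.trans hlt.le))
  · refine norm_add_le_of (norm_mul_le_of_int (norm_nat_le 12) ?_)
      (norm_mul_le_of_int (norm_nat_le 16) (hi a))
    rw [norm_pow]; exact pow_le_one₀ (norm_nonneg _) hx
  · refine norm_sub_le_of (norm_sub_le_of (norm_mul_le_of_int (norm_nat_le 3) ?_)
      (norm_mul_le_of_int (norm_mul_le_of_int (norm_nat_le 5) (hi a)) hx))
      (norm_mul_le_of_int (norm_nat_le 27) (hi b))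
    rw [norm_pow]; exact pow_le_one₀ (norm_nonneg _) hx

lemma dup_bound' {a b : ℤ} {h : ℕ} (hh : ¬ (l : ℤ) ^ h ∣ 4 * (4 * a ^ 3 + 27 * b ^ 2))
    (x : ℚ_[l]) :
    (l : ℝ) ^ (-(h : ℤ)) * (max 1 ‖x‖) ^ 4 ≤
      max ‖4 * (x ^ 3 + a * x + b)‖ ‖(x ^ 2 - a) ^ 2 - 8 * b * x‖ := by
  have hl1 : (1 : ℝ) ≤ l := by exact_mod_cast hl.out.one_lt.le
  have hL : (l : ℝ) ^ (-(h : ℤ)) ≤ 1 := by
    rw [zpow_neg, zpow_natCast]
    exact inv_le_one_of_one_le₀ (one_le_pow₀ hl1)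
  have hi : ∀ n : ℤ, ‖(n : ℚ_[l])‖ ≤ 1 := Padic.norm_int_le_one
  rcases le_or_gt ‖x‖ 1 with hx | hx
  · rw [max_eq_left hx, one_pow, mul_one]
    exact dup_bound hh x hx (le_max_left _ _) (le_max_right _ _)
  · rw [max_eq_right hx.le]
    refine le_trans ?_ (le_max_right _ _)
    have h1 : ‖x‖ ^ 2 ≤ ‖x ^ 2 - a‖ := by
      rw [← norm_pow]
      apply norm_le_sub_of_lt
      rw [norm_pow]
      exact (hi a).trans_lt (one_lt_pow₀ hx (by norm_num))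
    have h2 : ‖x‖ ^ 4 ≤ ‖(x ^ 2 - a) ^ 2 - 8 * b * x‖ := by
      have h3 : ‖x‖ ^ 4 ≤ ‖(x ^ 2 - a) ^ 2‖ := by
        rw [norm_pow]
        calc ‖x‖ ^ 4 = (‖x‖ ^ 2) ^ 2 := by ring
          _ ≤ _ := by gcongr
      refine h3.trans (norm_le_sub_of_lt (lt_of_lt_of_le ?_ h3))
      have h4 : ‖8 * (b : ℚ_[l]) * x‖ ≤ ‖x‖ :=
        norm_mul_le_of_int (norm_mul_le_of_int (norm_nat_le 8) (hi b)) le_rfl
      refine h4.trans_lt ?_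
      have h5 : 1 < ‖x‖ ^ 3 := one_lt_pow₀ hx (by norm_num)
      nlinarith
    calc (l : ℝ) ^ (-(h : ℤ)) * ‖x‖ ^ 4 ≤ 1 * ‖x‖ ^ 4 := by gcongr
      _ ≤ _ := by rw [one_mul]; exact h2

/-- The addition polynomials are not all small. -/
lemma add_bound {a b : ℤ} {h : ℕ} (hh : ¬ (l : ℤ) ^ h ∣ 4 * (4 * a ^ 3 + 27 * b ^ 2))
    (x y : ℚ_[l]) {c : ℝ} (h0 : ‖x - y‖ ^ 2 ≤ c)
    (h1 : ‖2 * ((x * y + a) * (x + y) + 2 * b)‖ ≤ c)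
    (h2 : ‖(x * y - a) ^ 2 - 4 * b * (x + y)‖ ≤ c) :
    ((l : ℝ) ^ (-(h : ℤ))) ^ 2 * (max 1 ‖x‖) ^ 2 * (max 1 ‖y‖) ^ 2 ≤ c := by
  have hl1 : (1 : ℝ) ≤ l := by exact_mod_cast hl.out.one_lt.le
  set L := (l : ℝ) ^ (-(h : ℤ)) with hLdef
  have hL0 : 0 < L := by
    have : (0 : ℝ) < l := by linarith
    positivity
  have hL : L ≤ 1 := by
    rw [hLdef, zpow_neg, zpow_natCast]
    exact inv_le_one_of_one_le₀ (one_le_pow₀ hl1)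
  have hL2 : L ^ 2 ≤ 1 := pow_le_one₀ hL0.le hL
  have hi : ∀ n : ℤ, ‖(n : ℚ_[l])‖ ≤ 1 := Padic.norm_int_le_one
  have hc0 : 0 ≤ c := (by positivity : (0 : ℝ) ≤ ‖x - y‖ ^ 2).trans h0
  rcases le_or_gt ‖x‖ 1 with hx | hx <;> rcases le_or_gt ‖y‖ 1 with hy | hy
  · rw [max_eq_left hx, max_eq_left hy]
    simp only [one_pow, mul_one]
    by_contra hlt
    push Not at hlt
    -- everything is smaller than `L`
    have hcL : c < L := by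
      refine hlt.trans_le ?_
      rw [pow_two]
      exact mul_le_of_le_one_left hL0.le hL
    obtain ⟨m, hm1, hm2⟩ : ∃ m, max c (‖x - y‖) ≤ m ∧ m < L := by
      refine ⟨_, le_rfl, max_lt hcL ?_⟩
      have : ‖x - y‖ ^ 2 < L ^ 2 := h0.trans_lt hlt
      exact lt_of_pow_lt_pow_left₀ 2 hL0.le this
    have hcm : c ≤ m := (le_max_left _ _).trans hm1
    have hdm : ‖x - y‖ ≤ m := (le_max_right _ _).trans hm1
    refine absurd (dup_bound hh x (c := m) hx ?_ ?_) (not_le.mpr hm2)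
    · have e : 4 * (x ^ 3 + a * x + b) = 2 * ((x * y + a) * (x + y) + 2 * b) +
          (2 * (x * (2 * x + y)) + 2 * a) * (x - y) := by ring
      rw [e]
      refine norm_add_le_of (h1.trans hcm) (norm_mul_le_of_int ?_ hdm)
      refine norm_add_le_of (norm_mul_le_of_int (norm_nat_le 2) (norm_mul_le_of_int hx
        (norm_add_le_of (norm_mul_le_of_int (norm_nat_le 2) hx) hy)))
        (norm_mul_le_of_int (norm_nat_le 2) (hi a))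
    · have e : (x ^ 2 - a) ^ 2 - 8 * b * x = ((x * y - a) ^ 2 - 4 * b * (x + y)) +
          (x * (x ^ 2 + x * y - 2 * a) - 4 * b) * (x - y) := by ring
      rw [e]
      refine norm_add_le_of (h2.trans hcm) (norm_mul_le_of_int ?_ hdm)
      refine norm_sub_le_of (norm_mul_le_of_int hx (norm_sub_le_of (norm_add_le_of ?_
        (norm_mul_le_of_int hx hy)) (norm_mul_le_of_int (norm_nat_le 2) (hi a))))
        (norm_mul_le_of_int (norm_nat_le 4) (hi b))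
      rw [norm_pow]; exact pow_le_one₀ (norm_nonneg _) hx
  · rw [max_eq_left hx, max_eq_right hy.le, one_pow, mul_one]
    have h3 : ‖y‖ ≤ ‖x - y‖ := by
      rw [← norm_neg (x - y), neg_sub]
      exact norm_le_sub_of_lt (hx.trans_lt hy)
    calc L ^ 2 * ‖y‖ ^ 2 ≤ 1 * ‖x - y‖ ^ 2 := by gcongr
      _ ≤ c := by rw [one_mul]; exact h0
  · rw [max_eq_left hy, max_eq_right hx.le, one_pow, mul_one]
    have h3 : ‖x‖ ≤ ‖x - y‖ := norm_le_sub_of_lt (hy.trans_lt hx)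
    calc L ^ 2 * ‖x‖ ^ 2 ≤ 1 * ‖x - y‖ ^ 2 := by gcongr
      _ ≤ c := by rw [one_mul]; exact h0
  · rw [max_eq_right hx.le, max_eq_right hy.le]
    have hxy : 1 < ‖x‖ * ‖y‖ := by nlinarith
    have h3 : ‖x‖ * ‖y‖ ≤ ‖x * y - a‖ := by
      rw [← norm_mul]
      apply norm_le_sub_of_lt
      rw [norm_mul]
      exact (hi a).trans_lt hxy
    have h4 : (‖x‖ * ‖y‖) ^ 2 ≤ ‖(x * y - a) ^ 2‖ := by
      rw [norm_pow]; gcongr
    have h5 : (‖x‖ * ‖y‖) ^ 2 ≤ ‖(x * y - a) ^ 2 - 4 * b * (x + y)‖ := by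
      refine h4.trans (norm_le_sub_of_lt (lt_of_lt_of_le ?_ h4))
      have h6 : ‖4 * (b : ℚ_[l]) * (x + y)‖ ≤ ‖x‖ * ‖y‖ := by
        refine norm_mul_le_of_int (norm_mul_le_of_int (norm_nat_le 4) (hi b)) ?_
        refine norm_add_le_of ?_ ?_
        · nlinarith [norm_nonneg x, norm_nonneg y]
        · nlinarith [norm_nonneg x, norm_nonneg y]
      refine h6.trans_lt ?_
      nlinarith
    calc L ^ 2 * ‖x‖ ^ 2 * ‖y‖ ^ 2 = L ^ 2 * (‖x‖ * ‖y‖) ^ 2 := by ring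
      _ ≤ 1 * (‖x‖ * ‖y‖) ^ 2 := by gcongr
      _ ≤ c := by rw [one_mul]; exact h5.trans h2

end

section seq

variable {l : ℕ} [hl : Fact l.Prime]

/-- The square of the size of the denominator of the point with `x`-coordinate `q`. -/
noncomputable def mx (l : ℕ) [Fact l.Prime] (q : ℚ) : ℝ := max 1 ‖(q : ℚ_[l])‖

lemma one_le_mx (q : ℚ) : 1 ≤ mx l q := le_max_left _ _
lemma mx_pos (q : ℚ) : 0 < mx l q := lt_of_lt_of_le one_pos (one_le_mx q)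
lemma norm_le_mx (q : ℚ) : ‖(q : ℚ_[l])‖ ≤ mx l q := le_max_right _ _

lemma mx_step {a b : ℤ} {x y : ℚ} {X Y : ℕ → ℚ} (h : MultSeq (a : ℚ) b x y X Y) {k : ℕ}
    (hh : ¬ (l : ℤ) ^ k ∣ 4 * (4 * a ^ 3 + 27 * b ^ 2)) {n : ℕ} (hn : 2 ≤ n) :
    ((l : ℝ) ^ (-(k : ℤ))) ^ 2 * mx l (X n) ^ 2 * mx l x ^ 2 ≤
      mx l (X (n + 1)) * mx l (X (n - 1)) * ‖((x - X n : ℚ) : ℚ_[l])‖ ^ 2 := by
  have hd : X n - x ≠ 0 := sub_ne_zero.mpr (h.Xne n hn)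
  have e1 := h.eqn n (by omega)
  have e2 := h.eq1
  have p1 := one_le_mx (l := l) (X (n + 1))
  have p2 := one_le_mx (l := l) (X (n - 1))
  have hsum : 2 * ((X n * x + a) * (X n + x) + 2 * b) =
      (X (n + 1) + X (n - 1)) * (x - X n) ^ 2 := by
    rw [h.succ n hn, h.pred n hn]
    have : (((Y n - y) / (X n - x)) ^ 2 - X n - x + (((Y n + y) / (X n - x)) ^ 2 - X n - x)) *
        (x - X n) ^ 2 = 2 * (Y n ^ 2 + y ^ 2) - 2 * (X n + x) * (X n - x) ^ 2 := by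
      field_simp
      ring
    rw [this, e1, e2]; ring
  have hprod : (X n * x - a) ^ 2 - 4 * b * (X n + x) =
      (X (n + 1) * X (n - 1)) * (x - X n) ^ 2 := by
    have := symForm_id (a := (a : ℚ)) (b := b) 0 e1 e2 hd
    rw [← h.succ n hn, ← h.pred n hn, symForm] at this
    linear_combination -this
  have hsum' := congrArg (fun z : ℚ => ‖(z : ℚ_[l])‖) hsum
  have hprod' := congrArg (fun z : ℚ => ‖(z : ℚ_[l])‖) hprod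
  push_cast at hsum' hprod'
  refine add_bound hh ((X n : ℚ) : ℚ_[l]) ((x : ℚ) : ℚ_[l]) ?_ ?_ ?_
  · have h1 : ‖((X n : ℚ) : ℚ_[l]) - ((x : ℚ) : ℚ_[l])‖ = ‖((x - X n : ℚ) : ℚ_[l])‖ := by
      rw [← norm_neg]; push_cast; congr 1; ring
    rw [h1]
    have h2 : 0 ≤ ‖((x - X n : ℚ) : ℚ_[l])‖ ^ 2 := by positivity
    have h3 : 1 ≤ mx l (X (n + 1)) * mx l (X (n - 1)) := by nlinarith
    nlinarith
  · rw [hsum', norm_mul, norm_pow]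
    push_cast
    have h1 : ‖((X (n + 1) : ℚ) : ℚ_[l]) + ((X (n - 1) : ℚ) : ℚ_[l])‖ ≤
        mx l (X (n + 1)) * mx l (X (n - 1)) := by
      refine norm_add_le_of ?_ ?_
      · calc _ ≤ mx l (X (n + 1)) * 1 := by rw [mul_one]; exact norm_le_mx _
          _ ≤ _ := by gcongr
      · calc _ ≤ 1 * mx l (X (n - 1)) := by rw [one_mul]; exact norm_le_mx _
          _ ≤ _ := by gcongr
    gcongr
  · rw [hprod', norm_mul, norm_mul, norm_pow]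
    push_cast
    have h1 := norm_le_mx (l := l) (X (n + 1))
    have h2 := norm_le_mx (l := l) (X (n - 1))
    gcongr

lemma mx_two {a b : ℤ} {x y : ℚ} {X Y : ℕ → ℚ} (h : MultSeq (a : ℚ) b x y X Y) {k : ℕ}
    (hh : ¬ (l : ℤ) ^ k ∣ 4 * (4 * a ^ 3 + 27 * b ^ 2)) :
    (l : ℝ) ^ (-(k : ℤ)) * mx l x ^ 4 ≤ mx l (X 2) * ‖((2 * y : ℚ) : ℚ_[l])‖ ^ 2 := by
  have e2 := h.eq1
  have hy := h.y_ne
  have p1 := one_le_mx (l := l) (X 2)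
  have hX2 : (x ^ 2 - a) ^ 2 - 8 * b * x = X 2 * (2 * y) ^ 2 := by
    have := h.dbl 1 le_rfl
    rw [mul_one, h.X1, h.Y1] at this
    have h3 : X 2 * (2 * y) ^ 2 = (3 * x ^ 2 + a) ^ 2 - 2 * x * 4 * y ^ 2 := by
      rw [this]; field_simp; ring
    rw [h3, mul_assoc, e2] at *
    linear_combination (8 * x) * e2
  have h4 : 4 * (x ^ 3 + a * x + b) = (2 * y) ^ 2 := by
    rw [← e2]; ring
  have hX2' := congrArg (fun z : ℚ => ‖(z : ℚ_[l])‖) hX2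
  have h4' := congrArg (fun z : ℚ => ‖(z : ℚ_[l])‖) h4
  push_cast at hX2' h4'
  refine (dup_bound' hh ((x : ℚ) : ℚ_[l])).trans (max_le ?_ ?_)
  · rw [h4', norm_pow]
    push_cast
    have : 0 ≤ ‖2 * ((y : ℚ) : ℚ_[l])‖ ^ 2 := by positivity
    nlinarith
  · rw [hX2', norm_mul, norm_pow]
    push_cast
    have h2 := norm_le_mx (l := l) (X 2)
    gcongr

variable {a b A B D : ℤ} {X Y : ℕ → ℚ}

/-- The square of the cancellation at `l` in the `n`-th multiple. -/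
noncomputable def Phi (l : ℕ) [Fact l.Prime] (a A B D : ℤ) (X : ℕ → ℚ) (n : ℕ) : ℝ :=
  (mx l (X n) * ‖((Dn a A B D n : ℤ) : ℚ_[l])‖ ^ 2)⁻¹

lemma phi_pos (h : MultSeq (a : ℚ) b ((A : ℚ) / (D : ℚ) ^ 2) ((B : ℚ) / (D : ℚ) ^ 3) X Y)
    (hD : D ≠ 0) (n : ℕ) (hn : 1 ≤ n) : 0 < Phi l a A B D X n := by
  have h1 : ((Dn a A B D n : ℤ) : ℚ_[l]) ≠ 0 := by exact_mod_cast Dn_ne h hD n hn
  have h2 := mx_pos (l := l) (X n)
  have h3 := norm_pos_iff.mpr h1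
  rw [Phi]
  positivity

lemma phi_step (h : MultSeq (a : ℚ) b ((A : ℚ) / (D : ℚ) ^ 2) ((B : ℚ) / (D : ℚ) ^ 3) X Y)
    (hD : D ≠ 0) {k : ℕ} (hh : ¬ (l : ℤ) ^ k ∣ 4 * (4 * a ^ 3 + 27 * b ^ 2)) {n : ℕ}
    (hn : 2 ≤ n) :
    Phi l a A B D X (n + 1) * Phi l a A B D X (n - 1) ≤
      Phi l a A B D X n ^ 2 * (Phi l a A B D X 1 ^ 2 * ((l : ℝ) ^ k) ^ 2) := by
  have hl0 : (0 : ℝ) < l := by exact_mod_cast hl.out.pos
  have hrel : Dn a A B D (n + 1) * Dn a A B D (n - 1) =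
      Dn a A B D n ^ 2 * Dn a A B D 1 ^ 2 * ((A : ℚ) / (D : ℚ) ^ 2 - X n) := by
    rw [Dn_eq_V h hD, Dn_eq_V h hD, Dn_eq_V h hD, Dn_eq_V h hD]
    have h1 := h.V_mul n (by omega)
    have h2 : Vseq ((A : ℚ) / (D : ℚ) ^ 2) ((B : ℚ) / (D : ℚ) ^ 3) X 1 = 1 := by simp [Vseq]
    have h3 : (D : ℚ) ^ ((n + 1) ^ 2) * (D : ℚ) ^ ((n - 1) ^ 2) =
        ((D : ℚ) ^ (n ^ 2)) ^ 2 * ((D : ℚ) ^ (1 ^ 2)) ^ 2 := by
      rw [← pow_add, ← pow_mul, ← pow_mul, ← pow_add]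
      congr 1
      obtain ⟨m, rfl⟩ : ∃ m, n = m + 1 := ⟨n - 1, by omega⟩
      rw [Nat.add_sub_cancel]; ring
    rw [h2]
    linear_combination (Vseq ((A : ℚ) / (D : ℚ) ^ 2) ((B : ℚ) / (D : ℚ) ^ 3) X (n + 1) *
      Vseq ((A : ℚ) / (D : ℚ) ^ 2) ((B : ℚ) / (D : ℚ) ^ 3) X (n - 1)) * h3 +
      (((D : ℚ) ^ (n ^ 2)) ^ 2 * ((D : ℚ) ^ (1 ^ 2)) ^ 2) * h1
  have hreln := congrArg (fun z : ℚ => ‖(z : ℚ_[l])‖) hrel
  have hstep := mx_step (l := l) h hh hn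
  have hX1 : X 1 = (A : ℚ) / (D : ℚ) ^ 2 := h.X1
  rw [← hX1] at hstep hreln
  simp only [Rat.cast_mul, Rat.cast_pow, norm_mul, norm_pow, Rat.cast_intCast] at hreln
  have q1 : 0 < ‖((Dn a A B D n : ℤ) : ℚ_[l])‖ := norm_pos_iff.mpr (by
    exact_mod_cast Dn_ne h hD n (by omega))
  have q2 : 0 < ‖((Dn a A B D 1 : ℤ) : ℚ_[l])‖ := norm_pos_iff.mpr (by
    exact_mod_cast Dn_ne h hD 1 le_rfl)
  have q3 := mx_pos (l := l) (X n)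
  have q4 := mx_pos (l := l) (X 1)
  have q5 := mx_pos (l := l) (X (n + 1))
  have q6 := mx_pos (l := l) (X (n - 1))
  simp only [Phi]
  rw [← mul_inv]
  have e1 : mx l (X (n + 1)) * ‖((Dn a A B D (n + 1) : ℤ) : ℚ_[l])‖ ^ 2 *
      (mx l (X (n - 1)) * ‖((Dn a A B D (n - 1) : ℤ) : ℚ_[l])‖ ^ 2) =
      (mx l (X (n + 1)) * mx l (X (n - 1)) * ‖((X 1 - X n : ℚ) : ℚ_[l])‖ ^ 2) *
      (‖((Dn a A B D n : ℤ) : ℚ_[l])‖ ^ 2 * ‖((Dn a A B D 1 : ℤ) : ℚ_[l])‖ ^ 2) ^ 2 := by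
    calc _ = mx l (X (n + 1)) * mx l (X (n - 1)) *
          (‖((Dn a A B D (n + 1) : ℤ) : ℚ_[l])‖ * ‖((Dn a A B D (n - 1) : ℤ) : ℚ_[l])‖) ^ 2 := by
          ring
      _ = _ := by rw [hreln]; ring
  rw [e1]
  have e2 : ((mx l (X n) * ‖((Dn a A B D n : ℤ) : ℚ_[l])‖ ^ 2)⁻¹) ^ 2 *
      (((mx l (X 1) * ‖((Dn a A B D 1 : ℤ) : ℚ_[l])‖ ^ 2)⁻¹) ^ 2 * ((l : ℝ) ^ k) ^ 2) =
      ((((l : ℝ) ^ (-(k : ℤ))) ^ 2 * mx l (X n) ^ 2 * mx l (X 1) ^ 2) *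
      (‖((Dn a A B D n : ℤ) : ℚ_[l])‖ ^ 2 * ‖((Dn a A B D 1 : ℤ) : ℚ_[l])‖ ^ 2) ^ 2)⁻¹ := by
    rw [zpow_neg, zpow_natCast]
    field_simp
  rw [e2]
  have hl2 : 0 < (l : ℝ) ^ (-(k : ℤ)) := by positivity
  apply inv_anti₀ (by positivity)
  gcongr

lemma phi_two (h : MultSeq (a : ℚ) b ((A : ℚ) / (D : ℚ) ^ 2) ((B : ℚ) / (D : ℚ) ^ 3) X Y)
    (hD : D ≠ 0) {k : ℕ} (hh : ¬ (l : ℤ) ^ k ∣ 4 * (4 * a ^ 3 + 27 * b ^ 2)) :
    Phi l a A B D X 2 ≤ Phi l a A B D X 1 ^ 4 * (l : ℝ) ^ k := by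
  have hl0 : (0 : ℝ) < l := by exact_mod_cast hl.out.pos
  have hrel : ((Dn a A B D 2 : ℤ) : ℚ) =
      ((Dn a A B D 1 : ℤ) : ℚ) ^ 4 * (2 * ((B : ℚ) / (D : ℚ) ^ 3)) := by
    rw [Dn_eq_V h hD, Dn_eq_V h hD]
    simp only [Vseq]; ring
  have hreln := congrArg (fun z : ℚ => ‖(z : ℚ_[l])‖) hrel
  have hstep := mx_two (l := l) h hh
  have hX1 : X 1 = (A : ℚ) / (D : ℚ) ^ 2 := h.X1
  rw [← hX1] at hstep
  simp only [Rat.cast_mul (_ ^ 4), Rat.cast_pow, norm_mul (_ ^ 4), norm_pow,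
    Rat.cast_intCast] at hreln
  have q2 : 0 < ‖((Dn a A B D 1 : ℤ) : ℚ_[l])‖ := norm_pos_iff.mpr (by
    exact_mod_cast Dn_ne h hD 1 le_rfl)
  have q4 := mx_pos (l := l) (X 1)
  have q5 := mx_pos (l := l) (X 2)
  simp only [Phi]
  rw [hreln]
  have e1 : mx l (X 2) * (‖((Dn a A B D 1 : ℤ) : ℚ_[l])‖ ^ 4 *
      ‖((2 * ((B : ℚ) / (D : ℚ) ^ 3) : ℚ) : ℚ_[l])‖) ^ 2 =
      (mx l (X 2) * ‖((2 * ((B : ℚ) / (D : ℚ) ^ 3) : ℚ) : ℚ_[l])‖ ^ 2) *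
      ‖((Dn a A B D 1 : ℤ) : ℚ_[l])‖ ^ 8 := by ring
  have e2 : ((mx l (X 1) * ‖((Dn a A B D 1 : ℤ) : ℚ_[l])‖ ^ 2)⁻¹) ^ 4 * (l : ℝ) ^ k =
      (((l : ℝ) ^ (-(k : ℤ)) * mx l (X 1) ^ 4) * ‖((Dn a A B D 1 : ℤ) : ℚ_[l])‖ ^ 8)⁻¹ := by
    rw [zpow_neg, zpow_natCast]
    field_simp
  rw [e1, e2]
  have hl2 : 0 < (l : ℝ) ^ (-(k : ℤ)) := by positivity
  apply inv_anti₀ (by positivity)
  gcongr

lemma one_le_phi_one (h : MultSeq (a : ℚ) b ((A : ℚ) / (D : ℚ) ^ 2) ((B : ℚ) / (D : ℚ) ^ 3) X Y)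
    (hD : D ≠ 0) : 1 ≤ Phi l a A B D X 1 := by
  have hX1 : X 1 = (A : ℚ) / (D : ℚ) ^ 2 := h.X1
  have hD1 : Dn a A B D 1 = D := by simp [Dn]
  have hDn : ((D : ℤ) : ℚ_[l]) ≠ 0 := by exact_mod_cast hD
  have q2 : 0 < ‖((D : ℤ) : ℚ_[l])‖ := norm_pos_iff.mpr hDn
  rw [Phi, hD1, hX1]
  apply (one_le_inv₀ (mul_pos (mx_pos _) (by positivity))).mpr
  rw [mx, max_mul_of_nonneg _ _ (by positivity), one_mul]
  apply max_le
  · exact pow_le_one₀ (norm_nonneg _) (Padic.norm_int_le_one D)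
  · push_cast
    rw [norm_div, norm_pow, div_mul_cancel₀ _ (by positivity)]
    exact Padic.norm_int_le_one A

/-- The cancellation grows at most quadratically. -/
theorem phi_bound (h : MultSeq (a : ℚ) b ((A : ℚ) / (D : ℚ) ^ 2) ((B : ℚ) / (D : ℚ) ^ 3) X Y)
    (hD : D ≠ 0) {k : ℕ} (hh : ¬ (l : ℤ) ^ k ∣ 4 * (4 * a ^ 3 + 27 * b ^ 2)) :
    ∀ n, 1 ≤ n → Phi l a A B D X n ≤ (Phi l a A B D X 1 * ((l : ℝ) ^ k) ^ 2) ^ (n ^ 2) := by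
  have hl1 : (1 : ℝ) ≤ l := by exact_mod_cast hl.out.one_lt.le
  have hk1 : 1 ≤ (l : ℝ) ^ k := one_le_pow₀ hl1
  have hk2 : 1 ≤ ((l : ℝ) ^ k) ^ 2 := one_le_pow₀ hk1
  have hφ := one_le_phi_one (l := l) h hD
  set q : ℝ := Phi l a A B D X 1 * ((l : ℝ) ^ k) ^ 2 with hq
  have hq1 : 1 ≤ q := by nlinarith
  have hφq : Phi l a A B D X 1 ≤ q := by nlinarith
  have key : ∀ n, 1 ≤ n → Phi l a A B D X (n + 1) ≤ Phi l a A B D X n * q ^ (2 * n + 1) := by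
    intro n hn
    induction n, hn using Nat.le_induction with
    | base =>
      refine (phi_two h hD hh).trans ?_
      have h1 : Phi l a A B D X 1 ^ 3 * (l : ℝ) ^ k ≤ q ^ (2 * 1 + 1) := by
        rw [show 2 * 1 + 1 = 3 by norm_num, hq, mul_pow]
        have h2 : (l : ℝ) ^ k ≤ (((l : ℝ) ^ k) ^ 2) ^ 3 := by
          rw [← pow_mul]
          exact le_self_pow₀ hk1 (by norm_num)
        gcongr
      calc Phi l a A B D X 1 ^ 4 * (l : ℝ) ^ k =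
            Phi l a A B D X 1 * (Phi l a A B D X 1 ^ 3 * (l : ℝ) ^ k) := by ring
        _ ≤ _ := by gcongr
    | succ n hn ih =>
      have h1 := phi_step (l := l) h hD hh (n := n + 1) (by omega)
      rw [Nat.add_sub_cancel] at h1
      have h2 := phi_pos (l := l) h hD n hn
      have h3 := phi_pos (l := l) h hD (n + 1) (by omega)
      apply le_of_mul_le_mul_right _ h2
      have h4 : Phi l a A B D X 1 ^ 2 * ((l : ℝ) ^ k) ^ 2 ≤ q ^ 2 := by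
        rw [hq, mul_pow]
        have : ((l : ℝ) ^ k) ^ 2 ≤ (((l : ℝ) ^ k) ^ 2) ^ 2 := le_self_pow₀ hk2 (by norm_num)
        gcongr
      calc Phi l a A B D X (n + 1 + 1) * Phi l a A B D X n
          ≤ Phi l a A B D X (n + 1) ^ 2 * (Phi l a A B D X 1 ^ 2 * ((l : ℝ) ^ k) ^ 2) := h1
        _ ≤ Phi l a A B D X (n + 1) ^ 2 * q ^ 2 := by gcongr
        _ = Phi l a A B D X (n + 1) * Phi l a A B D X (n + 1) * q ^ 2 := by ring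
        _ ≤ Phi l a A B D X (n + 1) * (Phi l a A B D X n * q ^ (2 * n + 1)) * q ^ 2 := by
            gcongr
        _ = Phi l a A B D X (n + 1) * q ^ (2 * (n + 1) + 1) * Phi l a A B D X n := by ring
  intro n hn
  induction n, hn using Nat.le_induction with
  | base => simpa using hφq
  | succ n hn ih =>
    calc Phi l a A B D X (n + 1) ≤ Phi l a A B D X n * q ^ (2 * n + 1) := key n hn
      _ ≤ q ^ (n ^ 2) * q ^ (2 * n + 1) := by gcongr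
      _ = q ^ ((n + 1) ^ 2) := by rw [← pow_add]; congr 1; ring

end seq

end Pool.Agent.Lib.MP_3550b5_nt
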