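import Mathlib
import Pool.Agent.Lib.MP_3550b5_nt.UCancel

namespace Pool.Agent.Lib.MP_3550b5_nt

open WeierstrassCurve.Affine

section

variable {l : ℕ} [hl : Fact l.Prime]

lemma mx_prim {A D : ℤ} (hD : D ≠ 0) (hprim : ¬ ((l : ℤ) ∣ A ∧ (l : ℤ) ∣ D)) :
    mx l ((A : ℚ) / (D : ℚ) ^ 2) * ‖(D : ℚ_[l])‖ ^ 2 = 1 := by
  have hDn : ((D : ℤ) : ℚ_[l]) ≠ 0 := by exact_mod_cast hD
  have q2 : 0 < ‖((D : ℤ) : ℚ_[l])‖ := norm_pos_iff.mpr hDn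
  rw [mx, max_mul_of_nonneg _ _ (by positivity), one_mul]
  push_cast
  rw [norm_div, norm_pow, div_mul_cancel₀ _ (by positivity)]
  by_cases h1 : (l : ℤ) ∣ D
  · have hA : ¬ (l : ℤ) ∣ A := fun h => hprim ⟨h, h1⟩
    have hAn : ‖(A : ℚ_[l])‖ = 1 := by
      refine le_antisymm (Padic.norm_int_le_one A) ?_
      by_contra hlt
      exact hA (norm_int_lt_one'.mp (not_le.mp hlt))
    rw [hAn]
    exact max_eq_right (pow_le_one₀ (norm_nonneg _) (Padic.norm_int_le_one D))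
  · have hDn1 : ‖(D : ℚ_[l])‖ = 1 := by
      refine le_antisymm (Padic.norm_int_le_one D) ?_
      by_contra hlt
      exact h1 (norm_int_lt_one'.mp (not_le.mp hlt))
    rw [hDn1, one_pow]
    exact max_eq_left (Padic.norm_int_le_one A)

/-- Bounded cancellation at `l`. -/
theorem not_pow_dvd_G {a b A B D : ℤ} {P : (curve a b).Point} (hP : IsRep a b A B D P)
    (htor : ¬ IsOfFinAddOrder P) {k : ℕ} (hh : ¬ (l : ℤ) ^ k ∣ 4 * (4 * a ^ 3 + 27 * b ^ 2))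
    {c : ℕ} (hc : 1 ≤ c) {G A₁ B₁ D₁ : ℤ} (hrep : IsRep a b A₁ B₁ D₁ (c • P))
    (hprim : ¬ ((l : ℤ) ∣ A₁ ∧ (l : ℤ) ∣ D₁)) (hDG : Dn a A B D c = G * D₁)
    {g A₀ D₀ : ℤ} (hA : A = g ^ 2 * A₀) (hD : D = g * D₀)
    (hprim₀ : ¬ ((l : ℤ) ∣ A₀ ∧ (l : ℤ) ∣ D₀)) {s : ℕ}
    (hg : (l : ℝ) ^ (-(s : ℤ)) ≤ ‖(g : ℚ_[l])‖) :
    ¬ (l : ℤ) ^ ((s + k) * c ^ 2 + 1) ∣ G := by
  intro hdvd
  have hl1 : (1 : ℝ) < l := by exact_mod_cast hl.out.one_lt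
  have hl0 : (0 : ℝ) < l := by linarith
  have hms := hP.multSeq htor
  have hDne := hP.1
  have hphi := phi_bound (l := l) hms hDne hh c hc
  have hg0 : g ≠ 0 := by
    rintro rfl
    exact hDne (by rw [hD, zero_mul])
  have hD₀ : D₀ ≠ 0 := by
    rintro rfl
    exact hDne (by rw [hD, mul_zero])
  have hgn : 0 < ‖(g : ℚ_[l])‖ := norm_pos_iff.mpr (by exact_mod_cast hg0)
  -- the first term
  have h1 : Phi l a A B D (fun n => ptX (n • P)) 1 = (‖(g : ℚ_[l])‖ ^ 2)⁻¹ := by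
    have e1 : ptX (1 • P) = (A₀ : ℚ) / (D₀ : ℚ) ^ 2 := by
      rw [one_smul, hP.ptX_eq, hA, hD]
      have hg' : (g : ℚ) ≠ 0 := by exact_mod_cast hg0
      have hD' : (D₀ : ℚ) ≠ 0 := by exact_mod_cast hD₀
      push_cast
      field_simp
    have e2 : Dn a A B D 1 = g * D₀ := by rw [← hD]; simp [Dn]
    have h3 := mx_prim (l := l) hD₀ hprim₀
    rw [Phi, e1, e2]
    push_cast
    rw [norm_mul, mul_pow]
    rw [show mx l ((A₀ : ℚ) / (D₀ : ℚ) ^ 2) * (‖(g : ℚ_[l])‖ ^ 2 * ‖(D₀ : ℚ_[l])‖ ^ 2) =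
      ‖(g : ℚ_[l])‖ ^ 2 * (mx l ((A₀ : ℚ) / (D₀ : ℚ) ^ 2) * ‖(D₀ : ℚ_[l])‖ ^ 2) by ring, h3,
      mul_one]
  have h2 : Phi l a A B D (fun n => ptX (n • P)) c = (‖(G : ℚ_[l])‖ ^ 2)⁻¹ := by
    have e1 : ptX (c • P) = (A₁ : ℚ) / (D₁ : ℚ) ^ 2 := hrep.ptX_eq
    have h3 := mx_prim (l := l) hrep.1 hprim
    rw [Phi, e1, hDG]
    push_cast
    rw [norm_mul, mul_pow]
    rw [show mx l ((A₁ : ℚ) / (D₁ : ℚ) ^ 2) * (‖(G : ℚ_[l])‖ ^ 2 * ‖(D₁ : ℚ_[l])‖ ^ 2) =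
      ‖(G : ℚ_[l])‖ ^ 2 * (mx l ((A₁ : ℚ) / (D₁ : ℚ) ^ 2) * ‖(D₁ : ℚ_[l])‖ ^ 2) by ring, h3,
      mul_one]
  rw [h1, h2] at hphi
  have hG0 : G ≠ 0 := by
    rintro rfl
    exact Dn_ne hms hDne c hc (by rw [hDG, zero_mul])
  have hGn : 0 < ‖(G : ℚ_[l])‖ := norm_pos_iff.mpr (by exact_mod_cast hG0)
  have hGle := (Padic.norm_int_le_pow_iff_dvd G ((s + k) * c ^ 2 + 1)).mpr hdvd
  have h4 : ((l : ℝ) ^ ((s + k) * c ^ 2 + 1)) ^ 2 ≤ (‖(G : ℚ_[l])‖ ^ 2)⁻¹ := by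
    rw [le_inv_comm₀ (by positivity) (by positivity), ← inv_pow]
    rw [zpow_neg, zpow_natCast] at hGle
    gcongr
  have h5 : (‖(g : ℚ_[l])‖ ^ 2)⁻¹ ≤ ((l : ℝ) ^ s) ^ 2 := by
    rw [inv_le_comm₀ (by positivity) (by positivity), ← inv_pow]
    rw [zpow_neg, zpow_natCast] at hg
    gcongr
  have h6 : ((‖(g : ℚ_[l])‖ ^ 2)⁻¹ * ((l : ℝ) ^ k) ^ 2) ^ (c ^ 2) ≤
      ((l : ℝ) ^ ((s + k) * c ^ 2)) ^ 2 := by
    calc _ ≤ (((l : ℝ) ^ s) ^ 2 * ((l : ℝ) ^ k) ^ 2) ^ (c ^ 2) := by gcongr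
      _ = _ := by
          rw [← mul_pow, ← pow_add, ← pow_mul, ← pow_mul, ← pow_mul]; congr 1; ring
  have h7 : ((l : ℝ) ^ ((s + k) * c ^ 2)) ^ 2 < ((l : ℝ) ^ ((s + k) * c ^ 2 + 1)) ^ 2 := by
    have h8 : (l : ℝ) ^ ((s + k) * c ^ 2) < (l : ℝ) ^ ((s + k) * c ^ 2 + 1) :=
      pow_lt_pow_right₀ hl1 (Nat.lt_succ_self _)
    gcongr
  linarith [h4.trans (hphi.trans h6)]

end

/-- The data of a section at a fibre, with a bound for the valuations. -/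
theorem sec_data_v {p : ℕ} [hp : Fact p.Prime] (hp5 : 5 ≤ p) {a b X Y W : ℤ}
    {P : (curve a b).Point}
    (hP : IsRep a b X Y W P) (htor : ¬ IsOfFinAddOrder P)
    (hgood : ¬ (p : ℤ) ∣ 4 * a ^ 3 + 27 * b ^ 2)
    {Bh : (curve a b).Point → (curve a b).Point → ℚ_[p]} (hB : IsCanonicalHeight p a b Bh)
    {R : ℤ} (hR : R ≠ 0) (hcommon : ∀ D : ℤ, D ∣ 2 * Y → D ∣ 3 * X ^ 2 + a * W ^ 4 → D ∣ R)
    {c : ℕ} (hc1 : 1 ≤ c) (hN : ∀ (l : ℕ) (_ : Fact l.Prime), (l : ℤ) ∣ R →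
      ∃ n, 1 ≤ n ∧ n ∣ c ∧ ¬ SingAt l (n • P)) :
    ∃ s G : ℕ, s ≤ R.natAbs ∧ 0 < G ∧ G ∣ (Dn a X Y W c).natAbs ∧
      Dn a X Y W c ≠ 0 ∧
      (∀ l : ℕ, l.Prime → l ∣ G → l ∣ R.natAbs) ∧ ¬ (p : ℤ) ∣ (G : ℤ) ∧
      (∀ l : ℕ, l.Prime → ∀ k : ℕ, ¬ (l : ℤ) ^ k ∣ 4 * (4 * a ^ 3 + 27 * b ^ 2) →
        ¬ l ^ ((R.natAbs + k) * c ^ 2 + 1) ∣ G) ∧
      SecHt p a b X Y W c s
        (Bh P P - ulog (((G : ℕ) : ℤ) : ℤ_[p]) / (c : ℚ_[p]) ^ 2) := by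
  have hpZ : Prime (p : ℤ) := Nat.prime_iff_prime_int.mp hp.out
  have hp0 : (p : ℤ) ≠ 0 := hpZ.ne_zero
  obtain ⟨G0, A₁, B₁, D₁, hG0, hD1, rfl, rfl, rfl, hprim⟩ :=
    reduce_rep a b _ _ _ _ hP.1 le_rfl hP.eqn
  -- the part of `G0` at `p`
  obtain ⟨s, g, hg, hG0e⟩ : ∃ (s : ℕ) (g : ℤ), ¬ (p : ℤ) ∣ g ∧ G0 = p ^ s * g := by
    have hfin : FiniteMultiplicity (p : ℤ) G0 :=
      Int.finiteMultiplicity_iff.mpr ⟨by
        rw [Int.natAbs_natCast]; exact hp.out.ne_one, hG0.ne'⟩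
    obtain ⟨g, hge, hgn⟩ := hfin.exists_eq_pow_mul_and_not_dvd
    exact ⟨_, g, hgn, hge⟩
  subst hG0e
  have hps : (p : ℤ) ^ s ≠ 0 := pow_ne_zero _ hp0
  set A : ℤ := g ^ 2 * A₁ with hA
  set B : ℤ := g ^ 3 * B₁ with hBdef
  set D : ℤ := g * D₁ with hD
  have eX : ((p : ℤ) ^ s * g) ^ 2 * A₁ = ((p : ℤ) ^ s) ^ 2 * A := by rw [hA]; ring
  have eY : ((p : ℤ) ^ s * g) ^ 3 * B₁ = ((p : ℤ) ^ s) ^ 3 * B := by rw [hBdef]; ring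
  have eW : (p : ℤ) ^ s * g * D₁ = (p : ℤ) ^ s * D := by rw [hD]; ring
  rw [eX, eY, eW] at hP hcommon ⊢
  have hP' : IsRep a b A B D P := hP.descale
  have hpD : ¬ ((p : ℤ) ∣ A ∧ (p : ℤ) ∣ D) := by
    rintro ⟨h1, h2⟩
    apply hprim p hpZ
    constructor
    · rcases hpZ.dvd_or_dvd h1 with h | h
      · exact absurd (hpZ.dvd_of_dvd_pow h) hg
      · exact h
    · rcases hpZ.dvd_or_dvd h2 with h | h
      · exact absurd h hg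
      · exact h
  have hup : ∀ l : ℤ, l ∣ 2 * B → l ∣ 3 * A ^ 2 + a * D ^ 4 → l ∣ R := by
    intro l h1 h2
    apply hcommon
    · rw [show 2 * (((p : ℤ) ^ s) ^ 3 * B) = (2 * B) * ((p : ℤ) ^ s) ^ 3 by ring]
      exact Dvd.dvd.mul_right h1 _
    · rw [show 3 * (((p : ℤ) ^ s) ^ 2 * A) ^ 2 + a * ((p : ℤ) ^ s * D) ^ 4 =
        (3 * A ^ 2 + a * D ^ 4) * ((p : ℤ) ^ s) ^ 4 by ring]
      exact Dvd.dvd.mul_right h2 _
  obtain ⟨G, A₂, B₂, D₂, hG, hrep2, hcop, hDG, hGl⟩ := exists_good_multiple_c hP' htor hc1 (by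
    intro l hl h1 h2
    exact hN l hl (hup l h1 h2))
  have hsR : s ≤ R.natAbs := by
    have h1 : (p : ℤ) ^ s ∣ R := by
      apply hcommon
      · exact ⟨2 * (((p : ℤ) ^ s) ^ 2 * B), by ring⟩
      · exact ⟨3 * (((p : ℤ) ^ s) ^ 3 * A ^ 2) + a * (((p : ℤ) ^ s) ^ 3 * D ^ 4), by ring⟩
    have h2 := Nat.le_of_dvd (Int.natAbs_pos.mpr hR) (Int.natAbs_dvd_natAbs.mpr h1)
    rw [Int.natAbs_pow, Int.natAbs_natCast] at h2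
    exact (Nat.lt_pow_self hp.out.one_lt).le.trans h2
  have hpG : ¬ (p : ℤ) ∣ G := by
    intro hd
    obtain ⟨h1, h2⟩ := hGl p hp.out hd
    have hpD' : ¬ (p : ℤ) ∣ D := by
      intro h3
      apply hpD
      refine ⟨?_, h3⟩
      have h4 : (p : ℤ) ∣ 3 * A ^ 2 := by
        have e : 3 * A ^ 2 = (3 * A ^ 2 + a * D ^ 4) - D * (a * D ^ 3) := by ring
        rw [e]; exact dvd_sub h2 (Dvd.dvd.mul_right h3 _)
      rcases hpZ.dvd_or_dvd h4 with h5 | h5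
      · exfalso
        have := Int.le_of_dvd (by norm_num) h5
        omega
      · exact hpZ.dvd_of_dvd_pow h5
    have h3 := dvd_disc_of_sing hpZ hpD' hP'.eqn h1 h2
    rcases hpZ.dvd_or_dvd h3 with h4 | h4
    · have := Int.le_of_dvd (by norm_num) h4
      omega
    · exact hgood h4
  have hDnz : Dn a A B D c ≠ 0 :=
    Dn_ne (hP'.multSeq htor) hP'.1 _ hc1
  have hDe := Dn_descale hP htor c
  obtain ⟨Gn, rfl⟩ : ∃ n : ℕ, G = n := ⟨G.toNat, (Int.toNat_of_nonneg hG.le).symm⟩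
  refine ⟨s, Gn, hsR, by exact_mod_cast hG, ?_, ?_, ?_, hpG, ?_, ?_⟩
  · rw [hDe, hDG]
    have : (Gn : ℤ) ∣ ((p : ℤ) ^ s) ^ (c ^ 2) * (Gn * D₂) :=
      ⟨((p : ℤ) ^ s) ^ (c ^ 2) * D₂, by ring⟩
    have := Int.natAbs_dvd_natAbs.mpr this
    rwa [Int.natAbs_natCast] at this
  · rw [hDe]
    exact mul_ne_zero (pow_ne_zero _ hps) hDnz
  · intro l hl hd
    obtain ⟨h1, h2⟩ := hGl l hl (by exact_mod_cast hd)
    have := Int.natAbs_dvd_natAbs.mpr (hup l h1 h2)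
    rwa [Int.natAbs_natCast] at this
  · intro l hl k hk hd
    have hlf : Fact l.Prime := ⟨hl⟩
    have hlZ : Prime (l : ℤ) := Nat.prime_iff_prime_int.mp hl
    have hg0 : g ≠ 0 := by
      rintro rfl
      exact hP'.1 (by rw [hD, zero_mul])
    have hprim2 : ¬ ((l : ℤ) ∣ A₂ ∧ (l : ℤ) ∣ D₂) := by
      rintro ⟨k1, k2⟩
      have k3 : (l : ℤ) ∣ B₂ := by
        apply hlZ.dvd_of_dvd_pow (n := 2)
        rw [hrep2.eqn]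
        exact dvd_add (dvd_add (dvd_pow k1 (by norm_num))
          (Dvd.dvd.mul_left (dvd_pow k2 (by norm_num)) _))
          (Dvd.dvd.mul_left (dvd_pow k2 (by norm_num)) _)
      exact hlZ.not_isUnit (hcop.isUnit_of_dvd' (Dvd.dvd.mul_left k3 _)
        (dvd_add (Dvd.dvd.mul_left (dvd_pow k1 (by norm_num)) _)
          (Dvd.dvd.mul_left (dvd_pow k2 (by norm_num)) _)))
    refine not_pow_dvd_G (l := l) (s := R.natAbs) hP' htor hk hc1 hrep2 hprim2 hDG hA hD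
      (hprim l hlZ) ?_ (by exact_mod_cast hd)
    -- the valuation of `g`
    have hgn : ((g : ℤ) : ℚ_[l]) ≠ 0 := by exact_mod_cast hg0
    rw [Padic.norm_eq_zpow_neg_valuation hgn, Padic.valuation_intCast]
    have h1 : (l : ℤ) ^ padicValInt l g ∣ R := by
      have h2 : (l : ℤ) ^ padicValInt l g ∣ g := padicValInt_dvd g
      apply hup
      · exact h2.trans ⟨2 * (g ^ 2 * B₁), by rw [hBdef]; ring⟩
      · exact h2.trans ⟨3 * (g ^ 3 * A₁ ^ 2) + a * (g ^ 3 * D₁ ^ 4), by rw [hA, hD]; ring⟩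
    have h2 := Nat.le_of_dvd (Int.natAbs_pos.mpr hR) (Int.natAbs_dvd_natAbs.mpr h1)
    rw [Int.natAbs_pow, Int.natAbs_natCast] at h2
    have h3 : padicValInt l g ≤ R.natAbs := (Nat.lt_pow_self hl.one_lt).le.trans h2
    apply zpow_le_zpow_right₀ (by exact_mod_cast hl.one_lt.le)
    omega
  · refine ⟨A, B, D, by rw [← pow_mul, mul_comm s 2], by rw [← pow_mul, mul_comm s 3], rfl, ?_⟩
    exact htCl_of_mult hp5 hP' htor hc1 hrep2 hcop hDG hpG hB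

end Pool.Agent.Lib.MP_3550b5_nt
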