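import Mathlib
import Pool.Agent.Lib.MP_3550b5_nt.SMain2
import Pool.Agent.Lib.MP_3550b5_nt.UData

namespace Pool.Agent.Lib.MP_3550b5_nt

open MvPolynomial

/-- Local indices of bounded size. -/
lemma exists_indices {r : ℕ} {a b : ℤ} (Q : Fin r → Fin r → (curve a b).Point) {R : ℤ} (h : ℕ)
    (hQ : ∀ i j, i ≤ j → ¬ IsOfFinAddOrder (Q i j)) (hR : R ≠ 0)
    (hdisc : ∀ l : ℕ, l.Prime → (l : ℤ) ∣ R → ¬ (l : ℤ) ^ h ∣ 4 * (4 * a ^ 3 + 27 * b ^ 2)) :
    ∃ c : ℕ, 1 ≤ c ∧ c ≤ (2 * (R.natAbs + 1) ^ (2 * h)) ^ (R.natAbs.primeFactors.card * r * r) ∧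
      ∀ i j, i ≤ j → ∀ (l : ℕ) (_ : Fact l.Prime), (l : ℤ) ∣ R →
        ∃ n, 1 ≤ n ∧ n ∣ c ∧ ¬ SingAt l (n • Q i j) := by
  classical
  set M : ℕ := 2 * (R.natAbs + 1) ^ (2 * h) with hM
  have hM1 : 1 ≤ M := by
    rw [hM]
    have : 1 ≤ (R.natAbs + 1) ^ (2 * h) := Nat.one_le_pow _ _ (by omega)
    omega
  have hex : ∀ (l : ℕ) (i j : Fin r), ∃ n, 1 ≤ n ∧ n ≤ M ∧
      (i ≤ j → ∀ (_ : Fact l.Prime), (l : ℤ) ∣ R → ¬ SingAt l (n • Q i j)) := by
    intro l i j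
    by_cases hc : i ≤ j ∧ l.Prime ∧ (l : ℤ) ∣ R
    · obtain ⟨hij, hl, hlR⟩ := hc
      have hf : Fact l.Prime := ⟨hl⟩
      obtain ⟨n, h1, h2, h3⟩ := exists_nonsing (l := l) (hQ i j hij) (hdisc l hl hlR)
      refine ⟨n, h1, h2.trans ?_, fun _ _ _ => h3⟩
      have h4 : l ≤ R.natAbs := Nat.le_of_dvd (Int.natAbs_pos.mpr hR) (Int.natCast_dvd.mp hlR)
      have h5 : l ^ (2 * h) ≤ (R.natAbs + 1) ^ (2 * h) := Nat.pow_le_pow_left (by omega) _
      have h6 : 1 ≤ (R.natAbs + 1) ^ (2 * h) := Nat.one_le_pow _ _ (by omega)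
      rw [hM]; omega
    · exact ⟨1, le_rfl, hM1, fun hij hf hlR => absurd ⟨hij, hf.out, hlR⟩ hc⟩
  choose n hn1 hnM hns using hex
  refine ⟨∏ l ∈ R.natAbs.primeFactors, ∏ i, ∏ j, n l i j, ?_, ?_, ?_⟩
  · exact Nat.succ_le_of_lt (Finset.prod_pos fun l _ => Finset.prod_pos fun i _ =>
      Finset.prod_pos fun j _ => Nat.lt_of_succ_le (hn1 l i j))
  · have h1 : ∀ l ∈ R.natAbs.primeFactors, ∏ i : Fin r, ∏ j : Fin r, n l i j ≤ M ^ (r * r) := by
      intro l _
      have h2 : ∀ i ∈ (Finset.univ : Finset (Fin r)), ∏ j : Fin r, n l i j ≤ M ^ r := by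
        intro i _
        have h3 := Finset.prod_le_pow_card (Finset.univ : Finset (Fin r)) (fun j => n l i j) M
          (fun j _ => hnM l i j)
        simpa using h3
      have h3 := Finset.prod_le_pow_card (Finset.univ : Finset (Fin r))
        (fun i => ∏ j : Fin r, n l i j) (M ^ r) h2
      rw [Finset.card_univ, Fintype.card_fin, ← pow_mul] at h3
      exact h3
    have h2 := Finset.prod_le_pow_card R.natAbs.primeFactors
      (fun l => ∏ i : Fin r, ∏ j : Fin r, n l i j) (M ^ (r * r)) h1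
    rw [← pow_mul] at h2
    refine h2.trans (le_of_eq ?_)
    congr 1; ring
  · intro i j hij l hl hlR
    refine ⟨n l i j, hn1 l i j, ?_, hns l i j hij hl hlR⟩
    have hmem : l ∈ R.natAbs.primeFactors := by
      rw [Nat.mem_primeFactors]
      exact ⟨hl.out, Int.natCast_dvd.mp hlR, Int.natAbs_ne_zero.mpr hR⟩
    refine Dvd.dvd.trans ?_ (Finset.dvd_prod_of_mem _ hmem)
    refine Dvd.dvd.trans ?_ (Finset.dvd_prod_of_mem _ (Finset.mem_univ i))
    exact Finset.dvd_prod_of_mem _ (Finset.mem_univ j)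

/-- The logarithm of the bound for the correction factors. -/
lemma log_bound_u (C e N M : ℕ) (hM : 1 ≤ M) :
    Nat.log 2 (((C + 1) * N ^ e) ^ (M ^ 2)) + 1 ≤
      M ^ 2 * (C + e + 2) * (Nat.log 2 N + 1) := by
  have h1 : ((C + 1) * N ^ e) ^ (M ^ 2) ≤
      2 ^ ((C + 1 + e * (Nat.log 2 N + 1)) * M ^ 2) := by
    rw [pow_mul]
    apply Nat.pow_le_pow_left
    rw [pow_add, pow_mul']
    have h6 : N ≤ 2 ^ (Nat.log 2 N + 1) := (Nat.lt_pow_succ_log_self (by norm_num) N).le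
    exact Nat.mul_le_mul (Nat.lt_two_pow_self).le (Nat.pow_le_pow_left h6 e)
  have h2 : Nat.log 2 (((C + 1) * N ^ e) ^ (M ^ 2)) ≤
      (C + 1 + e * (Nat.log 2 N + 1)) * M ^ 2 := by
    calc _ ≤ Nat.log 2 (2 ^ ((C + 1 + e * (Nat.log 2 N + 1)) * M ^ 2)) := Nat.log_mono_right h1
      _ = _ := Nat.log_pow (by norm_num) _
  have h3 : 1 ≤ M ^ 2 := Nat.one_le_pow _ _ hM
  obtain ⟨L, hL⟩ : ∃ L, L = Nat.log 2 N := ⟨_, rfl⟩
  rw [← hL] at h2 ⊢
  calc _ ≤ (C + 1 + e * (L + 1)) * M ^ 2 + 1 := by omega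
    _ ≤ (C + 1 + e * (L + 1)) * M ^ 2 + M ^ 2 := by omega
    _ ≤ M ^ 2 * (C + e + 2) * (L + 1) := by
        have h4 : M ^ 2 * (C + e + 2) * (L + 1) = (C + 1 + e * (L + 1)) * M ^ 2 + M ^ 2 +
          M ^ 2 * ((C + 2) * L) := by ring
        rw [h4]; exact Nat.le_add_right _ _

/-- Bookkeeping of exponents. -/
lemma final_alg (κ₁ H a₁ ρ κ₂ s r L N P Δ₀ : ℕ) :
    (κ₁ * H ^ a₁ * (ρ * ((κ₁ * H ^ a₁) ^ 2 * κ₂ * L) ^ s) ^ (r * r)) ^ r *
      ((9 * r * N ^ 2) ^ r * (P * Δ₀ * (κ₁ * H ^ a₁) ^ (2 * r))) =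
    (κ₁ * (ρ * (κ₁ ^ 2 * κ₂) ^ s) ^ (r * r)) ^ r * (9 * r) ^ r * Δ₀ * κ₁ ^ (2 * r) *
      N ^ (2 * r) * P * H ^ ((a₁ + 2 * a₁ * s * (r * r)) * r + a₁ * (2 * r)) *
        L ^ (s * (r * r) * r) := by
  ring

/-- Numbers composed of given primes with bounded exponents. -/
lemma card_val_le (S : Finset ℕ) (m : ℕ) (T : Finset ℕ)
    (hT : ∀ g ∈ T, 0 < g ∧ (∀ l : ℕ, l.Prime → l ∣ g → l ∈ S) ∧
      ∀ l : ℕ, l.Prime → ¬ l ^ (m + 1) ∣ g) :
    T.card ≤ (m + 1) ^ S.card := by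
  classical
  have hcard : (S.pi (fun _ => Finset.range (m + 1))).card = (m + 1) ^ S.card := by
    rw [Finset.card_pi, Finset.prod_const, Finset.card_range]
  rw [← hcard]
  apply Finset.card_le_card_of_injOn (fun g => fun l _ => g.factorization l)
  · intro g hg
    obtain ⟨h1, -, h2⟩ := hT g (Finset.mem_coe.mp hg)
    rw [Finset.mem_coe, Finset.mem_pi]
    intro l _
    rw [Finset.mem_range]
    by_cases hl : l.Prime
    · by_contra hge
      push Not at hge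
      exact h2 l hl ((hl.pow_dvd_iff_le_factorization h1.ne').mpr hge)
    · simp only
      rw [Nat.factorization_eq_zero_of_not_prime _ hl]; exact Nat.succ_pos _
  · intro g hg g' hg' heq
    obtain ⟨h1, h3, -⟩ := hT g (Finset.mem_coe.mp hg)
    obtain ⟨h1', h3', -⟩ := hT g' (Finset.mem_coe.mp hg')
    apply Nat.eq_of_factorization_eq h1.ne' h1'.ne'
    intro l
    by_cases hl : l ∈ S
    · exact congrFun (congrFun heq l) hl
    · have e1 : g.factorization l = 0 := by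
        by_cases hlp : l.Prime
        · exact Nat.factorization_eq_zero_of_not_dvd (fun hd => hl (h3 l hlp hd))
        · exact Nat.factorization_eq_zero_of_not_prime _ hlp
      have e2 : g'.factorization l = 0 := by
        by_cases hlp : l.Prime
        · exact Nat.factorization_eq_zero_of_not_dvd (fun hd => hl (h3' l hlp hd))
        · exact Nat.factorization_eq_zero_of_not_prime _ hlp
      rw [e1, e2]

/-- Count of the fibres with regulator near `v`, with constants uniform in `p` and no logarithms. -/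
theorem good_count_w {r : ℕ} (hr : 1 ≤ r) {d : ℕ}
    {a b : MvPolynomial (Fin 2) ℤ} (ha : a.IsWeightedHomogeneous 1 (4 * d))
    (hb : b.IsWeightedHomogeneous 1 (6 * d)) {w : Fin r → Fin r → ℕ}
    {X Y W : Fin r → Fin r → MvPolynomial (Fin 2) ℤ}
    (hS : ∀ i j, i ≤ j → SecForm d a b (w i j) (X i j) (Y i j) (W i j))
    (hdet : (heightMatrix d w).det ≠ 0) {R : ℤ} (hR : R ≠ 0)
    (hcommon : ∀ i j, i ≤ j → ∀ z : Fin 2 → ℤ, IsCoprime (z 0) (z 1) → ∀ D : ℤ,
      D ∣ 2 * eval z (Y i j) →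
      D ∣ 3 * eval z (X i j) ^ 2 + eval z a * eval z (W i j) ^ 4 → D ∣ R) :
    ∃ C e A : ℕ, ∀ (p : ℕ) (_ : Fact p.Prime), 5 ≤ p → ∀ (v : ℚ_[p]) (K N m h : ℕ), 1 ≤ m →
      m ≤ N → m ≤ p ^ K → ∀ E : Finset (Fin 2 → ℤ), (∀ z ∈ E, z ∈ box 2 N ∧
      IsCoprime (z 0) (z 1) ∧ GoodInf p v K a b X Y W z ∧
      (∀ l : ℕ, l.Prime → (l : ℤ) ∣ R →
        ¬ (l : ℤ) ^ h ∣ 4 * (4 * eval z a ^ 3 + 27 * eval z b ^ 2))) →
      E.card ^ r * m ≤ C * N ^ (2 * r) * p ^ e * ((R.natAbs + 1) ^ h) ^ A := by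
  classical
  set ρ := R.natAbs with hρ
  have hRn : ρ ≠ 0 := Int.natAbs_ne_zero.mpr hR
  set s := ρ.primeFactors.card with hs
  set Δ₀ := (heightMatrix d w).det.natAbs with hΔ₀
  set κ₁ : ℕ := 2 ^ (s * r * r) with hκ₁
  set a₁ : ℕ := 2 * (s * r * r) with ha₁
  set κ₂ : ℕ := ρ + 2 with hκ₂
  refine ⟨(κ₁ * ((ρ + 1) * (κ₁ ^ 2 * κ₂) ^ s) ^ (r * r)) ^ r * (9 * r) ^ r * Δ₀ * κ₁ ^ (2 * r),
    r + (3 * ρ + r + 2), ((a₁ + 2 * a₁ * s * (r * r)) * r + a₁ * (2 * r)) + s * (r * r) * r,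
    fun p hp hp5 v K N m h hm1 hmN hmK E hE => ?_⟩
  have hp1 : 1 < p := hp.out.one_lt
  set H : ℕ := (ρ + 1) ^ h with hH
  set M' : ℕ := (2 * (ρ + 1) ^ (2 * h)) ^ (s * r * r) with hM'
  have hM'e : M' = κ₁ * H ^ a₁ := by
    rw [hM', hκ₁, ha₁, hH, mul_pow, ← pow_mul, ← pow_mul]
    congr 2; ring
  have hM'1 : 1 ≤ M' := by
    rw [hM']
    have : 1 ≤ (ρ + 1) ^ (2 * h) := Nat.one_le_pow _ _ (by omega)
    exact Nat.one_le_pow _ _ (by omega)
  have hH1 : 1 ≤ H := Nat.one_le_pow _ _ (by omega)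
  have hhH : h ≤ H := by
    calc h ≤ 2 ^ h := Nat.lt_two_pow_self.le
      _ ≤ (ρ + 1) ^ h := Nat.pow_le_pow_left (by omega) _
  set μ : ℕ := (ρ + h) * M' ^ 2 with hμ
  set T : Finset ℕ := (Finset.Icc 1 (ρ ^ (μ + 1))).filter
    (fun g => (∀ l : ℕ, l.Prime → l ∣ g → l ∈ ρ.primeFactors) ∧
      ∀ l : ℕ, l.Prime → ¬ l ^ (μ + 1) ∣ g) with hT
  have hTc : T.card ≤ (M' ^ 2 * κ₂ * H) ^ s := by
    refine (card_val_le ρ.primeFactors μ T ?_).trans ?_
    · intro g hg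
      rw [hT, Finset.mem_filter, Finset.mem_Icc] at hg
      exact ⟨by omega, hg.2.1, hg.2.2⟩
    · apply Nat.pow_le_pow_left
      have k1 : 1 ≤ M' ^ 2 := Nat.one_le_pow _ _ hM'1
      calc μ + 1 ≤ (ρ * H + H) * M' ^ 2 + M' ^ 2 * H := by
            rw [hμ]
            apply Nat.add_le_add
            · apply Nat.mul_le_mul_right
              exact Nat.add_le_add (Nat.le_mul_of_pos_right _ hH1) hhH
            · exact Nat.mul_pos k1 hH1
        _ = M' ^ 2 * κ₂ * H := by rw [hκ₂]; ring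
  have h1T : 1 ∈ T := by
    rw [hT, Finset.mem_filter, Finset.mem_Icc]
    refine ⟨⟨le_rfl, Nat.pow_pos (Nat.pos_of_ne_zero hRn)⟩, fun l hl hd => ?_, fun l hl hd => ?_⟩
    · exact absurd (Nat.dvd_one.mp hd) hl.ne_one
    · have := Nat.le_of_dvd one_pos hd
      exact absurd this (not_le.mpr (Nat.one_lt_pow (Nat.succ_ne_zero _) hl.one_lt))
  -- data of a fibre
  have hdata : ∀ z ∈ E, ∃ q : ℕ × (Fin r → Fin r → ℕ × ℕ), (1 ≤ q.1 ∧ q.1 ≤ M') ∧
      (∀ i j, (q.2 i j).1 ≤ ρ ∧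
      (q.2 i j).2 ∈ T ∧ ¬ (p : ℤ) ∣ ((q.2 i j).2 : ℤ)) ∧
      InClass p v K q.1 (fun i j => (q.2 i j).1)
        (fun i j => ulog ((((q.2 i j).2 : ℕ) : ℤ) : ℤ_[p]) / (q.1 : ℚ_[p]) ^ 2)
        (eval z a) (eval z b) (fun i j => eval z (X i j)) (fun i j => eval z (Y i j))
        (fun i j => eval z (W i j)) := by
    intro z hz
    obtain ⟨hzb, hco, ⟨hord, P, B, hB, hreg, hrep⟩, hK⟩ := hE z hz
    obtain ⟨c, hc1, hcM, hcn⟩ := exists_indices (fun i j => if i = j then P i else P i - P j) h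
      (fun i j hij => (hrep i j hij).2) hR hK
    have h1 : ∀ i j, ∃ sG : ℕ × ℕ, sG.1 ≤ ρ ∧ sG.2 ∈ T ∧ ¬ (p : ℤ) ∣ (sG.2 : ℤ) ∧
        (i ≤ j → SecHt p (eval z a) (eval z b) (eval z (X i j)) (eval z (Y i j))
          (eval z (W i j)) c sG.1
          (B (if i = j then P i else P i - P j) (if i = j then P i else P i - P j) -
            ulog (((sG.2 : ℕ) : ℤ) : ℤ_[p]) / (c : ℚ_[p]) ^ 2)) := by
      intro i j
      by_cases hij : i ≤ j
      · obtain ⟨h2, h3⟩ := hrep i j hij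
        obtain ⟨s', G, g1, g2, g3, g4, g5, g6, g8, g7⟩ := sec_data_v hp5 h2 h3 hord.1 hB hR
          (hcommon i j hij z hco) hc1 (hcn i j hij)
        refine ⟨(s', G), g1, ?_, g6, fun _ => g7⟩
        have g9 : ∀ l : ℕ, l.Prime → ¬ l ^ (μ + 1) ∣ G := by
          intro l hl hd
          by_cases hlR : (l : ℤ) ∣ R
          · apply g8 l hl h (hK l hl hlR)
            refine (pow_dvd_pow l ?_).trans hd
            rw [← hρ]
            have : (ρ + h) * c ^ 2 ≤ μ := by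
              rw [hμ]
              exact Nat.mul_le_mul_left _ (Nat.pow_le_pow_left hcM 2)
            exact Nat.succ_le_succ this
          · apply hlR
            exact Int.natCast_dvd.mpr (g5 l hl ((dvd_pow_self l (Nat.succ_ne_zero _)).trans hd))
        rw [hT, Finset.mem_filter, Finset.mem_Icc]
        refine ⟨⟨g2, le_of_smooth hRn g2 g5 (fun l hl _ => g9 l hl)⟩, fun l hl hd => ?_, g9⟩
        rw [Nat.mem_primeFactors]
        exact ⟨hl, g5 l hl hd, hRn⟩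
      · refine ⟨(0, 1), Nat.zero_le _, h1T, ?_, fun h => absurd h hij⟩
        intro hd
        have := Int.le_of_dvd (by norm_num) hd
        push_cast at this
        omega
    choose sG g1 g2 g3 g4 using h1
    refine ⟨(c, sG), ⟨hc1, hcM⟩, fun i j => ⟨g1 i j, g2 i j, g3 i j⟩, hord,
      Matrix.of fun i j => B (P i) (P j), fun i j => hB.symm _ _, hreg, fun i j hij => ?_⟩
    have h5 := g4 i j hij
    have h6 : qf (Matrix.of fun i j => B (P i) (P j)) i j =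
        B (if i = j then P i else P i - P j) (if i = j then P i else P i - P j) := by
      rw [qf]
      split_ifs with h
      · rfl
      · rw [hB.sub_self]; rfl
    rw [h6]
    exact h5
  choose! f hf0 hf1 hf2 using hdata
  rcases E.eq_empty_or_nonempty with hemp | hne
  · rw [hemp, Finset.card_empty, zero_pow (by omega), zero_mul]; exact Nat.zero_le _
  obtain ⟨q, hq, hmax⟩ := Finset.exists_max_image (E.image f)
    (fun q => (E.filter (fun z => f z = q)).card) (hne.image f)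
  have h1 : E.card ≤ (E.filter (fun z => f z = q)).card * (E.image f).card :=
    Finset.card_le_mul_card_image _ _ (fun q' hq' => hmax q' hq')
  have h2 : (E.image f).card ≤ M' * ((ρ + 1) * (M' ^ 2 * κ₂ * H) ^ s) ^ (r * r) := by
    have h3 : E.image f ⊆ (Finset.Icc 1 M') ×ˢ (Fintype.piFinset (fun _ : Fin r =>
        Fintype.piFinset (fun _ : Fin r => (Finset.range (ρ + 1)) ×ˢ T))) := by
      intro v' hv'
      obtain ⟨z, hz, rfl⟩ := Finset.mem_image.mp hv'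
      rw [Finset.mem_product]
      refine ⟨Finset.mem_Icc.mpr (hf0 z hz), ?_⟩
      rw [Fintype.mem_piFinset]
      intro i
      rw [Fintype.mem_piFinset]
      intro j
      obtain ⟨k1, k2, -⟩ := hf1 z hz i j
      rw [Finset.mem_product, Finset.mem_range]
      exact ⟨by omega, k2⟩
    refine (Finset.card_le_card h3).trans ?_
    rw [Finset.card_product, Nat.card_Icc, Nat.add_sub_cancel, Fintype.card_piFinset,
      Finset.prod_const, Fintype.card_piFinset, Finset.prod_const,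
      Finset.card_univ, Fintype.card_fin, ← pow_mul, Finset.card_product, Finset.card_range]
    exact Nat.mul_le_mul_left _ (Nat.pow_le_pow_left (Nat.mul_le_mul_left _ hTc) _)
  obtain ⟨z₀, hz₀, hz₀v⟩ := Finset.mem_image.mp hq
  have hq1 : 1 ≤ q.1 ∧ q.1 ≤ M' := by rw [← hz₀v]; exact hf0 z₀ hz₀
  have h3 := class_bound hp5 hr ha hb (fun i j hij => (hS i j hij).homX)
    (fun i j hij => (hS i j hij).homY) (fun i j hij => (hS i j hij).homW) hdet
    hq1.1 (fun i j => (q.2 i j).1) (S₀ := ρ)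
    (fun i j => by rw [← hz₀v]; exact (hf1 z₀ hz₀ i j).1)
    (fun i j => ulog ((((q.2 i j).2 : ℕ) : ℤ) : ℤ_[p]) / (q.1 : ℚ_[p]) ^ 2)
    (by
      intro i j
      have hu : IsUnit ((((q.2 i j).2 : ℕ) : ℤ) : ℤ_[p]) := by
        rw [← hz₀v]; exact isUnit_intCast (hf1 z₀ hz₀ i j).2.2
      have hn := norm_ulog_le (p := p) (by omega) hu
      have hM0 : ((q.1 : ℕ) : ℚ_[p]) ≠ 0 := by
        exact_mod_cast (by omega : q.1 ≠ 0)
      have hMn := Padic.norm_eq_zpow_neg_valuation hM0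
      rw [Padic.valuation_natCast] at hMn
      have hpR : (1 : ℝ) < p := by exact_mod_cast hp1
      have hp0 : (0 : ℝ) < p := by linarith
      rw [norm_div, norm_pow, hMn, ← zpow_natCast, ← zpow_mul]
      rw [div_le_iff₀ (by positivity), ← zpow_natCast, ← zpow_add₀ hp0.ne']
      refine hn.trans ?_
      rw [← zpow_neg_one]
      apply zpow_le_zpow_right₀ hpR.le
      push_cast
      omega)
    v K N m hm1 hmN hmK (E.filter (fun z => f z = q))
    (fun z hz i => mem_box.mp (hE z (Finset.mem_filter.mp hz).1).1 i)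
    (fun z hz => by
      obtain ⟨k1, k2⟩ := Finset.mem_filter.mp hz
      rw [← k2]
      exact hf2 z k1)
  -- the power of `p`
  have h4 : p ^ (r + (padicValInt p (heightMatrix d w).det +
      3 * ρ + (2 * padicValNat p q.1 + 1) * r + 2)) ≤
      p ^ (r + (3 * ρ + r + 2)) * Δ₀ * M' ^ (2 * r) := by
    have k1 : p ^ padicValInt p (heightMatrix d w).det ≤ Δ₀ := by
      apply Nat.le_of_dvd (Int.natAbs_pos.mpr hdet)
      exact pow_padicValNat_dvd
    have k2 : p ^ padicValNat p q.1 ≤ M' :=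
      (Nat.le_of_dvd (by omega) pow_padicValNat_dvd).trans hq1.2
    calc p ^ (r + (padicValInt p (heightMatrix d w).det +
          3 * ρ + (2 * padicValNat p q.1 + 1) * r + 2))
        = p ^ (r + (3 * ρ + r + 2)) * p ^ padicValInt p (heightMatrix d w).det *
          (p ^ padicValNat p q.1) ^ (2 * r) := by
          rw [← pow_mul, ← pow_add, ← pow_add]; congr 1; ring
      _ ≤ _ := by gcongr
  calc E.card ^ r * m ≤ ((E.filter (fun z => f z = q)).card * (E.image f).card) ^ r * m := by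
        gcongr
    _ = (E.image f).card ^ r * ((E.filter (fun z => f z = q)).card ^ r * m) := by ring
    _ ≤ (M' * ((ρ + 1) * (M' ^ 2 * κ₂ * H) ^ s) ^ (r * r)) ^ r *
        ((9 * r * N ^ 2) ^ r * (p ^ (r + (3 * ρ + r + 2)) * Δ₀ * M' ^ (2 * r))) :=
        Nat.mul_le_mul (Nat.pow_le_pow_left h2 r) (h3.trans (Nat.mul_le_mul_left _ h4))
    _ = _ := by
        rw [hM'e, final_alg, pow_add H]
        ring

end Pool.Agent.Lib.MP_3550b5_nt
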