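import Mathlib
import Pool.Agent.Lib.MP_3550b5_nt.UDvd

namespace Pool.Agent.Lib.MP_3550b5_nt

open Finset

/-- A family of finite sets (depending on `N`) which saves a power of `N` in the plane. -/
def PSav (S : ℕ → Finset (Fin 2 → ℤ)) : Prop :=
  ∃ η C : ℝ, 0 < η ∧ 0 ≤ C ∧ ∀ N : ℕ, 1 ≤ N → ((S N).card : ℝ) ≤ C * (N : ℝ) ^ (2 - η)

lemma PSav.mono {S S' : ℕ → Finset (Fin 2 → ℤ)} (h : PSav S)
    (hle : ∀ N, 1 ≤ N → (S' N).card ≤ (S N).card) : PSav S' := by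
  obtain ⟨η, C, h1, h2, h3⟩ := h
  exact ⟨η, C, h1, h2, fun N hN => (by exact_mod_cast hle N hN : ((S' N).card : ℝ) ≤ _).trans
    (h3 N hN)⟩

lemma PSav.union {S S' : ℕ → Finset (Fin 2 → ℤ)} (h : PSav S) (h' : PSav S') :
    PSav (fun N => S N ∪ S' N) := by
  classical
  obtain ⟨η, C, h1, h2, h3⟩ := h
  obtain ⟨η', C', h1', h2', h3'⟩ := h'
  refine ⟨min η η', C + C', lt_min h1 h1', by positivity, fun N hN => ?_⟩
  have hN' : (1 : ℝ) ≤ N := by exact_mod_cast hN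
  have k1 : (N : ℝ) ^ (2 - η) ≤ (N : ℝ) ^ (2 - min η η') :=
    Real.rpow_le_rpow_of_exponent_le hN' (by linarith [min_le_left η η'])
  have k2 : (N : ℝ) ^ (2 - η') ≤ (N : ℝ) ^ (2 - min η η') :=
    Real.rpow_le_rpow_of_exponent_le hN' (by linarith [min_le_right η η'])
  have k3 : ((S N ∪ S' N).card : ℝ) ≤ (S N).card + (S' N).card := by
    exact_mod_cast Finset.card_union_le _ _
  have k4 := h3 N hN
  have k5 := h3' N hN
  nlinarith [mul_le_mul_of_nonneg_left k1 h2, mul_le_mul_of_nonneg_left k2 h2']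

lemma PSav.empty : PSav (fun _ => ∅) := ⟨1, 0, one_pos, le_rfl, fun N _ => by simp⟩

lemma PSav.biUnion {ι : Type*} (s : Finset ι) {S : ι → ℕ → Finset (Fin 2 → ℤ)}
    (h : ∀ i ∈ s, PSav (S i)) : PSav (fun N => s.biUnion (fun i => S i N)) := by
  classical
  induction s using Finset.induction_on with
  | empty => simpa using PSav.empty
  | insert i s hi ih =>
    have h1 := (h i (Finset.mem_insert_self i s)).union
      (ih (fun j hj => h j (Finset.mem_insert_of_mem hj)))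
    simpa only [Finset.biUnion_insert] using h1

/-- The multiplicative form of a power saving. -/
lemma PSav.of_nat {S : ℕ → Finset (Fin 2 → ℤ)} {T C : ℕ} (hT : 1 ≤ T)
    (h : ∀ N, 1 ≤ N → (S N).card ^ T * N ≤ C * N ^ (2 * T)) : PSav S := by
  have hT0 : (0 : ℝ) < T := by exact_mod_cast hT
  refine ⟨1 / T, (C : ℝ) ^ ((1 : ℝ) / T), by positivity, by positivity, fun N hN => ?_⟩
  have hN0 : (0 : ℝ) < N := by exact_mod_cast hN
  have h1 : ((S N).card : ℝ) ^ T * N ≤ C * (N : ℝ) ^ (2 * T) := by exact_mod_cast h N hN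
  have h2 : ((S N).card : ℝ) ^ T ≤ ((C : ℝ) ^ ((1 : ℝ) / T) * (N : ℝ) ^ (2 - 1 / (T : ℝ))) ^ T := by
    rw [mul_pow, ← Real.rpow_natCast ((C : ℝ) ^ ((1 : ℝ) / T)), ← Real.rpow_mul (by positivity),
      one_div_mul_cancel hT0.ne', Real.rpow_one, ← Real.rpow_natCast ((N : ℝ) ^ _),
      ← Real.rpow_mul hN0.le]
    have e : (2 - 1 / (T : ℝ)) * T = ((2 * T : ℕ) : ℝ) - 1 := by
      push_cast; field_simp
    rw [e, Real.rpow_sub hN0, Real.rpow_natCast, Real.rpow_one, ← mul_div_assoc,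
      le_div_iff₀ hN0]
    exact h1
  exact (pow_le_pow_iff_left₀ (by positivity) (by positivity) (by omega)).mp h2

/-- Powers of logarithms are smaller than powers. -/
lemma log_pow_le (A : ℕ) {δ : ℝ} (hδ : 0 < δ) :
    ∃ C : ℝ, 0 ≤ C ∧ ∀ N : ℕ, 1 ≤ N → ((Nat.log 2 N : ℝ) + 1) ^ A ≤ C * (N : ℝ) ^ δ := by
  set ε : ℝ := δ / (A + 1) with hε
  have hε0 : 0 < ε := by positivity
  refine ⟨(2 / ε + 1) ^ A, by positivity, fun N hN => ?_⟩
  have hN1 : (1 : ℝ) ≤ N := by exact_mod_cast hN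
  have hN0 : (0 : ℝ) < N := by linarith
  have h1 : (Nat.log 2 N : ℝ) ≤ 2 / ε * (N : ℝ) ^ ε := by
    have h6 := Real.natLog_le_logb N 2
    rw [Real.logb] at h6
    push_cast at h6
    have h7 : (1 : ℝ) / 2 ≤ Real.log 2 := by
      have := Real.log_two_gt_d9
      linarith
    have h8 := Real.log_le_rpow_div hN0.le hε0
    refine h6.trans ?_
    rw [div_le_iff₀ (by linarith)]
    have h9 : 0 ≤ (N : ℝ) ^ ε / ε := by positivity
    calc Real.log N ≤ (N : ℝ) ^ ε / ε := h8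
      _ = 2 * ((N : ℝ) ^ ε / ε) * (1 / 2) := by ring
      _ ≤ 2 * ((N : ℝ) ^ ε / ε) * Real.log 2 := by gcongr
      _ = _ := by ring
  have h2 : (1 : ℝ) ≤ (N : ℝ) ^ ε := Real.one_le_rpow hN1 hε0.le
  have h3 : (Nat.log 2 N : ℝ) + 1 ≤ (2 / ε + 1) * (N : ℝ) ^ ε := by nlinarith
  calc ((Nat.log 2 N : ℝ) + 1) ^ A ≤ ((2 / ε + 1) * (N : ℝ) ^ ε) ^ A := by gcongr
    _ = (2 / ε + 1) ^ A * (N : ℝ) ^ (ε * A) := by
        rw [mul_pow, ← Real.rpow_natCast ((N : ℝ) ^ ε), ← Real.rpow_mul hN0.le]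
    _ ≤ (2 / ε + 1) ^ A * (N : ℝ) ^ δ := by
        gcongr
        rw [hε, div_mul_eq_mul_div, div_le_iff₀ (by positivity)]
        nlinarith

/-- The exponent used at level `N`. -/
def lev (B N : ℕ) : ℕ := Nat.log B N

lemma lev_lt {B N : ℕ} (hB : 2 ≤ B) : N < B ^ (lev B N + 1) :=
  Nat.lt_pow_succ_log_self (by omega) N

lemma pow_lev_le {B N : ℕ} (hN : 1 ≤ N) : B ^ lev B N ≤ N :=
  Nat.pow_log_le_self B (by omega)

/-- Zeros of a polynomial save a power. -/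
lemma PSav.zeros {F : MvPolynomial (Fin 2) ℤ} (hF : F ≠ 0) :
    PSav (fun N => (box 2 N).filter (fun z => MvPolynomial.eval z F = 0)) := by
  refine PSav.of_nat (T := 1) (C := 3 * F.totalDegree) le_rfl fun N hN => ?_
  have h1 := card_zeros_le (N := N) hF
  rw [pow_one] at h1
  calc ((box 2 N).filter (fun z => MvPolynomial.eval z F = 0)).card ^ 1 * N
      ≤ (F.totalDegree * (2 * N + 1)) * N := by rw [pow_one]; exact Nat.mul_le_mul_right _ h1
    _ ≤ (F.totalDegree * (3 * N)) * N := by gcongr; omega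
    _ = 3 * F.totalDegree * N ^ (2 * 1) := by ring

/-- A family of finite sets (depending on `M ≤ N`) which saves a power of `M` in the box of
size `N` in the plane. -/
def PS2 (S : ℕ → ℕ → Finset (Fin 2 → ℤ)) : Prop :=
  ∃ η C : ℝ, 0 < η ∧ 0 ≤ C ∧ ∀ M N : ℕ, 1 ≤ M → M ≤ N →
    ((S M N).card : ℝ) ≤ C * (M : ℝ) ^ (-η) * (N : ℝ) ^ 2

lemma PS2.union {S S' : ℕ → ℕ → Finset (Fin 2 → ℤ)} (h : PS2 S) (h' : PS2 S') :
    PS2 (fun M N => S M N ∪ S' M N) := by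
  classical
  obtain ⟨η, C, h1, h2, h3⟩ := h
  obtain ⟨η', C', h1', h2', h3'⟩ := h'
  refine ⟨min η η', C + C', lt_min h1 h1', by positivity, fun M N hM hN => ?_⟩
  have hM' : (1 : ℝ) ≤ M := by exact_mod_cast hM
  have k1 : (M : ℝ) ^ (-η) ≤ (M : ℝ) ^ (-min η η') :=
    Real.rpow_le_rpow_of_exponent_le hM' (by linarith [min_le_left η η'])
  have k2 : (M : ℝ) ^ (-η') ≤ (M : ℝ) ^ (-min η η') :=
    Real.rpow_le_rpow_of_exponent_le hM' (by linarith [min_le_right η η'])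
  have k3 : ((S M N ∪ S' M N).card : ℝ) ≤ (S M N).card + (S' M N).card := by
    exact_mod_cast Finset.card_union_le _ _
  have k4 := h3 M N hM hN
  have k5 := h3' M N hM hN
  calc ((S M N ∪ S' M N).card : ℝ) ≤ (S M N).card + (S' M N).card := k3
    _ ≤ C * (M : ℝ) ^ (-η) * (N : ℝ) ^ 2 + C' * (M : ℝ) ^ (-η') * (N : ℝ) ^ 2 := add_le_add k4 k5
    _ ≤ C * (M : ℝ) ^ (-min η η') * (N : ℝ) ^ 2 + C' * (M : ℝ) ^ (-min η η') * (N : ℝ) ^ 2 := by
        gcongr
    _ = _ := by ring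

lemma PS2.biUnion {ι : Type*} (s : Finset ι) {S : ι → ℕ → ℕ → Finset (Fin 2 → ℤ)}
    (h : ∀ i ∈ s, PS2 (S i)) : PS2 (fun M N => s.biUnion (fun i => S i M N)) := by
  classical
  induction s using Finset.induction_on with
  | empty => exact ⟨1, 0, one_pos, le_rfl, fun M N _ _ => by simp⟩
  | insert i s hi ih =>
    have h1 := (h i (Finset.mem_insert_self i s)).union
      (ih (fun j hj => h j (Finset.mem_insert_of_mem hj)))
    simpa only [Finset.biUnion_insert] using h1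

/-- A saving of a power of `N` is a saving of a power of `M`. -/
lemma PSav.toPS2 {S : ℕ → Finset (Fin 2 → ℤ)} (h : PSav S) : PS2 (fun _ N => S N) := by
  obtain ⟨η, C, h1, h2, h3⟩ := h
  refine ⟨η, C, h1, h2, fun M N hM hN => (h3 N (hM.trans hN)).trans ?_⟩
  have hM0 : (0 : ℝ) < M := by exact_mod_cast hM
  have hMN : (M : ℝ) ≤ N := by exact_mod_cast hN
  have hN0 : (0 : ℝ) < N := hM0.trans_le hMN
  have h4 : (N : ℝ) ^ (2 - η) = (N : ℝ) ^ (-η) * (N : ℝ) ^ 2 := by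
    rw [sub_eq_add_neg, add_comm, Real.rpow_add hN0]
    norm_num
  rw [h4, ← mul_assoc]
  have h5 : (N : ℝ) ^ (-η) ≤ (M : ℝ) ^ (-η) :=
    Real.rpow_le_rpow_of_nonpos hM0 hMN (by linarith)
  gcongr

/-- The multiplicative form. -/
lemma PS2.of_nat {S : ℕ → ℕ → Finset (Fin 2 → ℤ)} {T C : ℕ} (hT : 1 ≤ T)
    (h : ∀ M N, 1 ≤ M → M ≤ N → (S M N).card ^ T * M ≤ C * N ^ (2 * T)) : PS2 S := by
  have hT0 : (0 : ℝ) < T := by exact_mod_cast hT
  refine ⟨1 / T, (C : ℝ) ^ ((1 : ℝ) / T), by positivity, by positivity, fun M N hM hN => ?_⟩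
  have hM0 : (0 : ℝ) < M := by exact_mod_cast hM
  have h1 : ((S M N).card : ℝ) ^ T * M ≤ C * (N : ℝ) ^ (2 * T) := by
    exact_mod_cast h M N hM hN
  have h2 : ((S M N).card : ℝ) ^ T ≤
      ((C : ℝ) ^ ((1 : ℝ) / T) * (M : ℝ) ^ (-(1 / (T : ℝ))) * (N : ℝ) ^ 2) ^ T := by
    rw [mul_pow, mul_pow, ← Real.rpow_natCast ((C : ℝ) ^ ((1 : ℝ) / T)),
      ← Real.rpow_mul (by positivity), one_div_mul_cancel hT0.ne', Real.rpow_one,
      ← Real.rpow_natCast ((M : ℝ) ^ _), ← Real.rpow_mul hM0.le]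
    have e : -(1 / (T : ℝ)) * T = -1 := by field_simp
    rw [e, Real.rpow_neg_one, ← pow_mul]
    have e2 : (C : ℝ) * (M : ℝ)⁻¹ * (N : ℝ) ^ (2 * T) = C * (N : ℝ) ^ (2 * T) / M := by
      field_simp
    rw [e2, le_div_iff₀ hM0]
    exact h1
  exact (pow_le_pow_iff_left₀ (by positivity) (by positivity) (by omega)).mp h2

/-- Divisibility by the power `l ^ lev B M` saves a power of `M`. -/
theorem PS2.dvd {l B : ℕ} (hl : l.Prime) (hlB : l ≤ B) {F : MvPolynomial (Fin 2) ℤ}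
    (hF : F ≠ 0) :
    PS2 (fun M N => (box 2 N).filter (fun z => (l : ℤ) ^ lev B M ∣ MvPolynomial.eval z F)) := by
  classical
  obtain ⟨A, κ, f, hA⟩ := card_dvd_lin hl 2 F hF
  have hB2 : 2 ≤ B := hl.two_le.trans hlB
  have hB : B ≤ 2 ^ B := Nat.lt_two_pow_self.le
  set T := (f + 1) * B with hT
  have hT1 : 1 ≤ T := Nat.mul_pos (by omega) (by omega)
  refine PS2.of_nat (T := T) (C := (A + 9) ^ T * 2 ^ (B * (κ + f + 2))) hT1
    fun M N hM hMN => ?_
  have hN : 1 ≤ N := hM.trans hMN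
  set h := lev B M with hh
  set S := (box 2 N).filter (fun z => (l : ℤ) ^ h ∣ MvPolynomial.eval z F) with hS
  have hlt : M < 2 ^ (B * (h + 1)) := by
    calc M < B ^ (h + 1) := lev_lt hB2
      _ ≤ (2 ^ B) ^ (h + 1) := Nat.pow_le_pow_left hB _
      _ = _ := by rw [← pow_mul]
  rcases Nat.lt_or_ge h κ with hc | hc
  · -- small level: trivial bound
    have h1 : S.card ≤ 9 * N ^ 2 := by
      calc S.card ≤ (box 2 N).card := Finset.card_filter_le _ _
        _ = (2 * N + 1) ^ 2 := card_box 2 N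
        _ ≤ (3 * N) ^ 2 := Nat.pow_le_pow_left (by omega) 2
        _ = 9 * N ^ 2 := by ring
    have h2 : M ≤ 2 ^ (B * (κ + f + 2)) :=
      hlt.le.trans (Nat.pow_le_pow_right (by omega) (Nat.mul_le_mul_left _ (by omega)))
    calc S.card ^ T * M ≤ (9 * N ^ 2) ^ T * 2 ^ (B * (κ + f + 2)) :=
          Nat.mul_le_mul (Nat.pow_le_pow_left h1 _) h2
      _ ≤ ((A + 9) * N ^ 2) ^ T * 2 ^ (B * (κ + f + 2)) := by gcongr; omega
      _ = _ := by rw [mul_pow, ← pow_mul]; ring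
  · obtain ⟨j, hj⟩ : ∃ j, j = (h - κ) / (f + 1) := ⟨_, rfl⟩
    have hj1 : (f + 1) * j ≤ h - κ := by rw [hj]; exact Nat.mul_div_le _ _
    have hj2 : h - κ < (f + 1) * (j + 1) := by rw [hj]; exact Nat.lt_mul_div_succ _ (by omega)
    have hj3 : (f + 1) * j = j * f + j := by ring
    have hj4 : j * f + j ≤ h - κ := hj3 ▸ hj1
    have hle : κ + j * f ≤ h := by omega
    have hjh : j ≤ h := by omega
    have hlj : l ^ j ≤ N :=
      (((Nat.pow_le_pow_left hlB j).trans (Nat.pow_le_pow_right (by omega) hjh)).trans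
        (pow_lev_le hM)).trans hMN
    have h1 := hA j N hlj
    have h2 : S.card ≤ ((box 2 N).filter
        (fun z => (l : ℤ) ^ (κ + j * f) ∣ MvPolynomial.eval z F)).card := by
      apply Finset.card_le_card
      intro z hz
      rw [hS, Finset.mem_filter] at hz
      rw [Finset.mem_filter]
      exact ⟨hz.1, (pow_dvd_pow _ hle).trans hz.2⟩
    have h3 : S.card * 2 ^ j ≤ A * N ^ 2 :=
      (Nat.mul_le_mul h2 (Nat.pow_le_pow_left hl.two_le j)).trans h1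
    have h4 : M ≤ (2 ^ j) ^ T * 2 ^ (B * (κ + f + 2)) := by
      rw [← pow_mul, ← pow_add]
      refine hlt.le.trans (Nat.pow_le_pow_right (by omega) ?_)
      have h5 : h + 1 ≤ j * (f + 1) + (κ + f + 2) := by
        have h6 : (f + 1) * (j + 1) = j * (f + 1) + (f + 1) := by ring
        rw [h6] at hj2
        omega
      calc B * (h + 1) ≤ B * (j * (f + 1) + (κ + f + 2)) := Nat.mul_le_mul_left _ h5
        _ = j * T + B * (κ + f + 2) := by rw [hT]; ring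
    calc S.card ^ T * M ≤ S.card ^ T * ((2 ^ j) ^ T * 2 ^ (B * (κ + f + 2))) :=
          Nat.mul_le_mul_left _ h4
      _ = (S.card * 2 ^ j) ^ T * 2 ^ (B * (κ + f + 2)) := by rw [mul_pow]; ring
      _ ≤ (A * N ^ 2) ^ T * 2 ^ (B * (κ + f + 2)) := by gcongr
      _ ≤ ((A + 9) * N ^ 2) ^ T * 2 ^ (B * (κ + f + 2)) := by gcongr; omega
      _ = _ := by rw [mul_pow, ← pow_mul]; ring

end Pool.Agent.Lib.MP_3550b5_nt
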