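import Mathlib
import Pool.Agent.Lib.MP_3550b5_nt.SFinal2
import Pool.Agent.Lib.MP_3550b5_nt.UCount
import Pool.Agent.Lib.MP_3550b5_nt.UPs

namespace Pool.Agent.Lib.MP_3550b5_nt

open MvPolynomial

lemma log_bound_one (C e N : ℕ) :
    Nat.log 2 (C * N ^ e) + 1 ≤ (C + e + 2) * (Nat.log 2 N + 1) := by
  have h1 := log_bound_u C e N 1 le_rfl
  have h2 : C * N ^ e ≤ ((C + 1) * N ^ e) ^ (1 ^ 2) := by
    rw [one_pow, pow_one]; gcongr; omega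
  calc Nat.log 2 (C * N ^ e) + 1 ≤ Nat.log 2 (((C + 1) * N ^ e) ^ (1 ^ 2)) + 1 := by
        have := Nat.log_mono_right (b := 2) h2
        omega
    _ ≤ _ := h1
    _ = _ := by ring

/-- Torsion fibres save a power. -/
lemma psav_torsion {d : ℕ} {a b : MvPolynomial (Fin 2) ℤ} {w : ℕ}
    {X Y W : MvPolynomial (Fin 2) ℤ} (h : SecForm d a b w X Y W)
    (ha : a.IsWeightedHomogeneous 1 (4 * d))
    (hd : 1 ≤ d) {R : ℤ} (hR : R ≠ 0) (hcommon : ∀ z : Fin 2 → ℤ, IsCoprime (z 0) (z 1) →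
      ∀ D : ℤ, D ∣ 2 * eval z Y → D ∣ 3 * eval z X ^ 2 + eval z a * eval z W ^ 4 → D ∣ R)
    (S : ℕ → Finset (Fin 2 → ℤ)) (hS : ∀ N, ∀ z ∈ S N, z ∈ box 2 N ∧
      IsCoprime (z 0) (z 1) ∧ ∃ P : (curve (eval z a) (eval z b)).Point,
        IsRep (eval z a) (eval z b) (eval z X) (eval z Y) (eval z W) P ∧ IsOfFinAddOrder P) :
    PSav S := by
  obtain ⟨C, e, hC⟩ := torsion_count h ha hd hR hcommon
  set k := R.natAbs.primeFactors.card with hk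
  obtain ⟨C₁, hC₁, hL⟩ := log_pow_le k (δ := 1 / 2) (by norm_num)
  refine ⟨1 / 2, 27 * ((d : ℝ) + w) * ((C + e + 2 : ℕ) : ℝ) ^ k * C₁, by norm_num, by positivity,
    fun N hN => ?_⟩
  have h2 := hC N hN (S N) (hS N)
  have hNR : (1 : ℝ) ≤ N := by exact_mod_cast hN
  have hN0 : (0 : ℝ) < N := by linarith
  have h3 : (S N).card ≤ 27 * (d + w) * N * ((C + e + 2) * (Nat.log 2 N + 1)) ^ k := by
    refine h2.trans ?_
    have h4 : (Nat.log 2 (C * N ^ e) + 1) ^ k ≤ ((C + e + 2) * (Nat.log 2 N + 1)) ^ k :=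
      Nat.pow_le_pow_left (log_bound_one C e N) k
    have h5 : 1 ≤ ((C + e + 2) * (Nat.log 2 N + 1)) ^ k :=
      Nat.one_le_pow _ _ (Nat.mul_pos (by omega) (by omega))
    calc 3 * (d + w) * (2 * N + 1) * (2 * (Nat.log 2 (C * N ^ e) + 1) ^ k + 1)
        ≤ 3 * (d + w) * (3 * N) * (3 * ((C + e + 2) * (Nat.log 2 N + 1)) ^ k) := by
          apply Nat.mul_le_mul
          · apply Nat.mul_le_mul_left; omega
          · omega
      _ = _ := by ring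
  have h4 : ((S N).card : ℝ) ≤ 27 * ((d : ℝ) + w) * N *
      (((C + e + 2 : ℕ) : ℝ) * ((Nat.log 2 N : ℝ) + 1)) ^ k := by exact_mod_cast h3
  refine h4.trans ?_
  rw [mul_pow]
  have h5 : (N : ℝ) ^ (2 - (1 : ℝ) / 2) = N * (N : ℝ) ^ ((1 : ℝ) / 2) := by
    rw [show (2 - (1 : ℝ) / 2) = 1 + 1 / 2 by norm_num, Real.rpow_add hN0, Real.rpow_one]
  rw [h5]
  calc 27 * ((d : ℝ) + w) * N * (((C + e + 2 : ℕ) : ℝ) ^ k * ((Nat.log 2 N : ℝ) + 1) ^ k)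
      = 27 * ((d : ℝ) + w) * ((C + e + 2 : ℕ) : ℝ) ^ k * N * ((Nat.log 2 N : ℝ) + 1) ^ k := by
        ring
    _ ≤ 27 * ((d : ℝ) + w) * ((C + e + 2 : ℕ) : ℝ) ^ k * N * (C₁ * (N : ℝ) ^ ((1 : ℝ) / 2)) := by
        gcongr
        exact hL N hN
    _ = _ := by ring

lemma GoodInf.mono {p : ℕ} [hp : Fact p.Prime] {r : ℕ} {v : ℚ_[p]} {K K' : ℕ}
    {a b : MvPolynomial (Fin 2) ℤ} {X Y W : Fin r → Fin r → MvPolynomial (Fin 2) ℤ}
    {z : Fin 2 → ℤ} (hK : K' ≤ K) (h : GoodInf p v K a b X Y W z) :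
    GoodInf p v K' a b X Y W z := by
  obtain ⟨h1, P, B, h2, h3, h4⟩ := h
  refine ⟨h1, P, B, h2, h3.trans ?_, h4⟩
  have hp1 : (1 : ℝ) ≤ p := by exact_mod_cast hp.out.one_lt.le
  exact zpow_le_zpow_right₀ hp1 (by omega)

/-- The real estimate for one prime. -/
lemma one_prime_bound {r A C e : ℕ} (hr : 1 ≤ r) {η : ℝ}
    (hη : (e : ℝ) * η ≤ 1 / 4) {N M p H c : ℕ} (hM : 1 ≤ M)
    (hp : (p : ℝ) ≤ (M : ℝ) ^ η) (hH : H ^ (4 * (A + 1)) ≤ M)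
    (hc : c ^ r * M ≤ C * N ^ (2 * r) * p ^ e * H ^ A) :
    (c : ℝ) ≤ (C : ℝ) ^ ((1 : ℝ) / r) * (M : ℝ) ^ (-(1 / (2 * r : ℝ))) * (N : ℝ) ^ 2 := by
  have hMR : (1 : ℝ) ≤ M := by exact_mod_cast hM
  have hM0 : (0 : ℝ) < M := by linarith
  have hr0 : (0 : ℝ) < r := by exact_mod_cast (by omega : 0 < r)
  -- the factors
  have k1 : (p : ℝ) ^ e ≤ (M : ℝ) ^ ((1 : ℝ) / 4) := by
    calc (p : ℝ) ^ e ≤ ((M : ℝ) ^ η) ^ e := by gcongr
      _ = (M : ℝ) ^ (η * e) := by rw [← Real.rpow_natCast, ← Real.rpow_mul hM0.le]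
      _ ≤ _ := Real.rpow_le_rpow_of_exponent_le hMR (by linarith)
  have k2 : (H : ℝ) ^ A ≤ (M : ℝ) ^ ((1 : ℝ) / 4) := by
    have h1 : ((H : ℝ) ^ A) ^ 4 ≤ M := by
      rcases Nat.eq_zero_or_pos H with h0 | hpos
      · subst h0
        rcases Nat.eq_zero_or_pos A with hA | hA
        · subst hA; simpa using hMR
        · rw [Nat.cast_zero, zero_pow (by omega), zero_pow (by norm_num)]; exact hM0.le
      · rw [← pow_mul]
        have h2 : H ^ (A * 4) ≤ H ^ (4 * (A + 1)) := Nat.pow_le_pow_right hpos (by omega)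
        exact_mod_cast h2.trans hH
    have h3 : ((H : ℝ) ^ A) = (((H : ℝ) ^ A) ^ 4) ^ ((1 : ℝ) / 4) := by
      rw [← Real.rpow_natCast ((H : ℝ) ^ A) 4, ← Real.rpow_mul (by positivity)]
      norm_num
    rw [h3]
    exact Real.rpow_le_rpow (by positivity) h1 (by norm_num)
  have hcR : (c : ℝ) ^ r * M ≤ C * (N : ℝ) ^ (2 * r) * (p : ℝ) ^ e * (H : ℝ) ^ A := by
    exact_mod_cast hc
  have k4 : (c : ℝ) ^ r * M ≤ C * (N : ℝ) ^ (2 * r) * (M : ℝ) ^ ((1 : ℝ) / 2) := by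
    have e1 : (M : ℝ) ^ ((1 : ℝ) / 4) * (M : ℝ) ^ ((1 : ℝ) / 4) = (M : ℝ) ^ ((1 : ℝ) / 2) := by
      rw [← Real.rpow_add hM0]
      norm_num
    calc (c : ℝ) ^ r * M ≤ C * (N : ℝ) ^ (2 * r) * (p : ℝ) ^ e * (H : ℝ) ^ A := hcR
      _ ≤ C * (N : ℝ) ^ (2 * r) * (M : ℝ) ^ ((1 : ℝ) / 4) * (M : ℝ) ^ ((1 : ℝ) / 4) := by gcongr
      _ = _ := by rw [mul_assoc, e1]
  have k5 : (c : ℝ) ^ r ≤ ((C : ℝ) ^ ((1 : ℝ) / r) * (M : ℝ) ^ (-(1 / (2 * r : ℝ))) *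
      (N : ℝ) ^ 2) ^ r := by
    rw [mul_pow, mul_pow, ← Real.rpow_natCast ((C : ℝ) ^ ((1 : ℝ) / r)),
      ← Real.rpow_mul (by positivity), one_div_mul_cancel hr0.ne', Real.rpow_one,
      ← Real.rpow_natCast ((M : ℝ) ^ _), ← Real.rpow_mul hM0.le, ← pow_mul]
    have e2 : -(1 / (2 * r : ℝ)) * r = 1 / 2 - 1 := by
      field_simp; norm_num
    rw [e2, Real.rpow_sub hM0, Real.rpow_one]
    have e3 : (C : ℝ) * ((M : ℝ) ^ ((1 : ℝ) / 2) / M) * (N : ℝ) ^ (2 * r) =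
        C * (N : ℝ) ^ (2 * r) * (M : ℝ) ^ ((1 : ℝ) / 2) / M := by
      ring
    rw [e3, le_div_iff₀ hM0]
    exact k4
  exact (pow_le_pow_iff_left₀ (by positivity) (by positivity) (by omega)).mp k5

/-- The good fibres, for all small primes at once. -/
theorem good_part {r : ℕ} (hr : 1 ≤ r) {d : ℕ}
    {a b : MvPolynomial (Fin 2) ℤ} (ha : a.IsWeightedHomogeneous 1 (4 * d))
    (hb : b.IsWeightedHomogeneous 1 (6 * d)) {w : Fin r → Fin r → ℕ}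
    {X Y W : Fin r → Fin r → MvPolynomial (Fin 2) ℤ}
    (hS : ∀ i j, i ≤ j → SecForm d a b (w i j) (X i j) (Y i j) (W i j))
    (hdet : (heightMatrix d w).det ≠ 0) {R : ℤ} (hR : R ≠ 0)
    (hcommon : ∀ i j, i ≤ j → ∀ z : Fin 2 → ℤ, IsCoprime (z 0) (z 1) → ∀ D : ℤ,
      D ∣ 2 * eval z (Y i j) →
      D ∣ 3 * eval z (X i j) ^ 2 + eval z a * eval z (W i j) ^ 4 → D ∣ R) :
    ∃ (η C : ℝ) (β : ℕ), 0 < η ∧ 0 ≤ C ∧ R.natAbs + 2 ≤ β ∧ ∀ M N : ℕ, 1 ≤ M → M ≤ N →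
      ∀ v : (p : ℕ) → [Fact p.Prime] → ℚ_[p], ∀ E : Finset (Fin 2 → ℤ),
      (∀ z ∈ E, z ∈ box 2 N ∧ IsCoprime (z 0) (z 1) ∧
        (∃ (p : ℕ) (_ : Fact p.Prime) (K : ℕ), 5 ≤ p ∧ (p : ℝ) ≤ (M : ℝ) ^ η ∧ M ≤ p ^ K ∧
          GoodInf p (v p) K a b X Y W z) ∧
        ∀ l : ℕ, l.Prime → (l : ℤ) ∣ R →
          ¬ (l : ℤ) ^ lev β M ∣ 4 * (4 * eval z a ^ 3 + 27 * eval z b ^ 2)) →
      (E.card : ℝ) ≤ C * (M : ℝ) ^ (-η) * (N : ℝ) ^ 2 := by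
  classical
  obtain ⟨C, e, A, hcount⟩ := good_count_w hr ha hb hS hdet hR hcommon
  have hr0 : (0 : ℝ) < r := by exact_mod_cast (by omega : 0 < r)
  set ρ := R.natAbs with hρ
  set η : ℝ := min (1 / (4 * (e + 1))) (1 / (4 * r)) with hη
  have hη0 : 0 < η := lt_min (by positivity) (by positivity)
  have hηe : (e : ℝ) * η ≤ 1 / 4 := by
    have h1 : η ≤ 1 / (4 * (e + 1)) := min_le_left _ _
    calc (e : ℝ) * η ≤ e * (1 / (4 * (e + 1))) := by gcongr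
      _ ≤ 1 / 4 := by
          rw [mul_one_div, div_le_div_iff₀ (by positivity) (by norm_num)]
          nlinarith
  have hηr : η ≤ 1 / (4 * r) := min_le_right _ _
  set C' : ℝ := (C : ℝ) ^ ((1 : ℝ) / r) with hC'
  have hC'0 : 0 ≤ C' := by positivity
  have hβ : ρ + 2 ≤ (ρ + 2) ^ (4 * (A + 1)) := Nat.le_self_pow (by omega) _
  refine ⟨η, C', (ρ + 2) ^ (4 * (A + 1)), hη0, hC'0, hβ, fun M N hM hMN v E hE => ?_⟩
  set β := (ρ + 2) ^ (4 * (A + 1)) with hβdef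
  have hMR : (1 : ℝ) ≤ M := by exact_mod_cast hM
  have hM0 : (0 : ℝ) < M := by linarith
  have hH : ((ρ + 1) ^ lev β M) ^ (4 * (A + 1)) ≤ M := by
    calc ((ρ + 1) ^ lev β M) ^ (4 * (A + 1)) = ((ρ + 1) ^ (4 * (A + 1))) ^ lev β M := by
          rw [← pow_mul, ← pow_mul, Nat.mul_comm]
      _ ≤ β ^ lev β M := Nat.pow_le_pow_left (Nat.pow_le_pow_left (by omega) _) _
      _ ≤ M := pow_lev_le hM
  set S : ℕ → Finset (Fin 2 → ℤ) := fun p => E.filter (fun z => ∃ (_ : Fact p.Prime) (K : ℕ),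
    5 ≤ p ∧ (p : ℝ) ≤ (M : ℝ) ^ η ∧ M ≤ p ^ K ∧ GoodInf p (v p) K a b X Y W z) with hSdef
  have hcov : E ⊆ (Finset.Icc 1 ⌊(M : ℝ) ^ η⌋₊).biUnion S := by
    intro z hz
    obtain ⟨-, -, ⟨p, hp, K, h5, hpM, hK, hgood⟩, -⟩ := hE z hz
    rw [Finset.mem_biUnion]
    refine ⟨p, Finset.mem_Icc.mpr ⟨by omega, Nat.le_floor hpM⟩, ?_⟩
    rw [hSdef]
    exact Finset.mem_filter.mpr ⟨hz, hp, K, h5, hpM, hK, hgood⟩
  have hone : ∀ p : ℕ, ((S p).card : ℝ) ≤ C' * (M : ℝ) ^ (-(1 / (2 * r : ℝ))) * (N : ℝ) ^ 2 := by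
    intro p
    rcases (S p).eq_empty_or_nonempty with hemp | ⟨z₀, hz₀⟩
    · rw [hemp, Finset.card_empty, Nat.cast_zero]; positivity
    · have hz₀' := hz₀
      rw [hSdef, Finset.mem_filter] at hz₀'
      obtain ⟨-, hp, K₀, h5, hpM, -, -⟩ := hz₀'
      refine one_prime_bound hr hηe hM hpM hH (hcount p hp h5 (v p) (Nat.clog p M) N M
        (lev β M) hM hMN (Nat.le_pow_clog hp.out.one_lt M) (S p) fun z hz => ?_)
      rw [hSdef, Finset.mem_filter] at hz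
      obtain ⟨hzE, _, K, -, -, hK, hgood⟩ := hz
      obtain ⟨k1, k2, -, k4⟩ := hE z hzE
      refine ⟨k1, k2, hgood.mono ?_, k4⟩
      exact Nat.clog_le_of_le_pow hK
  have h1 : (E.card : ℝ) ≤ ∑ p ∈ Finset.Icc 1 ⌊(M : ℝ) ^ η⌋₊, ((S p).card : ℝ) := by
    exact_mod_cast (Finset.card_le_card hcov).trans Finset.card_biUnion_le
  refine h1.trans ((Finset.sum_le_sum fun p _ => hone p).trans ?_)
  rw [Finset.sum_const, Nat.card_Icc, Nat.add_sub_cancel, nsmul_eq_mul]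
  calc (⌊(M : ℝ) ^ η⌋₊ : ℝ) * (C' * (M : ℝ) ^ (-(1 / (2 * r : ℝ))) * (N : ℝ) ^ 2)
      ≤ (M : ℝ) ^ η * (C' * (M : ℝ) ^ (-(1 / (2 * r : ℝ))) * (N : ℝ) ^ 2) := by
        gcongr
        exact Nat.floor_le (by positivity)
    _ = C' * (M : ℝ) ^ (η + -(1 / (2 * r : ℝ))) * (N : ℝ) ^ 2 := by
        rw [Real.rpow_add hM0]; ring
    _ ≤ C' * (M : ℝ) ^ (-η) * (N : ℝ) ^ 2 := by
        apply mul_le_mul_of_nonneg_right _ (by positivity)
        apply mul_le_mul_of_nonneg_left _ hC'0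
        apply Real.rpow_le_rpow_of_exponent_le hMR
        have : 1 / (2 * r : ℝ) = 2 * (1 / (4 * r)) := by field_simp; norm_num
        rw [this]
        linarith

/-- A common multiple of the possible common divisors. -/
lemma exists_common {r d : ℕ} {a b : MvPolynomial (Fin 2) ℤ} (ha : a.IsWeightedHomogeneous 1 (4 * d))
    {w : Fin r → Fin r → ℕ} {X Y W : Fin r → Fin r → MvPolynomial (Fin 2) ℤ}
    (hS : ∀ i j, i ≤ j → SecForm d a b (w i j) (X i j) (Y i j) (W i j)) :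
    ∃ R : ℤ, R ≠ 0 ∧ ∀ i j, i ≤ j → ∀ z : Fin 2 → ℤ, IsCoprime (z 0) (z 1) → ∀ D : ℤ,
      D ∣ 2 * eval z (Y i j) →
      D ∣ 3 * eval z (X i j) ^ 2 + eval z a * eval z (W i j) ^ 4 → D ∣ R := by
  classical
  have hcom : ∀ i j, ∃ R : ℤ, R ≠ 0 ∧ (i ≤ j → ∀ z : Fin 2 → ℤ, IsCoprime (z 0) (z 1) →
      ∀ D : ℤ, D ∣ 2 * eval z (Y i j) →
      D ∣ 3 * eval z (X i j) ^ 2 + eval z a * eval z (W i j) ^ 4 → D ∣ R) := by
    intro i j
    by_cases hij : i ≤ j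
    · obtain ⟨R, hR, hR2⟩ := (hS i j hij).common ha
      exact ⟨R, hR, fun _ => hR2⟩
    · exact ⟨1, one_ne_zero, fun h => absurd h hij⟩
  choose R₀ hR₀ hR₀c using hcom
  refine ⟨∏ i, ∏ j, R₀ i j, Finset.prod_ne_zero_iff.mpr fun i _ =>
    Finset.prod_ne_zero_iff.mpr fun j _ => hR₀ i j, ?_⟩
  intro i j hij z hz D h1 h2
  refine (hR₀c i j hij z hz D h1 h2).trans ?_
  exact (Finset.dvd_prod_of_mem (fun j => R₀ i j) (Finset.mem_univ j)).trans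
    (Finset.dvd_prod_of_mem (fun i => ∏ j, R₀ i j) (Finset.mem_univ i))

/-- The polynomial of the fibres to be removed. -/
lemma exists_zeroPoly {r d : ℕ} {a b : MvPolynomial (Fin 2) ℤ}
    {w : Fin r → Fin r → ℕ} {X Y W : Fin r → Fin r → MvPolynomial (Fin 2) ℤ}
    (hS : ∀ i j, i ≤ j → SecForm d a b (w i j) (X i j) (Y i j) (W i j))
    (H : Fin r → Fin r → MvPolynomial (Fin 2) ℤ) (hH0 : ∀ i j, i < j → H i j ≠ 0) :
    ∃ Z : MvPolynomial (Fin 2) ℤ, Z ≠ 0 ∧ ∀ z : Fin 2 → ℤ, eval z Z ≠ 0 →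
      (∀ i j, i ≤ j → eval z (W i j) ≠ 0) ∧ ∀ i j, i < j → eval z (H i j) ≠ 0 := by
  classical
  refine ⟨∏ i, ∏ j, (if i ≤ j then W i j * (if i < j then H i j else 1) else 1), ?_, ?_⟩
  · refine Finset.prod_ne_zero_iff.mpr fun i _ => Finset.prod_ne_zero_iff.mpr fun j _ => ?_
    split_ifs with h1 h2
    · exact mul_ne_zero (hS i j h1).W_ne (hH0 i j h2)
    · exact mul_ne_zero (hS i j h1).W_ne one_ne_zero
    · exact one_ne_zero
  · intro z hz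
    rw [map_prod] at hz
    have h1 := fun i => Finset.prod_ne_zero_iff.mp hz i (Finset.mem_univ i)
    have h2 : ∀ i j, eval z (if i ≤ j then W i j * (if i < j then H i j else 1) else 1) ≠ 0 := by
      intro i j
      have := h1 i
      rw [map_prod] at this
      exact Finset.prod_ne_zero_iff.mp this j (Finset.mem_univ j)
    constructor
    · intro i j hij h0
      have := h2 i j
      rw [if_pos hij, map_mul, h0, zero_mul] at this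
      exact this rfl
    · intro i j hij h0
      have := h2 i j
      rw [if_pos hij.le, if_pos hij, map_mul, h0, mul_zero] at this
      exact this rfl

lemma pair_mem_box {N : ℕ} {t : ℚ} (h1 : |t.num| ≤ N) (h2 : (t.den : ℤ) ≤ N) :
    pair t ∈ box 2 N := by
  rw [mem_box]
  intro i
  fin_cases i
  · exact h1
  · simp only [pair, Fin.mk_one, Matrix.cons_val_one]
    have : |(t.den : ℤ)| = t.den := abs_of_nonneg (by positivity)
    simpa [this] using h2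

/-- Small balls for the regulators of the fibres, at all small primes. -/
theorem fibres_uniform {r : ℕ} (hr : 1 ≤ r) {d : ℕ} (hd : 1 ≤ d)
    {a b : MvPolynomial (Fin 2) ℤ} (ha : a.IsWeightedHomogeneous 1 (4 * d))
    (hb : b.IsWeightedHomogeneous 1 (6 * d)) (hΔ : 4 * a ^ 3 + 27 * b ^ 2 ≠ 0)
    {w : Fin r → Fin r → ℕ} {X Y W : Fin r → Fin r → MvPolynomial (Fin 2) ℤ}
    (hS : ∀ i j, i ≤ j → SecForm d a b (w i j) (X i j) (Y i j) (W i j))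
    (hdet : (heightMatrix d w).det ≠ 0)
    (H : Fin r → Fin r → MvPolynomial (Fin 2) ℤ) (hH0 : ∀ i j, i < j → H i j ≠ 0)
    (hH : ∀ i j, i < j → ∀ z : Fin 2 → ℤ, eval z (H i j) ≠ 0 → eval z (W i i) ≠ 0 →
      eval z (W j j) ≠ 0 → eval z (W i j) ≠ 0 →
      SubRel (((eval z a : ℤ) : ℚ)) (((eval z (X i i) : ℤ) : ℚ) / ((eval z (W i i) : ℤ) : ℚ) ^ 2)
        (((eval z (Y i i) : ℤ) : ℚ) / ((eval z (W i i) : ℤ) : ℚ) ^ 3)
        (((eval z (X j j) : ℤ) : ℚ) / ((eval z (W j j) : ℤ) : ℚ) ^ 2)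
        (((eval z (Y j j) : ℤ) : ℚ) / ((eval z (W j j) : ℤ) : ℚ) ^ 3)
        (((eval z (X i j) : ℤ) : ℚ) / ((eval z (W i j) : ℤ) : ℚ) ^ 2)
        (((eval z (Y i j) : ℤ) : ℚ) / ((eval z (W i j) : ℤ) : ℚ) ^ 3)) :
    ∃ η C : ℝ, 0 < η ∧ ∀ M N : ℕ, 1 ≤ M → M ≤ N → ∀ v : (p : ℕ) → [Fact p.Prime] → ℚ_[p],
      (({t : ℚ | |t.num| ≤ N ∧ (t.den : ℤ) ≤ N ∧
        ∃ (p : ℕ) (_ : Fact p.Prime) (K : ℕ), 5 ≤ p ∧ (p : ℝ) ≤ (M : ℝ) ^ η ∧ M ≤ p ^ K ∧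
        FibreNear p (v p) K a b (fun i => X i i) (fun i => Y i i) (fun i => W i i) t}.ncard : ℕ) :
          ℝ) ≤ C * (M : ℝ) ^ (-η) * (N : ℝ) ^ 2 := by
  classical
  obtain ⟨R, hR0, hcommon⟩ := exists_common ha hS
  obtain ⟨Z, hZ0, hZf⟩ := exists_zeroPoly hS H hH0
  obtain ⟨η₀, C₀, β, hη₀, hC₀, hβ, hgood⟩ := good_part hr ha hb hS hdet hR0 hcommon
  have hD0 : (4 * (4 * a ^ 3 + 27 * b ^ 2) : MvPolynomial (Fin 2) ℤ) ≠ 0 :=
    mul_ne_zero (by norm_num) hΔ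
  set 𝓛 := R.natAbs.primeFactors with h𝓛
  have hmem𝓛 : ∀ l : ℕ, l.Prime → (l : ℤ) ∣ R → l ∈ 𝓛 := fun l hl hd => by
    rw [h𝓛, Nat.mem_primeFactors]
    exact ⟨hl, Int.natCast_dvd.mp hd, Int.natAbs_ne_zero.mpr hR0⟩
  have hle𝓛 : ∀ l ∈ 𝓛, l ≤ β := fun l hl => by
    have := Nat.le_of_mem_primeFactors hl
    omega
  -- the exceptional sets which do not depend on `p`
  set S1 : ℕ → ℕ → Finset (Fin 2 → ℤ) := fun _ N => (box 2 N).filter (fun z => eval z Z = 0)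
    with hS1
  have h1 : PS2 S1 := (PSav.zeros hZ0).toPS2
  set S2 : ℕ → ℕ → Finset (Fin 2 → ℤ) := fun M N => 𝓛.biUnion (fun l => (box 2 N).filter
    (fun z => (l : ℤ) ^ lev β M ∣ eval z (4 * (4 * a ^ 3 + 27 * b ^ 2)))) with hS2
  have h2 : PS2 S2 := PS2.biUnion 𝓛 fun l hl =>
    PS2.dvd (Nat.prime_of_mem_primeFactors hl) (hle𝓛 l hl) hD0
  set E3 : Fin r → Fin r → ℕ → Finset (Fin 2 → ℤ) := fun i j N => (box 2 N).filter
    (fun z => IsCoprime (z 0) (z 1) ∧ i ≤ j ∧ ∃ P : (curve (eval z a) (eval z b)).Point,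
        IsRep (eval z a) (eval z b) (eval z (X i j)) (eval z (Y i j)) (eval z (W i j)) P ∧
          IsOfFinAddOrder P) with hE3def
  set S3 : ℕ → ℕ → Finset (Fin 2 → ℤ) := fun _ N =>
    (Finset.univ : Finset (Fin r × Fin r)).biUnion (fun ij => E3 ij.1 ij.2 N) with hS3
  have h3 : PS2 S3 := by
    refine PSav.toPS2 (S := fun N => (Finset.univ : Finset (Fin r × Fin r)).biUnion
      (fun ij => E3 ij.1 ij.2 N)) (PSav.biUnion Finset.univ fun ij _ => ?_)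
    obtain ⟨i, j⟩ := ij
    by_cases hij : i ≤ j
    · apply psav_torsion (hS i j hij) ha hd hR0 (hcommon i j hij)
      intro N z hz
      simp only [hE3def, Finset.mem_filter] at hz
      exact ⟨hz.1, hz.2.1, hz.2.2.2⟩
    · refine PSav.empty.mono fun N _ => ?_
      rw [Finset.card_empty, Nat.le_zero, Finset.card_eq_zero]
      simp only [hE3def]
      apply Finset.filter_eq_empty_iff.mpr
      rintro z - ⟨-, h, -⟩
      exact hij h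
  obtain ⟨η₁, C₁, hη₁, hC₁, hS123⟩ := (h1.union h2).union h3
  refine ⟨min η₀ η₁, C₁ + C₀, lt_min hη₀ hη₁, fun M N hM hMN v => ?_⟩
  have hMR : (1 : ℝ) ≤ M := by exact_mod_cast hM
  set E4 : Finset (Fin 2 → ℤ) := (box 2 N).filter (fun z => IsCoprime (z 0) (z 1) ∧
    (∃ (p : ℕ) (_ : Fact p.Prime) (K : ℕ), 5 ≤ p ∧ (p : ℝ) ≤ (M : ℝ) ^ η₀ ∧ M ≤ p ^ K ∧
          GoodInf p (v p) K a b X Y W z) ∧
        ∀ l : ℕ, l.Prime → (l : ℤ) ∣ R →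
          ¬ (l : ℤ) ^ lev β M ∣ 4 * (4 * eval z a ^ 3 + 27 * eval z b ^ 2)) with hE4
  have h4 := hgood M N hM hMN v E4 fun z hz => by
    rw [hE4, Finset.mem_filter] at hz
    exact hz
  set U : Finset (Fin 2 → ℤ) := ((S1 M N ∪ S2 M N) ∪ S3 M N) ∪ E4 with hU
  have hmaps : ∀ t ∈ {t : ℚ | |t.num| ≤ N ∧ (t.den : ℤ) ≤ N ∧
      ∃ (p : ℕ) (_ : Fact p.Prime) (K : ℕ), 5 ≤ p ∧ (p : ℝ) ≤ (M : ℝ) ^ (min η₀ η₁) ∧
        M ≤ p ^ K ∧
      FibreNear p (v p) K a b (fun i => X i i) (fun i => Y i i) (fun i => W i i) t}, pair t ∈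
        (U : Set (Fin 2 → ℤ)) := by
    rintro t ⟨ht1, ht2, p, hp, K, h5, hpM, hK, ht3⟩
    have hbox := pair_mem_box ht1 ht2
    have hco := pair_coprime t
    rw [Finset.mem_coe, hU, Finset.mem_union, Finset.mem_union, Finset.mem_union]
    by_cases c1 : eval (pair t) Z = 0
    · exact Or.inl (Or.inl (Or.inl (Finset.mem_filter.mpr ⟨hbox, c1⟩)))
    by_cases c2 : ∃ l ∈ 𝓛, (l : ℤ) ^ lev β M ∣ eval (pair t) (4 * (4 * a ^ 3 + 27 * b ^ 2))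
    · obtain ⟨l, hl, hd⟩ := c2
      refine Or.inl (Or.inl (Or.inr ?_))
      rw [hS2, Finset.mem_biUnion]
      exact ⟨l, hl, Finset.mem_filter.mpr ⟨hbox, hd⟩⟩
    obtain ⟨c3, c4⟩ := hZf _ c1
    rcases fibre_cases hS H hH ht3 c3 c4 with ⟨i, j, hij, P, hP, htor⟩ | hgood'
    · refine Or.inl (Or.inr ?_)
      rw [hS3, Finset.mem_biUnion]
      refine ⟨(i, j), Finset.mem_univ _, ?_⟩
      exact Finset.mem_filter.mpr ⟨hbox, hco, hij, P, hP, htor⟩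
    · right
      rw [hE4, Finset.mem_filter]
      refine ⟨hbox, hco, ⟨p, hp, K, h5, hpM.trans ?_, hK, hgood'⟩, fun l hl hlR hd => ?_⟩
      · exact Real.rpow_le_rpow_of_exponent_le hMR (min_le_left _ _)
      · apply c2
        refine ⟨l, hmem𝓛 l hl hlR, ?_⟩
        simpa only [map_mul, map_add, map_pow, map_ofNat] using hd
  have hcard := Set.ncard_le_ncard_of_injOn pair hmaps pair_injective.injOn (Finset.finite_toSet U)
  rw [Set.ncard_coe_finset] at hcard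
  have hUc : (U.card : ℝ) ≤ (((S1 M N ∪ S2 M N) ∪ S3 M N).card : ℝ) + (E4.card : ℝ) := by
    exact_mod_cast Finset.card_union_le _ _
  have k1 : (M : ℝ) ^ (-η₁) ≤ (M : ℝ) ^ (-min η₀ η₁) :=
    Real.rpow_le_rpow_of_exponent_le hMR (by linarith [min_le_right η₀ η₁])
  have k2 : (M : ℝ) ^ (-η₀) ≤ (M : ℝ) ^ (-min η₀ η₁) :=
    Real.rpow_le_rpow_of_exponent_le hMR (by linarith [min_le_left η₀ η₁])
  calc _ ≤ (U.card : ℝ) := by exact_mod_cast hcard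
    _ ≤ (((S1 M N ∪ S2 M N) ∪ S3 M N).card : ℝ) + (E4.card : ℝ) := hUc
    _ ≤ C₁ * (M : ℝ) ^ (-η₁) * (N : ℝ) ^ 2 + C₀ * (M : ℝ) ^ (-η₀) * (N : ℝ) ^ 2 :=
        add_le_add (hS123 M N hM hMN) h4
    _ ≤ C₁ * (M : ℝ) ^ (-min η₀ η₁) * (N : ℝ) ^ 2 +
        C₀ * (M : ℝ) ^ (-min η₀ η₁) * (N : ℝ) ^ 2 := by gcongr
    _ = _ := by ring

end Pool.Agent.Lib.MP_3550b5_nt
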