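import Mathlib
import Pool.Agent.Lib.MP_3550b5_nt.RForm

/-!
Sigma functions, denominators and heights on the good group; interpolation determinants of
powers of denominators.
-/

namespace Pool.Agent.Lib.MP_3550b5_nt

open WeierstrassCurve.Affine PowerSeries

variable {p : ℕ} [hp : Fact p.Prime] {a b : ℤ}

open scoped Classical in
/-- The denominator of a point: the abscissa is `A / D ^ 2` in lowest terms. -/
noncomputable def dn (Q : (curve a b).Point) : ℕ := if Q = 0 then 0 else Nat.sqrt (ptX Q).den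

lemma dn_zero : dn (0 : (curve a b).Point) = 0 := by rw [dn, if_pos rfl]

lemma dn_of_rep {A B D : ℤ} {Q : (curve a b).Point} (h : IsRep a b A B D Q) (hD : 0 < D)
    (hc : IsCoprime A D) : (dn Q : ℤ) = D := by
  have h0 : Q ≠ 0 := by
    obtain ⟨-, hh, rfl⟩ := h
    exact Point.some_ne_zero _
  rw [dn, if_neg h0]
  obtain ⟨-, h2⟩ := rep_num_den h hc
  have h3 : (ptX Q).den = D.natAbs ^ 2 := by
    zify
    rw [h2]
    simp
  rw [h3, Nat.sqrt_eq']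
  omega

theorem exists_sigma {Bh : (curve a b).Point → (curve a b).Point → ℚ_[p]}
    (hB : IsCanonicalHeight p a b Bh) :
    ∃ (σ W : ℤ_[p]⟦X⟧) (u : (curve a b).Point → ℤ_[p]),
      (W = 1 + C (a : ℤ_[p]) * X ^ 4 * W ^ 2 + C (b : ℤ_[p]) * X ^ 6 * W ^ 3) ∧
      ∀ Q ∈ goodGroup p a b, Q ≠ 0 → IsUnit (u Q) ∧ ev σ (tz p Q) = (dn Q : ℤ_[p]) * u Q ∧
        ulog (u Q) = Bh Q Q := by
  obtain ⟨σ, hσ, hform⟩ := hB.formula
  obtain ⟨c, W, V, Om, S, Z, hσS, hS⟩ := sigmaData_of_sigma hσ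
  have key : ∀ Q : (curve a b).Point, ∃ u : ℤ_[p], Q ∈ goodGroup p a b → Q ≠ 0 →
      IsUnit u ∧ ev σ (tz p Q) = (dn Q : ℤ_[p]) * u ∧ ulog u = Bh Q Q := by
    intro Q
    by_cases hQ : Q ∈ goodGroup p a b ∧ Q ≠ 0
    swap
    · refine ⟨0, fun h1 h2 => absurd ⟨h1, h2⟩ hQ⟩
    obtain ⟨hQ, h0⟩ := hQ
    obtain ⟨A, B, D, hrep, hD, hcop, hpD, hcop2⟩ := good_rep hQ h0
    have hdn := dn_of_rep hrep hD hcop
    have hpZ : Prime (p : ℤ) := Nat.prime_iff_prime_int.mp hp.out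
    have hAn : ¬ (p : ℤ) ∣ A := fun hd => hpZ.not_isUnit (hcop.isUnit_of_dvd' hd hpD)
    have hBn : ¬ (p : ℤ) ∣ B := by
      intro hd
      apply hAn
      have h1 : (p : ℤ) ∣ A ^ 3 := by
        have e : A ^ 3 = B * B - D * (a * A * D ^ 3 + b * D ^ 5) := by
          linear_combination -hrep.eqn
        rw [e]
        exact dvd_sub (Dvd.dvd.mul_right hd _) (Dvd.dvd.mul_right hpD _)
      exact hpZ.dvd_of_dvd_pow h1
    obtain ⟨Bi, hBi⟩ : ∃ Bi : ℤ_[p], (B : ℤ_[p]) * Bi = 1 := by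
      obtain ⟨u, hu⟩ := isUnit_intCast hBn
      exact ⟨↑u⁻¹, by rw [← hu]; exact u.mul_inv⟩
    have hker := (Or.resolve_left hQ h0).1
    obtain ⟨k1, k2, k3, k4, -⟩ := ker_coords hker
    have hDp0 : (D : ℚ_[p]) ≠ 0 := by exact_mod_cast hrep.1
    have hBi' : ((B : ℤ_[p]) : ℚ_[p]) * ((Bi : ℤ_[p]) : ℚ_[p]) = 1 := by
      exact_mod_cast congrArg (fun z : ℤ_[p] => (z : ℚ_[p])) hBi
    rw [PadicInt.coe_intCast] at hBi'
    have hBm0 : (B : ℚ_[p]) ≠ 0 := by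
      intro h
      rw [h, zero_mul] at hBi'
      exact zero_ne_one hBi'
    set t := tz p Q with ht
    have htn : ‖t‖ < 1 := norm_lt_one_of_dvd k4
    have harg : -((A : ℚ_[p]) * (D : ℚ_[p])) / (B : ℚ_[p]) = (t : ℚ_[p]) := by
      rw [k2, hrep.ptX_eq, hrep.ptY_eq]
      push_cast
      field_simp
    have htD : t = D * (-(A : ℤ_[p]) * Bi) := by
      apply Subtype.coe_injective
      show (t : ℚ_[p]) = ((D * (-(A : ℤ_[p]) * Bi) : ℤ_[p]) : ℚ_[p])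
      rw [← harg, div_eq_iff hBm0]
      push_cast
      linear_combination ((A : ℚ_[p]) * (D : ℚ_[p])) * hBi'
    have hunit : IsUnit (-(A : ℤ_[p]) * Bi * ev S t) := by
      have h1 : IsUnit (A : ℤ_[p]) := isUnit_intCast hAn
      have h2 : IsUnit Bi := IsUnit.of_mul_eq_one _ (by rw [mul_comm]; exact hBi)
      have h3 : IsUnit (ev S t) := ev_isUnit hS.S0 htn
      exact (h1.neg.mul h2).mul h3
    have hev : ev σ t = (dn Q : ℤ_[p]) * (-(A : ℤ_[p]) * Bi * ev S t) := by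
      have hdn' : (dn Q : ℤ_[p]) = (D : ℤ_[p]) := by exact_mod_cast congrArg (fun z : ℤ => (z : ℤ_[p])) hdn
      rw [hσS, ev_mul _ _ htn, ev_X, hdn']
      conv_lhs => rw [htD, ← htD]
      linear_combination (ev S t) * htD
    refine ⟨-(A : ℤ_[p]) * Bi * ev S t, fun _ _ => ⟨hunit, hev, ?_⟩⟩
    obtain ⟨hD0, hh', e'⟩ := hrep
    have hf := hform A B D hh' hD0 hpD hcop2
    rw [← e', harg, seriesVal_coe σ htn, hev] at hf
    have hdn' : (dn Q : ℤ_[p]) = (D : ℤ_[p]) := by exact_mod_cast congrArg (fun z : ℤ => (z : ℤ_[p])) hdn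
    have hu : (((((dn Q : ℤ_[p]) * (-(A : ℤ_[p]) * Bi * ev S t) : ℤ_[p]) : ℚ_[p])) / (D : ℚ_[p])) =
        ((-(A : ℤ_[p]) * Bi * ev S t : ℤ_[p]) : ℚ_[p]) := by
      rw [hdn', div_eq_iff hDp0]
      push_cast
      ring
    rw [hu, iwasawaLog_coe hunit] at hf
    exact hf.symm
  choose u hu using key
  exact ⟨σ, W, u, hS.hW, hu⟩

lemma one_unit_mul {u v : ℤ_[p]} (hu : ‖u - 1‖ < 1) (hv : ‖v - 1‖ < 1) : ‖u * v - 1‖ < 1 := by
  have e : u * v - 1 = u * (v - 1) + (u - 1) := by ring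
  rw [e]
  refine lt_of_le_of_lt (PadicInt.nonarchimedean _ _) (max_lt ?_ hu)
  rw [norm_mul]
  calc ‖u‖ * ‖v - 1‖ ≤ 1 * ‖v - 1‖ := by gcongr; exact PadicInt.norm_le_one _
    _ < 1 := by rw [one_mul]; exact hv

/-- Denominators of sums. -/
theorem kernel_identity (hp5 : 5 ≤ p) {Bh : (curve a b).Point → (curve a b).Point → ℚ_[p]}
    (hB : IsCanonicalHeight p a b Bh) {σ : ℤ_[p]⟦X⟧} {u : (curve a b).Point → ℤ_[p]}
    (hu : ∀ Q ∈ goodGroup p a b, Q ≠ 0 → IsUnit (u Q) ∧ ev σ (tz p Q) = (dn Q : ℤ_[p]) * u Q ∧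
        ulog (u Q) = Bh Q Q)
    {Q Q' : (curve a b).Point} (hQ : Q ∈ goodGroup p a b) (hQ' : Q' ∈ goodGroup p a b)
    (h0 : Q ≠ 0) (h0' : Q' ≠ 0) (hs : Q + Q' ≠ 0) {β : ℤ_[p]} (hβ : (p : ℤ_[p]) ^ 2 ∣ β)
    (hβB : (β : ℚ_[p]) = Bh Q Q') :
    (dn (Q + Q') : ℤ_[p]) ^ (p - 1) * (u Q ^ (p - 1) * u Q' ^ (p - 1)) =
      ev σ (tz p (Q + Q')) ^ (p - 1) * pexp (-((2 * (p - 1 : ℕ) : ℕ) : ℤ_[p]) * β) := by
  obtain ⟨u1, -, u3⟩ := hu Q hQ h0
  obtain ⟨v1, -, v3⟩ := hu Q' hQ' h0'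
  obtain ⟨w1, w2, w3⟩ := hu (Q + Q') (add_mem hQ hQ') hs
  have hpi : (p : ℝ)⁻¹ < 1 := inv_lt_one_of_one_lt₀ (by exact_mod_cast hp.out.one_lt)
  have o1 : ‖u Q ^ (p - 1) - 1‖ < 1 := (norm_pow_sub_one_le u1).trans_lt hpi
  have o2 : ‖u Q' ^ (p - 1) - 1‖ < 1 := (norm_pow_sub_one_le v1).trans_lt hpi
  have o3 : ‖u (Q + Q') ^ (p - 1) - 1‖ < 1 := (norm_pow_sub_one_le w1).trans_lt hpi
  set c : ℤ_[p] := ((2 * (p - 1 : ℕ) : ℕ) : ℤ_[p]) with hc
  have hcc : ((c : ℤ_[p]) : ℚ_[p]) = 2 * ((p - 1 : ℕ) : ℚ_[p]) := by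
    rw [hc, PadicInt.coe_natCast, Nat.cast_mul]
    rfl
  have hcβ : (p : ℤ_[p]) ^ 2 ∣ c * β := Dvd.dvd.mul_left hβ _
  have hcβ' : (p : ℤ_[p]) ^ 2 ∣ -c * β := Dvd.dvd.mul_left hβ _
  have o4 := pexp_sub_one hp5 hcβ
  have hmul : pexp (c * β) * pexp (-c * β) = 1 := by
    rw [← pexp_add hcβ hcβ']
    have : c * β + -c * β = 0 := by ring
    rw [this, pexp_zero]
  have heq : u (Q + Q') ^ (p - 1) = pexp (c * β) * (u Q ^ (p - 1) * u Q' ^ (p - 1)) := by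
    have o5 := one_unit_mul o4 (one_unit_mul o1 o2)
    have o6 : ‖u (Q + Q') ^ (p - 1) - pexp (c * β) * (u Q ^ (p - 1) * u Q' ^ (p - 1))‖ < 1 := by
      have e : u (Q + Q') ^ (p - 1) - pexp (c * β) * (u Q ^ (p - 1) * u Q' ^ (p - 1)) =
        (u (Q + Q') ^ (p - 1) - 1) + -(pexp (c * β) * (u Q ^ (p - 1) * u Q' ^ (p - 1)) - 1) := by
        ring
      rw [e]
      refine lt_of_le_of_lt (PadicInt.nonarchimedean _ _) (max_lt o3 ?_)
      rw [norm_neg]; exact o5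
    have h3 := norm_ulog_sub (p := p) (by omega) (isUnit_of_sub_one o3) (isUnit_of_sub_one o5) o6
    have hlog : ulog (u (Q + Q') ^ (p - 1)) =
        ulog (pexp (c * β) * (u Q ^ (p - 1) * u Q' ^ (p - 1))) := by
      rw [ulog_pow w1, w3, ulog_mul (isUnit_of_sub_one o4) (isUnit_of_sub_one (one_unit_mul o1 o2)),
        ulog_mul (isUnit_of_sub_one o1) (isUnit_of_sub_one o2), ulog_pow u1, ulog_pow v1, u3, v3,
        ulog_pexp hp5 hcβ, hB.add, hB.symm Q (Q + Q'), hB.symm Q' (Q + Q'), hB.add, hB.add,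
        hB.symm Q' Q, ← hβB, PadicInt.coe_mul, hcc]
      ring
    rw [hlog, sub_self, norm_zero] at h3
    exact sub_eq_zero.mp (norm_eq_zero.mp h3.symm)
  have h7 := congrArg (fun z => z ^ (p - 1)) w2
  simp only [mul_pow] at h7
  rw [h7, heq]
  linear_combination (-(dn (Q + Q') : ℤ_[p]) ^ (p - 1) * (u Q ^ (p - 1) * u Q' ^ (p - 1))) * hmul

/-- Determinants of powers of denominators of sums are highly divisible by `p`, when the height
pairing has small rank. -/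
theorem det_dvd (hp5 : 5 ≤ p) {Bh : (curve a b).Point → (curve a b).Point → ℚ_[p]}
    (hB : IsCanonicalHeight p a b Bh) {ι : Type*} [Fintype ι] [DecidableEq ι] {ρ : ℕ}
    {v n : ι → (curve a b).Point} (hv : ∀ i, v i ∈ goodGroup p a b)
    (hn : ∀ i, n i ∈ goodGroup p a b) (hv0 : ∀ i, v i ≠ 0) (hn0 : ∀ i, n i ≠ 0)
    (hne : ∀ i j, ptX (n j) ≠ ptX (v i)) {x y : ι → Fin ρ → ℤ_[p]}
    (hx : ∀ j k, (p : ℤ_[p]) ∣ x j k) (hy : ∀ i k, (p : ℤ_[p]) ∣ y i k)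
    (hxy : ∀ i j, ((∑ k, x j k * y i k : ℤ_[p]) : ℚ_[p]) = Bh (n j) (v i)) (h : ℕ) :
    (p : ℤ) ^ (h * (Fintype.card ι - h ^ (ρ + 1))) ∣
      (Matrix.of fun i j => ((dn (n j + v i) : ℤ)) ^ (p - 1)).det := by
  obtain ⟨σ, W, u, hW, hu⟩ := exists_sigma hB
  have hnk : ∀ j, 1 < ‖((ptX (n j) : ℚ) : ℚ_[p])‖ := fun j => ((hn j).resolve_left (hn0 j)).1
  have hvk : ∀ i, 1 < ‖((ptX (v i) : ℚ) : ℚ_[p])‖ := fun i => ((hv i).resolve_left (hv0 i)).1
  have hs : ∀ i j, n j + v i ≠ 0 := by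
    intro i j h0
    apply hne i j
    have h1 : n j = -v i := eq_neg_of_add_eq_zero_left h0
    obtain ⟨hh, e⟩ := exists_eq_some (v i) (hv0 i)
    rw [h1, e, Point.neg_some, ptX_some, ptX_some]
  set α : ι → Fin (ρ + 1) → ℤ_[p] := fun j => Fin.cons (tz p (n j)) (x j) with hα
  have hαp : ∀ j k, (p : ℤ_[p]) ∣ α j k := by
    intro j k
    refine Fin.cases ?_ (fun k => ?_) k
    · rw [hα]; exact Ker.dvd_tz (Or.inr (hnk j))
    · rw [hα]; exact hx j k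
  set c : ℤ_[p] := ((2 * (p - 1 : ℕ) : ℕ) : ℤ_[p]) with hc
  set F : ι → ι → ℤ_[p] := fun i j => ev σ (tz p (n j + v i)) ^ (p - 1) *
    ∏ k, ev (expS (-c * y i k)) (α j k.succ) with hF
  have hFA : ∀ i, Appr α (F i) := by
    intro i
    refine Appr.mul (Appr.pow (Appr.ev σ ?_ ?_) _) (Appr.prod fun k _ => ?_)
    · exact appr_tz_add (i := 0) hW hnk (hvk i) (hne i) (fun s => by rw [hα]; rfl)
    · intro s
      exact Ker.dvd_tz (Ker.of_good (add_mem (hn s) (hv i)))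
    · exact (Appr.coord k.succ).ev _ (fun s => hαp s k.succ)
  have hid : ∀ i j, F i j = u (v i) ^ (p - 1) * (u (n j) ^ (p - 1) *
      (dn (n j + v i) : ℤ_[p]) ^ (p - 1)) := by
    intro i j
    have hβ : (p : ℤ_[p]) ^ 2 ∣ ∑ k, x j k * y i k := by
      apply Finset.dvd_sum
      intro k _
      rw [pow_two]
      exact mul_dvd_mul (hx j k) (hy i k)
    have h1 := kernel_identity hp5 hB hu (hn j) (hv i) (hn0 j) (hv0 i) (hs i j) hβ (hxy i j)
    have h2 : pexp (-c * ∑ k, x j k * y i k) = ∏ k, ev (expS (-c * y i k)) (α j k.succ) := by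
      have h3 : ∀ T : Finset (Fin ρ), pexp (-c * ∑ k ∈ T, x j k * y i k) =
          ∏ k ∈ T, ev (expS (-c * y i k)) (α j k.succ) := by
        intro T
        induction T using Finset.induction_on with
        | empty => simp [pexp_zero]
        | insert k T hk ih =>
          have d1 : (p : ℤ_[p]) ∣ -c * y i k := Dvd.dvd.mul_left (hy i k) _
          have d2 : α j k.succ = x j k := by rw [hα]; rfl
          rw [Finset.sum_insert hk, Finset.prod_insert hk, mul_add, ← ih, d2,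
            ev_expS (hx j k) d1]
          have d3 : (p : ℤ_[p]) ^ 2 ∣ x j k * (-c * y i k) := by
            rw [pow_two]; exact mul_dvd_mul (hx j k) d1
          have d4 : (p : ℤ_[p]) ^ 2 ∣ -c * ∑ k ∈ T, x j k * y i k := by
            apply Dvd.dvd.mul_left
            apply Finset.dvd_sum
            intro k _
            rw [pow_two]
            exact mul_dvd_mul (hx j k) (hy i k)
          rw [← pexp_add d3 d4]
          congr 1
          ring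
      exact h3 Finset.univ
    rw [h2] at h1
    rw [hF]
    linear_combination -h1
  have h1 := det_appr_dvd hαp F hFA id h
  have h2 : (Matrix.of fun i j => F i (id j)).det = (∏ i, u (v i) ^ (p - 1)) *
      ((∏ j, u (n j) ^ (p - 1)) *
        (Matrix.of fun i j => (dn (n j + v i) : ℤ_[p]) ^ (p - 1)).det) := by
    rw [← Matrix.det_mul_row, ← Matrix.det_mul_column]
    congr 1
    ext i j
    simp only [Matrix.of_apply, id]
    exact hid i j
  have hU1 : IsUnit (∏ i, u (v i) ^ (p - 1)) := by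
    rw [IsUnit.prod_univ_iff]
    exact fun i => (hu _ (hv i) (hv0 i)).1.pow _
  have hU2 : IsUnit (∏ j, u (n j) ^ (p - 1)) := by
    rw [IsUnit.prod_univ_iff]
    exact fun i => (hu _ (hn i) (hn0 i)).1.pow _
  rw [h2, hU1.dvd_mul_left, hU2.dvd_mul_left] at h1
  have h3 : (((Matrix.of fun i j => ((dn (n j + v i) : ℤ)) ^ (p - 1)).det : ℤ) : ℤ_[p]) =
      (Matrix.of fun i j => (dn (n j + v i) : ℤ_[p]) ^ (p - 1)).det := by
    have := RingHom.map_det (Int.castRingHom ℤ_[p])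
      (Matrix.of fun i j => ((dn (n j + v i) : ℤ)) ^ (p - 1))
    rw [eq_intCast] at this
    rw [this]
    congr 1
    ext i j
    simp
  rw [← h3] at h1
  exact (PadicInt.pow_p_dvd_int_iff _ _).mp h1

end Pool.Agent.Lib.MP_3550b5_nt
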