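import Mathlib
import Pool.Agent.Lib.MP_3550b5_nt.RSig

/-!
Sigma functions, numerators and denominators.
-/

namespace Pool.Agent.Lib.MP_3550b5_nt

open WeierstrassCurve.Affine PowerSeries

variable {p : ℕ} [hp : Fact p.Prime] {a b : ℤ}

/-- The numerator of the abscissa of a point. -/
def an (Q : (curve a b).Point) : ℤ := (ptX Q).num

theorem exists_sigma2 {Bh : (curve a b).Point → (curve a b).Point → ℚ_[p]}
    (hB : IsCanonicalHeight p a b Bh) :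
    ∃ (σ ξ W : ℤ_[p]⟦X⟧) (u : (curve a b).Point → ℤ_[p]),
      (W = 1 + C (a : ℤ_[p]) * X ^ 4 * W ^ 2 + C (b : ℤ_[p]) * X ^ 6 * W ^ 3) ∧
      ∀ Q ∈ goodGroup p a b, Q ≠ 0 → IsUnit (u Q) ∧ ev σ (tz p Q) = (dn Q : ℤ_[p]) * u Q ∧
        ulog (u Q) = Bh Q Q ∧ ev ξ (tz p Q) = (an Q : ℤ_[p]) * u Q ^ 2 := by
  obtain ⟨σ, hσ, hform⟩ := hB.formula
  obtain ⟨c, W, V, Om, S, Z, hσS, hS⟩ := sigmaData_of_sigma hσ
  have key : ∀ Q : (curve a b).Point, ∃ u : ℤ_[p], Q ∈ goodGroup p a b → Q ≠ 0 →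
      IsUnit u ∧ ev σ (tz p Q) = (dn Q : ℤ_[p]) * u ∧ ulog u = Bh Q Q ∧
        ev (S ^ 2 * V) (tz p Q) = (an Q : ℤ_[p]) * u ^ 2 := by
    intro Q
    by_cases hQ : Q ∈ goodGroup p a b ∧ Q ≠ 0
    swap
    · refine ⟨0, fun h1 h2 => absurd ⟨h1, h2⟩ hQ⟩
    obtain ⟨hQ, h0⟩ := hQ
    obtain ⟨A, B, D, hrep, hD, hcop, hpD, hcop2⟩ := good_rep hQ h0
    have hdn := dn_of_rep hrep hD hcop
    have hpZ : Prime (p : ℤ) := Nat.prime_iff_prime_int.mp hp.out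
    have hAn : ¬ (p : ℤ) ∣ A := fun hd => hpZ.not_isUnit (hcop.isUnit_of_dvd' hd hpD)
    have hBn : ¬ (p : ℤ) ∣ B := by
      intro hd
      apply hAn
      have h1 : (p : ℤ) ∣ A ^ 3 := by
        have e : A ^ 3 = B * B - D * (a * A * D ^ 3 + b * D ^ 5) := by
          linear_combination -hrep.eqn
        rw [e]
        exact dvd_sub (Dvd.dvd.mul_right hd _) (Dvd.dvd.mul_right hpD _)
      exact hpZ.dvd_of_dvd_pow h1
    obtain ⟨Bi, hBi⟩ : ∃ Bi : ℤ_[p], (B : ℤ_[p]) * Bi = 1 := by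
      obtain ⟨u, hu⟩ := isUnit_intCast hBn
      exact ⟨↑u⁻¹, by rw [← hu]; exact u.mul_inv⟩
    have hker := (Or.resolve_left hQ h0).1
    obtain ⟨k1, k2, k3, k4, -⟩ := ker_coords hker
    have hDp0 : (D : ℚ_[p]) ≠ 0 := by exact_mod_cast hrep.1
    have hBi' : ((B : ℤ_[p]) : ℚ_[p]) * ((Bi : ℤ_[p]) : ℚ_[p]) = 1 := by
      exact_mod_cast congrArg (fun z : ℤ_[p] => (z : ℚ_[p])) hBi
    rw [PadicInt.coe_intCast] at hBi'
    have hBm0 : (B : ℚ_[p]) ≠ 0 := by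
      intro h
      rw [h, zero_mul] at hBi'
      exact zero_ne_one hBi'
    set t := tz p Q with ht
    have htn : ‖t‖ < 1 := norm_lt_one_of_dvd k4
    have harg : -((A : ℚ_[p]) * (D : ℚ_[p])) / (B : ℚ_[p]) = (t : ℚ_[p]) := by
      rw [k2, hrep.ptX_eq, hrep.ptY_eq]
      push_cast
      field_simp
    have htD : t = D * (-(A : ℤ_[p]) * Bi) := by
      apply Subtype.coe_injective
      show (t : ℚ_[p]) = ((D * (-(A : ℤ_[p]) * Bi) : ℤ_[p]) : ℚ_[p])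
      rw [← harg, div_eq_iff hBm0]
      push_cast
      linear_combination ((A : ℚ_[p]) * (D : ℚ_[p])) * hBi'
    have hunit : IsUnit (-(A : ℤ_[p]) * Bi * ev S t) := by
      have h1 : IsUnit (A : ℤ_[p]) := isUnit_intCast hAn
      have h2 : IsUnit Bi := IsUnit.of_mul_eq_one _ (by rw [mul_comm]; exact hBi)
      have h3 : IsUnit (ev S t) := ev_isUnit hS.S0 htn
      exact (h1.neg.mul h2).mul h3
    have hev : ev σ t = (dn Q : ℤ_[p]) * (-(A : ℤ_[p]) * Bi * ev S t) := by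
      have hdn' : (dn Q : ℤ_[p]) = (D : ℤ_[p]) := by exact_mod_cast congrArg (fun z : ℤ => (z : ℤ_[p])) hdn
      rw [hσS, ev_mul _ _ htn, ev_X, hdn']
      conv_lhs => rw [htD, ← htD]
      linear_combination (ev S t) * htD
    have hxi : ev (S ^ 2 * V) t = (an Q : ℤ_[p]) * (-(A : ℤ_[p]) * Bi * ev S t) ^ 2 := by
      have han : (an Q : ℤ_[p]) = (A : ℤ_[p]) := by
        rw [an, (rep_num_den hrep hcop).1]
      have hVW : ev W t * ev V t = 1 := by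
        rw [← ev_mul _ _ htn, hS.hV, ev_one]
      have hw1 := ev_w hS.hW (Or.inr hker)
      rw [ev_mul _ _ htn, ev_pow _ htn, ev_X] at hw1
      have hwB : wz p Q = -((D : ℤ_[p]) ^ 3 * Bi) := by
        apply Subtype.coe_injective
        show (wz p Q : ℚ_[p]) = ((-((D : ℤ_[p]) ^ 3 * Bi) : ℤ_[p]) : ℚ_[p])
        rw [k3, hrep.ptY_eq]
        push_cast
        rw [div_div_eq_mul_div, div_eq_iff hBm0]
        linear_combination (D : ℚ_[p]) ^ 3 * hBi'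
      have hD3 : (D : ℤ_[p]) ^ 3 ≠ 0 := pow_ne_zero 3 (by exact_mod_cast hrep.1)
      have hBi0 : Bi ≠ 0 := by
        rintro rfl
        rw [mul_zero] at hBi
        exact zero_ne_one hBi
      have h5 : (A : ℤ_[p]) ^ 3 * Bi ^ 2 * ev W t = 1 := by
        apply mul_left_cancel₀ (mul_ne_zero hD3 hBi0)
        rw [hwB] at hw1
        have h6 : t ^ 3 = -((D : ℤ_[p]) ^ 3 * A ^ 3 * Bi ^ 3) := by
          rw [htD]; ring
        rw [h6] at hw1
        linear_combination hw1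
      rw [ev_mul _ _ htn, ev_pow _ htn, han]
      linear_combination (-(ev S t) ^ 2 * ev V t) * h5 +
        ((A : ℤ_[p]) ^ 3 * Bi ^ 2 * ev S t ^ 2) * hVW
    refine ⟨-(A : ℤ_[p]) * Bi * ev S t, fun _ _ => ⟨hunit, hev, ?_, hxi⟩⟩
    obtain ⟨hD0, hh', e'⟩ := hrep
    have hf := hform A B D hh' hD0 hpD hcop2
    rw [← e', harg, seriesVal_coe σ htn, hev] at hf
    have hdn' : (dn Q : ℤ_[p]) = (D : ℤ_[p]) := by exact_mod_cast congrArg (fun z : ℤ => (z : ℤ_[p])) hdn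
    have hu : (((((dn Q : ℤ_[p]) * (-(A : ℤ_[p]) * Bi * ev S t) : ℤ_[p]) : ℚ_[p])) / (D : ℚ_[p])) =
        ((-(A : ℤ_[p]) * Bi * ev S t : ℤ_[p]) : ℚ_[p]) := by
      rw [hdn', div_eq_iff hDp0]
      push_cast
      ring
    rw [hu, iwasawaLog_coe hunit] at hf
    exact hf.symm
  choose u hu using key
  exact ⟨σ, S ^ 2 * V, W, u, hS.hW, hu⟩

end Pool.Agent.Lib.MP_3550b5_nt
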