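import Mathlib
import Pool.Agent.Lib.MP_3550b5_nt.RSig

/-!
Limits of polynomials with many zeros take highly divisible values.
-/

namespace Pool.Agent.Lib.MP_3550b5_nt

open Finset

variable {p : ℕ} [hp : Fact p.Prime]

lemma dvd_of_mul_dvd {x y : ℤ_[p]} {k M : ℕ} (hx : x ≠ 0) (hk : x.valuation ≤ k)
    (h : (p : ℤ_[p]) ^ (M + k) ∣ x * y) : (p : ℤ_[p]) ^ M ∣ y := by
  have h1 := PadicInt.unitCoeff_spec hx
  have h2 : (p : ℤ_[p]) ^ (M + k) ∣ (p : ℤ_[p]) ^ x.valuation * y := by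
    have h3 : x * y = (PadicInt.unitCoeff hx : ℤ_[p]) * ((p : ℤ_[p]) ^ x.valuation * y) := by
      conv_lhs => rw [h1]
      ring
    rw [h3] at h
    exact (Units.isUnit _).dvd_mul_left.mp h
  have h4 : (p : ℤ_[p]) ^ x.valuation * (p : ℤ_[p]) ^ M ∣ (p : ℤ_[p]) ^ x.valuation * y := by
    refine dvd_trans ?_ h2
    rw [← pow_add]
    exact pow_dvd_pow _ (by omega)
  have hp0 : (p : ℤ_[p]) ^ x.valuation ≠ 0 := by
    apply pow_ne_zero
    exact_mod_cast hp.out.ne_zero
  exact (mul_dvd_mul_iff_left hp0).mp h4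

lemma poly_zeros (Z : Finset ℤ_[p]) (hZ : ∀ z ∈ Z, (p : ℤ_[p]) ∣ z) :
    ∃ e : ℕ, ∀ (M : ℕ) (P : Polynomial ℤ_[p]), (∀ z ∈ Z, (p : ℤ_[p]) ^ (M + e) ∣ P.eval z) →
      ∀ t : ℤ_[p], (p : ℤ_[p]) ∣ t → (p : ℤ_[p]) ^ (min M Z.card) ∣ P.eval t := by
  classical
  induction Z using Finset.induction_on with
  | empty =>
    refine ⟨0, fun M P _ t _ => ?_⟩
    simp
  | insert z₀ Z hz ih =>
    obtain ⟨e, he⟩ := ih fun z hz => hZ z (mem_insert_of_mem hz)
    refine ⟨e + ∑ z ∈ Z, (z - z₀).valuation, fun M P hP t ht => ?_⟩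
    have hdiv : ∀ t, P.eval t = P.eval z₀ + (t - z₀) *
        (P /ₘ (Polynomial.X - Polynomial.C z₀)).eval t := by
      intro t
      have h1 := Polynomial.modByMonic_add_div P (Polynomial.X - Polynomial.C z₀)
      conv_lhs => rw [← h1]
      rw [Polynomial.modByMonic_X_sub_C_eq_C_eval]
      simp
    have h0 := hP z₀ (mem_insert_self _ _)
    have h1 : ∀ z ∈ Z, (p : ℤ_[p]) ^ (M + e) ∣
        (P /ₘ (Polynomial.X - Polynomial.C z₀)).eval z := by
      intro z hzZ
      have hne : z - z₀ ≠ 0 := by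
        rw [sub_ne_zero]
        rintro rfl
        exact hz hzZ
      apply dvd_of_mul_dvd hne (k := ∑ z ∈ Z, (z - z₀).valuation)
        (single_le_sum (f := fun z => (z - z₀).valuation) (fun _ _ => Nat.zero_le _) hzZ)
      have h2 := hP z (mem_insert_of_mem hzZ)
      rw [hdiv z] at h2
      rw [add_assoc]
      have h3 := dvd_sub h2 h0
      rw [add_sub_cancel_left] at h3
      exact h3
    have h2 := he M _ h1 t ht
    rw [hdiv t, card_insert_of_notMem hz]
    apply dvd_add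
    · refine dvd_trans (pow_dvd_pow _ ?_) h0
      exact (min_le_left _ _).trans (by omega)
    · have h3 : (p : ℤ_[p]) ∣ t - z₀ := dvd_sub ht (hZ z₀ (mem_insert_self _ _))
      have h4 := mul_dvd_mul h3 h2
      rw [← pow_succ'] at h4
      refine dvd_trans (pow_dvd_pow _ ?_) h4
      omega

/-- A limit of polynomials with many zeros takes highly divisible values. -/
theorem appr_zeros {S : Type*} {α : S → Fin 1 → ℤ_[p]} (hα : ∀ s, (p : ℤ_[p]) ∣ α s 0)
    {f : S → ℤ_[p]} (hf : Appr α f) (Z : Finset S)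
    (hinj : ∀ z ∈ Z, ∀ z' ∈ Z, α z 0 = α z' 0 → z = z') (h0 : ∀ z ∈ Z, f z = 0) (s : S) :
    (p : ℤ_[p]) ^ Z.card ∣ f s := by
  classical
  obtain ⟨e, he⟩ := poly_zeros (Z.image fun z => α z 0) (by
    intro z hz
    obtain ⟨z', -, rfl⟩ := mem_image.mp hz
    exact hα z')
  have hcard : (Z.image fun z => α z 0).card = Z.card :=
    card_image_of_injOn fun z hz z' hz' h => hinj z hz z' hz' h
  obtain ⟨P, hP⟩ := hf (Z.card + e)
  obtain ⟨P', hP'⟩ : ∃ P' : Polynomial ℤ_[p], P' = MvPolynomial.aeval (fun _ => Polynomial.X) P :=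
    ⟨_, rfl⟩
  have hev : ∀ s, P'.eval (α s 0) = MvPolynomial.eval (α s) P := by
    intro s
    rw [hP']
    have h1 : (Polynomial.evalRingHom (α s 0)).comp
        (MvPolynomial.aeval (R := ℤ_[p]) (fun _ : Fin 1 => (Polynomial.X : Polynomial ℤ_[p]))).toRingHom =
        MvPolynomial.eval (α s) := by
      apply MvPolynomial.ringHom_ext
      · intro r; simp
      · intro i
        have : i = 0 := Subsingleton.elim _ _
        subst this
        simp
    exact congrArg (fun φ : MvPolynomial (Fin 1) ℤ_[p] →+* ℤ_[p] => φ P) h1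
  have h1 := he Z.card P' (by
    intro z hz
    obtain ⟨z', hz', rfl⟩ := mem_image.mp hz
    rw [hev]
    have h2 := hP z'
    rw [h0 z' hz', zero_sub, dvd_neg] at h2
    exact h2) (α s 0) (hα s)
  rw [hcard, min_self, hev] at h1
  have h2 := (pow_dvd_pow (p : ℤ_[p]) (Nat.le_add_right Z.card e)).trans (hP s)
  have := dvd_add h2 h1
  simpa using this

end Pool.Agent.Lib.MP_3550b5_nt
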