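import Mathlib
import Pool.Agent.Lib.MP_3550b5_nt.Points

/-!
The addition-and-subtraction map on `x`-coordinates of `y^2 = x^3 + a x + b`.
-/

namespace Pool.Agent.Lib.MP_3550b5_nt

open WeierstrassCurve.Affine MvPolynomial

variable {a b : ℤ}

lemma curve_isElliptic (h : 4 * a ^ 3 + 27 * b ^ 2 ≠ 0) :
    WeierstrassCurve.IsElliptic (curve a b) := by
  constructor
  rw [isUnit_iff_ne_zero]
  have h1 : WeierstrassCurve.Δ (curve a b) = -16 * ((4 * a ^ 3 + 27 * b ^ 2 : ℤ) : ℚ) := by
    simp only [WeierstrassCurve.Δ, WeierstrassCurve.b₂, WeierstrassCurve.b₄, WeierstrassCurve.b₆,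
      WeierstrassCurve.b₈, curve]
    push_cast
    ring
  rw [h1]
  exact mul_ne_zero (by norm_num) (by exact_mod_cast h)

lemma addSub_eval (s t u : ℚ) :
    (fun i => (WeierstrassCurve.addSubMap (curve a b) i).eval ![s, t, u]) =
      ![s ^ 2 - 2 * a * s * u - 4 * b * t * u + a ^ 2 * u ^ 2,
        2 * t * s + 2 * a * t * u + 4 * b * u ^ 2, t ^ 2 - 4 * s * u] := by
  ext i
  fin_cases i
  · simp [WeierstrassCurve.addSubMap, WeierstrassCurve.b₄, WeierstrassCurve.b₆,
      WeierstrassCurve.b₈, curve]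
  · simp [WeierstrassCurve.addSubMap, WeierstrassCurve.b₂, WeierstrassCurve.b₄,
      WeierstrassCurve.b₆, curve]
  · simp [WeierstrassCurve.addSubMap]

lemma addSub_ne (hΔ : 4 * a ^ 3 + 27 * b ^ 2 ≠ 0) {s t u : ℚ} (h : ![s, t, u] ≠ 0) :
    ![s ^ 2 - 2 * a * s * u - 4 * b * t * u + a ^ 2 * u ^ 2,
        2 * t * s + 2 * a * t * u + 4 * b * u ^ 2, t ^ 2 - 4 * s * u] ≠ 0 := by
  have := curve_isElliptic hΔ
  rw [← addSub_eval]
  exact WeierstrassCurve.addSubMap_ne_zero (curve a b) h

/-- The case of a doubling. -/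
lemma double_sub (hΔ : 4 * a ^ 3 + 27 * b ^ 2 ≠ 0) {x y : ℚ} (h : (curve a b).Nonsingular x y) :
    ∃ c : ℚ, c ≠ 0 ∧
      ![(x * x) ^ 2 - 2 * a * (x * x) * 1 - 4 * b * (x + x) * 1 + a ^ 2 * 1 ^ 2,
        2 * (x + x) * (x * x) + 2 * a * (x + x) * 1 + 4 * b * 1 ^ 2, (x + x) ^ 2 - 4 * (x * x) * 1]
      = c • (Point.some _ _ h + Point.some _ _ h : (curve a b).Point).sym2x 0 := by
  have heq := curve_eq h
  by_cases hy : y = 0
  · have hY : y = (curve a b).negY x y := by rw [curve_negY, hy, neg_zero]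
    rw [Point.add_self_of_Y_eq hY, Point.sym2x_zero_zero]
    have hne : ![x * x, x + x, (1 : ℚ)] ≠ 0 := by
      intro h0
      have := congrFun h0 2
      simp at this
    have h1 := addSub_ne (a := a) (b := b) hΔ hne
    have e1 : 2 * (x + x) * (x * x) + 2 * a * (x + x) * 1 + 4 * b * 1 ^ 2 = 0 := by
      rw [hy] at heq
      linear_combination -4 * heq
    have e2 : (x + x) ^ 2 - 4 * (x * x) * 1 = 0 := by ring
    rw [e1, e2] at h1 ⊢
    refine ⟨(x * x) ^ 2 - 2 * a * (x * x) * 1 - 4 * b * (x + x) * 1 + a ^ 2 * 1 ^ 2, ?_, ?_⟩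
    · intro h0
      apply h1
      rw [h0]
      ext i; fin_cases i <;> simp
    · ext i; fin_cases i <;> simp
  · have hY : y ≠ (curve a b).negY x y := by
      rw [curve_negY]
      intro h0
      exact hy (by linarith)
    rw [Point.add_self_of_Y_ne hY, Point.sym2x_some_zero]
    refine ⟨4 * y ^ 2, by positivity, ?_⟩
    have hx : (curve a b).addX x x ((curve a b).slope x x y y) =
        (x ^ 4 - 2 * a * x ^ 2 - 8 * b * x + a ^ 2) / (4 * y ^ 2) := by
      rw [WeierstrassCurve.Affine.slope_of_Y_ne rfl hY, curve_negY]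
      simp only [WeierstrassCurve.Affine.addX, curve]
      have h2 : y - -y ≠ 0 := by
        intro h0; exact hy (by linarith)
      field_simp
      ring_nf
      have h3 : y ^ 2 = x ^ 3 + a * x + b := heq
      have h4 : y ^ 4 = (x ^ 3 + a * x + b) ^ 2 := by rw [← h3]; ring
      simp only [h3, h4]
      ring
    rw [hx]
    have hy2 : (4 : ℚ) * y ^ 2 ≠ 0 := by positivity
    ext i
    fin_cases i
    · simp
      field_simp
      ring
    · simp
      linear_combination -4 * heq
    · simp
      ring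

theorem addSub_sym2x (hΔ : 4 * a ^ 3 + 27 * b ^ 2 ≠ 0) (P Q : (curve a b).Point) :
    ∃ c : ℚ, c ≠ 0 ∧
      (fun i => (WeierstrassCurve.addSubMap (curve a b) i).eval (P.sym2x Q)) =
        c • (P + Q).sym2x (P - Q) := by
  match P, Q with
  | 0, 0 =>
    refine ⟨1, one_ne_zero, ?_⟩
    rw [add_zero, sub_zero, Point.sym2x_zero_zero, addSub_eval]
    ext i; fin_cases i <;> simp
  | 0, .some x y h =>
    refine ⟨1, one_ne_zero, ?_⟩
    rw [zero_add, zero_sub, Point.sym2x_neg_right, Point.sym2x_zero_some, Point.sym2x_some_some,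
      addSub_eval]
    ext i; fin_cases i <;> simp <;> ring
  | .some x y h, 0 =>
    refine ⟨1, one_ne_zero, ?_⟩
    rw [add_zero, sub_zero, Point.sym2x_some_zero, Point.sym2x_some_some,
      addSub_eval]
    ext i; fin_cases i <;> simp <;> ring
  | .some x y h, .some x' y' h' =>
    have heq := curve_eq h
    have heq' := curve_eq h'
    rw [Point.sym2x_some_some, addSub_eval]
    by_cases hx : x = x'
    · have h2 := (Point.X_eq_iff (h₁ := h) (h₂ := h')).mp hx
      subst hx
      rcases h2 with h2 | h2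
      · rw [h2, sub_self]
        exact double_sub hΔ h'
      · rw [h2]
        obtain ⟨c, hc, hcc⟩ := double_sub hΔ h'
        refine ⟨c, hc, ?_⟩
        rw [hcc, neg_add_cancel, Point.sym2x_comm, show -Point.some x y' h' - Point.some x y' h' =
          -(Point.some x y' h' + Point.some x y' h') by abel, Point.sym2x_neg_right]
    · have e1 : (Point.some x y h - Point.some x' y' h' : (curve a b).Point) =
        Point.some x y h + Point.some _ _ ((nonsingular_neg ..).mpr h') := by
        rw [sub_eq_add_neg, Point.neg_some]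
      rw [e1, Point.add_of_X_ne hx, Point.add_of_X_ne hx, Point.sym2x_some_some]
      have hne : x - x' ≠ 0 := sub_ne_zero.mpr hx
      refine ⟨(x - x') ^ 2, pow_ne_zero 2 hne, ?_⟩
      rw [WeierstrassCurve.Affine.slope_of_X_ne hx, WeierstrassCurve.Affine.slope_of_X_ne hx,
        curve_negY]
      simp only [WeierstrassCurve.Affine.addX, curve]
      ext i
      fin_cases i
      · simp
        field_simp
        have h3 : y ^ 2 = x ^ 3 + a * x + b := heq
        have h3' : y' ^ 2 = x' ^ 3 + a * x' + b := heq'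
        ring_nf
        have h4 : y ^ 4 = (x ^ 3 + a * x + b) ^ 2 := by rw [← h3]; ring
        have h4' : y' ^ 4 = (x' ^ 3 + a * x' + b) ^ 2 := by rw [← h3']; ring
        simp only [h3, h4, h3', h4']
        ring
      · simp
        field_simp
        have h3 : y ^ 2 = x ^ 3 + a * x + b := heq
        have h3' : y' ^ 2 = x' ^ 3 + a * x' + b := heq'
        ring_nf
        simp only [h3, h3']
        ring
      · simp
        ring

end Pool.Agent.Lib.MP_3550b5_nt
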