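import Mathlib
import Pool.Agent.Lib.MP_3550b5_nt.RSub

/-!
The canonical height on the rational points of `y^2 = x^3 + a x + b`.
-/

namespace Pool.Agent.Lib.MP_3550b5_nt

open WeierstrassCurve.Affine Height Filter Topology

/-- An approximate quadratic function is at bounded distance of a quadratic function. -/
theorem exists_quadratic {G : Type*} [AddCommGroup G] (f : G → ℝ) (C : ℝ)
    (h : ∀ x y, |f (x + y) + f (x - y) - 2 * f x - 2 * f y| ≤ C) :
    ∃ q : G → ℝ, (∀ x y, q (x + y) + q (x - y) = 2 * q x + 2 * q y) ∧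
      ∃ C', ∀ x, |q x - f x| ≤ C' := by
  set K : ℝ := C + |f 0| with hK
  have h2 : ∀ x, |f (x + x) - 4 * f x| ≤ K := by
    intro x
    have h1 := h x x
    rw [sub_self] at h1
    have e : f (x + x) - 4 * f x = (f (x + x) + f 0 - 2 * f x - 2 * f x) - f 0 := by ring
    rw [e]
    exact (abs_sub _ _).trans (by rw [hK]; linarith)
  set u : G → ℕ → ℝ := fun x n => f ((2 ^ n : ℕ) • x) / 4 ^ n with hu
  have hstep : ∀ x n, dist (u x n) (u x (n + 1)) ≤ K / 4 * (1 / 4) ^ n := by
    intro x n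
    have h3 := h2 ((2 ^ n : ℕ) • x)
    have e1 : (2 ^ n : ℕ) • x + (2 ^ n : ℕ) • x = (2 ^ (n + 1) : ℕ) • x := by
      rw [← add_smul]; congr 1; ring
    rw [e1] at h3
    rw [dist_comm, Real.dist_eq]
    have e2 : u x (n + 1) - u x n =
      (f ((2 ^ (n + 1) : ℕ) • x) - 4 * f ((2 ^ n : ℕ) • x)) * (1 / 4 * (1 / 4) ^ n) := by
      simp only [hu]
      rw [pow_succ (4 : ℝ) n, one_div_pow]
      field_simp
    rw [e2, abs_mul, abs_of_pos (show (0 : ℝ) < 1 / 4 * (1 / 4) ^ n by positivity)]
    calc _ ≤ K * (1 / 4 * (1 / 4) ^ n) := by gcongr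
      _ = K / 4 * (1 / 4) ^ n := by ring
  have hlim : ∀ x, ∃ l, Tendsto (u x) atTop (𝓝 l) := by
    intro x
    exact cauchySeq_tendsto_of_complete (cauchySeq_of_le_geometric (1 / 4) (K / 4) (by norm_num)
      (hstep x))
  choose q hq using hlim
  refine ⟨q, ?_, K / 4 / (1 - 1 / 4), ?_⟩
  · intro x y
    have h3 : Tendsto (fun n => u (x + y) n + u (x - y) n - 2 * u x n - 2 * u y n) atTop
        (𝓝 (q (x + y) + q (x - y) - 2 * q x - 2 * q y)) :=
      ((((hq (x + y)).add (hq (x - y))).sub ((hq x).const_mul 2)).sub ((hq y).const_mul 2))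
    have h4 : Tendsto (fun n => u (x + y) n + u (x - y) n - 2 * u x n - 2 * u y n) atTop
        (𝓝 0) := by
      apply squeeze_zero_norm (a := fun n => C * (1 / 4) ^ n)
      · intro n
        have h5 := h ((2 ^ n : ℕ) • x) ((2 ^ n : ℕ) • y)
        rw [← smul_add, ← smul_sub] at h5
        rw [Real.norm_eq_abs]
        have e : u (x + y) n + u (x - y) n - 2 * u x n - 2 * u y n =
          (f ((2 ^ n : ℕ) • (x + y)) + f ((2 ^ n : ℕ) • (x - y)) - 2 * f ((2 ^ n : ℕ) • x) -
            2 * f ((2 ^ n : ℕ) • y)) * (1 / 4) ^ n := by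
          simp only [hu]
          rw [one_div_pow]
          field_simp
        rw [e, abs_mul, abs_of_pos (show (0 : ℝ) < (1 / 4) ^ n by positivity)]
        gcongr
      · have := (tendsto_pow_atTop_nhds_zero_of_lt_one (r := (1 / 4 : ℝ)) (by norm_num)
          (by norm_num)).const_mul C
        simpa using this
    have := tendsto_nhds_unique h3 h4
    linarith
  · intro x
    have h3 := dist_le_of_le_geometric_of_tendsto₀ (1 / 4) (K / 4) (by norm_num) (hstep x) (hq x)
    have e : u x 0 = f x := by simp [hu]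
    rw [e, dist_comm, Real.dist_eq] at h3
    exact h3

variable {a b : ℤ}

/-- The naive height of a point. -/
noncomputable def nh (P : (curve a b).Point) : ℝ := logHeight P.xRep

lemma vec2_eta {K : Type*} (v : Fin 2 → K) : ![v 0, v 1] = v := by
  ext i; fin_cases i <;> rfl

theorem nh_parallelogram (hΔ : 4 * a ^ 3 + 27 * b ^ 2 ≠ 0) :
    ∃ C, ∀ P Q : (curve a b).Point, |nh (P + Q) + nh (P - Q) - 2 * nh P - 2 * nh Q| ≤ C := by
  have := curve_isElliptic hΔ
  obtain ⟨C₁, h₁⟩ := abs_logHeight_sym2_sub_le ℚ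
  obtain ⟨C₂, h₂⟩ :=
    WeierstrassCurve.abs_logHeight_addSubMap_sub_two_mul_logHeight_le (K := ℚ) (curve a b)
  have hs : ∀ P Q : (curve a b).Point, |logHeight (P.sym2x Q) - (nh P + nh Q)| ≤ C₁ := by
    intro P Q
    have h3 := h₁ (a := P.xRep 0) (b := P.xRep 1) (c := Q.xRep 0) (d := Q.xRep 1)
      (by rw [vec2_eta]; exact P.xRep_ne_zero) (by rw [vec2_eta]; exact Q.xRep_ne_zero)
    rw [vec2_eta, vec2_eta] at h3
    exact h3
  refine ⟨C₁ + C₂ + 2 * C₁, fun P Q => ?_⟩
  obtain ⟨c, hc, hcc⟩ := addSub_sym2x hΔ P Q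
  have h3 := h₂ (P.sym2x Q)
  rw [hcc, logHeight_smul_eq_logHeight _ hc] at h3
  have h4 := hs P Q
  have h5 := hs (P + Q) (P - Q)
  rw [abs_le] at h3 h4 h5 ⊢
  constructor <;> linarith

theorem exists_canonical (hΔ : 4 * a ^ 3 + 27 * b ^ 2 ≠ 0) :
    ∃ (q : (curve a b).Point → ℝ) (C : ℝ),
      (∀ P Q, q (P + Q) + q (P - Q) = 2 * q P + 2 * q Q) ∧ ∀ P, |q P - nh P| ≤ C := by
  obtain ⟨C, hC⟩ := nh_parallelogram hΔ
  obtain ⟨q, h1, C', h2⟩ := exists_quadratic nh C hC
  exact ⟨q, C', h1, h2⟩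

lemma nh_nonneg (P : (curve a b).Point) : 0 ≤ nh P := logHeight_nonneg _

lemma nh_some {x y : ℚ} (h : (curve a b).Nonsingular x y) :
    nh (.some x y h) = Real.log (max x.num.natAbs x.den : ℕ) := by
  unfold nh
  rw [Point.xRep_some, ← logHeight₁_eq_logHeight, Rat.logHeight₁_eq_log_max]

lemma nh_finite (B : ℝ) : {P : (curve a b).Point | nh P ≤ B}.Finite := by
  have h1 : {x : ℚ | logHeight₁ x ≤ B}.Finite := NumberField.finite_setOfPred_logHeight₁_le ℚ B
  -- points with given `x` are finite in number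
  have h2 : {P : (curve a b).Point | nh P ≤ B} ⊆
      {0} ∪ ⋃ x ∈ {x : ℚ | logHeight₁ x ≤ B}, {P : (curve a b).Point | P ≠ 0 ∧ ptX P = x} := by
    intro P hP
    by_cases h0 : P = 0
    · left; exact h0
    · right
      simp only [Set.mem_iUnion]
      refine ⟨ptX P, ?_, h0, rfl⟩
      obtain ⟨hh, e⟩ := exists_eq_some P h0
      have h3 : nh P ≤ B := hP
      rw [e] at h3
      unfold nh at h3
      rw [Point.xRep_some, ← logHeight₁_eq_logHeight] at h3
      exact h3
  refine Set.Finite.subset ((Set.finite_singleton _).union (h1.biUnion fun x _ => ?_)) h2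
  by_cases hex : ∃ P : (curve a b).Point, P ≠ 0 ∧ ptX P = x
  · obtain ⟨P₀, hP₀, hx₀⟩ := hex
    apply Set.Finite.subset (s := {P₀, -P₀}) (Set.toFinite _)
    rintro P ⟨hP, hx⟩
    obtain ⟨hh, e⟩ := exists_eq_some P hP
    obtain ⟨hh₀, e₀⟩ := exists_eq_some P₀ hP₀
    have := (Point.X_eq_iff (h₁ := hh) (h₂ := hh₀)).mp (by rw [hx, hx₀])
    rw [← e, ← e₀] at this
    exact this
  · push Not at hex
    have : {P : (curve a b).Point | P ≠ 0 ∧ ptX P = x} = ∅ := by
      ext P
      simp only [Set.mem_ofPred_eq, Set.mem_empty_iff_false, iff_false, not_and]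
      exact hex P
    rw [this]
    exact Set.finite_empty

section quad

variable {G : Type*} [AddCommGroup G] {q : G → ℝ}
  (hq : ∀ x y, q (x + y) + q (x - y) = 2 * q x + 2 * q y)

include hq

lemma quad_zero : q 0 = 0 := by
  have := hq 0 0
  rw [add_zero, sub_zero] at this
  linarith

lemma quad_neg (x : G) : q (-x) = q x := by
  have h1 := hq 0 x
  rw [zero_add, zero_sub, quad_zero hq] at h1
  linarith

lemma quad_sub_comm (x y : G) : q (x - y) = q (y - x) := by
  rw [← quad_neg hq, neg_sub]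

lemma quad_three (x y z : G) :
    q (x + y + z) = q (x + y) + q (x + z) + q (y + z) - q x - q y - q z := by
  have h1 := hq (x + y) z
  have h2 := hq x (y - z)
  have h3 := hq (x + z) y
  have h4 := hq y z
  rw [show x + (y - z) = x + y - z by abel, show x - (y - z) = x + z - y by abel] at h2
  rw [show x + z + y = x + y + z by abel] at h3
  linarith

lemma quad_double (x : G) : q (x + x) = 4 * q x := by
  have h4 := hq x x
  rw [sub_self, quad_zero hq] at h4
  linarith

lemma quad_nsmul (x : G) (n : ℕ) : q (n • x) = (n : ℝ) ^ 2 * q x := by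
  induction n using Nat.strong_induction_on with
  | _ n ih =>
    match n, ih with
    | 0, _ => simp [quad_zero hq]
    | 1, _ => simp
    | (n + 2), ih =>
      have h6 := hq ((n + 1) • x) x
      have h7 := ih (n + 1) (by omega)
      have h8 := ih n (by omega)
      rw [show (n + 1) • x + x = (n + 2) • x by rw [← succ_nsmul],
        show (n + 1) • x - x = n • x by rw [succ_nsmul]; abel, h7, h8] at h6
      push_cast at h6 ⊢
      linear_combination h6

lemma quad_nsmul_add (x y : G) (n : ℕ) :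
    q (n • x + y) = (n : ℝ) ^ 2 * q x + q y + n * (q (x + y) - q x - q y) := by
  induction n with
  | zero => simp
  | succ n ih =>
    have h1 := quad_three hq (n • x) x y
    have h2 : q (n • x + x) = ((n + 1 : ℕ) : ℝ) ^ 2 * q x := by
      rw [← succ_nsmul, quad_nsmul hq]
    rw [succ_nsmul, h1, ih, h2, quad_nsmul hq]
    push_cast
    ring

end quad

/-- The canonical height is positive on points of infinite order, with a uniform lower bound. -/
theorem canonical_pos {q : (curve a b).Point → ℝ} {C : ℝ}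
    (hq : ∀ P Q, q (P + Q) + q (P - Q) = 2 * q P + 2 * q Q) (hC : ∀ P, |q P - nh P| ≤ C) :
    (∀ P, 0 ≤ q P) ∧ ∃ c : ℝ, 0 < c ∧ ∀ P, ¬ IsOfFinAddOrder P → c ≤ q P := by
  have hmul : ∀ (n : ℕ) P, q (n • P) = (n : ℝ) ^ 2 * q P := by
    intro n P
    have := quad_nsmul_add hq P 0 n
    rw [add_zero, add_zero, quad_zero hq] at this
    linarith
  have hnn : ∀ P, 0 ≤ q P := by
    intro P
    by_contra hneg
    push Not at hneg
    obtain ⟨n, hn⟩ := exists_nat_gt (C / (-q P))
    have h1 := hmul (n + 1) P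
    have h2 := hC ((n + 1) • P)
    have h3 := nh_nonneg ((n + 1) • P)
    rw [abs_le] at h2
    have h4 : C < (n : ℝ) * (-q P) := (div_lt_iff₀ (by linarith)).mp hn
    have h5 : (n : ℝ) * (-q P) ≤ ((n + 1 : ℕ) : ℝ) ^ 2 * (-q P) := by
      apply mul_le_mul_of_nonneg_right _ (by linarith)
      push_cast
      nlinarith [(Nat.cast_nonneg n : (0 : ℝ) ≤ n)]
    nlinarith
  refine ⟨hnn, ?_⟩
  have hpos : ∀ P, ¬ IsOfFinAddOrder P → 0 < q P := by
    intro P hP
    rcases (hnn P).lt_or_eq with h | h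
    · exact h
    · exfalso
      have h1 : ∀ n : ℕ, nh (n • P) ≤ C := by
        intro n
        have h2 := hC (n • P)
        rw [hmul, ← h, mul_zero, abs_le] at h2
        linarith
      have hfin := nh_finite (a := a) (b := b) C
      have hinj : Function.Injective (fun n : ℕ => n • P) := by
        rw [injective_nsmul_iff_not_isOfFinAddOrder]
        exact hP
      have h3 : (Set.range fun n : ℕ => n • P).Infinite := Set.infinite_range_of_injective hinj
      exact h3 (hfin.subset (by rintro _ ⟨n, rfl⟩; exact h1 n))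
  have hfin : {P : (curve a b).Point | q P ≤ 1}.Finite := by
    refine (nh_finite (a := a) (b := b) (1 + C)).subset fun P hP => ?_
    have h2 := hC P
    rw [abs_le] at h2
    have : q P ≤ 1 := hP
    show nh P ≤ 1 + C
    linarith
  set S : Set ℝ := q '' {P : (curve a b).Point | q P ≤ 1 ∧ ¬ IsOfFinAddOrder P} with hS
  have hSf : S.Finite := (hfin.subset fun P hP => hP.1).image _
  rcases S.eq_empty_or_nonempty with h0 | h0
  · refine ⟨1, one_pos, fun P hP => ?_⟩
    by_contra hlt
    push Not at hlt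
    have : q P ∈ S := ⟨P, ⟨hlt.le, hP⟩, rfl⟩
    rw [h0] at this
    exact this
  · obtain ⟨m, hm, hmin⟩ := hSf.exists_minimalFor id _ h0
    obtain ⟨P₀, ⟨-, hP₀⟩, rfl⟩ := hm
    refine ⟨min 1 (q P₀), lt_min one_pos (hpos P₀ hP₀), fun P hP => ?_⟩
    rcases le_or_gt (q P) 1 with h | h
    · have : q P ∈ S := ⟨P, ⟨h, hP⟩, rfl⟩
      rcases le_total (q P₀) (q P) with h3 | h3
      · exact (min_le_right _ _).trans h3
      · exact (min_le_right _ _).trans (hmin this h3)
    · exact (min_le_left _ _).trans h.le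

end Pool.Agent.Lib.MP_3550b5_nt
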