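import Mathlib
import Pool.Agent.Lib.MP_3550b5_nt.RHeight

/-!
A zero estimate for translates of a function of quadratic growth.
-/

namespace Pool.Agent.Lib.MP_3550b5_nt

open Finset

section

variable {G : Type*} [AddCommGroup G] {q : G → ℝ}

/-- The polar form of `q`. -/
def bp (q : G → ℝ) (x y : G) : ℝ := q (x + y) - q x - q y

variable (hq : ∀ x y, q (x + y) + q (x - y) = 2 * q x + 2 * q y)

include hq

lemma bp_add_left (x z y : G) : bp q (x + z) y = bp q x y + bp q z y := by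
  have h := quad_three hq x z y
  unfold bp
  rw [h]
  ring

omit hq in
lemma bp_comm (x y : G) : bp q x y = bp q y x := by
  unfold bp; rw [add_comm]; ring

lemma bp_add_right (x y z : G) : bp q x (y + z) = bp q x y + bp q x z := by
  rw [bp_comm, bp_add_left hq, bp_comm, bp_comm z x]

lemma bp_zero_left (y : G) : bp q 0 y = 0 := by
  unfold bp; rw [zero_add, quad_zero hq]; ring

lemma bp_neg_left (x y : G) : bp q (-x) y = - bp q x y := by
  have h := bp_add_left hq x (-x) y
  rw [add_neg_cancel, bp_zero_left hq] at h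
  linarith

lemma bp_neg_right (x y : G) : bp q x (-y) = - bp q x y := by
  rw [bp_comm, bp_neg_left hq, bp_comm]

lemma bp_nsmul_left (n : ℕ) (x y : G) : bp q (n • x) y = n * bp q x y := by
  induction n with
  | zero => simp [bp_zero_left hq]
  | succ n ih => rw [succ_nsmul, bp_add_left hq, ih]; push_cast; ring

lemma bp_abs_le (hnn : ∀ x, 0 ≤ q x) (x y : G) : |bp q x y| ≤ q x + q y := by
  rw [abs_le]
  constructor
  · have := hnn (x + y)
    unfold bp; linarith
  · have h1 := hnn (x - y)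
    have h2 := bp_neg_right hq x y
    have h3 : bp q x (-y) = q (x - y) - q x - q y := by
      unfold bp; rw [quad_neg hq, sub_eq_add_neg x y]
    rw [h3] at h2
    linarith

/-- Comparison of the sizes of translates. -/
lemma quad_diff (v₁ v w : G) (l : ℕ) :
    q (l • v₁ + w + v₁) - q (l • v₁ + w + v) =
      (1 + l) * (q v₁ - q v) + l * q (v₁ - v) + bp q w (v₁ - v) := by
  have h1 : q (l • v₁ + w + v₁) = q (l • v₁ + w) + q v₁ + bp q (l • v₁ + w) v₁ := by
    unfold bp; ring
  have h2 : q (l • v₁ + w + v) = q (l • v₁ + w) + q v + bp q (l • v₁ + w) v := by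
    unfold bp; ring
  have h3 : bp q (l • v₁ + w) v₁ - bp q (l • v₁ + w) v = bp q (l • v₁ + w) (v₁ - v) := by
    rw [sub_eq_add_neg v₁ v, bp_add_right hq, bp_neg_right hq]; ring
  have h4 : bp q (l • v₁ + w) (v₁ - v) = l * bp q v₁ (v₁ - v) + bp q w (v₁ - v) := by
    rw [bp_add_left hq, bp_nsmul_left hq]
  have h5 : bp q v₁ (v₁ - v) = q v₁ + q (v₁ - v) - q v := by
    have e : bp q v₁ (-(v₁ - v)) = q v - q v₁ - q (v₁ - v) := by
      unfold bp
      rw [quad_neg hq (v₁ - v)]
      congr 3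
      abel
    rw [bp_neg_right hq] at e
    linarith
  rw [h1, h2]
  rw [h5] at h4
  linarith

/-- The zero estimate. -/
theorem zero_estimate (hnn : ∀ x, 0 ≤ q x) {c₁ : ℝ} (hc₁ : ∀ x, x ≠ 0 → c₁ ≤ q x)
    {D : G → ℝ} (hD0 : ∀ x, 0 ≤ D x) {C : ℝ} (hD : ∀ x, D x ≤ Real.exp (q x + C)) {w₀ : G}
    (hw : ∀ x, Real.exp (q x - C) ≤ D x ∨ Real.exp (q (x + w₀) - C) ≤ D (x + w₀))
    {m : ℕ} {l : ℕ} (hl : 1 ≤ l) {V : Finset G}
    (hlV : Real.log (V.card) + m * q w₀ + 2 * m * C < m * (l - 1) * c₁)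
    {c : G → ℝ} (hc : ∃ v ∈ V, c v ≠ 0) :
    ∃ v ∈ V, ∃ w, (w = 0 ∨ w = w₀) ∧ ∑ u ∈ V, c u * D (l • v + w + u) ^ m ≠ 0 := by
  classical
  set V' := V.filter (fun v => c v ≠ 0) with hV'
  have hne : V'.Nonempty := by
    obtain ⟨v, hv, hcv⟩ := hc
    exact ⟨v, mem_filter.mpr ⟨hv, hcv⟩⟩
  obtain ⟨v₁, hv₁, hmax⟩ := exists_max_image V'
    (fun v => Real.log |c v| + m * (1 + l) * q v) hne
  have hv₁V : v₁ ∈ V := (mem_filter.mp hv₁).1
  have hcv₁ : c v₁ ≠ 0 := (mem_filter.mp hv₁).2
  -- choice of `w`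
  obtain ⟨w, hww, hwD⟩ : ∃ w, (w = 0 ∨ w = w₀) ∧
      Real.exp (q (l • v₁ + w + v₁) - C) ≤ D (l • v₁ + w + v₁) := by
    rcases hw (l • v₁ + v₁) with h | h
    · exact ⟨0, Or.inl rfl, by rw [add_zero]; exact h⟩
    · refine ⟨w₀, Or.inr rfl, ?_⟩
      rw [show l • v₁ + w₀ + v₁ = l • v₁ + v₁ + w₀ by abel]
      exact h
  refine ⟨v₁, hv₁V, w, hww, ?_⟩
  have hqw : q w ≤ q w₀ := by
    rcases hww with rfl | rfl
    · rw [quad_zero hq]; exact hnn _
    · exact le_rfl
  set T : ℝ := |c v₁| * D (l • v₁ + w + v₁) ^ m with hT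
  have hcard : (0 : ℝ) < V.card := by
    have : 0 < V.card := card_pos.mpr ⟨v₁, hv₁V⟩
    exact_mod_cast this
  have hTlow : Real.exp (Real.log |c v₁| + m * (q (l • v₁ + w + v₁) - C)) ≤ T := by
    rw [Real.exp_add, Real.exp_log (abs_pos.mpr hcv₁), Real.exp_nat_mul]
    apply mul_le_mul_of_nonneg_left _ (abs_nonneg _)
    exact pow_le_pow_left₀ (Real.exp_pos _).le hwD m
  have hTpos : 0 < T := lt_of_lt_of_le (Real.exp_pos _) hTlow
  -- the other terms
  have hterm : ∀ u ∈ V.erase v₁, |c u * D (l • v₁ + w + u) ^ m| ≤ T / V.card := by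
    intro u hu
    obtain ⟨hune, huV⟩ := mem_erase.mp hu
    by_cases hcu : c u = 0
    · rw [hcu, zero_mul, abs_zero]; positivity
    · have huV' : u ∈ V' := mem_filter.mpr ⟨huV, hcu⟩
      have h1 := hmax u huV'
      have h2 := quad_diff hq v₁ u w l
      have h3 := bp_abs_le hq hnn w (v₁ - u)
      have h4 := hc₁ (v₁ - u) (sub_ne_zero.mpr (Ne.symm hune))
      have h5 := abs_le.mp h3
      rw [abs_mul, abs_of_nonneg (pow_nonneg (hD0 _) m)]
      have h6 : |c u| * D (l • v₁ + w + u) ^ m ≤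
          Real.exp (Real.log |c u| + m * (q (l • v₁ + w + u) + C)) := by
        rw [Real.exp_add, Real.exp_log (abs_pos.mpr hcu), Real.exp_nat_mul]
        apply mul_le_mul_of_nonneg_left _ (abs_nonneg _)
        exact pow_le_pow_left₀ (hD0 _) (hD _) m
      refine h6.trans ?_
      have h7 : T / V.card ≥ Real.exp (Real.log |c v₁| + m * (q (l • v₁ + w + v₁) - C) -
          Real.log V.card) := by
        rw [Real.exp_sub, Real.exp_log hcard]
        gcongr
      refine le_trans ?_ h7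
      apply Real.exp_le_exp.mpr
      have hl1 : (1 : ℝ) ≤ l := by exact_mod_cast hl
      have hm0 : (0 : ℝ) ≤ m := Nat.cast_nonneg m
      have h8 : (l - 1 : ℝ) * c₁ ≤ (l - 1) * q (v₁ - u) :=
        mul_le_mul_of_nonneg_left h4 (by linarith)
      -- key inequality
      have h9 : (m : ℝ) * (q (l • v₁ + w + v₁) - q (l • v₁ + w + u)) ≥
          m * (1 + l) * (q v₁ - q u) + m * ((l - 1) * c₁) - m * q w₀ := by
        rw [h2]
        have h10 : (1 + (l : ℝ)) * (q v₁ - q u) + l * q (v₁ - u) + bp q w (v₁ - u) ≥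
          (1 + l) * (q v₁ - q u) + (l - 1) * c₁ - q w₀ := by
          linarith [h5.1]
        calc (m : ℝ) * ((1 + (l : ℝ)) * (q v₁ - q u) + l * q (v₁ - u) + bp q w (v₁ - u))
            ≥ m * ((1 + l) * (q v₁ - q u) + (l - 1) * c₁ - q w₀) :=
              mul_le_mul_of_nonneg_left h10 hm0
          _ = _ := by ring
      have h11 : (m : ℝ) * (l - 1) * c₁ = m * ((l - 1) * c₁) := by ring
      rw [h11] at hlV
      nlinarith [h9, h1, hlV]
  have hsum : |∑ u ∈ V.erase v₁, c u * D (l • v₁ + w + u) ^ m| < T := by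
    calc |∑ u ∈ V.erase v₁, c u * D (l • v₁ + w + u) ^ m|
        ≤ ∑ u ∈ V.erase v₁, |c u * D (l • v₁ + w + u) ^ m| := abs_sum_le_sum_abs _ _
      _ ≤ ∑ u ∈ V.erase v₁, T / V.card := sum_le_sum hterm
      _ = (V.card - 1 : ℝ) * (T / V.card) := by
          rw [sum_const, card_erase_of_mem hv₁V, nsmul_eq_mul]
          congr 1
          have : 1 ≤ V.card := card_pos.mpr ⟨v₁, hv₁V⟩
          push_cast [this]
          ring
      _ < T := by
          rw [mul_div_assoc', div_lt_iff₀ hcard]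
          nlinarith
  rw [← add_sum_erase V _ hv₁V]
  intro h0
  have h1 : c v₁ * D (l • v₁ + w + v₁) ^ m = -∑ u ∈ V.erase v₁, c u * D (l • v₁ + w + u) ^ m := by
    linarith
  have h2 : T = |∑ u ∈ V.erase v₁, c u * D (l • v₁ + w + u) ^ m| := by
    rw [← abs_neg, ← h1, abs_mul, abs_of_nonneg (pow_nonneg (hD0 _) m)]
  linarith

end

/-- A nonsingular square submatrix of a matrix with independent rows. -/
theorem exists_det_ne_zero {ι σ : Type*} [Fintype ι] [DecidableEq ι] (F : ι → σ → ℝ)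
    (h : ∀ c : ι → ℝ, c ≠ 0 → ∃ s, ∑ i, c i * F i s ≠ 0) :
    ∃ s : ι → σ, (Matrix.of fun i j => F i (s j)).det ≠ 0 := by
  classical
  set col : σ → (ι → ℝ) := fun s i => F i s with hcol
  have hspan : Submodule.span ℝ (Set.range col) = ⊤ := by
    by_contra hne
    obtain ⟨f, hf0, hf⟩ := Submodule.exists_le_ker_of_lt_top _ (lt_top_iff_ne_top.mpr hne)
    set c : ι → ℝ := fun i => f (Pi.single i 1) with hc
    have hfc : ∀ x : ι → ℝ, f x = ∑ i, c i * x i := by
      intro x
      conv_lhs => rw [← Finset.univ_sum_single x]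
      rw [map_sum]
      refine Finset.sum_congr rfl fun i _ => ?_
      have : (Pi.single i (x i) : ι → ℝ) = x i • Pi.single i (1 : ℝ) := by
        rw [← Pi.single_smul, smul_eq_mul, mul_one]
      rw [this, map_smul, smul_eq_mul, mul_comm]
    have hc0 : c ≠ 0 := by
      intro h0
      apply hf0
      ext x
      have h1 := congrFun h0 x
      simpa [hc] using h1
    obtain ⟨s, hs⟩ := h c hc0
    apply hs
    rw [← hfc (col s)]
    exact hf (Submodule.subset_span ⟨s, rfl⟩)
  obtain ⟨b, hb1, hb2, hb3⟩ := exists_linearIndependent ℝ (Set.range col)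
  rw [hspan] at hb2
  have hbase : Module.Basis b ℝ (ι → ℝ) := Module.Basis.mk hb3 (by
    rw [Subtype.range_coe_subtype]
    simp [hb2])
  have : Fintype b := FiniteDimensional.fintypeBasisIndex hbase
  have hcard : Fintype.card b = Fintype.card ι := by
    have h1 := Module.finrank_eq_card_basis hbase
    rw [Module.finrank_fintype_fun_eq_card] at h1
    exact h1.symm
  obtain ⟨e⟩ : Nonempty (ι ≃ b) := Fintype.card_eq.mp hcard.symm
  have hpre : ∀ j : ι, ∃ s, col s = (e j : ι → ℝ) := fun j => hb1 (e j).2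
  choose s hs using hpre
  refine ⟨s, ?_⟩
  have hli : LinearIndependent ℝ (fun j => (e j : ι → ℝ)) := hb3.comp e e.injective
  have h1 : LinearIndependent ℝ (Matrix.of fun i j => F i (s j)).col := by
    have : (Matrix.of fun i j => F i (s j)).col = fun j => (e j : ι → ℝ) := by
      funext j
      rw [← hs j]
      rfl
    rw [this]
    exact hli
  have h2 := Matrix.linearIndependent_cols_iff_isUnit.mp h1
  rw [Matrix.isUnit_iff_isUnit_det, isUnit_iff_ne_zero] at h2
  exact h2

end Pool.Agent.Lib.MP_3550b5_nt
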