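import Mathlib
import Pool.Agent.Lib.MP_3550b5_nt.RSig
import Pool.Agent.Lib.MP_3550b5_nt.RZero

/-!
The size of denominators of rational points.
-/

namespace Pool.Agent.Lib.MP_3550b5_nt

open WeierstrassCurve.Affine

lemma chord_x {a b x y s u : ℚ} (E : y ^ 2 = x ^ 3 + a * x + b) (E' : u ^ 2 = s ^ 3 + a * s + b)
    (hne : x ≠ s) : ((y - u) / (x - s)) ^ 2 - x - s =
      ((x * s + a) * (x + s) + 2 * b - 2 * y * u) / (x - s) ^ 2 := by
  have h : x - s ≠ 0 := sub_ne_zero.mpr hne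
  field_simp
  linear_combination E + E'

lemma chord_bound (a b s u : ℚ) : ∃ R : ℚ, |s| ≤ R ∧ 1 ≤ R ∧ ∀ x y : ℚ,
    y ^ 2 = x ^ 3 + a * x + b → R < |x| →
      |((x * s + a) * (x + s) + 2 * b - 2 * y * u) / (x - s) ^ 2| ≤ R := by
  set K : ℚ := (|s| + |a|) * (1 + |s|) + 2 * |b| + 2 * (1 + |a| + |b|) * |u| with hK
  have hs := abs_nonneg s
  have ha := abs_nonneg a
  have hb := abs_nonneg b
  have hu := abs_nonneg u
  have hK0 : 0 ≤ K := by positivity
  refine ⟨1 + 2 * |s| + 4 * K, by linarith, by linarith, fun x y E hx => ?_⟩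
  have hX1 : 1 ≤ |x| := by linarith
  have hX0 : 0 < |x| := by linarith
  have h1 : |x| / 2 ≤ |x - s| := by
    have := abs_sub_abs_le_abs_sub x s
    linarith
  have h2 : |x| ^ 2 / 4 ≤ (x - s) ^ 2 := by
    rw [← sq_abs (x - s)]
    nlinarith [abs_nonneg (x - s)]
  have hy : |y| ≤ |x| ^ 2 * (1 + |a| + |b|) := by
    apply abs_le_of_sq_le_sq' _ (by positivity) |> abs_le.mpr
    rw [E]
    have e1 : x ^ 3 + a * x + b ≤ |x| ^ 3 + |a| * |x| + |b| := by
      have i1 : x ^ 3 ≤ |x| ^ 3 := by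
        calc x ^ 3 ≤ |x ^ 3| := le_abs_self _
          _ = |x| ^ 3 := abs_pow _ _
      have i2 : a * x ≤ |a| * |x| := by
        calc a * x ≤ |a * x| := le_abs_self _
          _ = _ := abs_mul _ _
      have i3 := le_abs_self b
      linarith
    have e2 : |x| ^ 3 + |a| * |x| + |b| ≤ |x| ^ 4 * (1 + |a| + |b|) := by
      have i0 : 1 ≤ |x| ^ 4 := one_le_pow₀ hX1
      have i1 : |x| ^ 3 ≤ |x| ^ 4 := pow_le_pow_right₀ hX1 (by norm_num)
      have i2 : |x| ≤ |x| ^ 4 := by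
        calc |x| = |x| ^ 1 := (pow_one _).symm
          _ ≤ |x| ^ 4 := pow_le_pow_right₀ hX1 (by norm_num)
      have i3 : |a| * |x| ≤ |a| * |x| ^ 4 := mul_le_mul_of_nonneg_left i2 ha
      have i4 : |b| * 1 ≤ |b| * |x| ^ 4 := mul_le_mul_of_nonneg_left i0 hb
      linarith
    have e3 : |x| ^ 4 * (1 + |a| + |b|) ≤ (|x| ^ 2 * (1 + |a| + |b|)) ^ 2 := by
      have i1 : 1 + |a| + |b| ≤ (1 + |a| + |b|) ^ 2 := by nlinarith
      calc |x| ^ 4 * (1 + |a| + |b|) ≤ |x| ^ 4 * (1 + |a| + |b|) ^ 2 := by gcongr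
        _ = _ := by ring
    linarith
  rw [abs_div, abs_of_nonneg (sq_nonneg (x - s))]
  have hpos : 0 < (x - s) ^ 2 := lt_of_lt_of_le (by positivity) h2
  rw [div_le_iff₀ hpos]
  have hnum : |(x * s + a) * (x + s) + 2 * b - 2 * y * u| ≤ |x| ^ 2 * K := by
    have i1 : |x * s + a| ≤ |x| * (|s| + |a|) := by
      calc |x * s + a| ≤ |x * s| + |a| := abs_add_le _ _
        _ = |x| * |s| + 1 * |a| := by rw [abs_mul, one_mul]
        _ ≤ |x| * |s| + |x| * |a| := by gcongr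
        _ = _ := by ring
    have i2 : |x + s| ≤ |x| * (1 + |s|) := by
      calc |x + s| ≤ |x| + |s| := abs_add_le _ _
        _ = |x| * 1 + 1 * |s| := by ring
        _ ≤ |x| * 1 + |x| * |s| := by gcongr
        _ = _ := by ring
    have i3 : |(x * s + a) * (x + s)| ≤ |x| ^ 2 * ((|s| + |a|) * (1 + |s|)) := by
      rw [abs_mul]
      calc |x * s + a| * |x + s| ≤ (|x| * (|s| + |a|)) * (|x| * (1 + |s|)) := by gcongr
        _ = _ := by ring
    have i4 : |2 * b| ≤ |x| ^ 2 * (2 * |b|) := by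
      rw [abs_mul, abs_two]
      have : 1 ≤ |x| ^ 2 := one_le_pow₀ hX1
      nlinarith
    have i5 : |2 * y * u| ≤ |x| ^ 2 * (2 * (1 + |a| + |b|) * |u|) := by
      rw [abs_mul, abs_mul, abs_two]
      calc 2 * |y| * |u| ≤ 2 * (|x| ^ 2 * (1 + |a| + |b|)) * |u| := by gcongr
        _ = _ := by ring
    calc _ ≤ |(x * s + a) * (x + s) + 2 * b| + |2 * y * u| := abs_sub _ _
      _ ≤ |(x * s + a) * (x + s)| + |2 * b| + |2 * y * u| := by
          have := abs_add_le ((x * s + a) * (x + s)) (2 * b)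
          linarith
      _ ≤ _ := by rw [hK]; linarith
  calc _ ≤ |x| ^ 2 * K := hnum
    _ = (4 * K) * (|x| ^ 2 / 4) := by ring
    _ ≤ (4 * K) * (x - s) ^ 2 := by gcongr
    _ ≤ (1 + 2 * |s| + 4 * K) * (x - s) ^ 2 := by
        apply mul_le_mul_of_nonneg_right _ hpos.le
        linarith

variable {a b : ℤ}

/-- One of two points differing by a fixed point is bounded. -/
theorem exists_bounded {W₀ : (curve a b).Point} (hW : W₀ ≠ 0) :
    ∃ R : ℚ, 1 ≤ R ∧ ∀ Q : (curve a b).Point, (Q ≠ 0 ∧ |ptX Q| ≤ R) ∨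
      (Q + W₀ ≠ 0 ∧ |ptX (Q + W₀)| ≤ R) := by
  obtain ⟨R, h1, h2, h3⟩ := chord_bound (a : ℚ) b (ptX W₀) (ptY W₀)
  refine ⟨R, h2, fun Q => ?_⟩
  by_cases hQ : Q = 0
  · right
    rw [hQ, zero_add]
    exact ⟨hW, h1⟩
  by_cases hR : |ptX Q| ≤ R
  · exact Or.inl ⟨hQ, hR⟩
  right
  push Not at hR
  have hne : ptX Q ≠ ptX W₀ := by
    intro h
    rw [h] at hR
    linarith
  obtain ⟨hh, e⟩ := exists_eq_some Q hQ
  obtain ⟨hh', e'⟩ := exists_eq_some W₀ hW
  have E := curve_eq hh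
  have E' := curve_eq hh'
  have hsum : Q + W₀ = Point.some _ _ hh + Point.some _ _ hh' := by rw [← e, ← e']
  have hx3 : ptX (Q + W₀) = ((ptY Q - ptY W₀) / (ptX Q - ptX W₀)) ^ 2 - ptX Q - ptX W₀ := by
    rw [hsum, Point.add_of_X_ne hne, ptX_some, WeierstrassCurve.Affine.slope_of_X_ne hne]
    simp [WeierstrassCurve.Affine.addX, curve]
  refine ⟨?_, ?_⟩
  · rw [hsum, Point.add_of_X_ne hne]
    exact Point.some_ne_zero _
  · rw [hx3, chord_x E E' hne]
    exact h3 _ _ E hR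

lemma nh_rep {A B D : ℤ} {Q : (curve a b).Point} (h : IsRep a b A B D Q)
    (hc : IsCoprime A D) : nh Q = Real.log (max |(A : ℝ)| ((D : ℝ) ^ 2)) := by
  obtain ⟨h1, h2⟩ := rep_num_den h hc
  obtain ⟨hD, hh, e⟩ := h
  rw [e, ptX_some] at h1 h2
  rw [e, nh_some, h1]
  congr 1
  push_cast
  congr 1
  · rw [Nat.cast_natAbs]; push_cast; rfl
  · exact_mod_cast congrArg (fun z : ℤ => (z : ℝ)) h2

lemma dn_le {Q : (curve a b).Point} : (dn Q : ℝ) ≤ Real.exp (nh Q / 2) := by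
  by_cases hQ : Q = 0
  · rw [hQ, dn_zero]
    push_cast
    exact (Real.exp_pos _).le
  obtain ⟨A, B, D, hrep, hD, hc⟩ := exists_rep hQ
  have h1 := dn_of_rep hrep hD hc
  have h2 := nh_rep hrep hc
  have hDr : (0 : ℝ) < D := by exact_mod_cast hD
  have h3 : (dn Q : ℝ) = (D : ℝ) := by exact_mod_cast congrArg (fun z : ℤ => (z : ℝ)) h1
  rw [h3, h2]
  have h4 : 2 * Real.log D ≤ Real.log (max |(A : ℝ)| ((D : ℝ) ^ 2)) := by
    have : 2 * Real.log D = Real.log ((D : ℝ) ^ 2) := by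
      rw [Real.log_pow]; push_cast; ring
    rw [this]
    exact Real.log_le_log (by positivity) (le_max_right _ _)
  calc (D : ℝ) = Real.exp (Real.log D) := (Real.exp_log hDr).symm
    _ ≤ _ := Real.exp_le_exp.mpr (by linarith)

lemma le_dn {R : ℚ} (hR : 1 ≤ R) {Q : (curve a b).Point} (hQ : Q ≠ 0) (hx : |ptX Q| ≤ R) :
    Real.exp ((nh Q - Real.log R) / 2) ≤ (dn Q : ℝ) := by
  obtain ⟨A, B, D, hrep, hD, hc⟩ := exists_rep hQ
  have h1 := dn_of_rep hrep hD hc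
  have h2 := nh_rep hrep hc
  have hDr : (0 : ℝ) < D := by exact_mod_cast hD
  have hR1 : (1 : ℝ) ≤ R := by exact_mod_cast hR
  have h3 : (dn Q : ℝ) = (D : ℝ) := by exact_mod_cast congrArg (fun z : ℤ => (z : ℝ)) h1
  have h4 : |(A : ℝ)| ≤ R * (D : ℝ) ^ 2 := by
    rw [hrep.ptX_eq, abs_div] at hx
    have hDq : (0 : ℚ) < D := by exact_mod_cast hD
    rw [abs_of_pos (by positivity : (0 : ℚ) < (D : ℚ) ^ 2), div_le_iff₀ (by positivity)] at hx
    exact_mod_cast hx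
  have h5 : nh Q ≤ Real.log (R * (D : ℝ) ^ 2) := by
    rw [h2]
    apply Real.log_le_log
    · exact lt_of_lt_of_le (by positivity) (le_max_right _ _)
    · apply max_le h4
      nlinarith [sq_nonneg (D : ℝ)]
  rw [Real.log_mul (by positivity) (by positivity), Real.log_pow] at h5
  rw [h3]
  calc Real.exp ((nh Q - Real.log R) / 2) ≤ Real.exp (Real.log D) := by
        apply Real.exp_le_exp.mpr
        push_cast at h5
        linarith
    _ = D := Real.exp_log hDr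

/-- The size of denominators in terms of the canonical height. -/
theorem exists_arch (hΔ : 4 * a ^ 3 + 27 * b ^ 2 ≠ 0) {W₀ : (curve a b).Point} (hW : W₀ ≠ 0) :
    ∃ (q : (curve a b).Point → ℝ) (C c : ℝ),
      (∀ P Q, q (P + Q) + q (P - Q) = 2 * q P + 2 * q Q) ∧ (∀ P, 0 ≤ q P) ∧ 0 ≤ C ∧ 0 < c ∧
      (∀ P, ¬ IsOfFinAddOrder P → c ≤ q P) ∧
      (∀ Q, (dn Q : ℝ) ≤ Real.exp (q Q + C)) ∧
      ∀ Q, Real.exp (q Q - C) ≤ (dn Q : ℝ) ∨ Real.exp (q (Q + W₀) - C) ≤ (dn (Q + W₀) : ℝ) := by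
  obtain ⟨q, C, hq, hC⟩ := exists_canonical hΔ
  obtain ⟨hnn, c, hc, hc'⟩ := canonical_pos hq hC
  obtain ⟨R, hR, hb⟩ := exists_bounded hW
  have hC0 : 0 ≤ C := (abs_nonneg _).trans (hC 0)
  have hR1 : (1 : ℝ) ≤ R := by exact_mod_cast hR
  have hlR : 0 ≤ Real.log R := Real.log_nonneg hR1
  have hlow : ∀ Q : (curve a b).Point, Q ≠ 0 → |ptX Q| ≤ R →
      Real.exp (q Q / 2 - (C + Real.log R)) ≤ (dn Q : ℝ) := by
    intro Q h0 hx
    refine le_trans (Real.exp_le_exp.mpr ?_) (le_dn hR h0 hx)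
    have := hC Q
    rw [abs_le] at this
    linarith
  refine ⟨fun Q => q Q / 2, C + Real.log R, c / 2, ?_, ?_, by linarith, by linarith, ?_, ?_, ?_⟩
  · intro P Q
    have := hq P Q
    show q (P + Q) / 2 + q (P - Q) / 2 = 2 * (q P / 2) + 2 * (q Q / 2)
    linarith
  · intro P
    have := hnn P
    show 0 ≤ q P / 2
    linarith
  · intro P hP
    have := hc' P hP
    show c / 2 ≤ q P / 2
    linarith
  · intro Q
    refine dn_le.trans (Real.exp_le_exp.mpr ?_)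
    have := hC Q
    rw [abs_le] at this
    show nh Q / 2 ≤ q Q / 2 + (C + Real.log R)
    linarith
  · intro Q
    rcases hb Q with ⟨h1, h2⟩ | ⟨h1, h2⟩
    · exact Or.inl (hlow _ h1 h2)
    · exact Or.inr (hlow _ h1 h2)

section quad

variable {G : Type*} [AddCommGroup G] {q : G → ℝ}

lemma quad_zsmul (hq : ∀ x y, q (x + y) + q (x - y) = 2 * q x + 2 * q y) (n : ℤ) (x : G) :
    q (n • x) = (n : ℝ) ^ 2 * q x := by
  obtain ⟨k, rfl | rfl⟩ := n.eq_nat_or_neg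
  · rw [natCast_zsmul, quad_nsmul hq]; push_cast; ring
  · rw [neg_zsmul, natCast_zsmul, quad_neg hq, quad_nsmul hq]; push_cast; ring

lemma quad_sum_le (hq : ∀ x y, q (x + y) + q (x - y) = 2 * q x + 2 * q y) (hnn : ∀ x, 0 ≤ q x)
    {ι : Type*} (T : Finset ι) (f : ι → G) :
    q (∑ i ∈ T, f i) ≤ 2 ^ T.card * ∑ i ∈ T, q (f i) := by
  classical
  induction T using Finset.induction_on with
  | empty => simp [quad_zero hq]
  | insert i T hi ih =>
    rw [Finset.sum_insert hi, Finset.sum_insert hi, Finset.card_insert_of_notMem hi]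
    have h1 := hq (f i) (∑ j ∈ T, f j)
    have h2 := hnn (f i - ∑ j ∈ T, f j)
    have h3 : (1 : ℝ) ≤ 2 ^ T.card := one_le_pow₀ (by norm_num)
    have h4 := hnn (f i)
    calc _ ≤ 2 * q (f i) + 2 * q (∑ j ∈ T, f j) := by linarith
      _ ≤ 2 * (2 ^ T.card * q (f i)) + 2 * (2 ^ T.card * ∑ j ∈ T, q (f j)) := by
          have : q (f i) ≤ 2 ^ T.card * q (f i) := le_mul_of_one_le_left h4 h3
          linarith
      _ = _ := by rw [pow_succ]; ring

/-- Quadratic growth. -/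
lemma quad_lin_le (hq : ∀ x y, q (x + y) + q (x - y) = 2 * q x + 2 * q y) (hnn : ∀ x, 0 ≤ q x)
    {r : ℕ} (P : Fin r → G) : ∃ C : ℝ, 0 ≤ C ∧ ∀ (n : Fin r → ℤ) (M : ℝ), (∀ i, |(n i : ℝ)| ≤ M) →
      q (∑ i, n i • P i) ≤ C * M ^ 2 := by
  refine ⟨2 ^ r * ∑ i, q (P i), mul_nonneg (by positivity) (Finset.sum_nonneg fun i _ => hnn _),
    fun n M hM => ?_⟩
  have h1 := quad_sum_le hq hnn Finset.univ (fun i => n i • P i)
  rw [Finset.card_fin] at h1
  refine h1.trans ?_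
  rw [mul_assoc]
  refine mul_le_mul_of_nonneg_left ?_ (by positivity)
  rw [Finset.sum_mul]
  refine Finset.sum_le_sum fun i _ => ?_
  rw [quad_zsmul hq, mul_comm]
  refine mul_le_mul_of_nonneg_left ?_ (hnn _)
  rw [← sq_abs]
  exact pow_le_pow_left₀ (abs_nonneg _) (hM i) 2

end quad

end Pool.Agent.Lib.MP_3550b5_nt
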