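import Mathlib
import Pool.Agent.Lib.MP_3550b5_nt.RArch
import Pool.Agent.Lib.MP_3550b5_nt.Reg

/-!
The main inequality.
-/

namespace Pool.Agent.Lib.MP_3550b5_nt

open WeierstrassCurve.Affine

variable {p : ℕ} [hp : Fact p.Prime] {a b : ℤ}

/-- The combination of the points `P i` with coefficients `n i`. -/
def lin {r : ℕ} (P : Fin r → (curve a b).Point) : (Fin r → ℤ) →+ (curve a b).Point where
  toFun n := ∑ i, n i • P i
  map_zero' := by simp
  map_add' n m := by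
    rw [← Finset.sum_add_distrib]
    exact Finset.sum_congr rfl fun i _ => by rw [Pi.add_apply, add_zsmul]

lemma lin_apply {r : ℕ} (P : Fin r → (curve a b).Point) (n : Fin r → ℤ) :
    lin P n = ∑ i, n i • P i := rfl

/-- The points of the box `[N, 2 N) ^ r`. -/
def boxPt {r : ℕ} (N : ℕ) (i : Fin r → Fin N) : Fin r → ℤ := fun k => (N : ℤ) + ((i k : ℕ) : ℤ)

lemma boxPt_inj {r : ℕ} (N : ℕ) : Function.Injective (boxPt (r := r) N) := by
  intro i j h
  funext k
  have := congrFun h k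
  unfold boxPt at this
  apply Fin.ext
  omega

theorem main_ineq (hp5 : 5 ≤ p) {Bh : (curve a b).Point → (curve a b).Point → ℚ_[p]}
    (hB : IsCanonicalHeight p a b Bh) {r ρ : ℕ} (hr : 1 ≤ r) {P : Fin r → (curve a b).Point}
    (hP : ∀ i, P i ∈ goodGroup p a b) (hind : ∀ n : Fin r → ℤ, ∑ i, n i • P i = 0 → n = 0)
    {x y : Fin r → Fin ρ → ℤ_[p]} (hx : ∀ i k, (p : ℤ_[p]) ∣ x i k)
    (hy : ∀ i k, (p : ℤ_[p]) ∣ y i k)
    (hxy : ∀ i j, ((∑ k, x i k * y j k : ℤ_[p]) : ℚ_[p]) = Bh (P i) (P j))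
    {q : (curve a b).Point → ℝ} {C c : ℝ}
    (hq : ∀ P Q, q (P + Q) + q (P - Q) = 2 * q P + 2 * q Q) (hnn : ∀ P, 0 ≤ q P)
    (hc : ∀ P, ¬ IsOfFinAddOrder P → c ≤ q P) (hup : ∀ Q, (dn Q : ℝ) ≤ Real.exp (q Q + C))
    (hlow : ∀ Q, Real.exp (q Q - C) ≤ (dn Q : ℝ) ∨
      Real.exp (q (Q + lin P (fun _ => 1)) - C) ≤ (dn (Q + lin P (fun _ => 1)) : ℝ))
    {C₂ : ℝ} (hC₂ : ∀ (n : Fin r → ℤ) (M : ℝ), (∀ i, |(n i : ℝ)| ≤ M) →
      q (∑ i, n i • P i) ≤ C₂ * M ^ 2) {N h l : ℕ} (hN : 1 ≤ N) (hl : 3 ≤ l)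
    (hlV : Real.log ((N ^ r : ℕ)) + ((p - 1 : ℕ) : ℝ) * q (lin P (fun _ => 1)) +
      2 * ((p - 1 : ℕ) : ℝ) * C < ((p - 1 : ℕ) : ℝ) * (l - 1) * c)
    (hh : 2 * h ^ (ρ + 1) ≤ N ^ r) :
    (h : ℝ) / 2 * Real.log p ≤ Real.log ((N ^ r : ℕ)) +
      ((p - 1 : ℕ) : ℝ) * (C₂ * (2 * (l + 2) * N) ^ 2 + C) := by
  classical
  set m := p - 1 with hm
  set w₀ : Fin r → ℤ := fun _ => 1 with hw₀
  set L := N ^ r with hL
  have hLpos : 0 < L := by rw [hL]; positivity
  have hinj : Function.Injective (lin P) := by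
    rw [injective_iff_map_eq_zero]
    exact fun n hn => hind n hn
  have hgood : ∀ n, lin P n ∈ goodGroup p a b := by
    intro n
    rw [lin_apply]
    exact sum_mem fun i _ => zsmul_mem (hP i) _
  have hne0 : ∀ n : Fin r → ℤ, n ≠ 0 → lin P n ≠ 0 := fun n hn h0 => hn (hind n h0)
  set v : (Fin r → Fin N) → (Fin r → ℤ) := boxPt N with hv
  have hvinj : Function.Injective v := boxPt_inj N
  have hcardι : Fintype.card (Fin r → Fin N) = L := by
    rw [Fintype.card_fun, Fintype.card_fin, Fintype.card_fin]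
  -- the zero estimate
  set σ := {s : Fin r → ℤ // ∃ (i : Fin r → Fin N) (w : Fin r → ℤ), (w = 0 ∨ w = w₀) ∧
    s = l • v i + w} with hσ
  have hzero : ∀ c : (Fin r → Fin N) → ℝ, c ≠ 0 → ∃ s : σ,
      ∑ i, c i * (dn (lin P (s.1 + v i)) : ℝ) ^ m ≠ 0 := by
    intro c' hc'
    set V : Finset (Fin r → ℤ) := Finset.univ.map ⟨v, hvinj⟩ with hV
    set c'' : (Fin r → ℤ) → ℝ := Function.extend v c' 0 with hc''
    have hVc : V.card = L := by
      rw [hV, Finset.card_map, Finset.card_univ, hcardι]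
    obtain ⟨i₀, hi₀⟩ : ∃ i, c' i ≠ 0 := by
      by_contra hcon
      push Not at hcon
      exact hc' (funext hcon)
    obtain ⟨v₁, hv₁, w, hw, hsum⟩ := zero_estimate (q := fun n : Fin r → ℤ => q (lin P n))
      (fun n n' => by
        show q (lin P (n + n')) + q (lin P (n - n')) = 2 * q (lin P n) + 2 * q (lin P n')
        rw [map_add, map_sub]; exact hq _ _)
      (fun n => hnn _)
      (c₁ := c) (fun n hn => hc _ (good_not_torsion (hgood n) (hne0 n hn)))
      (D := fun n => (dn (lin P n) : ℝ)) (fun n => Nat.cast_nonneg _) (C := C)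
      (fun n => hup _) (w₀ := w₀) (fun n => by
        show Real.exp (q (lin P n) - C) ≤ (dn (lin P n) : ℝ) ∨
          Real.exp (q (lin P (n + w₀)) - C) ≤ (dn (lin P (n + w₀)) : ℝ)
        rw [map_add]; exact hlow _)
      (m := m) (l := l) (by omega) (V := V) (by rw [hVc]; exact hlV) (c := c'')
      ⟨v i₀, by rw [hV, Finset.mem_map]; exact ⟨i₀, Finset.mem_univ _, rfl⟩,
        by rw [hc'', hvinj.extend_apply]; exact hi₀⟩
    rw [hV, Finset.mem_map] at hv₁
    obtain ⟨i₁, -, rfl⟩ := hv₁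
    refine ⟨⟨l • v i₁ + w, i₁, w, hw, rfl⟩, ?_⟩
    rw [hV, Finset.sum_map] at hsum
    simp only [Function.Embedding.coeFn_mk, hc'', hvinj.extend_apply] at hsum
    exact hsum
  obtain ⟨s, hs⟩ := exists_det_ne_zero (fun (i : Fin r → Fin N) (s : σ) =>
    (dn (lin P (s.1 + v i)) : ℝ) ^ m) hzero
  -- geometry of rows and columns
  have i0 : Fin r := ⟨0, hr⟩
  have hvb : ∀ i k, (N : ℤ) ≤ v i k ∧ v i k < 2 * N := by
    intro i k
    rw [hv]
    unfold boxPt
    have := (i k).2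
    omega
  have hsb : ∀ j k, (3 * N : ℤ) ≤ (s j).1 k ∧ (s j).1 k ≤ l * (2 * N) + 1 := by
    intro j k
    obtain ⟨i, w, hw, e⟩ := (s j).2
    have h1 := hvb i k
    have h2 : (s j).1 k = l * v i k + w k := by
      rw [e]
      simp
    have h3 : 0 ≤ w k ∧ w k ≤ 1 := by
      rcases hw with rfl | rfl
      · simp
      · simp [hw₀]
    have h4 : (3 : ℤ) ≤ l := by exact_mod_cast hl
    rw [h2]
    constructor
    · nlinarith [h1.1]
    · have : (l : ℤ) * v i k ≤ l * (2 * N) := by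
        apply mul_le_mul_of_nonneg_left h1.2.le (by positivity)
      linarith [h3.2]
  have hNz : (1 : ℤ) ≤ N := by exact_mod_cast hN
  have hv0 : ∀ i, v i ≠ 0 := by
    intro i h0
    have := (hvb i i0).1
    rw [h0] at this
    simp only [Pi.zero_apply] at this
    omega
  have hs0 : ∀ j, (s j).1 ≠ 0 := by
    intro i h0
    have := (hsb i i0).1
    rw [h0] at this
    simp only [Pi.zero_apply] at this
    omega
  have hX : ∀ i j, ptX (lin P (s j).1) ≠ ptX (lin P (v i)) := by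
    intro i j h0
    obtain ⟨hh, e⟩ := exists_eq_some (lin P (s j).1) (hne0 _ (hs0 j))
    obtain ⟨hh', e'⟩ := exists_eq_some (lin P (v i)) (hne0 _ (hv0 i))
    have h1 := (Point.X_eq_iff (h₁ := hh) (h₂ := hh')).mp h0
    rw [← e, ← e'] at h1
    have h2 := (hsb j i0).1
    have h3 := hvb i i0
    rcases h1 with h1 | h1
    · have := congrFun (hinj h1) i0
      omega
    · rw [← map_neg] at h1
      have := congrFun (hinj h1) i0
      rw [Pi.neg_apply] at this
      omega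
  -- divisibility
  have hbil : ∀ n n' : Fin r → ℤ, ((∑ k, (∑ i, (n i : ℤ_[p]) * x i k) *
      (∑ i, (n' i : ℤ_[p]) * y i k) : ℤ_[p]) : ℚ_[p]) = Bh (lin P n) (lin P n') := by
    intro n n'
    have h1 : Bh (lin P n) (lin P n') = ∑ i, ∑ j, (n i : ℚ_[p]) * (n' j : ℚ_[p]) *
        Bh (P i) (P j) := by
      rw [lin_apply, lin_apply, hB.sum]
      refine Finset.sum_congr rfl fun i _ => ?_
      rw [hB.zsmul, hB.symm, hB.sum, Finset.mul_sum]
      refine Finset.sum_congr rfl fun j _ => ?_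
      rw [hB.zsmul, hB.symm]
      ring
    have h2 : (∑ k, (∑ i, (n i : ℤ_[p]) * x i k) * (∑ i, (n' i : ℤ_[p]) * y i k) : ℤ_[p]) =
        ∑ i, ∑ j, (n i : ℤ_[p]) * (n' j : ℤ_[p]) * ∑ k, x i k * y j k := by
      simp_rw [Finset.sum_mul, Finset.mul_sum]
      rw [Finset.sum_comm]
      refine Finset.sum_congr rfl fun i _ => ?_
      rw [Finset.sum_comm]
      refine Finset.sum_congr rfl fun j _ => ?_
      refine Finset.sum_congr rfl fun k _ => ?_
      ring
    rw [h1, h2, PadicInt.coe_sum]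
    refine Finset.sum_congr rfl fun i _ => ?_
    rw [PadicInt.coe_sum]
    refine Finset.sum_congr rfl fun j _ => ?_
    rw [PadicInt.coe_mul, hxy, PadicInt.coe_mul, PadicInt.coe_intCast, PadicInt.coe_intCast]
  have hdvd := det_dvd hp5 hB (v := fun i => lin P (v i)) (n := fun j => lin P (s j).1)
    (fun i => hgood _) (fun i => hgood _) (fun i => hne0 _ (hv0 i)) (fun i => hne0 _ (hs0 i)) hX
    (x := fun j k => ∑ i, ((s j).1 i : ℤ_[p]) * x i k)
    (y := fun i k => ∑ t, (v i t : ℤ_[p]) * y t k)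
    (fun j k => Finset.dvd_sum fun i _ => Dvd.dvd.mul_left (hx i k) _)
    (fun j k => Finset.dvd_sum fun i _ => Dvd.dvd.mul_left (hy i k) _)
    (fun i j => hbil _ _) h
  rw [hcardι] at hdvd
  set Δ : ℤ := (Matrix.of fun i j => ((dn (lin P (s j).1 + lin P (v i)) : ℤ)) ^ (p - 1)).det
    with hΔ
  have hΔcast : (Δ : ℝ) = (Matrix.of fun i j => (dn (lin P ((s j).1 + v i)) : ℝ) ^ m).det := by
    have := RingHom.map_det (Int.castRingHom ℝ)
      (Matrix.of fun i j => ((dn (lin P (s j).1 + lin P (v i)) : ℤ)) ^ (p - 1))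
    rw [eq_intCast] at this
    rw [hΔ, this]
    congr 1
    ext i j
    simp [hm]
  have hΔ0 : Δ ≠ 0 := by
    intro h0
    apply hs
    rw [← hΔcast, h0]
    simp
  have hlower : (p : ℝ) ^ (h * (L - h ^ (ρ + 1))) ≤ |(Δ : ℝ)| := by
    have h1 := Int.le_of_dvd (abs_pos.mpr hΔ0) ((dvd_abs _ _).mpr hdvd)
    exact_mod_cast h1
  -- upper bound
  set M : ℝ := 2 * (l + 2) * N with hM
  have hNr : (1 : ℝ) ≤ N := by exact_mod_cast hN
  have hentry : ∀ i j, |(dn (lin P ((s j).1 + v i)) : ℝ) ^ m| ≤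
      Real.exp ((m : ℝ) * (C₂ * M ^ 2 + C)) := by
    intro i j
    have h1 : q (lin P ((s j).1 + v i)) ≤ C₂ * M ^ 2 := by
      rw [lin_apply]
      apply hC₂
      intro k
      have h2 := hsb j k
      have h3 := hvb i k
      have h4 : (0 : ℤ) ≤ ((s j).1 + v i) k := by
        rw [Pi.add_apply]; omega
      have h5 : ((s j).1 + v i) k ≤ 2 * (l + 2) * N := by
        rw [Pi.add_apply]
        nlinarith [h2.2, h3.2]
      rw [abs_of_nonneg (by exact_mod_cast h4), hM]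
      exact_mod_cast h5
    rw [abs_of_nonneg (by positivity), Real.exp_nat_mul]
    apply pow_le_pow_left₀ (Nat.cast_nonneg _)
    exact (hup _).trans (Real.exp_le_exp.mpr (by linarith))
  have hupper : |(Δ : ℝ)| ≤ (L.factorial : ℝ) * Real.exp ((m : ℝ) * (C₂ * M ^ 2 + C)) ^ L := by
    rw [hΔcast]
    have := Matrix.det_le (abv := (AbsoluteValue.abs : AbsoluteValue ℝ ℝ))
      (A := (Matrix.of fun i j => (dn (lin P ((s j).1 + v i)) : ℝ) ^ m)) (fun i j => hentry i j)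
    rw [hcardι, nsmul_eq_mul] at this
    exact this
  have hp1 : (1 : ℝ) < p := by exact_mod_cast hp.out.one_lt
  have hlogp : 0 < Real.log p := Real.log_pos hp1
  have hfin := hlower.trans hupper
  have hLr : (1 : ℝ) ≤ L := by exact_mod_cast hLpos
  have hfact : (L.factorial : ℝ) ≤ (L : ℝ) ^ L := by exact_mod_cast Nat.factorial_le_pow L
  have hfin2 : (p : ℝ) ^ (h * (L - h ^ (ρ + 1))) ≤
      (L : ℝ) ^ L * Real.exp ((m : ℝ) * (C₂ * M ^ 2 + C)) ^ L :=
    hfin.trans (mul_le_mul_of_nonneg_right hfact (by positivity))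
  have hlog := Real.log_le_log (by positivity) hfin2
  rw [Real.log_mul (by positivity) (by positivity), Real.log_pow, Real.log_pow, Real.log_pow,
    Real.log_exp] at hlog
  have hexp : (h : ℝ) * L / 2 ≤ ((h * (L - h ^ (ρ + 1)) : ℕ) : ℝ) := by
    have h1 : L ≤ 2 * (L - h ^ (ρ + 1)) := by omega
    have h2 : (L : ℝ) ≤ 2 * ((L - h ^ (ρ + 1) : ℕ) : ℝ) := by exact_mod_cast h1
    rw [Nat.cast_mul]
    have h3 : (0 : ℝ) ≤ h := Nat.cast_nonneg _
    nlinarith
  have hfin3 : (h : ℝ) * L / 2 * Real.log p ≤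
      L * Real.log L + L * ((m : ℝ) * (C₂ * M ^ 2 + C)) := by
    calc (h : ℝ) * L / 2 * Real.log p ≤ ((h * (L - h ^ (ρ + 1)) : ℕ) : ℝ) * Real.log p := by
          gcongr
      _ ≤ _ := hlog
  have hLr0 : (0 : ℝ) < L := by linarith
  have hfin4 : (L : ℝ) * ((h : ℝ) / 2 * Real.log p) ≤
      L * (Real.log L + ((m : ℝ) * (C₂ * M ^ 2 + C))) := by
    linarith
  exact le_of_mul_le_mul_left hfin4 hLr0

end Pool.Agent.Lib.MP_3550b5_nt
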