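import Mathlib
import Pool.Agent.Lib.MP_3550b5_nt.NSig
import Pool.Agent.Lib.MP_3550b5_nt.NZero
import Pool.Agent.Lib.MP_3550b5_nt.RCore

/-!
The functions of the auxiliary construction.
-/

namespace Pool.Agent.Lib.MP_3550b5_nt

open WeierstrassCurve.Affine PowerSeries

variable {p : ℕ} [hp : Fact p.Prime] {a b : ℤ}

/-- Points of the kernel of reduction are determined by their parameters. -/
lemma tz_inj' {W : ℤ_[p]⟦X⟧} (hW : W = 1 + C (a : ℤ_[p]) * X ^ 4 * W ^ 2 +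
    C (b : ℤ_[p]) * X ^ 6 * W ^ 3) {Q Q' : (curve a b).Point}
    (h : 1 < ‖((ptX Q : ℚ) : ℚ_[p])‖) (h' : 1 < ‖((ptX Q' : ℚ) : ℚ_[p])‖)
    (ht : tz p Q = tz p Q') : Q = Q' := by
  have hx := tz_inj hW h h' ht
  have hw : wz p Q = wz p Q' := by
    rw [ev_w hW (Or.inr h), ev_w hW (Or.inr h'), ht]
  obtain ⟨h1, -, h3, -, -⟩ := ker_coords h
  obtain ⟨h1', -, h3', -, -⟩ := ker_coords h'
  rw [hw, h3'] at h3
  have hy : ((ptY Q : ℚ) : ℚ_[p]) = ((ptY Q' : ℚ) : ℚ_[p]) := by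
    field_simp at h3
    linear_combination -h3
  have hy' : ptY Q = ptY Q' := by exact_mod_cast hy
  obtain ⟨hh, e⟩ := exists_eq_some Q (ne_zero_of_norm h)
  obtain ⟨hh', e'⟩ := exists_eq_some Q' (ne_zero_of_norm h')
  rw [e, e']
  simp only [Point.some.injEq]
  exact ⟨hx, hy'⟩

/-- The balanced decomposition of the vector `T + l`. -/
def bal (T : ℕ) {s N : ℕ} (l : Fin s → Fin N) (i : Fin T) : Fin s → ℤ :=
  fun j => 1 + (((l j : ℕ) / T : ℕ) : ℤ) + (if (i : ℕ) < (l j : ℕ) % T then 1 else 0)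

lemma bal_bounds {T s B : ℕ} (l : Fin s → Fin (T * (B - 1))) (i : Fin T) (j : Fin s) :
    1 ≤ bal T l i j ∧ bal T l i j ≤ B := by
  have h1 : (l j : ℕ) / T < B - 1 := Nat.div_lt_of_lt_mul (l j).2
  unfold bal
  generalize (l j : ℕ) / T = q at h1 ⊢
  constructor
  · split_ifs <;> omega
  · split_ifs <;> omega

lemma bal_sum {T s N : ℕ} (hT : 0 < T) (l : Fin s → Fin N) (j : Fin s) :
    ∑ i : Fin T, bal T l i j = T + (l j : ℕ) := by
  unfold bal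
  rw [Finset.sum_add_distrib]
  simp only [Finset.sum_const, Finset.card_univ, Fintype.card_fin, nsmul_eq_mul]
  have h1 : ∑ i : Fin T, (if (i : ℕ) < (l j : ℕ) % T then (1 : ℤ) else 0) =
      (((l j : ℕ) % T : ℕ) : ℤ) := by
    rw [Fin.sum_univ_eq_sum_range (fun i => if i < (l j : ℕ) % T then (1 : ℤ) else 0) T,
      ← Finset.sum_filter]
    have h2 : (Finset.range T).filter (fun i => i < (l j : ℕ) % T) =
        Finset.range ((l j : ℕ) % T) := by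
      ext i
      simp only [Finset.mem_filter, Finset.mem_range]
      have := Nat.mod_lt (l j : ℕ) hT
      omega
    rw [h2]
    simp
  rw [h1]
  have h2 := Nat.div_add_mod (l j : ℕ) T
  have h3 : (T : ℤ) * (((l j : ℕ) / T : ℕ) : ℤ) + (((l j : ℕ) % T : ℕ) : ℤ) = ((l j : ℕ) : ℤ) := by
    exact_mod_cast h2
  linarith

/-- The functions of the construction. -/
noncomputable def rowF (m T : ℕ) {s N : ℕ} (Q : Fin s → (curve a b).Point) (k : Fin (T + 1))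
    (l : Fin s → Fin N) (R : (curve a b).Point) : ℤ :=
  an R ^ (k : ℕ) * (dn R : ℤ) ^ (2 * (T - k)) * ∏ i : Fin T, (dn (R + lin Q (bal T l i)) : ℤ) ^ m

theorem appr_row (hp5 : 5 ≤ p) {Bh : (curve a b).Point → (curve a b).Point → ℚ_[p]}
    (hB : IsCanonicalHeight p a b Bh) {s : ℕ} {Q : Fin s → (curve a b).Point}
    (hQ : ∀ j, Q j ∈ goodGroup p a b) (hindQ : ∀ n : Fin s → ℤ, ∑ j, n j • Q j = 0 → n = 0)
    (hs : 1 ≤ s) (T B : ℕ) :
    ∃ (w : (curve a b).Point → ℤ_[p]) (W : ℤ_[p]⟦X⟧),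
      (W = 1 + C (a : ℤ_[p]) * X ^ 4 * W ^ 2 + C (b : ℤ_[p]) * X ^ 6 * W ^ 3) ∧
      (∀ R ∈ goodGroup p a b, R ≠ 0 → IsUnit (w R)) ∧
      ∀ {S : Type} (R : S → (curve a b).Point), (∀ x, R x ∈ goodGroup p a b) →
        (∀ x, R x ≠ 0) → (∀ x (v : Fin s → ℤ), (∀ j, 1 ≤ v j ∧ v j ≤ B) →
          ptX (R x) ≠ ptX (lin Q v)) → (∀ x j, Bh (R x) (Q j) = 0) →
        ∀ (k : Fin (T + 1)) (l : Fin s → Fin (T * (B - 1))),
          Appr (fun x (_ : Fin 1) => tz p (R x))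
            (fun x => w (R x) * ((rowF (p - 1) T Q k l (R x) : ℤ) : ℤ_[p])) := by
  obtain ⟨σ, ξ, W, u, hW, hu⟩ := exists_sigma2 hB
  have hu' : ∀ Q ∈ goodGroup p a b, Q ≠ 0 → IsUnit (u Q) ∧
      ev σ (tz p Q) = (dn Q : ℤ_[p]) * u Q ∧ ulog (u Q) = Bh Q Q :=
    fun Q h1 h2 => ⟨(hu Q h1 h2).1, (hu Q h1 h2).2.1, (hu Q h1 h2).2.2.1⟩
  refine ⟨fun R => u R ^ (2 * T + (p - 1) * T), W, hW,
    fun R h1 h2 => (hu R h1 h2).1.pow _, ?_⟩
  intro S R hR hR0 hX horth k l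
  have i0 : Fin s := ⟨0, hs⟩
  have hVg : ∀ n : Fin s → ℤ, lin Q n ∈ goodGroup p a b := by
    intro n
    rw [lin_apply]
    exact sum_mem fun i _ => zsmul_mem (hQ i) _
  have hV0 : ∀ i : Fin T, lin Q (bal T l i) ≠ 0 := by
    intro i h0
    have h1 := hindQ _ h0
    have h2 := (bal_bounds l i i0).1
    rw [h1] at h2
    simp at h2
  have hXX : ∀ x (i : Fin T), ptX (R x) ≠ ptX (lin Q (bal T l i)) := fun x i =>
    hX x _ fun j => bal_bounds l i j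
  have hs0 : ∀ x (i : Fin T), R x + lin Q (bal T l i) ≠ 0 := by
    intro x i h0
    apply hXX x i
    have h1 : R x = -lin Q (bal T l i) := eq_neg_of_add_eq_zero_left h0
    obtain ⟨hh, e⟩ := exists_eq_some _ (hV0 i)
    rw [h1, e, Point.neg_some, ptX_some, ptX_some]
  have hRk : ∀ x, 1 < ‖((ptX (R x) : ℚ) : ℚ_[p])‖ := fun x => ((hR x).resolve_left (hR0 x)).1
  have hVk : ∀ i, 1 < ‖((ptX (lin Q (bal T l i)) : ℚ) : ℚ_[p])‖ := fun i =>
    ((hVg _).resolve_left (hV0 i)).1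
  have horth' : ∀ x (n : Fin s → ℤ), Bh (R x) (lin Q n) = 0 := by
    intro x n
    rw [hB.symm, lin_apply, hB.sum]
    apply Finset.sum_eq_zero
    intro j _
    rw [hB.zsmul, hB.symm, horth, mul_zero]
  -- the identity
  have hid : ∀ x, u (R x) ^ (2 * T + (p - 1) * T) *
      ((rowF (p - 1) T Q k l (R x) : ℤ) : ℤ_[p]) * ∏ i : Fin T, u (lin Q (bal T l i)) ^ (p - 1) =
      ev ξ (tz p (R x)) ^ (k : ℕ) * ev σ (tz p (R x)) ^ (2 * (T - k)) *
        ∏ i : Fin T, ev σ (tz p (R x + lin Q (bal T l i))) ^ (p - 1) := by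
    intro x
    obtain ⟨-, u2, -, u4⟩ := hu (R x) (hR x) (hR0 x)
    have h1 : ∀ i : Fin T, ev σ (tz p (R x + lin Q (bal T l i))) ^ (p - 1) =
        (dn (R x + lin Q (bal T l i)) : ℤ_[p]) ^ (p - 1) * u (R x) ^ (p - 1) *
          u (lin Q (bal T l i)) ^ (p - 1) := by
      intro i
      have h2 := kernel_identity hp5 hB hu' (hR x) (hVg (bal T l i)) (hR0 x) (hV0 i) (hs0 x i)
        (β := 0) (dvd_zero _) (by rw [horth']; simp)
      rw [mul_zero, pexp_zero, mul_one] at h2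
      rw [← h2]
      ring
    rw [u2, u4, Finset.prod_congr rfl fun i _ => h1 i, Finset.prod_mul_distrib,
      Finset.prod_mul_distrib, Finset.prod_const, Finset.card_univ, Fintype.card_fin, rowF]
    push_cast
    have h3 : u (R x) ^ (2 * T + (p - 1) * T) = u (R x) ^ (2 * (k : ℕ)) *
        u (R x) ^ (2 * (T - k)) * (u (R x) ^ (p - 1)) ^ T := by
      rw [← pow_mul, ← pow_add, ← pow_add]
      congr 1
      have := k.2
      omega
    rw [h3, mul_pow, mul_pow]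
    ring
  have hUnit : ∀ i : Fin T, IsUnit (u (lin Q (bal T l i)) ^ (p - 1)) := fun i =>
    (hu _ (hVg _) (hV0 i)).1.pow _
  obtain ⟨U, hU⟩ : ∃ U : ℤ_[p], (∏ i : Fin T, u (lin Q (bal T l i)) ^ (p - 1)) * U = 1 := by
    have h1 : IsUnit (∏ i : Fin T, u (lin Q (bal T l i)) ^ (p - 1)) := by
      rw [IsUnit.prod_univ_iff]; exact hUnit
    obtain ⟨c, hc⟩ := h1
    exact ⟨↑c⁻¹, by rw [← hc]; exact c.mul_inv⟩
  have he : (fun x => u (R x) ^ (2 * T + (p - 1) * T) *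
      ((rowF (p - 1) T Q k l (R x) : ℤ) : ℤ_[p])) = fun x =>
      (ev ξ (tz p (R x)) ^ (k : ℕ) * ev σ (tz p (R x)) ^ (2 * (T - k)) *
        ∏ i : Fin T, ev σ (tz p (R x + lin Q (bal T l i))) ^ (p - 1)) * U := by
    funext x
    rw [← hid x]
    linear_combination (-(u (R x) ^ (2 * T + (p - 1) * T) *
      ((rowF (p - 1) T Q k l (R x) : ℤ) : ℤ_[p]))) * hU
  show Appr _ (fun x => u (R x) ^ (2 * T + (p - 1) * T) *
      ((rowF (p - 1) T Q k l (R x) : ℤ) : ℤ_[p]))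
  rw [he]
  have hco : Appr (fun x (_ : Fin 1) => tz p (R x)) (fun x => tz p (R x)) := Appr.coord 0
  have hcp : ∀ x, (p : ℤ_[p]) ∣ tz p (R x) := fun x => Ker.dvd_tz (Or.inr (hRk x))
  refine ((((hco.ev ξ hcp).pow _).mul ((hco.ev σ hcp).pow _)).mul
    (Appr.prod fun i _ => Appr.pow (Appr.ev σ ?_ ?_) _)).mul (Appr.const U)
  · exact appr_tz_add (i := 0) hW hRk (hVk i) (fun x => hXX x i) (fun x => rfl)
  · intro x
    exact Ker.dvd_tz (Ker.of_good (add_mem (hR x) (hVg _)))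

/-- Vanishing at many points forces divisibility at all points. -/
theorem row_dvd (hp5 : 5 ≤ p) {Bh : (curve a b).Point → (curve a b).Point → ℚ_[p]}
    (hB : IsCanonicalHeight p a b Bh) {s : ℕ} {Q : Fin s → (curve a b).Point}
    (hQ : ∀ j, Q j ∈ goodGroup p a b) (hindQ : ∀ n : Fin s → ℤ, ∑ j, n j • Q j = 0 → n = 0)
    (hs : 1 ≤ s) {T B : ℕ} {S : Type} (R : S → (curve a b).Point)
    (hR : ∀ x, R x ∈ goodGroup p a b) (hR0 : ∀ x, R x ≠ 0)
    (hX : ∀ x (v : Fin s → ℤ), (∀ j, 1 ≤ v j ∧ v j ≤ B) → ptX (R x) ≠ ptX (lin Q v))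
    (horth : ∀ x j, Bh (R x) (Q j) = 0) (c : Fin (T + 1) × (Fin s → Fin (T * (B - 1))) → ℤ)
    (Z : Finset S) (hZ : ∀ z ∈ Z, ∀ z' ∈ Z, R z = R z' → z = z')
    (h0 : ∀ z ∈ Z, ∑ r, c r * rowF (p - 1) T Q r.1 r.2 (R z) = 0) (x : S) :
    (p : ℤ) ^ Z.card ∣ ∑ r, c r * rowF (p - 1) T Q r.1 r.2 (R x) := by
  obtain ⟨w, W, hW, hw, hA⟩ := appr_row hp5 hB hQ hindQ hs T B
  have hRk : ∀ x, 1 < ‖((ptX (R x) : ℚ) : ℚ_[p])‖ := fun x => ((hR x).resolve_left (hR0 x)).1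
  have hf : Appr (fun x (_ : Fin 1) => tz p (R x)) (fun x => w (R x) *
      ((∑ r, c r * rowF (p - 1) T Q r.1 r.2 (R x) : ℤ) : ℤ_[p])) := by
    have h1 : (fun x => w (R x) * ((∑ r, c r * rowF (p - 1) T Q r.1 r.2 (R x) : ℤ) : ℤ_[p])) =
        fun x => ∑ r, (c r : ℤ_[p]) * (w (R x) *
          ((rowF (p - 1) T Q r.1 r.2 (R x) : ℤ) : ℤ_[p])) := by
      funext x
      push_cast
      rw [Finset.mul_sum]
      refine Finset.sum_congr rfl fun r _ => ?_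
      ring
    rw [h1]
    exact Appr.sum fun r _ => (Appr.const _).mul (hA R hR hR0 hX horth r.1 r.2)
  have h1 := appr_zeros (fun x => Ker.dvd_tz (Or.inr (hRk x))) hf Z (by
    intro z hz z' hz' h
    exact hZ z hz z' hz' (tz_inj' hW (hRk z) (hRk z') h)) (by
    intro z hz
    rw [h0 z hz]
    simp) x
  rw [(hw _ (hR x) (hR0 x)).dvd_mul_left] at h1
  exact (PadicInt.pow_p_dvd_int_iff _ _).mp h1

end Pool.Agent.Lib.MP_3550b5_nt
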