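import Mathlib
import Pool.Agent.Lib.MP_3550b5_nt.NRow

/-!
The auxiliary function: construction and extrapolation.
-/

namespace Pool.Agent.Lib.MP_3550b5_nt

open WeierstrassCurve.Affine

section siegel

attribute [local instance] Matrix.seminormedAddCommGroup

lemma siegel {α β : Type*} [Fintype α] [Fintype β] (A : Matrix α β ℤ) (hα : 0 < Fintype.card α)
    (hβ : 2 * Fintype.card α ≤ Fintype.card β) {M : ℝ} (hM : 1 ≤ M)
    (hA : ∀ i j, |(A i j : ℝ)| ≤ M) :
    ∃ t : β → ℤ, t ≠ 0 ∧ A.mulVec t = 0 ∧ ∀ j, |(t j : ℝ)| ≤ Fintype.card β * M := by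
  obtain ⟨t, h1, h2, h3⟩ := Int.Matrix.exists_ne_zero_int_vec_norm_le A (by omega) hα
  refine ⟨t, h1, h2, fun j => ?_⟩
  have hn : (1 : ℝ) ≤ Fintype.card β := by
    have : 1 ≤ Fintype.card β := by omega
    exact_mod_cast this
  have hnorm : ‖A‖ ≤ M := by
    rw [Matrix.norm_le_iff (by linarith)]
    intro i j
    rw [Int.norm_eq_abs]
    exact hA i j
  have hbase : (Fintype.card β : ℝ) * max 1 ‖A‖ ≤ Fintype.card β * M := by
    apply mul_le_mul_of_nonneg_left _ (by linarith)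
    exact max_le hM hnorm
  have hbase1 : 1 ≤ (Fintype.card β : ℝ) * max 1 ‖A‖ :=
    one_le_mul_of_one_le_of_one_le hn (le_max_left _ _)
  have hexp : (Fintype.card α : ℝ) / (Fintype.card β - Fintype.card α) ≤ 1 := by
    have h4 : (2 : ℝ) * Fintype.card α ≤ Fintype.card β := by exact_mod_cast hβ
    have h5 : (0 : ℝ) < Fintype.card α := by exact_mod_cast hα
    rw [div_le_one (by linarith)]
    linarith
  calc |(t j : ℝ)| = ‖t j‖ := (Int.norm_eq_abs _).symm
    _ ≤ ‖t‖ := norm_le_pi_norm t j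
    _ ≤ _ := h3
    _ ≤ ((Fintype.card β : ℝ) * max 1 ‖A‖) ^ (1 : ℝ) :=
        Real.rpow_le_rpow_of_exponent_le hbase1 hexp
    _ = (Fintype.card β : ℝ) * max 1 ‖A‖ := Real.rpow_one _
    _ ≤ _ := hbase

end siegel

variable {p : ℕ} [hp : Fact p.Prime] {a b : ℤ}

/-- The points at which the construction works: `R` is not `0` or `± (v 0 Q 0 + ...)` with all
`v j` between `1` and `B`. -/
def Fine {s : ℕ} (Q : Fin s → (curve a b).Point) (B : ℕ) (R : (curve a b).Point) : Prop :=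
  R ≠ 0 ∧ ∀ v : Fin s → ℤ, (∀ j, 1 ≤ v j ∧ v j ≤ B) → ptX R ≠ ptX (lin Q v)

lemma rowF_le {q : (curve a b).Point → ℝ} {C : ℝ}
    (hq : ∀ P Q, q (P + Q) + q (P - Q) = 2 * q P + 2 * q Q) (hnn : ∀ P, 0 ≤ q P)
    (hup : ∀ Q, (dn Q : ℝ) ≤ Real.exp (q Q + C))
    (han : ∀ Q, |(an Q : ℝ)| ≤ Real.exp (2 * (q Q + C))) {m T B s : ℕ}
    {Q : Fin s → (curve a b).Point} {H HQ : ℝ} (R : (curve a b).Point) (hR : q R ≤ H)
    (hQ : ∀ v : Fin s → ℤ, (∀ j, 1 ≤ v j ∧ v j ≤ B) → q (lin Q v) ≤ HQ) (k : Fin (T + 1))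
    (l : Fin s → Fin (T * (B - 1))) :
    |(rowF m T Q k l R : ℝ)| ≤ Real.exp (T * (2 * (H + C) + m * (2 * H + 2 * HQ + C))) := by
  rw [rowF]
  push_cast
  rw [abs_mul, abs_mul, abs_pow, abs_pow, Finset.abs_prod]
  have hk : (k : ℕ) ≤ T := by have := k.2; omega
  have hH : 0 ≤ H := (hnn R).trans hR
  have h1 : |(an R : ℝ)| ^ (k : ℕ) ≤ Real.exp ((k : ℕ) * (2 * (H + C))) := by
    rw [Real.exp_nat_mul]
    apply pow_le_pow_left₀ (abs_nonneg _)
    exact (han R).trans (Real.exp_le_exp.mpr (by linarith))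
  have h2 : |(dn R : ℝ)| ^ (2 * (T - (k : ℕ))) ≤
      Real.exp ((T - (k : ℕ) : ℕ) * (2 * (H + C))) := by
    rw [Real.exp_nat_mul, pow_mul, abs_of_nonneg (Nat.cast_nonneg _)]
    apply pow_le_pow_left₀ (by positivity)
    rw [two_mul (H + C), Real.exp_add, pow_two]
    have h3 := (hup R).trans (Real.exp_le_exp.mpr (by linarith : q R + C ≤ H + C))
    exact mul_le_mul h3 h3 (Nat.cast_nonneg _) (Real.exp_pos _).le
  have h3 : ∏ i : Fin T, |((dn (R + lin Q (bal T l i)) : ℝ)) ^ m| ≤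
      Real.exp (T * (m * (2 * H + 2 * HQ + C))) := by
    rw [Real.exp_nat_mul]
    refine (Finset.prod_le_prod (fun _ _ => abs_nonneg _) (g := fun _ =>
      Real.exp (m * (2 * H + 2 * HQ + C))) fun i _ => ?_).trans ?_
    · rw [abs_pow, abs_of_nonneg (Nat.cast_nonneg _), Real.exp_nat_mul]
      apply pow_le_pow_left₀ (Nat.cast_nonneg _)
      refine (hup _).trans (Real.exp_le_exp.mpr ?_)
      have h4 := hq R (lin Q (bal T l i))
      have h5 := hnn (R - lin Q (bal T l i))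
      have h6 := hQ _ fun j => bal_bounds l i j
      linarith
    · rw [Finset.prod_const, Finset.card_univ, Fintype.card_fin]
  calc _ ≤ Real.exp ((k : ℕ) * (2 * (H + C))) * Real.exp ((T - (k : ℕ) : ℕ) * (2 * (H + C))) *
        Real.exp (T * (m * (2 * H + 2 * HQ + C))) := by
        gcongr
    _ = _ := by
        rw [← Real.exp_add, ← Real.exp_add]
        congr 1
        rw [Nat.cast_sub hk]
        ring

/-- The box `[-S, S] ^ r`. -/
noncomputable def bigBox (r S : ℕ) : Finset (Fin r → ℤ) := Fintype.piFinset fun _ => Finset.Icc (-(S : ℤ)) S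

lemma mem_bigBox {r S : ℕ} {n : Fin r → ℤ} : n ∈ bigBox r S ↔ ∀ i, -(S : ℤ) ≤ n i ∧ n i ≤ S := by
  simp [bigBox, Fintype.mem_piFinset]

lemma card_bigBox (r S : ℕ) : (bigBox r S).card = (2 * S + 1) ^ r := by
  rw [bigBox, Fintype.card_piFinset]
  simp only [Int.card_Icc, Finset.prod_const, Finset.card_univ, Fintype.card_fin]
  congr 1
  omega

open Classical in
lemma card_region {r s B S : ℕ} {P : Fin r → (curve a b).Point}
    {Q : Fin s → (curve a b).Point}
    (hind : ∀ n : Fin r → ℤ, ∑ i, n i • P i = 0 → n = 0)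
    (hindQ : ∀ n : Fin s → ℤ, ∑ j, n j • Q j = 0 → n = 0) (hs : 1 ≤ s) (hr : 2 ≤ r) (hsr : s ≤ r)
    (hS : B ≤ S) (hS1 : 1 ≤ S) :
    S ^ r ≤ ((bigBox r S).filter fun n => Fine Q B (lin P n)).card := by
  classical
  have hinj : Function.Injective (lin P) := by
    rw [injective_iff_map_eq_zero]
    exact fun n hn => hind n hn
  have i0 : Fin s := ⟨0, hs⟩
  obtain ⟨VB, hVB⟩ : ∃ V : Finset (Fin s → ℤ), V = Fintype.piFinset fun _ =>
      Finset.Icc (1 : ℤ) B := ⟨_, rfl⟩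
  have hVBmem : ∀ v, v ∈ VB ↔ ∀ j, 1 ≤ v j ∧ v j ≤ (B : ℤ) := by
    intro v; rw [hVB]; simp [Fintype.mem_piFinset]
  have hVBc : VB.card = B ^ s := by
    rw [hVB, Fintype.card_piFinset]
    simp
  have hbad : ((bigBox r S).filter fun n => ¬ Fine Q B (lin P n)).card ≤ 1 + 2 * B ^ s := by
    have h1 : ((bigBox r S).filter fun n => ¬ Fine Q B (lin P n)).card =
        (((bigBox r S).filter fun n => ¬ Fine Q B (lin P n)).image (lin P)).card :=
      (Finset.card_image_of_injective _ hinj).symm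
    rw [h1]
    have h2 : (((bigBox r S).filter fun n => ¬ Fine Q B (lin P n)).image (lin P)) ⊆
        {0} ∪ (VB.image (lin Q) ∪ VB.image fun v => -lin Q v) := by
      intro R hR
      obtain ⟨n, hn, rfl⟩ := Finset.mem_image.mp hR
      have hnf := (Finset.mem_filter.mp hn).2
      rw [Finset.mem_union, Finset.mem_singleton]
      by_cases h0 : lin P n = 0
      · exact Or.inl h0
      right
      unfold Fine at hnf
      push Not at hnf
      obtain ⟨v, hv, hX⟩ := hnf h0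
      have hv0 : lin Q v ≠ 0 := by
        intro h3
        have h4 := hindQ v h3
        have h5 := (hv i0).1
        rw [h4] at h5
        simp at h5
      obtain ⟨hh, e⟩ := exists_eq_some _ h0
      obtain ⟨hh', e'⟩ := exists_eq_some _ hv0
      have h1 := (Point.X_eq_iff (h₁ := hh) (h₂ := hh')).mp hX
      rw [← e, ← e'] at h1
      rw [Finset.mem_union, Finset.mem_image, Finset.mem_image]
      rcases h1 with h1 | h1
      · exact Or.inl ⟨v, (hVBmem v).mpr hv, h1.symm⟩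
      · exact Or.inr ⟨v, (hVBmem v).mpr hv, h1.symm⟩
    refine (Finset.card_le_card h2).trans ?_
    refine (Finset.card_union_le _ _).trans ?_
    have h3 := Finset.card_union_le (VB.image (lin Q)) (VB.image fun v => -lin Q v)
    have h4 : (VB.image (lin Q)).card ≤ VB.card := Finset.card_image_le
    have h5 : (VB.image fun v => -lin Q v).card ≤ VB.card := Finset.card_image_le
    rw [Finset.card_singleton]
    omega
  have hsplit := Finset.card_filter_add_card_filter_not (s := bigBox r S)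
    (fun n => Fine Q B (lin P n))
  rw [card_bigBox] at hsplit
  have h1 : (2 * S) ^ r < (2 * S + 1) ^ r := Nat.pow_lt_pow_left (by omega) (by omega)
  have h2 : 4 * S ^ r ≤ (2 * S) ^ r := by
    rw [mul_pow]
    apply Nat.mul_le_mul_right
    calc 4 = 2 ^ 2 := by norm_num
      _ ≤ 2 ^ r := Nat.pow_le_pow_right (by norm_num) hr
  have h3 : B ^ s ≤ S ^ r := (Nat.pow_le_pow_left hS s).trans (Nat.pow_le_pow_right hS1 hsr)
  omega

/-- Existence of an auxiliary function which vanishes everywhere. -/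
theorem exists_aux (hp5 : 5 ≤ p) {Bh : (curve a b).Point → (curve a b).Point → ℚ_[p]}
    (hB : IsCanonicalHeight p a b Bh) {r s : ℕ} (hs : 1 ≤ s) (hr : 2 ≤ r) (hsr : s ≤ r)
    {P : Fin r → (curve a b).Point} (hP : ∀ i, P i ∈ goodGroup p a b)
    (hind : ∀ n : Fin r → ℤ, ∑ i, n i • P i = 0 → n = 0)
    {Q : Fin s → (curve a b).Point} (hQ : ∀ j, Q j ∈ goodGroup p a b)
    (hindQ : ∀ n : Fin s → ℤ, ∑ j, n j • Q j = 0 → n = 0)
    (horth : ∀ i j, Bh (P i) (Q j) = 0)
    {q : (curve a b).Point → ℝ} {C : ℝ}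
    (hq : ∀ P Q, q (P + Q) + q (P - Q) = 2 * q P + 2 * q Q) (hnn : ∀ P, 0 ≤ q P) (hC : 0 ≤ C)
    (hup : ∀ Q, (dn Q : ℝ) ≤ Real.exp (q Q + C))
    (han : ∀ Q, |(an Q : ℝ)| ≤ Real.exp (2 * (q Q + C)))
    {CP : ℝ} (hCP0 : 0 ≤ CP) (hCP : ∀ (n : Fin r → ℤ) (M : ℝ), (∀ i, |(n i : ℝ)| ≤ M) →
      q (∑ i, n i • P i) ≤ CP * M ^ 2)
    {CQ : ℝ} (hCQ : ∀ (n : Fin s → ℤ) (M : ℝ), (∀ i, |(n i : ℝ)| ≤ M) →
      q (∑ i, n i • Q i) ≤ CQ * M ^ 2) {T B : ℕ} (hB1 : 1 ≤ B)
    {h : ℕ → ℝ} (hh : ∀ S : ℕ, h S = T * (2 * (CP * S ^ 2 + C) +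
      ((p - 1 : ℕ) : ℝ) * (2 * (CP * S ^ 2) + 2 * (CQ * B ^ 2) + C)))
    (hN1 : 2 * (3 * B) ^ r ≤ (T + 1) * (T * (B - 1)) ^ s)
    (hN2 : ∀ S : ℕ, B ≤ S → (((T + 1) * (T * (B - 1)) ^ s : ℕ) : ℝ) *
      ((((T + 1) * (T * (B - 1)) ^ s : ℕ) : ℝ) * Real.exp (h B) * Real.exp (h (S + 1))) <
        (p : ℝ) ^ (S ^ r)) :
    ∃ c : Fin (T + 1) × (Fin s → Fin (T * (B - 1))) → ℤ, c ≠ 0 ∧
      ∀ n : Fin r → ℤ, Fine Q B (lin P n) →
        ∑ r, c r * rowF (p - 1) T Q r.1 r.2 (lin P n) = 0 := by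
  classical
  have hgood : ∀ n, lin P n ∈ goodGroup p a b := by
    intro n
    rw [lin_apply]
    exact sum_mem fun i _ => zsmul_mem (hP i) _
  have hinj : Function.Injective (lin P) := by
    rw [injective_iff_map_eq_zero]
    exact fun n hn => hind n hn
  have horth' : ∀ n j, Bh (lin P n) (Q j) = 0 := by
    intro n j
    rw [lin_apply, hB.sum]
    apply Finset.sum_eq_zero
    intro i _
    rw [hB.zsmul, horth, mul_zero]
  have hcard : Fintype.card (Fin (T + 1) × (Fin s → Fin (T * (B - 1)))) =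
      (T + 1) * (T * (B - 1)) ^ s := by
    rw [Fintype.card_prod, Fintype.card_fin, Fintype.card_fun, Fintype.card_fin, Fintype.card_fin]
  obtain ⟨L, hL⟩ : ∃ L : ℕ, L = (T + 1) * (T * (B - 1)) ^ s := ⟨_, rfl⟩
  rw [← hL] at hN1 hN2 hcard
  -- bounds for the rows
  have hrow : ∀ (S : ℕ) (n : Fin r → ℤ), n ∈ bigBox r S →
      ∀ (k : Fin (T + 1)) (l : Fin s → Fin (T * (B - 1))),
      |(rowF (p - 1) T Q k l (lin P n) : ℝ)| ≤ Real.exp (h S) := by
    intro S n hn k l
    rw [hh]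
    refine rowF_le hq hnn hup han (lin P n) ?_ ?_ k l
    · rw [lin_apply]
      apply hCP
      intro i
      have h1 := mem_bigBox.mp hn i
      rw [abs_le]
      constructor
      · exact_mod_cast h1.1
      · exact_mod_cast h1.2
    · intro v hv
      rw [lin_apply]
      apply hCQ
      intro j
      have h1 := hv j
      rw [abs_le]
      constructor
      · have : (0 : ℝ) ≤ v j := by exact_mod_cast (by omega : (0 : ℤ) ≤ v j)
        have h2 : (0 : ℝ) ≤ B := Nat.cast_nonneg _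
        linarith
      · exact_mod_cast h1.2
  have hCQ0 : 0 ≤ CQ := by
    have h1 := hCQ 0 1 (fun i => by simp)
    have h2 := hnn (∑ i, (0 : Fin s → ℤ) i • Q i)
    linarith
  have hh0 : ∀ S, 0 ≤ h S := by
    intro S
    rw [hh]
    positivity
  -- the regions
  obtain ⟨reg, hreg⟩ : ∃ reg : ℕ → Finset (Fin r → ℤ), reg = fun S =>
    (bigBox r S).filter fun n => Fine Q B (lin P n) := ⟨_, rfl⟩
  have hregS : ∀ S n, n ∈ reg S ↔ n ∈ bigBox r S ∧ Fine Q B (lin P n) := by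
    intro S n; rw [hreg]; exact Finset.mem_filter
  have hregc : ∀ S, B ≤ S → S ^ r ≤ (reg S).card := by
    intro S hS
    rw [hreg]
    exact card_region hind hindQ hs hr hsr hS (hB1.trans hS)
  have hregB : (reg B).card ≤ (3 * B) ^ r := by
    rw [hreg]
    refine (Finset.card_filter_le _ _).trans ?_
    rw [card_bigBox]
    exact Nat.pow_le_pow_left (by omega) r
  -- Siegel's lemma
  obtain ⟨c, hc0, hc1, hc2⟩ := siegel (α := reg B)
    (β := Fin (T + 1) × (Fin s → Fin (T * (B - 1))))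
    (Matrix.of fun n r => rowF (p - 1) T Q r.1 r.2 (lin P n.1)) (by
      rw [Fintype.card_coe]
      exact lt_of_lt_of_le (by positivity) (hregc B le_rfl)) (by
      rw [Fintype.card_coe, hcard]
      omega) (M := Real.exp (h B)) (Real.one_le_exp (hh0 B)) (by
      intro n r
      exact hrow B n.1 ((hregS B n.1).mp n.2).1 r.1 r.2)
  rw [hcard] at hc2
  refine ⟨c, hc0, ?_⟩
  -- extrapolation
  have hF : ∀ (S : ℕ) (n : Fin r → ℤ), n ∈ bigBox r S →
      |((∑ r, c r * rowF (p - 1) T Q r.1 r.2 (lin P n) : ℤ) : ℝ)| ≤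
        L * (L * Real.exp (h B) * Real.exp (h S)) := by
    intro S n hn
    push_cast
    refine (Finset.abs_sum_le_sum_abs _ _).trans ?_
    have h1 : ∀ r ∈ (Finset.univ : Finset (Fin (T + 1) × (Fin s → Fin (T * (B - 1))))),
        |(c r : ℝ) * (rowF (p - 1) T Q r.1 r.2 (lin P n) : ℝ)| ≤
          L * Real.exp (h B) * Real.exp (h S) := by
      intro r _
      rw [abs_mul]
      exact mul_le_mul (hc2 r) (hrow S n hn r.1 r.2) (abs_nonneg _) (by positivity)
    refine (Finset.sum_le_sum h1).trans ?_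
    rw [Finset.sum_const, Finset.card_univ, hcard, nsmul_eq_mul]
  have key : ∀ S, B ≤ S → ∀ n ∈ reg S,
      ∑ r, c r * rowF (p - 1) T Q r.1 r.2 (lin P n) = 0 := by
    intro S hS
    induction S, hS using Nat.le_induction with
    | base =>
      intro n hn
      have h1 := congrFun hc1 ⟨n, hn⟩
      simp only [Matrix.mulVec, dotProduct, Matrix.of_apply, Pi.zero_apply] at h1
      rw [← h1]
      refine Finset.sum_congr rfl fun r _ => ?_
      ring
    | succ S hS ih =>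
      intro n hn
      obtain ⟨hn1, hn2⟩ := (hregS _ _).mp hn
      have hdvd := row_dvd hp5 hB hQ hindQ hs (T := T) (B := B)
        (S := {n : Fin r → ℤ // Fine Q B (lin P n)}) (fun x => lin P x.1) (fun x => hgood _)
        (fun x => x.2.1) (fun x v hv => x.2.2 v hv) (fun x j => horth' _ _) c
        ((reg S).attach.map ⟨fun x => ⟨x.1, ((hregS _ _).mp x.2).2⟩, by
          intro x y hxy
          exact Subtype.ext (congrArg (fun z : {n : Fin r → ℤ // Fine Q B (lin P n)} => z.1) hxy)⟩)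
        (by
          intro z _ z' _ h
          exact Subtype.ext (hinj h)) (by
          intro z hz
          obtain ⟨x, -, rfl⟩ := Finset.mem_map.mp hz
          exact ih x.1 x.2) ⟨n, hn2⟩
      rw [Finset.card_map, Finset.card_attach] at hdvd
      by_contra hne
      have h1 := Int.le_of_dvd (abs_pos.mpr hne) ((dvd_abs _ _).mpr hdvd)
      have h2 : (p : ℝ) ^ (reg S).card ≤
          |((∑ r, c r * rowF (p - 1) T Q r.1 r.2 (lin P n) : ℤ) : ℝ)| := by exact_mod_cast h1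
      have h3 := hF (S + 1) n hn1
      have h4 := hN2 S hS
      have h5 : (p : ℝ) ^ (S ^ r) ≤ (p : ℝ) ^ (reg S).card :=
        pow_le_pow_right₀ (by exact_mod_cast hp.out.one_le) (hregc S hS)
      linarith
  intro n hn
  obtain ⟨S, hS⟩ : ∃ S : ℕ, ∀ i, -(S : ℤ) ≤ n i ∧ n i ≤ S := by
    refine ⟨∑ i, (n i).natAbs, fun i => ?_⟩
    have h1 : (n i).natAbs ≤ ∑ i, (n i).natAbs :=
      Finset.single_le_sum (f := fun i => (n i).natAbs) (fun _ _ => Nat.zero_le _)
        (Finset.mem_univ i)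
    omega
  refine key (max S B) (le_max_right _ _) n ((hregS _ _).mpr ⟨mem_bigBox.mpr fun i => ?_, hn⟩)
  have h1 := hS i
  have h2 : (S : ℤ) ≤ (max S B : ℕ) := by exact_mod_cast le_max_left _ _
  omega

end Pool.Agent.Lib.MP_3550b5_nt
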