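import Mathlib
import Pool.Agent.Lib.MP_3550b5_nt.RArch

/-!
Multiples of a point of infinite order which are close to the origin in the real topology.
-/

namespace Pool.Agent.Lib.MP_3550b5_nt

open WeierstrassCurve.Affine Filter

lemma close_contra {a b x y x' y' L X δ : ℝ} (E : y ^ 2 = x ^ 3 + a * x + b)
    (E' : y' ^ 2 = x' ^ 3 + a * x' + b) (hX : 1 ≤ X) (hx : |x| ≤ X) (hx' : |x'| ≤ X)
    (hne : x' ≠ x) (hL : L * (x' - x) = y' + y) (hL2 : L ^ 2 ≤ 3 * X) (hδ : 0 ≤ δ)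
    (h1 : |x' - x| ≤ δ) (h2 : |y' - y| ≤ δ) :
    |4 * a ^ 3 + 27 * b ^ 2| ≤ ((3 * X ^ 2 + 4 * |a|) * (6 * X) ^ 2 +
      27 * (X ^ 3 + |a| * X + |b|) * (3 * X + 1) ^ 2) * δ ^ 2 := by
  have hd : x' - x ≠ 0 := sub_ne_zero.mpr hne
  have hLa : |L| ≤ 3 * X := by
    apply abs_le_of_sq_le_sq' _ (by linarith) |> abs_le.mpr
    nlinarith
  have e1 : L * (y' - y) = x ^ 2 + x * x' + x' ^ 2 + a := by
    apply mul_left_cancel₀ hd
    linear_combination (y' - y) * hL + E' - E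
  have hy : |2 * y| ≤ (3 * X + 1) * δ := by
    have e : 2 * y = L * (x' - x) - (y' - y) := by rw [hL]; ring
    rw [e]
    calc |L * (x' - x) - (y' - y)| ≤ |L * (x' - x)| + |y' - y| := abs_sub _ _
      _ ≤ 3 * X * δ + δ := by
          rw [abs_mul]
          have : |L| * |x' - x| ≤ 3 * X * δ := mul_le_mul hLa h1 (abs_nonneg _) (by linarith)
          linarith
      _ = _ := by ring
  have hf : |3 * x ^ 2 + a| ≤ 6 * X * δ := by
    have e : 3 * x ^ 2 + a = L * (y' - y) - (x' - x) * (x' + 2 * x) := by rw [e1]; ring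
    rw [e]
    have h3 : |x' + 2 * x| ≤ 3 * X := by
      calc |x' + 2 * x| ≤ |x'| + |2 * x| := abs_add_le _ _
        _ = |x'| + 2 * |x| := by rw [abs_mul, abs_two]
        _ ≤ 3 * X := by linarith
    calc |L * (y' - y) - (x' - x) * (x' + 2 * x)| ≤ |L * (y' - y)| + |(x' - x) * (x' + 2 * x)| :=
          abs_sub _ _
      _ ≤ 3 * X * δ + δ * (3 * X) := by
          rw [abs_mul, abs_mul]
          have g1 : |L| * |y' - y| ≤ 3 * X * δ := mul_le_mul hLa h2 (abs_nonneg _) (by linarith)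
          have g2 : |x' - x| * |x' + 2 * x| ≤ δ * (3 * X) := mul_le_mul h1 h3 (abs_nonneg _) hδ
          linarith
      _ = _ := by ring
  have e : 4 * a ^ 3 + 27 * b ^ 2 = (3 * x ^ 2 + 4 * a) * (3 * x ^ 2 + a) ^ 2 -
      27 * (x ^ 3 + a * x - b) * y ^ 2 := by
    rw [E]; ring
  have hy2 : y ^ 2 ≤ ((3 * X + 1) * δ) ^ 2 := by
    have h3 : (2 * y) ^ 2 ≤ ((3 * X + 1) * δ) ^ 2 := by
      rw [← sq_abs (2 * y)]
      exact pow_le_pow_left₀ (abs_nonneg _) hy 2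
    nlinarith [sq_nonneg y]
  have hf2 : (3 * x ^ 2 + a) ^ 2 ≤ (6 * X * δ) ^ 2 := by
    rw [← sq_abs (3 * x ^ 2 + a)]
    exact pow_le_pow_left₀ (abs_nonneg _) hf 2
  have hx2 : x ^ 2 ≤ X ^ 2 := by
    rw [← sq_abs x]
    exact pow_le_pow_left₀ (abs_nonneg _) hx 2
  have hc1 : |3 * x ^ 2 + 4 * a| ≤ 3 * X ^ 2 + 4 * |a| := by
    calc |3 * x ^ 2 + 4 * a| ≤ |3 * x ^ 2| + |4 * a| := abs_add_le _ _
      _ = 3 * x ^ 2 + 4 * |a| := by
          rw [abs_of_nonneg (by positivity : 0 ≤ 3 * x ^ 2), abs_mul, abs_of_pos (by norm_num : (0 : ℝ) < 4)]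
      _ ≤ _ := by linarith
  have hc2 : |x ^ 3 + a * x - b| ≤ X ^ 3 + |a| * X + |b| := by
    calc |x ^ 3 + a * x - b| ≤ |x ^ 3 + a * x| + |b| := abs_sub _ _
      _ ≤ |x ^ 3| + |a * x| + |b| := by
          have := abs_add_le (x ^ 3) (a * x)
          linarith
      _ = |x| ^ 3 + |a| * |x| + |b| := by rw [abs_pow, abs_mul]
      _ ≤ _ := by gcongr
  rw [e]
  calc |(3 * x ^ 2 + 4 * a) * (3 * x ^ 2 + a) ^ 2 - 27 * (x ^ 3 + a * x - b) * y ^ 2|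
      ≤ |(3 * x ^ 2 + 4 * a) * (3 * x ^ 2 + a) ^ 2| + |27 * (x ^ 3 + a * x - b) * y ^ 2| :=
        abs_sub _ _
    _ = |3 * x ^ 2 + 4 * a| * (3 * x ^ 2 + a) ^ 2 + 27 * |x ^ 3 + a * x - b| * y ^ 2 := by
        have g1 : |(3 * x ^ 2 + 4 * a) * (3 * x ^ 2 + a) ^ 2| =
            |3 * x ^ 2 + 4 * a| * (3 * x ^ 2 + a) ^ 2 := by
          rw [abs_mul, abs_sq]
        have g2 : |27 * (x ^ 3 + a * x - b) * y ^ 2| = 27 * |x ^ 3 + a * x - b| * y ^ 2 := by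
          rw [abs_mul, abs_mul, abs_of_nonneg (sq_nonneg y),
            abs_of_pos (by norm_num : (0 : ℝ) < 27)]
        rw [g1, g2]
    _ ≤ (3 * X ^ 2 + 4 * |a|) * (6 * X * δ) ^ 2 +
          27 * (X ^ 3 + |a| * X + |b|) * ((3 * X + 1) * δ) ^ 2 := by
        gcongr
    _ = _ := by ring

lemma chord_limit (a b s u : ℚ) : ∃ X₂ : ℚ, ∀ x y : ℚ,
    y ^ 2 = x ^ 3 + a * x + b → X₂ ≤ |x| →
      |((x * s + a) * (x + s) + 2 * b - 2 * y * u) / (x - s) ^ 2 - s| ≤ 1 := by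
  set K : ℚ := 3 * |s| ^ 2 + |a| + |a| * |s| + 2 * |b| + |s| ^ 3 with hK
  have hs := abs_nonneg s
  have ha := abs_nonneg a
  have hb := abs_nonneg b
  have hu := abs_nonneg u
  have hK0 : 0 ≤ K := by positivity
  refine ⟨1 + 2 * |s| + 8 * K + 256 * (1 + |a| + |b|) * |u| ^ 2, fun x y E hx => ?_⟩
  have hau : 0 ≤ 256 * (1 + |a| + |b|) * |u| ^ 2 := by positivity
  have hX1 : 1 ≤ |x| := by linarith
  have h1 : |x| / 2 ≤ |x - s| := by
    have := abs_sub_abs_le_abs_sub x s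
    linarith
  have h2 : |x| ^ 2 / 4 ≤ (x - s) ^ 2 := by
    rw [← sq_abs (x - s)]
    nlinarith [abs_nonneg (x - s)]
  have hpos : 0 < (x - s) ^ 2 := lt_of_lt_of_le (by positivity) h2
  have e : ((x * s + a) * (x + s) + 2 * b - 2 * y * u) / (x - s) ^ 2 - s =
      ((3 * s ^ 2 + a) * x + (a * s + 2 * b - s ^ 3) - 2 * y * u) / (x - s) ^ 2 := by
    rw [eq_div_iff hpos.ne', sub_mul, div_mul_cancel₀ _ hpos.ne']
    ring
  rw [e, abs_div, abs_of_pos hpos, div_le_one hpos]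
  have h3 : |(3 * s ^ 2 + a) * x + (a * s + 2 * b - s ^ 3)| ≤ K * |x| := by
    calc |(3 * s ^ 2 + a) * x + (a * s + 2 * b - s ^ 3)|
        ≤ |(3 * s ^ 2 + a) * x| + |a * s + 2 * b - s ^ 3| := abs_add_le _ _
      _ ≤ (3 * |s| ^ 2 + |a|) * |x| + (|a| * |s| + 2 * |b| + |s| ^ 3) := by
          have i1 : |(3 * s ^ 2 + a) * x| ≤ (3 * |s| ^ 2 + |a|) * |x| := by
            rw [abs_mul]
            gcongr
            calc |3 * s ^ 2 + a| ≤ |3 * s ^ 2| + |a| := abs_add_le _ _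
              _ = 3 * |s| ^ 2 + |a| := by rw [abs_mul, abs_pow, abs_of_pos (by norm_num : (0:ℚ) < 3)]
          have i2 : |a * s + 2 * b - s ^ 3| ≤ |a| * |s| + 2 * |b| + |s| ^ 3 := by
            calc |a * s + 2 * b - s ^ 3| ≤ |a * s + 2 * b| + |s ^ 3| := abs_sub _ _
              _ ≤ |a * s| + |2 * b| + |s ^ 3| := by
                  have := abs_add_le (a * s) (2 * b)
                  linarith
              _ = _ := by rw [abs_mul, abs_mul, abs_pow, abs_two]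
          linarith
      _ ≤ (3 * |s| ^ 2 + |a|) * |x| + (|a| * |s| + 2 * |b| + |s| ^ 3) * |x| := by
          have : (|a| * |s| + 2 * |b| + |s| ^ 3) * 1 ≤ (|a| * |s| + 2 * |b| + |s| ^ 3) * |x| := by
            gcongr
          linarith
      _ = _ := by rw [hK]; ring
  have h4 : K * |x| ≤ |x| ^ 2 / 8 := by
    have : 8 * K ≤ |x| := by linarith
    nlinarith
  have hy : |y| ^ 2 ≤ |x| ^ 3 * (1 + |a| + |b|) := by
    rw [sq_abs, E]
    have i1 : x ^ 3 ≤ |x| ^ 3 := by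
      calc x ^ 3 ≤ |x ^ 3| := le_abs_self _
        _ = |x| ^ 3 := abs_pow _ _
    have i2 : a * x ≤ |a| * |x| := by
      calc a * x ≤ |a * x| := le_abs_self _
        _ = _ := abs_mul _ _
    have i3 := le_abs_self b
    have i4 : |x| ≤ |x| ^ 3 := by
      calc |x| = |x| ^ 1 := (pow_one _).symm
        _ ≤ |x| ^ 3 := pow_le_pow_right₀ hX1 (by norm_num)
    have i5 : 1 ≤ |x| ^ 3 := one_le_pow₀ hX1
    have i6 : |a| * |x| ≤ |a| * |x| ^ 3 := mul_le_mul_of_nonneg_left i4 ha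
    have i7 : |b| * 1 ≤ |b| * |x| ^ 3 := mul_le_mul_of_nonneg_left i5 hb
    linarith
  have h5 : |2 * y * u| ≤ |x| ^ 2 / 8 := by
    rw [abs_mul, abs_mul, abs_two]
    apply abs_le_of_sq_le_sq' _ (by positivity) |> fun h => h.2
    have i1 : (2 * |y| * |u|) ^ 2 ≤ 4 * |u| ^ 2 * (|x| ^ 3 * (1 + |a| + |b|)) := by
      calc (2 * |y| * |u|) ^ 2 = 4 * |u| ^ 2 * |y| ^ 2 := by ring
        _ ≤ _ := by gcongr
    have i2 : 256 * (1 + |a| + |b|) * |u| ^ 2 ≤ |x| := by linarith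
    calc (2 * |y| * |u|) ^ 2 ≤ 4 * |u| ^ 2 * (|x| ^ 3 * (1 + |a| + |b|)) := i1
      _ = |x| ^ 3 / 64 * (256 * (1 + |a| + |b|) * |u| ^ 2) := by ring
      _ ≤ |x| ^ 3 / 64 * |x| := by gcongr
      _ = (|x| ^ 2 / 8) ^ 2 := by ring
  calc |(3 * s ^ 2 + a) * x + (a * s + 2 * b - s ^ 3) - 2 * y * u|
      ≤ |(3 * s ^ 2 + a) * x + (a * s + 2 * b - s ^ 3)| + |2 * y * u| := abs_sub _ _
    _ ≤ |x| ^ 2 / 8 + |x| ^ 2 / 8 := by linarith
    _ = |x| ^ 2 / 4 := by ring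
    _ ≤ _ := h2

variable {a b : ℤ}

lemma ptX_add {Q R : (curve a b).Point} (hQ : Q ≠ 0) (hR : R ≠ 0) (hne : ptX Q ≠ ptX R) :
    Q + R ≠ 0 ∧ ptX (Q + R) = ((ptY Q - ptY R) / (ptX Q - ptX R)) ^ 2 - ptX Q - ptX R := by
  obtain ⟨hh, e⟩ := exists_eq_some Q hQ
  obtain ⟨hh', e'⟩ := exists_eq_some R hR
  have hsum : Q + R = Point.some _ _ hh + Point.some _ _ hh' := by rw [← e, ← e']
  constructor
  · rw [hsum, Point.add_of_X_ne hne]
    exact Point.some_ne_zero _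
  · rw [hsum, Point.add_of_X_ne hne, ptX_some, WeierstrassCurve.Affine.slope_of_X_ne hne]
    simp [WeierstrassCurve.Affine.addX, curve]

lemma ptX_neg (Q : (curve a b).Point) : ptX (-Q) = ptX Q := by
  match Q with
  | .zero => rfl
  | .some x y h => rfl

lemma ptY_neg (Q : (curve a b).Point) : ptY (-Q) = -ptY Q := by
  match Q with
  | .zero =>
    show (0 : ℚ) = -0
    simp
  | .some x y h =>
    rw [Point.neg_some, ptY_some, ptY_some, curve_negY]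

/-- Some multiples are arbitrarily close to the origin. -/
theorem near_zero (hΔ : 4 * a ^ 3 + 27 * b ^ 2 ≠ 0) {R₀ : (curve a b).Point}
    (hR₀ : ¬ IsOfFinAddOrder R₀) (X : ℚ) (J : ℕ) : ∃ j, J ≤ j ∧ X ≤ |ptX (j • R₀)| := by
  by_contra hcon
  push Not at hcon
  have hnt : ∀ n : ℕ, 0 < n → n • R₀ ≠ 0 := nsmul_ne_of_not_tor hR₀
  obtain ⟨X', hX'⟩ : ∃ X' : ℚ, X' = max X 1 := ⟨_, rfl⟩
  obtain ⟨J', hJ'⟩ : ∃ J' : ℕ, J' = J + 1 := ⟨_, rfl⟩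
  have hX1 : 1 ≤ X' := by rw [hX']; exact le_max_right _ _
  have hb : ∀ j, J' ≤ j → |ptX (j • R₀)| ≤ X' := by
    intro j hj
    rw [hX']
    exact (hcon j (by omega)).le.trans (le_max_left _ _)
  set pt : ℕ → (curve a b).Point := fun i => (J' * (i + 1)) • R₀ with hpt
  have hpt0 : ∀ i, pt i ≠ 0 := fun i => hnt _ (Nat.mul_pos (by omega) (by omega))
  have hE : ∀ i, ptY (pt i) ^ 2 = ptX (pt i) ^ 3 + a * ptX (pt i) + b := by
    intro i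
    obtain ⟨hh, e⟩ := exists_eq_some _ (hpt0 i)
    exact curve_eq hh
  have hER : ∀ i, ((ptY (pt i) : ℚ) : ℝ) ^ 2 = ((ptX (pt i) : ℚ) : ℝ) ^ 3 +
      a * ((ptX (pt i) : ℚ) : ℝ) + b := by
    intro i; exact_mod_cast hE i
  have hxb : ∀ i, |((ptX (pt i) : ℚ) : ℝ)| ≤ X' := by
    intro i
    have h1 : J' ≤ J' * (i + 1) := Nat.le_mul_of_pos_right _ (by omega)
    exact_mod_cast hb _ h1
  have hX1r : (1 : ℝ) ≤ X' := by exact_mod_cast hX1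
  obtain ⟨Y, hY⟩ : ∃ Y : ℝ, Y = (X' : ℝ) ^ 3 + |(a : ℝ)| * X' + |(b : ℝ)| + 1 := ⟨_, rfl⟩
  have hyb : ∀ i, |((ptY (pt i) : ℚ) : ℝ)| ≤ Y := by
    intro i
    have hY1 : 1 ≤ Y := by
      rw [hY]
      have : 0 ≤ (X' : ℝ) ^ 3 + |(a : ℝ)| * X' + |(b : ℝ)| := by positivity
      linarith
    apply abs_le_of_sq_le_sq' _ (by linarith) |> abs_le.mpr
    rw [hER i]
    have i1 : ((ptX (pt i) : ℚ) : ℝ) ^ 3 ≤ (X' : ℝ) ^ 3 := by
      calc _ ≤ |((ptX (pt i) : ℚ) : ℝ) ^ 3| := le_abs_self _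
        _ = |((ptX (pt i) : ℚ) : ℝ)| ^ 3 := abs_pow _ _
        _ ≤ _ := pow_le_pow_left₀ (abs_nonneg _) (hxb i) 3
    have i2 : (a : ℝ) * ((ptX (pt i) : ℚ) : ℝ) ≤ |(a : ℝ)| * X' := by
      calc _ ≤ |(a : ℝ) * ((ptX (pt i) : ℚ) : ℝ)| := le_abs_self _
        _ = |(a : ℝ)| * |((ptX (pt i) : ℚ) : ℝ)| := abs_mul _ _
        _ ≤ _ := by gcongr; exact hxb i
    have i3 := le_abs_self (b : ℝ)
    nlinarith
  -- two close points
  obtain ⟨K, hK⟩ : ∃ K : ℝ, K = (3 * (X' : ℝ) ^ 2 + 4 * |(a : ℝ)|) * (6 * X') ^ 2 +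
      27 * ((X' : ℝ) ^ 3 + |(a : ℝ)| * X' + |(b : ℝ)|) * (3 * X' + 1) ^ 2 := ⟨_, rfl⟩
  have hK0 : 0 ≤ K := by rw [hK]; positivity
  obtain ⟨δ, hδ0, hδ⟩ : ∃ δ : ℝ, 0 < δ ∧ K * δ ^ 2 < 1 := by
    refine ⟨1 / (K + 1), by positivity, ?_⟩
    have : K * (1 / (K + 1)) ^ 2 = K / (K + 1) ^ 2 := by rw [div_pow, one_pow, mul_one_div]
    rw [this, div_lt_one (by positivity)]
    nlinarith
  have hseq : ∀ i, (((ptX (pt i) : ℚ) : ℝ), ((ptY (pt i) : ℚ) : ℝ)) ∈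
      Metric.closedBall (0 : ℝ × ℝ) (X' + Y) := by
    intro i
    have hY0 : 0 ≤ Y := (abs_nonneg _).trans (hyb i)
    rw [mem_closedBall_zero_iff, Prod.norm_def]
    apply max_le
    · rw [Real.norm_eq_abs]; have := hxb i; show |((ptX (pt i) : ℚ) : ℝ)| ≤ _; linarith
    · rw [Real.norm_eq_abs]; have := hyb i; show |((ptY (pt i) : ℚ) : ℝ)| ≤ _; linarith
  obtain ⟨l, -, φ, hφ, hlim⟩ := tendsto_subseq_of_bounded Metric.isBounded_closedBall hseq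
  obtain ⟨N, hN⟩ := Metric.cauchySeq_iff.mp hlim.cauchySeq δ hδ0
  have hclose : dist (((ptX (pt (φ (N + 1))) : ℚ) : ℝ), ((ptY (pt (φ (N + 1))) : ℚ) : ℝ))
      (((ptX (pt (φ N)) : ℚ) : ℝ), ((ptY (pt (φ N)) : ℚ) : ℝ)) < δ := hN (N + 1) (by omega) N le_rfl
  have hlt : φ N < φ (N + 1) := hφ (by omega)
  generalize φ N = i at hclose hlt
  generalize φ (N + 1) = i' at hclose hlt
  have hnei : ptX (pt i') ≠ ptX (pt i) := by
    intro h0
    obtain ⟨hh, e⟩ := exists_eq_some _ (hpt0 i')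
    obtain ⟨hh', e'⟩ := exists_eq_some _ (hpt0 i)
    have h1 := (Point.X_eq_iff (h₁ := hh) (h₂ := hh')).mp h0
    rw [← e, ← e'] at h1
    rcases h1 with h1 | h1
    · have h2 : (J' * (i' - i)) • R₀ = 0 := by
        have h3 : J' * (i' + 1) = J' * (i' - i) + J' * (i + 1) := by
          rw [← Nat.mul_add]; congr 1; omega
        have h4 : (J' * (i' + 1)) • R₀ = (J' * (i + 1)) • R₀ := h1
        rw [h3, add_nsmul] at h4
        exact add_eq_right.mp h4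
      exact hnt _ (Nat.mul_pos (by omega) (by omega)) h2
    · have h2 : (J' * (i' + 1) + J' * (i + 1)) • R₀ = 0 := by
        rw [add_nsmul]
        have h4 : (J' * (i' + 1)) • R₀ = -((J' * (i + 1)) • R₀) := h1
        rw [h4, neg_add_cancel]
      exact hnt _ (Nat.add_pos_left (Nat.mul_pos (by omega) (by omega)) _) h2
  -- the difference
  have hsub : pt i' + -pt i = (J' * (i' - i)) • R₀ := by
    have h3 : J' * (i' + 1) = J' * (i' - i) + J' * (i + 1) := by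
      rw [← Nat.mul_add]; congr 1; omega
    show (J' * (i' + 1)) • R₀ + -((J' * (i + 1)) • R₀) = _
    rw [h3, add_nsmul, add_assoc, add_neg_cancel, add_zero]
  have hneg0 : -pt i ≠ 0 := neg_ne_zero.mpr (hpt0 i)
  obtain ⟨-, hx''⟩ := ptX_add (hpt0 i') hneg0 (by rw [ptX_neg]; exact hnei)
  rw [hsub, ptX_neg, ptY_neg, sub_neg_eq_add] at hx''
  have hx3 : |ptX ((J' * (i' - i)) • R₀)| ≤ X' := by
    apply hb
    exact Nat.le_mul_of_pos_right _ (by omega)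
  obtain ⟨L, hL⟩ : ∃ L : ℚ, L = (ptY (pt i') + ptY (pt i)) / (ptX (pt i') - ptX (pt i)) := ⟨_, rfl⟩
  have hd : ptX (pt i') - ptX (pt i) ≠ 0 := sub_ne_zero.mpr hnei
  have hL1 : L * (ptX (pt i') - ptX (pt i)) = ptY (pt i') + ptY (pt i) := by
    rw [hL]; field_simp
  have hL2 : (L : ℝ) ^ 2 ≤ 3 * X' := by
    have h1 : L ^ 2 = ptX ((J' * (i' - i)) • R₀) + ptX (pt i') + ptX (pt i) := by
      rw [hx'', ← hL]; ring
    have h2 : (L : ℝ) ^ 2 = ((ptX ((J' * (i' - i)) • R₀) : ℚ) : ℝ) + ((ptX (pt i') : ℚ) : ℝ) +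
        ((ptX (pt i) : ℚ) : ℝ) := by exact_mod_cast h1
    have h3 : |((ptX ((J' * (i' - i)) • R₀) : ℚ) : ℝ)| ≤ X' := by exact_mod_cast hx3
    have g1 := le_abs_self ((ptX ((J' * (i' - i)) • R₀) : ℚ) : ℝ)
    have g2 := (le_abs_self ((ptX (pt i') : ℚ) : ℝ)).trans (hxb i')
    have g3 := (le_abs_self ((ptX (pt i) : ℚ) : ℝ)).trans (hxb i)
    linarith
  have hdist := hclose
  rw [dist_eq_norm] at hdist
  have hc1 : |((ptX (pt i') : ℚ) : ℝ) - ((ptX (pt i) : ℚ) : ℝ)| ≤ δ := by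
    have := (norm_fst_le _).trans hdist.le
    simpa [Real.norm_eq_abs] using this
  have hc2 : |((ptY (pt i') : ℚ) : ℝ) - ((ptY (pt i) : ℚ) : ℝ)| ≤ δ := by
    have := (norm_snd_le _).trans hdist.le
    simpa [Real.norm_eq_abs] using this
  have hfin := close_contra (a := (a : ℝ)) (b := (b : ℝ)) (hER i) (hER i') hX1r (hxb i) (hxb i')
    (by exact_mod_cast hnei) (L := (L : ℝ)) (by exact_mod_cast hL1) hL2 hδ0.le hc1 hc2
  rw [← hK] at hfin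
  have h1 : (1 : ℝ) ≤ |4 * (a : ℝ) ^ 3 + 27 * (b : ℝ) ^ 2| := by
    have := Int.one_le_abs hΔ
    exact_mod_cast this
  linarith

/-- Multiples at a controlled distance from the origin. -/
theorem exists_near (hΔ : 4 * a ^ 3 + 27 * b ^ 2 ≠ 0) {R₀ : (curve a b).Point}
    (hR₀ : ¬ IsOfFinAddOrder R₀) (X₀ : ℚ) : ∃ X₁ : ℚ, ∀ J : ℕ, ∃ j, J ≤ j ∧
      X₀ ≤ |ptX (j • R₀)| ∧ |ptX (j • R₀)| ≤ X₁ := by
  have hnt : ∀ n : ℕ, 0 < n → n • R₀ ≠ 0 := nsmul_ne_of_not_tor hR₀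
  obtain ⟨k₀, hk1, hk2⟩ := near_zero hΔ hR₀ (X₀ + 1) 1
  obtain ⟨X₂, hX₂⟩ := chord_limit (a : ℚ) b (ptX (k₀ • R₀)) (ptY (k₀ • R₀))
  refine ⟨|ptX (k₀ • R₀)| + 1, fun J => ?_⟩
  obtain ⟨j, hj1, hj2⟩ := near_zero hΔ hR₀ (max X₂ (|ptX (k₀ • R₀)| + 1)) (J + 1)
  refine ⟨j + k₀, by omega, ?_⟩
  have h1 : X₂ ≤ |ptX (j • R₀)| := (le_max_left _ _).trans hj2
  have h2 : |ptX (k₀ • R₀)| + 1 ≤ |ptX (j • R₀)| := (le_max_right _ _).trans hj2
  have hne : ptX (j • R₀) ≠ ptX (k₀ • R₀) := by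
    intro h
    rw [h] at h2
    linarith
  have hj0 : j • R₀ ≠ 0 := hnt _ (by omega)
  have hk0 : k₀ • R₀ ≠ 0 := hnt _ (by omega)
  obtain ⟨hh, e⟩ := exists_eq_some _ hj0
  obtain ⟨hh', e'⟩ := exists_eq_some _ hk0
  obtain ⟨-, h3⟩ := ptX_add hj0 hk0 hne
  have h4 := hX₂ _ _ (curve_eq hh) h1
  rw [← chord_x (curve_eq hh) (curve_eq hh') hne, ← h3, ← add_nsmul] at h4
  have h5 := abs_sub_abs_le_abs_sub (ptX ((j + k₀) • R₀)) (ptX (k₀ • R₀))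
  have h6 := abs_sub_abs_le_abs_sub (ptX (k₀ • R₀)) (ptX ((j + k₀) • R₀))
  rw [abs_sub_comm] at h6
  constructor <;> linarith

end Pool.Agent.Lib.MP_3550b5_nt
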