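import Mathlib
import Pool.Agent.Lib.MP_3550b5_nt.NAux
import Pool.Agent.Lib.MP_3550b5_nt.NNear

/-!
Independence of the functions of the auxiliary construction.
-/

namespace Pool.Agent.Lib.MP_3550b5_nt

open WeierstrassCurve.Affine

lemma poly_lower {T : ℕ} (c : Fin (T + 1) → ℤ) (hc : c ≠ 0) {x : ℝ}
    (hx : 1 + ∑ k, |(c k : ℝ)| ≤ |x|) : 1 ≤ |∑ k, (c k : ℝ) * x ^ (k : ℕ)| := by
  classical
  obtain ⟨k₀, hk₀⟩ : ∃ k, c k ≠ 0 := by
    by_contra hcon
    push Not at hcon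
    exact hc (funext hcon)
  obtain ⟨k₁, hk₁, hmax⟩ := Finset.exists_max_image (Finset.univ.filter fun k => c k ≠ 0)
    (fun k => (k : ℕ)) ⟨k₀, by simp [hk₀]⟩
  have hk₁' : c k₁ ≠ 0 := (Finset.mem_filter.mp hk₁).2
  have hX1 : 1 ≤ |x| := by
    have : 0 ≤ ∑ k, |(c k : ℝ)| := Finset.sum_nonneg fun k _ => abs_nonneg _
    linarith
  have hone : (1 : ℝ) ≤ |(c k₁ : ℝ)| := by exact_mod_cast Int.one_le_abs hk₁'
  rw [← Finset.add_sum_erase _ _ (Finset.mem_univ k₁)]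
  by_cases h0 : (k₁ : ℕ) = 0
  · have h1 : ∑ k ∈ Finset.univ.erase k₁, (c k : ℝ) * x ^ (k : ℕ) = 0 := by
      apply Finset.sum_eq_zero
      intro k hk
      have hkne := (Finset.mem_erase.mp hk).1
      by_cases hck : c k = 0
      · rw [hck]; simp
      · exfalso
        have := hmax k (by simp [hck])
        apply hkne
        apply Fin.ext
        omega
    rw [h1, add_zero, h0, pow_zero, mul_one]
    exact hone
  · have h1 : |∑ k ∈ Finset.univ.erase k₁, (c k : ℝ) * x ^ (k : ℕ)| ≤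
        (∑ k ∈ Finset.univ.erase k₁, |(c k : ℝ)|) * |x| ^ ((k₁ : ℕ) - 1) := by
      refine (Finset.abs_sum_le_sum_abs _ _).trans ?_
      rw [Finset.sum_mul]
      apply Finset.sum_le_sum
      intro k hk
      have hkne := (Finset.mem_erase.mp hk).1
      rw [abs_mul, abs_pow]
      by_cases hck : c k = 0
      · rw [hck]; simp
      · have h2 := hmax k (by simp [hck])
        have h3 : (k : ℕ) ≠ k₁ := fun h => hkne (Fin.ext h)
        apply mul_le_mul_of_nonneg_left _ (abs_nonneg _)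
        exact pow_le_pow_right₀ hX1 (by omega)
    have h2 : |(c k₁ : ℝ)| + ∑ k ∈ Finset.univ.erase k₁, |(c k : ℝ)| = ∑ k, |(c k : ℝ)| :=
      Finset.add_sum_erase Finset.univ (fun k => |(c k : ℝ)|) (Finset.mem_univ k₁)
    have h3 : |(c k₁ : ℝ) * x ^ (k₁ : ℕ)| = |(c k₁ : ℝ)| * |x| * |x| ^ ((k₁ : ℕ) - 1) := by
      rw [abs_mul, abs_pow, mul_assoc, ← pow_succ']
      congr 2
      omega
    have h4 : 1 ≤ |x| ^ ((k₁ : ℕ) - 1) := one_le_pow₀ hX1
    have h5 : |(c k₁ : ℝ) * x ^ (k₁ : ℕ)| - |∑ k ∈ Finset.univ.erase k₁, (c k : ℝ) * x ^ (k : ℕ)| ≤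
        |(c k₁ : ℝ) * x ^ (k₁ : ℕ) + ∑ k ∈ Finset.univ.erase k₁, (c k : ℝ) * x ^ (k : ℕ)| := by
      have := abs_sub_abs_le_abs_sub ((c k₁ : ℝ) * x ^ (k₁ : ℕ))
        (-∑ k ∈ Finset.univ.erase k₁, (c k : ℝ) * x ^ (k : ℕ))
      rw [abs_neg, sub_neg_eq_add] at this
      exact this
    have h6 : |x| ≤ |(c k₁ : ℝ)| * |x| := le_mul_of_one_le_left (abs_nonneg _) hone
    have h7 : 1 ≤ |(c k₁ : ℝ)| * |x| - ∑ k ∈ Finset.univ.erase k₁, |(c k : ℝ)| := by
      have := abs_nonneg (c k₁ : ℝ)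
      linarith
    calc (1 : ℝ) ≤ (|(c k₁ : ℝ)| * |x| - ∑ k ∈ Finset.univ.erase k₁, |(c k : ℝ)|) *
          |x| ^ ((k₁ : ℕ) - 1) := one_le_mul_of_one_le_of_one_le h7 h4
      _ = |(c k₁ : ℝ)| * |x| * |x| ^ ((k₁ : ℕ) - 1) -
          (∑ k ∈ Finset.univ.erase k₁, |(c k : ℝ)|) * |x| ^ ((k₁ : ℕ) - 1) := by ring
      _ ≤ _ := by rw [← h3]; linarith

variable {a b : ℤ}

lemma an_eq {R : (curve a b).Point} (hR : R ≠ 0) :
    (an R : ℝ) = ((ptX R : ℚ) : ℝ) * (dn R : ℝ) ^ 2 := by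
  obtain ⟨A, B, D, hrep, hD, hc⟩ := exists_rep hR
  have h1 := dn_of_rep hrep hD hc
  have h2 := (rep_num_den hrep hc).1
  have h3 : (dn R : ℝ) = (D : ℝ) := by exact_mod_cast congrArg (fun z : ℤ => (z : ℝ)) h1
  have hDr : (D : ℝ) ≠ 0 := by exact_mod_cast hD.ne'
  rw [an, h2, h3, hrep.ptX_eq]
  push_cast
  field_simp

lemma bp_sum_right {G : Type*} [AddCommGroup G] {q : G → ℝ}
    (hq : ∀ x y, q (x + y) + q (x - y) = 2 * q x + 2 * q y) {ι : Type*} (T : Finset ι) (x : G)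
    (f : ι → G) : bp q x (∑ i ∈ T, f i) = ∑ i ∈ T, bp q x (f i) := by
  classical
  induction T using Finset.induction_on with
  | empty =>
    rw [Finset.sum_empty, Finset.sum_empty, bp_comm, bp_zero_left hq]
  | insert i T hi ih => rw [Finset.sum_insert hi, Finset.sum_insert hi, bp_add_right hq, ih]

/-- The total vector. -/
def tot (T : ℕ) {s N : ℕ} (l : Fin s → Fin N) : Fin s → ℤ := fun j => (T : ℤ) + ((l j : ℕ) : ℤ)

lemma sum_lin_bal {T s N : ℕ} (hT : 0 < T) (Q : Fin s → (curve a b).Point)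
    (l : Fin s → Fin N) : ∑ i : Fin T, lin Q (bal T l i) = lin Q (tot T l) := by
  rw [← map_sum]
  congr 1
  funext j
  rw [Finset.sum_apply, bal_sum hT]
  rfl

/-- The functions of the construction are linearly independent. -/
theorem growth_contra (hΔ : 4 * a ^ 3 + 27 * b ^ 2 ≠ 0) {q : (curve a b).Point → ℝ} {C c₁ : ℝ}
    (hq : ∀ P Q, q (P + Q) + q (P - Q) = 2 * q P + 2 * q Q)
    (hc₁ : 0 < c₁) (hc : ∀ P, ¬ IsOfFinAddOrder P → c₁ ≤ q P)
    (hup : ∀ Q, (dn Q : ℝ) ≤ Real.exp (q Q + C))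
    (han : ∀ Q, |(an Q : ℝ)| ≤ Real.exp (2 * (q Q + C)))
    (hlow : ∀ X : ℚ, 1 ≤ X → ∃ C' : ℝ, ∀ Q : (curve a b).Point, Q ≠ 0 → |ptX Q| ≤ X →
      Real.exp (q Q - C') ≤ (dn Q : ℝ))
    {s : ℕ} (hs : 1 ≤ s) {Q : Fin s → (curve a b).Point}
    (hnt : ∀ v : Fin s → ℤ, v ≠ 0 → ¬ IsOfFinAddOrder (lin Q v)) {m T B : ℕ} (hm : 1 ≤ m)
    (hT : 1 ≤ T) {c : Fin (T + 1) × (Fin s → Fin (T * (B - 1))) → ℤ} (hc0 : c ≠ 0)
    (h0 : ∀ v : Fin s → ℤ, Fine Q B (lin Q v) →
      ∑ r, c r * rowF m T Q r.1 r.2 (lin Q v) = 0) : False := by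
  classical
  have i0 : Fin s := ⟨0, hs⟩
  -- the dominant term
  obtain ⟨r₀, hr₀⟩ : ∃ r, c r ≠ 0 := by
    by_contra hcon
    push Not at hcon
    exact hc0 (funext hcon)
  obtain ⟨l₁, hl₁, hmax⟩ := Finset.exists_max_image
    (Finset.univ.filter fun l : Fin s → Fin (T * (B - 1)) => ∃ k, c (k, l) ≠ 0)
    (fun l => q (lin Q (tot T l))) ⟨r₀.2, by
      rw [Finset.mem_filter]; exact ⟨Finset.mem_univ _, r₀.1, hr₀⟩⟩
  have hl₁' : ∃ k, c (k, l₁) ≠ 0 := (Finset.mem_filter.mp hl₁).2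
  set R₀ := lin Q (tot T l₁) with hR₀
  have htot0 : tot T l₁ ≠ 0 := by
    intro h
    have := congrFun h i0
    simp only [tot, Pi.zero_apply] at this
    omega
  have hR₀nt : ¬ IsOfFinAddOrder R₀ := hnt _ htot0
  -- uniform bounds for translates
  obtain ⟨VB, hVB⟩ : ∃ V : Finset (Fin s → ℤ), V = Fintype.piFinset fun _ =>
      Finset.Icc (1 : ℤ) B := ⟨_, rfl⟩
  have hVBmem : ∀ v, v ∈ VB ↔ ∀ j, 1 ≤ v j ∧ v j ≤ (B : ℤ) := by
    intro v; rw [hVB]; simp [Fintype.mem_piFinset]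
  have hv0 : ∀ v ∈ VB, lin Q v ≠ 0 := by
    intro v hv h
    have h1 := ((hVBmem v).mp hv i0).1
    have h2 : v ≠ 0 := by
      intro h3
      rw [h3] at h1
      simp at h1
    exact hnt v h2 (by rw [h]; exact IsOfFinAddOrder.zero)
  have hRv : ∀ v : Fin s → ℤ, ∃ R : ℚ, 1 ≤ R ∧ (v ∈ VB → ∀ R', (R' ≠ 0 ∧ |ptX R'| ≤ R) ∨
      (R' + lin Q v ≠ 0 ∧ |ptX (R' + lin Q v)| ≤ R)) := by
    intro v
    by_cases hv : v ∈ VB
    · obtain ⟨R, h1, h2⟩ := exists_bounded (hv0 v hv)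
      exact ⟨R, h1, fun _ => h2⟩
    · exact ⟨1, le_rfl, fun h => absurd h hv⟩
  choose Rv hRv1 hRv2 using hRv
  obtain ⟨XA, hXA⟩ : ∃ XA : ℚ, XA = 1 + ∑ v ∈ VB, Rv v := ⟨_, rfl⟩
  have hXA1 : 1 ≤ XA := by
    rw [hXA]
    have : 0 ≤ ∑ v ∈ VB, Rv v := Finset.sum_nonneg fun v _ => zero_le_one.trans (hRv1 v)
    linarith
  have hRvle : ∀ v ∈ VB, Rv v < XA := by
    intro v hv
    rw [hXA]
    have := Finset.single_le_sum (f := Rv) (fun v _ => zero_le_one.trans (hRv1 v)) hv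
    linarith
  have htr : ∀ v ∈ VB, ∀ R', XA ≤ |ptX R'| → R' + lin Q v ≠ 0 ∧ |ptX (R' + lin Q v)| ≤ XA := by
    intro v hv R' hR'
    rcases hRv2 v hv R' with h | h
    · exfalso
      have := hRvle v hv
      linarith [h.2]
    · exact ⟨h.1, h.2.trans (hRvle v hv).le⟩
  have hxv : ∀ v ∈ VB, |ptX (lin Q v)| < XA := by
    intro v hv
    rcases hRv2 v hv 0 with h | h
    · exact absurd rfl h.1
    · rw [zero_add] at h
      exact h.2.trans_lt (hRvle v hv)
  -- the threshold for the abscissa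
  obtain ⟨X₀, hX₀⟩ : ∃ X₀ : ℚ, X₀ = XA + ∑ r, |(c r : ℚ)| := ⟨_, rfl⟩
  have hcs : 0 ≤ ∑ r, |(c r : ℚ)| := Finset.sum_nonneg fun r _ => abs_nonneg _
  obtain ⟨X₁, hX₁⟩ := exists_near hΔ hR₀nt X₀
  have hX₁1 : 1 ≤ X₁ := by
    obtain ⟨j, -, h1, h2⟩ := hX₁ 0
    linarith
  obtain ⟨C₁, hC₁⟩ := hlow X₁ hX₁1
  obtain ⟨CA, hCA⟩ := hlow XA hXA1
  -- constants
  obtain ⟨cs, hcs'⟩ : ∃ cs : ℝ, cs = ∑ r, |(c r : ℝ)| := ⟨_, rfl⟩
  obtain ⟨κ, hκ⟩ : ∃ κ : (Fin s → Fin (T * (B - 1))) → ℝ, κ = fun l =>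
    ∑ i : Fin T, q (lin Q (bal T l i)) := ⟨_, rfl⟩
  obtain ⟨k₁, hk₁⟩ : ∃ k₁ : ℝ, k₁ = Real.exp (-(2 * T * C₁) + m * κ l₁ - m * T * CA) := ⟨_, rfl⟩
  have hk₁0 : 0 < k₁ := by rw [hk₁]; exact Real.exp_pos _
  obtain ⟨K₂, hK₂⟩ : ∃ K₂ : ℝ, K₂ = ∑ l : Fin s → Fin (T * (B - 1)),
    cs * Real.exp (2 * T * C + m * κ l + m * T * C) := ⟨_, rfl⟩
  have hcs0 : 0 ≤ cs := by rw [hcs']; exact Finset.sum_nonneg fun r _ => abs_nonneg _
  have hK₂0 : 0 ≤ K₂ := by
    rw [hK₂]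
    exact Finset.sum_nonneg fun l _ => mul_nonneg hcs0 (Real.exp_pos _).le
  have hmr : (1 : ℝ) ≤ m := by exact_mod_cast hm
  obtain ⟨J, hJ⟩ : ∃ J : ℕ, K₂ < k₁ * Real.exp (m * c₁ * J) := by
    obtain ⟨J, hJ⟩ := exists_nat_gt (K₂ / (k₁ * (m * c₁)))
    refine ⟨J, ?_⟩
    have h1 : K₂ < k₁ * (m * c₁) * J := by
      rw [div_lt_iff₀ (by positivity)] at hJ
      linarith
    have h2 := Real.add_one_le_exp (m * c₁ * J)
    calc K₂ < k₁ * (m * c₁) * J := h1
      _ ≤ k₁ * (m * c₁ * J + 1) := by nlinarith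
      _ ≤ _ := by gcongr
  obtain ⟨j, hjJ, hx1, hx2⟩ := hX₁ J
  -- the point
  obtain ⟨R, hR⟩ : ∃ R, R = j • R₀ := ⟨_, rfl⟩
  rw [← hR] at hx1 hx2
  have hxA : XA ≤ |ptX R| := by linarith
  have hR0 : R ≠ 0 := by
    intro h
    rw [h] at hxA
    have : ptX (0 : (curve a b).Point) = 0 := rfl
    rw [this, abs_zero] at hxA
    linarith
  have hRlin : R = lin Q (j • tot T l₁) := by rw [hR, hR₀, map_nsmul]
  have hfine : Fine Q B R := by
    refine ⟨hR0, fun v hv h => ?_⟩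
    have h1 := hxv v ((hVBmem v).mpr hv)
    rw [← h] at h1
    linarith
  have hsum := h0 (j • tot T l₁) (by rw [← hRlin]; exact hfine)
  rw [← hRlin] at hsum
  obtain ⟨G, hG⟩ : ∃ G : (Fin s → Fin (T * (B - 1))) → ℝ, G = fun l =>
    ∑ k, (c (k, l) : ℝ) * (rowF m T Q k l R : ℝ) := ⟨_, rfl⟩
  have hsumG : ∑ l, G l = 0 := by
    have h1 : ((∑ r, c r * rowF m T Q r.1 r.2 R : ℤ) : ℝ) = 0 := by rw [hsum]; simp
    push_cast at h1
    rw [Fintype.sum_prod_type_right] at h1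
    rw [hG]
    exact h1
  -- growth
  obtain ⟨E, hE⟩ : ∃ E : ℝ, E = Real.exp (2 * T * q R + m * (T * q R + j * bp q R₀ R₀)) := ⟨_, rfl⟩
  have hE0 : 0 < E := by rw [hE]; exact Real.exp_pos _
  have hqs : ∀ l : Fin s → Fin (T * (B - 1)), ∑ i : Fin T, q (R + lin Q (bal T l i)) =
      T * q R + κ l + j * bp q R₀ (lin Q (tot T l)) := by
    intro l
    have h1 : ∀ i : Fin T, q (R + lin Q (bal T l i)) = q R + q (lin Q (bal T l i)) +
        bp q R (lin Q (bal T l i)) := by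
      intro i; unfold bp; ring
    rw [Finset.sum_congr rfl fun i _ => h1 i, Finset.sum_add_distrib, Finset.sum_add_distrib,
      ← bp_sum_right hq, sum_lin_bal hT, hκ, hR, bp_nsmul_left hq]
    simp
  have hDR : 0 < (dn R : ℝ) := lt_of_lt_of_le (Real.exp_pos _) (hC₁ R hR0 hx2)
  have hfact : ∀ l : Fin s → Fin (T * (B - 1)), G l = ((dn R : ℝ) ^ (2 * T) *
      ∑ k, (c (k, l) : ℝ) * ((ptX R : ℚ) : ℝ) ^ (k : ℕ)) *
        ∏ i : Fin T, (dn (R + lin Q (bal T l i)) : ℝ) ^ m := by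
    intro l
    rw [hG, Finset.mul_sum, Finset.sum_mul]
    refine Finset.sum_congr rfl fun k _ => ?_
    have hk : (k : ℕ) ≤ T := by have := k.2; omega
    rw [rowF]
    push_cast
    rw [an_eq hR0]
    have h1 : (dn R : ℝ) ^ (2 * T) = ((dn R : ℝ) ^ 2) ^ (k : ℕ) *
        (dn R : ℝ) ^ (2 * (T - (k : ℕ))) := by
      rw [← pow_mul, ← pow_add]
      congr 1
      omega
    rw [h1, mul_pow]
    ring
  have hlower : k₁ * E ≤ |G l₁| := by
    rw [hfact, abs_mul, abs_mul]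
    have h1 : Real.exp (2 * T * (q R - C₁)) ≤ |(dn R : ℝ) ^ (2 * T)| := by
      rw [abs_of_nonneg (by positivity)]
      have e : Real.exp (2 * T * (q R - C₁)) = Real.exp (q R - C₁) ^ (2 * T) := by
        rw [← Real.exp_nat_mul]; push_cast; ring_nf
      rw [e]
      exact pow_le_pow_left₀ (Real.exp_pos _).le (hC₁ R hR0 hx2) _
    have h2 : 1 ≤ |∑ k, (c (k, l₁) : ℝ) * ((ptX R : ℚ) : ℝ) ^ (k : ℕ)| := by
      apply poly_lower (fun k => c (k, l₁))
      · intro h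
        obtain ⟨k, hk⟩ := hl₁'
        exact hk (congrFun h k)
      · have h3 : ∑ k, |((c (k, l₁) : ℤ) : ℚ)| ≤ ∑ r, |(c r : ℚ)| := by
          rw [Fintype.sum_prod_type_right]
          exact Finset.single_le_sum (f := fun l => ∑ k, |((c (k, l) : ℤ) : ℚ)|)
            (fun l _ => Finset.sum_nonneg fun k _ => abs_nonneg _) (Finset.mem_univ l₁)
        have h4 : 1 + ∑ k, |((c (k, l₁) : ℤ) : ℚ)| ≤ |ptX R| := by linarith
        exact_mod_cast h4
    have h3 : Real.exp (m * (T * q R + κ l₁ + j * bp q R₀ R₀ - T * CA)) ≤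
        |∏ i : Fin T, (dn (R + lin Q (bal T l₁ i)) : ℝ) ^ m| := by
      have e : Real.exp (m * (T * q R + κ l₁ + j * bp q R₀ R₀ - T * CA)) =
          ∏ i : Fin T, Real.exp (q (R + lin Q (bal T l₁ i)) - CA) ^ m := by
        have hqs1 := hqs l₁
        rw [← hR₀] at hqs1
        rw [Finset.prod_pow, ← Real.exp_sum, Finset.sum_sub_distrib, hqs1, ← Real.exp_nat_mul]
        simp
      rw [e, Finset.abs_prod]
      apply Finset.prod_le_prod
      · intro i _; positivity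
      · intro i _
        rw [abs_of_nonneg (by positivity)]
        obtain ⟨g1, g2⟩ := htr (bal T l₁ i) ((hVBmem _).mpr fun j => bal_bounds l₁ i j) R hxA
        exact pow_le_pow_left₀ (Real.exp_pos _).le (hCA _ g1 g2) _
    calc k₁ * E = Real.exp (2 * T * (q R - C₁)) * 1 *
          Real.exp (m * (T * q R + κ l₁ + j * bp q R₀ R₀ - T * CA)) := by
          rw [hk₁, hE, mul_one, ← Real.exp_add, ← Real.exp_add]
          congr 1
          ring
      _ ≤ _ := by gcongr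
  have hupper : ∀ l ∈ Finset.univ.erase l₁, |G l| ≤
      (cs * Real.exp (2 * T * C + m * κ l + m * T * C)) * (E * Real.exp (-(m * c₁ * j))) := by
    intro l hl
    have hne : l ≠ l₁ := (Finset.mem_erase.mp hl).1
    by_cases hsupp : ∃ k, c (k, l) ≠ 0
    swap
    · push Not at hsupp
      have h1 : G l = 0 := by
        rw [hG]
        apply Finset.sum_eq_zero
        intro k _
        rw [hsupp k]; simp
      rw [h1, abs_zero]
      positivity
    have hle : q (lin Q (tot T l)) ≤ q R₀ := hmax l (by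
      rw [Finset.mem_filter]; exact ⟨Finset.mem_univ _, hsupp⟩)
    have hbp : bp q R₀ (lin Q (tot T l)) ≤ bp q R₀ R₀ - c₁ := by
      have h1 : bp q R₀ (R₀ - lin Q (tot T l)) = bp q R₀ R₀ - bp q R₀ (lin Q (tot T l)) := by
        rw [sub_eq_add_neg, bp_add_right hq, bp_neg_right hq]; ring
      have h2 : bp q R₀ (R₀ - lin Q (tot T l)) = q R₀ + q (R₀ - lin Q (tot T l)) -
          q (lin Q (tot T l)) := by
        have e : bp q R₀ (-(R₀ - lin Q (tot T l))) = q (lin Q (tot T l)) - q R₀ -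
            q (R₀ - lin Q (tot T l)) := by
          unfold bp
          rw [quad_neg hq (R₀ - lin Q (tot T l))]
          congr 3
          abel
        rw [bp_neg_right hq] at e
        linarith
      have h3 : c₁ ≤ q (R₀ - lin Q (tot T l)) := by
        apply hc
        rw [hR₀, ← map_sub]
        apply hnt
        intro h
        apply hne
        funext i
        have := congrFun h i
        simp only [Pi.sub_apply, tot, Pi.zero_apply] at this
        apply Fin.ext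
        omega
      linarith
    rw [hfact, abs_mul, abs_mul]
    have h1 : |(dn R : ℝ) ^ (2 * T)| * |∑ k, (c (k, l) : ℝ) * ((ptX R : ℚ) : ℝ) ^ (k : ℕ)| ≤
        cs * Real.exp (2 * T * (q R + C)) := by
      rw [← abs_mul, Finset.mul_sum]
      refine (Finset.abs_sum_le_sum_abs _ _).trans ?_
      have h2 : ∀ k ∈ (Finset.univ : Finset (Fin (T + 1))),
          |(dn R : ℝ) ^ (2 * T) * ((c (k, l) : ℝ) * ((ptX R : ℚ) : ℝ) ^ (k : ℕ))| ≤
            |(c (k, l) : ℝ)| * Real.exp (2 * T * (q R + C)) := by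
        intro k _
        have hk : (k : ℕ) ≤ T := by have := k.2; omega
        have e : (dn R : ℝ) ^ (2 * T) * ((c (k, l) : ℝ) * ((ptX R : ℚ) : ℝ) ^ (k : ℕ)) =
            (c (k, l) : ℝ) * ((an R : ℝ) ^ (k : ℕ) * ((dn R : ℝ) ^ 2) ^ (T - (k : ℕ))) := by
          rw [an_eq hR0, mul_pow]
          have h1 : (dn R : ℝ) ^ (2 * T) = ((dn R : ℝ) ^ 2) ^ (k : ℕ) *
              ((dn R : ℝ) ^ 2) ^ (T - (k : ℕ)) := by
            rw [← pow_add, ← pow_mul]
            congr 2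
            omega
          rw [h1]
          ring
        rw [e, abs_mul]
        apply mul_le_mul_of_nonneg_left _ (abs_nonneg _)
        rw [abs_mul, abs_pow, abs_pow]
        have g1 : |(an R : ℝ)| ^ (k : ℕ) ≤ Real.exp (2 * (q R + C)) ^ (k : ℕ) :=
          pow_le_pow_left₀ (abs_nonneg _) (han R) _
        have g2 : |(dn R : ℝ) ^ 2| ^ (T - (k : ℕ)) ≤ Real.exp (2 * (q R + C)) ^ (T - (k : ℕ)) := by
          apply pow_le_pow_left₀ (abs_nonneg _)
          rw [abs_of_nonneg (by positivity), two_mul (q R + C), Real.exp_add, ← pow_two]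
          exact pow_le_pow_left₀ (Nat.cast_nonneg _) (hup R) 2
        calc _ ≤ Real.exp (2 * (q R + C)) ^ (k : ℕ) * Real.exp (2 * (q R + C)) ^ (T - (k : ℕ)) := by
              gcongr
          _ = Real.exp (2 * T * (q R + C)) := by
              rw [← pow_add, show (k : ℕ) + (T - (k : ℕ)) = T by omega, ← Real.exp_nat_mul]
              congr 1
              ring
      refine (Finset.sum_le_sum h2).trans ?_
      rw [← Finset.sum_mul]
      apply mul_le_mul_of_nonneg_right _ (Real.exp_pos _).le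
      rw [hcs', Fintype.sum_prod_type_right]
      exact Finset.single_le_sum (f := fun l => ∑ k, |((c (k, l) : ℤ) : ℝ)|)
        (fun l _ => Finset.sum_nonneg fun k _ => abs_nonneg _) (Finset.mem_univ l)
    have h3 : |∏ i : Fin T, (dn (R + lin Q (bal T l i)) : ℝ) ^ m| ≤
        Real.exp (m * (T * q R + κ l + j * bp q R₀ (lin Q (tot T l)) + T * C)) := by
      have e : Real.exp (m * (T * q R + κ l + j * bp q R₀ (lin Q (tot T l)) + T * C)) =
          ∏ i : Fin T, Real.exp (q (R + lin Q (bal T l i)) + C) ^ m := by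
        rw [Finset.prod_pow, ← Real.exp_sum, Finset.sum_add_distrib, hqs, ← Real.exp_nat_mul]
        simp
      rw [e, Finset.abs_prod]
      apply Finset.prod_le_prod
      · intro i _; positivity
      · intro i _
        rw [abs_of_nonneg (by positivity)]
        exact pow_le_pow_left₀ (Nat.cast_nonneg _) (hup _) _
    have hjr : (0 : ℝ) ≤ j := Nat.cast_nonneg _
    have h4 : Real.exp (m * (T * q R + κ l + j * bp q R₀ (lin Q (tot T l)) + T * C)) ≤
        Real.exp (m * (T * q R + κ l + j * (bp q R₀ R₀ - c₁) + T * C)) := by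
      apply Real.exp_le_exp.mpr
      have := mul_le_mul_of_nonneg_left hbp hjr
      apply mul_le_mul_of_nonneg_left _ (by positivity)
      linarith
    calc _ ≤ (cs * Real.exp (2 * T * (q R + C))) *
          Real.exp (m * (T * q R + κ l + j * (bp q R₀ R₀ - c₁) + T * C)) := by
          exact mul_le_mul h1 (h3.trans h4) (abs_nonneg _) (by positivity)
      _ = _ := by
          have e1 : ∀ a1 a2 : ℝ, cs * Real.exp a1 * Real.exp a2 = cs * Real.exp (a1 + a2) := by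
            intro a1 a2; rw [Real.exp_add]; ring
          have e2 : ∀ b1 b2 b3 : ℝ, (cs * Real.exp b1) * (Real.exp b2 * Real.exp b3) =
              cs * Real.exp (b1 + b2 + b3) := by
            intro b1 b2 b3; rw [Real.exp_add, Real.exp_add]; ring
          rw [hE, e1, e2]
          congr 2
          ring
  -- conclusion
  have h1 : G l₁ = -∑ l ∈ Finset.univ.erase l₁, G l := by
    have := Finset.add_sum_erase Finset.univ G (Finset.mem_univ l₁)
    rw [hsumG] at this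
    linarith
  have h2 : |G l₁| ≤ K₂ * (E * Real.exp (-(m * c₁ * j))) := by
    rw [h1, abs_neg]
    refine (Finset.abs_sum_le_sum_abs _ _).trans ((Finset.sum_le_sum hupper).trans ?_)
    rw [hK₂, Finset.sum_mul]
    apply Finset.sum_le_sum_of_subset_of_nonneg (Finset.erase_subset _ _)
    intro l _ _
    positivity
  have h3 : k₁ * E ≤ K₂ * (E * Real.exp (-(m * c₁ * j))) := hlower.trans h2
  have h4 : k₁ * Real.exp (m * c₁ * j) ≤ K₂ := by
    have h5 : (k₁ * Real.exp (m * c₁ * j)) * E ≤ K₂ * E := by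
      have h6 := mul_le_mul_of_nonneg_right h3 (Real.exp_pos (m * c₁ * j)).le
      have h7 : K₂ * (E * Real.exp (-(m * c₁ * j))) * Real.exp (m * c₁ * j) = K₂ * E := by
        rw [mul_assoc, mul_assoc, ← Real.exp_add]
        simp
      rw [h7] at h6
      linarith
    exact le_of_mul_le_mul_right h5 hE0
  have h5 : Real.exp (m * c₁ * J) ≤ Real.exp (m * c₁ * j) := by
    apply Real.exp_le_exp.mpr
    have : (J : ℝ) ≤ j := by exact_mod_cast hjJ
    apply mul_le_mul_of_nonneg_left this (by positivity)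
  have h6 : k₁ * Real.exp (m * c₁ * J) ≤ k₁ * Real.exp (m * c₁ * j) :=
    mul_le_mul_of_nonneg_left h5 hk₁0.le
  linarith

end Pool.Agent.Lib.MP_3550b5_nt
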