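import Mathlib
import Pool.Agent.Lib.MP_3550b5_nt.NGrow

/-!
Orthogonal points for the canonical `p`-adic height pairing.
-/

namespace Pool.Agent.Lib.MP_3550b5_nt

open WeierstrassCurve.Affine

variable {a b : ℤ}

/-- The sizes of numerators and denominators in terms of the canonical height. -/
theorem exists_arch2 (hΔ : 4 * a ^ 3 + 27 * b ^ 2 ≠ 0) :
    ∃ (q : (curve a b).Point → ℝ) (C c : ℝ),
      (∀ P Q, q (P + Q) + q (P - Q) = 2 * q P + 2 * q Q) ∧ (∀ P, 0 ≤ q P) ∧ 0 ≤ C ∧ 0 < c ∧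
      (∀ P, ¬ IsOfFinAddOrder P → c ≤ q P) ∧
      (∀ Q, (dn Q : ℝ) ≤ Real.exp (q Q + C)) ∧
      (∀ Q, |(an Q : ℝ)| ≤ Real.exp (2 * (q Q + C))) ∧
      ∀ X : ℚ, 1 ≤ X → ∃ C' : ℝ, ∀ Q : (curve a b).Point, Q ≠ 0 → |ptX Q| ≤ X →
        Real.exp (q Q - C') ≤ (dn Q : ℝ) := by
  obtain ⟨q, C, hq, hC⟩ := exists_canonical hΔ
  obtain ⟨hnn, c, hc, hc'⟩ := canonical_pos hq hC
  have hC0 : 0 ≤ C := (abs_nonneg _).trans (hC 0)
  refine ⟨fun Q => q Q / 2, C, c / 2, ?_, ?_, hC0, by linarith, ?_, ?_, ?_, ?_⟩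
  · intro P Q
    have := hq P Q
    show q (P + Q) / 2 + q (P - Q) / 2 = 2 * (q P / 2) + 2 * (q Q / 2)
    linarith
  · intro P
    have := hnn P
    show 0 ≤ q P / 2
    linarith
  · intro P hP
    have := hc' P hP
    show c / 2 ≤ q P / 2
    linarith
  · intro Q
    refine dn_le.trans (Real.exp_le_exp.mpr ?_)
    have := hC Q
    rw [abs_le] at this
    show nh Q / 2 ≤ q Q / 2 + C
    linarith
  · intro Q
    show |(an Q : ℝ)| ≤ Real.exp (2 * (q Q / 2 + C))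
    by_cases h0 : Q = 0
    · rw [h0]
      have : an (0 : (curve a b).Point) = 0 := by
        show (0 : ℚ).num = 0
        rfl
      rw [this]
      simp only [Int.cast_zero, abs_zero]
      exact (Real.exp_pos _).le
    obtain ⟨A, B, D, hrep, hD, hcop⟩ := exists_rep h0
    have h1 := nh_rep hrep hcop
    have h2 : an Q = A := (rep_num_den hrep hcop).1
    rw [h2]
    rcases eq_or_ne A 0 with hA | hA
    · rw [hA]
      simp only [Int.cast_zero, abs_zero]
      exact (Real.exp_pos _).le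
    have hApos : (0 : ℝ) < |(A : ℝ)| := abs_pos.mpr (by exact_mod_cast hA)
    have h3 : Real.log |(A : ℝ)| ≤ nh Q := by
      rw [h1]
      exact Real.log_le_log hApos (le_max_left _ _)
    have h4 := hC Q
    rw [abs_le] at h4
    calc |(A : ℝ)| = Real.exp (Real.log |(A : ℝ)|) := (Real.exp_log hApos).symm
      _ ≤ _ := Real.exp_le_exp.mpr (by linarith)
  · intro X hX
    refine ⟨(C + Real.log X) / 2, fun Q h0 hx => le_trans (Real.exp_le_exp.mpr ?_)
      (le_dn hX h0 hx)⟩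
    have := hC Q
    rw [abs_le] at this
    show q Q / 2 - (C + Real.log X) / 2 ≤ (nh Q - Real.log X) / 2
    linarith

variable {p : ℕ} [hp : Fact p.Prime]

/-- Choice of the parameters. -/
lemma exists_param (hp5 : 5 ≤ p) {r s : ℕ} (hs : 1 ≤ s) (hr : 3 ≤ r) (hrs : s + 3 ≤ s * r)
    {CP CQ C m : ℝ} (hCP : 0 ≤ CP) (hCQ : 0 ≤ CQ) (hC : 0 ≤ C) (hm : 0 ≤ m) :
    ∃ T B : ℕ, 1 ≤ T ∧ 1 ≤ B ∧ 2 * (3 * B) ^ r ≤ (T + 1) * (T * (B - 1)) ^ s ∧
      ∀ (h : ℕ → ℝ), (∀ S : ℕ, h S = T * (2 * (CP * S ^ 2 + C) +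
        m * (2 * (CP * S ^ 2) + 2 * (CQ * B ^ 2) + C))) →
        ∀ S : ℕ, B ≤ S → (((T + 1) * (T * (B - 1)) ^ s : ℕ) : ℝ) *
          ((((T + 1) * (T * (B - 1)) ^ s : ℕ) : ℝ) * Real.exp (h B) * Real.exp (h (S + 1))) <
          (p : ℝ) ^ (S ^ r) := by
  obtain ⟨t, rfl⟩ : ∃ t, r = t + 2 := ⟨r - 2, by omega⟩
  have ht : 1 ≤ t := by omega
  obtain ⟨A₁, hA₁⟩ : ∃ A₁ : ℝ, A₁ = 2 * CP + 2 * C + m * (2 * CP + 2 * CQ + C) := ⟨_, rfl⟩
  have hA₁0 : 0 ≤ A₁ := by rw [hA₁]; positivity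
  obtain ⟨D, hD⟩ := exists_nat_gt (5 * A₁ + 4 * s + 2)
  have hD2 : 2 ≤ D := by
    have : (2 : ℝ) < D := by
      have : (0 : ℝ) ≤ s := Nat.cast_nonneg _
      linarith
    have : (2 : ℕ) < D := by exact_mod_cast this
    omega
  obtain ⟨j, hj⟩ : ∃ j : ℕ, j = 2 * (3 * D) ^ (t + 2) := ⟨_, rfl⟩
  have hj1 : 1 ≤ j := by rw [hj]; exact Nat.mul_pos (by norm_num) (by positivity)
  obtain ⟨T, hT⟩ : ∃ T : ℕ, T = j ^ t := ⟨_, rfl⟩
  obtain ⟨B, hBd⟩ : ∃ B : ℕ, B = D * j := ⟨_, rfl⟩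
  have hT1 : 1 ≤ T := by rw [hT]; exact Nat.one_le_pow _ _ hj1
  have hB1 : 1 ≤ B := by rw [hBd]; exact Nat.mul_pos (by omega) hj1
  have hBj : j ≤ B - 1 := by
    have : 2 * j ≤ B := by rw [hBd]; exact Nat.mul_le_mul_right j hD2
    omega
  refine ⟨T, B, hT1, hB1, ?_, ?_⟩
  · -- enough unknowns
    have h1 : T * (T * j) ^ s ≤ (T + 1) * (T * (B - 1)) ^ s := by
      apply Nat.mul_le_mul (by omega)
      exact Nat.pow_le_pow_left (Nat.mul_le_mul_left T hBj) s
    refine le_trans ?_ h1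
    have h2 : T * (T * j) ^ s = j ^ (t * (s + 1) + s) := by
      rw [hT, mul_pow, ← pow_mul, pow_add, Nat.mul_add t s 1, pow_add]
      ring
    have h3 : t + 2 + 1 ≤ t * (s + 1) + s := by nlinarith
    rw [h2, hBd]
    calc 2 * (3 * (D * j)) ^ (t + 2) = j ^ (t + 2) * (2 * (3 * D) ^ (t + 2)) := by
          rw [← mul_assoc 3 D j, mul_pow (3 * D) j]; ring
      _ = j ^ (t + 2 + 1) := by rw [← hj, ← pow_succ]
      _ ≤ _ := Nat.pow_le_pow_right hj1 h3
  · intro h hh S hS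
    have hS1 : 1 ≤ S := hB1.trans hS
    have hSr : (1 : ℝ) ≤ S := by exact_mod_cast hS1
    have hBr : (B : ℝ) ≤ S := by exact_mod_cast hS
    have hB0 : (0 : ℝ) ≤ B := Nat.cast_nonneg _
    have hTr : (1 : ℝ) ≤ T := by exact_mod_cast hT1
    have hB2 : (B : ℝ) ^ 2 ≤ (S : ℝ) ^ 2 := pow_le_pow_left₀ hB0 hBr 2
    have hS2 : (1 : ℝ) ≤ (S : ℝ) ^ 2 := one_le_pow₀ hSr
    -- bounds for `h`
    have hb1 : h B ≤ T * (A₁ * S ^ 2) := by
      rw [hh]
      apply mul_le_mul_of_nonneg_left _ (Nat.cast_nonneg _)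
      have e1 : CP * (B : ℝ) ^ 2 ≤ CP * (S : ℝ) ^ 2 := mul_le_mul_of_nonneg_left hB2 hCP
      have e2 : CQ * (B : ℝ) ^ 2 ≤ CQ * (S : ℝ) ^ 2 := mul_le_mul_of_nonneg_left hB2 hCQ
      have e3 : C ≤ C * (S : ℝ) ^ 2 := le_mul_of_one_le_right hC hS2
      have e4 : m * (2 * (CP * (B : ℝ) ^ 2) + 2 * (CQ * (B : ℝ) ^ 2) + C) ≤
          m * ((2 * CP + 2 * CQ + C) * (S : ℝ) ^ 2) := by
        apply mul_le_mul_of_nonneg_left _ hm
        linarith
      rw [hA₁]
      linarith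
    have hb2 : h (S + 1) ≤ T * (A₁ * (4 * S ^ 2)) := by
      rw [hh]
      apply mul_le_mul_of_nonneg_left _ (Nat.cast_nonneg _)
      have e0 : ((S + 1 : ℕ) : ℝ) ^ 2 ≤ 4 * (S : ℝ) ^ 2 := by
        push_cast
        nlinarith
      have e1 : CP * ((S + 1 : ℕ) : ℝ) ^ 2 ≤ CP * (4 * (S : ℝ) ^ 2) :=
        mul_le_mul_of_nonneg_left e0 hCP
      have e2 : CQ * (B : ℝ) ^ 2 ≤ CQ * (4 * (S : ℝ) ^ 2) :=
        mul_le_mul_of_nonneg_left (by linarith) hCQ
      have e3 : C ≤ C * (4 * (S : ℝ) ^ 2) := le_mul_of_one_le_right hC (by linarith)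
      have e4 : m * (2 * (CP * ((S + 1 : ℕ) : ℝ) ^ 2) + 2 * (CQ * (B : ℝ) ^ 2) + C) ≤
          m * ((2 * CP + 2 * CQ + C) * (4 * (S : ℝ) ^ 2)) := by
        apply mul_le_mul_of_nonneg_left _ hm
        linarith
      rw [hA₁]
      linarith
    -- bound for the number of unknowns
    obtain ⟨L, hL⟩ : ∃ L : ℕ, L = (T + 1) * (T * (B - 1)) ^ s := ⟨_, rfl⟩
    rw [← hL]
    have hB1' : 1 ≤ B - 1 := hj1.trans hBj
    have hLpos : 0 < L := by
      rw [hL]
      exact Nat.mul_pos (by omega) (Nat.pow_pos (Nat.mul_pos hT1 hB1'))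
    have hLr : (0 : ℝ) < L := by exact_mod_cast hLpos
    have hlogL : Real.log L ≤ (1 + 2 * s) * (T * S ^ 2) := by
      rw [hL]
      push_cast
      have hT0 : (0 : ℝ) < T := by linarith
      have hBm : (0 : ℝ) < ((B - 1 : ℕ) : ℝ) := by exact_mod_cast hB1'
      rw [Real.log_mul (by positivity) (by positivity), Real.log_pow,
        Real.log_mul (by positivity) (by positivity)]
      have f1 : Real.log (T + 1) ≤ T := by
        have := Real.log_le_sub_one_of_pos (by linarith : (0 : ℝ) < T + 1)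
        linarith
      have f2 : Real.log T ≤ T := by
        have := Real.log_le_sub_one_of_pos hT0
        linarith
      have f3 : Real.log ((B - 1 : ℕ) : ℝ) ≤ S := by
        have := Real.log_le_sub_one_of_pos hBm
        have h5 : ((B - 1 : ℕ) : ℝ) ≤ B := by exact_mod_cast Nat.sub_le B 1
        linarith
      have f4 : (T : ℝ) ≤ T * S ^ 2 := le_mul_of_one_le_right (by linarith) hS2
      have f5 : (S : ℝ) ≤ T * S ^ 2 := by
        calc (S : ℝ) ≤ S ^ 2 := by nlinarith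
          _ ≤ T * S ^ 2 := le_mul_of_one_le_left (by positivity) hTr
      have hs0 : (0 : ℝ) ≤ s := Nat.cast_nonneg _
      have f6 : (s : ℝ) * (Real.log T + Real.log ((B - 1 : ℕ) : ℝ)) ≤
          s * (T * S ^ 2 + T * S ^ 2) := by
        apply mul_le_mul_of_nonneg_left _ hs0
        linarith
      linarith
    have hlogp : 1 ≤ Real.log p := by
      rw [Real.le_log_iff_exp_le (by exact_mod_cast hp.out.pos)]
      have h5 : (5 : ℝ) ≤ p := by exact_mod_cast hp5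
      linarith [Real.exp_one_lt_d9]
    have hmain : (5 * A₁ + 4 * s + 2) * (T * S ^ 2) < (S : ℝ) ^ (t + 2) := by
      have g1 : (D : ℝ) * T ≤ (B : ℝ) ^ t := by
        rw [hBd, hT]
        push_cast
        rw [mul_pow]
        apply mul_le_mul_of_nonneg_right _ (by positivity)
        have hD1 : (1 : ℝ) ≤ D := by
          have : 1 ≤ D := by omega
          exact_mod_cast this
        exact le_self_pow₀ hD1 (by omega)
      have g2 : (B : ℝ) ^ t ≤ (S : ℝ) ^ t := pow_le_pow_left₀ hB0 hBr t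
      have g3 : (5 * A₁ + 4 * s + 2) * T < (S : ℝ) ^ t := by
        have : (5 * A₁ + 4 * s + 2) * T < D * T := mul_lt_mul_of_pos_right hD (by linarith)
        linarith
      calc (5 * A₁ + 4 * s + 2) * (T * S ^ 2) = (5 * A₁ + 4 * s + 2) * T * S ^ 2 := by ring
        _ < (S : ℝ) ^ t * S ^ 2 := mul_lt_mul_of_pos_right g3 (by positivity)
        _ = _ := by rw [pow_add]
    have hpos : (0 : ℝ) < (S : ℝ) ^ (t + 2) := by positivity
    have e0 : (L : ℝ) * (L * Real.exp (h B) * Real.exp (h (S + 1))) =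
        Real.exp (2 * Real.log L + (h B + h (S + 1))) := by
      have hLL : Real.exp (2 * Real.log L) = (L : ℝ) * L := by
        rw [two_mul, Real.exp_add, Real.exp_log hLr]
      rw [Real.exp_add, Real.exp_add, hLL]
      ring
    have e1 : (p : ℝ) ^ (S ^ (t + 2)) = Real.exp ((S : ℝ) ^ (t + 2) * Real.log p) := by
      have hp0 : (0 : ℝ) < p := by exact_mod_cast hp.out.pos
      rw [← Real.exp_log hp0, ← Real.exp_nat_mul, Real.log_exp]
      push_cast
      rfl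
    rw [e0, e1]
    apply Real.exp_lt_exp.mpr
    calc 2 * Real.log L + (h B + h (S + 1)) ≤ (5 * A₁ + 4 * s + 2) * (T * S ^ 2) := by
          linarith
      _ < (S : ℝ) ^ (t + 2) := hmain
      _ = (S : ℝ) ^ (t + 2) * 1 := (mul_one _).symm
      _ ≤ _ := by gcongr

/-- Orthogonal points. -/
theorem orth_bound (hp5 : 5 ≤ p) (hΔ : 4 * a ^ 3 + 27 * b ^ 2 ≠ 0)
    {Bh : (curve a b).Point → (curve a b).Point → ℚ_[p]} (hB : IsCanonicalHeight p a b Bh)
    {r s : ℕ} {P : Fin r → (curve a b).Point} (hP : LinearIndependent ℤ P)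
    {Q : Fin s → (curve a b).Point} (hQ : LinearIndependent ℤ Q)
    (hQP : ∀ j, Q j ∈ Submodule.span ℤ (Set.range P)) (h0 : ∀ i j, Bh (P i) (Q j) = 0) :
    s * r ≤ s + 2 := by
  classical
  by_contra hcon
  push Not at hcon
  have hs : 1 ≤ s := by
    by_contra h
    have : s = 0 := by omega
    rw [this] at hcon
    omega
  have hsr : s ≤ r := by
    have h1 := linearIndependent_le_span' Q hQ (Set.range P) (by
      rintro _ ⟨j, rfl⟩
      exact hQP j)
    have h2 : Fintype.card (Set.range P) ≤ r := by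
      have := Fintype.card_range_le P
      rwa [Fintype.card_fin] at this
    simp only [Cardinal.mk_fintype, Fintype.card_fin] at h1
    have h3 : s ≤ Fintype.card (Set.range P) := by exact_mod_cast h1
    omega
  have hr : 3 ≤ r := by
    by_contra h
    have hr2 : r ≤ 2 := by omega
    interval_cases r <;> omega
  choose g hg using fun j => (Submodule.mem_span_range_iff_exists_fun ℤ).mp (hQP j)
  choose N hN1 hN using fun i => exists_mult_good (p := p) hΔ (P i)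
  obtain ⟨N₀, hN₀⟩ : ∃ N₀ : ℕ, N₀ = ∏ i, N i := ⟨_, rfl⟩
  have hN₀1 : N₀ ≠ 0 := by
    rw [hN₀, Finset.prod_ne_zero_iff]
    intro i _
    have := hN1 i
    omega
  have hN₀z : (N₀ : ℤ) ≠ 0 := by exact_mod_cast hN₀1
  obtain ⟨P', hP'⟩ : ∃ P' : Fin r → (curve a b).Point, P' = fun i => N₀ • P i := ⟨_, rfl⟩
  obtain ⟨Q', hQ'⟩ : ∃ Q' : Fin s → (curve a b).Point, Q' = fun j => N₀ • Q j := ⟨_, rfl⟩
  have hgood : ∀ i, P' i ∈ goodGroup p a b := by
    intro i
    rw [hP']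
    obtain ⟨t, ht⟩ : N i ∣ N₀ := by rw [hN₀]; exact Finset.dvd_prod_of_mem _ (Finset.mem_univ i)
    have e1 : N₀ • P i = t • (N i • P i) := by
      rw [← mul_smul, ht]; congr 1; ring
    show N₀ • P i ∈ _
    rw [e1]
    exact nsmul_mem (hN i) _
  have hQg : ∀ j, Q' j = lin P' (g j) := by
    intro j
    rw [hQ', lin_apply, hP']
    show N₀ • Q j = ∑ i, g j i • N₀ • P i
    rw [← hg j, Finset.smul_sum]
    refine Finset.sum_congr rfl fun i _ => ?_
    rw [smul_comm]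
  have hgoodQ : ∀ j, Q' j ∈ goodGroup p a b := by
    intro j
    rw [hQg, lin_apply]
    exact sum_mem fun i _ => zsmul_mem (hgood i) _
  have hind : ∀ n : Fin r → ℤ, ∑ i, n i • P' i = 0 → n = 0 := by
    intro n hn
    have h1 : ∑ i, (n i * (N₀ : ℤ)) • P i = 0 := by
      rw [← hn, hP']
      refine Finset.sum_congr rfl fun i _ => ?_
      rw [mul_smul, natCast_zsmul]
    have h2 := Fintype.linearIndependent_iff.mp hP (fun i => n i * (N₀ : ℤ)) h1
    funext i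
    exact (mul_eq_zero.mp (h2 i)).resolve_right hN₀z
  have hindQ : ∀ n : Fin s → ℤ, ∑ i, n i • Q' i = 0 → n = 0 := by
    intro n hn
    have h1 : ∑ i, (n i * (N₀ : ℤ)) • Q i = 0 := by
      rw [← hn, hQ']
      refine Finset.sum_congr rfl fun i _ => ?_
      rw [mul_smul, natCast_zsmul]
    have h2 := Fintype.linearIndependent_iff.mp hQ (fun i => n i * (N₀ : ℤ)) h1
    funext i
    exact (mul_eq_zero.mp (h2 i)).resolve_right hN₀z
  have horth : ∀ i j, Bh (P' i) (Q' j) = 0 := by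
    intro i j
    rw [hP', hQ']
    show Bh (N₀ • P i) (N₀ • Q j) = 0
    rw [hB.nsmul, hB.symm, hB.nsmul, hB.symm, h0, mul_zero, mul_zero]
  obtain ⟨q, C, c₁, hq, hnn, hC, hc₁, hc, hup, han, hlow⟩ := exists_arch2 hΔ
  obtain ⟨CP, hCP0, hCP⟩ := quad_lin_le hq hnn P'
  obtain ⟨CQ, hCQ0, hCQ⟩ := quad_lin_le hq hnn Q'
  obtain ⟨T, B, hT, hB1, hN1', hN2⟩ := exists_param hp5 hs hr (by omega) hCP0 hCQ0 hC
    (Nat.cast_nonneg (p - 1) : (0 : ℝ) ≤ ((p - 1 : ℕ) : ℝ))
  obtain ⟨c, hc0, hvan⟩ := exists_aux hp5 hB hs (by omega) hsr hgood hind hgoodQ hindQ horth hq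
    hnn hC hup han hCP0 hCP hCQ hB1 (h := fun S : ℕ => T * (2 * (CP * S ^ 2 + C) +
      ((p - 1 : ℕ) : ℝ) * (2 * (CP * S ^ 2) + 2 * (CQ * B ^ 2) + C))) (fun S => rfl) hN1'
    (hN2 _ fun S => rfl)
  refine growth_contra hΔ hq hc₁ hc hup han hlow hs (Q := Q') (m := p - 1) ?_ (by omega) hT hc0 ?_
  · intro v hv
    apply good_not_torsion (p := p)
    · rw [lin_apply]
      exact sum_mem fun i _ => zsmul_mem (hgoodQ i) _
    · intro h
      exact hv (hindQ v h)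
  · intro v hv
    have h1 : lin Q' v = lin P' (fun i => ∑ j, v j * g j i) := by
      rw [lin_apply, lin_apply]
      have h2 : ∀ j, v j • Q' j = ∑ i, (v j * g j i) • P' i := by
        intro j
        rw [hQg, lin_apply, Finset.smul_sum]
        exact Finset.sum_congr rfl fun i _ => (mul_smul _ _ _).symm
      rw [Finset.sum_congr rfl fun j _ => h2 j, Finset.sum_comm]
      refine Finset.sum_congr rfl fun i _ => ?_
      exact (map_sum ((smulAddHom ℤ _).flip (P' i)) (fun x => v x * g x i) Finset.univ).symm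
    rw [h1] at hv ⊢
    exact hvan _ hv

end Pool.Agent.Lib.MP_3550b5_nt
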