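import Mathlib
import Pool.Agent.Lib.MP_3550b5_nt.RCore

/-!
The rank of the canonical `p`-adic height pairing.
-/

namespace Pool.Agent.Lib.MP_3550b5_nt

open WeierstrassCurve.Affine Filter Topology

lemma exists_K (A c : ℝ) (hA : 0 ≤ A) (hc : 0 < c) :
    ∃ K : ℕ, 1 ≤ K ∧ A * (1 + Real.log K) ^ 2 < c * K := by
  have h1 : Tendsto (fun n : ℕ => 4 * A * ((n : ℝ) ^ 2 / 2 ^ n)) atTop (𝓝 (4 * A * 0)) :=
    (tendsto_pow_const_div_const_pow_of_one_lt 2 (by norm_num : (1 : ℝ) < 2)).const_mul _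
  rw [mul_zero] at h1
  obtain ⟨j, hj, hj1⟩ := ((h1.eventually_lt_const hc).and (eventually_ge_atTop 1)).exists
  refine ⟨2 ^ j, Nat.one_le_two_pow, ?_⟩
  have hj' : (1 : ℝ) ≤ j := by exact_mod_cast hj1
  have h2 : Real.log ((2 ^ j : ℕ) : ℝ) ≤ j := by
    push_cast
    rw [Real.log_pow]
    have : Real.log 2 ≤ 1 := by linarith [Real.log_two_lt_d9]
    nlinarith
  have h3 : 0 ≤ Real.log ((2 ^ j : ℕ) : ℝ) := Real.log_natCast_nonneg _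
  have h4 : (1 + Real.log ((2 ^ j : ℕ) : ℝ)) ^ 2 ≤ 4 * (j : ℝ) ^ 2 := by nlinarith
  have hpos : (0 : ℝ) < 2 ^ j := by positivity
  have h5 : 4 * A * (j : ℝ) ^ 2 < c * 2 ^ j := by
    have h6 := mul_lt_mul_of_pos_right hj hpos
    calc 4 * A * (j : ℝ) ^ 2 = 4 * A * ((j : ℝ) ^ 2 / 2 ^ j) * 2 ^ j := by field_simp
      _ < c * 2 ^ j := h6
  calc A * (1 + Real.log ((2 ^ j : ℕ) : ℝ)) ^ 2 ≤ A * (4 * (j : ℝ) ^ 2) := by gcongr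
    _ = 4 * A * (j : ℝ) ^ 2 := by ring
    _ < c * 2 ^ j := h5
    _ = c * ((2 ^ j : ℕ) : ℝ) := by push_cast; ring

variable {p : ℕ} [hp : Fact p.Prime] {a b : ℤ}

theorem rank_core (hp5 : 5 ≤ p) (hΔ : 4 * a ^ 3 + 27 * b ^ 2 ≠ 0)
    {Bh : (curve a b).Point → (curve a b).Point → ℚ_[p]}
    (hB : IsCanonicalHeight p a b Bh) {r ρ : ℕ} {P : Fin r → (curve a b).Point}
    (hP : ∀ i, P i ∈ goodGroup p a b) (hind : ∀ n : Fin r → ℤ, ∑ i, n i • P i = 0 → n = 0)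
    {x y : Fin r → Fin ρ → ℤ_[p]} (hx : ∀ i k, (p : ℤ_[p]) ∣ x i k)
    (hy : ∀ i k, (p : ℤ_[p]) ∣ y i k)
    (hxy : ∀ i j, ((∑ k, x i k * y j k : ℤ_[p]) : ℚ_[p]) = Bh (P i) (P j)) :
    r ≤ 2 * ρ + 2 := by
  by_contra hcon
  push Not at hcon
  have hr : 1 ≤ r := by omega
  obtain ⟨W₀, hW₀⟩ : ∃ W, W = lin P (fun _ => 1) := ⟨_, rfl⟩
  have hW0 : W₀ ≠ 0 := by
    intro h0
    rw [hW₀, lin_apply] at h0
    have h1 := congrFun (hind _ h0) ⟨0, hr⟩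
    simp at h1
  obtain ⟨q, C, c, hq, hnn, hC, hc, hc', hup, hlow⟩ := exists_arch hΔ hW0
  obtain ⟨C₂, hC₂0, hC₂⟩ := quad_lin_le hq hnn P
  rw [hW₀] at hlow
  have hm4 : (4 : ℝ) ≤ ((p - 1 : ℕ) : ℝ) := by
    have : 4 ≤ p - 1 := by omega
    exact_mod_cast this
  obtain ⟨m, hm⟩ : ∃ m : ℝ, m = ((p - 1 : ℕ) : ℝ) := ⟨_, rfl⟩
  obtain ⟨q₀, hq₀⟩ : ∃ z : ℝ, z = q (lin P (fun _ => 1)) := ⟨_, rfl⟩
  have hq₀0 : 0 ≤ q₀ := by rw [hq₀]; exact hnn _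
  have hm0 : 0 < m := by rw [hm]; linarith
  obtain ⟨R, hR⟩ : ∃ R : ℝ, R = (r : ℝ) * ((ρ : ℝ) + 2) := ⟨_, rfl⟩
  have hR0 : 0 ≤ R := by rw [hR]; positivity
  obtain ⟨A, hA⟩ : ∃ A : ℝ, A = (R + m * q₀ + 2 * m * C) / (m * c) := ⟨_, rfl⟩
  have hA0 : 0 ≤ A := by rw [hA]; positivity
  have hlogp : 0 < Real.log p := Real.log_pos (by exact_mod_cast hp.out.one_lt)
  obtain ⟨K, hK1, hK⟩ := exists_K (R + m * (C₂ * (2 * (A + 6)) ^ 2) + m * C) (Real.log p / 2)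
    (by positivity) (by positivity)
  obtain ⟨ℓ, hℓ⟩ : ∃ z : ℝ, z = 1 + Real.log K := ⟨_, rfl⟩
  have hK1r : (1 : ℝ) ≤ K := by exact_mod_cast hK1
  have hlogK : 0 ≤ Real.log K := Real.log_nonneg hK1r
  have hℓ1 : 1 ≤ ℓ := by rw [hℓ]; linarith
  rw [← hℓ] at hK
  obtain ⟨N, hN⟩ : ∃ N : ℕ, N = 2 * K ^ (ρ + 1) := ⟨_, rfl⟩
  have hN1 : 1 ≤ N := by
    rw [hN]
    have : 1 ≤ K ^ (ρ + 1) := Nat.one_le_pow _ _ hK1
    omega
  have hN1r : (1 : ℝ) ≤ N := by exact_mod_cast hN1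
  obtain ⟨l, hl⟩ : ∃ l : ℕ, l = ⌈A * ℓ⌉₊ + 3 := ⟨_, rfl⟩
  have hlA : A * ℓ + 3 ≤ l := by
    rw [hl]; push_cast
    linarith [Nat.le_ceil (A * ℓ)]
  have hlA' : (l : ℝ) + 2 ≤ (A + 6) * ℓ := by
    rw [hl]; push_cast
    have h1 := Nat.ceil_lt_add_one (a := A * ℓ) (by positivity)
    nlinarith
  have hlogN : Real.log ((N ^ r : ℕ) : ℝ) ≤ R * ℓ := by
    push_cast
    rw [Real.log_pow, hR, mul_assoc]
    apply mul_le_mul_of_nonneg_left _ (Nat.cast_nonneg _)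
    rw [hN]
    push_cast
    rw [Real.log_mul (by norm_num) (by positivity), Real.log_pow]
    have : Real.log 2 ≤ 1 := by linarith [Real.log_two_lt_d9]
    push_cast
    rw [hℓ]
    have hρ : (0 : ℝ) ≤ ρ := Nat.cast_nonneg _
    nlinarith
  have hlV : Real.log ((N ^ r : ℕ) : ℝ) + ((p - 1 : ℕ) : ℝ) * q (lin P (fun _ => 1)) +
      2 * ((p - 1 : ℕ) : ℝ) * C < ((p - 1 : ℕ) : ℝ) * (l - 1) * c := by
    rw [← hm, ← hq₀]
    have h1 : m * c * (A * ℓ) = (R + m * q₀ + 2 * m * C) * ℓ := by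
      rw [hA]; field_simp
    have h2 : m * c * (A * ℓ) < m * c * (l - 1) :=
      mul_lt_mul_of_pos_left (by linarith) (by positivity)
    have h3 : m * q₀ ≤ m * q₀ * ℓ := le_mul_of_one_le_right (by positivity) hℓ1
    have h4 : 2 * m * C ≤ 2 * m * C * ℓ := le_mul_of_one_le_right (by positivity) hℓ1
    nlinarith
  obtain ⟨h, hh⟩ : ∃ h : ℕ, h = N ^ 2 * K := ⟨_, rfl⟩
  have hhr : 2 * h ^ (ρ + 1) ≤ N ^ r := by
    have e : 2 * h ^ (ρ + 1) = N ^ (2 * (ρ + 1) + 1) := by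
      calc 2 * h ^ (ρ + 1) = (N ^ 2) ^ (ρ + 1) * (2 * K ^ (ρ + 1)) := by
            rw [hh, mul_pow]; ring
        _ = (N ^ 2) ^ (ρ + 1) * N := by rw [← hN]
        _ = N ^ (2 * (ρ + 1) + 1) := by rw [← pow_mul, pow_succ]
    rw [e]
    exact Nat.pow_le_pow_right hN1 (by omega)
  have key := main_ineq hp5 hB hr hP hind hx hy hxy hq hnn hc' hup hlow hC₂ hN1 (by omega) hlV hhr
  rw [← hm] at key
  have h1 : (h : ℝ) = (N : ℝ) ^ 2 * K := by rw [hh]; push_cast; ring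
  rw [h1] at key
  have h2 : (2 * ((l : ℝ) + 2) * N) ^ 2 ≤ (2 * ((A + 6) * ℓ) * N) ^ 2 := by
    apply pow_le_pow_left₀ (by positivity)
    gcongr
  have h3 : R * ℓ ≤ (N : ℝ) ^ 2 * ℓ ^ 2 * R := by
    have : ℓ ≤ (N : ℝ) ^ 2 * ℓ ^ 2 := by
      calc ℓ = 1 * ℓ := (one_mul _).symm
        _ ≤ (N : ℝ) ^ 2 * ℓ := by
            gcongr
            exact one_le_pow₀ hN1r
        _ ≤ (N : ℝ) ^ 2 * ℓ ^ 2 := by
            gcongr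
            nlinarith
    calc R * ℓ ≤ R * ((N : ℝ) ^ 2 * ℓ ^ 2) := mul_le_mul_of_nonneg_left this hR0
      _ = _ := mul_comm _ _
  have h4 : m * C ≤ (N : ℝ) ^ 2 * ℓ ^ 2 * (m * C) := by
    have : 1 ≤ (N : ℝ) ^ 2 * ℓ ^ 2 := by
      have e1 : 1 ≤ (N : ℝ) ^ 2 := one_le_pow₀ hN1r
      have e2 : 1 ≤ ℓ ^ 2 := one_le_pow₀ hℓ1
      exact one_le_mul_of_one_le_of_one_le e1 e2
    exact le_mul_of_one_le_left (mul_nonneg hm0.le hC) this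
  have h5 : (N : ℝ) ^ 2 * K / 2 * Real.log p ≤
      (N : ℝ) ^ 2 * ((R + m * (C₂ * (2 * (A + 6)) ^ 2) + m * C) * ℓ ^ 2) := by
    calc _ ≤ _ := key
      _ ≤ R * ℓ + m * (C₂ * (2 * ((A + 6) * ℓ) * N) ^ 2 + C) := by
          have := mul_le_mul_of_nonneg_left h2 hC₂0
          have := mul_le_mul_of_nonneg_left this hm0.le
          linarith
      _ ≤ (N : ℝ) ^ 2 * ℓ ^ 2 * R + (N : ℝ) ^ 2 * ℓ ^ 2 * (m * (C₂ * (2 * (A + 6)) ^ 2)) +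
            (N : ℝ) ^ 2 * ℓ ^ 2 * (m * C) := by
          have e : m * (C₂ * (2 * ((A + 6) * ℓ) * N) ^ 2 + C) =
            (N : ℝ) ^ 2 * ℓ ^ 2 * (m * (C₂ * (2 * (A + 6)) ^ 2)) + m * C := by ring
          rw [e]
          linarith
      _ = _ := by ring
  have h6 : (N : ℝ) ^ 2 * (Real.log p / 2 * K) ≤
      (N : ℝ) ^ 2 * ((R + m * (C₂ * (2 * (A + 6)) ^ 2) + m * C) * ℓ ^ 2) := by
    calc _ = (N : ℝ) ^ 2 * K / 2 * Real.log p := by ring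
      _ ≤ _ := h5
  have h7 := le_of_mul_le_mul_left h6 (by positivity)
  linarith

end Pool.Agent.Lib.MP_3550b5_nt
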