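import Mathlib
import Pool.Agent.Lib.MP_3550b5_nt.RMain

/-!
The rank of the canonical `p`-adic height pairing: conclusion.
-/

namespace Pool.Agent.Lib.MP_3550b5_nt

open WeierstrassCurve.Affine

/-- Factorisation of a matrix through a space whose dimension is its rank. -/
lemma exists_rank_fact {K : Type*} [Field K] {r : ℕ} (M : Matrix (Fin r) (Fin r) K) :
    ∃ x y : Fin r → Fin M.rank → K, ∀ i j, ∑ k, x i k * y j k = M i j := by
  obtain ⟨U, hU⟩ : ∃ U, U = Submodule.span K (Set.range M.col) := ⟨_, rfl⟩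
  have hrank : Module.finrank K U = M.rank := by rw [hU, Matrix.rank_eq_finrank_span_cols]
  have hbase := Module.finBasisOfFinrankEq K U hrank
  have hmem : ∀ j, M.col j ∈ U := fun j => by
    rw [hU]; exact Submodule.subset_span ⟨j, rfl⟩
  refine ⟨fun i k => (hbase k : Fin r → K) i, fun j k => hbase.repr ⟨M.col j, hmem j⟩ k,
    fun i j => ?_⟩
  have h1 := hbase.sum_repr ⟨M.col j, hmem j⟩
  have h2 := congrArg (fun u : U => (u : Fin r → K) i) h1
  simp only [Submodule.coe_sum, Submodule.coe_smul, Finset.sum_apply, Pi.smul_apply,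
    smul_eq_mul] at h2
  have h3 : M.col j i = M i j := rfl
  rw [← h3, ← h2]
  exact Finset.sum_congr rfl fun k _ => mul_comm _ _

variable {p : ℕ} [hp : Fact p.Prime]

lemma exists_scale (z : ℚ_[p]) : ∃ e : ℕ, ∀ e', e ≤ e' → ∃ w : ℤ_[p], (p : ℤ_[p]) ∣ w ∧
    (w : ℚ_[p]) = (p : ℚ_[p]) ^ e' * z := by
  obtain ⟨e, he⟩ := pow_unbounded_of_one_lt ‖z‖
    (show (1 : ℝ) < p by exact_mod_cast hp.out.one_lt)
  refine ⟨e + 1, fun e' h => ?_⟩
  have hp0 : (0 : ℝ) < p := by exact_mod_cast hp.out.pos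
  have h1 : ‖(p : ℚ_[p]) ^ (e' - 1) * z‖ ≤ 1 := by
    rw [norm_mul, norm_pow, Padic.norm_p]
    have h2 : ((p : ℝ)⁻¹) ^ (e' - 1) ≤ ((p : ℝ)⁻¹) ^ e := by
      apply pow_le_pow_of_le_one (by positivity)
      · exact inv_le_one_of_one_le₀ (by exact_mod_cast hp.out.one_le)
      · omega
    calc ((p : ℝ)⁻¹) ^ (e' - 1) * ‖z‖ ≤ ((p : ℝ)⁻¹) ^ e * (p : ℝ) ^ e := by gcongr
      _ = 1 := by rw [← mul_pow, inv_mul_cancel₀ hp0.ne', one_pow]
  obtain ⟨w, hw⟩ : ∃ w : ℤ_[p], (w : ℚ_[p]) = (p : ℚ_[p]) ^ (e' - 1) * z := ⟨⟨_, h1⟩, rfl⟩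
  refine ⟨p * w, Dvd.intro _ rfl, ?_⟩
  rw [PadicInt.coe_mul, hw, PadicInt.coe_natCast, ← mul_assoc, ← pow_succ',
    show e' - 1 + 1 = e' by omega]

variable {a b : ℤ}

/-- The rank of the canonical `p`-adic height pairing on a group of rank `r` is at least
`r / 2 - 1`. -/
theorem rank_bound (hp5 : 5 ≤ p) (hΔ : 4 * a ^ 3 + 27 * b ^ 2 ≠ 0)
    {Bh : (curve a b).Point → (curve a b).Point → ℚ_[p]} (hB : IsCanonicalHeight p a b Bh)
    {r : ℕ} {P : Fin r → (curve a b).Point} (hP : LinearIndependent ℤ P) :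
    r ≤ 2 * (Matrix.of fun i j => Bh (P i) (P j)).rank + 2 := by
  classical
  obtain ⟨M, hM⟩ : ∃ M : Matrix (Fin r) (Fin r) ℚ_[p], M = Matrix.of fun i j => Bh (P i) (P j) :=
    ⟨_, rfl⟩
  rw [← hM]
  obtain ⟨X, Y, hXY⟩ := exists_rank_fact M
  choose N hN1 hN using fun i => exists_mult_good (p := p) hΔ (P i)
  choose eX heX using fun (v : Fin r × Fin M.rank) => exists_scale (X v.1 v.2)
  choose eY heY using fun (v : Fin r × Fin M.rank) => exists_scale (Y v.1 v.2)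
  obtain ⟨e, he⟩ : ∃ e, e = (Finset.univ.sup eX) ⊔ (Finset.univ.sup eY) := ⟨_, rfl⟩
  choose x hx1 hx2 using fun (i : Fin r) (k : Fin M.rank) => heX (i, k) e (by
    rw [he]; exact le_sup_of_le_left (Finset.le_sup (Finset.mem_univ (i, k))))
  choose y hy1 hy2 using fun (i : Fin r) (k : Fin M.rank) => heY (i, k) e (by
    rw [he]; exact le_sup_of_le_right (Finset.le_sup (Finset.mem_univ (i, k))))
  obtain ⟨N₀, hN₀⟩ : ∃ N₀ : ℕ, N₀ = ∏ i, N i := ⟨_, rfl⟩
  have hN₀1 : N₀ ≠ 0 := by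
    rw [hN₀, Finset.prod_ne_zero_iff]
    intro i _
    have := hN1 i
    omega
  have hgood : ∀ i, (p ^ e * N₀) • P i ∈ goodGroup p a b := by
    intro i
    obtain ⟨t, ht⟩ : N i ∣ N₀ := by rw [hN₀]; exact Finset.dvd_prod_of_mem _ (Finset.mem_univ i)
    have e1 : (p ^ e * N₀) • P i = (p ^ e * t) • (N i • P i) := by
      rw [← mul_smul, ht]; congr 1; ring
    rw [e1]
    exact nsmul_mem (hN i) _
  have hNN : ((p ^ e * N₀ : ℕ) : ℤ) ≠ 0 := by
    have := hp.out.ne_zero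
    positivity
  refine rank_core hp5 hΔ hB (P := fun i => (p ^ e * N₀) • P i) hgood ?_
    (x := fun i k => (N₀ : ℤ_[p]) * x i k) (y := fun i k => (N₀ : ℤ_[p]) * y i k)
    (fun i k => Dvd.dvd.mul_left (hx1 i k) _) (fun i k => Dvd.dvd.mul_left (hy1 i k) _) ?_
  · intro n hn
    have h1 : ∑ i, (n i * ((p ^ e * N₀ : ℕ) : ℤ)) • P i = 0 := by
      rw [← hn]
      refine Finset.sum_congr rfl fun i _ => ?_
      rw [mul_smul, natCast_zsmul]
    have h2 := Fintype.linearIndependent_iff.mp hP (fun i => n i * ((p ^ e * N₀ : ℕ) : ℤ)) h1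
    funext i
    exact (mul_eq_zero.mp (h2 i)).resolve_right hNN
  · intro i j
    rw [hB.nsmul, hB.symm, hB.nsmul, hB.symm]
    have h1 : Bh (P i) (P j) = M i j := by rw [hM]; rfl
    rw [h1, ← hXY, PadicInt.coe_sum, Finset.mul_sum, Finset.mul_sum]
    refine Finset.sum_congr rfl fun k _ => ?_
    rw [PadicInt.coe_mul, PadicInt.coe_mul, PadicInt.coe_mul, hx2, hy2, PadicInt.coe_natCast]
    push_cast
    ring

end Pool.Agent.Lib.MP_3550b5_nt
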